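import Mathlib

set_option autoImplicit false

/-!
# Polynomial sequences in nilpotent groups

`dd h g n = (g n)⁻¹ * g (n + h)` is the difference of a sequence `g : ℕ → G` with values in a
group and `Dv s g` says that all `s`-fold differences of `g` are trivial.  The main result is
Leibman's theorem in the form needed for products of powers `x ^ P(n)`: in a nilpotent group all
sequences in the group generated by `n ↦ x ^ P(n)`, `P` an integer polynomial of degree at most
`D`, satisfy `Dv s` for a common `s` (`poly_Dv`).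
-/

open Polynomial

namespace Pool.Lib.PolySeq

variable {G : Type*} [Group G]

/-- difference of a sequence -/
def dd (h : ℕ) (g : ℕ → G) : ℕ → G := fun n => (g n)⁻¹ * g (n + h)

/-- a filtration -/
structure Filt (F : ℕ → Subgroup G) : Prop where
  anti : ∀ i, F (i + 1) ≤ F i
  comm : ∀ i j, ∀ x ∈ F i, ∀ y ∈ F j, x * y * x⁻¹ * y⁻¹ ∈ F (i + j)

/-- sequences adapted to the filtration, up to order `k` -/
def Q (F : ℕ → Subgroup G) : ℕ → ℕ → Set (ℕ → G)
  | 0, i => {g | ∀ n, g n ∈ F i}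
  | k + 1, i => {g | (∀ n, g n ∈ F i) ∧ ∀ h, dd h g ∈ Q F k (i + 1)}

lemma Q_val {F : ℕ → Subgroup G} {k i : ℕ} {g : ℕ → G} (hg : g ∈ Q F k i) (n : ℕ) :
    g n ∈ F i := by
  cases k with
  | zero => exact hg n
  | succ k => exact hg.1 n

lemma Q_succ {F : ℕ → Subgroup G} {k : ℕ} : ∀ {i : ℕ} {g : ℕ → G}, g ∈ Q F (k + 1) i →
    g ∈ Q F k i := by
  induction k with
  | zero => intro i g hg; exact hg.1
  | succ k ih => intro i g hg; exact ⟨hg.1, fun h => ih (hg.2 h)⟩

lemma Q_anti {F : ℕ → Subgroup G} (hF : Filt F) {k : ℕ} : ∀ {i : ℕ} {g : ℕ → G},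
    g ∈ Q F k (i + 1) → g ∈ Q F k i := by
  induction k with
  | zero => intro i g hg n; exact hF.anti i (hg n)
  | succ k ih => intro i g hg; exact ⟨fun n => hF.anti i (hg.1 n), fun h => ih (hg.2 h)⟩

lemma Q_le {F : ℕ → Subgroup G} (hF : Filt F) {k i j : ℕ} (hij : i ≤ j) {g : ℕ → G}
    (hg : g ∈ Q F k j) : g ∈ Q F k i := by
  induction j, hij using Nat.le_induction with
  | base => exact hg
  | succ j _ ih => exact ih (Q_anti hF hg)

/-- All closure properties at level `k`. -/
structure Good (F : ℕ → Subgroup G) (k : ℕ) : Prop where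
  mul : ∀ i g g', g ∈ Q F k i → g' ∈ Q F k i → g * g' ∈ Q F k i
  inv : ∀ i g, g ∈ Q F k i → g⁻¹ ∈ Q F k i
  comm : ∀ i j g g', g ∈ Q F k i → g' ∈ Q F k j → g * g' * g⁻¹ * g'⁻¹ ∈ Q F k (i + j)

lemma Good.conj {F : ℕ → Subgroup G} (hF : Filt F) {k : ℕ} (h : Good F k) {i j : ℕ}
    {v u : ℕ → G} (hv : v ∈ Q F k j) (hu : u ∈ Q F k i) : v * u * v⁻¹ ∈ Q F k i := by
  have e : v * u * v⁻¹ = (v * u * v⁻¹ * u⁻¹) * u := by group
  rw [e]
  exact h.mul i _ _ (Q_le hF (by omega) (h.comm j i v u hv hu)) hu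

/-- **Lazard–Leibman theorem** (truncated form). -/
theorem good {F : ℕ → Subgroup G} (hF : Filt F) (k : ℕ) : Good F k := by
  induction k with
  | zero =>
    refine ⟨fun i g g' hg hg' n => (F i).mul_mem (hg n) (hg' n),
      fun i g hg n => (F i).inv_mem (hg n), fun i j g g' hg hg' n => ?_⟩
    exact hF.comm i j (g n) (hg n) (g' n) (hg' n)
  | succ k ih =>
    refine ⟨fun i g g' hg hg' => ⟨fun n => (F i).mul_mem (hg.1 n) (hg'.1 n), fun h => ?_⟩,
      fun i g hg => ⟨fun n => (F i).inv_mem (hg.1 n), fun h => ?_⟩,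
      fun i j g g' hg hg' => ⟨fun n => hF.comm i j (g n) (hg.1 n) (g' n) (hg'.1 n), fun h => ?_⟩⟩
    · have e : dd h (g * g') = (g'⁻¹ * dd h g * (g'⁻¹)⁻¹) * dd h g' := by
        funext n
        simp only [dd, Pi.mul_apply, Pi.inv_apply]
        group
      rw [e]
      exact ih.mul _ _ _ (ih.conj hF (ih.inv i _ (Q_succ hg')) (hg.2 h)) (hg'.2 h)
    · have e : dd h g⁻¹ = g * (dd h g)⁻¹ * g⁻¹ := by
        funext n
        simp only [dd, Pi.mul_apply, Pi.inv_apply]
        group
      rw [e]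
      exact ih.conj hF (Q_succ hg) (ih.inv _ _ (hg.2 h))
    · set u := dd h g with hu
      set u' := dd h g' with hu'
      set w := g' * u' with hw
      set c := g * g' * g⁻¹ * g'⁻¹ with hc
      have hg0 := Q_succ hg
      have hg0' := Q_succ hg'
      have e : dd h c = (c⁻¹ * (g * (u * w * u⁻¹ * w⁻¹) * g⁻¹) * (c⁻¹)⁻¹) *
          (g' * (g * u' * g⁻¹ * u'⁻¹) * g'⁻¹) := by
        funext n
        simp only [hc, hw, hu, hu', dd, Pi.mul_apply, Pi.inv_apply]
        group
      rw [e]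
      have hwj : w ∈ Q F k j := ih.mul j _ _ hg0' (Q_anti hF (hg'.2 h))
      have m1 : u * w * u⁻¹ * w⁻¹ ∈ Q F k (i + j + 1) := by
        have := ih.comm (i + 1) j u w (hg.2 h) hwj
        rwa [show i + 1 + j = i + j + 1 by ring] at this
      have m2 : g * u' * g⁻¹ * u'⁻¹ ∈ Q F k (i + j + 1) := by
        have := ih.comm i (j + 1) g u' hg0 (hg'.2 h)
        rwa [← add_assoc] at this
      have hcm : c ∈ Q F k (i + j) := ih.comm i j g g' hg0 hg0'
      exact ih.mul _ _ _ (ih.conj hF (ih.inv _ _ hcm) (ih.conj hF hg0 m1)) (ih.conj hF hg0' m2)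

lemma one_mem_Q {F : ℕ → Subgroup G} (k : ℕ) : ∀ i, (1 : ℕ → G) ∈ Q F k i := by
  induction k with
  | zero => intro i n; exact (F i).one_mem
  | succ k ih =>
    intro i
    refine ⟨fun n => (F i).one_mem, fun h => ?_⟩
    have e : dd h (1 : ℕ → G) = 1 := by
      funext n; simp [dd]
    rw [e]
    exact ih (i + 1)

/-- powers with polynomial exponents -/
lemma pow_mem_Q {F : ℕ → Subgroup G} (k : ℕ) : ∀ (i D : ℕ) (x : G) (_ : x ∈ F (i + D))
    (_ : ∀ a b, a ≤ b → F b ≤ F a) (P : ℤ[X]) (_ : P.natDegree ≤ D),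
    (fun n : ℕ => x ^ (P.eval (n : ℤ))) ∈ Q F k i := by
  induction k with
  | zero =>
    intro i D x hx hanti P _ n
    exact (F i).zpow_mem (hanti i (i + D) (by omega) hx) _
  | succ k ih =>
    intro i D x hx hanti P hP
    refine ⟨fun n => (F i).zpow_mem (hanti i (i + D) (by omega) hx) _, fun h => ?_⟩
    set R : ℤ[X] := P.comp (X + C (h : ℤ)) - P with hR
    have e : dd h (fun n : ℕ => x ^ (P.eval (n : ℤ))) = fun n : ℕ => x ^ (R.eval (n : ℤ)) := by
      funext n
      simp only [dd, hR, eval_sub, eval_comp, eval_add, eval_X, eval_C, Nat.cast_add]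
      rw [← zpow_neg, ← zpow_add, neg_add_eq_sub]
    rw [e]
    cases D with
    | zero =>
      have hP0 : P = C (P.coeff 0) := eq_C_of_natDegree_le_zero hP
      have hR0 : R = 0 := by
        rw [hR, hP0]; simp
      have e2 : (fun n : ℕ => x ^ (R.eval (n : ℤ))) = 1 := by
        funext n; rw [hR0]; simp
      rw [e2]
      exact one_mem_Q k (i + 1)
    | succ D =>
      apply ih (i + 1) D x (by rwa [show i + 1 + D = i + (D + 1) by ring]) hanti
      -- degree drops
      rw [hR]
      by_cases hc : P.natDegree ≤ D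
      · refine (natDegree_sub_le _ _).trans (max_le ?_ hc)
        rw [natDegree_comp, natDegree_X_add_C, mul_one]
        exact hc
      · have hdeg : P.natDegree = D + 1 := by omega
        have hcomp : (P.comp (X + C (h : ℤ))).natDegree = D + 1 := by
          rw [natDegree_comp, natDegree_X_add_C, mul_one, hdeg]
        rw [natDegree_le_iff_coeff_eq_zero]
        intro N hN
        rw [coeff_sub]
        rcases lt_or_eq_of_le (Nat.succ_le_of_lt hN) with h1 | h1
        · rw [coeff_eq_zero_of_natDegree_lt (by rw [hcomp]; exact h1),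
            coeff_eq_zero_of_natDegree_lt (by rw [hdeg]; exact h1), sub_zero]
        · have h2 : N = D + 1 := h1.symm
          have h3 : (P.comp (X + C (h : ℤ))).coeff (D + 1) = P.coeff (D + 1) := by
            have h4 := leadingCoeff_comp (p := P) (q := X + C (h : ℤ))
              (by rw [natDegree_X_add_C]; norm_num)
            rw [leadingCoeff_X_add_C, one_pow, mul_one] at h4
            unfold leadingCoeff at h4
            rwa [hcomp, hdeg] at h4
          rw [h2, h3, sub_self]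

/-- all `s`-fold differences are trivial -/
def Dv : ℕ → (ℕ → G) → Prop
  | 0, g => ∀ n, g n = 1
  | s + 1, g => ∀ h, Dv s (dd h g)

lemma Dv_of_Q {F : ℕ → Subgroup G} {k : ℕ} : ∀ {i : ℕ} {g : ℕ → G}, g ∈ Q F k i →
    F (i + k) = ⊥ → Dv k g := by
  induction k with
  | zero =>
    intro i g hg hF n
    have := hg n
    rw [add_zero] at hF
    rw [hF] at this
    exact Subgroup.mem_bot.mp this
  | succ k ih =>
    intro i g hg hF h
    exact ih (hg.2 h) (by rwa [show i + 1 + k = i + (k + 1) by ring])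

/-- index function -/
def ee (D i : ℕ) : ℕ := Nat.clog 2 ((i + D) / (D + 1))

lemma ee_le_iff (D i k : ℕ) : ee D i ≤ k ↔ (i + D) / (D + 1) ≤ 2 ^ k :=
  Nat.clog_le_iff_le_pow (by norm_num)

lemma ee_mono (D : ℕ) {i j : ℕ} (h : i ≤ j) : ee D i ≤ ee D j := by
  unfold ee
  apply Nat.clog_mono_right
  apply Nat.div_le_div_right
  omega

lemma ee_add (D i j : ℕ) : ee D (i + j) ≤ max (ee D i) (ee D j) + 1 := by
  rw [ee_le_iff]
  have h1 : (i + D) / (D + 1) ≤ 2 ^ (max (ee D i) (ee D j)) :=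
    (ee_le_iff D i _).mp (le_max_left _ _)
  have h2 : (j + D) / (D + 1) ≤ 2 ^ (max (ee D i) (ee D j)) :=
    (ee_le_iff D j _).mp (le_max_right _ _)
  set M := 2 ^ (max (ee D i) (ee D j)) with hM
  have e : 2 ^ (max (ee D i) (ee D j) + 1) = 2 * M := by rw [pow_succ, hM]; ring
  rw [e]
  have h1' : i + D < (D + 1) * (M + 1) := by
    have := Nat.lt_mul_div_succ (i + D) (Nat.succ_pos D)
    calc i + D < (D + 1) * ((i + D) / (D + 1) + 1) := this
      _ ≤ _ := Nat.mul_le_mul_left _ (by omega)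
  have h2' : j + D < (D + 1) * (M + 1) := by
    have := Nat.lt_mul_div_succ (j + D) (Nat.succ_pos D)
    calc j + D < (D + 1) * ((j + D) / (D + 1) + 1) := this
      _ ≤ _ := Nat.mul_le_mul_left _ (by omega)
  have h3 : i + j + D < (2 * M + 1) * (D + 1) := by nlinarith
  have h4 := (Nat.div_lt_iff_lt_mul (show 0 < D + 1 by omega)).mpr h3
  exact Nat.lt_succ_iff.mp h4

/-- The filtration used for exponents of degree at most `D`. -/
def lcF (G : Type*) [Group G] (D : ℕ) (i : ℕ) : Subgroup G :=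
  (⊤ : Subgroup G).lowerCentralSeries (ee D i)

lemma lcF_anti (D : ℕ) (a b : ℕ) (h : a ≤ b) : lcF G D b ≤ lcF G D a :=
  (⊤ : Subgroup G).lowerCentralSeries_antitone (ee_mono D h)

lemma lcF_filt (D : ℕ) : Filt (lcF G D) := by
  refine ⟨fun i => lcF_anti D i (i + 1) (by omega), fun i j x hx y hy => ?_⟩
  have key : ∀ (a : ℕ) (x y : G), x ∈ (⊤ : Subgroup G).lowerCentralSeries a →
      x * y * x⁻¹ * y⁻¹ ∈ (⊤ : Subgroup G).lowerCentralSeries (a + 1) := by
    intro a x y hx
    rw [Subgroup.lowerCentralSeries_succ]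
    exact Subgroup.commutator_mem_commutator hx (Subgroup.mem_top y)
  apply (⊤ : Subgroup G).lowerCentralSeries_antitone (ee_add D i j)
  rcases le_total (ee D i) (ee D j) with h | h
  · rw [max_eq_right h]
    have h1 := key (ee D j) y x hy
    have h2 := ((⊤ : Subgroup G).lowerCentralSeries (ee D j + 1)).inv_mem h1
    have e : (y * x * y⁻¹ * x⁻¹)⁻¹ = x * y * x⁻¹ * y⁻¹ := by group
    rwa [e] at h2
  · rw [max_eq_left h]
    exact key (ee D i) x y hx

lemma ee_top (D : ℕ) : ee D D = 0 := by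
  have : ee D D ≤ 0 := by
    rw [ee_le_iff, pow_zero]
    have : (D + D) / (D + 1) < 2 := by
      rw [Nat.div_lt_iff_lt_mul (Nat.succ_pos D)]; omega
    omega
  omega

lemma ee_big (D c : ℕ) : ee D ((D + 1) * 2 ^ c) = c := by
  unfold ee
  have : ((D + 1) * 2 ^ c + D) / (D + 1) = 2 ^ c := by
    rw [add_comm, Nat.add_mul_div_left _ _ (Nat.succ_pos D), Nat.div_eq_of_lt (Nat.lt_succ_self D)]
    ring
  rw [this]
  exact Nat.clog_pow 2 c (by norm_num)

/-- the sequences `n ↦ x ^ P(n)` with `deg P ≤ D` -/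
def monos (G : Type*) [Group G] (D : ℕ) : Set (ℕ → G) :=
  {g | ∃ (x : G) (P : ℤ[X]), P.natDegree ≤ D ∧ g = fun n : ℕ => x ^ (P.eval (n : ℤ))}

/-- **Leibman's theorem** for products of powers with polynomial exponents. -/
theorem poly_Dv [Group.IsNilpotent G] (D : ℕ) :
    ∃ s : ℕ, ∀ g ∈ Subgroup.closure (monos G D), Dv s g := by
  set c := Group.nilpotencyClass G with hc
  set s := (D + 1) * 2 ^ c with hs
  have hbot : lcF G D s = ⊥ := by
    unfold lcF
    rw [hs, ee_big]
    exact Subgroup.lowerCentralSeries_nilpotencyClass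
  refine ⟨s, fun g hg => ?_⟩
  have hF := lcF_filt (G := G) D
  have hgood := good hF s
  have hmem : g ∈ Q (lcF G D) s 0 := by
    induction hg using Subgroup.closure_induction with
    | mem x hx =>
      obtain ⟨y, P, hP, rfl⟩ := hx
      apply pow_mem_Q s 0 D y _ (lcF_anti D) P hP
      rw [zero_add]
      unfold lcF
      rw [ee_top]
      exact Subgroup.mem_top _
    | one => exact one_mem_Q s 0
    | mul x y _ _ hx hy => exact hgood.mul 0 _ _ hx hy
    | inv x _ hx => exact hgood.inv 0 _ hx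
  exact Dv_of_Q hmem (by rw [zero_add]; exact hbot)

end Pool.Lib.PolySeq
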