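import Mathlib

/-!
# Brouwer's fixed point theorem

The Milnor–Rogers proof.  Main statements (all for a finite dimensional real inner product
space `E`, in particular for `EuclideanSpace ℝ (Fin n)`):

* `Pool.Lib.no_C1_retraction`: there is no `C¹` retraction of the closed unit ball onto the sphere.
* `Pool.Lib.brouwer_fixed_point_of_innerProductSpace`
* `Pool.Lib.brouwer_fixed_point`
-/

open MeasureTheory Metric Set Polynomial
open scoped NNReal ENNReal Topology

namespace Pool.Lib

noncomputable section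

section Poly

/-- `det (1 + t A)` is a polynomial in `t`, hence its value at `1` is a fixed linear combination
of its values at any `finrank + 1` points. -/
theorem det_one_add_smul_interp {E : Type*} [AddCommGroup E] [Module ℝ E] [FiniteDimensional ℝ E]
    (v : ℕ → ℝ) (hv : Set.InjOn v (Finset.range (Module.finrank ℝ E + 1)))
    (A : E →ₗ[ℝ] E) (s : ℝ) :
    LinearMap.det (LinearMap.id + s • A) =
      ∑ i ∈ Finset.range (Module.finrank ℝ E + 1),
        LinearMap.det (LinearMap.id + v i • A) *
          (Lagrange.basis (Finset.range (Module.finrank ℝ E + 1)) v i).eval s := by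
  classical
  set b := Module.finBasis ℝ E
  set M : Matrix (Fin (Module.finrank ℝ E)) (Fin (Module.finrank ℝ E)) ℝ :=
    LinearMap.toMatrix b b A with hM
  set p : ℝ[X] := Matrix.det ((X : ℝ[X]) • M.map C +
    (1 : Matrix (Fin (Module.finrank ℝ E)) (Fin (Module.finrank ℝ E)) ℝ).map C) with hp
  have hdeg : p.degree < (Finset.range (Module.finrank ℝ E + 1)).card := by
    have h1 := Polynomial.natDegree_det_X_add_C_le M 1
    rw [← hp] at h1
    rw [Finset.card_range]
    refine lt_of_le_of_lt Polynomial.degree_le_natDegree ?_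
    rw [Fintype.card_fin] at h1
    exact_mod_cast Nat.lt_succ_of_le h1
  have heval : ∀ t : ℝ, p.eval t = LinearMap.det (LinearMap.id + t • A) := by
    intro t
    rw [← LinearMap.det_toMatrix b, map_add, map_smul, LinearMap.toMatrix_id, ← hM, hp]
    rw [← Polynomial.coe_evalRingHom, RingHom.map_det]
    congr 1
    ext i j
    simp [Matrix.map_apply, Matrix.smul_apply, Matrix.add_apply, Matrix.one_apply]
    rw [add_comm]
    congr 1
    · split_ifs <;> simp
    · ring
  have h2 := Lagrange.eq_interpolate hv hdeg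
  rw [← heval s]
  conv_lhs => rw [h2]
  rw [Lagrange.interpolate_apply, Polynomial.eval_finsetSum]
  refine Finset.sum_congr rfl fun i _ => ?_
  rw [Polynomial.eval_mul, Polynomial.eval_C, heval]

end Poly

section Retraction

variable {E : Type*} [NormedAddCommGroup E] [InnerProductSpace ℝ E] [FiniteDimensional ℝ E]

/-- A perturbation `x + t g x` of the identity with `t • g` a contraction on the closed ball,
mapping the closed ball to itself, the open ball to itself and fixing the sphere, maps the open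
ball onto itself. -/
theorem image_ball_eq {F : E → E} {c : ℝ≥0} (hc : c < 1)
    (hF : ApproximatesLinearOn F (ContinuousLinearMap.id ℝ E) (closedBall (0 : E) 1) c)
    (hball : ∀ x ∈ ball (0 : E) 1, F x ∈ ball (0 : E) 1)
    (hsph : ∀ x, ‖x‖ = 1 → F x = x) : F '' ball 0 1 = ball 0 1 := by
  apply Subset.antisymm
  · rintro _ ⟨x, hx, rfl⟩
    exact hball x hx
  · have hopen : IsOpen (F '' ball 0 1) := by
      rcases subsingleton_or_nontrivial E with hE | hE
      · exact isOpen_discrete _
      · have h1 : ApproximatesLinearOn F ((ContinuousLinearEquiv.refl ℝ E : E ≃L[ℝ] E) : E →L[ℝ] E)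
            (ball (0 : E) 1) c := hF.mono_set ball_subset_closedBall
        refine h1.open_image (ContinuousLinearEquiv.toNonlinearRightInverse _) isOpen_ball
          (Or.inr ?_)
        have : (ContinuousLinearEquiv.toNonlinearRightInverse
          (ContinuousLinearEquiv.refl ℝ E)).nnnorm = 1 := by
          simp [ContinuousLinearEquiv.toNonlinearRightInverse]
        rw [this]
        simpa using hc
    have hcont : ContinuousOn F (closedBall 0 1) := hF.continuousOn
    have hclosed : IsClosed (F '' closedBall 0 1) :=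
      ((isCompact_closedBall (0 : E) 1).image_of_continuousOn hcont).isClosed
    refine (convex_ball (0 : E) 1).isPreconnected.subset_of_closure_inter_subset hopen ?_ ?_
    · exact ⟨F 0, hball 0 (mem_ball_self one_pos), mem_image_of_mem _ (mem_ball_self one_pos)⟩
    · rintro y ⟨hy1, hy2⟩
      have h3 : y ∈ F '' closedBall 0 1 :=
        hclosed.closure_subset_iff.2 (image_mono ball_subset_closedBall) hy1
      obtain ⟨x, hx, rfl⟩ := h3
      refine mem_image_of_mem _ ?_
      rcases eq_or_lt_of_le (mem_closedBall_zero_iff.1 hx) with h4 | h4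
      · exfalso
        rw [hsph x h4, mem_ball_zero_iff] at hy2
        linarith
      · exact mem_ball_zero_iff.2 h4

theorem det_id_add_pos {A : E →L[ℝ] E} (hA : ‖A‖ < 1) :
    0 < (ContinuousLinearMap.id ℝ E + A).det := by
  -- `s ↦ det (1 + s A)` is continuous, nonvanishing on `[0,1]` and equal to `1` at `0`
  have hne : ∀ s ∈ Icc (0 : ℝ) 1, (ContinuousLinearMap.id ℝ E + s • A).det ≠ 0 := by
    intro s hs h0
    have hker : ∃ v : E, v ≠ 0 ∧ (ContinuousLinearMap.id ℝ E + s • A) v = 0 := by
      by_contra hcon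
      push Not at hcon
      have hinj : Function.Injective (ContinuousLinearMap.id ℝ E + s • A : E →L[ℝ] E) := by
        rw [injective_iff_map_eq_zero]
        intro a ha
        by_contra hne
        exact hcon a hne ha
      have h1 : LinearMap.det ((ContinuousLinearMap.id ℝ E + s • A : E →L[ℝ] E) : E →ₗ[ℝ] E) ≠ 0 := by
        have h2 : IsUnit ((ContinuousLinearMap.id ℝ E + s • A : E →L[ℝ] E) : E →ₗ[ℝ] E) := by
          rw [LinearMap.isUnit_iff_ker_eq_bot]
          exact LinearMap.ker_eq_bot.2 hinj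
        exact (LinearMap.isUnit_det _ h2).ne_zero
      exact h1 h0
    obtain ⟨v, hv, hv0⟩ := hker
    have h1 : ‖v‖ = ‖s • A v‖ := by
      have : v = -(s • A v) := by
        rw [eq_neg_iff_add_eq_zero]
        simpa using hv0
      conv_lhs => rw [this]
      rw [norm_neg]
    have h2 : ‖s • A v‖ ≤ ‖A‖ * ‖v‖ := by
      rw [norm_smul, Real.norm_eq_abs, abs_of_nonneg hs.1]
      calc s * ‖A v‖ ≤ 1 * ‖A v‖ := mul_le_mul_of_nonneg_right hs.2 (norm_nonneg _)
        _ = ‖A v‖ := one_mul _
        _ ≤ _ := A.le_opNorm v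
    have h3 : 0 < ‖v‖ := norm_pos_iff.2 hv
    nlinarith
  have hcont : Continuous fun s : ℝ => (ContinuousLinearMap.id ℝ E + s • A).det :=
    ContinuousLinearMap.continuous_det.comp (by fun_prop)
  by_contra hneg
  push Not at hneg
  have h0 : (0 : ℝ) ≤ (fun s : ℝ => (ContinuousLinearMap.id ℝ E + s • A).det) 0 := by
    have h00 : (ContinuousLinearMap.id ℝ E).det = 1 := LinearMap.det_id
    simp [h00]
  have h1 : (fun s : ℝ => (ContinuousLinearMap.id ℝ E + s • A).det) 1 ≤ 0 := by simpa using hneg
  have : (0 : ℝ) ∈ (fun s : ℝ => (ContinuousLinearMap.id ℝ E + s • A).det) '' Icc 0 1 :=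
    intermediate_value_Icc' zero_le_one hcont.continuousOn ⟨h1, h0⟩
  obtain ⟨s, hs, hs0⟩ := this
  exact hne s hs hs0

/-- There is no `C¹` retraction of the closed unit ball onto the unit sphere. -/
theorem no_C1_retraction {r : E → E} (hr : ∀ x ∈ closedBall (0 : E) 1, ContDiffAt ℝ 1 r x)
    (hnorm : ∀ x ∈ closedBall (0 : E) 1, ‖r x‖ = 1) (hid : ∀ x, ‖x‖ = 1 → r x = x) : False := by
  classical
  borelize E
  set g : E → E := fun x => r x - x with hg
  have hgC : ∀ x ∈ closedBall (0 : E) 1, ContDiffAt ℝ 1 g x := fun x hx =>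
    (hr x hx).sub contDiffAt_id
  have hgd : ∀ x ∈ closedBall (0 : E) 1, DifferentiableAt ℝ g x := fun x hx =>
    (hgC x hx).differentiableAt (by norm_num)
  -- the derivative is bounded on the closed ball
  have hcontd : ContinuousOn (fun x => fderiv ℝ g x) (closedBall (0 : E) 1) := by
    intro x hx
    exact ((hgC x hx).continuousAt_fderiv (by norm_num)).continuousWithinAt
  obtain ⟨C, hC⟩ : ∃ C : ℝ, ∀ x ∈ closedBall (0 : E) 1, ‖fderiv ℝ g x‖ ≤ C :=
    (isCompact_closedBall (0 : E) 1).exists_bound_of_continuousOn hcontd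
  have hC0 : 0 ≤ C := (norm_nonneg _).trans (hC 0 (mem_closedBall_self zero_le_one))
  set K : ℝ := C + 1 with hK
  have hKpos : 0 < K := by positivity
  have hlip : ∀ x ∈ closedBall (0 : E) 1, ∀ y ∈ closedBall (0 : E) 1,
      ‖g x - g y‖ ≤ C * ‖x - y‖ := by
    intro x hx y hy
    exact (convex_closedBall (0 : E) 1).norm_image_sub_le_of_norm_fderiv_le hgd hC hy hx
  -- the family
  set f : ℝ → E → E := fun t x => x + t • g x with hf
  have hfeq : ∀ t x, f t x = (1 - t) • x + t • r x := by
    intro t x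
    simp only [hf, hg]
    rw [smul_sub, sub_smul, one_smul]
    abel
  -- volume is preserved for small `t`
  set d := Module.finrank ℝ E with hd
  have hder : ∀ t, ∀ x ∈ ball (0 : E) 1,
      HasFDerivAt (f t) (ContinuousLinearMap.id ℝ E + t • fderiv ℝ g x) x := by
    intro t x hx
    exact (hasFDerivAt_id x).add ((hgd x (ball_subset_closedBall hx)).hasFDerivAt.const_smul t)
  have hint : ∀ t : ℝ, IntegrableOn
      (fun x => (ContinuousLinearMap.id ℝ E + t • fderiv ℝ g x).det) (ball (0 : E) 1) volume := by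
    intro t
    have hc : ContinuousOn (fun x => (ContinuousLinearMap.id ℝ E + t • fderiv ℝ g x).det)
        (closedBall (0 : E) 1) :=
      ContinuousLinearMap.continuous_det.comp_continuousOn
        (continuousOn_const.add (hcontd.const_smul t))
    exact (hc.integrableOn_compact (isCompact_closedBall (0 : E) 1)).mono_set ball_subset_closedBall
  have hvol : ∀ t : ℝ, 0 ≤ t → t * K < 1 →
      ∫ x in ball (0 : E) 1, (ContinuousLinearMap.id ℝ E + t • fderiv ℝ g x).det =
        volume.real (ball (0 : E) 1) := by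
    intro t ht0 ht1
    have ht1' : t * C < 1 := by nlinarith
    have htlt : t < 1 := by nlinarith
    have htC : ((Real.toNNReal (t * C) : ℝ≥0) : ℝ) = t * C := Real.coe_toNNReal _ (by positivity)
    have hcc : Real.toNNReal (t * C) < 1 := by
      rw [← NNReal.coe_lt_coe, htC]; simpa using ht1'
    have happ : ApproximatesLinearOn (f t) (ContinuousLinearMap.id ℝ E) (closedBall (0 : E) 1)
        (Real.toNNReal (t * C)) := by
      intro x hx y hy
      have h1 : f t x - f t y - (ContinuousLinearMap.id ℝ E) (x - y) = t • (g x - g y) := by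
        simp only [hf, ContinuousLinearMap.id_apply, smul_sub]
        abel
      rw [h1, norm_smul, Real.norm_eq_abs, abs_of_nonneg ht0]
      calc t * ‖g x - g y‖ ≤ t * (C * ‖x - y‖) :=
            mul_le_mul_of_nonneg_left (hlip x hx y hy) ht0
        _ = _ := by rw [htC, mul_assoc]
    have himg : f t '' ball 0 1 = ball 0 1 := by
      refine image_ball_eq hcc happ ?_ ?_
      · intro x hx
        rw [mem_ball_zero_iff] at hx ⊢
        rw [hfeq]
        have hx' : x ∈ closedBall (0 : E) 1 := by
          rw [mem_closedBall_zero_iff]; exact hx.le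
        calc ‖(1 - t) • x + t • r x‖ ≤ ‖(1 - t) • x‖ + ‖t • r x‖ := norm_add_le _ _
          _ = (1 - t) * ‖x‖ + t * 1 := by
            rw [norm_smul, norm_smul, hnorm x hx', Real.norm_eq_abs, Real.norm_eq_abs,
              abs_of_nonneg ht0, abs_of_nonneg (by linarith)]
          _ < 1 := by nlinarith
      · intro x hx
        rw [hfeq, hid x hx, ← add_smul]
        simp
    have hinj : InjOn (f t) (ball 0 1) := by
      intro x hx y hy hxy
      have h1 := happ x (ball_subset_closedBall hx) y (ball_subset_closedBall hy)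
      rw [hxy, sub_self, zero_sub, norm_neg] at h1
      simp only [ContinuousLinearMap.id_apply] at h1
      rw [htC] at h1
      have h2 : ‖x - y‖ = 0 := by
        by_contra hne
        have : 0 < ‖x - y‖ := lt_of_le_of_ne (norm_nonneg _) (Ne.symm hne)
        nlinarith
      exact sub_eq_zero.1 (norm_eq_zero.1 h2)
    have hchg := integral_image_eq_integral_abs_det_fderiv_smul (volume : Measure E)
      (measurableSet_ball (x := (0 : E)) (ε := 1))
      (fun x hx => (hder t x hx).hasFDerivWithinAt) hinj (fun _ => (1 : ℝ))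
    rw [himg] at hchg
    have hpos : ∀ x ∈ ball (0 : E) 1,
        0 < (ContinuousLinearMap.id ℝ E + t • fderiv ℝ g x).det := by
      intro x hx
      refine det_id_add_pos ?_
      rw [norm_smul, Real.norm_eq_abs, abs_of_nonneg ht0]
      exact lt_of_le_of_lt (mul_le_mul_of_nonneg_left (hC x (ball_subset_closedBall hx)) ht0) ht1'
    calc ∫ x in ball (0 : E) 1, (ContinuousLinearMap.id ℝ E + t • fderiv ℝ g x).det
        = ∫ x in ball (0 : E) 1, |(ContinuousLinearMap.id ℝ E + t • fderiv ℝ g x).det| • (1 : ℝ) := by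
          refine setIntegral_congr_fun measurableSet_ball fun x hx => ?_
          simp only [smul_eq_mul, mul_one]
          rw [abs_of_pos (hpos x hx)]
      _ = ∫ x in ball (0 : E) 1, (1 : ℝ) := hchg.symm
      _ = _ := by simp
  -- nodes
  set v : ℕ → ℝ := fun i => (i : ℝ) / ((d + 1) * (K + 1)) with hv
  have hvinj : Set.InjOn v (Finset.range (d + 1)) := by
    intro i _ j _ hij
    simp only [hv] at hij
    have hne : ((d : ℝ) + 1) * (K + 1) ≠ 0 := by positivity
    have := (div_left_inj' hne).1 hij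
    exact_mod_cast this
  have hv0 : ∀ i, 0 ≤ v i := fun i => by positivity
  have hv1 : ∀ i ∈ Finset.range (d + 1), v i * K < 1 := by
    intro i hi
    have hi' : (i : ℝ) < d + 1 := by exact_mod_cast Finset.mem_range.1 hi
    simp only [hv]
    rw [div_mul_eq_mul_div, div_lt_one (by positivity)]
    have : 0 ≤ (i : ℝ) := Nat.cast_nonneg i
    nlinarith
  have hkey : ∫ x in ball (0 : E) 1, (ContinuousLinearMap.id ℝ E + (1 : ℝ) • fderiv ℝ g x).det =
      volume.real (ball (0 : E) 1) := by
    have h1 : ∀ x : E, (ContinuousLinearMap.id ℝ E + (1 : ℝ) • fderiv ℝ g x).det =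
        ∑ i ∈ Finset.range (d + 1), (ContinuousLinearMap.id ℝ E + v i • fderiv ℝ g x).det *
          (Lagrange.basis (Finset.range (d + 1)) v i).eval 1 := by
      intro x
      exact det_one_add_smul_interp v hvinj ((fderiv ℝ g x : E →L[ℝ] E) : E →ₗ[ℝ] E) 1
    simp_rw [h1]
    rw [integral_finsetSum]
    · rw [Finset.sum_congr rfl fun i hi => by
        rw [integral_mul_const, hvol (v i) (hv0 i) (hv1 i hi)]]
      rw [← Finset.mul_sum, ← Polynomial.eval_finsetSum,
        Lagrange.sum_basis hvinj ⟨0, Finset.mem_range.2 (Nat.succ_pos d)⟩]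
      simp
    · intro i _
      exact (hint (v i)).mul_const _
  -- at `t = 1` the integrand vanishes
  have hzero : ∀ x ∈ ball (0 : E) 1,
      (ContinuousLinearMap.id ℝ E + (1 : ℝ) • fderiv ℝ g x).det = 0 := by
    intro x hx
    have hx' := ball_subset_closedBall hx
    have hrd : HasFDerivAt r (ContinuousLinearMap.id ℝ E + (1 : ℝ) • fderiv ℝ g x) x := by
      have := hder 1 x hx
      refine this.congr_of_eventuallyEq (Filter.Eventually.of_forall fun y => ?_)
      simp [hf, hg]
    set A := ContinuousLinearMap.id ℝ E + (1 : ℝ) • fderiv ℝ g x with hA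
    by_contra hne
    have hsurj : Function.Surjective A := by
      have h1 : IsUnit (A : E →ₗ[ℝ] E) := by
        rw [LinearMap.isUnit_iff_isUnit_det]
        exact isUnit_iff_ne_zero.2 hne
      have h2 := (LinearMap.isUnit_iff_range_eq_top (A : E →ₗ[ℝ] E)).1 h1
      exact LinearMap.range_eq_top.1 h2
    obtain ⟨w, hw⟩ := hsurj (r x)
    have h1 : HasFDerivAt (fun y => ‖r y‖ ^ 2) (2 • (innerSL ℝ (r x)).comp A) x := hrd.norm_sq
    have h2 : HasFDerivAt (fun y => ‖r y‖ ^ 2) (0 : E →L[ℝ] ℝ) x := by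
      have h3 : (fun y => ‖r y‖ ^ 2) =ᶠ[𝓝 x] fun _ => (1 : ℝ) := by
        filter_upwards [isOpen_ball.mem_nhds hx] with y hy
        rw [hnorm y (ball_subset_closedBall hy)]
        norm_num
      exact (hasFDerivAt_const (1 : ℝ) x).congr_of_eventuallyEq h3
    have h4 := h1.unique h2
    have h5 := congrArg (fun L : E →L[ℝ] ℝ => L w) h4
    simp [hw, hnorm x hx'] at h5
  have h0 : ∫ x in ball (0 : E) 1, (ContinuousLinearMap.id ℝ E + (1 : ℝ) • fderiv ℝ g x).det = 0 := by
    rw [setIntegral_congr_fun measurableSet_ball hzero]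
    simp
  rw [h0] at hkey
  have hpos : 0 < volume.real (ball (0 : E) 1) := by
    rw [Measure.real, ENNReal.toReal_pos_iff]
    exact ⟨measure_ball_pos _ _ one_pos, measure_ball_lt_top⟩
  linarith

/-- Brouwer's theorem for `C¹` maps. -/
theorem brouwer_C1 {h : E → E} (hh : ContDiff ℝ 1 h)
    (hmaps : MapsTo h (closedBall (0 : E) 1) (closedBall (0 : E) 1)) :
    ∃ x ∈ closedBall (0 : E) 1, h x = x := by
  by_contra hcon
  push Not at hcon
  set w : E → E := fun x => x - h x with hw
  have hwC : ContDiff ℝ 1 w := contDiff_id.sub hh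
  have hw0 : ∀ x ∈ closedBall (0 : E) 1, w x ≠ 0 := by
    intro x hx h0
    exact hcon x hx (sub_eq_zero.1 h0).symm
  set D : E → ℝ := fun x => (inner ℝ x (w x)) ^ 2 + ‖w x‖ ^ 2 * (1 - ‖x‖ ^ 2) with hD
  have hinner : ∀ x, ‖x‖ = 1 → 0 < (inner ℝ x (w x) : ℝ) := by
    intro x hx
    have hx' : x ∈ closedBall (0 : E) 1 := by rw [mem_closedBall_zero_iff]; exact hx.le
    have h1 : 0 < ‖w x‖ ^ 2 := by
      have := norm_pos_iff.2 (hw0 x hx')
      positivity
    have h2 : ‖w x‖ ^ 2 = ‖x‖ ^ 2 - 2 * inner ℝ x (h x) + ‖h x‖ ^ 2 := norm_sub_sq_real x (h x)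
    have h3 : ‖h x‖ ≤ 1 := mem_closedBall_zero_iff.1 (hmaps hx')
    have h4 : (inner ℝ x (w x) : ℝ) = 1 - inner ℝ x (h x) := by
      simp only [hw]
      rw [inner_sub_right, real_inner_self_eq_norm_sq, hx]
      norm_num
    have h5 : ‖h x‖ ^ 2 ≤ 1 := by
      have := norm_nonneg (h x)
      nlinarith
    rw [hx] at h2
    rw [h4]
    nlinarith
  have hDpos : ∀ x ∈ closedBall (0 : E) 1, 0 < D x := by
    intro x hx
    have hwpos : 0 < ‖w x‖ ^ 2 := by
      have := norm_pos_iff.2 (hw0 x hx)
      positivity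
    rcases eq_or_lt_of_le (mem_closedBall_zero_iff.1 hx) with h1 | h1
    · have h2 := hinner x h1
      simp only [hD, h1]
      have : 0 < (inner ℝ x (w x) : ℝ) ^ 2 := by positivity
      simpa using this
    · have h2 : 0 < 1 - ‖x‖ ^ 2 := by
        have := norm_nonneg x
        nlinarith
      simp only [hD]
      have h3 : 0 < ‖w x‖ ^ 2 * (1 - ‖x‖ ^ 2) := mul_pos hwpos h2
      have h4 : 0 ≤ (inner ℝ x (w x) : ℝ) ^ 2 := sq_nonneg _
      linarith
  set m : E → ℝ := fun x => (-(inner ℝ x (w x) : ℝ) + √(D x)) / ‖w x‖ ^ 2 with hm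
  set r : E → E := fun x => x + m x • w x with hr
  have hmC : ∀ x ∈ closedBall (0 : E) 1, ContDiffAt ℝ 1 m x := by
    intro x hx
    have hDC : ContDiff ℝ 1 D := by
      simp only [hD]
      exact ((contDiff_id.inner ℝ hwC).pow 2).add
        ((hwC.norm_sq ℝ).mul (contDiff_const.sub (contDiff_id.norm_sq ℝ)))
    have h1 : ContDiffAt ℝ 1 (fun x => √(D x)) x := hDC.contDiffAt.sqrt (hDpos x hx).ne'
    have h2 : ContDiffAt ℝ 1 (fun x => -(inner ℝ x (w x) : ℝ)) x :=
      (contDiff_id.inner ℝ hwC).neg.contDiffAt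
    have h3 : ContDiffAt ℝ 1 (fun x => ‖w x‖ ^ 2) x := (hwC.norm_sq ℝ).contDiffAt
    refine (h2.add h1).div h3 ?_
    have := norm_pos_iff.2 (hw0 x hx)
    positivity
  refine no_C1_retraction (r := r) ?_ ?_ ?_
  · intro x hx
    exact contDiffAt_id.add ((hmC x hx).smul hwC.contDiffAt)
  · intro x hx
    have hwpos : 0 < ‖w x‖ ^ 2 := by
      have := norm_pos_iff.2 (hw0 x hx)
      positivity
    have hsq : √(D x) ^ 2 = D x := Real.sq_sqrt (hDpos x hx).le
    have h1 : ‖r x‖ ^ 2 = ‖x‖ ^ 2 + 2 * (m x * inner ℝ x (w x)) + (m x) ^ 2 * ‖w x‖ ^ 2 := by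
      simp only [hr]
      rw [norm_add_sq_real, inner_smul_right, norm_smul, mul_pow, Real.norm_eq_abs, sq_abs]
    have h2 : ‖r x‖ ^ 2 = 1 := by
      have h3 : m x * ‖w x‖ ^ 2 = -(inner ℝ x (w x) : ℝ) + √(D x) := by
        simp only [hm]
        rw [div_mul_cancel₀ _ hwpos.ne']
      have h4 : ‖r x‖ ^ 2 * ‖w x‖ ^ 2 = 1 * ‖w x‖ ^ 2 := by
        rw [h1]
        have h5 : D x = (inner ℝ x (w x)) ^ 2 + ‖w x‖ ^ 2 * (1 - ‖x‖ ^ 2) := rfl
        calc (‖x‖ ^ 2 + 2 * (m x * inner ℝ x (w x)) + (m x) ^ 2 * ‖w x‖ ^ 2) * ‖w x‖ ^ 2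
            = ‖x‖ ^ 2 * ‖w x‖ ^ 2 + 2 * (m x * ‖w x‖ ^ 2) * inner ℝ x (w x) +
                (m x * ‖w x‖ ^ 2) ^ 2 := by ring
          _ = ‖x‖ ^ 2 * ‖w x‖ ^ 2 - (inner ℝ x (w x)) ^ 2 + √(D x) ^ 2 := by
              rw [h3]; ring
          _ = _ := by rw [hsq, h5]; ring
      exact mul_right_cancel₀ hwpos.ne' h4
    have h3 : ‖r x‖ = 1 := by
      rw [← Real.sqrt_sq (norm_nonneg (r x)), h2, Real.sqrt_one]
    exact h3
  · intro x hx
    have h1 := hinner x hx
    have h2 : D x = (inner ℝ x (w x)) ^ 2 := by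
      simp only [hD, hx]
      ring
    have h3 : m x = 0 := by
      simp only [hm]
      rw [h2, Real.sqrt_sq h1.le]
      simp
    simp only [hr]
    rw [h3]
    simp

/-- **Brouwer's fixed point theorem** for the closed unit ball of a finite dimensional
real inner product space. -/
theorem brouwer_fixed_point_of_innerProductSpace {f : E → E}
    (hf : ContinuousOn f (closedBall (0 : E) 1))
    (hmaps : MapsTo f (closedBall (0 : E) 1) (closedBall (0 : E) 1)) :
    ∃ x ∈ closedBall (0 : E) 1, f x = x := by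
  by_contra hcon
  push Not at hcon
  have hK : IsCompact (closedBall (0 : E) 1) := isCompact_closedBall _ _
  -- continuous extension
  obtain ⟨G, hG⟩ := ContinuousMap.exists_restrict_eq (isClosed_closedBall (x := (0 : E)) (ε := 1))
    (⟨(closedBall (0 : E) 1).domRestrict f, hf.domRestrict⟩ : C(closedBall (0 : E) 1, E))
  have hGf : ∀ x ∈ closedBall (0 : E) 1, G x = f x := by
    intro x hx
    have := congrArg (fun F : C(closedBall (0 : E) 1, E) => F ⟨x, hx⟩) hG
    simpa using this
  -- a positive lower bound for `‖f x - x‖`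
  obtain ⟨x₀, hx₀, hmin⟩ := hK.exists_isMinOn ⟨0, mem_closedBall_self zero_le_one⟩
    ((hf.sub continuousOn_id).norm)
  set δ := ‖f x₀ - x₀‖ with hδ
  have hδpos : 0 < δ := norm_pos_iff.2 (sub_ne_zero.2 (hcon x₀ hx₀))
  have hδle : ∀ x ∈ closedBall (0 : E) 1, δ ≤ ‖f x - x‖ := fun x hx => hmin hx
  obtain ⟨g, hgC, hgapp, -⟩ := G.continuous.exists_contDiff_approx 1
    (ε := fun _ => δ / 3) continuous_const (fun _ => by positivity)
  set c : ℝ := (1 + δ / 3)⁻¹ with hc
  have hcpos : 0 < c := by positivity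
  have hc1 : c * (1 + δ / 3) = 1 := by
    rw [hc]; exact inv_mul_cancel₀ (by positivity)
  have hgb : ∀ x ∈ closedBall (0 : E) 1, ‖g x‖ ≤ 1 + δ / 3 := by
    intro x hx
    have h1 := hgapp x
    rw [dist_eq_norm, hGf x hx] at h1
    have h2 : ‖f x‖ ≤ 1 := mem_closedBall_zero_iff.1 (hmaps hx)
    calc ‖g x‖ = ‖(g x - f x) + f x‖ := by rw [sub_add_cancel]
      _ ≤ ‖g x - f x‖ + ‖f x‖ := norm_add_le _ _
      _ ≤ _ := by linarith
  obtain ⟨x, hx, hfix⟩ := brouwer_C1 (h := fun x => c • g x)
    (by
      have : ContDiff ℝ 1 g := hgC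
      exact this.const_smul c)
    (by
      intro x hx
      rw [mem_closedBall_zero_iff, norm_smul, Real.norm_eq_abs, abs_of_pos hcpos]
      calc c * ‖g x‖ ≤ c * (1 + δ / 3) := mul_le_mul_of_nonneg_left (hgb x hx) hcpos.le
        _ = 1 := hc1)
  have h1 := hδle x hx
  have h2 := hgapp x
  rw [dist_eq_norm, hGf x hx] at h2
  have h3 : ‖f x - x‖ ≤ ‖f x - g x‖ + ‖g x - c • g x‖ := by
    have hfix' : c • g x = x := hfix
    calc ‖f x - x‖ = ‖(f x - g x) + (g x - c • g x)‖ := by rw [hfix']; congr 1; abel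
      _ ≤ _ := norm_add_le _ _
  have h4 : ‖g x - c • g x‖ ≤ δ / 3 := by
    have : g x - c • g x = (1 - c) • g x := by rw [sub_smul, one_smul]
    have hc1' : c ≤ 1 := by nlinarith
    rw [this, norm_smul, Real.norm_eq_abs, abs_of_nonneg (by linarith)]
    calc (1 - c) * ‖g x‖ ≤ (1 - c) * (1 + δ / 3) :=
          mul_le_mul_of_nonneg_left (hgb x hx) (by linarith)
      _ = δ / 3 := by linarith
  rw [norm_sub_rev] at h2
  linarith

end Retraction

/-- **Brouwer's fixed point theorem**. -/
theorem brouwer_fixed_point {n : ℕ} (f : EuclideanSpace ℝ (Fin n) → EuclideanSpace ℝ (Fin n))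
    (hf : ContinuousOn f (Metric.closedBall 0 1))
    (hmaps : Set.MapsTo f (Metric.closedBall 0 1) (Metric.closedBall 0 1)) :
    ∃ x ∈ Metric.closedBall (0 : EuclideanSpace ℝ (Fin n)) 1, f x = x :=
  brouwer_fixed_point_of_innerProductSpace hf hmaps

section Corollaries

variable {E : Type*} [NormedAddCommGroup E] [InnerProductSpace ℝ E] [FiniteDimensional ℝ E]

/-- Brouwer's theorem for the closed ball of centre `a` and radius `R`. -/
theorem brouwer_fixed_point_closedBall {f : E → E} {a : E} {R : ℝ} (hR : 0 ≤ R)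
    (hf : ContinuousOn f (closedBall a R)) (hmaps : MapsTo f (closedBall a R) (closedBall a R)) :
    ∃ x ∈ closedBall a R, f x = x := by
  rcases eq_or_lt_of_le hR with rfl | hR
  · refine ⟨a, mem_closedBall_self le_rfl, ?_⟩
    have := hmaps (mem_closedBall_self (x := a) le_rfl)
    simpa using this
  set T : E → E := fun x => a + R • x with hT
  set S : E → E := fun y => R⁻¹ • (y - a) with hS
  have hTc : Continuous T := by fun_prop
  have hSc : Continuous S := by fun_prop
  have hTS : ∀ y, T (S y) = y := fun y => by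
    simp only [hT, hS]
    rw [smul_inv_smul₀ hR.ne']
    abel
  have hTm : MapsTo T (closedBall (0 : E) 1) (closedBall a R) := by
    intro x hx
    rw [mem_closedBall_iff_norm]
    simp only [hT, add_sub_cancel_left]
    rw [norm_smul, Real.norm_eq_abs, abs_of_pos hR]
    have := mem_closedBall_zero_iff.1 hx
    nlinarith
  have hSm : MapsTo S (closedBall a R) (closedBall (0 : E) 1) := by
    intro y hy
    rw [mem_closedBall_iff_norm] at hy
    rw [mem_closedBall_zero_iff]
    simp only [hS]
    rw [norm_smul, norm_inv, Real.norm_eq_abs, abs_of_pos hR, inv_mul_le_iff₀ hR]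
    simpa using hy
  obtain ⟨x, hx, hfix⟩ := brouwer_fixed_point_of_innerProductSpace (f := fun x => S (f (T x)))
    (hSc.comp_continuousOn (hf.comp hTc.continuousOn hTm)) (fun x hx => hSm (hmaps (hTm hx)))
  refine ⟨T x, hTm hx, ?_⟩
  have := congrArg T hfix
  rwa [hTS] at this

omit [FiniteDimensional ℝ E] in
/-- The nearest point projection to a nonempty compact convex set is nonexpansive; in particular
such a set is a retract of the whole space. -/
theorem exists_retraction_convex {K : Set E} (hK : IsCompact K) (hc : Convex ℝ K)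
    (hne : K.Nonempty) :
    ∃ P : E → E, Continuous P ∧ (∀ x, P x ∈ K) ∧ (∀ x ∈ K, P x = x) ∧
      (∀ x y, ‖P x - P y‖ ≤ ‖x - y‖) ∧
      (∀ x, ∀ w ∈ K, inner ℝ (x - P x) (w - P x) ≤ 0) := by
  have h1 : ∀ x, ∃ v ∈ K, ∀ w ∈ K, inner ℝ (x - v) (w - v) ≤ 0 := by
    intro x
    obtain ⟨v, hv, hvmin⟩ := exists_norm_eq_iInf_of_complete_convex hne hK.isComplete hc x
    exact ⟨v, hv, (norm_eq_iInf_iff_real_inner_le_zero hc hv).1 hvmin⟩
  choose P hPK hP using h1
  have hlip : ∀ x y, ‖P x - P y‖ ≤ ‖x - y‖ := by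
    intro x y
    have h2 := hP x (P y) (hPK y)
    have h3 := hP y (P x) (hPK x)
    have h4 : ‖P x - P y‖ ^ 2 ≤ inner ℝ (x - y) (P x - P y) := by
      have h5 : (inner ℝ (x - y) (P x - P y) : ℝ) =
          ‖P x - P y‖ ^ 2 - inner ℝ (x - P x) (P y - P x) - inner ℝ (y - P y) (P x - P y) := by
        have e1 : x - y = (P x - P y) + (x - P x) - (y - P y) := by abel
        have e2 : P y - P x = -(P x - P y) := by abel
        rw [e2, inner_neg_right]
        conv_lhs => rw [e1]
        rw [inner_sub_left, inner_add_left, real_inner_self_eq_norm_sq]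
        ring
      rw [h5]
      linarith
    have h6 : (inner ℝ (x - y) (P x - P y) : ℝ) ≤ ‖x - y‖ * ‖P x - P y‖ :=
      real_inner_le_norm _ _
    rcases eq_or_lt_of_le (norm_nonneg (P x - P y)) with h7 | h7
    · rw [← h7]
      exact norm_nonneg _
    · nlinarith
  refine ⟨P, ?_, hPK, ?_, hlip, hP⟩
  · have : LipschitzWith 1 P := LipschitzWith.of_dist_le_mul fun x y => by
      rw [dist_eq_norm, dist_eq_norm, NNReal.coe_one, one_mul]
      exact hlip x y
    exact this.continuous
  · intro x hx
    have h2 := hP x x hx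
    rw [real_inner_self_eq_norm_sq] at h2
    have h3 : ‖x - P x‖ = 0 := by
      have := norm_nonneg (x - P x)
      nlinarith [sq_nonneg ‖x - P x‖]
    exact (sub_eq_zero.1 (norm_eq_zero.1 h3)).symm

theorem brouwer_fixed_point_convex_aux {K : Set E} (hK : IsCompact K) (hc : Convex ℝ K)
    (hne : K.Nonempty) {f : E → E} (hf : ContinuousOn f K) (hmaps : MapsTo f K K) :
    ∃ x ∈ K, f x = x := by
  obtain ⟨P, hPc, hPK, hPid, -, -⟩ := exists_retraction_convex hK hc hne
  obtain ⟨R, hR⟩ := hK.isBounded.subset_closedBall (0 : E)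
  have hR' : K ⊆ closedBall (0 : E) (max R 0) :=
    hR.trans (closedBall_subset_closedBall (le_max_left _ _))
  obtain ⟨x, _, hfix⟩ := brouwer_fixed_point_closedBall (f := fun x => f (P x)) (a := (0 : E))
    (le_max_right R 0) (hf.comp hPc.continuousOn (fun x _ => hPK x))
    (fun x _ => hR' (hmaps (hPK x)))
  have hxK : x ∈ K := by rw [← hfix]; exact hmaps (hPK x)
  exact ⟨x, hxK, by rw [hPid x hxK] at hfix; exact hfix⟩

/-- **Brouwer's fixed point theorem** for a nonempty compact convex set of a finite dimensional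
Hausdorff real topological vector space. -/
theorem brouwer_fixed_point_convex {V : Type*} [AddCommGroup V] [Module ℝ V] [TopologicalSpace V]
    [IsTopologicalAddGroup V] [ContinuousSMul ℝ V] [T2Space V] [FiniteDimensional ℝ V]
    {K : Set V} (hK : IsCompact K) (hc : Convex ℝ K) (hne : K.Nonempty) {f : V → V}
    (hf : ContinuousOn f K) (hmaps : MapsTo f K K) : ∃ x ∈ K, f x = x := by
  let e : V ≃L[ℝ] EuclideanSpace ℝ (Fin (Module.finrank ℝ V)) :=
    ContinuousLinearEquiv.ofFinrankEq (by rw [finrank_euclideanSpace_fin])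
  obtain ⟨y, ⟨x, hx, rfl⟩, hfix⟩ := brouwer_fixed_point_convex_aux (K := e '' K)
    (f := fun y => e (f (e.symm y)))
    (hK.image e.continuous) (hc.is_linear_image e.toLinearEquiv.toLinearMap.isLinear)
    (hne.image _)
    (by
      refine e.continuous.comp_continuousOn (hf.comp e.symm.continuous.continuousOn ?_)
      rintro _ ⟨x, hx, rfl⟩
      simpa using hx)
    (by
      rintro _ ⟨x, hx, rfl⟩
      simp only [ContinuousLinearEquiv.symm_apply_apply]
      exact mem_image_of_mem _ (hmaps hx))
  refine ⟨x, hx, ?_⟩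
  simp only [ContinuousLinearEquiv.symm_apply_apply] at hfix
  exact e.injective hfix

/-- A continuous map of the closed ball that does not point inwards on the sphere has a zero. -/
theorem exists_zero_of_inner_nonneg {f : E → E} {R : ℝ} (hR : 0 < R)
    (hf : ContinuousOn f (closedBall (0 : E) R))
    (hs : ∀ x, ‖x‖ = R → 0 ≤ (inner ℝ (f x) x : ℝ)) :
    ∃ x ∈ closedBall (0 : E) R, f x = 0 := by
  by_contra hcon
  push Not at hcon
  have hne : ∀ x ∈ closedBall (0 : E) R, ‖f x‖ ≠ 0 := fun x hx => norm_ne_zero_iff.2 (hcon x hx)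
  have hnorm : ∀ x ∈ closedBall (0 : E) R, ‖(-(R / ‖f x‖)) • f x‖ = R := by
    intro x hx
    rw [norm_smul, norm_neg, norm_div, norm_norm, Real.norm_eq_abs, abs_of_pos hR]
    exact div_mul_cancel₀ _ (hne x hx)
  obtain ⟨x, hx, hfix⟩ := brouwer_fixed_point_closedBall (f := fun x => (-(R / ‖f x‖)) • f x)
    (a := (0 : E)) hR.le
    ((continuousOn_const.div hf.norm hne).neg.smul hf)
    (fun x hx => mem_closedBall_zero_iff.2 (hnorm x hx).le)
  have h1 : ‖x‖ = R := by
    rw [← hnorm x hx]
    exact congrArg _ hfix.symm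
  have h2 := hs x h1
  have h3 : (inner ℝ (f x) x : ℝ) = -(R / ‖f x‖) * ‖f x‖ ^ 2 := by
    conv_lhs => rw [← hfix]
    rw [inner_smul_right, hfix, real_inner_self_eq_norm_sq]
  have h4 : 0 < ‖f x‖ := lt_of_le_of_ne (norm_nonneg _) (Ne.symm (hne x hx))
  have h5 : 0 < R / ‖f x‖ * ‖f x‖ ^ 2 := by positivity
  rw [h3] at h2
  linarith

/-- There is no continuous retraction of the closed ball onto the sphere (unless the space is
trivial, in which case the sphere is empty and there is no map either). -/
theorem no_retraction {r : E → E} {R : ℝ} (hR : 0 < R)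
    (hr : ContinuousOn r (closedBall (0 : E) R))
    (hsph : ∀ x ∈ closedBall (0 : E) R, ‖r x‖ = R) (hid : ∀ x, ‖x‖ = R → r x = x) : False := by
  obtain ⟨x, hx, hx0⟩ := exists_zero_of_inner_nonneg hR hr (fun x hx => by
    rw [hid x hx, real_inner_self_eq_norm_sq]
    positivity)
  have := hsph x hx
  rw [hx0, norm_zero] at this
  exact hR.ne this

/-- A continuous map of the closed ball fixing the sphere pointwise covers the ball. -/
theorem closedBall_subset_image_of_eqOn_sphere {f : E → E} {R : ℝ}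
    (hf : ContinuousOn f (closedBall (0 : E) R)) (hid : ∀ x, ‖x‖ = R → f x = x) :
    closedBall (0 : E) R ⊆ f '' closedBall (0 : E) R := by
  intro y hy
  have hyR := mem_closedBall_zero_iff.1 hy
  rcases eq_or_lt_of_le hyR with h1 | h1
  · exact ⟨y, hy, hid y h1⟩
  have hR : 0 < R := lt_of_le_of_lt (norm_nonneg _) h1
  obtain ⟨x, hx, hx0⟩ := exists_zero_of_inner_nonneg (f := fun x => f x - y) hR
    (hf.sub continuousOn_const) (fun x hx => by
      rw [hid x hx, inner_sub_left, real_inner_self_eq_norm_sq]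
      have h2 : (inner ℝ y x : ℝ) ≤ ‖y‖ * ‖x‖ := real_inner_le_norm _ _
      have h3 := norm_nonneg y
      rw [hx] at h2 ⊢
      nlinarith)
  exact ⟨x, hx, sub_eq_zero.1 hx0⟩

/-- **Poincaré–Miranda theorem** on the cube `[-1,1]^ι`. -/
theorem poincare_miranda {ι : Type*} [Fintype ι] {f : (ι → ℝ) → (ι → ℝ)}
    (hf : ContinuousOn f (Icc (-1) 1))
    (hneg : ∀ x ∈ Icc (-1 : ι → ℝ) 1, ∀ i, x i = -1 → f x i ≤ 0)
    (hpos : ∀ x ∈ Icc (-1 : ι → ℝ) 1, ∀ i, x i = 1 → 0 ≤ f x i) :
    ∃ x ∈ Icc (-1 : ι → ℝ) 1, f x = 0 := by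
  have hle : (-1 : ι → ℝ) ≤ 1 := fun i => by norm_num
  obtain ⟨x, hx, hfix⟩ := brouwer_fixed_point_convex (K := Icc (-1 : ι → ℝ) 1)
    (f := fun x i => max (-1) (min 1 (x i - f x i))) isCompact_Icc (convex_Icc _ _)
    (nonempty_Icc.2 hle)
    (by
      rw [continuousOn_pi]
      intro i
      have h1 : ContinuousOn (fun x : ι → ℝ => x i - f x i) (Icc (-1) 1) :=
        (continuous_apply i).continuousOn.sub ((continuous_apply i).comp_continuousOn hf)
      have h2 : Continuous fun t : ℝ => max (-1) (min 1 t) := by fun_prop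
      exact h2.comp_continuousOn h1)
    (by
      intro x _
      constructor
      · intro i
        exact le_max_left _ _
      · intro i
        exact max_le (by norm_num) (min_le_left _ _))
  refine ⟨x, hx, ?_⟩
  funext i
  have h1 : max (-1) (min 1 (x i - f x i)) = x i := congrFun hfix i
  have h2 : -1 ≤ x i := hx.1 i
  have h3 : x i ≤ 1 := hx.2 i
  simp only [Pi.zero_apply]
  rcases lt_trichotomy (f x i) 0 with h4 | h4 | h4
  · -- `x i - f x i > x i`, so `x i = 1`
    exfalso
    have h5 : x i < 1 := by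
      refine lt_of_le_of_ne h3 fun h => ?_
      have := hpos x hx i h
      linarith
    have h6 : x i < min 1 (x i - f x i) := lt_min h5 (by linarith)
    have h7 := le_max_right (-1) (min 1 (x i - f x i))
    linarith
  · exact h4
  · exfalso
    have h5 : -1 < x i := by
      refine lt_of_le_of_ne h2 fun h => ?_
      have := hneg x hx i h.symm
      linarith
    have h6 : max (-1) (min 1 (x i - f x i)) < x i :=
      max_lt h5 ((min_le_right _ _).trans_lt (by linarith))
    linarith

end Corollaries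

end

end Pool.Lib
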