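import Mathlib

/-!
A Tauberian theorem (Wiener-Ikehara / Newman type) proved with the Fejer kernel:
a bounded, slowly decreasing function whose Laplace transform extends continuously to the closed
right half plane tends to zero.
-/

set_option autoImplicit false

open MeasureTheory Filter Topology Set Complex

namespace Pool.Agent.Lib.Tauberian

/-- The (unnormalised) Fejer kernel. -/
noncomputable def K (s : ℝ) : ℝ := if s = 0 then 1 else 2 * (1 - Real.cos s) / s ^ 2

lemma K_nonneg (s : ℝ) : 0 ≤ K s := by
  unfold K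
  split_ifs
  · norm_num
  · have : 0 ≤ 1 - Real.cos s := by linarith [Real.cos_le_one s]
    positivity

lemma K_le (s : ℝ) : K s ≤ 5 * (1 + s ^ 2)⁻¹ := by
  have h1 : 0 < 1 + s ^ 2 := by positivity
  rw [← div_eq_mul_inv, le_div_iff₀ h1]
  unfold K
  split_ifs with h
  · subst h; norm_num
  · have hs : 0 < s ^ 2 := by positivity
    have h2 : 1 - Real.cos s ≤ s ^ 2 / 2 := by linarith [Real.one_sub_sq_div_two_le_cos (x := s)]
    have h3 : 1 - Real.cos s ≤ 2 := by linarith [Real.neg_one_le_cos s]
    have h4 : 2 * (1 - Real.cos s) / s ^ 2 ≤ 1 := by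
      rw [div_le_one hs]; linarith
    have h5 : 2 * (1 - Real.cos s) / s ^ 2 * s ^ 2 ≤ 4 := by
      rw [div_mul_cancel₀ _ hs.ne']; linarith
    nlinarith

lemma K_measurable : Measurable K := by
  unfold K
  refine Measurable.ite (measurableSet_singleton _) measurable_const ?_
  fun_prop

lemma K_integrable : Integrable K := by
  refine (integrable_inv_one_add_sq.const_mul 5).mono' K_measurable.aestronglyMeasurable ?_
  filter_upwards with s
  rw [Real.norm_of_nonneg (K_nonneg s)]
  exact K_le s

lemma K_pos {s : ℝ} (h0 : 0 < s) (h1 : s < 2 * Real.pi) : 0 < K s := by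
  unfold K
  rw [if_neg h0.ne']
  have : Real.cos s < 1 := by
    rcases lt_or_eq_of_le (Real.cos_le_one s) with h | h
    · exact h
    · exfalso
      rw [Real.cos_eq_one_iff_of_lt_of_lt (by linarith [Real.pi_pos]) h1] at h
      exact h0.ne' h
  have : 0 < 1 - Real.cos s := by linarith
  positivity

lemma K_integral_pos : 0 < ∫ s, K s := by
  rw [integral_pos_iff_support_of_nonneg K_nonneg K_integrable]
  refine lt_of_lt_of_le ?_ (measure_mono (?_ : Ioo (0:ℝ) (2 * Real.pi) ⊆ _))
  · simp [Real.pi_pos]
  · intro s hs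
    exact (K_pos hs.1 hs.2).ne'

/-- The Fourier transform of the triangle function. -/
lemma fourier_triangle (s : ℝ) :
    ∫ u in (-1:ℝ)..1, (((1 - |u| : ℝ)) : ℂ) * cexp (I * u * s) = (K s : ℂ) := by
  have hcont1 : Continuous fun u : ℝ => (1 - |u|) * Real.cos (u * s) := by fun_prop
  have hcont2 : Continuous fun u : ℝ => (1 - |u|) * Real.sin (u * s) := by fun_prop
  have hodd : ∫ u in (-1:ℝ)..1, (1 - |u|) * Real.sin (u * s) = 0 := by
    have h := intervalIntegral.integral_comp_neg (a := (-1:ℝ)) (b := 1)
      (fun u : ℝ => (1 - |u|) * Real.sin (u * s))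
    simp only [abs_neg, neg_mul, Real.sin_neg, mul_neg, neg_neg,
      intervalIntegral.integral_neg] at h
    linarith
  have heven : ∫ u in (-1:ℝ)..1, (1 - |u|) * Real.cos (u * s) = K s := by
    by_cases hs : s = 0
    · subst hs
      simp only [mul_zero, Real.cos_zero, mul_one]
      rw [← intervalIntegral.integral_add_adjacent_intervals (b := 0)
        ((by fun_prop : Continuous fun u : ℝ => 1 - |u|).intervalIntegrable _ _)
        ((by fun_prop : Continuous fun u : ℝ => 1 - |u|).intervalIntegrable _ _)]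
      have e1 : ∫ u in (-1:ℝ)..0, (1 - |u|) = ∫ u in (-1:ℝ)..0, (1 + u) := by
        apply intervalIntegral.integral_congr
        intro u hu
        rw [uIcc_of_le (by norm_num)] at hu
        simp only
        rw [abs_of_nonpos hu.2]; ring
      have e2 : ∫ u in (0:ℝ)..1, (1 - |u|) = ∫ u in (0:ℝ)..1, (1 - u) := by
        apply intervalIntegral.integral_congr
        intro u hu
        rw [uIcc_of_le (by norm_num)] at hu
        simp only
        rw [abs_of_nonneg hu.1]
      rw [e1, e2]
      unfold K
      rw [intervalIntegral.integral_add (by simp) (by simp),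
        intervalIntegral.integral_sub (by simp) (by simp)]
      simp
      norm_num
    · rw [← intervalIntegral.integral_add_adjacent_intervals (b := 0)
        (hcont1.intervalIntegrable _ _) (hcont1.intervalIntegrable _ _)]
      have e1 : ∫ u in (-1:ℝ)..0, (1 - |u|) * Real.cos (u * s)
          = ∫ u in (-1:ℝ)..0, (1 + u) * Real.cos (u * s) := by
        apply intervalIntegral.integral_congr
        intro u hu
        rw [uIcc_of_le (by norm_num)] at hu
        simp only
        rw [abs_of_nonpos hu.2]; ring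
      have e2 : ∫ u in (0:ℝ)..1, (1 - |u|) * Real.cos (u * s)
          = ∫ u in (0:ℝ)..1, (1 - u) * Real.cos (u * s) := by
        apply intervalIntegral.integral_congr
        intro u hu
        rw [uIcc_of_le (by norm_num)] at hu
        simp only
        rw [abs_of_nonneg hu.1]
      have d1 : ∀ u : ℝ, HasDerivAt
          (fun u : ℝ => (1 + u) * (Real.sin (u * s) / s) + Real.cos (u * s) / s ^ 2)
          ((1 + u) * Real.cos (u * s)) u := by
        intro u
        have hsin : HasDerivAt (fun u : ℝ => Real.sin (u * s)) (Real.cos (u * s) * s) u := by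
          have := (hasDerivAt_mul_const s (x := u)).sin
          simpa using this
        have hcos : HasDerivAt (fun u : ℝ => Real.cos (u * s)) (-Real.sin (u * s) * s) u := by
          have := (hasDerivAt_mul_const s (x := u)).cos
          simpa using this
        have h := (((hasDerivAt_id u).const_add 1).mul (hsin.div_const s)).add
          (hcos.div_const (s ^ 2))
        refine h.congr_deriv ?_
        simp only [id]
        field_simp
        ring
      have d2 : ∀ u : ℝ, HasDerivAt
          (fun u : ℝ => (1 - u) * (Real.sin (u * s) / s) - Real.cos (u * s) / s ^ 2)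
          ((1 - u) * Real.cos (u * s)) u := by
        intro u
        have hsin : HasDerivAt (fun u : ℝ => Real.sin (u * s)) (Real.cos (u * s) * s) u := by
          have := (hasDerivAt_mul_const s (x := u)).sin
          simpa using this
        have hcos : HasDerivAt (fun u : ℝ => Real.cos (u * s)) (-Real.sin (u * s) * s) u := by
          have := (hasDerivAt_mul_const s (x := u)).cos
          simpa using this
        have h := (((hasDerivAt_id u).const_sub 1).mul (hsin.div_const s)).sub
          (hcos.div_const (s ^ 2))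
        refine h.congr_deriv ?_
        simp only [id]
        field_simp
        ring
      rw [e1, e2, intervalIntegral.integral_eq_sub_of_hasDerivAt (fun u _ => d1 u)
          ((by fun_prop : Continuous fun u : ℝ => (1 + u) * Real.cos (u * s)).intervalIntegrable _ _),
        intervalIntegral.integral_eq_sub_of_hasDerivAt (fun u _ => d2 u)
          ((by fun_prop : Continuous fun u : ℝ => (1 - u) * Real.cos (u * s)).intervalIntegrable _ _)]
      unfold K
      rw [if_neg hs]
      simp only [neg_mul, one_mul, Real.cos_neg, zero_mul, Real.cos_zero, Real.sin_zero]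
      ring
  have hsplit : ∀ u : ℝ, (((1 - |u| : ℝ)) : ℂ) * cexp (I * u * s)
      = (((1 - |u|) * Real.cos (u * s) : ℝ) : ℂ) + (((1 - |u|) * Real.sin (u * s) : ℝ) : ℂ) * I := by
    intro u
    have : I * (u:ℂ) * s = ((u * s : ℝ) : ℂ) * I := by push_cast; ring
    rw [this, Complex.exp_mul_I]
    push_cast
    ring
  simp_rw [hsplit]
  rw [intervalIntegral.integral_add, intervalIntegral.integral_mul_const,
    intervalIntegral.integral_ofReal, intervalIntegral.integral_ofReal, heven, hodd]
  · simp
  · exact ((continuous_ofReal.comp hcont1).intervalIntegrable _ _)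
  · exact (((continuous_ofReal.comp hcont2).mul continuous_const).intervalIntegrable _ _)


lemma K_comp_integrable {l : ℝ} (hl : 0 < l) (x : ℝ) : Integrable fun t => K (l * (x - t)) := by
  have h1 : Integrable fun t => K (l * t) := K_integrable.comp_mul_left' hl.ne'
  exact h1.comp_sub_left x

/-- For a bounded function whose Laplace transform extends continuously to `Re s ≥ 0`, the
convolution with each scaled Fejer kernel tends to zero. -/
theorem fejer_limit (a : ℝ → ℝ) (B : ℝ) (ha : Measurable a) (hB : ∀ t, 0 < t → |a t| ≤ B)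
    (G : ℂ → ℂ) (hG : ContinuousOn G {s : ℂ | 0 ≤ s.re})
    (hL : ∀ s : ℂ, 0 < s.re → ∫ t in Ioi (0:ℝ), (a t : ℂ) * cexp (-(s * t)) = G s)
    {l : ℝ} (hl : 0 < l) :
    Tendsto (fun x : ℝ => ∫ t in Ioi (0:ℝ), a t * K (l * (x - t))) atTop (𝓝 0) := by
  have hB0 : 0 ≤ B := (abs_nonneg _).trans (hB 1 one_pos)
  -- the key identity for `σ > 0`
  have key : ∀ σ : ℝ, 0 < σ → ∀ x : ℝ,
      ∫ u in (-1:ℝ)..1, (((1 - |u| : ℝ)) : ℂ) * cexp (I * (l * u * x)) * G (σ + I * (l * u))
        = ∫ t in Ioi (0:ℝ), ((a t * Real.exp (-(σ * t)) * K (l * (x - t)) : ℝ) : ℂ) := by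
    intro σ hσ x
    have hexp : IntegrableOn (fun t : ℝ => Real.exp (-(σ * t))) (Ioi 0) := by
      have := integrableOn_exp_mul_Ioi (a := -σ) (by linarith) 0
      simpa [neg_mul] using this
    have hswap : Integrable (Function.uncurry fun (u t : ℝ) =>
        (((1 - |u| : ℝ)) : ℂ) * cexp (I * (l * u * x)) *
          ((a t : ℂ) * cexp (-((σ + I * (l * u)) * t))))
        ((volume.restrict (uIoc (-1:ℝ) 1)).prod (volume.restrict (Ioi (0:ℝ)))) := by
      have hdom : Integrable (fun z : ℝ × ℝ => (1:ℝ) * (B * Real.exp (-(σ * z.2))))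
          ((volume.restrict (uIoc (-1:ℝ) 1)).prod (volume.restrict (Ioi (0:ℝ)))) := by
        apply Integrable.mul_prod (f := fun _ : ℝ => (1:ℝ))
          (g := fun t : ℝ => B * Real.exp (-(σ * t)))
        · have : IsFiniteMeasure (volume.restrict (uIoc (-1:ℝ) 1)) := by
            rw [uIoc_of_le (by norm_num)]; infer_instance
          exact integrable_const _
        · exact hexp.const_mul B
      refine hdom.mono' ?_ ?_
      · apply Measurable.aestronglyMeasurable
        simp only [Function.uncurry_def]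
        fun_prop
      · rw [Measure.prod_restrict]
        filter_upwards [ae_restrict_mem (measurableSet_uIoc.prod measurableSet_Ioi)] with z hz
        obtain ⟨hz1, hz2⟩ := hz
        rw [uIoc_of_le (by norm_num)] at hz1
        simp only [mem_Ioi] at hz2
        simp only [Function.uncurry_def, norm_mul, Complex.norm_exp, Complex.norm_real,
          Real.norm_eq_abs]
        have hu : abs (1 - |z.1|) ≤ 1 := by
          have h1 : |z.1| ≤ 1 := abs_le.mpr ⟨hz1.1.le, hz1.2⟩
          rw [abs_of_nonneg (by linarith)]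
          linarith [abs_nonneg z.1]
        have e1 : (I * ((l:ℂ) * z.1 * x)).re = 0 := by
          have : I * ((l:ℂ) * z.1 * x) = ((l * z.1 * x : ℝ) : ℂ) * I := by push_cast; ring
          rw [this]; simp
        have e2 : (-(((σ:ℂ) + I * ((l:ℂ) * z.1)) * z.2)).re = -(σ * z.2) := by
          simp
        rw [e1, e2, Real.exp_zero, mul_one]
        exact mul_le_mul hu (mul_le_mul_of_nonneg_right (hB _ hz2) (Real.exp_pos _).le)
          (by positivity) zero_le_one
    have h1 : ∀ u : ℝ, (((1 - |u| : ℝ)) : ℂ) * cexp (I * (l * u * x)) * G (σ + I * (l * u))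
        = ∫ t in Ioi (0:ℝ), (((1 - |u| : ℝ)) : ℂ) * cexp (I * (l * u * x)) *
          ((a t : ℂ) * cexp (-((σ + I * (l * u)) * t))) := by
      intro u
      rw [← hL (σ + I * (l * u)) (by simpa using hσ), ← integral_const_mul]
    simp_rw [h1]
    rw [intervalIntegral_integral_swap hswap]
    refine setIntegral_congr_fun measurableSet_Ioi fun t ht => ?_
    have h2 : ∀ u : ℝ, (((1 - |u| : ℝ)) : ℂ) * cexp (I * (l * u * x)) *
          ((a t : ℂ) * cexp (-((σ + I * (l * u)) * t)))
        = ((a t * Real.exp (-(σ * t)) : ℝ) : ℂ) *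
          ((((1 - |u| : ℝ)) : ℂ) * cexp (I * u * ((l * (x - t) : ℝ) : ℂ))) := by
      intro u
      have h3 : cexp (-(((σ:ℂ) + I * (l * u)) * t))
          = ((Real.exp (-(σ * t)) : ℝ) : ℂ) * cexp (-(I * (l * u) * t)) := by
        rw [Complex.ofReal_exp, ← Complex.exp_add]
        congr 1
        push_cast; ring
      have h4 : cexp (I * u * ((l * (x - t) : ℝ) : ℂ))
          = cexp (I * (l * u * x)) * cexp (-(I * (l * u) * t)) := by
        rw [← Complex.exp_add]
        congr 1
        push_cast; ring
      rw [h3, h4]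
      push_cast
      ring
    simp_rw [h2]
    rw [intervalIntegral.integral_const_mul, fourier_triangle]
    push_cast
    ring
  -- let `σ → 0+`
  have hpath : ∀ σ : ℝ, 0 ≤ σ → Continuous fun u : ℝ => G (σ + I * (l * u)) := by
    intro σ hσ
    refine hG.comp_continuous (by fun_prop) fun u => ?_
    simpa using hσ
  obtain ⟨M, hM⟩ : ∃ M, ∀ σ u : ℝ, 0 ≤ σ → σ ≤ 1 → |u| ≤ 1 → ‖G (σ + I * (l * u))‖ ≤ M := by
    have hcomp : IsCompact ((fun p : ℝ × ℝ => ((p.1 : ℂ) + I * (l * p.2))) ''
        (Icc (0:ℝ) 1 ×ˢ Icc (-1:ℝ) 1)) :=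
      (isCompact_Icc.prod isCompact_Icc).image (by fun_prop)
    have hsub : ((fun p : ℝ × ℝ => ((p.1 : ℂ) + I * (l * p.2))) ''
        (Icc (0:ℝ) 1 ×ˢ Icc (-1:ℝ) 1)) ⊆ {s : ℂ | 0 ≤ s.re} := by
      rintro _ ⟨p, hp, rfl⟩
      simpa using hp.1.1
    obtain ⟨M, hM⟩ := hcomp.exists_bound_of_continuousOn (hG.mono hsub)
    refine ⟨M, fun σ u h0 h1 hu => hM _ ⟨(σ, u), ⟨⟨h0, h1⟩, abs_le.mp hu⟩, rfl⟩⟩
  have identity : ∀ x : ℝ,
      ∫ u in (-1:ℝ)..1, (((1 - |u| : ℝ)) : ℂ) * cexp (I * (l * u * x)) * G (I * (l * u))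
        = ((∫ t in Ioi (0:ℝ), a t * K (l * (x - t)) : ℝ) : ℂ) := by
    intro x
    have lim1 : Tendsto (fun σ : ℝ => ∫ u in (-1:ℝ)..1,
        (((1 - |u| : ℝ)) : ℂ) * cexp (I * (l * u * x)) * G (σ + I * (l * u))) (𝓝[>] 0)
        (𝓝 (∫ u in (-1:ℝ)..1,
          (((1 - |u| : ℝ)) : ℂ) * cexp (I * (l * u * x)) * G (I * (l * u)))) := by
      apply intervalIntegral.tendsto_integral_filter_of_dominated_convergence (fun _ => M)
      · filter_upwards [self_mem_nhdsWithin] with σ hσ
        exact ((Continuous.mul (by fun_prop) (hpath σ (le_of_lt hσ)))).aestronglyMeasurable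
      · filter_upwards [Ioc_mem_nhdsGT (zero_lt_one' ℝ)] with σ hσ
        filter_upwards with u hu
        rw [uIoc_of_le (by norm_num)] at hu
        have hu' : |u| ≤ 1 := abs_le.mpr ⟨hu.1.le, hu.2⟩
        rw [norm_mul, norm_mul]
        have e1 : ‖cexp (I * (l * u * x))‖ = 1 := by
          have : I * ((l:ℂ) * u * x) = ((l * u * x : ℝ) : ℂ) * I := by push_cast; ring
          rw [this, Complex.norm_exp_ofReal_mul_I]
        have e2 : ‖(((1 - |u| : ℝ)) : ℂ)‖ ≤ 1 := by
          rw [Complex.norm_real, Real.norm_eq_abs, abs_of_nonneg (by linarith)]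
          linarith [abs_nonneg u]
        rw [e1, mul_one]
        calc _ ≤ 1 * M := mul_le_mul e2 (hM σ u hσ.1.le hσ.2 hu') (norm_nonneg _) zero_le_one
          _ = M := one_mul M
      · exact intervalIntegrable_const
      · filter_upwards with u hu
        refine Tendsto.const_mul _ ?_
        have hc : ContinuousOn (fun σ : ℝ => G (σ + I * (l * u))) (Ici 0) := by
          refine hG.comp (by fun_prop) fun σ hσ => ?_
          simpa using hσ
        have := (hc 0 self_mem_Ici).tendsto
        simp only [ofReal_zero, zero_add] at this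
        exact this.mono_left (nhdsWithin_mono _ Ioi_subset_Ici_self)
    have lim2 : Tendsto (fun σ : ℝ => ∫ t in Ioi (0:ℝ),
        ((a t * Real.exp (-(σ * t)) * K (l * (x - t)) : ℝ) : ℂ)) (𝓝[>] 0)
        (𝓝 (∫ t in Ioi (0:ℝ), ((a t * K (l * (x - t)) : ℝ) : ℂ))) := by
      apply tendsto_integral_filter_of_dominated_convergence (fun t => B * K (l * (x - t)))
      · filter_upwards with σ
        apply Measurable.aestronglyMeasurable
        apply measurable_ofReal.comp
        have hk : Measurable fun t : ℝ => K (l * (x - t)) := K_measurable.comp (by fun_prop)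
        exact (ha.mul (by fun_prop)).mul hk
      · filter_upwards [self_mem_nhdsWithin] with σ hσ
        filter_upwards [ae_restrict_mem measurableSet_Ioi] with t ht
        simp only [mem_Ioi] at hσ ht
        rw [Complex.norm_real, Real.norm_eq_abs, abs_mul, abs_mul, abs_of_nonneg (K_nonneg _),
          abs_of_pos (Real.exp_pos _)]
        apply mul_le_mul_of_nonneg_right _ (K_nonneg _)
        calc |a t| * Real.exp (-(σ * t)) ≤ B * 1 := by
              apply mul_le_mul (hB t ht) _ (Real.exp_pos _).le hB0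
              apply Real.exp_le_one_iff.mpr
              nlinarith
          _ = B := mul_one B
      · exact ((K_comp_integrable hl x).const_mul B).integrableOn
      · filter_upwards with t
        have h : Continuous fun σ : ℝ => ((a t * Real.exp (-(σ * t)) * K (l * (x - t)) : ℝ) : ℂ) := by
          fun_prop
        have := h.tendsto 0
        simp only [zero_mul, neg_zero, Real.exp_zero, mul_one] at this
        exact this.mono_left nhdsWithin_le_nhds
    have h3 := tendsto_nhds_unique (lim1.congr' (by
      filter_upwards [self_mem_nhdsWithin] with σ hσ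
      exact key σ hσ x)) lim2
    rw [h3]
    exact integral_complex_ofReal
  -- Riemann-Lebesgue
  have hRL := Real.tendsto_integral_exp_smul_cocompact
    (fun u : ℝ => (Ioc (-1:ℝ) 1).indicator (fun u : ℝ => (((1 - |u| : ℝ)) : ℂ) * G (I * (l * u))) u)
  have hw : Tendsto (fun x : ℝ => -(l / (2 * Real.pi)) * x) atTop (cocompact ℝ) := by
    rw [cocompact_eq_atBot_atTop]
    refine Tendsto.mono_right (tendsto_id.const_mul_atTop_of_neg ?_) le_sup_left
    have := Real.pi_pos
    have : 0 < l / (2 * Real.pi) := by positivity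
    linarith
  have h5 := hRL.comp hw
  have h6 : ∀ x : ℝ, ((∫ t in Ioi (0:ℝ), a t * K (l * (x - t)) : ℝ) : ℂ)
      = ((fun w : ℝ => ∫ v : ℝ, Real.fourierChar (-(v * w)) •
          (Ioc (-1:ℝ) 1).indicator (fun u : ℝ => (((1 - |u| : ℝ)) : ℂ) * G (I * (l * u))) v) ∘
          fun x : ℝ => -(l / (2 * Real.pi)) * x) x := by
    intro x
    rw [← identity x, intervalIntegral.integral_of_le (by norm_num)]
    simp only [Function.comp]
    rw [← integral_indicator measurableSet_Ioc]
    congr 1
    ext u
    by_cases hu : u ∈ Ioc (-1:ℝ) 1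
    · rw [indicator_of_mem hu, indicator_of_mem hu, Circle.smul_def, Real.fourierChar_apply]
      have : (((2 * Real.pi * -(u * (-(l / (2 * Real.pi)) * x)) : ℝ)) : ℂ) * I
          = I * (l * u * x) := by
        have hpi : (Real.pi : ℂ) ≠ 0 := by exact_mod_cast Real.pi_ne_zero
        push_cast
        field_simp
      rw [this, smul_eq_mul]
      ring
    · rw [indicator_of_notMem hu, indicator_of_notMem hu, smul_zero]
  have h7 : Tendsto (fun x : ℝ => ((∫ t in Ioi (0:ℝ), a t * K (l * (x - t)) : ℝ) : ℂ)) atTop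
      (𝓝 ((0:ℝ) : ℂ)) := by
    rw [ofReal_zero]
    exact h5.congr fun x => (h6 x).symm
  exact (Complex.continuous_re.tendsto _).comp h7

/-- Mass of the scaled kernel inside / outside the window of radius `r`. -/
lemma exists_scale {r ε : ℝ} (hr : 0 < r) (hε : 0 < ε) :
    ∃ l : ℝ, 0 < l ∧ 0 < ∫ v, {v : ℝ | |v| ≤ r}.indicator (fun v => K (l * v)) v ∧
      ∫ v, {v : ℝ | r < |v|}.indicator (fun v => K (l * v)) v
        ≤ ε * ∫ v, {v : ℝ | |v| ≤ r}.indicator (fun v => K (l * v)) v := by
  have hms1 : ∀ R : ℝ, MeasurableSet {v : ℝ | |v| ≤ R} := fun R =>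
    measurableSet_le (by fun_prop) measurable_const
  have hms2 : ∀ R : ℝ, MeasurableSet {v : ℝ | R < |v|} := fun R =>
    measurableSet_lt measurable_const (by fun_prop)
  -- limits of the unscaled masses
  have lim_in : Tendsto (fun R : ℝ => ∫ v, {v : ℝ | |v| ≤ R}.indicator K v) atTop (𝓝 (∫ v, K v)) := by
    apply tendsto_integral_filter_of_dominated_convergence K
    · filter_upwards with R
      exact (K_measurable.indicator (hms1 R)).aestronglyMeasurable
    · filter_upwards with R
      filter_upwards with v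
      rw [Real.norm_of_nonneg (indicator_nonneg (fun v _ => K_nonneg v) v)]
      exact indicator_le_self' (fun v _ => K_nonneg v) v
    · exact K_integrable
    · filter_upwards with v
      apply tendsto_const_nhds.congr'
      filter_upwards [eventually_ge_atTop |v|] with R hR
      rw [indicator_of_mem (show v ∈ {v : ℝ | |v| ≤ R} from hR)]
  have lim_out : Tendsto (fun R : ℝ => ∫ v, {v : ℝ | R < |v|}.indicator K v) atTop (𝓝 0) := by
    have : Tendsto (fun R : ℝ => ∫ v, {v : ℝ | R < |v|}.indicator K v) atTop (𝓝 (∫ _ : ℝ, (0:ℝ))) := by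
      apply tendsto_integral_filter_of_dominated_convergence K
      · filter_upwards with R
        exact (K_measurable.indicator (hms2 R)).aestronglyMeasurable
      · filter_upwards with R
        filter_upwards with v
        rw [Real.norm_of_nonneg (indicator_nonneg (fun v _ => K_nonneg v) v)]
        exact indicator_le_self' (fun v _ => K_nonneg v) v
      · exact K_integrable
      · filter_upwards with v
        apply tendsto_const_nhds.congr'
        filter_upwards [eventually_ge_atTop |v|] with R hR
        rw [indicator_of_notMem (show v ∉ {v : ℝ | R < |v|} from not_lt.mpr hR)]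
    simpa using this
  have hc := K_integral_pos
  set c := ∫ v, K v with hcdef
  have ev1 : ∀ᶠ R : ℝ in atTop, c / 2 < ∫ v, {v : ℝ | |v| ≤ R}.indicator K v :=
    lim_in.eventually (lt_mem_nhds (by linarith))
  have ev2 : ∀ᶠ R : ℝ in atTop, ∫ v, {v : ℝ | R < |v|}.indicator K v < ε * (c / 2) :=
    lim_out.eventually (gt_mem_nhds (by positivity))
  obtain ⟨R, hR1, hR2, hR0⟩ := (ev1.and (ev2.and (eventually_gt_atTop 0))).exists
  refine ⟨R / r, by positivity, ?_⟩
  have hl : 0 < R / r := by positivity
  have e1 : ∫ v, {v : ℝ | |v| ≤ r}.indicator (fun v => K (R / r * v)) v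
      = (R / r)⁻¹ * ∫ v, {v : ℝ | |v| ≤ R}.indicator K v := by
    have h := Measure.integral_comp_mul_left ({v : ℝ | |v| ≤ R}.indicator K) (R / r)
    rw [abs_of_pos (inv_pos.mpr hl), smul_eq_mul] at h
    rw [← h]
    congr 1
    ext v
    have hiff : |v| ≤ r ↔ |R / r * v| ≤ R := by
      rw [abs_mul, abs_of_pos hl, div_mul_eq_mul_div, div_le_iff₀ hr]
      constructor
      · intro h; exact mul_le_mul_of_nonneg_left h hR0.le
      · intro h; exact le_of_mul_le_mul_left h hR0
    by_cases hv : |v| ≤ r
    · rw [indicator_of_mem (show v ∈ {v : ℝ | |v| ≤ r} from hv),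
        indicator_of_mem (show R / r * v ∈ {v : ℝ | |v| ≤ R} from hiff.mp hv)]
    · rw [indicator_of_notMem (show v ∉ {v : ℝ | |v| ≤ r} from hv),
        indicator_of_notMem (show R / r * v ∉ {v : ℝ | |v| ≤ R} from fun h => hv (hiff.mpr h))]
  have e2 : ∫ v, {v : ℝ | r < |v|}.indicator (fun v => K (R / r * v)) v
      = (R / r)⁻¹ * ∫ v, {v : ℝ | R < |v|}.indicator K v := by
    have h := Measure.integral_comp_mul_left ({v : ℝ | R < |v|}.indicator K) (R / r)
    rw [abs_of_pos (inv_pos.mpr hl), smul_eq_mul] at h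
    rw [← h]
    congr 1
    ext v
    have hiff : r < |v| ↔ R < |R / r * v| := by
      rw [abs_mul, abs_of_pos hl, div_mul_eq_mul_div, lt_div_iff₀ hr]
      constructor
      · intro h; exact mul_lt_mul_of_pos_left h hR0
      · intro h; exact lt_of_mul_lt_mul_left h hR0.le
    by_cases hv : r < |v|
    · rw [indicator_of_mem (show v ∈ {v : ℝ | r < |v|} from hv),
        indicator_of_mem (show R / r * v ∈ {v : ℝ | R < |v|} from hiff.mp hv)]
    · rw [indicator_of_notMem (show v ∉ {v : ℝ | r < |v|} from hv),
        indicator_of_notMem (show R / r * v ∉ {v : ℝ | R < |v|} from fun h => hv (hiff.mpr h))]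
  rw [e1, e2]
  have hinv : 0 < (R / r)⁻¹ := inv_pos.mpr hl
  constructor
  · apply mul_pos hinv; linarith
  · have : ∫ v, {v : ℝ | R < |v|}.indicator K v ≤ ε * ∫ v, {v : ℝ | |v| ≤ R}.indicator K v := by
      nlinarith
    calc _ ≤ (R / r)⁻¹ * (ε * ∫ v, {v : ℝ | |v| ≤ R}.indicator K v) :=
          mul_le_mul_of_nonneg_left this hinv.le
      _ = _ := by ring

/-- A lower bound for the convolution when `a ≥ m` on a window. -/
lemma window_bound (a : ℝ → ℝ) (B : ℝ) (ha : Measurable a) (hB : ∀ t, 0 < t → |a t| ≤ B)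
    {l r y m : ℝ} (hl : 0 < l) (hy : r ≤ y)
    (hm : ∀ t, 0 < t → |y - t| ≤ r → m ≤ a t) :
    m * (∫ v, {v : ℝ | |v| ≤ r}.indicator (fun v => K (l * v)) v)
      - B * (∫ v, {v : ℝ | r < |v|}.indicator (fun v => K (l * v)) v)
      ≤ ∫ t in Ioi (0:ℝ), a t * K (l * (y - t)) := by
  have hB0 : 0 ≤ B := (abs_nonneg _).trans (hB 1 one_pos)
  have hms1 : MeasurableSet {v : ℝ | |v| ≤ r} := measurableSet_le (by fun_prop) measurable_const
  have hms2 : MeasurableSet {v : ℝ | r < |v|} := measurableSet_lt measurable_const (by fun_prop)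
  have hKl : Integrable fun v : ℝ => K (l * v) := K_integrable.comp_mul_left' hl.ne'
  have hP : Integrable ({v : ℝ | |v| ≤ r}.indicator (fun v => K (l * v))) := hKl.indicator hms1
  have hQ : Integrable ({v : ℝ | r < |v|}.indicator (fun v => K (l * v))) := hKl.indicator hms2
  have hP' := hP.comp_sub_left y
  have hQ' := hQ.comp_sub_left y
  rw [← integral_sub_left_eq_self ({v : ℝ | |v| ≤ r}.indicator (fun v => K (l * v))) volume y,
    ← integral_sub_left_eq_self ({v : ℝ | r < |v|}.indicator (fun v => K (l * v))) volume y,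
    ← integral_const_mul, ← integral_const_mul, ← integral_sub (hP'.const_mul m) (hQ'.const_mul B),
    ← integral_indicator measurableSet_Ioi]
  have haK : Integrable ((Ioi (0:ℝ)).indicator fun t => a t * K (l * (y - t))) := by
    rw [integrable_indicator_iff measurableSet_Ioi]
    refine (((K_comp_integrable hl y).const_mul B).integrableOn (s := Ioi 0)).mono' ?_ ?_
    · exact (ha.mul (K_measurable.comp (by fun_prop))).aestronglyMeasurable
    · filter_upwards [ae_restrict_mem measurableSet_Ioi] with t ht
      rw [Real.norm_eq_abs, abs_mul, abs_of_nonneg (K_nonneg _)]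
      exact mul_le_mul_of_nonneg_right (hB t ht) (K_nonneg _)
  refine integral_mono_ae ((hP'.const_mul m).sub (hQ'.const_mul B)) haK ?_
  -- the point `t = 0` is negligible
  have hne : ∀ᵐ t : ℝ, t ≠ 0 := by
    rw [ae_iff]
    simp
  filter_upwards [hne] with t ht0
  rcases lt_or_gt_of_ne ht0 with ht | ht
  · -- `t < 0`, outside the window
    rw [indicator_of_notMem (show t ∉ Ioi (0:ℝ) from not_lt.mpr ht.le)]
    have h1 : r < |y - t| := lt_of_lt_of_le (by linarith) (le_abs_self _)
    rw [indicator_of_notMem (show y - t ∉ {v : ℝ | |v| ≤ r} from not_le.mpr h1),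
      indicator_of_mem (show y - t ∈ {v : ℝ | r < |v|} from h1)]
    have := K_nonneg (l * (y - t))
    nlinarith
  · rw [indicator_of_mem (show t ∈ Ioi (0:ℝ) from ht)]
    by_cases h1 : |y - t| ≤ r
    · rw [indicator_of_mem (show y - t ∈ {v : ℝ | |v| ≤ r} from h1),
        indicator_of_notMem (show y - t ∉ {v : ℝ | r < |v|} from not_lt.mpr h1)]
      rw [mul_zero, sub_zero]
      exact mul_le_mul_of_nonneg_right (hm t ht h1) (K_nonneg _)
    · have h1' : r < |y - t| := not_le.mp h1
      rw [indicator_of_notMem (show y - t ∉ {v : ℝ | |v| ≤ r} from h1),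
        indicator_of_mem (show y - t ∈ {v : ℝ | r < |v|} from h1')]
      rw [mul_zero, zero_sub]
      have := neg_le_of_abs_le (hB t ht)
      have := K_nonneg (l * (y - t))
      nlinarith

/-- **Tauberian theorem.** Let `a` be bounded and measurable on `(0,∞)`, slowly decreasing, and
suppose its Laplace transform (defined for `Re s > 0`) extends to a continuous function on the
closed half plane `Re s ≥ 0`. Then `a t → 0`. -/
theorem tendsto_zero_of_laplace (a : ℝ → ℝ) (B : ℝ) (ha : Measurable a)
    (hB : ∀ t, 0 < t → |a t| ≤ B)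
    (G : ℂ → ℂ) (hG : ContinuousOn G {s : ℂ | 0 ≤ s.re})
    (hL : ∀ s : ℂ, 0 < s.re → ∫ t in Ioi (0:ℝ), (a t : ℂ) * cexp (-(s * t)) = G s)
    (hslow : ∀ ε > 0, ∃ δ > 0, ∃ X : ℝ, ∀ x ≥ X, ∀ y, x ≤ y → y ≤ x + δ → a x - ε ≤ a y) :
    Tendsto a atTop (𝓝 0) := by
  have hB0 : 0 ≤ B := (abs_nonneg _).trans (hB 1 one_pos)
  rw [Metric.tendsto_atTop]
  intro ε' hε'
  obtain ⟨ε, hε, hεε'⟩ : ∃ ε > 0, 4 * ε ≤ ε' := ⟨ε' / 4, by positivity, by linarith⟩
  obtain ⟨δ, hδ, X, hX⟩ := hslow ε hε
  set r := δ / 2 with hr
  have hr0 : 0 < r := by positivity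
  obtain ⟨l, hl, hP, hQ⟩ := exists_scale (r := r) (ε := ε / (B + 1)) hr0 (by positivity)
  set P := ∫ v, {v : ℝ | |v| ≤ r}.indicator (fun v => K (l * v)) v with hPdef
  set Q := ∫ v, {v : ℝ | r < |v|}.indicator (fun v => K (l * v)) v with hQdef
  have hQ0 : 0 ≤ Q := integral_nonneg fun v => indicator_nonneg (fun v _ => K_nonneg _) v
  have hBQ : B * Q ≤ ε * P := by
    calc B * Q ≤ (B + 1) * Q := by nlinarith
      _ ≤ (B + 1) * (ε / (B + 1) * P) := mul_le_mul_of_nonneg_left hQ (by positivity)
      _ = ε * P := by field_simp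
  have hlim := fejer_limit a B ha hB G hG hL hl
  have hev : ∀ᶠ y : ℝ in atTop, |∫ t in Ioi (0:ℝ), a t * K (l * (y - t))| < ε * P := by
    have := hlim.eventually (Metric.ball_mem_nhds 0 (show 0 < ε * P by positivity))
    filter_upwards [this] with y hy
    simpa [Real.dist_eq] using hy
  obtain ⟨Y, hY⟩ := eventually_atTop.mp hev
  refine ⟨max (max (X + δ) (Y + δ)) (2 * δ), fun x hx => ?_⟩
  have hx1 : X + δ ≤ x := (le_max_left _ _).trans ((le_max_left _ _).trans hx)
  have hx2 : Y + δ ≤ x := (le_max_right _ _).trans ((le_max_left _ _).trans hx)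
  have hx3 : 2 * δ ≤ x := (le_max_right _ _).trans hx
  -- upper bound
  have hup : a x ≤ 3 * ε := by
    have h1 := window_bound a B ha hB (l := l) (r := r) (y := x + r) (m := a x - ε) hl
      (by linarith) (fun t ht htr => by
        have := abs_le.mp htr
        exact hX x (by linarith) t (by linarith) (by linarith))
    have h2 := (abs_lt.mp (hY (x + r) (by linarith))).2
    have h3 : (a x - ε) * P ≤ 2 * ε * P := by
      have : (a x - ε) * P - B * Q ≤ ∫ t in Ioi (0:ℝ), a t * K (l * (x + r - t)) := h1
      linarith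
    have := le_of_mul_le_mul_right h3 hP
    linarith
  -- lower bound
  have hlo : -(3 * ε) ≤ a x := by
    have h1 := window_bound (fun t => -a t) B ha.neg (fun t ht => by simpa using hB t ht)
      (l := l) (r := r) (y := x - r) (m := -(a x + ε)) hl
      (by linarith) (fun t ht htr => by
        have := abs_le.mp htr
        have := hX t (by linarith) x (by linarith) (by linarith)
        linarith)
    have h2 := (abs_lt.mp (hY (x - r) (by linarith))).1
    have h4 : ∫ t in Ioi (0:ℝ), -a t * K (l * (x - r - t))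
        = - ∫ t in Ioi (0:ℝ), a t * K (l * (x - r - t)) := by
      rw [← integral_neg]
      congr 1
      ext t; ring
    have h1' : -(a x + ε) * P - B * Q ≤ ∫ t in Ioi (0:ℝ), -a t * K (l * (x - r - t)) := h1
    rw [h4] at h1'
    have h3 : -(a x + ε) * P ≤ 2 * ε * P := by linarith
    have := le_of_mul_le_mul_right h3 hP
    linarith
  rw [Real.dist_eq, sub_zero]
  have : |a x| ≤ 3 * ε := abs_le.mpr ⟨hlo, hup⟩
  linarith

end Pool.Agent.Lib.Tauberian
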