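import Mathlib
import Pool.Agent.Lib.Tauberian

/-!
The Wiener-Ikehara theorem for Dirichlet series with nonnegative coefficients and
linearly bounded finite sums.
-/

set_option autoImplicit false

open MeasureTheory Filter Topology Set Complex

namespace Pool.Agent.Lib.WienerIkehara

open Pool.Agent.Lib.Tauberian

section

variable (f : ℕ → ℝ) (C A : ℝ) (F : ℂ → ℂ)

/-- finite sums -/
noncomputable def S (n : ℕ) : ℝ := ∑ k ∈ Finset.Icc 1 n, f k

/-- normalised remainder in the logarithmic scale. -/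
noncomputable def a (t : ℝ) : ℝ := S f ⌊Real.exp t⌋₊ * Real.exp (-t) - A

lemma S_nonneg (hf : ∀ n, 0 ≤ f n) (n : ℕ) : 0 ≤ S f n := Finset.sum_nonneg fun k _ => hf k

lemma S_mono (hf : ∀ n, 0 ≤ f n) {m n : ℕ} (h : m ≤ n) : S f m ≤ S f n := by
  unfold S
  apply Finset.sum_le_sum_of_subset_of_nonneg (Finset.Icc_subset_Icc le_rfl h)
  intro i _ _; exact hf i

lemma a_measurable : Measurable (a f A) := by
  unfold a
  refine Measurable.sub (Measurable.mul ?_ (by fun_prop)) measurable_const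
  exact (measurable_from_nat (f := S f)).comp (Nat.measurable_floor.comp Real.measurable_exp)

lemma exp_mul_neg (t : ℝ) : Real.exp t * Real.exp (-t) = 1 := by rw [← Real.exp_add]; simp

lemma S_exp_le (hC0 : 0 ≤ C) (hC : ∀ n : ℕ, S f n ≤ C * n) (t : ℝ) :
    S f ⌊Real.exp t⌋₊ ≤ C * Real.exp t :=
  (hC _).trans (mul_le_mul_of_nonneg_left (Nat.floor_le (Real.exp_pos _).le) hC0)

lemma abs_a_le (hf : ∀ n, 0 ≤ f n) (hC0 : 0 ≤ C) (hC : ∀ n : ℕ, S f n ≤ C * n) (t : ℝ) :
    |a f A t| ≤ C + |A| := by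
  unfold a
  have h1 : 0 ≤ S f ⌊Real.exp t⌋₊ * Real.exp (-t) := mul_nonneg (S_nonneg f hf _) (Real.exp_pos _).le
  have h2 : S f ⌊Real.exp t⌋₊ * Real.exp (-t) ≤ C := by
    calc S f ⌊Real.exp t⌋₊ * Real.exp (-t) ≤ C * Real.exp t * Real.exp (-t) :=
          mul_le_mul_of_nonneg_right (S_exp_le f C hC0 hC t) (Real.exp_pos _).le
      _ = C := by rw [mul_assoc, exp_mul_neg, mul_one]
  calc _ ≤ |S f ⌊Real.exp t⌋₊ * Real.exp (-t)| + |A| := abs_sub _ _
    _ ≤ C + |A| := by rw [abs_of_nonneg h1]; linarith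

/-- The continuous extension of the Laplace transform. -/
noncomputable def G (s : ℂ) : ℂ := (F (1 + s) - A) / (1 + s)

lemma G_continuousOn (hF : ContinuousOn F {s : ℂ | 1 ≤ s.re}) :
    ContinuousOn (G A F) {s : ℂ | 0 ≤ s.re} := by
  unfold G
  apply ContinuousOn.div
  · apply ContinuousOn.sub _ continuousOn_const
    refine hF.comp (by fun_prop) ?_
    intro s hs
    simpa using hs
  · fun_prop
  · intro s hs h
    have := congrArg Complex.re h
    simp only [mem_ofPred_eq] at hs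
    simp at this
    linarith

lemma bigO (hf : ∀ n, 0 ≤ f n) (hC : ∀ n : ℕ, S f n ≤ C * n) :
    (fun n : ℕ => ∑ k ∈ Finset.Icc 1 n, f k) =O[atTop] fun n : ℕ => (n : ℝ) ^ (1:ℝ) := by
  apply Asymptotics.IsBigO.of_bound C
  filter_upwards with n
  rw [Real.rpow_one, Real.norm_of_nonneg (show 0 ≤ ∑ k ∈ Finset.Icc 1 n, f k from S_nonneg f hf n),
    Real.norm_of_nonneg (Nat.cast_nonneg n)]
  exact hC n

lemma laplace (hf : ∀ n, 0 ≤ f n) (hC0 : 0 ≤ C) (hC : ∀ n : ℕ, S f n ≤ C * n)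
    (hFL : ∀ s : ℂ, 1 < s.re → F s = LSeries (fun n => (f n : ℂ)) s - A / (s - 1))
    (s : ℂ) (hs : 0 < s.re) :
    ∫ t in Ioi (0:ℝ), (a f A t : ℂ) * cexp (-(s * t)) = G A F s := by
  have hs1 : 1 < (1 + s).re := by simpa using hs
  have hs0 : s ≠ 0 := by
    intro h; rw [h] at hs; simp at hs
  have hne : 1 + s ≠ 0 := by
    intro h
    have := congrArg Complex.re h
    simp at this
    linarith
  have hL := LSeries_eq_mul_integral_of_nonneg f zero_le_one hs1 (bigO f C hf hC) hf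
  have hexp : IntegrableOn (fun t : ℝ => Real.exp (-(s.re * t))) (Ioi 0) := by
    have := integrableOn_exp_mul_Ioi (a := -s.re) (by linarith) 0
    simpa [neg_mul] using this
  have hmeasS : Measurable fun t : ℝ => (S f ⌊Real.exp t⌋₊ * Real.exp (-t) : ℝ) := by
    refine Measurable.mul ?_ (by fun_prop)
    exact (measurable_from_nat (f := S f)).comp (Nat.measurable_floor.comp Real.measurable_exp)
  have hint1 : IntegrableOn (fun t : ℝ => ((S f ⌊Real.exp t⌋₊ * Real.exp (-t) : ℝ) : ℂ) *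
      cexp (-(s * t))) (Ioi 0) := by
    refine (hexp.const_mul C).mono' ?_ ?_
    · exact ((measurable_ofReal.comp hmeasS).mul (by fun_prop)).aestronglyMeasurable
    · filter_upwards with t
      rw [norm_mul, Complex.norm_real, Complex.norm_exp]
      have e2 : (-(s * t)).re = -(s.re * t) := by simp
      rw [e2]
      apply mul_le_mul_of_nonneg_right _ (Real.exp_pos _).le
      rw [Real.norm_of_nonneg (mul_nonneg (S_nonneg f hf _) (Real.exp_pos _).le)]
      calc S f ⌊Real.exp t⌋₊ * Real.exp (-t) ≤ C * Real.exp t * Real.exp (-t) :=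
            mul_le_mul_of_nonneg_right (S_exp_le f C hC0 hC t) (Real.exp_pos _).le
        _ = C := by rw [mul_assoc, exp_mul_neg, mul_one]
  have hint2 : IntegrableOn (fun t : ℝ => (A : ℂ) * cexp (-(s * t))) (Ioi 0) := by
    refine (hexp.const_mul |A|).mono' ?_ ?_
    · exact (by fun_prop : Measurable fun t : ℝ => (A : ℂ) * cexp (-(s * t))).aestronglyMeasurable
    · filter_upwards with t
      rw [norm_mul, Complex.norm_real, Complex.norm_exp]
      have e2 : (-(s * t)).re = -(s.re * t) := by simp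
      rw [e2, Real.norm_eq_abs]
  have hconst : ∫ t in Ioi (0:ℝ), (A : ℂ) * cexp (-(s * t)) = A / s := by
    rw [integral_const_mul]
    have h := integral_exp_mul_complex_Ioi (a := -s) (by simpa using hs) 0
    have h' : ∫ t in Ioi (0:ℝ), cexp (-(s * t)) = 1 / s := by
      simp only [neg_mul] at h
      rw [h]
      simp
    rw [h']
    ring
  have hsub : ∫ t in Ioi (0:ℝ), ((S f ⌊Real.exp t⌋₊ * Real.exp (-t) : ℝ) : ℂ) * cexp (-(s * t))
      = ∫ y in Ioi (1:ℝ), (∑ k ∈ Finset.Icc 1 ⌊y⌋₊, (f k : ℂ)) * (y:ℂ) ^ (-((1 + s) + 1)) := by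
    have h := integral_comp_exp_Ioi (fun y : ℝ => (∑ k ∈ Finset.Icc 1 ⌊y⌋₊,
          (f k : ℂ)) * (y:ℂ) ^ (-((1 + s) + 1))) 0
    rw [Real.exp_zero] at h
    rw [← h]
    refine setIntegral_congr_fun measurableSet_Ioi fun t ht => ?_
    have hM : (∑ k ∈ Finset.Icc 1 ⌊Real.exp t⌋₊, (f k : ℂ))
        = ((S f ⌊Real.exp t⌋₊ : ℝ) : ℂ) := by
      unfold S; push_cast; rfl
    simp only [Complex.real_smul]
    rw [hM]
    rw [Complex.cpow_def_of_ne_zero (by exact_mod_cast (Real.exp_pos t).ne'),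
      ← Complex.ofReal_log (Real.exp_pos t).le, Real.log_exp]
    push_cast
    have e1 : cexp (-(t:ℂ)) * cexp (-(s * t)) = cexp (-((1 + s) * t)) := by
      rw [← Complex.exp_add]; congr 1; ring
    have e2 : cexp (t:ℂ) * cexp (t * -(1 + s + 1)) = cexp (-((1 + s) * t)) := by
      rw [← Complex.exp_add]; congr 1; ring
    rw [mul_assoc, e1, mul_left_comm, e2]
  have hsplit : ∫ t in Ioi (0:ℝ), (a f A t : ℂ) * cexp (-(s * t))
      = (∫ t in Ioi (0:ℝ), ((S f ⌊Real.exp t⌋₊ * Real.exp (-t) : ℝ) : ℂ) * cexp (-(s * t)))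
        - ∫ t in Ioi (0:ℝ), (A : ℂ) * cexp (-(s * t)) := by
    rw [← integral_sub hint1 hint2]
    refine setIntegral_congr_fun measurableSet_Ioi fun t ht => ?_
    unfold a
    push_cast
    ring
  rw [hsplit, hsub, hconst]
  unfold G
  rw [hFL _ hs1, hL]
  have h11 : (1 + s - 1 : ℂ) = s := by ring
  rw [h11]
  field_simp
  ring

lemma slow (hf : ∀ n, 0 ≤ f n) (hC0 : 0 ≤ C) (hC : ∀ n : ℕ, S f n ≤ C * n) :
    ∀ ε > 0, ∃ δ > 0, ∃ X : ℝ, ∀ x ≥ X, ∀ y, x ≤ y → y ≤ x + δ → a f A x - ε ≤ a f A y := by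
  intro ε hε
  refine ⟨ε / (C + 1), by positivity, 0, fun x hx y hxy hy => ?_⟩
  have hexy : Real.exp x ≤ Real.exp y := Real.exp_le_exp.mpr hxy
  have hfl : ⌊Real.exp x⌋₊ ≤ ⌊Real.exp y⌋₊ := Nat.floor_le_floor hexy
  have h1 := S_mono f hf hfl
  have h2 := S_exp_le f C hC0 hC x
  have h3 : 1 - (y - x) ≤ Real.exp x * Real.exp (-y) := by
    rw [← Real.exp_add]
    have := Real.add_one_le_exp (x + -y)
    linarith
  have h4 : S f ⌊Real.exp x⌋₊ * Real.exp (-y) ≤ S f ⌊Real.exp y⌋₊ * Real.exp (-y) :=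
    mul_le_mul_of_nonneg_right h1 (Real.exp_pos _).le
  have h5 : S f ⌊Real.exp x⌋₊ * (Real.exp (-x) - Real.exp (-y)) ≤ C * (y - x) := by
    have hd : 0 ≤ Real.exp (-x) - Real.exp (-y) := by
      have := Real.exp_le_exp.mpr (show -y ≤ -x by linarith)
      linarith
    calc _ ≤ C * Real.exp x * (Real.exp (-x) - Real.exp (-y)) := mul_le_mul_of_nonneg_right h2 hd
      _ = C * (1 - Real.exp x * Real.exp (-y)) := by
          have := exp_mul_neg x
          linear_combination C * this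
      _ ≤ C * (y - x) := mul_le_mul_of_nonneg_left (by linarith) hC0
  have h6 : C * (y - x) ≤ ε := by
    have h7 : y - x ≤ ε / (C + 1) := by linarith
    have h8 : C * (y - x) ≤ (C + 1) * (y - x) := by nlinarith
    have h9 : (C + 1) * (y - x) ≤ (C + 1) * (ε / (C + 1)) := by
      apply mul_le_mul_of_nonneg_left h7; positivity
    have h10 : (C + 1) * (ε / (C + 1)) = ε := by field_simp
    linarith
  unfold a
  nlinarith

end

/-- **Wiener-Ikehara theorem** (for Dirichlet series with nonnegative coefficients whose finite sums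
are `O(n)`): if the Dirichlet series minus `A / (s - 1)` extends continuously to `Re s ≥ 1`, then
`(1/n) ∑_{k ≤ n} f k → A`. -/
theorem tendsto_div (f : ℕ → ℝ) (C A : ℝ) (F : ℂ → ℂ) (hf : ∀ n, 0 ≤ f n)
    (hC : ∀ n : ℕ, ∑ k ∈ Finset.Icc 1 n, f k ≤ C * n)
    (hF : ContinuousOn F {s : ℂ | 1 ≤ s.re})
    (hFL : ∀ s : ℂ, 1 < s.re → F s = LSeries (fun n => (f n : ℂ)) s - A / (s - 1)) :
    Tendsto (fun n : ℕ => (∑ k ∈ Finset.Icc 1 n, f k) / n) atTop (𝓝 A) := by
  have hC0 : 0 ≤ C := by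
    have := hC 1
    simp only [Nat.cast_one, mul_one] at this
    exact (Finset.sum_nonneg fun k _ => hf k).trans this
  have hlim : Tendsto (a f A) atTop (𝓝 0) :=
    tendsto_zero_of_laplace (a f A) (C + |A|) (a_measurable f A)
      (fun t _ => abs_a_le f C A hf hC0 hC t) (G A F) (G_continuousOn A F hF)
      (laplace f C A F hf hC0 hC hFL) (slow f C A hf hC0 hC)
  have h := (hlim.comp (Real.tendsto_log_atTop.comp tendsto_natCast_atTop_atTop)).add_const A
  rw [zero_add] at h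
  refine h.congr' ?_
  filter_upwards [eventually_gt_atTop 0] with n hn
  have hn' : (0:ℝ) < n := by exact_mod_cast hn
  simp only [Function.comp]
  unfold a
  rw [Real.exp_log hn', Real.exp_neg, Real.exp_log hn', Nat.floor_natCast]
  unfold S
  rw [div_eq_mul_inv]
  ring

/-- Real-variable version of the Wiener-Ikehara theorem. -/
theorem tendsto_div_real (f : ℕ → ℝ) (C A : ℝ) (F : ℂ → ℂ) (hf : ∀ n, 0 ≤ f n)
    (hC : ∀ n : ℕ, ∑ k ∈ Finset.Icc 1 n, f k ≤ C * n)
    (hF : ContinuousOn F {s : ℂ | 1 ≤ s.re})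
    (hFL : ∀ s : ℂ, 1 < s.re → F s = LSeries (fun n => (f n : ℂ)) s - A / (s - 1)) :
    Tendsto (fun x : ℝ => (∑ k ∈ Finset.Icc 1 ⌊x⌋₊, f k) / x) atTop (𝓝 A) := by
  have h := (tendsto_div f C A F hf hC hF hFL).comp (tendsto_nat_floor_atTop (α := ℝ))
  have h2 := h.mul (tendsto_nat_floor_div_atTop (R := ℝ))
  rw [mul_one] at h2
  refine h2.congr' ?_
  filter_upwards [eventually_ge_atTop 1] with x hx
  have : (0:ℝ) < (⌊x⌋₊ : ℝ) := by
    have := Nat.floor_pos.mpr hx
    exact_mod_cast this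
  simp only [Function.comp]
  have hx0 : (0:ℝ) < x := by linarith
  field_simp

end Pool.Agent.Lib.WienerIkehara
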