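import Mathlib
import Pool.Agent.Lib.WienerIkehara

/-!
The prime number theorem, and the prime number theorem in arithmetic progressions.
-/

set_option autoImplicit false

open MeasureTheory Filter Topology Set Complex

namespace Pool.Agent.Lib.PNT

open ArithmeticFunction ArithmeticFunction.vonMangoldt

/-! ### von Mangoldt sums -/

lemma sum_vonMangoldt_le (n : ℕ) :
    ∑ k ∈ Finset.Icc 1 n, vonMangoldt k ≤ (Real.log 4 + 4) * n := by
  have h := Chebyshev.psi_le_const_mul_self (x := (n:ℝ)) (Nat.cast_nonneg n)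
  have h2 : Chebyshev.psi (n:ℝ) = ∑ k ∈ Finset.Icc 1 n, vonMangoldt k := by
    unfold Chebyshev.psi
    rw [Nat.floor_natCast]
    rfl
  rwa [h2] at h

/-- PNT in arithmetic progressions, `ψ(x;q,a) ∼ x/φ(q)`. -/
theorem psi_residueClass {q : ℕ} [NeZero q] {a : ZMod q} (ha : IsUnit a) :
    Tendsto (fun x : ℝ => (∑ n ∈ Finset.Icc 1 ⌊x⌋₊, residueClass a n) / x) atTop
      (𝓝 ((q.totient : ℝ)⁻¹)) := by
  refine WienerIkehara.tendsto_div_real (residueClass a) (Real.log 4 + 4) _
    (LFunctionResidueClassAux a) (residueClass_nonneg a) ?_ (continuousOn_LFunctionResidueClassAux a)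
    ?_
  · intro n
    exact (Finset.sum_le_sum fun k _ => residueClass_le a k).trans (sum_vonMangoldt_le n)
  · intro s hs
    rw [eqOn_LFunctionResidueClassAux ha hs]
    push_cast
    rfl

/-- PNT in arithmetic progressions, `∑_{n ≤ x, n ≡ a (q)} Λ(n) ∼ x/φ(q)`. -/
theorem psi_AP {q : ℕ} [NeZero q] {a : ZMod q} (ha : IsUnit a) :
    Tendsto (fun x : ℝ => (∑ n ∈ (Finset.Icc 1 ⌊x⌋₊).filter (fun n : ℕ => (n : ZMod q) = a), vonMangoldt n) / x)
      atTop (𝓝 ((q.totient : ℝ)⁻¹)) := by
  refine (psi_residueClass ha).congr fun x => ?_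
  congr 1
  rw [Finset.sum_filter]
  apply Finset.sum_congr rfl
  intro n _
  unfold residueClass
  by_cases h : (n : ZMod q) = a
  · rw [if_pos h, indicator_of_mem (by exact h)]
  · rw [if_neg h, indicator_of_notMem (by exact h)]

lemma sqrt_mul_log_div : Tendsto (fun x : ℝ => 2 * √x * Real.log x / x) atTop (𝓝 0) := by
  have h : Tendsto (fun x : ℝ => 2 * (Real.log x / x ^ (1/2 : ℝ))) atTop (𝓝 (2 * 0)) := by
    apply Tendsto.const_mul
    have := (isLittleO_log_rpow_atTop (show (0:ℝ) < 1/2 by norm_num)).tendsto_div_nhds_zero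
    exact this
  rw [mul_zero] at h
  refine h.congr' ?_
  filter_upwards [eventually_gt_atTop 0] with x hx
  rw [← Real.sqrt_eq_rpow]
  have h1 : √x * √x = x := Real.mul_self_sqrt hx.le
  have h2 : 0 < √x := Real.sqrt_pos.mpr hx
  rw [← mul_div_assoc, div_eq_div_iff h2.ne' hx.ne']
  linear_combination (-2 * Real.log x) * h1

/-- PNT in arithmetic progressions, `θ(x;q,a) ∼ x/φ(q)`. -/
theorem theta_AP {q : ℕ} [NeZero q] {a : ZMod q} (ha : IsUnit a) :
    Tendsto (fun x : ℝ => (∑ p ∈ (Finset.Icc 1 ⌊x⌋₊).filter (fun p : ℕ => p.Prime ∧ (p : ZMod q) = a),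
      Real.log p) / x) atTop (𝓝 ((q.totient : ℝ)⁻¹)) := by
  have h1 := psi_AP ha
  have h2 : Tendsto (fun x : ℝ =>
      (∑ n ∈ (Finset.Icc 1 ⌊x⌋₊).filter (fun n : ℕ => (n : ZMod q) = a), vonMangoldt n) / x
        - (∑ p ∈ (Finset.Icc 1 ⌊x⌋₊).filter (fun p : ℕ => p.Prime ∧ (p : ZMod q) = a),
      Real.log p) / x) atTop (𝓝 0) := by
    refine tendsto_of_tendsto_of_tendsto_of_le_of_le' tendsto_const_nhds sqrt_mul_log_div ?_ ?_
    · filter_upwards [eventually_gt_atTop 0] with x hx
      rw [← sub_div]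
      apply div_nonneg _ hx.le
      rw [Finset.sum_filter, Finset.sum_filter, ← Finset.sum_sub_distrib]
      apply Finset.sum_nonneg
      intro n _
      by_cases h : (n : ZMod q) = a
      · by_cases hp : n.Prime
        · rw [if_pos h, if_pos ⟨hp, h⟩, vonMangoldt_apply_prime hp, sub_self]
        · rw [if_pos h, if_neg (by tauto), sub_zero]
          exact vonMangoldt_nonneg
      · rw [if_neg h, if_neg (by tauto), sub_zero]
    · filter_upwards [eventually_ge_atTop 1] with x hx
      have hx0 : (0:ℝ) < x := by linarith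
      rw [← sub_div]
      apply div_le_div_of_nonneg_right _ hx0.le
      refine le_trans ?_ (Chebyshev.psi_sub_theta_le hx)
      rw [Chebyshev.psi_sub_theta_eq_sum_not_prime]
      rw [Finset.sum_filter, Finset.sum_filter, Finset.sum_filter, ← Finset.sum_sub_distrib]
      have hset : Finset.Icc 1 ⌊x⌋₊ = Finset.Ioc 0 ⌊x⌋₊ := rfl
      rw [hset]
      apply Finset.sum_le_sum
      intro n _
      by_cases h : (n : ZMod q) = a
      · by_cases hp : n.Prime
        · rw [if_pos h, if_pos ⟨hp, h⟩, if_neg (by tauto), vonMangoldt_apply_prime hp, sub_self]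
        · rw [if_pos h, if_neg (by tauto), if_pos hp, sub_zero]
      · rw [if_neg h, if_neg (by tauto), sub_zero]
        split_ifs
        · exact le_rfl
        · exact vonMangoldt_nonneg
  have h3 := h1.sub h2
  rw [sub_zero] at h3
  refine h3.congr fun x => ?_
  ring

/-! ### From `θ` to counting -/

/-- If `∑_{n ≤ x, P n} log n ∼ A x` then `#{n ≤ x : P n} ∼ A x / log x`. -/
theorem card_of_theta (P : ℕ → Prop) [DecidablePred P] (A : ℝ)
    (h : Tendsto (fun x : ℝ => (∑ n ∈ (Finset.Icc 1 ⌊x⌋₊).filter P, Real.log n) / x) atTop (𝓝 A)) :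
    Tendsto (fun x : ℝ => (((Finset.Icc 1 ⌊x⌋₊).filter P).card : ℝ) * Real.log x / x) atTop (𝓝 A) := by
  have hA : 0 ≤ A := by
    refine ge_of_tendsto h ?_
    filter_upwards [eventually_gt_atTop 0] with x hx
    apply div_nonneg _ hx.le
    exact Finset.sum_nonneg fun n _ => Real.log_natCast_nonneg n
  rw [tendsto_order]
  constructor
  · intro b hb
    filter_upwards [h.eventually (lt_mem_nhds hb), eventually_ge_atTop 1] with x hx hx1
    have hx0 : (0:ℝ) < x := by linarith
    refine lt_of_lt_of_le hx ?_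
    apply div_le_div_of_nonneg_right _ hx0.le
    calc ∑ n ∈ (Finset.Icc 1 ⌊x⌋₊).filter P, Real.log n
        ≤ ∑ n ∈ (Finset.Icc 1 ⌊x⌋₊).filter P, Real.log x := by
          apply Finset.sum_le_sum
          intro n hn
          rw [Finset.mem_filter, Finset.mem_Icc] at hn
          apply Real.log_le_log
          · exact_mod_cast hn.1.1
          · exact (Nat.le_floor_iff hx0.le).mp hn.1.2
      _ = _ := by rw [Finset.sum_const, nsmul_eq_mul]
  · intro b hb
    -- choose `δ`
    obtain ⟨δ, hδ0, hδ1, hδ⟩ : ∃ δ : ℝ, 0 < δ ∧ δ < 1 ∧ A / (1 - δ) < b := by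
      have hb0 : 0 < b := lt_of_le_of_lt hA hb
      refine ⟨(b - A) / (2 * b), by have := sub_pos.mpr hb; positivity, ?_, ?_⟩
      · rw [div_lt_one (by positivity)]; linarith
      · have h1 : 1 - (b - A) / (2 * b) = (b + A) / (2 * b) := by field_simp; ring
        have h2 : 0 < b + A := by linarith
        rw [h1, div_div_eq_mul_div, div_lt_iff₀ h2]
        nlinarith
    have hlim : Tendsto (fun x : ℝ => (∑ n ∈ (Finset.Icc 1 ⌊x⌋₊).filter P, Real.log n) / x / (1 - δ)
        + Real.log x / x ^ δ) atTop (𝓝 (A / (1 - δ) + 0)) := by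
      apply Tendsto.add (h.div_const _)
      exact (isLittleO_log_rpow_atTop hδ0).tendsto_div_nhds_zero
    rw [add_zero] at hlim
    filter_upwards [hlim.eventually (gt_mem_nhds hδ), eventually_gt_atTop 1] with x hx hx1
    refine lt_of_le_of_lt ?_ hx
    have hx0 : (0:ℝ) < x := by linarith
    have hlog : 0 < Real.log x := Real.log_pos hx1
    have hd : 0 < 1 - δ := by linarith
    set y : ℝ := x ^ (1 - δ) with hy
    have hy0 : 0 < y := Real.rpow_pos_of_pos hx0 _
    have hlogy : Real.log y = (1 - δ) * Real.log x := by rw [hy, Real.log_rpow hx0]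
    -- split
    have hsplit : (((Finset.Icc 1 ⌊x⌋₊).filter P).card : ℝ)
        ≤ y + (((Finset.Icc 1 ⌊x⌋₊).filter (fun n => P n ∧ ⌊y⌋₊ < n)).card : ℝ) := by
      have hsub : (Finset.Icc 1 ⌊x⌋₊).filter P ⊆
          Finset.Icc 1 ⌊y⌋₊ ∪ (Finset.Icc 1 ⌊x⌋₊).filter (fun n => P n ∧ ⌊y⌋₊ < n) := by
        intro n hn
        rw [Finset.mem_filter] at hn
        rw [Finset.mem_union, Finset.mem_filter, Finset.mem_Icc]
        have := Finset.mem_Icc.mp hn.1
        by_cases hny : n ≤ ⌊y⌋₊
        · exact Or.inl ⟨this.1, hny⟩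
        · exact Or.inr ⟨hn.1, hn.2, not_le.mp hny⟩
      have h1 := (Finset.card_le_card hsub).trans (Finset.card_union_le _ _)
      rw [Nat.card_Icc, Nat.add_sub_cancel] at h1
      have h2 : (((Finset.Icc 1 ⌊x⌋₊).filter P).card : ℝ) ≤ (⌊y⌋₊ : ℝ) +
          (((Finset.Icc 1 ⌊x⌋₊).filter (fun n => P n ∧ ⌊y⌋₊ < n)).card : ℝ) := by exact_mod_cast h1
      have := Nat.floor_le hy0.le
      linarith
    have hbig : (((Finset.Icc 1 ⌊x⌋₊).filter (fun n => P n ∧ ⌊y⌋₊ < n)).card : ℝ)
        * ((1 - δ) * Real.log x) ≤ ∑ n ∈ (Finset.Icc 1 ⌊x⌋₊).filter P, Real.log n := by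
      calc _ = ∑ n ∈ (Finset.Icc 1 ⌊x⌋₊).filter (fun n => P n ∧ ⌊y⌋₊ < n), (1 - δ) * Real.log x := by
            rw [Finset.sum_const, nsmul_eq_mul]
        _ ≤ ∑ n ∈ (Finset.Icc 1 ⌊x⌋₊).filter (fun n => P n ∧ ⌊y⌋₊ < n), Real.log n := by
            apply Finset.sum_le_sum
            intro n hn
            rw [Finset.mem_filter] at hn
            rw [← hlogy]
            exact Real.log_le_log hy0 (Nat.lt_of_floor_lt hn.2.2).le
        _ ≤ _ := by
            apply Finset.sum_le_sum_of_subset_of_nonneg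
            · intro n hn
              rw [Finset.mem_filter] at hn ⊢
              exact ⟨hn.1, hn.2.1⟩
            · intro n _ _
              exact Real.log_natCast_nonneg n
    have hyx : y / x = 1 / x ^ δ := by
      rw [hy, Real.rpow_sub hx0, Real.rpow_one]
      have := (Real.rpow_pos_of_pos hx0 δ).ne'
      field_simp
    set c := (((Finset.Icc 1 ⌊x⌋₊).filter P).card : ℝ) with hc
    set d := (((Finset.Icc 1 ⌊x⌋₊).filter (fun n => P n ∧ ⌊y⌋₊ < n)).card : ℝ) with hdd
    set T := ∑ n ∈ (Finset.Icc 1 ⌊x⌋₊).filter P, Real.log n with hT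
    have h5 : d * Real.log x ≤ T / (1 - δ) := by
      rw [le_div_iff₀ hd]; linarith
    calc c * Real.log x / x ≤ (y + d) * Real.log x / x := by
          apply div_le_div_of_nonneg_right _ hx0.le
          exact mul_le_mul_of_nonneg_right hsplit hlog.le
      _ = d * Real.log x / x + y / x * Real.log x := by ring
      _ ≤ T / (1 - δ) / x + y / x * Real.log x := by
          have := div_le_div_of_nonneg_right h5 hx0.le
          linarith
      _ = T / x / (1 - δ) + Real.log x / x ^ δ := by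
          rw [hyx]; ring

/-- **Prime number theorem in arithmetic progressions**: `π(x;q,a) ∼ x/(φ(q) log x)`. -/
theorem pi_AP {q : ℕ} [NeZero q] {a : ZMod q} (ha : IsUnit a) :
    Tendsto (fun x : ℝ =>
      (((Finset.Icc 1 ⌊x⌋₊).filter (fun p : ℕ => p.Prime ∧ (p : ZMod q) = a)).card : ℝ)
        * Real.log x / x) atTop (𝓝 ((q.totient : ℝ)⁻¹)) :=
  card_of_theta _ _ (theta_AP ha)

/-! ### The case `q = 1` -/

/-- **Prime number theorem**, `ψ(x) ∼ x`. -/
theorem psi : Tendsto (fun x : ℝ => Chebyshev.psi x / x) atTop (𝓝 1) := by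
  have h := psi_AP (q := 1) (a := 0) (by
    have : (0 : ZMod 1) = 1 := rfl
    rw [this]; exact isUnit_one)
  simp only [Nat.totient_one, Nat.cast_one, inv_one] at h
  refine h.congr fun x => ?_
  congr 1
  unfold Chebyshev.psi
  rw [Finset.filter_true_of_mem (fun n _ => Subsingleton.elim _ _)]
  rfl

/-- **Prime number theorem**, `θ(x) ∼ x`. -/
theorem theta : Tendsto (fun x : ℝ => Chebyshev.theta x / x) atTop (𝓝 1) := by
  have h := theta_AP (q := 1) (a := 0) (by
    have : (0 : ZMod 1) = 1 := rfl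
    rw [this]; exact isUnit_one)
  simp only [Nat.totient_one, Nat.cast_one, inv_one] at h
  refine h.congr fun x => ?_
  congr 1
  unfold Chebyshev.theta
  apply Finset.sum_congr _ fun _ _ => rfl
  ext n
  simp only [Finset.mem_filter, Finset.mem_Icc, Finset.mem_Ioc]
  constructor
  · rintro ⟨h1, h2, _⟩; exact ⟨⟨h1.1, h1.2⟩, h2⟩
  · rintro ⟨h1, h2⟩; exact ⟨⟨h1.1, h1.2⟩, h2, Subsingleton.elim _ _⟩

/-- **Prime number theorem**, `π(x) ∼ x / log x` (real variable). -/
theorem pi_real : Tendsto (fun x : ℝ => (Nat.primeCounting ⌊x⌋₊ : ℝ) * Real.log x / x) atTop (𝓝 1) := by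
  have h := pi_AP (q := 1) (a := 0) (by
    have : (0 : ZMod 1) = 1 := rfl
    rw [this]; exact isUnit_one)
  simp only [Nat.totient_one, Nat.cast_one, inv_one] at h
  refine h.congr fun x => ?_
  congr 3
  rw [← Nat.primesLE_card_eq_primeCounting, Nat.primesLE_eq_filter_Icc_one]
  congr 1
  ext n
  simp only [Finset.mem_filter, Finset.mem_Icc]
  constructor
  · rintro ⟨h1, h2, _⟩; exact ⟨⟨h1.1, h1.2⟩, h2⟩
  · rintro ⟨h1, h2⟩; exact ⟨⟨h1.1, h1.2⟩, h2, Subsingleton.elim _ _⟩

/-- **Prime number theorem**, `π(n) ∼ n / log n` (natural variable). -/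
theorem pi_nat : Tendsto (fun n : ℕ => (Nat.primeCounting n : ℝ) * Real.log n / n) atTop (𝓝 1) := by
  have h := pi_real.comp (tendsto_natCast_atTop_atTop (R := ℝ))
  refine h.congr fun n => ?_
  simp only [Function.comp, Nat.floor_natCast]

/-! ### Short intervals -/

/-- For every `ε > 0`, all large `x` have a prime `p ≡ a (mod q)` in `(x, (1+ε) x]`. -/
theorem exists_prime_AP_Ioc {q : ℕ} [NeZero q] {a : ZMod q} (ha : IsUnit a) {ε : ℝ} (hε : 0 < ε) :
    ∀ᶠ x : ℝ in atTop, ∃ p : ℕ, p.Prime ∧ (p : ZMod q) = a ∧ x < p ∧ (p : ℝ) ≤ (1 + ε) * x := by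
  set T : ℝ → ℝ := fun x => ∑ p ∈ (Finset.Icc 1 ⌊x⌋₊).filter (fun p : ℕ => p.Prime ∧ (p : ZMod q) = a),
      Real.log p with hT
  have h1 : Tendsto (fun x : ℝ => T x / x) atTop (𝓝 ((q.totient : ℝ)⁻¹)) := theta_AP ha
  have hφ : 0 < (q.totient : ℝ)⁻¹ := by
    have := Nat.totient_pos.mpr (NeZero.pos q)
    positivity
  have h2 : Tendsto (fun x : ℝ => (1 + ε) * (T ((1 + ε) * x) / ((1 + ε) * x)) - T x / x) atTop
      (𝓝 ((1 + ε) * (q.totient : ℝ)⁻¹ - (q.totient : ℝ)⁻¹)) := by
    refine Tendsto.sub (Tendsto.const_mul _ ?_) h1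
    exact h1.comp (tendsto_id.const_mul_atTop (by positivity))
  have h3 : 0 < (1 + ε) * (q.totient : ℝ)⁻¹ - (q.totient : ℝ)⁻¹ := by
    have : (1 + ε) * (q.totient : ℝ)⁻¹ - (q.totient : ℝ)⁻¹ = ε * (q.totient : ℝ)⁻¹ := by ring
    rw [this]; positivity
  filter_upwards [h2.eventually (lt_mem_nhds h3), eventually_gt_atTop 0] with x hx hx0
  have h4 : T x < T ((1 + ε) * x) := by
    have h5 : (1 + ε) * (T ((1 + ε) * x) / ((1 + ε) * x)) = T ((1 + ε) * x) / x := by
      field_simp
    rw [h5, ← sub_div] at hx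
    have := (div_pos_iff_of_pos_right hx0).mp hx
    linarith
  by_contra hcon
  push Not at hcon
  have h6 : T ((1 + ε) * x) ≤ T x := by
    apply Finset.sum_le_sum_of_subset_of_nonneg
    · intro p hp
      rw [Finset.mem_filter, Finset.mem_Icc] at hp ⊢
      refine ⟨⟨hp.1.1, ?_⟩, hp.2⟩
      have hle : (p:ℝ) ≤ (1 + ε) * x := (Nat.le_floor_iff (by positivity)).mp hp.1.2
      by_contra hlt
      have : x < p := (Nat.floor_lt hx0.le).mp (not_le.mp hlt)
      have := hcon p hp.2.1 hp.2.2 this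
      linarith
    · intro p _ _
      exact Real.log_natCast_nonneg p
  linarith

/-- For every `ε > 0`, all large `x` have a prime in `(x, (1+ε) x]`. -/
theorem exists_prime_Ioc {ε : ℝ} (hε : 0 < ε) :
    ∀ᶠ x : ℝ in atTop, ∃ p : ℕ, p.Prime ∧ x < p ∧ (p : ℝ) ≤ (1 + ε) * x := by
  filter_upwards [exists_prime_AP_Ioc (q := 1) (a := 0) (by
    have : (0 : ZMod 1) = 1 := rfl
    rw [this]; exact isUnit_one) hε] with x hx
  obtain ⟨p, h1, _, h2, h3⟩ := hx
  exact ⟨p, h1, h2, h3⟩

/-! ### The `n`-th element -/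

lemma card_filter_Icc_nth (P : ℕ → Prop) [DecidablePred P] (hP0 : ¬ P 0)
    (hinf : (Set.ofPred P).Infinite) (n : ℕ) :
    ((Finset.Icc 1 (Nat.nth P n)).filter P).card = n + 1 := by
  have h1 : (Finset.Icc 1 (Nat.nth P n)).filter P = (Finset.range (Nat.nth P n + 1)).filter P := by
    ext k
    simp only [Finset.mem_filter, Finset.mem_Icc, Finset.mem_range]
    constructor
    · rintro ⟨h, h'⟩; exact ⟨by omega, h'⟩
    · rintro ⟨h, h'⟩
      refine ⟨⟨?_, by omega⟩, h'⟩
      rcases Nat.eq_zero_or_pos k with rfl | hk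
      · exact absurd h' hP0
      · exact hk
  rw [h1, ← Nat.count_eq_card_filter_range, Nat.count_succ, if_pos (Nat.nth_mem_of_infinite hinf n),
    Nat.count_nth_of_infinite hinf]

/-- If `#{m ≤ x : P m} ∼ A x / log x` with `A > 0`, the `n`-th element is `∼ n log n / A`. -/
theorem nth_of_card (P : ℕ → Prop) [DecidablePred P] (hP0 : ¬ P 0) (A : ℝ) (hA : 0 < A)
    (h : Tendsto (fun x : ℝ => (((Finset.Icc 1 ⌊x⌋₊).filter P).card : ℝ) * Real.log x / x) atTop
      (𝓝 A)) :
    Tendsto (fun n : ℕ => (Nat.nth P n : ℝ) / (n * Real.log n)) atTop (𝓝 A⁻¹) := by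
  -- the set is infinite
  have hinf : (Set.ofPred P).Infinite := by
    intro hfin
    have h0 : Tendsto (fun x : ℝ => (((Finset.Icc 1 ⌊x⌋₊).filter P).card : ℝ) * Real.log x / x) atTop
        (𝓝 0) := by
      have hlim : Tendsto (fun x : ℝ => (hfin.toFinset.card : ℝ) * (Real.log x / x)) atTop
          (𝓝 ((hfin.toFinset.card : ℝ) * 0)) := by
        apply Tendsto.const_mul
        have := Real.isLittleO_log_id_atTop.tendsto_div_nhds_zero
        exact this
      rw [mul_zero] at hlim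
      refine tendsto_of_tendsto_of_tendsto_of_le_of_le' tendsto_const_nhds hlim ?_ ?_
      · filter_upwards [eventually_ge_atTop 1] with x hx
        have := Real.log_nonneg hx
        positivity
      · filter_upwards [eventually_ge_atTop 1] with x hx
        have hlog := Real.log_nonneg hx
        rw [mul_div_assoc]
        apply mul_le_mul_of_nonneg_right _ (by positivity)
        have hsub : (Finset.Icc 1 ⌊x⌋₊).filter P ⊆ hfin.toFinset := by
          intro k hk
          rw [Finset.mem_filter] at hk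
          rw [Set.Finite.mem_toFinset]
          exact hk.2
        exact_mod_cast Finset.card_le_card hsub
    exact hA.ne' (tendsto_nhds_unique h h0)
  set p : ℕ → ℕ := Nat.nth P with hp
  have hpmono : StrictMono p := Nat.nth_strictMono hinf
  have hptop : Tendsto (fun n => (p n : ℝ)) atTop atTop :=
    tendsto_natCast_atTop_atTop.comp hpmono.tendsto_atTop
  have h1 : Tendsto (fun n : ℕ => ((n:ℝ) + 1) * Real.log (p n) / (p n)) atTop (𝓝 A) := by
    refine (h.comp hptop).congr fun n => ?_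
    simp only [Function.comp, Nat.floor_natCast]
    rw [hp, card_filter_Icc_nth P hP0 hinf n]
    push_cast
    rfl
  have hlogp : Tendsto (fun n => Real.log (p n)) atTop atTop := Real.tendsto_log_atTop.comp hptop
  -- logarithm of `h1`
  have h2 : Tendsto (fun n : ℕ => Real.log ((n:ℝ) + 1) + Real.log (Real.log (p n))
      - Real.log (p n)) atTop (𝓝 (Real.log A)) := by
    have := h1.log hA.ne'
    refine this.congr' ?_
    filter_upwards [hlogp.eventually_gt_atTop 0, hptop.eventually_gt_atTop 0] with n hn hn2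
    rw [Real.log_div (by positivity) (by positivity), Real.log_mul (by positivity) (by positivity)]
  have h3 : Tendsto (fun n : ℕ => (Real.log ((n:ℝ) + 1) + Real.log (Real.log (p n))
      - Real.log (p n)) / Real.log (p n)) atTop (𝓝 0) := h2.div_atTop hlogp
  have h4 : Tendsto (fun n : ℕ => Real.log (Real.log (p n)) / Real.log (p n)) atTop (𝓝 0) := by
    have := Real.isLittleO_log_id_atTop.tendsto_div_nhds_zero.comp hlogp
    exact this
  have h5 : Tendsto (fun n : ℕ => Real.log ((n:ℝ) + 1) / Real.log (p n)) atTop (𝓝 1) := by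
    have := (h3.sub h4).add_const 1
    simp only [sub_zero, zero_add] at this
    refine this.congr' ?_
    filter_upwards [hlogp.eventually_gt_atTop 0] with n hn
    field_simp
    ring
  have h6 : Tendsto (fun n : ℕ => ((n:ℝ) + 1) * Real.log ((n:ℝ) + 1) / p n) atTop (𝓝 (A * 1)) := by
    refine (h1.mul h5).congr' ?_
    filter_upwards [hlogp.eventually_gt_atTop 0] with n hn
    field_simp
  rw [mul_one] at h6
  have h7 : Tendsto (fun n : ℕ => (n : ℝ) * Real.log n / (((n:ℝ) + 1) * Real.log ((n:ℝ) + 1)))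
      atTop (𝓝 1) := by
    have e1 : Tendsto (fun n : ℕ => (n:ℝ) / ((n:ℝ) + 1)) atTop (𝓝 1) :=
      tendsto_natCast_div_add_atTop 1
    have e2 : Tendsto (fun n : ℕ => Real.log (n:ℝ) / Real.log ((n:ℝ) + 1)) atTop (𝓝 1) := by
      have e3 : Tendsto (fun n : ℕ => Real.log ((n:ℝ) / ((n:ℝ) + 1)) / Real.log ((n:ℝ) + 1))
          atTop (𝓝 0) := by
        have e4 := e1.log one_ne_zero
        rw [Real.log_one] at e4
        refine e4.div_atTop ?_
        exact Real.tendsto_log_atTop.comp
          (tendsto_atTop_add_const_right _ _ tendsto_natCast_atTop_atTop)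
      have e5 := e3.add_const 1
      rw [zero_add] at e5
      refine e5.congr' ?_
      filter_upwards [eventually_gt_atTop 0] with n hn
      have hn' : (0:ℝ) < n := by exact_mod_cast hn
      have hl : 0 < Real.log ((n:ℝ) + 1) := Real.log_pos (by linarith)
      rw [Real.log_div (by positivity) (by positivity)]
      field_simp
      ring
    have e6 := e1.mul e2
    rw [one_mul] at e6
    refine e6.congr fun n => ?_
    rw [div_mul_div_comm]
  have h8 := (h7.mul h6).inv₀ (by rw [one_mul]; exact hA.ne')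
  rw [one_mul] at h8
  refine h8.congr' ?_
  filter_upwards [eventually_gt_atTop 1] with n hn
  have hn' : (1:ℝ) < n := by exact_mod_cast hn
  have hl1 : 0 < Real.log n := Real.log_pos hn'
  have hl : 0 < Real.log ((n:ℝ) + 1) := Real.log_pos (by linarith)
  have e : (n:ℝ) * Real.log n / (((n:ℝ) + 1) * Real.log ((n:ℝ) + 1)) *
      (((n:ℝ) + 1) * Real.log ((n:ℝ) + 1) / (p n)) = (n:ℝ) * Real.log n / (p n) := by
    field_simp
  rw [e, inv_div]

/-- The `n`-th prime is `∼ n log n`. -/
theorem nth_prime : Tendsto (fun n : ℕ => (Nat.nth Nat.Prime n : ℝ) / (n * Real.log n)) atTop (𝓝 1) := by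
  have h := nth_of_card Nat.Prime Nat.not_prime_zero 1 one_pos (by
    refine pi_real.congr fun x => ?_
    rw [← Nat.primesLE_card_eq_primeCounting, Nat.primesLE_eq_filter_Icc_one])
  rwa [inv_one] at h

/-- The `n`-th prime `≡ a (mod q)` is `∼ φ(q) n log n`. -/
theorem nth_prime_AP {q : ℕ} [NeZero q] {a : ZMod q} (ha : IsUnit a) :
    Tendsto (fun n : ℕ => (Nat.nth (fun p => p.Prime ∧ (p : ZMod q) = a) n : ℝ) / (n * Real.log n))
      atTop (𝓝 (q.totient : ℝ)) := by
  have hφ : 0 < (q.totient : ℝ)⁻¹ := by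
    have := Nat.totient_pos.mpr (NeZero.pos q)
    positivity
  have h := nth_of_card (fun p => p.Prime ∧ (p : ZMod q) = a) (fun h => Nat.not_prime_zero h.1)
    _ hφ (pi_AP ha)
  rwa [inv_inv] at h

end Pool.Agent.Lib.PNT
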