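import Mathlib

/-!
# Selberg's upper bound sieve

Built on Mathlib's `BoundingSieve`.  With the sum `G = ∑_{l ∣ P, l ≤ z} g(l)` the sifted sum is at
most `X / G` plus an elementary error term.
-/

namespace Pool.Agent.Lib.SelbergUpper

open Finset BoundingSieve ArithmeticFunction
open scoped ArithmeticFunction.Moebius

variable (s : BoundingSieve) (z : ℕ)

/-- Selberg's sum `∑_{l ∣ P, l ≤ z} g(l)` -/
noncomputable def G : ℝ := ∑ l ∈ s.prodPrimes.divisors with l ≤ z, s.selbergTerms l

/-- Selberg's weights -/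
noncomputable def wt (d : ℕ) : ℝ :=
  (s.nu d)⁻¹ * (μ d : ℝ) * (G s z)⁻¹ *
    ∑ l ∈ s.prodPrimes.divisors with (l ≤ z ∧ d ∣ l), s.selbergTerms l

lemma G_pos (hz : 1 ≤ z) : 0 < G s z := by
  unfold G
  apply Finset.sum_pos
  · intro l hl
    simp only [Finset.mem_filter, Nat.mem_divisors] at hl
    exact selbergTerms_pos hl.1.1
  · refine ⟨1, ?_⟩
    simp only [Finset.mem_filter, Nat.mem_divisors]
    exact ⟨⟨one_dvd _, prodPrimes_ne_zero⟩, hz⟩

lemma wt_one (hz : 1 ≤ z) : wt s z 1 = 1 := by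
  have h1 : s.nu 1 = 1 := s.nu_mult.map_one
  have hG := G_pos s z hz
  unfold wt
  have : ∑ l ∈ s.prodPrimes.divisors with (l ≤ z ∧ 1 ∣ l), s.selbergTerms l = G s z := by
    unfold G
    congr 1
    ext l
    simp
  rw [this, h1]
  simp
  exact inv_mul_cancel₀ hG.ne'

/-- the partial Möbius sum over multiples of `l` dividing `m` -/
lemma sum_moebius_mult {l m : ℕ} (hm : Squarefree m) (hl : l ∣ m) :
    ∑ d ∈ m.divisors with l ∣ d, (μ d : ℝ) = if l = m then (μ l : ℝ) else 0 := by
  have hm0 : m ≠ 0 := hm.ne_zero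
  have hl0 : l ≠ 0 := ne_zero_of_dvd_ne_zero hm0 hl
  obtain ⟨k, rfl⟩ := hl
  have hk0 : k ≠ 0 := right_ne_zero_of_mul hm0
  have hcop : l.Coprime k := by
    have := (Nat.squarefree_mul_iff.mp hm).1
    exact this
  have himg : (l * k).divisors.filter (fun d => l ∣ d) = k.divisors.image (fun e => l * e) := by
    ext d
    simp only [Finset.mem_filter, Nat.mem_divisors, Finset.mem_image]
    constructor
    · rintro ⟨⟨h1, h2⟩, ⟨e, rfl⟩⟩
      exact ⟨e, ⟨(Nat.mul_dvd_mul_iff_left (Nat.pos_of_ne_zero hl0)).mp h1, hk0⟩, rfl⟩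
    · rintro ⟨e, ⟨h1, _⟩, rfl⟩
      exact ⟨⟨Nat.mul_dvd_mul_left l h1, hm0⟩, Dvd.intro _ rfl⟩
  rw [himg, Finset.sum_image (by
    intro a _ b _ hab
    exact Nat.eq_of_mul_eq_mul_left (Nat.pos_of_ne_zero hl0) hab)]
  have h2 : ∀ e ∈ k.divisors, (μ (l * e) : ℝ) = (μ l : ℝ) * (μ e : ℝ) := by
    intro e he
    have hek : e ∣ k := (Nat.mem_divisors.mp he).1
    have : l.Coprime e := Nat.Coprime.coprime_dvd_right hek hcop
    rw [isMultiplicative_moebius.map_mul_of_coprime this]
    push_cast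
    ring
  rw [Finset.sum_congr rfl h2, ← Finset.mul_sum]
  have h3 : ∑ e ∈ k.divisors, (μ e : ℝ) = if k = 1 then 1 else 0 := by
    have h4 : ∑ e ∈ k.divisors, μ e = (if k = 1 then 1 else 0 : ℤ) := by
      rw [← ArithmeticFunction.coe_mul_zeta_apply, ArithmeticFunction.moebius_mul_coe_zeta,
        ArithmeticFunction.one_apply]
    exact_mod_cast congrArg (fun x : ℤ => (x : ℝ)) h4
  rw [h3]
  by_cases hk : k = 1
  · subst hk; simp
  · have : l ≠ l * k := by
      intro h
      apply hk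
      exact (Nat.eq_of_mul_eq_mul_left (Nat.pos_of_ne_zero hl0) (by omega : l * k = l * 1))
    simp [hk, this]

lemma diag_wt {l : ℕ} (hl : l ∣ s.prodPrimes) :
    (∑ d ∈ s.prodPrimes.divisors, if l ∣ d then s.nu d * wt s z d else 0) =
      if l ≤ z then (μ l : ℝ) * s.selbergTerms l * (G s z)⁻¹ else 0 := by
  have hP : s.prodPrimes ≠ 0 := prodPrimes_ne_zero
  have h1 : ∀ d ∈ s.prodPrimes.divisors, (if l ∣ d then s.nu d * wt s z d else 0) =
      ∑ m ∈ s.prodPrimes.divisors with m ≤ z,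
        (if l ∣ d ∧ d ∣ m then (μ d : ℝ) * s.selbergTerms m * (G s z)⁻¹ else 0) := by
    intro d hd
    have hdP := (Nat.mem_divisors.mp hd).1
    have hnu : s.nu d ≠ 0 := nu_ne_zero hdP
    by_cases hld : l ∣ d
    · simp only [hld, if_true, true_and]
      unfold wt
      rw [← Finset.filter_filter, ← Finset.sum_filter]
      rw [show s.nu d * ((s.nu d)⁻¹ * (μ d : ℝ) * (G s z)⁻¹ *
        ∑ l ∈ Finset.filter (fun a => d ∣ a) (Finset.filter (fun a => a ≤ z) s.prodPrimes.divisors),
          s.selbergTerms l) = (s.nu d * (s.nu d)⁻¹) * ((μ d : ℝ) * (G s z)⁻¹ *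
        ∑ l ∈ Finset.filter (fun a => d ∣ a) (Finset.filter (fun a => a ≤ z) s.prodPrimes.divisors),
          s.selbergTerms l) by ring, mul_inv_cancel₀ hnu, one_mul, Finset.mul_sum]
      apply Finset.sum_congr rfl
      intro m _
      ring
    · simp [hld]
  rw [Finset.sum_congr rfl h1, Finset.sum_comm]
  have h2 : ∀ m ∈ (s.prodPrimes.divisors.filter (fun m => m ≤ z)),
      (∑ d ∈ s.prodPrimes.divisors,
        if l ∣ d ∧ d ∣ m then (μ d : ℝ) * s.selbergTerms m * (G s z)⁻¹ else 0) =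
      if l = m then (μ l : ℝ) * s.selbergTerms l * (G s z)⁻¹ else 0 := by
    intro m hm
    simp only [Finset.mem_filter, Nat.mem_divisors] at hm
    have hmP := hm.1.1
    have hmsq : Squarefree m := squarefree_of_dvd_prodPrimes hmP
    rw [← Finset.sum_filter]
    have hset : (s.prodPrimes.divisors.filter (fun d => l ∣ d ∧ d ∣ m)) =
        m.divisors.filter (fun d => l ∣ d) := by
      ext d
      simp only [Finset.mem_filter, Nat.mem_divisors]
      constructor
      · rintro ⟨_, h3, h4⟩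
        exact ⟨⟨h4, hmsq.ne_zero⟩, h3⟩
      · rintro ⟨⟨h4, _⟩, h3⟩
        exact ⟨⟨h4.trans hmP, hP⟩, h3, h4⟩
    rw [hset]
    by_cases hlm : l ∣ m
    · have := sum_moebius_mult hmsq hlm
      rw [← Finset.sum_mul, ← Finset.sum_mul, this]
      by_cases h : l = m
      · subst h; simp
      · simp [h]
    · have : m.divisors.filter (fun d => l ∣ d) = ∅ := by
        ext d
        simp only [Finset.mem_filter, Nat.mem_divisors, Finset.notMem_empty, iff_false]
        rintro ⟨⟨h3, _⟩, h4⟩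
        exact hlm (h4.trans h3)
      rw [this, Finset.sum_empty]
      have : l ≠ m := by
        rintro rfl
        exact hlm dvd_rfl
      simp [this]
  rw [Finset.sum_congr rfl h2, Finset.sum_ite_eq]
  simp only [Finset.mem_filter, Nat.mem_divisors]
  by_cases hlz : l ≤ z
  · simp [hlz, hl, hP]
  · simp [hlz]

theorem mainSum_wt (hz : 1 ≤ z) : s.mainSum (lambdaSquared (wt s z)) = (G s z)⁻¹ := by
  have hG := G_pos s z hz
  rw [mainSum_lambdaSquared_eq_sum_mul_sum_sq]
  have h1 : ∀ l ∈ s.prodPrimes.divisors, (s.selbergTerms l)⁻¹ *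
        (∑ d ∈ s.prodPrimes.divisors, if l ∣ d then s.nu d * wt s z d else 0) ^ 2 =
      if l ≤ z then s.selbergTerms l * ((G s z)⁻¹) ^ 2 else 0 := by
    intro l hl
    have hlP := (Nat.mem_divisors.mp hl).1
    have hpos := selbergTerms_pos hlP
    rw [diag_wt s z hlP]
    by_cases hlz : l ≤ z
    · simp only [hlz, if_true]
      have hmu : ((μ l : ℤ) : ℝ) ^ 2 = 1 := by
        have : (μ l) ^ 2 = 1 := by
          have := (ArithmeticFunction.moebius_sq_eq_one_of_squarefree
            (squarefree_of_dvd_prodPrimes hlP))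
          exact this
        exact_mod_cast this
      rw [mul_pow, mul_pow, hmu]
      field_simp
    · simp [hlz]
  rw [Finset.sum_congr rfl h1, ← Finset.sum_filter, ← Finset.sum_mul]
  change G s z * _ = _
  field_simp

lemma abs_wt_le (hz : 1 ≤ z) {d : ℕ} (hd : d ∣ s.prodPrimes) :
    |wt s z d| ≤ (s.nu d)⁻¹ := by
  have hG := G_pos s z hz
  have hnu := nu_pos_of_dvd_prodPrimes hd
  unfold wt
  rw [abs_mul, abs_mul, abs_mul, abs_of_pos (inv_pos.mpr hnu), abs_of_pos (inv_pos.mpr hG)]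
  have hmu : |((μ d : ℤ) : ℝ)| ≤ 1 := by
    have := ArithmeticFunction.abs_moebius_le_one (n := d)
    exact_mod_cast this
  have hsum0 : 0 ≤ ∑ l ∈ s.prodPrimes.divisors with (l ≤ z ∧ d ∣ l), s.selbergTerms l := by
    apply Finset.sum_nonneg
    intro l hl
    simp only [Finset.mem_filter, Nat.mem_divisors] at hl
    exact (selbergTerms_pos hl.1.1).le
  rw [abs_of_nonneg hsum0]
  have hle : ∑ l ∈ s.prodPrimes.divisors with (l ≤ z ∧ d ∣ l), s.selbergTerms l ≤ G s z := by
    unfold G
    apply Finset.sum_le_sum_of_subset_of_nonneg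
    · intro l hl
      simp only [Finset.mem_filter] at hl ⊢
      exact ⟨hl.1, hl.2.1⟩
    · intro l hl _
      simp only [Finset.mem_filter, Nat.mem_divisors] at hl
      exact (selbergTerms_pos hl.1.1).le
  calc (s.nu d)⁻¹ * |((μ d : ℤ) : ℝ)| * (G s z)⁻¹ * _
      ≤ (s.nu d)⁻¹ * 1 * (G s z)⁻¹ * G s z := by
        gcongr
    _ = (s.nu d)⁻¹ := by field_simp

lemma wt_eq_zero {d : ℕ} (hd : z < d) : wt s z d = 0 := by
  unfold wt
  have : (s.prodPrimes.divisors.filter (fun l => l ≤ z ∧ d ∣ l)) = ∅ := by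
    ext l
    simp only [Finset.mem_filter, Nat.mem_divisors, Finset.notMem_empty, iff_false]
    rintro ⟨⟨h1, h2⟩, h3, h4⟩
    have hl0 : 0 < l := Nat.pos_of_ne_zero (ne_zero_of_dvd_ne_zero h2 h1)
    have := Nat.le_of_dvd hl0 h4
    omega
  rw [this, Finset.sum_empty, mul_zero]

/-- Selberg's upper bound sieve with a crude error term: if `|R_d| ≤ B` whenever
`d ∣ P`, `d ≤ z ^ 2`, and `ν(d)⁻¹ ≤ A` for `d ∣ P`, `d ≤ z`, then the sifted sum is at most
`X / G + z² A² B`. -/
theorem siftedSum_le (hz : 1 ≤ z) (A B : ℝ) (hA : 0 ≤ A)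
    (hnu : ∀ d, d ∣ s.prodPrimes → d ≤ z → (s.nu d)⁻¹ ≤ A)
    (hrem : ∀ d, d ∣ s.prodPrimes → d ≤ z ^ 2 → |s.rem d| ≤ B) :
    s.siftedSum ≤ s.totalMass / G s z + (z : ℝ) ^ 2 * A ^ 2 * B := by
  have hP : s.prodPrimes ≠ 0 := prodPrimes_ne_zero
  have hB : 0 ≤ B := le_trans (abs_nonneg _) (hrem 1 (one_dvd _) (Nat.one_le_pow _ _ hz))
  have h := siftedSum_le_mainSum_errSum_of_upperMoebius (s := s) (lambdaSquared (wt s z))
    (upperMoebius_lambdaSquared _ (wt_one s z hz))
  rw [mainSum_wt s z hz] at h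
  refine h.trans ?_
  rw [div_eq_mul_inv]
  gcongr
  unfold errSum
  -- bound the coefficients
  have h1 : ∀ d ∈ s.prodPrimes.divisors, |lambdaSquared (wt s z) d| * |s.rem d| ≤
      ∑ d1 ∈ s.prodPrimes.divisors with d1 ≤ z, ∑ d2 ∈ s.prodPrimes.divisors with d2 ≤ z,
        if d = Nat.lcm d1 d2 then A ^ 2 * B else 0 := by
    intro d hd
    have hdP := (Nat.mem_divisors.mp hd).1
    have hd0 : d ≠ 0 := ne_zero_of_dvd_ne_zero hP hdP
    have h2 : |lambdaSquared (wt s z) d| ≤ ∑ d1 ∈ d.divisors, ∑ d2 ∈ d.divisors,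
        |if d = Nat.lcm d1 d2 then wt s z d1 * wt s z d2 else 0| := by
      unfold lambdaSquared
      refine (Finset.abs_sum_le_sum_abs _ _).trans ?_
      exact Finset.sum_le_sum fun d1 _ => Finset.abs_sum_le_sum_abs _ _
    calc |lambdaSquared (wt s z) d| * |s.rem d|
        ≤ (∑ d1 ∈ d.divisors, ∑ d2 ∈ d.divisors,
        |if d = Nat.lcm d1 d2 then wt s z d1 * wt s z d2 else 0|) * |s.rem d| := by
          gcongr
      _ = ∑ d1 ∈ d.divisors, ∑ d2 ∈ d.divisors,
        |if d = Nat.lcm d1 d2 then wt s z d1 * wt s z d2 else 0| * |s.rem d| := by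
          rw [Finset.sum_mul]
          exact Finset.sum_congr rfl fun d1 _ => by rw [Finset.sum_mul]
      _ = ∑ d1 ∈ d.divisors with d1 ≤ z, ∑ d2 ∈ d.divisors with d2 ≤ z,
        |if d = Nat.lcm d1 d2 then wt s z d1 * wt s z d2 else 0| * |s.rem d| := by
          rw [Finset.sum_filter]
          apply Finset.sum_congr rfl
          intro d1 _
          by_cases h1 : d1 ≤ z
          · simp only [h1, if_true]
            rw [Finset.sum_filter]
            apply Finset.sum_congr rfl
            intro d2 _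
            by_cases h2 : d2 ≤ z
            · simp [h2]
            · simp [h2, wt_eq_zero s z (not_le.mp h2)]
          · simp [h1, wt_eq_zero s z (not_le.mp h1)]
      _ ≤ ∑ d1 ∈ d.divisors with d1 ≤ z, ∑ d2 ∈ d.divisors with d2 ≤ z,
        (if d = Nat.lcm d1 d2 then A ^ 2 * B else 0) := by
          apply Finset.sum_le_sum
          intro d1 hd1
          apply Finset.sum_le_sum
          intro d2 hd2
          simp only [Finset.mem_filter, Nat.mem_divisors] at hd1 hd2
          by_cases h3 : d = Nat.lcm d1 d2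
          · rw [if_pos h3, if_pos h3, abs_mul]
            have hw1 : |wt s z d1| ≤ A := (abs_wt_le s z hz (hd1.1.1.trans hdP)).trans
              (hnu d1 (hd1.1.1.trans hdP) hd1.2)
            have hw2 : |wt s z d2| ≤ A := (abs_wt_le s z hz (hd2.1.1.trans hdP)).trans
              (hnu d2 (hd2.1.1.trans hdP) hd2.2)
            have hdz : d ≤ z ^ 2 := by
              rw [h3]
              have hd1pos : 0 < d1 := Nat.pos_of_dvd_of_pos hd1.1.1 (Nat.pos_of_ne_zero hd0)
              have hd2pos : 0 < d2 := Nat.pos_of_dvd_of_pos hd2.1.1 (Nat.pos_of_ne_zero hd0)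
              have : Nat.lcm d1 d2 ≤ d1 * d2 := Nat.le_of_dvd (by positivity)
                (Nat.lcm_dvd_mul d1 d2)
              refine this.trans ?_
              rw [sq]
              exact Nat.mul_le_mul hd1.2 hd2.2
            have hr := hrem d hdP hdz
            calc |wt s z d1| * |wt s z d2| * |s.rem d| ≤ A * A * B := by gcongr
              _ = A ^ 2 * B := by ring
          · rw [if_neg h3, if_neg h3]
            simp
      _ ≤ _ := by
          have hsub : d.divisors.filter (fun d1 => d1 ≤ z) ⊆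
              s.prodPrimes.divisors.filter (fun d1 => d1 ≤ z) :=
            Finset.filter_subset_filter _ (Nat.divisors_subset_of_dvd hP hdP)
          refine (Finset.sum_le_sum fun d1 _ => Finset.sum_le_sum_of_subset_of_nonneg hsub
            fun d2 _ _ => ?_).trans (Finset.sum_le_sum_of_subset_of_nonneg hsub fun d1 _ _ => ?_)
          · split_ifs <;> positivity
          · apply Finset.sum_nonneg
            intro d2 _
            split_ifs <;> positivity
  refine (Finset.sum_le_sum h1).trans ?_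
  rw [Finset.sum_comm]
  have h3 : ∀ d1 ∈ (s.prodPrimes.divisors.filter (fun d1 => d1 ≤ z)),
      (∑ d ∈ s.prodPrimes.divisors, ∑ d2 ∈ s.prodPrimes.divisors with d2 ≤ z,
        if d = Nat.lcm d1 d2 then A ^ 2 * B else 0) ≤ (z : ℝ) * (A ^ 2 * B) := by
    intro d1 hd1
    rw [Finset.sum_comm]
    have h4 : ∀ d2 ∈ (s.prodPrimes.divisors.filter (fun d1 => d1 ≤ z)),
        (∑ d ∈ s.prodPrimes.divisors, if d = Nat.lcm d1 d2 then A ^ 2 * B else 0) ≤ A ^ 2 * B := by
      intro d2 _
      rw [Finset.sum_ite_eq']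
      split_ifs
      · exact le_rfl
      · positivity
    refine (Finset.sum_le_sum h4).trans ?_
    rw [Finset.sum_const, nsmul_eq_mul]
    gcongr
    have hsub : s.prodPrimes.divisors.filter (fun d1 => d1 ≤ z) ⊆ Finset.Icc 1 z := by
      intro d hd
      simp only [Finset.mem_filter, Nat.mem_divisors] at hd
      rw [Finset.mem_Icc]
      exact ⟨Nat.pos_of_dvd_of_pos hd.1.1 (Nat.pos_of_ne_zero hP), hd.2⟩
    have := Finset.card_le_card hsub
    rw [Nat.card_Icc] at this
    omega
  refine (Finset.sum_le_sum h3).trans ?_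
  rw [Finset.sum_const, nsmul_eq_mul]
  have hcard : ((s.prodPrimes.divisors.filter (fun d1 => d1 ≤ z)).card : ℝ) ≤ z := by
    have hsub : s.prodPrimes.divisors.filter (fun d1 => d1 ≤ z) ⊆ Finset.Icc 1 z := by
      intro d hd
      simp only [Finset.mem_filter, Nat.mem_divisors] at hd
      rw [Finset.mem_Icc]
      exact ⟨Nat.pos_of_dvd_of_pos hd.1.1 (Nat.pos_of_ne_zero hP), hd.2⟩
    have := Finset.card_le_card hsub
    rw [Nat.card_Icc] at this
    have h5 : (s.prodPrimes.divisors.filter (fun d1 => d1 ≤ z)).card ≤ z := by omega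
    exact_mod_cast h5
  calc _ ≤ (z : ℝ) * ((z : ℝ) * (A ^ 2 * B)) := by gcongr
    _ = (z : ℝ) ^ 2 * A ^ 2 * B := by ring

end Pool.Agent.Lib.SelbergUpper
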