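import Mathlib
import Pool.Agent.Lib.SelbergUpper

/-!
# Upper bounds for the number of prime pairs

For `d ≥ 1` and `F(n) = ∑_{e ∣ n} 1/e` the number of `n ∈ (M, M+N]` with `n` and `n + d` prime is at
most `8 F(2d)² N / log² y + y¹²` whenever `2 ≤ y`, `y² ≤ M`.
-/

namespace Pool.Agent.Lib.PrimePairs

open Finset BoundingSieve
open Pool.Agent.Lib.SelbergUpper

/-- the sum of the reciprocals of the divisors -/
noncomputable def F (n : ℕ) : ℝ := ∑ e ∈ n.divisors, (1 : ℝ) / e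

lemma F_nonneg (n : ℕ) : 0 ≤ F n := Finset.sum_nonneg fun e _ => by positivity

/-! ### counting -/

/-- the number of elements of `(a, b]` in a residue class -/
lemma abs_count_modEq_sub_le (a b r v : ℕ) (hab : a ≤ b) (hr : 0 < r) :
    |(((Ioc a b).filter (fun n => n ≡ v [MOD r])).card : ℝ) - ((b : ℝ) - a) / r| ≤ 1 := by
  have h := Nat.Ioc_filter_modEq_card a b hr v
  have hr' : (0 : ℚ) < r := by exact_mod_cast hr
  have hmono : ⌊((a : ℚ) - v) / r⌋ ≤ ⌊((b : ℚ) - v) / r⌋ := by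
    apply Int.floor_le_floor
    gcongr
  rw [max_eq_left (by linarith)] at h
  have h1 := Int.floor_le (((a : ℚ) - v) / r)
  have h2 := Int.lt_floor_add_one (((a : ℚ) - v) / r)
  have h3 := Int.floor_le (((b : ℚ) - v) / r)
  have h4 := Int.lt_floor_add_one (((b : ℚ) - v) / r)
  have hq : |(((Ioc a b).filter (fun n => n ≡ v [MOD r])).card : ℚ) - ((b : ℚ) - a) / r| ≤ 1 := by
    have h5 : (((Ioc a b).filter (fun n => n ≡ v [MOD r])).card : ℚ) =
        (⌊((b : ℚ) - v) / r⌋ : ℚ) - ⌊((a : ℚ) - v) / r⌋ := by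
      exact_mod_cast h
    rw [h5]
    have h6 : ((b : ℚ) - a) / r = ((b : ℚ) - v) / r - ((a : ℚ) - v) / r := by ring
    rw [h6, abs_le]
    constructor <;> linarith
  have := (Rat.cast_le (K := ℝ)).mpr hq
  push_cast at this
  exact this

/-- counting simultaneous divisibilities for coprime moduli -/
lemma abs_count_pair_sub_le (M N d a b : ℕ) (ha : 0 < a) (hb : 0 < b) (hab : a.Coprime b) :
    |(((Ioc M (M + N)).filter (fun n => a ∣ n ∧ b ∣ n + d)).card : ℝ) - (N : ℝ) / ((a * b : ℕ) : ℝ)| ≤ 1 := by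
  -- a residue r with r ≡ 0 mod a, r + d ≡ 0 mod b
  obtain ⟨r, hr1, hr2⟩ := Nat.chineseRemainder hab 0 (b * d - d)
  have hset : (Ioc M (M + N)).filter (fun n => a ∣ n ∧ b ∣ n + d) =
      (Ioc M (M + N)).filter (fun n => n ≡ r [MOD a * b]) := by
    apply Finset.filter_congr
    intro n _
    rw [← Nat.modEq_and_modEq_iff_modEq_mul hab]
    have h1 : a ∣ n ↔ n ≡ r [MOD a] := by
      rw [← Nat.modEq_zero_iff_dvd]
      exact ⟨fun h => h.trans hr1.symm, fun h => h.trans hr1⟩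
    have h2 : b ∣ n + d ↔ n ≡ r [MOD b] := by
      have h3 : b ∣ n + d ↔ n + d ≡ r + d [MOD b] := by
        have h4 : r + d ≡ 0 [MOD b] := by
          have h5 : r + d ≡ (b * d - d) + d [MOD b] := Nat.ModEq.add_right d hr2
          have h6 : (b * d - d) + d = b * d := Nat.sub_add_cancel (Nat.le_mul_of_pos_left d hb)
          rw [h6] at h5
          exact h5.trans ((Nat.modEq_zero_iff_dvd).mpr (Dvd.intro _ rfl))
        rw [← Nat.modEq_zero_iff_dvd]
        exact ⟨fun h => h.trans h4.symm, fun h => h.trans h4⟩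
      rw [h3]
      exact ⟨fun h => Nat.ModEq.add_right_cancel' d h, fun h => Nat.ModEq.add_right d h⟩
    rw [h1, h2]
  rw [hset]
  have := abs_count_modEq_sub_le M (M + N) (a * b) r (by omega) (by positivity)
  push_cast at this ⊢
  simpa using this

/-- counting solutions of `e ∣ n (n + d)` for squarefree `e` coprime to `d` -/
lemma abs_count_mul_sub_le (M N d e : ℕ) (he : Squarefree e) (hed : e.Coprime d) :
    |(((Ioc M (M + N)).filter (fun n => e ∣ n * (n + d))).card : ℝ) -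
      (e.divisors.card : ℝ) / e * N| ≤ e.divisors.card := by
  have he0 : e ≠ 0 := he.ne_zero
  have hepos : 0 < e := Nat.pos_of_ne_zero he0
  have hcard : ((Ioc M (M + N)).filter (fun n => e ∣ n * (n + d))).card =
      ∑ a ∈ e.divisors, ((Ioc M (M + N)).filter (fun n => a ∣ n ∧ e / a ∣ n + d)).card := by
    rw [Finset.card_eq_sum_card_fiberwise (f := fun n => Nat.gcd e n) (t := e.divisors)]
    · apply Finset.sum_congr rfl
      intro a ha
      have hae : a ∣ e := (Nat.mem_divisors.mp ha).1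
      have ha0 : 0 < a := Nat.pos_of_dvd_of_pos hae hepos
      congr 1
      rw [Finset.filter_filter]
      apply Finset.filter_congr
      intro n _
      obtain ⟨b, rfl⟩ := hae
      have hb0 : 0 < b := Nat.pos_of_ne_zero (right_ne_zero_of_mul he0)
      rw [Nat.mul_div_cancel_left b ha0]
      have hab : a.Coprime b := (Nat.squarefree_mul_iff.mp he).1
      constructor
      · rintro ⟨h1, h2⟩
        have han : a ∣ n := by rw [← h2]; exact Nat.gcd_dvd_right _ _
        obtain ⟨k, rfl⟩ := han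
        refine ⟨Dvd.intro _ rfl, ?_⟩
        have h3 : Nat.gcd b k = 1 := by
          rw [Nat.gcd_mul_left] at h2
          exact (Nat.eq_of_mul_eq_mul_left ha0 (by rw [h2, mul_one]))
        rw [mul_assoc] at h1
        have h4 : b ∣ k * (a * k + d) := (Nat.mul_dvd_mul_iff_left ha0).mp h1
        exact Nat.Coprime.dvd_of_dvd_mul_left h3 h4
      · rintro ⟨h1, h2⟩
        refine ⟨Nat.mul_dvd_mul h1 h2, ?_⟩
        have hbn : b.Coprime n := by
          apply Nat.Coprime.symm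
          by_contra hcon
          obtain ⟨p, hp, hpn, hpb⟩ := Nat.Prime.not_coprime_iff_dvd.mp hcon
          have h3 : p ∣ d := (Nat.dvd_add_right hpn).mp (hpb.trans h2)
          have h4 : p ∣ a * b := Dvd.dvd.mul_left hpb a
          have := Nat.dvd_gcd h4 h3
          rw [hed] at this
          exact hp.one_lt.ne' (Nat.dvd_one.mp this)
        rw [Nat.Coprime.gcd_mul_right_cancel a hbn]
        exact Nat.gcd_eq_left h1
    · intro n _
      simp only [Finset.mem_coe, Nat.mem_divisors]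
      exact ⟨Nat.gcd_dvd_left _ _, he0⟩
  rw [hcard]
  push_cast
  have h1 : (e.divisors.card : ℝ) / e * N = ∑ a ∈ e.divisors, (N : ℝ) / e := by
    rw [Finset.sum_const, nsmul_eq_mul]; ring
  rw [h1, ← Finset.sum_sub_distrib]
  refine (Finset.abs_sum_le_sum_abs _ _).trans ?_
  have h2 : ∀ a ∈ e.divisors,
      |(((Ioc M (M + N)).filter (fun n => a ∣ n ∧ e / a ∣ n + d)).card : ℝ) - (N : ℝ) / e| ≤ 1 := by
    intro a ha
    have hae : a ∣ e := (Nat.mem_divisors.mp ha).1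
    obtain ⟨b, rfl⟩ := hae
    have ha0 : 0 < a := Nat.pos_of_ne_zero (left_ne_zero_of_mul he0)
    have hb0 : 0 < b := Nat.pos_of_ne_zero (right_ne_zero_of_mul he0)
    rw [Nat.mul_div_cancel_left b ha0]
    exact abs_count_pair_sub_le M N d a b ha0 hb0 (Nat.squarefree_mul_iff.mp he).1
  refine (Finset.sum_le_sum h2).trans ?_
  simp

/-! ### the sieve -/

/-- the product of the primes up to `z` not dividing `D` -/
noncomputable def primProd (D z : ℕ) : ℕ := ∏ p ∈ (range (z + 1)).filter (fun p => p.Prime ∧ ¬ p ∣ D), p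

lemma primProd_squarefree (D z : ℕ) : Squarefree (primProd D z) := by
  unfold primProd
  apply Finset.squarefree_prod_of_pairwise_isCoprime
  · intro p hp q hq hpq
    simp only [Finset.coe_filter, Set.mem_ofPred_eq] at hp hq
    exact (Nat.coprime_iff_isRelPrime.mp ((Nat.coprime_primes hp.2.1 hq.2.1).mpr hpq))
  · intro p hp
    simp only [Finset.mem_filter] at hp
    exact hp.2.1.prime.squarefree

lemma dvd_primProd_iff {D z p : ℕ} (hp : p.Prime) : p ∣ primProd D z ↔ p ≤ z ∧ ¬ p ∣ D := by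
  unfold primProd
  rw [hp.prime.dvd_finsetProd_iff]
  constructor
  · rintro ⟨q, hq, hpq⟩
    simp only [Finset.mem_filter, Finset.mem_range] at hq
    rw [(Nat.prime_dvd_prime_iff_eq hp hq.2.1).mp hpq]
    exact ⟨by omega, hq.2.2⟩
  · rintro ⟨h1, h2⟩
    exact ⟨p, by simp only [Finset.mem_filter, Finset.mem_range]; exact ⟨by omega, hp, h2⟩, dvd_rfl⟩

lemma coprime_primProd (D z : ℕ) {e : ℕ} (he : e ∣ primProd D z) : e.Coprime D := by
  by_contra hcon
  obtain ⟨p, hp, hpe, hpD⟩ := Nat.Prime.not_coprime_iff_dvd.mp hcon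
  exact ((dvd_primProd_iff hp).mp (hpe.trans he)).2 hpD

lemma dvd_primProd_of_squarefree {D z l : ℕ} (hl : Squarefree l) (hlz : l ≤ z) (hlD : l.Coprime D) :
    l ∣ primProd D z := by
  rw [← Nat.prod_primeFactors_of_squarefree hl]
  unfold primProd
  apply Finset.prod_dvd_prod_of_subset
  intro p hp
  have hp' := Nat.prime_of_mem_primeFactors hp
  have hpl := Nat.dvd_of_mem_primeFactors hp
  simp only [Finset.mem_filter, Finset.mem_range]
  refine ⟨?_, hp', ?_⟩
  · have := Nat.le_of_dvd (Nat.pos_of_ne_zero hl.ne_zero) hpl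
    omega
  · intro hpD
    have := Nat.dvd_gcd hpl hpD
    rw [hlD] at this
    exact hp'.one_lt.ne' (Nat.dvd_one.mp this)

/-- the density `τ(n)/n` -/
noncomputable def nuPair : ArithmeticFunction ℝ :=
  ⟨fun n => (n.divisors.card : ℝ) / n, by simp⟩

lemma nuPair_apply (n : ℕ) : nuPair n = (n.divisors.card : ℝ) / n := rfl

lemma nuPair_mult : nuPair.IsMultiplicative := by
  constructor
  · simp [nuPair_apply]
  · intro m n hmn
    rw [nuPair_apply, nuPair_apply, nuPair_apply, Nat.Coprime.card_divisors_mul hmn]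
    push_cast
    rw [mul_div_mul_comm]

lemma nuPair_prime {p : ℕ} (hp : p.Prime) : nuPair p = 2 / p := by
  rw [nuPair_apply, Nat.Prime.divisors hp, Finset.card_pair hp.one_lt.ne]
  norm_num

/-- the sieve for prime pairs -/
noncomputable def pairSieve (M N d z : ℕ) : BoundingSieve where
  support := (Ioc M (M + N)).image (fun n => n * (n + d))
  prodPrimes := primProd (2 * d) z
  prodPrimes_squarefree := primProd_squarefree _ _
  weights := fun _ => 1
  weights_nonneg := fun _ => zero_le_one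
  totalMass := N
  nu := nuPair
  nu_mult := nuPair_mult
  nu_pos_of_prime := by
    intro p hp _
    rw [nuPair_prime hp]
    have := hp.pos
    positivity
  nu_lt_one_of_prime := by
    intro p hp hpd
    rw [nuPair_prime hp]
    have h2 : p ≠ 2 := by
      rintro rfl
      exact ((dvd_primProd_iff hp).mp hpd).2 (Dvd.intro _ rfl)
    have h3 : 2 < p := lt_of_le_of_ne hp.two_le h2.symm
    rw [div_lt_one (by exact_mod_cast hp.pos)]
    exact_mod_cast h3

lemma inj_mul_add (d : ℕ) : Function.Injective (fun n : ℕ => n * (n + d)) := by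
  intro a b hab
  simp only at hab
  rcases lt_trichotomy a b with h | h | h
  · exfalso
    have h1 : a * (a + d) < b * (b + d) := by
      have : a * (a + d) ≤ a * (b + d) := Nat.mul_le_mul_left a (by omega)
      have h2 : a * (b + d) < b * (b + d) := Nat.mul_lt_mul_of_pos_right h (by omega)
      omega
    omega
  · exact h
  · exfalso
    have h1 : b * (b + d) < a * (a + d) := by
      have : b * (b + d) ≤ b * (a + d) := Nat.mul_le_mul_left b (by omega)
      have h2 : b * (a + d) < a * (a + d) := Nat.mul_lt_mul_of_pos_right h (by omega)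
      omega
    omega

lemma pairSieve_multSum (M N d z e : ℕ) :
    (pairSieve M N d z).multSum e =
      (((Ioc M (M + N)).filter (fun n => e ∣ n * (n + d))).card : ℝ) := by
  unfold BoundingSieve.multSum pairSieve
  simp only
  rw [Finset.sum_image (fun a _ b _ h => inj_mul_add d h)]
  rw [Finset.card_filter]
  push_cast
  rfl

lemma pairSieve_rem (M N d z e : ℕ) (he : e ∣ primProd (2 * d) z) :
    |(pairSieve M N d z).rem e| ≤ e := by
  have h1 := abs_count_mul_sub_le M N d e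
    ((primProd_squarefree (2 * d) z).squarefree_of_dvd he)
    (Nat.Coprime.coprime_dvd_right (Dvd.intro_left 2 rfl) (coprime_primProd _ _ he))
  unfold BoundingSieve.rem
  rw [pairSieve_multSum]
  change |_ - nuPair e * (N : ℝ)| ≤ _
  rw [nuPair_apply]
  refine h1.trans ?_
  exact_mod_cast Nat.card_divisors_le_self e

lemma card_le_siftedSum (M N d z : ℕ) (hzM : z ≤ M) :
    (((Ioc M (M + N)).filter (fun n => n.Prime ∧ (n + d).Prime)).card : ℝ) ≤
      (pairSieve M N d z).siftedSum := by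
  unfold BoundingSieve.siftedSum pairSieve
  simp only
  rw [Finset.sum_image (fun a _ b _ h => inj_mul_add d h)]
  rw [Finset.card_filter]
  push_cast
  apply Finset.sum_le_sum
  intro n hn
  rw [Finset.mem_Ioc] at hn
  by_cases h : n.Prime ∧ (n + d).Prime
  · have hc : Nat.Coprime (primProd (2 * d) z) (n * (n + d)) := by
      apply Nat.Coprime.mul_right
      · by_contra hcon
        obtain ⟨p, hp, hpe, hpD⟩ := Nat.Prime.not_coprime_iff_dvd.mp hcon
        have h1 := ((dvd_primProd_iff hp).mp hpe).1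
        have h2 := (Nat.prime_dvd_prime_iff_eq hp h.1).mp hpD
        omega
      · by_contra hcon
        obtain ⟨p, hp, hpe, hpD⟩ := Nat.Prime.not_coprime_iff_dvd.mp hcon
        have h1 := ((dvd_primProd_iff hp).mp hpe).1
        have h2 := (Nat.prime_dvd_prime_iff_eq hp h.2).mp hpD
        omega
    rw [if_pos h, if_pos hc]
  · rw [if_neg h]
    split_ifs <;> norm_num

/-- first form of the bound -/
lemma card_le_div_G (M N d z : ℕ) (hz : 1 ≤ z) (hzM : z ≤ M) :
    (((Ioc M (M + N)).filter (fun n => n.Prime ∧ (n + d).Prime)).card : ℝ) ≤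
      N / G (pairSieve M N d z) z + (z : ℝ) ^ 6 := by
  have h := siftedSum_le (pairSieve M N d z) z hz (z : ℝ) ((z : ℝ) ^ 2) (by positivity)
    (by
      intro e he hez
      have he' : e ∣ primProd (2 * d) z := he
      have he0 : e ≠ 0 := ((primProd_squarefree (2 * d) z).squarefree_of_dvd he').ne_zero
      change (nuPair e)⁻¹ ≤ _
      rw [nuPair_apply, inv_div]
      have h1 : (1 : ℝ) ≤ e.divisors.card := by
        have : 0 < e.divisors.card := Finset.card_pos.mpr ⟨1, Nat.mem_divisors.mpr ⟨one_dvd _, he0⟩⟩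
        exact_mod_cast this
      rw [div_le_iff₀ (by linarith)]
      have h2 : (e : ℝ) ≤ z := by exact_mod_cast hez
      nlinarith [h1, h2, (Nat.cast_nonneg e : (0 : ℝ) ≤ e), (Nat.cast_nonneg z : (0 : ℝ) ≤ z)])
    (by
      intro e he hez
      have := pairSieve_rem M N d z e he
      refine this.trans ?_
      exact_mod_cast hez)
  refine (card_le_siftedSum M N d z hzM).trans (h.trans ?_)
  have : (z : ℝ) ^ 2 * (z : ℝ) ^ 2 * (z : ℝ) ^ 2 = (z : ℝ) ^ 6 := by ring
  rw [this]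
  exact le_rfl

/-! ### lower bound for Selberg's sum -/

/-- squarefree numbers up to `y` coprime to `D` -/
noncomputable def SQ (D y : ℕ) : Finset ℕ := by
  classical
  exact (Icc 1 y).filter (fun l => Squarefree l ∧ l.Coprime D)

lemma mem_SQ {D y l : ℕ} : l ∈ SQ D y ↔ (1 ≤ l ∧ l ≤ y) ∧ Squarefree l ∧ l.Coprime D := by
  unfold SQ
  rw [Finset.mem_filter, Finset.mem_Icc]

lemma G_ge (M N d z : ℕ) :
    ∑ l ∈ SQ (2 * d) z, (l.divisors.card : ℝ) / l ≤ G (pairSieve M N d z) z := by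
  unfold G
  have hP : primProd (2 * d) z ≠ 0 := (primProd_squarefree _ _).ne_zero
  have hsub : SQ (2 * d) z ⊆
      ((pairSieve M N d z).prodPrimes.divisors.filter (fun l => l ≤ z)) := by
    intro l hl
    rw [mem_SQ] at hl
    rw [Finset.mem_filter, Nat.mem_divisors]
    exact ⟨⟨dvd_primProd_of_squarefree hl.2.1 hl.1.2 hl.2.2, hP⟩, hl.1.2⟩
  refine le_trans ?_ (Finset.sum_le_sum_of_subset_of_nonneg hsub ?_)
  · apply Finset.sum_le_sum
    intro l hl
    rw [mem_SQ] at hl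
    have hlP : l ∣ (pairSieve M N d z).prodPrimes :=
      dvd_primProd_of_squarefree hl.2.1 hl.1.2 hl.2.2
    rw [selbergTerms_apply]
    change _ ≤ nuPair l * _
    rw [nuPair_apply]
    have h1 : (1 : ℝ) ≤ ∏ p ∈ l.primeFactors, (1 - (pairSieve M N d z).nu p)⁻¹ := by
      have : ∀ p ∈ l.primeFactors, (1 : ℝ) ≤ (1 - (pairSieve M N d z).nu p)⁻¹ := by
        intro p hp
        have hp' := Nat.prime_of_mem_primeFactors hp
        have hpP := (Nat.dvd_of_mem_primeFactors hp).trans hlP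
        have h2 := (pairSieve M N d z).nu_lt_one_of_prime p hp' hpP
        have h3 := (pairSieve M N d z).nu_pos_of_prime p hp' hpP
        rw [one_le_inv₀ (by linarith)]
        linarith
      calc (1 : ℝ) = ∏ p ∈ l.primeFactors, (1 : ℝ) := by simp
        _ ≤ _ := Finset.prod_le_prod (fun _ _ => zero_le_one) this
    have h4 : (0 : ℝ) ≤ (l.divisors.card : ℝ) / l := by positivity
    nlinarith
  · intro l hl _
    rw [Finset.mem_filter, Nat.mem_divisors] at hl
    exact (selbergTerms_pos hl.1.1).le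

lemma sum_inv_sq_le (n : ℕ) : ∑ k ∈ Icc 1 n, (1 : ℝ) / (k : ℝ) ^ 2 ≤ 2 := by
  have h : ∀ n : ℕ, ∑ k ∈ Icc 1 (n + 1), (1 : ℝ) / (k : ℝ) ^ 2 ≤ 2 - 1 / (n + 1 : ℝ) := by
    intro n
    induction n with
    | zero => simp; norm_num
    | succ n ih =>
      rw [Finset.sum_Icc_succ_top (by omega)]
      have h1 : (1 : ℝ) / ((n + 1 + 1 : ℕ) : ℝ) ^ 2 ≤ 1 / (n + 1 : ℝ) - 1 / ((n + 1 : ℕ) + 1 : ℝ) := by
        push_cast
        rw [div_sub_div _ _ (by positivity) (by positivity), div_le_div_iff₀ (by positivity) (by positivity)]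
        nlinarith [(Nat.cast_nonneg n : (0 : ℝ) ≤ n)]
      linarith
  rcases n with _ | n
  · simp
  · have := h n
    have h2 : (0 : ℝ) ≤ 1 / (n + 1 : ℝ) := by positivity
    linarith

/-- the square of the sum over squarefree numbers -/
lemma sq_sum_SQ_le (D y z : ℕ) (hyz : y ^ 2 ≤ z) :
    (∑ l ∈ SQ D y, (1 : ℝ) / l) ^ 2 ≤ 2 * ∑ l ∈ SQ D z, (l.divisors.card : ℝ) / l := by
  classical
  have h1 : (∑ l ∈ SQ D y, (1 : ℝ) / l) ^ 2 =
      ∑ x ∈ SQ D y ×ˢ SQ D y, (1 : ℝ) / ((x.1 : ℝ) * x.2) := by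
    rw [sq, Finset.sum_mul_sum, ← Finset.sum_product']
    apply Finset.sum_congr rfl
    intro x _
    rw [div_mul_div_comm, one_mul]
  rw [h1]
  -- the map (l₁, l₂) ↦ (c, ⟨ab, (a, b)⟩)
  let φ : ℕ × ℕ → ℕ × (Σ _ : ℕ, ℕ × ℕ) := fun x =>
    (Nat.gcd x.1 x.2, ⟨(x.1 / Nat.gcd x.1 x.2) * (x.2 / Nat.gcd x.1 x.2),
      (x.1 / Nat.gcd x.1 x.2, x.2 / Nat.gcd x.1 x.2)⟩)
  let t : Finset (ℕ × (Σ _ : ℕ, ℕ × ℕ)) :=
    Icc 1 y ×ˢ ((SQ D z).sigma (fun l => l.divisorsAntidiagonal))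
  have hφinj : Set.InjOn φ (SQ D y ×ˢ SQ D y : Finset (ℕ × ℕ)) := by
    rintro ⟨a, b⟩ _ ⟨a', b'⟩ _ h
    simp only [φ, Prod.mk.injEq, Sigma.mk.injEq] at h
    obtain ⟨h1, h2, h3⟩ := h
    have h3 := eq_of_heq h3
    simp only [Prod.mk.injEq] at h3
    have e1 : a = Nat.gcd a b * (a / Nat.gcd a b) := (Nat.mul_div_cancel' (Nat.gcd_dvd_left _ _)).symm
    have e2 : b = Nat.gcd a b * (b / Nat.gcd a b) := (Nat.mul_div_cancel' (Nat.gcd_dvd_right _ _)).symm
    have e3 : a' = Nat.gcd a' b' * (a' / Nat.gcd a' b') :=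
      (Nat.mul_div_cancel' (Nat.gcd_dvd_left _ _)).symm
    have e4 : b' = Nat.gcd a' b' * (b' / Nat.gcd a' b') :=
      (Nat.mul_div_cancel' (Nat.gcd_dvd_right _ _)).symm
    rw [Prod.mk.injEq]
    constructor
    · rw [e1, e3, h3.1, h1]
    · rw [e2, e4, h3.2, h1]
  have hφt : ∀ x ∈ SQ D y ×ˢ SQ D y, φ x ∈ t := by
    rintro ⟨a, b⟩ hx
    rw [Finset.mem_product, mem_SQ, mem_SQ] at hx
    obtain ⟨⟨⟨ha1, ha2⟩, ha3, ha4⟩, ⟨⟨hb1, hb2⟩, hb3, hb4⟩⟩ := hx
    simp only at ha1 ha2 ha3 ha4 hb1 hb2 hb3 hb4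
    have hg0 : 0 < Nat.gcd a b := Nat.gcd_pos_of_pos_left _ (by omega)
    have hga : Nat.gcd a b ≤ a := Nat.le_of_dvd (by omega) (Nat.gcd_dvd_left _ _)
    have hda : a / Nat.gcd a b ∣ a := Nat.div_dvd_of_dvd (Nat.gcd_dvd_left _ _)
    have hdb : b / Nat.gcd a b ∣ b := Nat.div_dvd_of_dvd (Nat.gcd_dvd_right _ _)
    have hpa : 0 < a / Nat.gcd a b := Nat.pos_of_dvd_of_pos hda (by omega)
    have hpb : 0 < b / Nat.gcd a b := Nat.pos_of_dvd_of_pos hdb (by omega)
    have hla : a / Nat.gcd a b ≤ y := (Nat.le_of_dvd (by omega) hda).trans ha2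
    have hlb : b / Nat.gcd a b ≤ y := (Nat.le_of_dvd (by omega) hdb).trans hb2
    have hcop : (a / Nat.gcd a b).Coprime (b / Nat.gcd a b) := Nat.coprime_div_gcd_div_gcd hg0
    have hprod0 : (a / Nat.gcd a b) * (b / Nat.gcd a b) ≠ 0 := by positivity
    simp only [t, φ, Finset.mem_product, Finset.mem_Icc, Finset.mem_sigma, mem_SQ,
      Nat.mem_divisorsAntidiagonal]
    refine ⟨⟨hg0, hga.trans ha2⟩, ⟨⟨Nat.pos_of_ne_zero hprod0, ?_⟩, ?_, ?_⟩, trivial, hprod0⟩
    · refine (Nat.mul_le_mul hla hlb).trans ?_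
      rw [← sq]; exact hyz
    · exact (Nat.squarefree_mul hcop).mpr
        ⟨ha3.squarefree_of_dvd hda, hb3.squarefree_of_dvd hdb⟩
    · exact Nat.Coprime.mul_left (Nat.Coprime.coprime_dvd_left hda ha4)
        (Nat.Coprime.coprime_dvd_left hdb hb4)
  let g : ℕ × (Σ _ : ℕ, ℕ × ℕ) → ℝ := fun u => (1 / (u.1 : ℝ) ^ 2) * (1 / (u.2.1 : ℝ))
  have hg : ∀ x ∈ SQ D y ×ˢ SQ D y, (1 : ℝ) / ((x.1 : ℝ) * x.2) = g (φ x) := by
    rintro ⟨a, b⟩ hx
    rw [Finset.mem_product, mem_SQ, mem_SQ] at hx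
    obtain ⟨⟨⟨ha1, ha2⟩, ha3, ha4⟩, ⟨⟨hb1, hb2⟩, hb3, hb4⟩⟩ := hx
    simp only at ha1 ha2 ha3 ha4 hb1 hb2 hb3 hb4
    simp only [g, φ]
    have e1 : a = Nat.gcd a b * (a / Nat.gcd a b) := (Nat.mul_div_cancel' (Nat.gcd_dvd_left _ _)).symm
    have e2 : b = Nat.gcd a b * (b / Nat.gcd a b) := (Nat.mul_div_cancel' (Nat.gcd_dvd_right _ _)).symm
    have e3 : (a : ℝ) = (Nat.gcd a b : ℝ) * ((a / Nat.gcd a b : ℕ) : ℝ) := by exact_mod_cast e1
    have e4 : (b : ℝ) = (Nat.gcd a b : ℝ) * ((b / Nat.gcd a b : ℕ) : ℝ) := by exact_mod_cast e2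
    rw [div_mul_div_comm, one_mul]
    congr 1
    push_cast
    calc (a : ℝ) * b = ((Nat.gcd a b : ℝ) * ((a / Nat.gcd a b : ℕ) : ℝ)) *
          ((Nat.gcd a b : ℝ) * ((b / Nat.gcd a b : ℕ) : ℝ)) := by rw [← e3, ← e4]
      _ = _ := by ring
  rw [Finset.sum_congr rfl hg, ← Finset.sum_image hφinj]
  have hsub : (SQ D y ×ˢ SQ D y).image φ ⊆ t := by
    intro u hu
    rw [Finset.mem_image] at hu
    obtain ⟨x, hx, rfl⟩ := hu
    exact hφt x hx
  refine (Finset.sum_le_sum_of_subset_of_nonneg hsub (fun u _ _ => by positivity)).trans ?_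
  have h2 : ∑ u ∈ t, g u = (∑ k ∈ Icc 1 y, (1 : ℝ) / (k : ℝ) ^ 2) *
      ∑ l ∈ SQ D z, (l.divisors.card : ℝ) / l := by
    simp only [t, g]
    rw [Finset.sum_product, Finset.sum_mul]
    apply Finset.sum_congr rfl
    intro k _
    simp only
    rw [← Finset.mul_sum]
    congr 1
    rw [Finset.sum_sigma]
    apply Finset.sum_congr rfl
    intro l _
    simp only
    rw [Finset.sum_const, nsmul_eq_mul, mul_one_div]
    congr 2
    have h := Nat.sum_divisorsAntidiagonal (n := l) (f := fun _ _ => (1 : ℕ))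
    simpa using h
  rw [h2]
  exact mul_le_mul_of_nonneg_right (sum_inv_sq_le y)
    (Finset.sum_nonneg fun l _ => by positivity)

/-- removing the coprimality condition -/
lemma sum_SQ_one_le (D y : ℕ) (hD : 0 < D) :
    ∑ l ∈ SQ 1 y, (1 : ℝ) / l ≤ F D * ∑ l ∈ SQ D y, (1 : ℝ) / l := by
  classical
  let φ : ℕ → ℕ × ℕ := fun l => (Nat.gcd l D, l / Nat.gcd l D)
  let t : Finset (ℕ × ℕ) := D.divisors ×ˢ SQ D y
  let g : ℕ × ℕ → ℝ := fun u => (1 / (u.1 : ℝ)) * (1 / (u.2 : ℝ))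
  have hφinj : Set.InjOn φ (SQ 1 y : Finset ℕ) := by
    intro a _ b _ h
    simp only [φ, Prod.mk.injEq] at h
    have e1 : a = Nat.gcd a D * (a / Nat.gcd a D) := (Nat.mul_div_cancel' (Nat.gcd_dvd_left _ _)).symm
    have e2 : b = Nat.gcd b D * (b / Nat.gcd b D) := (Nat.mul_div_cancel' (Nat.gcd_dvd_left _ _)).symm
    rw [e1, e2, h.2, h.1]
  have hφt : ∀ x ∈ SQ 1 y, φ x ∈ t := by
    intro a ha
    rw [mem_SQ] at ha
    obtain ⟨⟨ha1, ha2⟩, ha3, _⟩ := ha
    have hg0 : 0 < Nat.gcd a D := Nat.gcd_pos_of_pos_left _ (by omega)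
    have hda : a / Nat.gcd a D ∣ a := Nat.div_dvd_of_dvd (Nat.gcd_dvd_left _ _)
    have hpa : 0 < a / Nat.gcd a D := Nat.pos_of_dvd_of_pos hda (by omega)
    have e1 : a = Nat.gcd a D * (a / Nat.gcd a D) := (Nat.mul_div_cancel' (Nat.gcd_dvd_left _ _)).symm
    simp only [t, φ, Finset.mem_product, Nat.mem_divisors, mem_SQ]
    refine ⟨⟨Nat.gcd_dvd_right _ _, hD.ne'⟩, ⟨hpa, (Nat.le_of_dvd (by omega) hda).trans ha2⟩,
      ha3.squarefree_of_dvd hda, ?_⟩
    have hsq : Squarefree (Nat.gcd a D * (a / Nat.gcd a D)) := by rw [← e1]; exact ha3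
    have hcop : (Nat.gcd a D).Coprime (a / Nat.gcd a D) := (Nat.squarefree_mul_iff.mp hsq).1
    by_contra hcon
    obtain ⟨p, hp, hpa', hpD⟩ := Nat.Prime.not_coprime_iff_dvd.mp hcon
    have h1 : p ∣ Nat.gcd a D := Nat.dvd_gcd (hpa'.trans hda) hpD
    have := Nat.dvd_gcd h1 hpa'
    rw [hcop] at this
    exact hp.one_lt.ne' (Nat.dvd_one.mp this)
  have hg : ∀ x ∈ SQ 1 y, (1 : ℝ) / x = g (φ x) := by
    intro a _
    simp only [g, φ]
    have e1 : a = Nat.gcd a D * (a / Nat.gcd a D) := (Nat.mul_div_cancel' (Nat.gcd_dvd_left _ _)).symm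
    have e3 : (a : ℝ) = (Nat.gcd a D : ℝ) * ((a / Nat.gcd a D : ℕ) : ℝ) := by exact_mod_cast e1
    rw [div_mul_div_comm, one_mul, ← e3]
  rw [Finset.sum_congr rfl hg, ← Finset.sum_image hφinj]
  have hsub : (SQ 1 y).image φ ⊆ t := by
    intro u hu
    rw [Finset.mem_image] at hu
    obtain ⟨x, hx, rfl⟩ := hu
    exact hφt x hx
  refine (Finset.sum_le_sum_of_subset_of_nonneg hsub (fun u _ _ => by positivity)).trans ?_
  simp only [t, g]
  rw [Finset.sum_product, F, Finset.sum_mul]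
  apply le_of_eq
  apply Finset.sum_congr rfl
  intro k _
  rw [Finset.mul_sum]

/-- from all integers to squarefree ones -/
lemma harmonic_le_SQ (y : ℕ) :
    ∑ m ∈ Icc 1 y, (1 : ℝ) / m ≤ 2 * ∑ l ∈ SQ 1 y, (1 : ℝ) / l := by
  classical
  choose f g hfg hf using Nat.sq_mul_squarefree
  let φ : ℕ → ℕ × ℕ := fun m => (g m, f m)
  let t : Finset (ℕ × ℕ) := Icc 1 y ×ˢ SQ 1 y
  let G' : ℕ × ℕ → ℝ := fun u => (1 / (u.1 : ℝ) ^ 2) * (1 / (u.2 : ℝ))
  have hφinj : Set.InjOn φ (Icc 1 y : Finset ℕ) := by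
    intro a _ b _ h
    simp only [φ, Prod.mk.injEq] at h
    rw [← hfg a, ← hfg b, h.1, h.2]
  have hφt : ∀ x ∈ Icc 1 y, φ x ∈ t := by
    intro m hm
    rw [Finset.mem_Icc] at hm
    simp only [t, φ, Finset.mem_product, Finset.mem_Icc, mem_SQ]
    have h1 := hfg m
    have hg0 : 0 < g m := by
      rcases Nat.eq_zero_or_pos (g m) with h | h
      · rw [h] at h1; simp at h1; omega
      · exact h
    have hf0 : 0 < f m := Nat.pos_of_ne_zero (hf m).ne_zero
    refine ⟨⟨hg0, ?_⟩, ⟨hf0, ?_⟩, hf m, Nat.coprime_one_right _⟩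
    · have : g m ≤ g m ^ 2 * f m := by
        calc g m = g m * 1 := by ring
          _ ≤ g m * (g m * f m) := Nat.mul_le_mul_left _ (Nat.mul_pos hg0 hf0)
          _ = _ := by ring
      omega
    · have : f m ≤ g m ^ 2 * f m := Nat.le_mul_of_pos_left _ (by positivity)
      omega
  have hg : ∀ x ∈ Icc 1 y, (1 : ℝ) / x = G' (φ x) := by
    intro m _
    simp only [G', φ]
    have e3 : (m : ℝ) = (g m : ℝ) ^ 2 * (f m : ℝ) := by exact_mod_cast (hfg m).symm
    rw [div_mul_div_comm, one_mul, ← e3]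
  rw [Finset.sum_congr rfl hg, ← Finset.sum_image hφinj]
  have hsub : (Icc 1 y).image φ ⊆ t := by
    intro u hu
    rw [Finset.mem_image] at hu
    obtain ⟨x, hx, rfl⟩ := hu
    exact hφt x hx
  refine (Finset.sum_le_sum_of_subset_of_nonneg hsub (fun u _ _ => by positivity)).trans ?_
  simp only [t, G']
  rw [Finset.sum_product]
  have : ∑ x ∈ Icc 1 y, ∑ y_1 ∈ SQ 1 y, (1 : ℝ) / (x : ℝ) ^ 2 * (1 / (y_1 : ℝ)) =
      (∑ k ∈ Icc 1 y, (1 : ℝ) / (k : ℝ) ^ 2) * ∑ l ∈ SQ 1 y, (1 : ℝ) / l := by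
    rw [Finset.sum_mul]
    apply Finset.sum_congr rfl
    intro k _
    rw [Finset.mul_sum]
  rw [this]
  exact mul_le_mul_of_nonneg_right (sum_inv_sq_le y)
    (Finset.sum_nonneg fun l _ => by positivity)

lemma log_le_SQ (D y : ℕ) (hD : 0 < D) (hy : 1 ≤ y) :
    Real.log y ≤ 2 * F D * ∑ l ∈ SQ D y, (1 : ℝ) / l := by
  have h1 := log_add_one_le_harmonic y
  have h2 : ((harmonic y : ℚ) : ℝ) = ∑ m ∈ Icc 1 y, (1 : ℝ) / m := by
    rw [harmonic_eq_sum_Icc]
    push_cast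
    simp
  rw [h2] at h1
  have h3 := harmonic_le_SQ y
  have h4 := sum_SQ_one_le D y hD
  have h5 : Real.log y ≤ Real.log (y + 1 : ℝ) := by
    apply Real.log_le_log
    · exact_mod_cast hy
    · linarith
  push_cast at h1
  nlinarith

/-- pointwise upper bound for the number of prime pairs -/
theorem card_prime_pairs_le (M N d y : ℕ) (hd : 0 < d) (hy : 2 ≤ y) (hyM : y ^ 2 ≤ M) :
    (((Ioc M (M + N)).filter (fun n => n.Prime ∧ (n + d).Prime)).card : ℝ) ≤
      8 * F (2 * d) ^ 2 * N / Real.log y ^ 2 + (y : ℝ) ^ 12 := by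
  have h1 := card_le_div_G M N d (y ^ 2) (by nlinarith) hyM
  have h2 := G_ge M N d (y ^ 2)
  have h3 := sq_sum_SQ_le (2 * d) y (y ^ 2) le_rfl
  have h4 := log_le_SQ (2 * d) y (by omega) (by omega)
  have hlog : 0 < Real.log y := Real.log_pos (by exact_mod_cast (by omega : 1 < y))
  have hG := G_pos (pairSieve M N d (y ^ 2)) (y ^ 2) (by nlinarith)
  set S := ∑ l ∈ SQ (2 * d) y, (1 : ℝ) / l with hS
  set G0 := G (pairSieve M N d (y ^ 2)) (y ^ 2) with hG0
  have h5 : Real.log y ^ 2 ≤ 8 * F (2 * d) ^ 2 * G0 := by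
    have h6 : Real.log y ^ 2 ≤ (2 * F (2 * d) * S) ^ 2 := by
      apply pow_le_pow_left₀ hlog.le h4
    have h7 : S ^ 2 ≤ 2 * G0 := h3.trans (by linarith)
    calc Real.log y ^ 2 ≤ (2 * F (2 * d) * S) ^ 2 := h6
      _ = 4 * F (2 * d) ^ 2 * S ^ 2 := by ring
      _ ≤ 4 * F (2 * d) ^ 2 * (2 * G0) := by gcongr
      _ = 8 * F (2 * d) ^ 2 * G0 := by ring
  have h8 : (N : ℝ) / G0 ≤ 8 * F (2 * d) ^ 2 * N / Real.log y ^ 2 := by
    rw [div_le_div_iff₀ hG (by positivity)]
    have : (0 : ℝ) ≤ N := Nat.cast_nonneg N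
    nlinarith
  calc _ ≤ _ := h1
    _ ≤ 8 * F (2 * d) ^ 2 * N / Real.log y ^ 2 + (y : ℝ) ^ 12 := by
      push_cast
      have h9 : ((y : ℝ) ^ 2) ^ 6 = (y : ℝ) ^ 12 := by ring
      rw [h9]
      linarith

end Pool.Agent.Lib.PrimePairs
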