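import Mathlib
import Pool.Agent.Lib.PrimePairs

/-!
# Second moment of the number of prime pairs

`∑_{D ≤ N} F(D)⁴ ≤ C N`, and `∑_{d ≤ P} r(d)² ≤ C P³ / log⁴ P` where
`r(d) = #{n ∈ (P, 2P] : n, n + d prime}`.
-/

namespace Pool.Agent.Lib.PrimePairs

open Finset

/-- Cauchy-Schwarz with weights -/
lemma sq_sum_mul_le {ι : Type*} (s : Finset ι) (w x : ι → ℝ) (hw : ∀ i ∈ s, 0 ≤ w i) :
    (∑ i ∈ s, w i * x i) ^ 2 ≤ (∑ i ∈ s, w i) * ∑ i ∈ s, w i * x i ^ 2 := by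
  have h := Finset.sum_mul_sq_le_sq_mul_sq s (fun i => Real.sqrt (w i))
    (fun i => Real.sqrt (w i) * x i)
  have h1 : ∑ i ∈ s, Real.sqrt (w i) * (Real.sqrt (w i) * x i) = ∑ i ∈ s, w i * x i := by
    apply Finset.sum_congr rfl
    intro i hi
    rw [← mul_assoc, Real.mul_self_sqrt (hw i hi)]
  have h2 : ∑ i ∈ s, Real.sqrt (w i) ^ 2 = ∑ i ∈ s, w i := by
    apply Finset.sum_congr rfl
    intro i hi
    rw [Real.sq_sqrt (hw i hi)]
  have h3 : ∑ i ∈ s, (Real.sqrt (w i) * x i) ^ 2 = ∑ i ∈ s, w i * x i ^ 2 := by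
    apply Finset.sum_congr rfl
    intro i hi
    rw [mul_pow, Real.sq_sqrt (hw i hi)]
  rw [h1, h2, h3] at h
  exact h

/-- `W = ∑ e^{-5/4}` -/
noncomputable def W : ℝ := ∑' e : ℕ, (e : ℝ) ^ (-(5 / 4) : ℝ)

lemma summable_W : Summable (fun e : ℕ => (e : ℝ) ^ (-(5 / 4) : ℝ)) :=
  Real.summable_nat_rpow.mpr (by norm_num)

lemma sum_le_W (s : Finset ℕ) : ∑ e ∈ s, (e : ℝ) ^ (-(5 / 4) : ℝ) ≤ W :=
  summable_W.sum_le_tsum s (fun e _ => Real.rpow_nonneg (Nat.cast_nonneg e) _)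

lemma W_nonneg : 0 ≤ W := tsum_nonneg fun e => Real.rpow_nonneg (Nat.cast_nonneg e) _

lemma F_pow_four_le (D : ℕ) :
    F D ^ 4 ≤ W ^ 3 * ∑ e ∈ D.divisors, (e : ℝ) ^ (-(1 / 4) : ℝ) := by
  have hw : ∀ e ∈ D.divisors, 0 ≤ (e : ℝ) ^ (-(5 / 4) : ℝ) :=
    fun e _ => Real.rpow_nonneg (Nat.cast_nonneg e) _
  have hpos : ∀ e ∈ D.divisors, (0 : ℝ) < e := by
    intro e he
    exact_mod_cast Nat.pos_of_mem_divisors he
  have h1 : F D = ∑ e ∈ D.divisors, (e : ℝ) ^ (-(5 / 4) : ℝ) * (e : ℝ) ^ ((1 / 4) : ℝ) := by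
    unfold F
    apply Finset.sum_congr rfl
    intro e he
    rw [← Real.rpow_add (hpos e he)]
    rw [show (-(5 / 4) + 1 / 4 : ℝ) = -1 by norm_num, Real.rpow_neg_one, one_div]
  have h2 := sq_sum_mul_le D.divisors (fun e : ℕ => (e : ℝ) ^ (-(5 / 4) : ℝ))
    (fun e : ℕ => (e : ℝ) ^ ((1 / 4) : ℝ)) hw
  rw [← h1] at h2
  have h3 : ∑ e ∈ D.divisors, (e : ℝ) ^ (-(5 / 4) : ℝ) * ((e : ℝ) ^ ((1 / 4) : ℝ)) ^ 2 =
      ∑ e ∈ D.divisors, (e : ℝ) ^ (-(5 / 4) : ℝ) * (e : ℝ) ^ ((1 / 2) : ℝ) := by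
    apply Finset.sum_congr rfl
    intro e he
    rw [← Real.rpow_natCast, ← Real.rpow_mul (hpos e he).le]
    norm_num
  rw [h3] at h2
  have h4 := sq_sum_mul_le D.divisors (fun e : ℕ => (e : ℝ) ^ (-(5 / 4) : ℝ))
    (fun e : ℕ => (e : ℝ) ^ ((1 / 2) : ℝ)) hw
  have h5 : ∑ e ∈ D.divisors, (e : ℝ) ^ (-(5 / 4) : ℝ) * ((e : ℝ) ^ ((1 / 2) : ℝ)) ^ 2 =
      ∑ e ∈ D.divisors, (e : ℝ) ^ (-(1 / 4) : ℝ) := by
    apply Finset.sum_congr rfl
    intro e he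
    rw [← Real.rpow_natCast, ← Real.rpow_mul (hpos e he).le, ← Real.rpow_add (hpos e he)]
    norm_num
  rw [h5] at h4
  set A := ∑ e ∈ D.divisors, (e : ℝ) ^ (-(5 / 4) : ℝ) * (e : ℝ) ^ ((1 / 2) : ℝ) with hA
  set B := ∑ e ∈ D.divisors, (e : ℝ) ^ (-(1 / 4) : ℝ) with hB
  set w := ∑ e ∈ D.divisors, (e : ℝ) ^ (-(5 / 4) : ℝ) with hw'
  have hwW : w ≤ W := sum_le_W _
  have hw0 : 0 ≤ w := Finset.sum_nonneg hw
  have hB0 : 0 ≤ B := Finset.sum_nonneg fun e _ => Real.rpow_nonneg (Nat.cast_nonneg e) _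
  have hA0 : 0 ≤ A := Finset.sum_nonneg fun e _ =>
    mul_nonneg (Real.rpow_nonneg (Nat.cast_nonneg e) _) (Real.rpow_nonneg (Nat.cast_nonneg e) _)
  calc F D ^ 4 = (F D ^ 2) ^ 2 := by ring
    _ ≤ (w * A) ^ 2 := by
      apply pow_le_pow_left₀ (sq_nonneg _) h2
    _ = w ^ 2 * A ^ 2 := by ring
    _ ≤ w ^ 2 * (w * B) := by gcongr
    _ = w ^ 3 * B := by ring
    _ ≤ W ^ 3 * B := by gcongr

/-- the fourth moment of `σ(n)/n` -/
theorem sum_F_pow_four_le (N : ℕ) : ∑ D ∈ Icc 1 N, F D ^ 4 ≤ W ^ 4 * N := by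
  have h1 : ∑ D ∈ Icc 1 N, F D ^ 4 ≤
      ∑ D ∈ Icc 1 N, W ^ 3 * ∑ e ∈ D.divisors, (e : ℝ) ^ (-(1 / 4) : ℝ) :=
    Finset.sum_le_sum fun D _ => F_pow_four_le D
  refine h1.trans ?_
  rw [← Finset.mul_sum]
  have h2 : ∑ D ∈ Icc 1 N, ∑ e ∈ D.divisors, (e : ℝ) ^ (-(1 / 4) : ℝ) ≤ W * N := by
    have h3 : ∑ D ∈ Icc 1 N, ∑ e ∈ D.divisors, (e : ℝ) ^ (-(1 / 4) : ℝ) =
        ∑ D ∈ Icc 1 N, ∑ e ∈ Icc 1 N, if e ∣ D then (e : ℝ) ^ (-(1 / 4) : ℝ) else 0 := by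
      apply Finset.sum_congr rfl
      intro D hD
      rw [Finset.mem_Icc] at hD
      rw [← Finset.sum_filter]
      apply Finset.sum_congr _ (fun _ _ => rfl)
      ext e
      simp only [Nat.mem_divisors, Finset.mem_filter, Finset.mem_Icc]
      constructor
      · rintro ⟨h, _⟩
        exact ⟨⟨Nat.pos_of_dvd_of_pos h (by omega), (Nat.le_of_dvd (by omega) h).trans hD.2⟩, h⟩
      · rintro ⟨_, h⟩
        exact ⟨h, by omega⟩
    rw [h3, Finset.sum_comm]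
    have h4 : ∀ e ∈ Icc 1 N, (∑ D ∈ Icc 1 N, if e ∣ D then (e : ℝ) ^ (-(1 / 4) : ℝ) else 0) ≤
        (e : ℝ) ^ (-(5 / 4) : ℝ) * N := by
      intro e he
      rw [Finset.mem_Icc] at he
      have hepos : (0 : ℝ) < e := by exact_mod_cast he.1
      rw [← Finset.sum_filter, Finset.sum_const, nsmul_eq_mul]
      have h5 : ((Icc 1 N).filter (fun D => e ∣ D)).card = N / e := by
        have := Nat.card_multiples' N e
        have h6 : (Icc 1 N).filter (fun D => e ∣ D) =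
            (range N.succ).filter (fun D => D ≠ 0 ∧ e ∣ D) := by
          ext D
          simp only [Finset.mem_filter, Finset.mem_Icc, Finset.mem_range]
          constructor
          · rintro ⟨⟨h1, h2⟩, h3⟩
            exact ⟨by omega, by omega, h3⟩
          · rintro ⟨h1, h2, h3⟩
            exact ⟨⟨by omega, by omega⟩, h3⟩
        rw [h6, this]
      rw [h5]
      have h7 : ((N / e : ℕ) : ℝ) ≤ (N : ℝ) / e := Nat.cast_div_le
      have h8 : (e : ℝ) ^ (-(5 / 4) : ℝ) = (e : ℝ) ^ (-(1 / 4) : ℝ) / e := by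
        rw [show (-(5 / 4) : ℝ) = -(1 / 4) + (-1) by norm_num, Real.rpow_add hepos,
          Real.rpow_neg_one]
        exact (div_eq_mul_inv _ _).symm
      rw [h8]
      have h9 : 0 ≤ (e : ℝ) ^ (-(1 / 4) : ℝ) := Real.rpow_nonneg hepos.le _
      calc ((N / e : ℕ) : ℝ) * (e : ℝ) ^ (-(1 / 4) : ℝ) ≤ (N : ℝ) / e * (e : ℝ) ^ (-(1 / 4) : ℝ) := by
            gcongr
        _ = (e : ℝ) ^ (-(1 / 4) : ℝ) / e * N := by ring
    refine (Finset.sum_le_sum h4).trans ?_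
    rw [← Finset.sum_mul]
    exact mul_le_mul_of_nonneg_right (sum_le_W _) (Nat.cast_nonneg N)
  calc W ^ 3 * _ ≤ W ^ 3 * (W * N) := by
        exact mul_le_mul_of_nonneg_left h2 (pow_nonneg W_nonneg 3)
    _ = W ^ 4 * N := by ring

/-- the number of prime pairs with difference `d` in a dyadic range -/
noncomputable def rr (P d : ℕ) : ℝ :=
  (((Ioc P (2 * P)).filter (fun n => n.Prime ∧ (n + d).Prime)).card : ℝ)

lemma rr_nonneg (P d : ℕ) : 0 ≤ rr P d := Nat.cast_nonneg _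

lemma rr_le_self (P d : ℕ) : rr P d ≤ P := by
  unfold rr
  have h := Finset.card_filter_le (Ioc P (2 * P)) (fun n => n.Prime ∧ (n + d).Prime)
  rw [Nat.card_Ioc] at h
  have : ((Ioc P (2 * P)).filter (fun n => n.Prime ∧ (n + d).Prime)).card ≤ P := by omega
  exact_mod_cast this

/-- large `P`: a suitable sieve level -/
lemma exists_level {P : ℕ} (hP : 2 ^ 48 ≤ P) :
    ∃ y : ℕ, 2 ≤ y ∧ (y : ℝ) ^ 12 ≤ Real.sqrt P ∧ y ^ 2 ≤ P ∧ Real.log P / 48 ≤ Real.log y := by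
  have hPpos : (0 : ℝ) < P := by
    have : 0 < P := by omega
    exact_mod_cast this
  have hP' : ((2 : ℝ) ^ 48) ≤ P := by exact_mod_cast hP
  set x : ℝ := (P : ℝ) ^ ((1 / 24 : ℝ)) with hx
  have hx4 : 4 ≤ x := by
    have h1 : ((2 : ℝ) ^ 48) ^ ((1 / 24 : ℝ)) ≤ x :=
      Real.rpow_le_rpow (by positivity) hP' (by norm_num)
    have h2 : ((2 : ℝ) ^ 48) ^ ((1 / 24 : ℝ)) = 4 := by
      rw [← Real.rpow_natCast, ← Real.rpow_mul (by norm_num)]
      norm_num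
    linarith
  have hfl : (Nat.floor x : ℝ) ≤ x := Nat.floor_le (by linarith)
  have hfl2 : x < Nat.floor x + 1 := Nat.lt_floor_add_one x
  have hy3 : (3 : ℝ) < Nat.floor x := by linarith
  refine ⟨Nat.floor x, ?_, ?_, ?_, ?_⟩
  · have : 3 < Nat.floor x := by exact_mod_cast hy3
    omega
  · have h1 : (Nat.floor x : ℝ) ^ 12 ≤ x ^ 12 := by gcongr
    refine h1.trans (le_of_eq ?_)
    rw [hx, ← Real.rpow_natCast, ← Real.rpow_mul hPpos.le, Real.sqrt_eq_rpow]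
    norm_num
  · have h1 : (Nat.floor x : ℝ) ^ 2 ≤ x ^ 24 := by
      calc (Nat.floor x : ℝ) ^ 2 ≤ x ^ 2 := by gcongr
        _ ≤ x ^ 24 := pow_le_pow_right₀ (by linarith) (by norm_num)
    have h2 : x ^ 24 = P := by
      rw [hx, ← Real.rpow_natCast, ← Real.rpow_mul hPpos.le]
      norm_num
    rw [h2] at h1
    exact_mod_cast h1
  · have h1 : x / 2 ≤ Nat.floor x := by linarith
    have h2 : Real.log (x / 2) ≤ Real.log (Nat.floor x) := Real.log_le_log (by linarith) h1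
    have h3 : Real.log (x / 2) = Real.log P / 24 - Real.log 2 := by
      rw [Real.log_div (by linarith) (by norm_num), hx, Real.log_rpow hPpos]
      ring
    have h4 : 48 * Real.log 2 ≤ Real.log P := by
      have := Real.log_le_log (by positivity) hP'
      rw [Real.log_pow] at this
      exact_mod_cast this
    linarith

/-- the pointwise bound in a dyadic range -/
theorem rr_le {P d : ℕ} (hP : 2 ^ 48 ≤ P) (hd : 0 < d) :
    rr P d ≤ 8 * 48 ^ 2 * F (2 * d) ^ 2 * P / Real.log P ^ 2 + Real.sqrt P := by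
  obtain ⟨y, hy2, hy12, hyP, hylog⟩ := exists_level hP
  have h := card_prime_pairs_le P P d y hd hy2 hyP
  rw [← two_mul] at h
  refine h.trans ?_
  have hlogP : 0 < Real.log P := Real.log_pos (by
    have : 1 < P := by omega
    exact_mod_cast this)
  have h1 : 8 * F (2 * d) ^ 2 * P / Real.log y ^ 2 ≤
      8 * 48 ^ 2 * F (2 * d) ^ 2 * P / Real.log P ^ 2 := by
    have h2 : (Real.log P / 48) ^ 2 ≤ Real.log y ^ 2 := by gcongr
    calc 8 * F (2 * d) ^ 2 * P / Real.log y ^ 2 ≤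
        8 * F (2 * d) ^ 2 * P / (Real.log P / 48) ^ 2 := by
          gcongr
      _ = _ := by field_simp
  linarith

lemma log_le_eight_root {P : ℕ} (hP : 2 ≤ P) : Real.log P ^ 4 ≤ 8 ^ 4 * Real.sqrt P := by
  have hPpos : (0 : ℝ) < P := by
    have : 0 < P := by omega
    exact_mod_cast this
  have hlogP : 0 < Real.log P := Real.log_pos (by
    have : 1 < P := by omega
    exact_mod_cast this)
  have h := Real.log_le_rpow_div hPpos.le (ε := 1 / 8) (by norm_num)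
  have h1 : Real.log P ^ 4 ≤ ((P : ℝ) ^ (1 / 8 : ℝ) / (1 / 8)) ^ 4 := by gcongr
  refine h1.trans (le_of_eq ?_)
  rw [div_pow, ← Real.rpow_natCast, ← Real.rpow_mul hPpos.le, Real.sqrt_eq_rpow]
  norm_num
  ring

theorem prime_pair_second_moment : ∃ C : ℝ, 0 < C ∧ ∀ P : ℕ, 2 ≤ P →
    ∑ d ∈ Icc 1 P, ((((Ioc P (2 * P)).filter (fun n => n.Prime ∧ (n + d).Prime)).card : ℝ)) ^ 2 ≤
      C * (P : ℝ) ^ 3 / (Real.log P) ^ 4 := by
  set K : ℝ := 8 * 48 ^ 2 with hK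
  refine ⟨4 * K ^ 2 * W ^ 4 + 2 * 8 ^ 4 + (Real.log (2 ^ 48)) ^ 4, ?_, ?_⟩
  · have := W_nonneg
    positivity
  intro P hP2
  have hPpos : (0 : ℝ) < P := by
    have : 0 < P := by omega
    exact_mod_cast this
  have hP1 : (1 : ℝ) ≤ P := by
    have : 1 ≤ P := by omega
    exact_mod_cast this
  have hlogP : 0 < Real.log P := Real.log_pos (by
    have : 1 < P := by omega
    exact_mod_cast this)
  change ∑ d ∈ Icc 1 P, rr P d ^ 2 ≤ _
  by_cases hP : 2 ^ 48 ≤ P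
  · have h1 : ∀ d ∈ Icc 1 P, rr P d ^ 2 ≤
        2 * K ^ 2 * (P : ℝ) ^ 2 / Real.log P ^ 4 * F (2 * d) ^ 4 + 2 * P := by
      intro d hd
      rw [Finset.mem_Icc] at hd
      have h2 := rr_le hP (d := d) (by omega)
      have h3 : rr P d ^ 2 ≤ (8 * 48 ^ 2 * F (2 * d) ^ 2 * P / Real.log P ^ 2 + Real.sqrt P) ^ 2 := by
        apply pow_le_pow_left₀ (rr_nonneg P d) h2
      have h4 : (8 * 48 ^ 2 * F (2 * d) ^ 2 * P / Real.log P ^ 2 + Real.sqrt P) ^ 2 ≤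
          2 * (8 * 48 ^ 2 * F (2 * d) ^ 2 * P / Real.log P ^ 2) ^ 2 + 2 * (Real.sqrt P) ^ 2 := by
        nlinarith [sq_nonneg (8 * 48 ^ 2 * F (2 * d) ^ 2 * P / Real.log P ^ 2 - Real.sqrt P)]
      rw [Real.sq_sqrt hPpos.le] at h4
      refine h3.trans (h4.trans (le_of_eq ?_))
      rw [hK, div_pow]
      ring
    refine (Finset.sum_le_sum h1).trans ?_
    rw [Finset.sum_add_distrib, ← Finset.mul_sum, Finset.sum_const, Nat.card_Icc, nsmul_eq_mul]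
    have h5 : ∑ d ∈ Icc 1 P, F (2 * d) ^ 4 ≤ W ^ 4 * (2 * P) := by
      have h6 : ∑ d ∈ Icc 1 P, F (2 * d) ^ 4 = ∑ D ∈ (Icc 1 P).image (fun d => 2 * d), F D ^ 4 := by
        rw [Finset.sum_image (fun a _ b _ h => by simpa using h)]
      rw [h6]
      have hsub : (Icc 1 P).image (fun d => 2 * d) ⊆ Icc 1 (2 * P) := by
        intro D hD
        rw [Finset.mem_image] at hD
        obtain ⟨d, hd, rfl⟩ := hD
        rw [Finset.mem_Icc] at hd ⊢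
        omega
      refine (Finset.sum_le_sum_of_subset_of_nonneg hsub (fun D _ _ => by
        have := F_nonneg D
        positivity)).trans ?_
      have := sum_F_pow_four_le (2 * P)
      push_cast at this
      exact this
    have h7 : ((P + 1 - 1 : ℕ) : ℝ) * (2 * P) ≤ 2 * 8 ^ 4 * (P : ℝ) ^ 3 / Real.log P ^ 4 := by
      rw [Nat.add_sub_cancel, le_div_iff₀ (by positivity)]
      have h8 := log_le_eight_root hP2
      have h9 : Real.sqrt P ≤ P := by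
        rw [Real.sqrt_le_left hPpos.le]
        nlinarith
      calc (P : ℝ) * (2 * P) * Real.log P ^ 4 ≤ (P : ℝ) * (2 * P) * (8 ^ 4 * P) := by
            gcongr
            linarith
        _ = _ := by ring
    have h10 : 2 * K ^ 2 * (P : ℝ) ^ 2 / Real.log P ^ 4 * ∑ d ∈ Icc 1 P, F (2 * d) ^ 4 ≤
        4 * K ^ 2 * W ^ 4 * (P : ℝ) ^ 3 / Real.log P ^ 4 := by
      calc _ ≤ 2 * K ^ 2 * (P : ℝ) ^ 2 / Real.log P ^ 4 * (W ^ 4 * (2 * P)) := by gcongr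
        _ = _ := by ring
    have h11 : (0 : ℝ) ≤ (Real.log (2 ^ 48)) ^ 4 * (P : ℝ) ^ 3 / Real.log P ^ 4 := by positivity
    calc _ ≤ 4 * K ^ 2 * W ^ 4 * (P : ℝ) ^ 3 / Real.log P ^ 4 +
        2 * 8 ^ 4 * (P : ℝ) ^ 3 / Real.log P ^ 4 := add_le_add h10 h7
      _ ≤ 4 * K ^ 2 * W ^ 4 * (P : ℝ) ^ 3 / Real.log P ^ 4 +
        2 * 8 ^ 4 * (P : ℝ) ^ 3 / Real.log P ^ 4 +
        (Real.log (2 ^ 48)) ^ 4 * (P : ℝ) ^ 3 / Real.log P ^ 4 := by linarith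
      _ = _ := by ring
  · rw [not_le] at hP
    have h1 : ∀ d ∈ Icc 1 P, rr P d ^ 2 ≤ (P : ℝ) ^ 2 := by
      intro d _
      apply pow_le_pow_left₀ (rr_nonneg P d) (rr_le_self P d)
    refine (Finset.sum_le_sum h1).trans ?_
    rw [Finset.sum_const, Nat.card_Icc, nsmul_eq_mul, Nat.add_sub_cancel]
    rw [le_div_iff₀ (by positivity)]
    have h2 : Real.log P ≤ Real.log (2 ^ 48) := by
      apply Real.log_le_log hPpos
      exact_mod_cast hP.le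
    have h3 : Real.log P ^ 4 ≤ Real.log (2 ^ 48) ^ 4 := by gcongr
    have hW := W_nonneg
    calc (P : ℝ) * (P : ℝ) ^ 2 * Real.log P ^ 4 ≤ (P : ℝ) * (P : ℝ) ^ 2 * Real.log (2 ^ 48) ^ 4 := by
          gcongr
      _ = Real.log (2 ^ 48) ^ 4 * (P : ℝ) ^ 3 := by ring
      _ ≤ _ := by
        have : 0 ≤ (4 * K ^ 2 * W ^ 4 + 2 * 8 ^ 4) * (P : ℝ) ^ 3 := by positivity
        nlinarith

end Pool.Agent.Lib.PrimePairs
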