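import Mathlib

/-!
# The Cauchy-Pompeiu formula for compactly supported `C^1` functions on the plane

`Pool.Lib.integral_dbar_div_sub`: if `g : ℂ → ℂ` is real-`C^1` with compact support then
`∫ ζ, dbar g ζ / (ζ - z) = -π g z`.
-/

open MeasureTheory Complex Set Filter Topology Metric

namespace Pool.Lib

/-- The Wirtinger derivative `∂g/∂z̄`. -/
noncomputable def dbar (g : ℂ → ℂ) (z : ℂ) : ℂ :=
  (fderiv ℝ g z 1 + I * fderiv ℝ g z I) / 2

theorem dbar_eq_zero {g : ℂ → ℂ} {z : ℂ} (h : DifferentiableAt ℂ g z) : dbar g z = 0 := by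
  have h1 : fderiv ℝ g z = (fderiv ℂ g z).restrictScalars ℝ :=
    (h.hasFDerivAt.restrictScalars ℝ).fderiv
  have h2 : fderiv ℂ g z I = I * fderiv ℂ g z 1 := by
    simp
  unfold dbar
  rw [h1]
  simp only [ContinuousLinearMap.coe_restrictScalars']
  rw [h2, ← mul_assoc, I_mul_I]
  ring

theorem continuous_dbar {g : ℂ → ℂ} (hg : ContDiff ℝ 1 g) : Continuous (dbar g) := by
  have h := hg.continuous_fderiv one_ne_zero
  unfold dbar
  fun_prop

theorem dbar_congr {f g : ℂ → ℂ} {z : ℂ} (h : f =ᶠ[𝓝 z] g) : dbar f z = dbar g z := by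
  unfold dbar; rw [h.fderiv_eq]

theorem tsupport_dbar_subset (g : ℂ → ℂ) : tsupport (dbar g) ⊆ tsupport g := by
  apply closure_minimal _ (isClosed_tsupport g)
  intro z hz
  by_contra h
  apply hz
  have h1 : g =ᶠ[𝓝 z] fun _ => 0 := by
    have := (isClosed_tsupport g).isOpen_compl.mem_nhds h
    filter_upwards [this] with w hw
    exact image_eq_zero_of_notMem_tsupport hw
  rw [dbar_congr h1]
  exact dbar_eq_zero (differentiableAt_const _)

private lemma circle_decomp (D : ℂ →L[ℝ] ℂ) (u : ℂ) :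
    D u + I * D (I * u) = (starRingEnd ℂ) u * (D 1 + I * D I) := by
  have h1 : u = u.re • (1 : ℂ) + u.im • I := by
    apply Complex.ext <;> simp
  have h2 : I * u = u.re • I + (-u.im) • (1 : ℂ) := by
    apply Complex.ext <;> simp
  rw [h2]
  conv_lhs => rw [show D u = D (u.re • (1 : ℂ) + u.im • I) by rw [← h1]]
  rw [map_add, map_smul, map_smul, map_add, map_smul, map_smul]
  simp only [real_smul]
  have h3 : (starRingEnd ℂ) u = u.re - u.im * I := by
    apply Complex.ext <;> simp
  rw [h3]
  push_cast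
  linear_combination (-(u.im : ℂ) * (-D I)) * I_mul_I

/-- Cauchy-Pompeiu at the origin. -/
theorem integral_dbar_div (g : ℂ → ℂ) (hg : ContDiff ℝ 1 g) (hc : HasCompactSupport g) :
    ∫ w, dbar g w / w = - Real.pi * g 0 := by
  rw [← Complex.integral_comp_polarCoord_symm]
  -- set up the two partial derivatives
  set P : ℝ × ℝ → ℂ := fun p => (p.1 : ℂ) * (Real.cos p.2 + Real.sin p.2 * I) with hP
  set e : ℝ → ℂ := fun θ => (Real.cos θ + Real.sin θ * I) with he
  set A : ℝ × ℝ → ℂ := fun p => fderiv ℝ g (P p) (e p.2) with hA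
  set B : ℝ × ℝ → ℂ := fun p => fderiv ℝ g (P p) (I * e p.2) with hB
  have hPc : Continuous P := by
    rw [hP]; fun_prop
  have hec : Continuous e := by rw [he]; fun_prop
  have hfc : Continuous (fderiv ℝ g) := hg.continuous_fderiv one_ne_zero
  have hAc : Continuous A := (hfc.comp hPc).clm_apply (hec.comp continuous_snd)
  have hBc : Continuous B :=
    (hfc.comp hPc).clm_apply (continuous_const.mul (hec.comp continuous_snd))
  have hnorm : ∀ θ, ‖e θ‖ = 1 := by
    intro θ
    have : e θ = exp (θ * I) := by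
      rw [he, exp_mul_I]; simp
    rw [this, norm_exp_ofReal_mul_I]
  -- radius of the support
  obtain ⟨R, hR⟩ : ∃ R : ℝ, tsupport g ⊆ ball 0 R := hc.isCompact.isBounded.subset_ball 0
  have hR' : ∀ w : ℂ, R ≤ ‖w‖ → g w = 0 ∧ fderiv ℝ g w = 0 := by
    intro w hw
    have hw' : w ∉ tsupport g := fun h => by
      have := hR h
      simp only [mem_ball, dist_zero_right] at this
      linarith
    refine ⟨image_eq_zero_of_notMem_tsupport hw', ?_⟩
    by_contra hne
    exact hw' (support_fderiv_subset ℝ hne)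
  have hnP : ∀ p : ℝ × ℝ, ‖P p‖ = |p.1| := by
    intro p
    have : P p = p.1 * e p.2 := rfl
    rw [this, norm_mul, hnorm, mul_one, norm_real, Real.norm_eq_abs]
  have hA0 : ∀ p : ℝ × ℝ, R ≤ |p.1| → A p = 0 := by
    intro p hp
    rw [hA]; simp only
    rw [(hR' (P p) (by rw [hnP]; exact hp)).2]; rfl
  have hB0 : ∀ p : ℝ × ℝ, R ≤ |p.1| → B p = 0 := by
    intro p hp
    rw [hB]; simp only
    rw [(hR' (P p) (by rw [hnP]; exact hp)).2]; rfl
  -- integrability on the strip
  have hint : ∀ F : ℝ × ℝ → ℂ, Continuous F → (∀ p : ℝ × ℝ, R ≤ |p.1| → F p = 0) →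
      IntegrableOn F (Ioi (0 : ℝ) ×ˢ Ioo (-Real.pi) Real.pi) := by
    intro F hF h0
    have hK : IsCompact (Icc (-|R|) |R| ×ˢ Icc (-Real.pi) Real.pi) :=
      isCompact_Icc.prod isCompact_Icc
    have h1 : IntegrableOn F (Icc (-|R|) |R| ×ˢ Icc (-Real.pi) Real.pi) :=
      hF.continuousOn.integrableOn_compact hK
    refine IntegrableOn.of_forall_sdiff_eq_zero h1 (measurableSet_Ioi.prod measurableSet_Ioo) ?_
    rintro ⟨r, θ⟩ ⟨⟨hr, hθ⟩, hn⟩
    apply h0
    by_contra hlt
    push Not at hlt
    apply hn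
    refine ⟨?_, Ioo_subset_Icc_self hθ⟩
    simp only at hlt ⊢
    have := hlt.le.trans (le_abs_self R)
    exact abs_le.mp this
  -- rewrite the integrand
  have hrew : ∀ p ∈ polarCoord.target,
      p.1 • (dbar g (Complex.polarCoord.symm p) / Complex.polarCoord.symm p)
        = (1 / 2 : ℂ) * (A p + I * B p) := by
    rintro ⟨r, θ⟩ hp
    have hr : 0 < r := by
      simp only [polarCoord_target, mem_prod, mem_Ioi] at hp
      exact hp.1
    have hsym : Complex.polarCoord.symm (r, θ) = P (r, θ) := by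
      rw [Complex.polarCoord_symm_apply]
    rw [hsym]
    have hPr : P (r, θ) = r * e θ := rfl
    have he0 : e θ ≠ 0 := by
      intro h
      have := hnorm θ
      rw [h, norm_zero] at this
      exact zero_ne_one this
    have hr0 : (r : ℂ) ≠ 0 := by exact_mod_cast hr.ne'
    have hconj : (starRingEnd ℂ) (e θ) * e θ = 1 := by
      rw [mul_comm, mul_conj, normSq_eq_norm_sq, hnorm]; simp
    have hdec := circle_decomp (fderiv ℝ g (P (r, θ))) (e θ)
    have hAB : A (r, θ) + I * B (r, θ) = (starRingEnd ℂ) (e θ) *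
        (fderiv ℝ g (P (r, θ)) 1 + I * fderiv ℝ g (P (r, θ)) I) := hdec
    rw [hAB]
    simp only [real_smul]
    unfold dbar
    rw [div_div, div_eq_mul_inv]
    have : ((2 : ℂ) * P (r, θ))⁻¹ = (1 / 2) * ((starRingEnd ℂ) (e θ)) * (r : ℂ)⁻¹ := by
      rw [hPr]
      apply inv_eq_of_mul_eq_one_left
      have hrr : (r : ℂ)⁻¹ * r = 1 := inv_mul_cancel₀ hr0
      linear_combination ((r : ℂ)⁻¹ * r) * hconj + hrr
    rw [this]
    field_simp
  rw [setIntegral_congr_fun (by exact polarCoord.open_target.measurableSet) hrew]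
  rw [integral_const_mul]
  have hIA := hint A hAc hA0
  have hIB := hint B hBc hB0
  rw [polarCoord_target]
  rw [integral_add hIA (hIB.const_mul I), integral_const_mul]
  -- evaluate the A-integral
  have hderivA : ∀ θ r : ℝ, HasDerivAt (fun r : ℝ => g (P (r, θ))) (A (r, θ)) r := by
    intro θ r
    have h1 : HasFDerivAt g (fderiv ℝ g (P (r, θ))) (P (r, θ)) :=
      (hg.differentiable one_ne_zero _).hasFDerivAt
    have h2 : HasDerivAt (fun r : ℝ => P (r, θ)) (e θ) r := by
      have : HasDerivAt (fun r : ℝ => (r : ℂ)) 1 r := ofRealCLM.hasDerivAt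
      simpa using this.mul_const (e θ)
    exact h1.comp_hasDerivAt r h2
  have hderivB : ∀ r θ : ℝ, HasDerivAt (fun θ : ℝ => g (P (r, θ))) (r * B (r, θ)) θ := by
    intro r θ
    have h1 : HasFDerivAt g (fderiv ℝ g (P (r, θ))) (P (r, θ)) :=
      (hg.differentiable one_ne_zero _).hasFDerivAt
    have h2 : HasDerivAt (fun θ : ℝ => P (r, θ)) (r * (I * e θ)) θ := by
      have h3 : HasDerivAt (fun θ : ℝ => exp (θ * I)) (exp (θ * I) * (1 * I)) θ := by
        have : HasDerivAt (fun r : ℝ => (r : ℂ)) 1 θ := ofRealCLM.hasDerivAt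
        exact (this.mul_const I).cexp
      have h4 : (fun θ : ℝ => P (r, θ)) = fun θ : ℝ => (r : ℂ) * exp (θ * I) := by
        funext t
        rw [exp_mul_I]; simp [hP]
      have h5 : e θ = exp (θ * I) := by rw [he, exp_mul_I]; simp
      rw [h4, h5]
      have h6 : (r : ℂ) * (I * exp (θ * I)) = r * (exp (θ * I) * (1 * I)) := by ring
      rw [h6]
      exact h3.const_mul (r : ℂ)
    have h3 := h1.comp_hasDerivAt θ h2
    have h4 : fderiv ℝ g (P (r, θ)) (r * (I * e θ)) = r * B (r, θ) := by
      rw [hB]; simp only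
      have := (fderiv ℝ g (P (r, θ))).map_smul r (I * e θ)
      simpa [real_smul] using this
    rw [h4] at h3
    exact h3
  have hvalA : ∫ p in Ioi (0 : ℝ) ×ˢ Ioo (-Real.pi) Real.pi, A p = - (2 * Real.pi) * g 0 := by
    rw [Measure.volume_eq_prod] at hIA ⊢
    have hsw : ∫ p in Ioi (0 : ℝ) ×ˢ Ioo (-Real.pi) Real.pi, A p ∂(volume.prod volume)
        = ∫ θ in Ioo (-Real.pi) Real.pi, ∫ r in Ioi (0 : ℝ), A (r, θ) := by
      rw [setIntegral_prod _ hIA]
      rw [integral_integral_swap]
      rw [Measure.prod_restrict]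
      exact hIA
    rw [hsw]
    have hin : ∀ θ : ℝ, ∫ r in Ioi (0 : ℝ), A (r, θ) = - g 0 := by
      intro θ
      have hfin : ∀ r : ℝ, |R| ≤ r → g (P (r, θ)) = 0 := by
        intro r hr
        refine (hR' _ ?_).1
        rw [hnP]
        exact (le_abs_self R).trans (hr.trans (le_abs_self r))
      have h := integral_Ioi_of_hasDerivAt_of_tendsto' (a := (0 : ℝ)) (m := (0 : ℂ))
        (f := fun r : ℝ => g (P (r, θ))) (f' := fun r => A (r, θ))
        (fun r _ => hderivA θ r) ?_ ?_
      · rw [h]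
        simp [hP]
      · have hcont : Continuous fun r : ℝ => A (r, θ) := hAc.comp (by fun_prop)
        have h1 : IntegrableOn (fun r : ℝ => A (r, θ)) (Icc (-|R|) |R|) :=
          hcont.continuousOn.integrableOn_compact isCompact_Icc
        refine IntegrableOn.of_forall_sdiff_eq_zero h1 measurableSet_Ioi ?_
        rintro r ⟨hr, hn⟩
        apply hA0
        by_contra hlt
        push Not at hlt
        exact hn (abs_le.mp (hlt.le.trans (le_abs_self R)))
      · refine tendsto_const_nhds.congr' ?_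
        filter_upwards [eventually_ge_atTop |R|] with r hr
        exact (hfin r hr).symm
    simp_rw [hin]
    simp only [setIntegral_const, Measure.real, Real.volume_Ioo]
    rw [ENNReal.toReal_ofReal (by have := Real.pi_pos; linarith)]
    simp only [real_smul]
    push_cast
    ring
  have hvalB : ∫ p in Ioi (0 : ℝ) ×ˢ Ioo (-Real.pi) Real.pi, B p = 0 := by
    rw [Measure.volume_eq_prod] at hIB ⊢
    rw [setIntegral_prod _ hIB]
    have hin : ∀ r ∈ Ioi (0 : ℝ), ∫ θ in Ioo (-Real.pi) Real.pi, B (r, θ) = 0 := by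
      intro r hr
      rw [← integral_Ioc_eq_integral_Ioo, ← intervalIntegral.integral_of_le
        (by have := Real.pi_pos; linarith)]
      have h1 : ∫ θ in (-Real.pi)..Real.pi, (r : ℂ) * B (r, θ)
          = g (P (r, Real.pi)) - g (P (r, -Real.pi)) := by
        refine intervalIntegral.integral_eq_sub_of_hasDerivAt
          (f := fun θ : ℝ => g (P (r, θ))) (fun θ _ => hderivB r θ) ?_
        apply Continuous.intervalIntegrable
        exact continuous_const.mul (hBc.comp (by fun_prop))
      have h2 : P (r, Real.pi) = P (r, -Real.pi) := by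
        simp [hP]
      rw [h2, sub_self, intervalIntegral.integral_const_mul] at h1
      rcases mul_eq_zero.mp h1 with h | h
      · exact absurd (by exact_mod_cast h) (ne_of_gt hr)
      · exact h
    rw [setIntegral_congr_fun measurableSet_Ioi hin]
    simp
  rw [hvalA, hvalB]
  ring

/-- **Cauchy-Pompeiu formula** for compactly supported `C^1` functions. -/
theorem integral_dbar_div_sub (g : ℂ → ℂ) (hg : ContDiff ℝ 1 g) (hc : HasCompactSupport g)
    (z : ℂ) : ∫ ζ, dbar g ζ / (ζ - z) = - Real.pi * g z := by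
  have h := integral_dbar_div (fun w => g (w + z)) (hg.comp (contDiff_id.add contDiff_const))
    (hc.comp_homeomorph (Homeomorph.addRight z))
  rw [zero_add] at h
  rw [← h]
  rw [← integral_add_right_eq_self (μ := volume) (fun ζ => dbar g ζ / (ζ - z)) z]
  congr 1
  funext w
  rw [add_sub_cancel_right]
  congr 1
  unfold dbar
  rw [fderiv_comp_add_right]

end Pool.Lib
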