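import Mathlib

set_option autoImplicit false

/-!
# The maximal ergodic theorem and a closure principle for pointwise convergence

* `Pool.Lib.Erg.maximal_integral` : Hopf's maximal ergodic theorem.
* `Pool.Lib.Erg.weak_type` : the weak type (1,1) inequality for ergodic averages.
* `Pool.Lib.Erg.closure_L1` : if weighted averages (bounded weights) along `T` of the functions of
  a class converge almost everywhere, the same holds for every `L¹` limit of such functions.
-/

open MeasureTheory Filter Topology Finset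
open scoped ENNReal NNReal

namespace Pool.Lib.Erg

variable {X : Type*} [MeasurableSpace X] {μ : Measure X}

/-- partial sums along the orbit -/
def S (T : X → X) (f : X → ℝ) (n : ℕ) (x : X) : ℝ := ∑ i ∈ range n, f (T^[i] x)

/-- `max (0, S_1, ..., S_n)` defined recursively -/
noncomputable def M (T : X → X) (f : X → ℝ) : ℕ → X → ℝ
  | 0, _ => 0
  | (n + 1), x => max 0 (f x + M T f n (T x))

lemma M_nonneg (T : X → X) (f : X → ℝ) (n : ℕ) (x : X) : 0 ≤ M T f n x := by
  cases n with
  | zero => exact le_rfl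
  | succ n => exact le_max_left _ _

lemma M_mono (T : X → X) (f : X → ℝ) (n : ℕ) : ∀ x, M T f n x ≤ M T f (n + 1) x := by
  induction n with
  | zero => intro x; exact le_max_left _ _
  | succ n ih =>
    intro x
    show max 0 (f x + M T f n (T x)) ≤ max 0 (f x + M T f (n + 1) (T x))
    exact max_le_max le_rfl (by have := ih (T x); linarith)

lemma M_monotone (T : X → X) (f : X → ℝ) (x : X) : Monotone fun n => M T f n x :=
  monotone_nat_of_le_succ fun n => M_mono T f n x

lemma S_le_M (T : X → X) (f : X → ℝ) (n : ℕ) : ∀ x, S T f n x ≤ M T f n x := by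
  induction n with
  | zero => intro x; simp [S, M]
  | succ n ih =>
    intro x
    have h : S T f (n + 1) x = f x + S T f n (T x) := by
      unfold S
      rw [Finset.sum_range_succ']
      simp only [Function.iterate_zero, id_eq, Function.iterate_succ_apply]
      ring
    rw [h]
    exact le_trans (by have := ih (T x); linarith) (le_max_right _ _)

lemma M_integrable (T : X → X) (hT : MeasurePreserving T μ μ) (f : X → ℝ) (hf : Integrable f μ)
    (n : ℕ) : Integrable (M T f n) μ := by
  induction n with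
  | zero => exact integrable_zero _ _ _
  | succ n ih =>
    have h1 : Integrable (fun x => f x + M T f n (T x)) μ :=
      hf.add (hT.integrable_comp_of_integrable ih)
    exact (integrable_zero X ℝ μ).sup h1

/-- Hopf's maximal ergodic theorem. -/
theorem maximal_integral (T : X → X) (hT : MeasurePreserving T μ μ) (f : X → ℝ)
    (hf : Integrable f μ) (n : ℕ) : 0 ≤ ∫ x in {x | 0 < M T f n x}, f x ∂μ := by
  cases n with
  | zero =>
    have : {x : X | 0 < M T f 0 x} = ∅ := by
      ext x; simp [M]
    rw [this]; simp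
  | succ n =>
    have hMn := M_integrable T hT f hf n
    have hMn1 := M_integrable T hT f hf (n + 1)
    have hMT : Integrable (fun x => M T f n (T x)) μ := hT.integrable_comp_of_integrable hMn
    set E : Set X := {x | 0 < M T f (n + 1) x} with hE
    have hEm : NullMeasurableSet E μ := by
      exact nullMeasurableSet_lt aemeasurable_const hMn1.aemeasurable
    have h1 : ∫ x in E, f x ∂μ = ∫ x in E, (M T f (n + 1) x - M T f n (T x)) ∂μ := by
      apply setIntegral_congr_fun₀ hEm
      intro x hx
      have hx' : 0 < max 0 (f x + M T f n (T x)) := hx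
      have h2 : M T f (n + 1) x = f x + M T f n (T x) := by
        show max 0 (f x + M T f n (T x)) = _
        rcases le_total (f x + M T f n (T x)) 0 with h | h
        · rw [max_eq_left h] at hx'
          exact absurd hx' (lt_irrefl _)
        · exact max_eq_right h
      simp only
      rw [h2]; ring
    rw [h1, integral_sub hMn1.integrableOn hMT.integrableOn]
    have h3 : ∫ x in E, M T f (n + 1) x ∂μ = ∫ x, M T f (n + 1) x ∂μ := by
      apply setIntegral_eq_integral_of_forall_compl_eq_zero
      intro x hx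
      have : ¬ (0 < M T f (n + 1) x) := hx
      exact le_antisymm (not_lt.mp this) (M_nonneg _ _ _ _)
    have h4 : ∫ x in E, M T f n (T x) ∂μ ≤ ∫ x, M T f n (T x) ∂μ :=
      setIntegral_le_integral hMT (Eventually.of_forall fun x => M_nonneg _ _ _ _)
    have h5 : ∫ x, M T f n (T x) ∂μ = ∫ x, M T f n x ∂μ := by
      have := hT.map_eq
      rw [← integral_map hT.aemeasurable (by rw [this]; exact hMn.aestronglyMeasurable), this]
    have h6 : ∫ x, M T f n x ∂μ ≤ ∫ x, M T f (n + 1) x ∂μ :=
      integral_mono hMn hMn1 (fun x => M_mono T f n x)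
    linarith

/-- Weak type inequality, finite horizon. -/
lemma weak_type_fin [IsFiniteMeasure μ] (T : X → X) (hT : MeasurePreserving T μ μ) (g : X → ℝ)
    (hg : Integrable g μ) (hg0 : ∀ x, 0 ≤ g x) (l : ℝ) (hl : 0 < l) (n : ℕ) :
    l * μ.real {x | 0 < M T (fun x => g x - l) n x} ≤ ∫ x, g x ∂μ := by
  have hf : Integrable (fun x => g x - l) μ := hg.sub (integrable_const l)
  have h := maximal_integral T hT (fun x => g x - l) hf n
  set E : Set X := {x | 0 < M T (fun x => g x - l) n x} with hE
  rw [integral_sub hg.integrableOn (integrable_const l).integrableOn] at h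
  have h1 : ∫ x in E, l ∂μ = l * μ.real E := by
    rw [setIntegral_const, smul_eq_mul, mul_comm]
  have h2 : ∫ x in E, g x ∂μ ≤ ∫ x, g x ∂μ :=
    setIntegral_le_integral hg (Eventually.of_forall hg0)
  linarith

/-- Weak type (1,1) inequality for the ergodic averages. -/
theorem weak_type [IsFiniteMeasure μ] (T : X → X) (hT : MeasurePreserving T μ μ) (g : X → ℝ)
    (hg : Integrable g μ) (hg0 : ∀ x, 0 ≤ g x) (l : ℝ) (hl : 0 < l) :
    μ {x | ∃ n : ℕ, l * n < ∑ i ∈ range n, g (T^[i] x)} ≤
      ENNReal.ofReal ((∫ x, g x ∂μ) / l) := by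
  have hsub : {x | ∃ n : ℕ, l * n < ∑ i ∈ range n, g (T^[i] x)} ⊆
      ⋃ n : ℕ, {x | 0 < M T (fun x => g x - l) n x} := by
    rintro x ⟨n, hn⟩
    rw [Set.mem_iUnion]
    refine ⟨n, lt_of_lt_of_le ?_ (S_le_M T (fun x => g x - l) n x)⟩
    unfold S
    rw [Finset.sum_sub_distrib, Finset.sum_const, Finset.card_range, nsmul_eq_mul]
    linarith
  refine (measure_mono hsub).trans ?_
  have hmono : Monotone fun n : ℕ => {x | 0 < M T (fun x => g x - l) n x} := by
    intro a b hab x hx
    exact lt_of_lt_of_le hx (M_monotone T (fun x => g x - l) x hab)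
  rw [hmono.measure_iUnion]
  apply iSup_le
  intro n
  have h := weak_type_fin T hT g hg hg0 l hl n
  rw [← ENNReal.ofReal_toReal (measure_ne_top μ {x | 0 < M T (fun x => g x - l) n x})]
  apply ENNReal.ofReal_le_ofReal
  rw [le_div_iff₀ hl]
  calc _ = l * μ.real {x | 0 < M T (fun x => g x - l) n x} := mul_comm _ _
    _ ≤ _ := h

/-- Cauchy criterion form: for every `r` there is a threshold. -/
def CauchyAt (a : ℕ → ℂ) (r : ℝ) : Prop := ∃ N0 : ℕ, ∀ m ≥ N0, ∀ n ≥ N0, ‖a m - a n‖ ≤ r

lemma exists_lim_of_cauchyAt (a : ℕ → ℂ) (h : ∀ j : ℕ, CauchyAt a (1 / (j + 1))) :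
    ∃ L : ℂ, Tendsto a atTop (𝓝 L) := by
  apply cauchySeq_tendsto_of_complete
  rw [Metric.cauchySeq_iff]
  intro ε hε
  obtain ⟨j, hj⟩ := exists_nat_one_div_lt hε
  obtain ⟨N0, hN0⟩ := h j
  refine ⟨N0, fun m hm n hn => ?_⟩
  rw [dist_eq_norm]
  exact lt_of_le_of_lt (hN0 m hm n hn) hj

lemma cauchyAt_of_lim (a : ℕ → ℂ) (L : ℂ) (h : Tendsto a atTop (𝓝 L)) (r : ℝ) (hr : 0 < r) :
    CauchyAt a r := by
  have := h.cauchySeq
  rw [Metric.cauchySeq_iff] at this
  obtain ⟨N0, hN0⟩ := this r hr
  refine ⟨N0, fun m hm n hn => ?_⟩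
  rw [← dist_eq_norm]
  exact (hN0 m hm n hn).le

/-- weighted averages -/
noncomputable def avg (a : ℕ → ℂ) (N : ℕ) : ℂ := (N : ℂ)⁻¹ * ∑ n ∈ range N, a n

lemma avg_sub (a b : ℕ → ℂ) (N : ℕ) : avg (fun n => a n - b n) N = avg a N - avg b N := by
  unfold avg
  rw [Finset.sum_sub_distrib, mul_sub]

lemma avg_norm_le (a : ℕ → ℂ) (N : ℕ) : ‖avg a N‖ ≤ (N : ℝ)⁻¹ * ∑ n ∈ range N, ‖a n‖ := by
  unfold avg
  rw [norm_mul, norm_inv, Complex.norm_natCast]
  exact mul_le_mul_of_nonneg_left (norm_sum_le _ _) (by positivity)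

/-- **Closure principle.**  Let `w n x` be weights bounded by `C`.  If `f` can be approximated in
`L¹` by functions `φ` for which the weighted averages along `T` converge almost everywhere, then
the weighted averages of `f` converge almost everywhere. -/
theorem closure_L1 [IsFiniteMeasure μ] (T : X → X) (hT : MeasurePreserving T μ μ)
    (w : ℕ → X → ℂ) (C : ℝ) (hw : ∀ᵐ x ∂μ, ∀ n, ‖w n x‖ ≤ C) (f : X → ℂ)
    (happ : ∀ ε : ℝ, 0 < ε → ∃ φ : X → ℂ, Integrable (fun x => f x - φ x) μ ∧
      ∫ x, ‖f x - φ x‖ ∂μ ≤ ε ∧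
      ∀ᵐ x ∂μ, ∃ L, Tendsto (avg fun n => w n x * φ (T^[n] x)) atTop (𝓝 L)) :
    ∀ᵐ x ∂μ, ∃ L, Tendsto (avg fun n => w n x * f (T^[n] x)) atTop (𝓝 L) := by
  -- WLOG the bound is positive
  set C' : ℝ := |C| + 1 with hC'
  have hC'0 : 0 < C' := by positivity
  have hw' : ∀ᵐ x ∂μ, ∀ n, ‖w n x‖ ≤ C' := by
    filter_upwards [hw] with x hx n
    have := hx n
    have := le_abs_self C
    linarith
  have key : ∀ r : ℝ, 0 < r →
      ∀ᵐ x ∂μ, CauchyAt (avg fun n => w n x * f (T^[n] x)) r := by
    intro r hr
    rw [ae_iff]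
    -- outer measure of the bad set is at most any positive number
    have hle : ∀ ε : ℝ, 0 < ε →
        μ {x | ¬ CauchyAt (avg fun n => w n x * f (T^[n] x)) r} ≤ ENNReal.ofReal ε := by
      intro ε hε
      set l : ℝ := r / (4 * C') with hl
      have hl0 : 0 < l := by positivity
      obtain ⟨φ, hφi, hφ, hφc⟩ := happ (ε * l) (by positivity)
      have hwt := weak_type T hT (fun x => ‖f x - φ x‖) hφi.norm (fun x => norm_nonneg _) l hl0
      set B : Set X := {x | ∃ n : ℕ, l * n < ∑ i ∈ range n, ‖f (T^[i] x) - φ (T^[i] x)‖} with hB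
      set Z : Set X := {x | ¬ ((∀ n, ‖w n x‖ ≤ C') ∧
        ∃ L, Tendsto (avg fun n => w n x * φ (T^[n] x)) atTop (𝓝 L))} with hZ
      have hZ0 : μ Z = 0 := by
        rw [hZ, ← ae_iff]
        filter_upwards [hw', hφc] with x h1 h2 using ⟨h1, h2⟩
      have hsub : {x | ¬ CauchyAt (avg fun n => w n x * f (T^[n] x)) r} ⊆ Z ∪ B := by
        intro x hx
        by_contra hcon
        rw [Set.mem_union, not_or] at hcon
        obtain ⟨hxZ, hxB⟩ := hcon
        rw [hZ, Set.mem_setOf_eq, not_not] at hxZ
        obtain ⟨hwx, L, hL⟩ := hxZ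
        rw [hB, Set.mem_setOf_eq] at hxB
        push Not at hxB
        apply hx
        obtain ⟨N0, hN0⟩ := cauchyAt_of_lim _ L hL (r / 2) (by positivity)
        have hdiff : ∀ N : ℕ, ‖avg (fun n => w n x * f (T^[n] x)) N -
            avg (fun n => w n x * φ (T^[n] x)) N‖ ≤ r / 4 := by
          intro N
          rw [← avg_sub]
          refine (avg_norm_le _ _).trans ?_
          rcases Nat.eq_zero_or_pos N with h0 | hpos
          · subst h0; simp; positivity
          · have hN : (0 : ℝ) < N := by exact_mod_cast hpos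
            have h1 : ∑ n ∈ range N, ‖w n x * f (T^[n] x) - w n x * φ (T^[n] x)‖ ≤
                C' * (l * N) := by
              calc _ ≤ ∑ n ∈ range N, C' * ‖f (T^[n] x) - φ (T^[n] x)‖ := by
                    apply Finset.sum_le_sum
                    intro n _
                    rw [← mul_sub, norm_mul]
                    exact mul_le_mul_of_nonneg_right (hwx n) (norm_nonneg _)
                _ = C' * ∑ n ∈ range N, ‖f (T^[n] x) - φ (T^[n] x)‖ := by rw [Finset.mul_sum]
                _ ≤ C' * (l * N) := mul_le_mul_of_nonneg_left (hxB N) hC'0.le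
            calc _ ≤ (N : ℝ)⁻¹ * (C' * (l * N)) :=
                  mul_le_mul_of_nonneg_left h1 (by positivity)
              _ = r / 4 := by rw [hl]; field_simp
        refine ⟨N0, fun m hm n hn => ?_⟩
        have e1 := hdiff m
        have e2 := hdiff n
        have e3 := hN0 m hm n hn
        calc ‖avg (fun n => w n x * f (T^[n] x)) m - avg (fun n => w n x * f (T^[n] x)) n‖ =
            ‖(avg (fun n => w n x * f (T^[n] x)) m - avg (fun n => w n x * φ (T^[n] x)) m) -
              (avg (fun n => w n x * f (T^[n] x)) n - avg (fun n => w n x * φ (T^[n] x)) n) +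
              (avg (fun n => w n x * φ (T^[n] x)) m -
                avg (fun n => w n x * φ (T^[n] x)) n)‖ := by congr 1; ring
          _ ≤ (r / 4 + r / 4) + r / 2 := by
              refine (norm_add_le _ _).trans (add_le_add ?_ e3)
              exact (norm_sub_le _ _).trans (add_le_add e1 e2)
          _ = r := by ring
      calc μ {x | ¬ CauchyAt (avg fun n => w n x * f (T^[n] x)) r} ≤ μ (Z ∪ B) := measure_mono hsub
        _ ≤ μ Z + μ B := measure_union_le _ _
        _ ≤ 0 + ENNReal.ofReal ((∫ x, ‖f x - φ x‖ ∂μ) / l) := by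
            rw [hZ0]; exact add_le_add le_rfl hwt
        _ ≤ ENNReal.ofReal ε := by
            rw [zero_add]
            apply ENNReal.ofReal_le_ofReal
            rw [div_le_iff₀ hl0]
            exact hφ
    refine le_antisymm ?_ bot_le
    apply le_of_forall_pos_le_add
    intro ε hε
    rw [zero_add]
    by_cases htop : ε = ⊤
    · rw [htop]; exact le_top
    · have := hle ε.toReal (ENNReal.toReal_pos hε.ne' htop)
      rwa [ENNReal.ofReal_toReal htop] at this
  have hall : ∀ᵐ x ∂μ, ∀ j : ℕ, CauchyAt (avg fun n => w n x * f (T^[n] x)) (1 / (j + 1)) := by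
    rw [ae_all_iff]
    intro j
    exact key _ (by positivity)
  filter_upwards [hall] with x hx
  exact exists_lim_of_cauchyAt _ hx

end Pool.Lib.Erg
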