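import Pool.Agent.Lib.MaximalErgodic

set_option autoImplicit false

/-!
# Tools for pointwise convergence of averages

* `avg_residue` : convergence along residue classes gives convergence.
* `avg_zero_of_L2` : a bounded sequence with `∫ |∑_{n<N} Y n|² ≤ K N` has averages tending to zero.
* `multi_closure` : the closure principle for products of several functions.
* `two_sided` : one sided convergence in both directions gives two sided convergence.
-/

open MeasureTheory Filter Topology Finset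
open scoped ENNReal NNReal

namespace Pool.Lib.Erg

/-! ### Deterministic lemmas -/

lemma avg_bound (a : ℕ → ℂ) (C : ℝ) (ha : ∀ n, ‖a n‖ ≤ C) (N : ℕ) : ‖avg a N‖ ≤ C := by
  have hC : 0 ≤ C := (norm_nonneg _).trans (ha 0)
  refine (avg_norm_le a N).trans ?_
  rcases Nat.eq_zero_or_pos N with h | h
  · subst h; simpa using hC
  · have hN : (0 : ℝ) < N := by exact_mod_cast h
    rw [inv_mul_le_iff₀ hN]
    calc ∑ n ∈ range N, ‖a n‖ ≤ ∑ _n ∈ range N, C := Finset.sum_le_sum fun n _ => ha n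
      _ = N * C := by simp

/-- If the averages along the multiples of `q` converge, so do all of them. -/
lemma tendsto_of_multiples (a : ℕ → ℂ) (C : ℝ) (ha : ∀ n, ‖a n‖ ≤ C) (q : ℕ) (hq : 0 < q) (L : ℂ)
    (h : Tendsto (fun t => avg a (q * t)) atTop (𝓝 L)) : Tendsto (avg a) atTop (𝓝 L) := by
  have hC : 0 ≤ C := (norm_nonneg _).trans (ha 0)
  have hdiv : Tendsto (fun N : ℕ => N / q) atTop atTop := Nat.tendsto_div_const_atTop hq.ne'
  have h1 : Tendsto (fun N => avg a (q * (N / q))) atTop (𝓝 L) := h.comp hdiv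
  have h2 : Tendsto (fun N : ℕ => 2 * C * q / (N : ℝ)) atTop (𝓝 0) :=
    tendsto_const_div_atTop_nhds_zero_nat _
  have h3 : Tendsto (fun N => avg a N - avg a (q * (N / q))) atTop (𝓝 0) := by
    apply squeeze_zero_norm' _ h2
    filter_upwards [eventually_ge_atTop q] with N hN
    have hN0 : (0 : ℝ) < N := by
      have : 0 < N := lt_of_lt_of_le hq hN
      exact_mod_cast this
    set M := q * (N / q) with hM
    have hMN : M ≤ N := Nat.mul_div_le N q
    have hNM : N ≤ M + q := by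
      have := Nat.div_add_mod N q
      have := Nat.mod_lt N hq
      omega
    have hM0 : 0 < M := by
      have : 0 < N / q := Nat.div_pos hN hq
      positivity
    have hMr : (0 : ℝ) < M := by exact_mod_cast hM0
    have hsum : ∑ n ∈ range N, a n = ∑ n ∈ range M, a n + ∑ n ∈ Finset.Ico M N, a n := by
      rw [Finset.sum_range_add_sum_Ico _ hMN]
    have e : avg a N - avg a M = (N : ℂ)⁻¹ * ∑ n ∈ Finset.Ico M N, a n -
        (((N : ℂ) - M) / N) * avg a M := by
      unfold avg
      rw [hsum]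
      have : (N : ℂ) ≠ 0 := by exact_mod_cast hN0.ne'
      have : (M : ℂ) ≠ 0 := by exact_mod_cast hMr.ne'
      field_simp
      ring
    rw [e]
    have b1 : ‖∑ n ∈ Finset.Ico M N, a n‖ ≤ C * q := by
      calc _ ≤ ∑ n ∈ Finset.Ico M N, ‖a n‖ := norm_sum_le _ _
        _ ≤ ∑ _n ∈ Finset.Ico M N, C := Finset.sum_le_sum fun n _ => ha n
        _ = ((N - M : ℕ) : ℝ) * C := by simp
        _ ≤ (q : ℝ) * C := by
            apply mul_le_mul_of_nonneg_right _ hC
            exact_mod_cast (by omega : N - M ≤ q)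
        _ = C * q := by ring
    have b2 : ‖((N : ℂ) - M) / N‖ ≤ q / N := by
      rw [norm_div, Complex.norm_natCast]
      apply div_le_div_of_nonneg_right _ hN0.le
      have : (N : ℂ) - M = (((N : ℝ) - M : ℝ) : ℂ) := by push_cast; rfl
      rw [this, Complex.norm_real, Real.norm_of_nonneg]
      · have : (N : ℝ) ≤ M + q := by exact_mod_cast hNM
        linarith
      · have : (M : ℝ) ≤ N := by exact_mod_cast hMN
        linarith
    calc _ ≤ ‖(N : ℂ)⁻¹ * ∑ n ∈ Finset.Ico M N, a n‖ + ‖(((N : ℂ) - M) / N) * avg a M‖ :=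
          norm_sub_le _ _
      _ ≤ (N : ℝ)⁻¹ * (C * q) + (q / N) * C := by
          rw [norm_mul, norm_mul, norm_inv, Complex.norm_natCast]
          apply add_le_add
          · exact mul_le_mul_of_nonneg_left b1 (by positivity)
          · exact mul_le_mul b2 (avg_bound a C ha M) (norm_nonneg _) (by positivity)
      _ = 2 * C * q / N := by field_simp; ring
  have h4 := h3.add h1
  simpa using h4

lemma sum_range_mul (a : ℕ → ℂ) (q t : ℕ) :
    ∑ n ∈ range (q * t), a n = ∑ r ∈ range q, ∑ s ∈ range t, a (q * s + r) := by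
  induction t with
  | zero => simp
  | succ t ih =>
    rw [Nat.mul_succ, Finset.sum_range_add, ih]
    simp_rw [Finset.sum_range_succ]
    rw [Finset.sum_add_distrib]

/-- Convergence of the averages along all residue classes modulo `q` gives convergence. -/
theorem avg_residue (a : ℕ → ℂ) (C : ℝ) (ha : ∀ n, ‖a n‖ ≤ C) (q : ℕ) (hq : 0 < q)
    (h : ∀ r < q, ∃ L, Tendsto (avg fun t => a (q * t + r)) atTop (𝓝 L)) :
    ∃ L, Tendsto (avg a) atTop (𝓝 L) := by
  choose! L hL using h
  refine ⟨(q : ℂ)⁻¹ * ∑ r ∈ range q, L r, ?_⟩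
  apply tendsto_of_multiples a C ha q hq
  have h1 : ∀ t, avg a (q * t) = (q : ℂ)⁻¹ * ∑ r ∈ range q, avg (fun t => a (q * t + r)) t := by
    intro t
    unfold avg
    rw [sum_range_mul, Nat.cast_mul, mul_inv, mul_assoc, Finset.mul_sum]
  simp_rw [h1]
  apply Tendsto.const_mul
  apply tendsto_finset_sum
  intro r hr
  exact hL r (mem_range.mp hr)

/-- Averages along squares control all averages. -/
lemma tendsto_of_squares (a : ℕ → ℂ) (C : ℝ) (ha : ∀ n, ‖a n‖ ≤ C)
    (h : Tendsto (fun k => avg a (k ^ 2)) atTop (𝓝 0)) : Tendsto (avg a) atTop (𝓝 0) := by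
  have hC : 0 ≤ C := (norm_nonneg _).trans (ha 0)
  have hsq : Tendsto (fun N : ℕ => Nat.sqrt N) atTop atTop := by
    apply Filter.tendsto_atTop_mono' atTop (f₁ := fun N : ℕ => Nat.sqrt N) (Eventually.of_forall fun _ => le_rfl)
    rw [tendsto_atTop_atTop]
    intro b
    refine ⟨b ^ 2, fun N hN => ?_⟩
    rw [Nat.le_sqrt']
    exact hN
  have h1 : Tendsto (fun N => avg a ((Nat.sqrt N) ^ 2)) atTop (𝓝 0) := h.comp hsq
  have h1' : Tendsto (fun N => ‖avg a ((Nat.sqrt N) ^ 2)‖) atTop (𝓝 0) :=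
    tendsto_zero_iff_norm_tendsto_zero.mp h1
  have h2 : Tendsto (fun N : ℕ => 2 * C / (Nat.sqrt N : ℝ)) atTop (𝓝 0) := by
    have := (tendsto_const_div_atTop_nhds_zero_nat (2 * C)).comp hsq
    exact this
  have h3 := h1'.add h2
  rw [add_zero] at h3
  apply squeeze_zero_norm' _ h3
  filter_upwards [eventually_ge_atTop 1] with N hN
  have hN0 : (0 : ℝ) < N := by exact_mod_cast hN
  set s := Nat.sqrt N with hs
  have hs0 : 0 < s := Nat.sqrt_pos.mpr hN
  have hsr : (0 : ℝ) < s := by exact_mod_cast hs0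
  have hs1 : s ^ 2 ≤ N := Nat.sqrt_le' N
  have hs2 : N < (s + 1) ^ 2 := Nat.lt_succ_sqrt' N
  have hsum : ∑ n ∈ range N, a n = ∑ n ∈ range (s ^ 2), a n + ∑ n ∈ Finset.Ico (s ^ 2) N, a n := by
    rw [Finset.sum_range_add_sum_Ico _ hs1]
  have hcast : ((s ^ 2 : ℕ) : ℝ) ≤ N := by exact_mod_cast hs1
  have hss : (0 : ℝ) < ((s ^ 2 : ℕ) : ℝ) := by positivity
  have b0 : ‖∑ n ∈ range (s ^ 2), a n‖ = ((s ^ 2 : ℕ) : ℝ) * ‖avg a (s ^ 2)‖ := by
    unfold avg
    rw [norm_mul, norm_inv, Complex.norm_natCast]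
    field_simp
  have b1 : ‖∑ n ∈ Finset.Ico (s ^ 2) N, a n‖ ≤ (2 * s) * C := by
    calc _ ≤ ∑ n ∈ Finset.Ico (s ^ 2) N, ‖a n‖ := norm_sum_le _ _
      _ ≤ ∑ _n ∈ Finset.Ico (s ^ 2) N, C := Finset.sum_le_sum fun n _ => ha n
      _ = ((N - s ^ 2 : ℕ) : ℝ) * C := by simp
      _ ≤ (2 * s) * C := by
          apply mul_le_mul_of_nonneg_right _ hC
          have : N - s ^ 2 ≤ 2 * s := by
            have : (s + 1) ^ 2 = s ^ 2 + 2 * s + 1 := by ring
            omega
          exact_mod_cast this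
  have e : ‖avg a N‖ = (N : ℝ)⁻¹ * ‖∑ n ∈ range N, a n‖ := by
    unfold avg
    rw [norm_mul, norm_inv, Complex.norm_natCast]
  rw [e, hsum, inv_mul_le_iff₀ hN0]
  calc _ ≤ ‖∑ n ∈ range (s ^ 2), a n‖ + ‖∑ n ∈ Finset.Ico (s ^ 2) N, a n‖ := norm_add_le _ _
    _ ≤ ((s ^ 2 : ℕ) : ℝ) * ‖avg a (s ^ 2)‖ + (2 * s) * C := by rw [b0]; linarith
    _ ≤ N * ‖avg a (s ^ 2)‖ + N * (2 * C / s) := by
        apply add_le_add
        · exact mul_le_mul_of_nonneg_right hcast (norm_nonneg _)
        · have : (2 * s) * C = ((s ^ 2 : ℕ) : ℝ) * (2 * C / s) := by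
            push_cast; field_simp
          rw [this]
          exact mul_le_mul_of_nonneg_right hcast (by positivity)
    _ = N * (‖avg a (s ^ 2)‖ + 2 * C / s) := by ring

/-! ### Second moments -/

variable {X : Type*} [MeasurableSpace X] {μ : Measure X}

/-- A bounded sequence with `∫ |∑_{n<N} Y n|² ≤ K N` has averages tending to zero a.e. -/
theorem avg_zero_of_L2 [IsFiniteMeasure μ] (Y : ℕ → X → ℂ) (C : ℝ)
    (hY : ∀ n, AEStronglyMeasurable (Y n) μ) (hYb : ∀ᵐ x ∂μ, ∀ n, ‖Y n x‖ ≤ C) (K : ℝ)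
    (hK : ∀ N : ℕ, ∫ x, ‖∑ n ∈ range N, Y n x‖ ^ 2 ∂μ ≤ K * N) :
    ∀ᵐ x ∂μ, Tendsto (avg fun n => Y n x) atTop (𝓝 0) := by
  -- the squares along the subsequence are summable in mean
  have hmeas : ∀ N : ℕ, AEStronglyMeasurable (fun x => ∑ n ∈ range N, Y n x) μ := fun N =>
    Finset.aestronglyMeasurable_fun_sum _ fun n _ => hY n
  set Z : ℕ → X → ℝ≥0∞ := fun k x => ENNReal.ofReal (‖avg (fun n => Y n x) ((k + 1) ^ 2)‖ ^ 2)
    with hZ
  have hZm : ∀ k, AEMeasurable (Z k) μ := by
    intro k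
    apply AEMeasurable.ennreal_ofReal
    have : AEStronglyMeasurable (fun x => avg (fun n => Y n x) ((k + 1) ^ 2)) μ := by
      unfold avg
      exact (hmeas _).const_mul _
    exact (this.norm.aemeasurable).pow_const 2
  have hint : ∀ N : ℕ, Integrable (fun x => ‖∑ n ∈ range N, Y n x‖ ^ 2) μ := by
    intro N
    apply Integrable.of_bound ((hmeas N).norm.pow 2) ((N * C) ^ 2)
    filter_upwards [hYb] with x hx
    have hsq : ‖((fun x => ‖∑ n ∈ range N, Y n x‖) ^ 2) x‖ = ‖∑ n ∈ range N, Y n x‖ ^ 2 := by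
      rw [Pi.pow_apply, norm_pow, norm_norm]
    rw [hsq]
    apply pow_le_pow_left₀ (norm_nonneg _)
    calc _ ≤ ∑ n ∈ range N, ‖Y n x‖ := norm_sum_le _ _
      _ ≤ ∑ _n ∈ range N, C := Finset.sum_le_sum fun n _ => hx n
      _ = N * C := by simp
  have hZi : ∀ k : ℕ, ∫⁻ x, Z k x ∂μ ≤ ENNReal.ofReal (|K| * (1 / ((k : ℝ) + 1) ^ 2)) := by
    intro k
    have hpos : (0 : ℝ) < (((k + 1) ^ 2 : ℕ) : ℝ) := by positivity
    have e : ∀ x, Z k x = ENNReal.ofReal
        (((((k + 1) ^ 2 : ℕ) : ℝ)⁻¹) ^ 2 * ‖∑ n ∈ range ((k + 1) ^ 2), Y n x‖ ^ 2) := by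
      intro x
      rw [hZ]
      simp only [avg]
      rw [norm_mul, norm_inv, Complex.norm_natCast, mul_pow]
    simp_rw [e]
    rw [← ofReal_integral_eq_lintegral_ofReal ((hint _).const_mul _)
      (Eventually.of_forall fun x => mul_nonneg (sq_nonneg _) (sq_nonneg _)), integral_const_mul]
    apply ENNReal.ofReal_le_ofReal
    calc _ ≤ ((((k + 1) ^ 2 : ℕ) : ℝ)⁻¹) ^ 2 * (|K| * (((k + 1) ^ 2 : ℕ) : ℝ)) := by
          apply mul_le_mul_of_nonneg_left _ (by positivity)
          exact (hK _).trans (mul_le_mul_of_nonneg_right (le_abs_self K) hpos.le)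
      _ = |K| * (1 / ((k : ℝ) + 1) ^ 2) := by
          push_cast
          field_simp
  have hsum : ∫⁻ x, ∑' k, Z k x ∂μ ≠ ⊤ := by
    rw [lintegral_tsum hZm]
    apply ne_top_of_le_ne_top _ (ENNReal.tsum_le_tsum hZi)
    have hs : Summable fun k : ℕ => |K| * (1 / ((k : ℝ) + 1) ^ 2) := by
      apply Summable.mul_left
      have := (summable_nat_add_iff 1).mpr (Real.summable_one_div_nat_pow.mpr (one_lt_two))
      simpa using this
    rw [← ENNReal.ofReal_tsum_of_nonneg (fun k => by positivity) hs]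
    exact ENNReal.ofReal_ne_top
  have hfin := ae_lt_top' (AEMeasurable.ennreal_tsum hZm) hsum
  filter_upwards [hfin, hYb] with x hx hxb
  apply tendsto_of_squares _ C hxb
  -- the terms tend to zero
  have h1 : Tendsto (fun k => Z k x) atTop (𝓝 0) :=
    ENNReal.tendsto_atTop_zero_of_tsum_ne_top hx.ne
  have h2 : Tendsto (fun k : ℕ => ‖avg (fun n => Y n x) ((k + 1) ^ 2)‖ ^ 2) atTop (𝓝 0) := by
    have h3 := (ENNReal.tendsto_toReal (a := 0) (by simp)).comp h1
    simp only [ENNReal.toReal_zero] at h3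
    refine h3.congr fun k => ?_
    simp only [Function.comp, hZ]
    rw [ENNReal.toReal_ofReal (by positivity)]
  have h4 : Tendsto (fun k : ℕ => ‖avg (fun n => Y n x) ((k + 1) ^ 2)‖) atTop (𝓝 0) := by
    have h5 := (Real.continuous_sqrt.tendsto 0).comp h2
    rw [Real.sqrt_zero] at h5
    refine h5.congr fun k => ?_
    simp only [Function.comp]
    rw [Real.sqrt_sq (norm_nonneg _)]
  have h6 : Tendsto (fun k : ℕ => avg (fun n => Y n x) ((k + 1) ^ 2)) atTop (𝓝 0) :=
    tendsto_zero_iff_norm_tendsto_zero.mpr h4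
  exact (tendsto_add_atTop_iff_nat (f := fun k : ℕ => avg (fun n => Y n x) (k ^ 2)) 1).mp h6

/-! ### Products of several functions -/

lemma ae_iterate_bound (T : X → X) (hT : MeasurePreserving T μ μ) (f : X → ℂ) (hf : MemLp f ∞ μ) :
    ∀ᵐ x ∂μ, ∀ n, ‖f (T^[n] x)‖ ≤ (eLpNorm f ∞ μ).toReal := by
  rw [ae_all_iff]
  intro n
  have h1 : ∀ᵐ x ∂μ, ‖f x‖ ≤ (eLpNorm f ∞ μ).toReal := by
    have h2 := ae_le_eLpNormEssSup (f := f) (μ := μ)
    filter_upwards [h2] with x hx
    rw [← eLpNorm_exponent_top] at hx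
    have := ENNReal.toReal_mono hf.eLpNorm_ne_top hx
    simpa using this
  exact (hT.iterate n).quasiMeasurePreserving.ae h1

/-- The closure principle for products of several functions. -/
theorem multi_closure [IsFiniteMeasure μ] {m : ℕ} (T : Fin m → X → X)
    (hT : ∀ j, MeasurePreserving (T j) μ μ) (D : Set (X → ℂ)) (hD : ∀ φ ∈ D, MemLp φ ∞ μ)
    (hdense : ∀ f : X → ℂ, MemLp f ∞ μ → ∀ ε : ℝ, 0 < ε → ∃ (ι : Type) (s : Finset ι) (c : ι → ℂ)
      (φ : ι → X → ℂ), (∀ i ∈ s, φ i ∈ D) ∧ ∫ x, ‖f x - ∑ i ∈ s, c i * φ i x‖ ∂μ ≤ ε)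
    (hconv : ∀ φ : Fin m → X → ℂ, (∀ j, φ j ∈ D) →
      ∀ᵐ x ∂μ, ∃ L, Tendsto (avg fun n => ∏ j, φ j ((T j)^[n] x)) atTop (𝓝 L))
    (f : Fin m → X → ℂ) (hf : ∀ j, MemLp (f j) ∞ μ) :
    ∀ᵐ x ∂μ, ∃ L, Tendsto (avg fun n => ∏ j, f j ((T j)^[n] x)) atTop (𝓝 L) := by
  classical
  have key : ∀ s : Finset (Fin m), ∀ f : Fin m → X → ℂ, (∀ j ∈ s, MemLp (f j) ∞ μ) →
      (∀ j ∉ s, f j ∈ D) →
      ∀ᵐ x ∂μ, ∃ L, Tendsto (avg fun n => ∏ j, f j ((T j)^[n] x)) atTop (𝓝 L) := by
    intro s
    induction s using Finset.induction_on with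
    | empty =>
      intro f _ h2
      exact hconv f fun j => h2 j (Finset.notMem_empty j)
    | insert a s ha ih =>
      intro f h1 h2
      have hall : ∀ j, MemLp (f j) ∞ μ := by
        intro j
        by_cases hj : j ∈ insert a s
        · exact h1 j hj
        · exact hD _ (h2 j hj)
      set w : ℕ → X → ℂ := fun n x => ∏ j ∈ univ.erase a, f j ((T j)^[n] x) with hw
      have hsplit : ∀ (g : X → ℂ) (x : X) (n : ℕ),
          ∏ j, (Function.update f a g) j ((T j)^[n] x) = w n x * g ((T a)^[n] x) := by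
        intro g x n
        rw [← Finset.mul_prod_erase univ _ (Finset.mem_univ a), Function.update_self, mul_comm]
        congr 1
        apply Finset.prod_congr rfl
        intro j hj
        rw [Function.update_of_ne (Finset.ne_of_mem_erase hj)]
      have hwb : ∀ᵐ x ∂μ, ∀ n, ‖w n x‖ ≤ ∏ j ∈ univ.erase a, (eLpNorm (f j) ∞ μ).toReal := by
        have : ∀ᵐ x ∂μ, ∀ j, ∀ n, ‖f j ((T j)^[n] x)‖ ≤ (eLpNorm (f j) ∞ μ).toReal := by
          rw [ae_all_iff]
          intro j
          exact ae_iterate_bound (T j) (hT j) (f j) (hall j)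
        filter_upwards [this] with x hx n
        rw [hw]
        simp only
        rw [norm_prod]
        exact Finset.prod_le_prod (fun _ _ => norm_nonneg _) fun j _ => hx j n
      have hself : ∀ x n, ∏ j, f j ((T j)^[n] x) = w n x * f a ((T a)^[n] x) := by
        intro x n
        rw [← hsplit, Function.update_eq_self]
      simp_rw [hself]
      apply closure_L1 (T a) (hT a) w _ hwb
      intro ε hε
      obtain ⟨ι, t, c, φ, hφ, hφε⟩ := hdense (f a) (hall a) ε hε
      refine ⟨fun x => ∑ i ∈ t, c i * φ i x, ?_, hφε, ?_⟩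
      · apply Integrable.sub
        · exact (hall a).integrable (by simp)
        · apply integrable_finset_sum
          intro i hi
          exact ((hD _ (hφ i hi)).integrable (by simp)).const_mul _
      · have hi : ∀ i ∈ t, ∀ᵐ x ∂μ, ∃ L,
            Tendsto (avg fun n => w n x * φ i ((T a)^[n] x)) atTop (𝓝 L) := by
          intro i hi
          have := ih (Function.update f a (φ i)) (by
            intro j hj
            have hja : j ≠ a := by
              rintro rfl
              exact ha hj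
            rw [Function.update_of_ne hja]
            exact hall j) (by
            intro j hj
            by_cases hja : j = a
            · subst hja; rw [Function.update_self]; exact hφ i hi
            · rw [Function.update_of_ne hja]
              exact h2 j (by rw [Finset.mem_insert, not_or]; exact ⟨hja, hj⟩))
          simp_rw [hsplit] at this
          exact this
        have hi' : ∀ᵐ x ∂μ, ∀ i ∈ t, ∃ L,
            Tendsto (avg fun n => w n x * φ i ((T a)^[n] x)) atTop (𝓝 L) := by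
          rw [Filter.eventually_all_finset]
          exact hi
        filter_upwards [hi'] with x hx
        choose! L hL using hx
        refine ⟨∑ i ∈ t, c i * L i, ?_⟩
        have e : (avg fun n => w n x * ∑ i ∈ t, c i * φ i ((T a)^[n] x)) =
            fun N => ∑ i ∈ t, c i * avg (fun n => w n x * φ i ((T a)^[n] x)) N := by
          funext N
          unfold avg
          simp_rw [Finset.mul_sum]
          rw [Finset.sum_comm]
          apply Finset.sum_congr rfl
          intro i _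
          apply Finset.sum_congr rfl
          intro n _
          ring
        rw [e]
        apply tendsto_finset_sum
        intro i hi
        exact (hL i hi).const_mul _
  exact key univ f (fun j _ => hf j) (fun j hj => absurd (Finset.mem_univ j) hj)

/-- One sided convergence in both directions gives two sided convergence. -/
theorem two_sided (a : ℤ → ℂ) (L1 L2 : ℂ) (h1 : Tendsto (avg fun n => a n) atTop (𝓝 L1))
    (h2 : Tendsto (avg fun n => a (-(n : ℤ))) atTop (𝓝 L2)) :
    Tendsto (fun N : ℕ => ((2 * N + 1 : ℕ) : ℂ)⁻¹ * ∑ n ∈ Finset.Icc (-(N : ℤ)) (N : ℤ), a n)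
      atTop (𝓝 ((L1 + L2) / 2)) := by
  have hsum : ∀ N : ℕ, ∑ n ∈ Finset.Icc (-(N : ℤ)) (N : ℤ), a n =
      ∑ n ∈ range (N + 1), a n + ∑ n ∈ range (N + 1), a (-(n : ℤ)) - a 0 := by
    intro N
    induction N with
    | zero => simp
    | succ N ih =>
      have e1 : Finset.Icc (-((N + 1 : ℕ) : ℤ)) ((N + 1 : ℕ) : ℤ) =
          insert (-((N + 1 : ℕ) : ℤ)) (insert ((N + 1 : ℕ) : ℤ)
            (Finset.Icc (-(N : ℤ)) (N : ℤ))) := by
        ext z
        simp only [Finset.mem_Icc, Finset.mem_insert]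
        push_cast
        omega
      rw [e1, Finset.sum_insert, Finset.sum_insert, ih, Finset.sum_range_succ _ (N + 1),
        Finset.sum_range_succ _ (N + 1)]
      · push_cast; ring
      · simp only [Finset.mem_Icc]; push_cast; omega
      · simp only [Finset.mem_Icc, Finset.mem_insert]; push_cast; omega
  have h1' : Tendsto (fun N => avg (fun n => a n) (N + 1)) atTop (𝓝 L1) :=
    (tendsto_add_atTop_iff_nat 1).mpr h1
  have h2' : Tendsto (fun N => avg (fun n => a (-(n : ℤ))) (N + 1)) atTop (𝓝 L2) :=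
    (tendsto_add_atTop_iff_nat 1).mpr h2
  have hr : Tendsto (fun N : ℕ => ((N : ℂ) + 1) / (2 * N + 1)) atTop (𝓝 (1 / 2)) := by
    have e : ∀ N : ℕ, ((N : ℂ) + 1) / (2 * N + 1) = 1 / 2 + (1 / 2) * (1 / ((2 * N + 1 : ℕ) : ℂ)) := by
      intro N
      have hne : (2 * (N : ℂ) + 1) ≠ 0 := by
        have : ((2 * N + 1 : ℕ) : ℂ) ≠ 0 := by exact_mod_cast Nat.succ_ne_zero (2 * N)
        push_cast at this
        exact this
      push_cast
      rw [div_eq_iff hne, add_mul, mul_assoc, div_mul_cancel₀ _ hne]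
      ring
    simp_rw [e]
    have h0 : Tendsto (fun N : ℕ => (1 : ℂ) / ((2 * N + 1 : ℕ) : ℂ)) atTop (𝓝 0) := by
      have hc : Tendsto (fun n : ℕ => (1 : ℂ) / (n : ℂ)) atTop (𝓝 0) := by
        simpa using (tendsto_inv_atTop_nhds_zero_nat (𝕜 := ℂ))
      apply hc.comp
      apply tendsto_atTop_mono (fun N : ℕ => (by omega : N ≤ 2 * N + 1))
      exact tendsto_id
    have := (h0.const_mul (1 / 2 : ℂ)).const_add (1 / 2 : ℂ)
    simpa using this
  have h0 : Tendsto (fun N : ℕ => ((2 * N + 1 : ℕ) : ℂ)⁻¹ * a 0) atTop (𝓝 0) := by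
    have hc : Tendsto (fun n : ℕ => (n : ℂ)⁻¹) atTop (𝓝 0) := tendsto_inv_atTop_nhds_zero_nat
    have h3 : Tendsto (fun N : ℕ => ((2 * N + 1 : ℕ) : ℂ)⁻¹) atTop (𝓝 0) := by
      apply hc.comp
      apply tendsto_atTop_mono (fun N : ℕ => (by omega : N ≤ 2 * N + 1))
      exact tendsto_id
    simpa using h3.mul_const (a 0)
  have hfin := (hr.mul (h1'.add h2')).sub h0
  have e : (L1 + L2) / 2 = 1 / 2 * (L1 + L2) - 0 := by ring
  rw [e]
  refine hfin.congr fun N => ?_
  rw [hsum]
  unfold avg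
  have hne : (2 * (N : ℂ) + 1) ≠ 0 := by
    have : ((2 * N + 1 : ℕ) : ℂ) ≠ 0 := by exact_mod_cast Nat.succ_ne_zero (2 * N)
    push_cast at this
    exact this
  have hne2 : ((N : ℂ) + 1) ≠ 0 := by exact_mod_cast Nat.succ_ne_zero N
  push_cast
  field_simp

end Pool.Lib.Erg
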