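import Pool.Agent.Lib.PolyOrbit

set_option autoImplicit false

/-!
# Polynomial functions `ℕ → V` modulo a subgroup

`PD C k p` says that all `k`-fold forward differences of `p : ℕ → V` lie in the subgroup `C`.
`isP_smul` : if a group acts unipotently, the product of a polynomial sequence of the group with a
polynomial function is a polynomial function.
-/

open Finset

namespace Pool.Lib.APoly

open Pool.Lib.PolySeq

variable {V : Type*} [AddCommGroup V]

/-- forward difference -/
def del (p : ℕ → V) : ℕ → V := fun n => p (n + 1) - p n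

/-- all `k`-fold differences lie in `C` -/
def PD (C : AddSubgroup V) : ℕ → (ℕ → V) → Prop
  | 0, p => ∀ n, p n ∈ C
  | k + 1, p => PD C k (del p)

lemma PD_mono {C : AddSubgroup V} {k : ℕ} : ∀ {p : ℕ → V}, PD C k p → PD C (k + 1) p := by
  induction k with
  | zero => intro p hp n; exact C.sub_mem (hp _) (hp _)
  | succ k ih => intro p hp; exact ih hp

lemma PD_le {C : AddSubgroup V} {k l : ℕ} (hkl : k ≤ l) {p : ℕ → V} (hp : PD C k p) :
    PD C l p := by
  induction l, hkl using Nat.le_induction with
  | base => exact hp
  | succ l _ ih => exact PD_mono ih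

lemma PD_subgroup {C C' : AddSubgroup V} (h : C ≤ C') {k : ℕ} : ∀ {p : ℕ → V}, PD C k p →
    PD C' k p := by
  induction k with
  | zero => intro p hp n; exact h (hp n)
  | succ k ih => intro p hp; exact ih hp

lemma PD_add {C : AddSubgroup V} {k : ℕ} : ∀ {p q : ℕ → V}, PD C k p → PD C k q →
    PD C k (fun n => p n + q n) := by
  induction k with
  | zero => intro p q hp hq n; exact C.add_mem (hp n) (hq n)
  | succ k ih =>
    intro p q hp hq
    show PD C k (del fun n => p n + q n)
    have e : (del fun n => p n + q n) = fun n => del p n + del q n := by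
      funext n; simp only [del]; abel
    rw [e]
    exact ih hp hq

lemma PD_map {W : Type*} [AddCommGroup W] {C : AddSubgroup V} {C' : AddSubgroup W} (φ : V →+ W)
    (hφ : ∀ v ∈ C, φ v ∈ C') {k : ℕ} : ∀ {p : ℕ → V}, PD C k p → PD C' k (fun n => φ (p n)) := by
  induction k with
  | zero => intro p hp n; exact hφ _ (hp n)
  | succ k ih =>
    intro p hp
    show PD C' k (del fun n => φ (p n))
    have e : (del fun n => φ (p n)) = fun n => φ (del p n) := by
      funext n; simp only [del, map_sub]
    rw [e]
    exact ih hp

lemma PD_neg {C : AddSubgroup V} {k : ℕ} {p : ℕ → V} (hp : PD C k p) :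
    PD C k (fun n => - p n) :=
  PD_map (-AddMonoidHom.id V) (fun v hv => C.neg_mem hv) hp

lemma PD_sub {C : AddSubgroup V} {k : ℕ} {p q : ℕ → V} (hp : PD C k p) (hq : PD C k q) :
    PD C k (fun n => p n - q n) := by
  have := PD_add hp (PD_neg hq)
  simpa only [sub_eq_add_neg] using this

lemma PD_zero {C : AddSubgroup V} (k : ℕ) : PD C k (fun _ => 0) := by
  induction k with
  | zero => intro n; exact C.zero_mem
  | succ k ih =>
    show PD C k (del fun _ => 0)
    have e : (del fun _ : ℕ => (0 : V)) = fun _ => 0 := by funext n; simp [del]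
    rw [e]; exact ih

lemma PD_const {C : AddSubgroup V} (k : ℕ) (hk : 1 ≤ k) (c : V) : PD C k (fun _ => c) := by
  apply PD_le hk
  intro n
  simp only [del, sub_self]
  exact C.zero_mem

lemma PD_sum {C : AddSubgroup V} {k : ℕ} {J : Type*} (s : Finset J) (p : J → ℕ → V)
    (hp : ∀ j ∈ s, PD C k (p j)) : PD C k (fun n => ∑ j ∈ s, p j n) := by
  classical
  induction s using Finset.induction_on with
  | empty => simpa using PD_zero k
  | insert a s ha ih =>
    have e : (fun n => ∑ j ∈ insert a s, p j n) = fun n => p a n + ∑ j ∈ s, p j n := by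
      funext n; rw [Finset.sum_insert ha]
    rw [e]
    exact PD_add (hp a (mem_insert_self a s)) (ih fun j hj => hp j (mem_insert_of_mem hj))

lemma PD_shift {C : AddSubgroup V} (h : ℕ) {k : ℕ} : ∀ {p : ℕ → V}, PD C k p →
    PD C k (fun n => p (n + h)) := by
  induction k with
  | zero => intro p hp n; exact hp _
  | succ k ih =>
    intro p hp
    show PD C k (del fun n => p (n + h))
    have e : (del fun n => p (n + h)) = fun n => del p (n + h) := by
      funext n; simp only [del]; rw [show n + 1 + h = n + h + 1 by ring]
    rw [e]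
    exact ih hp

lemma PD_diff {C : AddSubgroup V} (h : ℕ) {k : ℕ} {p : ℕ → V} (hp : PD C (k + 1) p) :
    PD C k (fun n => p (n + h) - p n) := by
  induction h with
  | zero =>
    have e : (fun n => p (n + 0) - p n) = fun _ => 0 := by funext n; simp
    rw [e]; exact PD_zero k
  | succ h ih =>
    have e : (fun n => p (n + (h + 1)) - p n) =
        fun n => del p (n + h) + (p (n + h) - p n) := by
      funext n; simp only [del]; rw [show n + (h + 1) = n + h + 1 by ring]; abel
    rw [e]
    exact PD_add (PD_shift h (show PD C k (del p) from hp)) ih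

/-- polynomial functions modulo `C` -/
def IsP (C : AddSubgroup V) (p : ℕ → V) : Prop := ∃ k, PD C k p

lemma IsP.add {C : AddSubgroup V} {p q : ℕ → V} (hp : IsP C p) (hq : IsP C q) :
    IsP C (fun n => p n + q n) := by
  obtain ⟨k, hk⟩ := hp
  obtain ⟨l, hl⟩ := hq
  exact ⟨max k l, PD_add (PD_le (le_max_left _ _) hk) (PD_le (le_max_right _ _) hl)⟩

lemma IsP.neg {C : AddSubgroup V} {p : ℕ → V} (hp : IsP C p) : IsP C (fun n => - p n) := by
  obtain ⟨k, hk⟩ := hp
  exact ⟨k, PD_neg hk⟩

lemma IsP.sub {C : AddSubgroup V} {p q : ℕ → V} (hp : IsP C p) (hq : IsP C q) :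
    IsP C (fun n => p n - q n) := by
  have := hp.add hq.neg
  simpa only [sub_eq_add_neg] using this

lemma IsP.sum {C : AddSubgroup V} {J : Type*} (s : Finset J) (p : J → ℕ → V)
    (hp : ∀ j ∈ s, IsP C (p j)) : IsP C (fun n => ∑ j ∈ s, p j n) := by
  classical
  induction s using Finset.induction_on with
  | empty => exact ⟨0, by intro n; simpa using C.zero_mem⟩
  | insert a s ha ih =>
    have e : (fun n => ∑ j ∈ insert a s, p j n) = fun n => p a n + ∑ j ∈ s, p j n := by
      funext n; rw [Finset.sum_insert ha]
    rw [e]
    exact (hp a (mem_insert_self a s)).add (ih fun j hj => hp j (mem_insert_of_mem hj))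

lemma IsP.const {C : AddSubgroup V} (c : V) : IsP C (fun _ => c) := ⟨1, PD_const 1 le_rfl c⟩

lemma IsP.of_del {C : AddSubgroup V} {p : ℕ → V} (hp : IsP C (del p)) : IsP C p := by
  obtain ⟨k, hk⟩ := hp
  exact ⟨k + 1, hk⟩

/-- Products of polynomial sequences of a unipotent group with polynomial functions. -/
theorem isP_smul {Γ : Type*} [Group Γ] [DistribMulAction Γ V] (F : ℕ → AddSubgroup V)
    (hstab : ∀ i (g : Γ) v, v ∈ F i → g • v ∈ F i)
    (hdrop : ∀ i (g : Γ) v, v ∈ F (i + 1) → g • v - v ∈ F i) :
    ∀ i s (g : ℕ → Γ), Dv s g → ∀ p : ℕ → V, IsP (F 0) p → (∀ n, p n ∈ F i) →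
      IsP (F 0) (fun n => g n • p n) := by
  intro i
  induction i with
  | zero =>
    intro s g _ p _ hv
    exact ⟨0, fun n => hstab 0 _ _ (hv n)⟩
  | succ i ihi =>
    intro s
    induction s with
    | zero =>
      intro g hg p hp _
      have e : (fun n => g n • p n) = p := by
        funext n; rw [hg n, one_smul]
      rw [e]; exact hp
    | succ s ihs =>
      have key : ∀ k (g : ℕ → Γ), Dv (s + 1) g → ∀ p : ℕ → V, PD (F 0) k p →
          (∀ n, p n ∈ F (i + 1)) → IsP (F 0) (fun n => g n • p n) := by
        intro k
        induction k with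
        | zero => intro g _ p hp _; exact ⟨0, fun n => hstab 0 _ _ (hp n)⟩
        | succ k ihk =>
          intro g hg p hp hv
          apply IsP.of_del
          have e : (del fun n => g n • p n) = fun n => g (1 * n + 1) • del p n +
              g n • ((dd 1 g n) • p n - p n) := by
            funext n
            simp only [del, dd, one_mul]
            rw [smul_sub, smul_sub, ← mul_smul (g n), mul_inv_cancel_left]
            abel
          rw [e]
          apply IsP.add
          · exact ihk _ (Dv_affine 1 1 hg) (del p) hp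
              fun n => (F (i + 1)).sub_mem (hv _) (hv _)
          · have hq : IsP (F 0) fun n => (dd 1 g n) • p n - p n :=
              (ihs _ (hg 1) p ⟨k + 1, hp⟩ hv).sub ⟨k + 1, hp⟩
            exact ihi (s + 1) g hg _ hq fun n => hdrop i _ _ (hv n)
      intro g hg p ⟨k, hk⟩ hv
      exact key k g hg p hk hv

/-- Periodic polynomial functions into torsion free groups are constant. -/
lemma const_of_periodic (htf : ∀ m : ℕ, 0 < m → ∀ v : V, m • v = 0 → v = 0) (h : ℕ) (hh : 0 < h)
    {k : ℕ} : ∀ {p : ℕ → V}, PD ⊥ k p → (∀ n, p (n + h) = p n) → ∀ n, p n = p 0 := by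
  induction k with
  | zero =>
    intro p hp _ n
    have h1 := hp n
    have h2 := hp 0
    rw [AddSubgroup.mem_bot] at h1 h2
    rw [h1, h2]
  | succ k ih =>
    intro p hp hper
    have h1 : ∀ n, del p n = del p 0 := by
      apply ih hp
      intro n
      simp only [del]
      rw [show n + h + 1 = n + 1 + h by ring, hper, hper]
    have h2 : ∀ n, p n = p 0 + n • del p 0 := by
      intro n
      induction n with
      | zero => simp
      | succ n ihn =>
        have : p (n + 1) = p n + del p n := by simp only [del]; abel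
        rw [this, h1 n, ihn, succ_nsmul]
        abel
    have h3 : h • del p 0 = 0 := by
      have := hper 0
      rw [zero_add, h2 h] at this
      simpa using this
    have h4 := htf h hh _ h3
    intro n
    rw [h2 n, h4, smul_zero, add_zero]

end Pool.Lib.APoly
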