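import Pool.Agent.Lib.ErgodicAverages2
import Pool.Agent.Lib.APoly

set_option autoImplicit false

/-!
# Weyl sums of polynomial sequences on the circle converge

`weyl` : if `θ : ℕ → ℝ/ℤ` is a polynomial sequence (all `k`-fold differences vanish) then the
averages of `exp(2πi θ n)` converge.
-/

open Filter Topology Finset
open scoped ComplexConjugate

namespace Pool.Lib.Weyl

open Pool.Lib.Erg Pool.Lib.APoly

/-! ### van der Corput's lemma -/

lemma avg_shift_one (a : ℕ → ℂ) (C : ℝ) (ha : ∀ n, ‖a n‖ ≤ C) (L : ℂ)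
    (hL : Tendsto (avg a) atTop (𝓝 L)) : Tendsto (avg fun n => a (n + 1)) atTop (𝓝 L) := by
  have hC : 0 ≤ C := (norm_nonneg _).trans (ha 0)
  have h1 : Tendsto (fun N => avg (fun n => a (n + 1)) N - avg a N) atTop (𝓝 0) := by
    have h2 : Tendsto (fun N : ℕ => 2 * C / (N : ℝ)) atTop (𝓝 0) :=
      tendsto_const_div_atTop_nhds_zero_nat _
    apply squeeze_zero_norm' _ h2
    filter_upwards [eventually_gt_atTop 0] with N hN
    have hN' : (0 : ℝ) < N := by exact_mod_cast hN
    have e : avg (fun n => a (n + 1)) N - avg a N = (N : ℂ)⁻¹ * (a N - a 0) := by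
      unfold avg
      rw [← mul_sub]
      congr 1
      have := Finset.sum_range_succ a N
      rw [Finset.sum_range_succ'] at this
      linear_combination this
    rw [e, norm_mul, norm_inv, Complex.norm_natCast, div_eq_inv_mul]
    gcongr
    calc ‖a N - a 0‖ ≤ ‖a N‖ + ‖a 0‖ := norm_sub_le _ _
      _ ≤ C + C := add_le_add (ha _) (ha _)
      _ = 2 * C := by ring
  have := h1.add hL
  simpa using this

lemma avg_shift (a : ℕ → ℂ) (C : ℝ) (ha : ∀ n, ‖a n‖ ≤ C) (L : ℂ)
    (hL : Tendsto (avg a) atTop (𝓝 L)) (h : ℕ) :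
    Tendsto (avg fun n => a (n + h)) atTop (𝓝 L) := by
  induction h with
  | zero => simpa using hL
  | succ h ih =>
    have := avg_shift_one (fun n => a (n + h)) C (fun n => ha _) L ih
    refine this.congr fun N => ?_
    congr 1
    funext n
    congr 1
    ring

lemma avg_sum {ι : Type*} (s : Finset ι) (b : ι → ℕ → ℂ) (N : ℕ) :
    avg (fun n => ∑ i ∈ s, b i n) N = ∑ i ∈ s, avg (b i) N := by
  unfold avg
  rw [Finset.sum_comm, Finset.mul_sum]

lemma avg_mul_left (c : ℂ) (a : ℕ → ℂ) (N : ℕ) : avg (fun n => c * a n) N = c * avg a N := by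
  unfold avg
  rw [← Finset.mul_sum]
  ring

/-- Cauchy–Schwarz for averages -/
lemma norm_avg_sq_le (a : ℕ → ℂ) (N : ℕ) :
    ‖avg a N‖ ^ 2 ≤ ‖avg (fun n => a n * conj (a n)) N‖ := by
  rcases Nat.eq_zero_or_pos N with h | h
  · subst h; simp [avg]
  have hN : (0 : ℝ) < N := by exact_mod_cast h
  have e : avg (fun n => a n * conj (a n)) N = (((N : ℝ)⁻¹ * ∑ n ∈ range N, ‖a n‖ ^ 2 : ℝ) : ℂ) := by
    unfold avg
    push_cast
    congr 1
    apply Finset.sum_congr rfl
    intro n _
    rw [Complex.mul_conj, Complex.normSq_eq_norm_sq]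
    push_cast
    rfl
  have hnn : 0 ≤ (N : ℝ)⁻¹ * ∑ n ∈ range N, ‖a n‖ ^ 2 := by positivity
  rw [e, Complex.norm_real, Real.norm_of_nonneg hnn]
  have h1 : ‖avg a N‖ ≤ (N : ℝ)⁻¹ * ∑ n ∈ range N, ‖a n‖ := avg_norm_le a N
  have h2 : (∑ n ∈ range N, ‖a n‖) ^ 2 ≤ N * ∑ n ∈ range N, ‖a n‖ ^ 2 := by
    have := sq_sum_le_card_mul_sum_sq (s := range N) (f := fun n => ‖a n‖)
    simpa using this
  calc ‖avg a N‖ ^ 2 ≤ ((N : ℝ)⁻¹ * ∑ n ∈ range N, ‖a n‖) ^ 2 := by
        apply pow_le_pow_left₀ (norm_nonneg _) h1
    _ = (N : ℝ)⁻¹ ^ 2 * (∑ n ∈ range N, ‖a n‖) ^ 2 := by ring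
    _ ≤ (N : ℝ)⁻¹ ^ 2 * (N * ∑ n ∈ range N, ‖a n‖ ^ 2) := by gcongr
    _ = (N : ℝ)⁻¹ * ∑ n ∈ range N, ‖a n‖ ^ 2 := by field_simp

/-- **van der Corput's lemma** -/
theorem vdc (a : ℕ → ℂ) (ha : ∀ n, ‖a n‖ = 1)
    (hc : ∀ h, 0 < h → Tendsto (avg fun n => a (n + h) * conj (a n)) atTop (𝓝 0)) :
    Tendsto (avg a) atTop (𝓝 0) := by
  have hcorr : ∀ h h' : ℕ, Tendsto (avg fun n => a (n + h) * conj (a (n + h'))) atTop
      (𝓝 (if h = h' then 1 else 0)) := by
    intro h h'
    rcases lt_trichotomy h h' with hlt | heq | hgt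
    · rw [if_neg hlt.ne]
      have h1 := avg_shift _ 1 (fun n => by simp [ha]) 0 (hc (h' - h) (by omega)) h
      have h2 := (Complex.continuous_conj.tendsto 0).comp h1
      rw [map_zero] at h2
      refine h2.congr fun N => ?_
      simp only [Function.comp, avg]
      rw [map_mul, map_sum]
      congr 1
      · simp
      · apply Finset.sum_congr rfl
        intro n _
        rw [map_mul, Complex.conj_conj, mul_comm]
        rw [show n + h + (h' - h) = n + h' by omega]
    · subst heq
      rw [if_pos rfl]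
      have e : (fun n => a (n + h) * conj (a (n + h))) = fun _ => (1 : ℂ) := by
        funext n
        rw [Complex.mul_conj, Complex.normSq_eq_norm_sq, ha]
        simp
      rw [e]
      exact avg_const 1
    · rw [if_neg hgt.ne']
      have h1 := avg_shift _ 1 (fun n => by simp [ha]) 0 (hc (h - h') (by omega)) h'
      refine h1.congr fun N => ?_
      congr 1
      funext n
      rw [show n + h' + (h - h') = n + h by omega]
  have key : ∀ H : ℕ, 0 < H → ∀ δ : ℝ, 0 < δ → ∀ᶠ N in atTop, ‖avg a N‖ ≤
      δ + Real.sqrt (1 / H + δ) := by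
    intro H hH δ hδ
    have hH' : (H : ℂ) ≠ 0 := by exact_mod_cast hH.ne'
    have hHR : (0 : ℝ) < H := by exact_mod_cast hH
    -- smoothing
    have h1 : Tendsto (fun N => avg a N - avg (fun n => (H : ℂ)⁻¹ * ∑ h ∈ range H, a (n + h)) N)
        atTop (𝓝 0) := by
      have h2 : ∀ h, Tendsto (fun N => avg a N - avg (fun n => a (n + h)) N) atTop (𝓝 0) := by
        intro h
        induction h with
        | zero => simpa using tendsto_const_nhds
        | succ h ih =>
          have h3 : Tendsto (fun N => avg (fun n => a (n + h)) N - avg (fun n => a (n + (h + 1))) N)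
              atTop (𝓝 0) := by
            have h4 : Tendsto (fun N : ℕ => 2 / (N : ℝ)) atTop (𝓝 0) :=
              tendsto_const_div_atTop_nhds_zero_nat _
            apply squeeze_zero_norm' _ h4
            filter_upwards [eventually_gt_atTop 0] with N hN
            have hN' : (0 : ℝ) < N := by exact_mod_cast hN
            have e : avg (fun n => a (n + h)) N - avg (fun n => a (n + (h + 1))) N =
                (N : ℂ)⁻¹ * (a h - a (N + h)) := by
              unfold avg
              rw [← mul_sub]
              congr 1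
              have := Finset.sum_range_succ (fun n => a (n + h)) N
              rw [Finset.sum_range_succ'] at this
              simp only [Nat.zero_add] at this
              have e2 : ∑ n ∈ range N, a (n + 1 + h) = ∑ n ∈ range N, a (n + (h + 1)) := by
                apply Finset.sum_congr rfl
                intro n _
                congr 1
                ring
              rw [e2] at this
              linear_combination -this
            rw [e, norm_mul, norm_inv, Complex.norm_natCast, div_eq_inv_mul]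
            gcongr
            calc ‖a h - a (N + h)‖ ≤ ‖a h‖ + ‖a (N + h)‖ := norm_sub_le _ _
              _ = 2 := by rw [ha, ha]; norm_num
          have := ih.add h3
          rw [add_zero] at this
          refine this.congr fun N => ?_
          ring
      have h5 : Tendsto (fun N => (H : ℂ)⁻¹ * ∑ h ∈ range H,
          (avg a N - avg (fun n => a (n + h)) N)) atTop (𝓝 0) := by
        have := (tendsto_finset_sum (range H) fun h _ => h2 h).const_mul (H : ℂ)⁻¹
        simpa using this
      refine h5.congr fun N => ?_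
      rw [avg_mul_left, avg_sum, Finset.sum_sub_distrib, Finset.sum_const, card_range,
        nsmul_eq_mul, mul_sub, inv_mul_cancel_left₀ hH']
    -- the second moment
    have h6 : Tendsto (fun N => avg (fun n => ((H : ℂ)⁻¹ * ∑ h ∈ range H, a (n + h)) *
        conj ((H : ℂ)⁻¹ * ∑ h ∈ range H, a (n + h))) N) atTop (𝓝 ((H : ℂ)⁻¹)) := by
      have h7 : Tendsto (fun N => (H : ℂ)⁻¹ ^ 2 * ∑ h ∈ range H, ∑ h' ∈ range H,
          avg (fun n => a (n + h) * conj (a (n + h'))) N) atTop
          (𝓝 ((H : ℂ)⁻¹ ^ 2 * ∑ h ∈ range H, ∑ h' ∈ range H, (if h = h' then 1 else 0))) := by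
        apply Tendsto.const_mul
        exact tendsto_finset_sum _ fun h _ => tendsto_finset_sum _ fun h' _ => hcorr h h'
      have e8 : (H : ℂ)⁻¹ ^ 2 * ∑ h ∈ range H, ∑ h' ∈ range H, (if h = h' then (1 : ℂ) else 0) =
          (H : ℂ)⁻¹ := by
        have : ∀ h ∈ range H, ∑ h' ∈ range H, (if h = h' then (1 : ℂ) else 0) = 1 := by
          intro h hh
          rw [Finset.sum_ite_eq, if_pos hh]
        rw [Finset.sum_congr rfl this]
        simp only [Finset.sum_const, card_range, nsmul_eq_mul, mul_one]
        field_simp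
      rw [e8] at h7
      refine h7.congr fun N => ?_
      simp_rw [← avg_sum]
      rw [← avg_mul_left]
      congr 1
      funext n
      rw [map_mul, map_inv₀, map_natCast, map_sum, mul_mul_mul_comm, Finset.sum_mul_sum]
      ring
    have h9 : ∀ᶠ N in atTop, ‖avg a N - avg (fun n => (H : ℂ)⁻¹ * ∑ h ∈ range H, a (n + h)) N‖ < δ := by
      have := h1.norm
      rw [norm_zero] at this
      exact this.eventually (gt_mem_nhds hδ)
    have h10 : ∀ᶠ N in atTop, ‖avg (fun n => ((H : ℂ)⁻¹ * ∑ h ∈ range H, a (n + h)) *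
        conj ((H : ℂ)⁻¹ * ∑ h ∈ range H, a (n + h))) N‖ < 1 / H + δ := by
      have := h6.norm
      rw [norm_inv, Complex.norm_natCast] at this
      apply this.eventually (gt_mem_nhds _)
      rw [one_div]
      linarith
    filter_upwards [h9, h10] with N h9 h10
    have h11 := (norm_avg_sq_le (fun n => (H : ℂ)⁻¹ * ∑ h ∈ range H, a (n + h)) N).trans h10.le
    have h12 := Real.le_sqrt_of_sq_le h11
    calc ‖avg a N‖ = ‖(avg a N - avg (fun n => (H : ℂ)⁻¹ * ∑ h ∈ range H, a (n + h)) N) +
          avg (fun n => (H : ℂ)⁻¹ * ∑ h ∈ range H, a (n + h)) N‖ := by rw [sub_add_cancel]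
      _ ≤ _ := norm_add_le _ _
      _ ≤ δ + Real.sqrt (1 / H + δ) := add_le_add h9.le h12
  rw [Metric.tendsto_atTop]
  intro ε hε
  obtain ⟨H, hH⟩ := exists_nat_gt (16 / ε ^ 2)
  have hH0 : (0 : ℝ) < H := lt_trans (by positivity) hH
  have hHn : 0 < H := by exact_mod_cast hH0
  have hH1 : 1 / (H : ℝ) ≤ ε ^ 2 / 16 := by
    rw [div_lt_iff₀ (by positivity)] at hH
    rw [div_le_div_iff₀ hH0 (by norm_num)]
    linarith
  obtain ⟨N0, hN0⟩ := eventually_atTop.1 (key H hHn (min (ε / 4) (ε ^ 2 / 16)) (by positivity))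
  refine ⟨N0, fun N hN => ?_⟩
  rw [dist_zero_right]
  refine (hN0 N hN).trans_lt ?_
  have h1 : Real.sqrt (1 / H + min (ε / 4) (ε ^ 2 / 16)) ≤ ε / 2 := by
    apply Real.sqrt_le_iff.2 ⟨by positivity, ?_⟩
    have := min_le_right (ε / 4) (ε ^ 2 / 16)
    nlinarith [sq_nonneg ε]
  have h2 := min_le_left (ε / 4) (ε ^ 2 / 16)
  linarith

/-! ### Geometric sums -/

/-- the standard character of the circle -/
noncomputable def e (t : UnitAddCircle) : ℂ := (AddCircle.toCircle t : Circle)

lemma norm_e (t : UnitAddCircle) : ‖e t‖ = 1 := Circle.norm_coe _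

lemma e_add (s t : UnitAddCircle) : e (s + t) = e s * e t := by
  unfold e
  rw [AddCircle.toCircle_add]
  rfl

lemma e_zero : e 0 = 1 := by
  unfold e
  rw [AddCircle.toCircle_zero]
  rfl

lemma e_neg (t : UnitAddCircle) : e (-t) = conj (e t) := by
  unfold e
  rw [AddCircle.toCircle_neg, Circle.coe_inv_eq_conj]

lemma e_sub (s t : UnitAddCircle) : e (s - t) = e s * conj (e t) := by
  rw [sub_eq_add_neg, e_add, e_neg]

lemma e_nsmul (n : ℕ) (t : UnitAddCircle) : e (n • t) = e t ^ n := by
  unfold e
  rw [AddCircle.toCircle_nsmul]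
  rfl

lemma e_eq_one {t : UnitAddCircle} (h : e t = 1) : t = 0 := by
  apply AddCircle.injective_toCircle (T := (1 : ℝ)) one_ne_zero
  rw [AddCircle.toCircle_zero]
  apply Subtype.ext
  exact h

lemma geom {z : ℂ} (hz : ‖z‖ = 1) (h1 : z ≠ 1) (c : ℂ) :
    Tendsto (avg fun n => c * z ^ n) atTop (𝓝 0) := by
  have hz1 : 0 < ‖z - 1‖ := norm_pos_iff.2 (sub_ne_zero.2 h1)
  have h4 : Tendsto (fun N : ℕ => (‖c‖ * (2 / ‖z - 1‖)) / (N : ℝ)) atTop (𝓝 0) :=
    tendsto_const_div_atTop_nhds_zero_nat _
  apply squeeze_zero_norm' _ h4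
  filter_upwards [eventually_gt_atTop 0] with N hN
  have hN' : (0 : ℝ) < N := by exact_mod_cast hN
  unfold avg
  rw [← Finset.mul_sum, geom_sum_eq h1, norm_mul, norm_inv, Complex.norm_natCast, norm_mul, norm_div,
    div_eq_inv_mul (‖c‖ * (2 / ‖z - 1‖))]
  gcongr
  calc ‖z ^ N - 1‖ ≤ ‖z ^ N‖ + ‖(1 : ℂ)‖ := norm_sub_le _ _
    _ = 2 := by rw [norm_pow, hz, one_pow, norm_one]; norm_num

/-! ### Differences -/

variable {V : Type*} [AddCommGroup V]

/-- iterated differences -/
def itd (k : ℕ) (p : ℕ → V) : ℕ → V := (del^[k]) p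

lemma itd_zero (p : ℕ → V) : itd 0 p = p := rfl

lemma itd_succ (k : ℕ) (p : ℕ → V) : itd (k + 1) p = itd k (del p) := by
  unfold itd
  rw [Function.iterate_succ_apply]

lemma PD_iff (k : ℕ) : ∀ p : ℕ → V, PD ⊥ k p ↔ ∀ n, itd k p n = 0 := by
  induction k with
  | zero => intro p; simp [PD, itd_zero]
  | succ k ih => intro p; rw [itd_succ, ← ih]; rfl

lemma itd_add (k : ℕ) : ∀ p q : ℕ → V, itd k (fun n => p n + q n) = fun n => itd k p n + itd k q n := by
  induction k with
  | zero => intro p q; rfl
  | succ k ih =>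
    intro p q
    rw [itd_succ, itd_succ, itd_succ, ← ih]
    congr 1
    funext n
    simp only [del]
    abel

lemma itd_zero_fun (k : ℕ) : itd k (fun _ => (0 : V)) = fun _ => 0 := by
  induction k with
  | zero => rfl
  | succ k ih =>
    rw [itd_succ]
    have : (del fun _ : ℕ => (0 : V)) = fun _ => 0 := by funext n; simp [del]
    rw [this, ih]

lemma itd_sum (k : ℕ) (s : Finset ℕ) (p : ℕ → ℕ → V) :
    itd k (fun n => ∑ i ∈ s, p i n) = fun n => ∑ i ∈ s, itd k (p i) n := by
  classical
  induction s using Finset.induction_on with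
  | empty => simpa using itd_zero_fun k
  | insert a s ha ih =>
    have e : (fun n => ∑ i ∈ insert a s, p i n) = fun n => p a n + ∑ i ∈ s, p i n := by
      funext n; rw [Finset.sum_insert ha]
    rw [e, itd_add, ih]
    funext n
    rw [Finset.sum_insert ha]

lemma itd_shift (h k : ℕ) : ∀ p : ℕ → V, itd k (fun n => p (n + h)) = fun n => itd k p (n + h) := by
  induction k with
  | zero => intro p; rfl
  | succ k ih =>
    intro p
    rw [itd_succ, itd_succ, ← ih]
    congr 1
    funext n
    simp only [del]
    rw [show n + 1 + h = n + h + 1 by ring]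

lemma tele (p : ℕ → V) (n h : ℕ) : p (n + h) - p n = ∑ i ∈ range h, del p (n + i) := by
  induction h with
  | zero => simp
  | succ h ih =>
    rw [Finset.sum_range_succ, ← ih]
    simp only [del]
    rw [show n + (h + 1) = n + h + 1 by ring]
    abel

/-- the leading coefficient of `p (n + h) - p n` -/
lemma itd_diff (k h : ℕ) (β : V) (p : ℕ → V) (hp : ∀ n, itd (k + 1) p n = β) (n : ℕ) :
    itd k (fun n => p (n + h) - p n) n = h • β := by
  have e : (fun n => p (n + h) - p n) = fun n => ∑ i ∈ range h, del p (n + i) := by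
    funext n; exact tele p n h
  rw [e, itd_sum]
  have : ∀ i ∈ range h, itd k (fun n => del p (n + i)) n = β := by
    intro i _
    rw [itd_shift i k (del p), ← itd_succ]
    exact hp _
  show ∑ i ∈ range h, itd k (fun n => del p (n + i)) n = h • β
  rw [Finset.sum_congr rfl this]
  simp

/-- the leading coefficient along a residue class -/
lemma itd_residue (q k : ℕ) (β : V) : ∀ (p : ℕ → V), (∀ n, itd k p n = β) → ∀ r n,
    itd k (fun n => p (q * n + r)) n = q ^ k • β := by
  induction k with
  | zero => intro p hp r n; simpa [itd_zero] using hp _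
  | succ k ih =>
    intro p hp r n
    rw [itd_succ]
    have e : (del fun n => p (q * n + r)) = fun n => ∑ i ∈ range q, del p (q * n + (r + i)) := by
      funext n
      have := tele p (q * n + r) q
      simp only [del] at this ⊢
      rw [show q * (n + 1) + r = q * n + r + q by ring, this]
      apply Finset.sum_congr rfl
      intro i _
      rw [show q * n + r + i = q * n + (r + i) by ring]
    rw [e, itd_sum]
    have : ∀ i ∈ range q, itd k (fun n => del p (q * n + (r + i))) n = q ^ k • β :=
      fun i _ => ih (del p) (fun n => by rw [← itd_succ]; exact hp n) (r + i) n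
    show ∑ i ∈ range q, itd k (fun n => del p (q * n + (r + i))) n = q ^ (k + 1) • β
    rw [Finset.sum_congr rfl this]
    simp only [Finset.sum_const, card_range, smul_smul]
    congr 1
    ring

/-! ### Weyl's theorem -/

/-- nontorsion leading coefficient -/
lemma weyl_zero (k : ℕ) : ∀ (β : UnitAddCircle), (∀ m : ℕ, 0 < m → m • β ≠ 0) →
    ∀ θ : ℕ → UnitAddCircle, (∀ n, itd (k + 1) θ n = β) →
    Tendsto (avg fun n => e (θ n)) atTop (𝓝 0) := by
  induction k with
  | zero =>
    intro β hβ θ hθ
    have h1 : ∀ n, θ n = θ 0 + n • β := by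
      intro n
      induction n with
      | zero => simp
      | succ n ih =>
        have := hθ n
        rw [itd_succ, itd_zero] at this
        simp only [del] at this
        rw [succ_nsmul, ← add_assoc, ← ih, ← this]
        abel
    have e1 : (fun n => e (θ n)) = fun n => e (θ 0) * e β ^ n := by
      funext n
      rw [h1 n, e_add, e_nsmul]
    rw [e1]
    apply geom (norm_e β)
    intro h
    apply hβ 1 one_pos
    rw [one_smul]
    exact e_eq_one h
  | succ k ih =>
    intro β hβ θ hθ
    apply vdc _ (fun n => norm_e _)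
    intro h hh
    have h1 := ih (h • β) (fun m hm => by
      rw [smul_smul]
      exact hβ _ (Nat.mul_pos hm hh)) (fun n => θ (n + h) - θ n)
      (fun n => itd_diff (k + 1) h β θ hθ n)
    refine h1.congr fun N => ?_
    congr 1
    funext n
    exact e_sub _ _

/-- **Weyl's theorem** -/
theorem weyl (k : ℕ) : ∀ θ : ℕ → UnitAddCircle, PD ⊥ k θ →
    ∃ L, Tendsto (avg fun n => e (θ n)) atTop (𝓝 L) := by
  induction k with
  | zero =>
    intro θ hθ
    refine ⟨1, ?_⟩
    have e1 : (fun n => e (θ n)) = fun _ => 1 := by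
      funext n
      have := hθ n
      rw [AddSubgroup.mem_bot] at this
      rw [this, e_zero]
    rw [e1]
    exact avg_const 1
  | succ k ih =>
    intro θ hθ
    rw [PD_iff] at hθ
    -- the `k`-th difference is constant
    have hconst : ∀ n, itd k θ n = itd k θ 0 := by
      intro n
      induction n with
      | zero => rfl
      | succ n ihn =>
        have h1 := hθ n
        have h2 : itd (k + 1) θ n = itd k θ (n + 1) - itd k θ n := by
          rw [itd_succ]
          have e1 : itd k (del θ) = fun n => itd k θ (n + 1) - itd k θ n := by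
            have h3 := itd_add k (del θ) θ
            have h4 : (fun n => del θ n + θ n) = fun n => θ (n + 1) := by
              funext n; simp [del]
            rw [h4, itd_shift 1 k θ] at h3
            funext n
            have := congrFun h3 n
            rw [this]
            abel
          rw [e1]
        rw [h2, sub_eq_zero] at h1
        rw [h1, ihn]
    by_cases htor : ∃ m : ℕ, 0 < m ∧ m • itd k θ 0 = 0
    · obtain ⟨m, hm, hm0⟩ := htor
      rcases Nat.eq_zero_or_pos k with hk | hk
      · subst hk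
        refine ⟨e (θ 0), ?_⟩
        have e1 : (fun n => e (θ n)) = fun _ => e (θ 0) := by
          funext n
          have := hconst n
          rw [itd_zero] at this
          rw [this]
        rw [e1]
        exact avg_const _
      · apply avg_residue _ 1 (fun n => (norm_e _).le) m hm
        intro r _
        apply ih
        rw [PD_iff]
        intro n
        rw [itd_residue m k (itd k θ 0) θ hconst r n]
        obtain ⟨j, rfl⟩ : ∃ j, k = j + 1 := ⟨k - 1, by omega⟩
        rw [pow_succ, mul_smul, hm0, smul_zero]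
    · push Not at htor
      rcases Nat.eq_zero_or_pos k with hk | hk
      · subst hk
        refine ⟨e (θ 0), ?_⟩
        have e1 : (fun n => e (θ n)) = fun _ => e (θ 0) := by
          funext n
          have := hconst n
          rw [itd_zero] at this
          rw [this]
        rw [e1]
        exact avg_const _
      · obtain ⟨j, rfl⟩ : ∃ j, k = j + 1 := ⟨k - 1, by omega⟩
        exact ⟨0, weyl_zero j _ htor θ hconst⟩

end Pool.Lib.Weyl
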