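import Mathlib

/-!
Hurwitz's theorem on zeros of locally uniform limits, its version for injective functions, and
basic facts about injective holomorphic functions (nonvanishing derivative, holomorphic inverse).
-/

set_option autoImplicit false

open Set Filter Metric Complex
open scoped Topology

namespace Pool.Agent.Lib.Hurwitz

variable {ι : Type*} {p : Filter ι} {F : ι → ℂ → ℂ} {f : ℂ → ℂ} {U : Set ℂ}

/-- **Hurwitz's theorem**, local form. If `F n → f` locally uniformly on the open set `U`, the
`F n` are holomorphic on `U`, `f a = 0` and `f` is not identically zero near `a ∈ U`, then each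
neighbourhood of `a` contains a zero of `F n` for all large `n`. -/
theorem eventually_exists_zero (hU : IsOpen U)
    (hlim : TendstoLocallyUniformlyOn F f p U) (hF : ∀ᶠ n in p, DifferentiableOn ℂ (F n) U)
    {a : ℂ} (ha : a ∈ U) (hfa : f a = 0) (hnz : ∃ᶠ z in 𝓝 a, f z ≠ 0)
    {V : Set ℂ} (hV : V ∈ 𝓝 a) : ∀ᶠ n in p, ∃ z ∈ V, F n z = 0 := by
  rcases p.eq_or_neBot with rfl | hne
  · simp
  have hfd : DifferentiableOn ℂ f U := hlim.differentiableOn hF hU
  have hfan : AnalyticAt ℂ f a := hfd.analyticAt (hU.mem_nhds ha)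
  have h1 : ∀ᶠ z in 𝓝[≠] a, f z ≠ 0 :=
    hfan.eventually_eq_zero_or_eventually_ne_zero.resolve_left
      (fun h => hnz (h.mono fun z hz => by simpa using hz))
  have h2 : ∀ᶠ z in 𝓝 a, (z ≠ a → f z ≠ 0) ∧ z ∈ U ∧ z ∈ V := by
    filter_upwards [eventually_nhdsWithin_iff.mp h1, hU.mem_nhds ha, hV] with z hz h3 h4
    exact ⟨fun h => hz h, h3, h4⟩
  obtain ⟨r, hr, hball⟩ := nhds_basis_closedBall.mem_iff.mp h2
  have hballU : closedBall a r ⊆ U := fun z hz => (hball hz).2.1
  have hsph : (sphere a r).Nonempty := NormedSpace.sphere_nonempty.mpr hr.le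
  have hcont : ContinuousOn (fun z => ‖f z‖) (sphere a r) :=
    continuous_norm.comp_continuousOn
      (hfd.continuousOn.mono (sphere_subset_closedBall.trans hballU))
  obtain ⟨x, hx, hmin⟩ := (isCompact_sphere a r).exists_isMinOn hsph hcont
  set ε := ‖f x‖ with hε
  have hε0 : 0 < ε := by
    rw [hε, norm_pos_iff]
    exact (hball (sphere_subset_closedBall hx)).1 (ne_of_mem_sphere hx hr.ne')
  have hmin' : ∀ z ∈ sphere a r, ε ≤ ‖f z‖ := fun z hz => hmin hz
  have hunif : ∀ᶠ n in p, ∀ z ∈ closedBall a r, dist (f z) (F n z) < ε / 4 := by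
    have := (tendstoLocallyUniformlyOn_iff_forall_isCompact hU).mp hlim (closedBall a r) hballU
      (isCompact_closedBall a r)
    exact Metric.tendstoUniformlyOn_iff.mp this (ε / 4) (by positivity)
  filter_upwards [hunif, hF] with n hn hFn
  by_contra hcon
  push Not at hcon
  have hne0 : ∀ z ∈ closure (ball a r), F n z ≠ 0 := by
    intro z hz
    rw [closure_ball a hr.ne'] at hz
    exact hcon z (hball hz).2.2
  have hd : DiffContOnCl ℂ (F n) (ball a r) := by
    apply DifferentiableOn.diffContOnCl
    rw [closure_ball a hr.ne']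
    exact hFn.mono hballU
  have hd' : DiffContOnCl ℂ (fun z => (F n z)⁻¹) (ball a r) := hd.inv hne0
  have hfr : ∀ z ∈ frontier (ball a r), ‖(F n z)⁻¹‖ ≤ (3 * ε / 4)⁻¹ := by
    intro z hz
    rw [frontier_ball a hr.ne'] at hz
    rw [norm_inv]
    apply inv_anti₀ (by positivity)
    have h3 := hn z (sphere_subset_closedBall hz)
    rw [dist_eq_norm] at h3
    have h4 := hmin' z hz
    have h5 : ‖f z‖ ≤ ‖f z - F n z‖ + ‖F n z‖ := by
      simpa using norm_add_le (f z - F n z) (F n z)
    linarith
  have key := Complex.norm_le_of_forall_mem_frontier_norm_le isBounded_ball hd' hfr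
    (subset_closure (mem_ball_self hr))
  have h6 := hn a (mem_closedBall_self hr.le)
  rw [hfa, dist_zero_left] at h6
  have h7 : F n a ≠ 0 := hne0 a (subset_closure (mem_ball_self hr))
  rw [norm_inv] at key
  have h8 : 3 * ε / 4 ≤ ‖F n a‖ := by
    rwa [inv_le_inv₀ (norm_pos_iff.mpr h7) (by positivity)] at key
  linarith

/-- **Hurwitz's theorem**, global form. A locally uniform limit, on a connected open set, of
nowhere vanishing holomorphic functions either vanishes nowhere or vanishes identically. -/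
theorem forall_ne_zero_or_eqOn_zero (hU : IsOpen U) (hUc : IsPreconnected U)
    (hlim : TendstoLocallyUniformlyOn F f p U) (hF : ∀ᶠ n in p, DifferentiableOn ℂ (F n) U)
    (hne : ∃ᶠ n in p, ∀ z ∈ U, F n z ≠ 0) :
    (∀ z ∈ U, f z ≠ 0) ∨ EqOn f 0 U := by
  by_contra hcon
  push Not at hcon
  obtain ⟨⟨a, ha, hfa⟩, hnot⟩ := hcon
  have hpne : p.NeBot := ⟨fun h => by simp [h] at hne⟩
  have hfd : DifferentiableOn ℂ f U := hlim.differentiableOn hF hU
  have hfan : AnalyticOnNhd ℂ f U := hfd.analyticOnNhd hU
  have hnz : ∃ᶠ z in 𝓝 a, f z ≠ 0 := by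
    intro h
    apply hnot
    apply hfan.eqOn_zero_of_preconnected_of_eventuallyEq_zero hUc ha
    filter_upwards [h] with z hz
    simpa using hz
  obtain ⟨n, hn1, z, hz, hn2⟩ := (hne.and_eventually
    (eventually_exists_zero hU hlim hF ha hfa hnz (hU.mem_nhds ha))).exists
  exact hn1 z hz hn2

/-- **Hurwitz's theorem** for injective functions. A locally uniform limit, on a connected open
set, of injective holomorphic functions is either injective or constant. -/
theorem injOn_or_eqOn_const (hU : IsOpen U) (hUc : IsPreconnected U)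
    (hlim : TendstoLocallyUniformlyOn F f p U) (hF : ∀ᶠ n in p, DifferentiableOn ℂ (F n) U)
    (hinj : ∃ᶠ n in p, InjOn (F n) U) :
    InjOn f U ∨ ∃ c, ∀ z ∈ U, f z = c := by
  by_contra hcon
  push Not at hcon
  obtain ⟨hninj, hnconst⟩ := hcon
  have hpne : p.NeBot := ⟨fun h => by simp [h] at hinj⟩
  have hfd : DifferentiableOn ℂ f U := hlim.differentiableOn hF hU
  have hfan : AnalyticOnNhd ℂ f U := hfd.analyticOnNhd hU
  simp only [InjOn, not_forall] at hninj
  obtain ⟨a, ha, b, hb, hab, hne⟩ := hninj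
  obtain ⟨r, hr, hball⟩ : ∃ r > 0, ball b r ⊆ U ∩ {a}ᶜ := by
    apply Metric.isOpen_iff.mp (hU.inter isOpen_compl_singleton)
    exact ⟨hb, fun h => hne h.symm⟩
  have hbU : ball b r ⊆ U := fun z hz => (hball hz).1
  have hlim' : TendstoLocallyUniformlyOn (fun n z => F n z - F n a) (fun z => f z - f a) p
      (ball b r) := by
    have h1 := hlim.mono hbU
    have h2 : Tendsto (fun n => F n a) p (𝓝 (f a)) := hlim.tendsto_at ha
    rw [Metric.tendstoLocallyUniformlyOn_iff] at h1 ⊢
    intro ε hε z hz
    obtain ⟨t, ht, h3⟩ := h1 (ε / 2) (by positivity) z hz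
    refine ⟨t, ht, ?_⟩
    filter_upwards [h3, Metric.tendsto_nhds.mp h2 (ε / 2) (by positivity)] with n h4 h5 y hy
    have h6 := h4 y hy
    rw [dist_eq_norm] at h5 h6 ⊢
    have : f y - f a - (F n y - F n a) = (f y - F n y) + (F n a - f a) := by ring
    rw [this]
    calc _ ≤ ‖f y - F n y‖ + ‖F n a - f a‖ := norm_add_le _ _
      _ < ε := by linarith
  have hF' : ∀ᶠ n in p, DifferentiableOn ℂ (fun z => F n z - F n a) (ball b r) := by
    filter_upwards [hF] with n hn
    exact (hn.mono hbU).sub_const _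
  have hne' : ∃ᶠ n in p, ∀ z ∈ ball b r, F n z - F n a ≠ 0 := by
    refine hinj.mono fun n hn z hz h => ?_
    exact (hball hz).2 (hn (hbU hz) ha (sub_eq_zero.mp h))
  rcases forall_ne_zero_or_eqOn_zero isOpen_ball (convex_ball b r).isPreconnected hlim' hF' hne'
    with h | h
  · exact h b (mem_ball_self hr) (by rw [hab, sub_self])
  · obtain ⟨z, hz, hz'⟩ := hnconst (f a)
    apply hz'
    have h7 : f =ᶠ[𝓝 b] fun _ => f a := by
      filter_upwards [ball_mem_nhds b hr] with z hz
      exact sub_eq_zero.mp (h hz)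
    exact hfan.eqOn_of_preconnected_of_eventuallyEq analyticOnNhd_const hUc hb h7 hz

/-! ### Injective holomorphic functions -/

/-- An injective holomorphic function has nonvanishing derivative. -/
theorem deriv_ne_zero_of_injOn (hU : IsOpen U) (hf : DifferentiableOn ℂ f U) (hinj : InjOn f U)
    {a : ℂ} (ha : a ∈ U) : deriv f a ≠ 0 := by
  intro hda
  -- work on a small ball
  obtain ⟨R, hR, hball⟩ := Metric.isOpen_iff.mp hU a ha
  have hr : 0 < R / 2 := by positivity
  set r := R / 2 with hrR
  have hV : ball a r ⊆ U := (ball_subset_ball (by linarith)).trans hball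
  have hfan : AnalyticOnNhd ℂ f U := hf.analyticOnNhd hU
  have hdan : AnalyticOnNhd ℂ (deriv f) U := hfan.deriv
  -- difference quotients
  have hlim : TendstoLocallyUniformlyOn (fun (h : ℂ) (z : ℂ) => h⁻¹ * (f (z + h) - f z)) (deriv f)
      (𝓝[≠] (0 : ℂ)) (ball a r) := by
    apply TendstoUniformlyOn.tendstoLocallyUniformlyOn
    rw [Metric.tendstoUniformlyOn_iff]
    intro ε hε
    have hK : IsCompact (closedBall a (3 / 2 * r)) := isCompact_closedBall _ _
    have hKU : closedBall a (3 / 2 * r) ⊆ U :=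
      (closedBall_subset_ball (by rw [hrR]; linarith)).trans hball
    have huc : UniformContinuousOn (deriv f) (closedBall a (3 / 2 * r)) :=
      hK.uniformContinuousOn_of_continuous (hdan.continuousOn.mono hKU)
    rw [Metric.uniformContinuousOn_iff] at huc
    obtain ⟨δ, hδ, hδ'⟩ := huc (ε / 2) (by positivity)
    have hmem : ball (0 : ℂ) (min δ (r / 2)) ∈ 𝓝 (0 : ℂ) := ball_mem_nhds _ (by positivity)
    filter_upwards [mem_nhdsWithin_of_mem_nhds hmem, self_mem_nhdsWithin] with h hh hh0 z hz
    have hh0' : h ≠ 0 := hh0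
    rw [mem_ball_zero_iff, lt_min_iff] at hh
    -- the function `w ↦ f w - deriv f z * w` on the segment from z to z+h
    have hseg : ∀ w ∈ segment ℝ z (z + h), w ∈ closedBall a (3 / 2 * r) ∧ dist w z < δ := by
      intro w hw
      have h1 : dist w z ≤ ‖h‖ := by
        have := segment_subset_closedBall_left z (z + h) hw
        rw [mem_closedBall] at this
        simpa using this
      refine ⟨?_, lt_of_le_of_lt h1 hh.1⟩
      rw [mem_closedBall]
      calc dist w a ≤ dist w z + dist z a := dist_triangle _ _ _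
        _ ≤ r / 2 + r := add_le_add (h1.trans hh.2.le) (mem_ball.mp hz).le
        _ = 3 / 2 * r := by ring
    have hzK : z ∈ closedBall a (3 / 2 * r) := (hseg z (left_mem_segment ℝ _ _)).1
    have hmv : ‖(f (z + h) - deriv f z * (z + h)) - (f z - deriv f z * z)‖ ≤
        ε / 2 * ‖z + h - z‖ := by
      apply Convex.norm_image_sub_le_of_norm_hasDerivWithin_le
        (f := fun w => f w - deriv f z * w) (f' := fun w => deriv f w - deriv f z)
        (s := segment ℝ z (z + h)) (C := ε / 2)
      · intro w hw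
        have h1 : HasDerivAt f (deriv f w) w :=
          (hf.differentiableAt (hU.mem_nhds (hKU (hseg w hw).1))).hasDerivAt
        have h2 : HasDerivAt (fun w => deriv f z * w) (deriv f z) w := by
          simpa using (hasDerivAt_id w).const_mul (deriv f z)
        exact (h1.sub h2).hasDerivWithinAt
      · intro w hw
        have := hδ' w (hseg w hw).1 z hzK (hseg w hw).2
        rw [dist_eq_norm] at this
        exact this.le
      · exact convex_segment _ _
      · exact left_mem_segment ℝ _ _
      · exact right_mem_segment ℝ _ _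
    rw [dist_comm, dist_eq_norm]
    have heq : h⁻¹ * (f (z + h) - f z) - deriv f z =
        h⁻¹ * ((f (z + h) - deriv f z * (z + h)) - (f z - deriv f z * z)) := by
      field_simp
      ring
    rw [heq, norm_mul, norm_inv]
    have h0 : 0 < ‖h‖ := norm_pos_iff.mpr hh0'
    have : ‖z + h - z‖ = ‖h‖ := by simp
    rw [this] at hmv
    calc ‖h‖⁻¹ * ‖(f (z + h) - deriv f z * (z + h)) - (f z - deriv f z * z)‖
        ≤ ‖h‖⁻¹ * (ε / 2 * ‖h‖) := by gcongr
      _ = ε / 2 := by field_simp
      _ < ε := by linarith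
  have hF : ∀ᶠ h in 𝓝[≠] (0 : ℂ), DifferentiableOn ℂ (fun z => h⁻¹ * (f (z + h) - f z))
      (ball a r) := by
    have hmem : ball (0 : ℂ) r ∈ 𝓝 (0 : ℂ) := ball_mem_nhds _ hr
    filter_upwards [mem_nhdsWithin_of_mem_nhds hmem] with h hh
    apply DifferentiableOn.const_mul
    apply DifferentiableOn.sub _ (hf.mono hV)
    apply hf.comp (differentiableOn_id.add_const h)
    intro z hz
    apply hball
    rw [mem_ball] at hz ⊢
    rw [mem_ball_zero_iff] at hh
    calc dist (z + h) a ≤ dist (z + h) z + dist z a := dist_triangle _ _ _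
      _ < r + r := by
        apply add_lt_add _ hz
        simpa using hh
      _ = R := by rw [hrR]; ring
  have hne : ∃ᶠ h in 𝓝[≠] (0 : ℂ), ∀ z ∈ ball a r, h⁻¹ * (f (z + h) - f z) ≠ 0 := by
    apply Eventually.frequently
    have hmem : ball (0 : ℂ) r ∈ 𝓝 (0 : ℂ) := ball_mem_nhds _ hr
    filter_upwards [mem_nhdsWithin_of_mem_nhds hmem, self_mem_nhdsWithin] with h hh hh0 z hz
    have hh0' : h ≠ 0 := hh0
    apply mul_ne_zero (inv_ne_zero hh0')
    rw [sub_ne_zero]
    intro heq
    have hzh : z + h ∈ U := by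
      apply hball
      rw [mem_ball] at hz ⊢
      rw [mem_ball_zero_iff] at hh
      calc dist (z + h) a ≤ dist (z + h) z + dist z a := dist_triangle _ _ _
        _ < r + r := by
          apply add_lt_add _ hz
          simpa using hh
        _ = R := by rw [hrR]; ring
    have := hinj hzh (hV hz) heq
    exact hh0' (by simpa using this)
  rcases forall_ne_zero_or_eqOn_zero isOpen_ball (convex_ball a r).isPreconnected hlim hF hne
    with h | h
  · exact h a (mem_ball_self hr) hda
  · -- `f` is constant on the ball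
    have hb : a + (r / 2 : ℝ) ∈ ball a r := by
      rw [mem_ball, dist_eq_norm]
      simp [abs_of_pos hr]
      linarith
    have hconst : f (a + (r / 2 : ℝ)) = f a := by
      apply (convex_ball a r).is_const_of_fderivWithin_eq_zero (𝕜 := ℂ) (hf.mono hV)
        _ hb (mem_ball_self hr)
      intro z hz
      have h1 : HasDerivAt f 0 z := by
        have := (hf.differentiableAt (hU.mem_nhds (hV hz))).hasDerivAt
        rwa [h hz] at this
      rw [fderivWithin_of_isOpen isOpen_ball hz, h1.hasFDerivAt.fderiv]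
      ext
      simp
    have := hinj (hV hb) ha hconst
    have h2 : ((r / 2 : ℝ) : ℂ) = 0 := by simpa using this
    rw [Complex.ofReal_eq_zero] at h2
    linarith

/-- The image of an open set under an injective holomorphic function is open. -/
theorem isOpen_image_of_injOn (hU : IsOpen U) (hf : DifferentiableOn ℂ f U) (hinj : InjOn f U) :
    IsOpen (f '' U) := by
  rw [isOpen_iff_mem_nhds]
  rintro _ ⟨a, ha, rfl⟩
  have hs : HasStrictDerivAt f (deriv f a) a :=
    ((hf.analyticAt (hU.mem_nhds ha)).hasStrictDerivAt)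
  rw [← hs.map_nhds_eq (deriv_ne_zero_of_injOn hU hf hinj ha)]
  exact image_mem_map (hU.mem_nhds ha)

/-- The inverse of an injective holomorphic function is holomorphic. -/
theorem exists_inverse (hU : IsOpen U) (hf : DifferentiableOn ℂ f U) (hinj : InjOn f U) :
    ∃ g : ℂ → ℂ, DifferentiableOn ℂ g (f '' U) ∧ InjOn g (f '' U) ∧ g '' (f '' U) = U ∧
      (∀ z ∈ U, g (f z) = z) ∧ (∀ w ∈ f '' U, f (g w) = w) ∧
      ∀ z ∈ U, HasDerivAt g (deriv f z)⁻¹ (f z) := by
  classical
  have hgf : ∀ z ∈ U, Function.invFunOn f U (f z) = z := fun z hz => hinj.leftInvOn_invFunOn hz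
  have hfg : ∀ w ∈ f '' U, f (Function.invFunOn f U w) = w := by
    rintro _ ⟨z, hz, rfl⟩
    rw [hgf z hz]
  have hder : ∀ z ∈ U, HasDerivAt (Function.invFunOn f U) (deriv f z)⁻¹ (f z) := by
    intro z hz
    have hs : HasStrictDerivAt f (deriv f z) z :=
      ((hf.analyticAt (hU.mem_nhds hz)).hasStrictDerivAt)
    have hne := deriv_ne_zero_of_injOn hU hf hinj hz
    have : HasStrictDerivAt (Function.invFunOn f U) (deriv f z)⁻¹ (f z) := by
      apply hs.to_local_left_inverse hne
      filter_upwards [hU.mem_nhds hz] with w hw using hgf w hw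
    exact this.hasDerivAt
  refine ⟨Function.invFunOn f U, ?_, ?_, ?_, hgf, hfg, hder⟩
  · rintro _ ⟨z, hz, rfl⟩
    exact (hder z hz).differentiableAt.differentiableWithinAt
  · intro x hx y hy hxy
    rw [← hfg x hx, ← hfg y hy, hxy]
  · ext z
    constructor
    · rintro ⟨_, ⟨w, hw, rfl⟩, rfl⟩
      rw [hgf w hw]; exact hw
    · intro hz
      exact ⟨f z, mem_image_of_mem f hz, hgf z hz⟩

end Pool.Agent.Lib.Hurwitz
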