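import Mathlib

/-!
Montel's theorem: a locally bounded sequence of holomorphic functions on an open set of the plane
has a subsequence converging locally uniformly. Also the version with ultrafilters.
-/

set_option autoImplicit false

open Set Filter Metric Complex
open scoped Topology

namespace Pool.Agent.Lib.Montel

variable {ι : Type*} {F : ι → ℂ → ℂ} {U : Set ℂ}

/-- Cauchy estimate: a holomorphic function bounded by `M` on the ball of radius `3 r` is
`M / r`-Lipschitz on the ball of radius `r`. -/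
theorem dist_le_of_forall_norm_le {f : ℂ → ℂ} {a : ℂ} {r M : ℝ} (hr : 0 < r)
    (hf : DifferentiableOn ℂ f (ball a (3 * r))) (hM : ∀ z ∈ ball a (3 * r), ‖f z‖ ≤ M) :
    ∀ z ∈ ball a r, ∀ w ∈ ball a r, dist (f z) (f w) ≤ M / r * dist z w := by
  intro z hz w hw
  rw [dist_eq_norm, dist_eq_norm]
  have hsub : ∀ z ∈ ball a r, closedBall z r ⊆ ball a (3 * r) := by
    intro z hz
    apply closedBall_subset_ball'
    rw [mem_ball] at hz
    linarith
  apply (convex_ball a r).norm_image_sub_le_of_norm_deriv_le (𝕜 := ℂ) _ _ hw hz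
  · intro z hz
    exact hf.differentiableAt (isOpen_ball.mem_nhds (hsub z hz (mem_closedBall_self hr.le)))
  · intro z hz
    apply Complex.norm_deriv_le_of_forall_mem_sphere_norm_le hr
    · apply DifferentiableOn.diffContOnCl
      rw [closure_ball z hr.ne']
      exact hf.mono (hsub z hz)
    · intro x hx
      exact hM x (hsub z hz (sphere_subset_closedBall hx))

/-- **Montel's theorem**, ultrafilter version. -/
theorem exists_tendstoLocallyUniformlyOn_ultrafilter (hU : IsOpen U)
    (hF : ∀ n, DifferentiableOn ℂ (F n) U)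
    (hbdd : ∀ K ⊆ U, IsCompact K → ∃ M : ℝ, ∀ n, ∀ z ∈ K, ‖F n z‖ ≤ M) (p : Ultrafilter ι) :
    ∃ f : ℂ → ℂ, DifferentiableOn ℂ f U ∧ TendstoLocallyUniformlyOn F f p U := by
  have hpt : ∀ z : ℂ, ∃ c : ℂ, z ∈ U → Tendsto (fun n => F n z) p (𝓝 c) := by
    intro z
    by_cases hz : z ∈ U
    · obtain ⟨M, hM⟩ := hbdd {z} (singleton_subset_iff.mpr hz) isCompact_singleton
      have h1 : ((p.map (fun n => F n z) : Ultrafilter ℂ) : Filter ℂ) ≤
          𝓟 (closedBall (0 : ℂ) M) := by
        rw [le_principal_iff]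
        change (fun n => F n z) ⁻¹' (closedBall (0 : ℂ) M) ∈ (p : Filter ι)
        refine Filter.univ_mem' fun n => ?_
        simpa using hM n z rfl
      obtain ⟨c, -, hc⟩ := (isCompact_closedBall (0 : ℂ) M).ultrafilter_le_nhds _ h1
      exact ⟨c, fun _ => hc⟩
    · exact ⟨0, fun h => absurd h hz⟩
  choose f hf using hpt
  have hlim : TendstoLocallyUniformlyOn F f p U := by
    rw [Metric.tendstoLocallyUniformlyOn_iff]
    intro ε hε z hz
    obtain ⟨R, hR, hball⟩ := nhds_basis_closedBall.mem_iff.mp (hU.mem_nhds hz)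
    obtain ⟨M, hM⟩ := hbdd (closedBall z R) hball (isCompact_closedBall z R)
    have hr : 0 < R / 3 := by positivity
    have h3 : 3 * (R / 3) = R := by ring
    have hLip : ∀ n, ∀ x ∈ ball z (R / 3), ∀ y ∈ ball z (R / 3),
        dist (F n x) (F n y) ≤ M / (R / 3) * dist x y := by
      intro n
      apply dist_le_of_forall_norm_le hr
      · rw [h3]; exact (hF n).mono (ball_subset_closedBall.trans hball)
      · rw [h3]; exact fun x hx => hM n x (ball_subset_closedBall hx)
    have hsub : ball z (R / 3) ⊆ U :=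
      (ball_subset_ball (by linarith)).trans (ball_subset_closedBall.trans hball)
    have hLipf : ∀ x ∈ ball z (R / 3), ∀ y ∈ ball z (R / 3),
        dist (f x) (f y) ≤ M / (R / 3) * dist x y := by
      intro x hx y hy
      have h1 : Tendsto (fun n => dist (F n x) (F n y)) p (𝓝 (dist (f x) (f y))) :=
        (hf x (hsub hx)).dist (hf y (hsub hy))
      exact le_of_tendsto h1 (Filter.univ_mem' fun n => hLip n x hx y hy)
    set L := |M / (R / 3)| + 1 with hL
    have hL0 : 0 < L := by positivity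
    set δ := min (R / 3) (ε / (3 * L)) with hδ
    have hδ0 : 0 < δ := by positivity
    refine ⟨ball z δ, mem_nhdsWithin_of_mem_nhds (ball_mem_nhds z hδ0), ?_⟩
    filter_upwards [Metric.tendsto_nhds.mp (hf z hz) (ε / 3) (by positivity)] with n hn w hw
    have hw' : w ∈ ball z (R / 3) := ball_subset_ball (min_le_left _ _) hw
    have hz' : z ∈ ball z (R / 3) := mem_ball_self hr
    have hwz : dist w z < ε / (3 * L) := (mem_ball.mp hw).trans_le (min_le_right _ _)
    have hb : M / (R / 3) * dist w z ≤ ε / 3 := by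
      calc M / (R / 3) * dist w z ≤ L * dist w z := by
            apply mul_le_mul_of_nonneg_right _ dist_nonneg
            rw [hL]; linarith [le_abs_self (M / (R / 3))]
        _ ≤ L * (ε / (3 * L)) := by gcongr
        _ = ε / 3 := by field_simp
    calc dist (f w) (F n w) ≤ dist (f w) (f z) + dist (f z) (F n z) + dist (F n z) (F n w) :=
          dist_triangle4 _ _ _ _
      _ < ε / 3 + ε / 3 + ε / 3 := by
          have h1 := (hLipf w hw' z hz').trans hb
          have h2 := hLip n w hw' z hz'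
          rw [dist_comm (F n w)] at h2
          have h3 := h2.trans hb
          rw [dist_comm (f z)]
          linarith
      _ = ε := by ring
  exact ⟨f, hlim.differentiableOn (Filter.univ_mem' hF) hU, hlim⟩

/-- The standard compact exhaustion of an open set. -/
def exhaust (U : Set ℂ) (k : ℕ) : Set ℂ := {z | z ∈ closedBall (0 : ℂ) k ∧
  ∀ w ∉ U, ((k : ℝ) + 1)⁻¹ ≤ dist z w}

theorem exhaust_subset (k : ℕ) : exhaust U k ⊆ U := by
  intro z hz
  by_contra h
  have := hz.2 z h
  rw [dist_self] at this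
  have h2 : 0 < ((k : ℝ) + 1)⁻¹ := by positivity
  linarith

theorem isCompact_exhaust (k : ℕ) : IsCompact (exhaust U k) := by
  apply (isCompact_closedBall (0 : ℂ) k).of_isClosed_subset _ (fun z hz => hz.1)
  have : exhaust U k = closedBall (0 : ℂ) k ∩ ⋂ w ∈ Uᶜ, {z | ((k : ℝ) + 1)⁻¹ ≤ dist z w} := by
    ext z
    simp [exhaust]
  rw [this]
  refine isClosed_closedBall.inter (isClosed_biInter fun w _ => ?_)
  exact isClosed_le continuous_const (by fun_prop)

theorem exhaust_mono : Monotone (exhaust U) := by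
  intro k l hkl z hz
  have h : (k : ℝ) ≤ l := by exact_mod_cast hkl
  refine ⟨closedBall_subset_closedBall h hz.1, fun w hw => le_trans ?_ (hz.2 w hw)⟩
  gcongr

theorem exists_subset_exhaust (hU : IsOpen U) {K : Set ℂ} (hK : IsCompact K) (hKU : K ⊆ U) :
    ∃ k, K ⊆ exhaust U k := by
  obtain ⟨δ, hδ, hthick⟩ := hK.exists_cthickening_subset_open hU hKU
  obtain ⟨R, hR⟩ := hK.isBounded.subset_closedBall 0
  obtain ⟨n, hn⟩ := exists_nat_ge (max R δ⁻¹)
  refine ⟨n, fun z hz => ⟨closedBall_subset_closedBall ((le_max_left _ _).trans hn) (hR hz),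
    fun w hw => ?_⟩⟩
  by_contra hcon
  push Not at hcon
  apply hw
  apply hthick
  apply closedBall_subset_cthickening hz δ
  rw [mem_closedBall, dist_comm]
  apply hcon.le.trans
  have h1 : δ⁻¹ ≤ (n : ℝ) + 1 := by linarith [(le_max_right R δ⁻¹).trans hn]
  have h2 : (0 : ℝ) < δ⁻¹ := by positivity
  calc ((n : ℝ) + 1)⁻¹ ≤ (δ⁻¹)⁻¹ := inv_anti₀ h2 h1
    _ = δ := inv_inv δ

/-- **Montel's theorem**: a sequence of holomorphic functions on an open set, uniformly bounded on
each compact subset, has a subsequence converging locally uniformly to a holomorphic function. -/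
theorem montel {F : ℕ → ℂ → ℂ} (hU : IsOpen U)
    (hF : ∀ n, DifferentiableOn ℂ (F n) U)
    (hbdd : ∀ K ⊆ U, IsCompact K → ∃ M : ℝ, ∀ n, ∀ z ∈ K, ‖F n z‖ ≤ M) :
    ∃ (φ : ℕ → ℕ) (f : ℂ → ℂ), StrictMono φ ∧ DifferentiableOn ℂ f U ∧
      TendstoLocallyUniformlyOn (fun n => F (φ n)) f atTop U := by
  obtain ⟨f, hfd, hf⟩ := exists_tendstoLocallyUniformlyOn_ultrafilter hU hF hbdd (hyperfilter ℕ)
  rw [tendstoLocallyUniformlyOn_iff_forall_isCompact hU] at hf
  have hfreq : ∀ k : ℕ, ∃ᶠ n in atTop, ∀ z ∈ exhaust U k, dist (f z) (F n z) < 1 / ((k : ℝ) + 1) := by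
    intro k
    have h1 := Metric.tendstoUniformlyOn_iff.mp
      (hf (exhaust U k) (exhaust_subset k) (isCompact_exhaust k)) (1 / ((k : ℝ) + 1)) (by positivity)
    have h2 : (hyperfilter ℕ : Filter ℕ) ≤ atTop := by
      rw [← Nat.cofinite_eq_atTop]
      exact hyperfilter_le_cofinite
    exact h1.frequently.filter_mono h2
  obtain ⟨φ, hφ, hφ'⟩ := extraction_forall_of_frequently hfreq
  refine ⟨φ, f, hφ, hfd, ?_⟩
  rw [tendstoLocallyUniformlyOn_iff_forall_isCompact hU]
  intro K hKU hK
  obtain ⟨k, hk⟩ := exists_subset_exhaust hU hK hKU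
  rw [Metric.tendstoUniformlyOn_iff]
  intro ε hε
  have h3 : Tendsto (fun n : ℕ => 1 / ((n : ℝ) + 1)) atTop (𝓝 0) :=
    tendsto_one_div_add_atTop_nhds_zero_nat
  filter_upwards [h3.eventually_lt_const hε, eventually_ge_atTop k] with n hn1 hn2 z hz
  exact (hφ' n z (exhaust_mono hn2 (hk hz))).trans hn1

end Pool.Agent.Lib.Montel
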