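import Mathlib
import Pool.Agent.Lib.Hurwitz
import Pool.Agent.Lib.Montel

/-!
The Riemann mapping theorem, for connected open sets on which every nowhere vanishing holomorphic
function has a holomorphic square root (in particular for open simply connected sets).
-/

set_option autoImplicit false

open Set Filter Metric Complex
open scoped Topology ComplexConjugate

namespace Pool.Agent.Lib.RiemannMapping

open Pool.Agent.Lib.Hurwitz Pool.Agent.Lib.Montel

/-- Every nowhere vanishing holomorphic function on `U` has a holomorphic square root. -/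
def HasHolSqrt (U : Set ℂ) : Prop :=
  ∀ g : ℂ → ℂ, DifferentiableOn ℂ g U → (∀ z ∈ U, g z ≠ 0) →
    ∃ h : ℂ → ℂ, DifferentiableOn ℂ h U ∧ ∀ z ∈ U, h z ^ 2 = g z

/-! ### Disc automorphisms -/

/-- The disc automorphism `z ↦ (z - w) / (1 - conj w * z)`. -/
noncomputable def mob (w z : ℂ) : ℂ := (z - w) / (1 - conj w * z)

theorem mob_den_ne_zero {w z : ℂ} (hw : ‖w‖ < 1) (hz : ‖z‖ ≤ 1) : 1 - conj w * z ≠ 0 := by
  intro h
  have h1 : conj w * z = 1 := (sub_eq_zero.mp h).symm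
  have h2 : ‖conj w * z‖ < 1 := by
    rw [norm_mul, RCLike.norm_conj]
    calc ‖w‖ * ‖z‖ ≤ ‖w‖ * 1 := by gcongr
      _ < 1 := by linarith
  rw [h1] at h2
  simp at h2

theorem sq_norm_den_sub_sq_norm_num (w z : ℂ) :
    ‖1 - conj w * z‖ ^ 2 - ‖z - w‖ ^ 2 = (1 - ‖z‖ ^ 2) * (1 - ‖w‖ ^ 2) := by
  simp only [Complex.sq_norm, Complex.normSq_apply]
  simp
  ring

theorem norm_mob_lt_one {w z : ℂ} (hw : ‖w‖ < 1) (hz : ‖z‖ < 1) : ‖mob w z‖ < 1 := by
  have h1 := mob_den_ne_zero hw hz.le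
  rw [mob, norm_div, div_lt_one (norm_pos_iff.mpr h1)]
  have h2 := sq_norm_den_sub_sq_norm_num w z
  have h3 : 0 < (1 - ‖z‖ ^ 2) * (1 - ‖w‖ ^ 2) := by
    apply mul_pos
    · nlinarith [norm_nonneg z]
    · nlinarith [norm_nonneg w]
  have h4 : ‖z - w‖ ^ 2 < ‖1 - conj w * z‖ ^ 2 := by linarith
  exact lt_of_pow_lt_pow_left₀ 2 (norm_nonneg _) h4

theorem mob_self {w : ℂ} : mob w w = 0 := by simp [mob]

theorem mob_zero {w : ℂ} : mob w 0 = -w := by simp [mob]

theorem mob_ne_zero {w z : ℂ} (hw : ‖w‖ < 1) (hz : ‖z‖ < 1) (h : z ≠ w) : mob w z ≠ 0 :=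
  div_ne_zero (sub_ne_zero.mpr h) (mob_den_ne_zero hw hz.le)

theorem mob_neg_mob {w z : ℂ} (hw : ‖w‖ < 1) (hz : ‖z‖ < 1) : mob (-w) (mob w z) = z := by
  have h1 := mob_den_ne_zero hw hz.le
  have h2 : (1 : ℂ) - conj (-w) * mob w z ≠ 0 :=
    mob_den_ne_zero (by rwa [norm_neg]) (norm_mob_lt_one hw hz).le
  have hD : mob w z * (1 - conj w * z) = z - w := div_mul_cancel₀ _ h1
  rw [mob, div_eq_iff h2, map_neg]
  apply mul_right_cancel₀ h1
  linear_combination (1 - z * conj w) * hD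

theorem mob_mob_neg {w z : ℂ} (hw : ‖w‖ < 1) (hz : ‖z‖ < 1) : mob w (mob (-w) z) = z := by
  have := mob_neg_mob (w := -w) (z := z) (by rwa [norm_neg]) hz
  rwa [neg_neg] at this

theorem mob_injOn {w : ℂ} (hw : ‖w‖ < 1) : InjOn (mob w) (ball 0 1) := by
  intro x hx y hy hxy
  rw [mem_ball_zero_iff] at hx hy
  rw [← mob_neg_mob hw hx, ← mob_neg_mob hw hy, hxy]

theorem mob_mapsTo {w : ℂ} (hw : ‖w‖ < 1) : MapsTo (mob w) (ball 0 1) (ball 0 1) := by
  intro x hx
  rw [mem_ball_zero_iff] at hx ⊢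
  exact norm_mob_lt_one hw hx

theorem mob_image_ball {w : ℂ} (hw : ‖w‖ < 1) : mob w '' ball 0 1 = ball 0 1 := by
  apply (mob_mapsTo hw).image_subset.antisymm
  intro z hz
  rw [mem_ball_zero_iff] at hz
  exact ⟨mob (-w) z, by rw [mem_ball_zero_iff]; exact norm_mob_lt_one (by rwa [norm_neg]) hz,
    mob_mob_neg hw hz⟩

theorem hasDerivAt_mob {w z : ℂ} (hw : ‖w‖ < 1) (hz : ‖z‖ ≤ 1) :
    HasDerivAt (mob w) ((1 - (‖w‖ : ℂ) ^ 2) / (1 - conj w * z) ^ 2) z := by
  have h1 := mob_den_ne_zero hw hz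
  have h2 : HasDerivAt (fun z : ℂ => z - w) 1 z := (hasDerivAt_id z).sub_const w
  have h3 : HasDerivAt (fun z : ℂ => 1 - conj w * z) (-(conj w)) z := by
    have := ((hasDerivAt_id z).const_mul (conj w)).const_sub 1
    simpa using this
  convert! h2.div h3 h1 using 1
  congr 1
  rw [← Complex.conj_mul']
  ring

theorem differentiableOn_mob {w : ℂ} (hw : ‖w‖ < 1) :
    DifferentiableOn ℂ (mob w) (closedBall 0 1) := by
  intro z hz
  rw [mem_closedBall_zero_iff] at hz
  exact (hasDerivAt_mob hw hz).differentiableAt.differentiableWithinAt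

/-! ### The Riemann mapping theorem -/

variable {U : Set ℂ}

/-- The extremal family. -/
structure Fam (U : Set ℂ) (z₀ : ℂ) (f : ℂ → ℂ) : Prop where
  diff : DifferentiableOn ℂ f U
  inj : InjOn f U
  maps : MapsTo f U (ball 0 1)
  zero : f z₀ = 0

/-- Post-composing a injective holomorphic map to the disc with a disc automorphism. -/
theorem fam_of {z₀ : ℂ} {f : ℂ → ℂ} (hz₀ : z₀ ∈ U) (hf : DifferentiableOn ℂ f U)
    (hinj : InjOn f U) (hmaps : MapsTo f U (ball 0 1)) :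
    Fam U z₀ (fun z => mob (f z₀) (f z)) := by
  have hw : ‖f z₀‖ < 1 := by simpa using hmaps hz₀
  refine ⟨?_, ?_, ?_, mob_self⟩
  · exact (differentiableOn_mob hw).comp hf (hmaps.mono_right ball_subset_closedBall)
  · exact (mob_injOn hw).comp hinj hmaps
  · exact (mob_mapsTo hw).comp hmaps

theorem exists_fam (hU : IsOpen U) (hs : HasHolSqrt U) (hne : U ≠ univ) {z₀ : ℂ} (hz₀ : z₀ ∈ U) :
    ∃ f, Fam U z₀ f := by
  obtain ⟨a, ha⟩ := (ne_univ_iff_exists_notMem U).mp hne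
  obtain ⟨h, hh, hsq⟩ := hs (fun z => z - a) (differentiableOn_id.sub_const a) (by
    intro z hz hza
    apply ha
    rwa [← sub_eq_zero.mp hza])
  have hinj : InjOn h U := by
    intro x hx y hy hxy
    have h1 := hsq x hx
    have h2 := hsq y hy
    rw [hxy, h2] at h1
    exact (sub_left_injective h1).symm
  have hne0 : ∀ z ∈ U, h z ≠ 0 := by
    intro z hz h0
    have h1 := hsq z hz
    rw [h0] at h1
    apply ha
    have : z = a := by
      have h2 : z - a = 0 := by rw [← h1]; simp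
      exact sub_eq_zero.mp h2
    rwa [← this]
  obtain ⟨ρ, hρ, hball⟩ := Metric.isOpen_iff.mp (isOpen_image_of_injOn hU hh hinj) (h z₀)
    (mem_image_of_mem h hz₀)
  have hfar : ∀ z ∈ U, ρ ≤ ‖h z + h z₀‖ := by
    intro z hz
    by_contra hcon
    push Not at hcon
    have h1 : -h z ∈ ball (h z₀) ρ := by
      rw [mem_ball, dist_eq_norm, ← norm_neg]
      simpa [add_comm] using hcon
    obtain ⟨y, hy, hyz⟩ := hball h1
    have h2 : y - a = z - a := by rw [← hsq y hy, ← hsq z hz, hyz]; ring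
    have h3 : y = z := sub_left_injective h2
    subst h3
    have h4 : h y = 0 := by
      have : h y + h y = 0 := by nth_rewrite 1 [hyz]; ring
      simpa using this
    exact hne0 y hy h4
  have hden : ∀ z ∈ U, h z + h z₀ ≠ 0 := by
    intro z hz h0
    have := hfar z hz
    rw [h0, norm_zero] at this
    linarith
  refine ⟨_, fam_of (f := fun z => ((ρ / 2 : ℝ) : ℂ) / (h z + h z₀)) hz₀ ?_ ?_ ?_⟩
  · exact (differentiableOn_const _).div (hh.add_const _) hden
  · intro x hx y hy hxy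
    have h1 := hden x hx
    have h2 := hden y hy
    have h3 : ((ρ / 2 : ℝ) : ℂ) ≠ 0 := by
      rw [Complex.ofReal_ne_zero]; positivity
    have h4 : h x + h z₀ = h y + h z₀ := by
      simp only at hxy
      rw [div_eq_div_iff h1 h2] at hxy
      exact (mul_left_cancel₀ h3 hxy).symm
    exact hinj hx hy (add_left_injective _ h4)
  · intro z hz
    rw [mem_ball_zero_iff, norm_div, div_lt_one (norm_pos_iff.mpr (hden z hz)), Complex.norm_real,
      Real.norm_of_nonneg (by positivity)]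
    linarith [hfar z hz]

/-- Koebe's square root trick: a member of the family which is not onto does not maximise the
derivative. -/
theorem exists_larger (hU : IsOpen U) (hs : HasHolSqrt U) {z₀ : ℂ} (hz₀ : z₀ ∈ U)
    {f : ℂ → ℂ} (hf : Fam U z₀ f) {w : ℂ} (hw : ‖w‖ < 1) (hwf : w ∉ f '' U) :
    ∃ k, Fam U z₀ k ∧ ‖deriv f z₀‖ < ‖deriv k z₀‖ := by
  have hfz : ∀ z ∈ U, ‖f z‖ < 1 := fun z hz => by simpa using hf.maps hz
  have hG : DifferentiableOn ℂ (fun z => mob w (f z)) U :=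
    (differentiableOn_mob hw).comp hf.diff (hf.maps.mono_right ball_subset_closedBall)
  have hG0 : ∀ z ∈ U, mob w (f z) ≠ 0 := fun z hz =>
    mob_ne_zero hw (hfz z hz) (fun h => hwf ⟨z, hz, h⟩)
  obtain ⟨h, hh, hsq⟩ := hs _ hG hG0
  have hh1 : MapsTo h U (ball 0 1) := by
    intro z hz
    rw [mem_ball_zero_iff]
    have h1 : ‖h z‖ ^ 2 < 1 := by
      rw [← norm_pow, hsq z hz]
      exact norm_mob_lt_one hw (hfz z hz)
    nlinarith [norm_nonneg (h z)]
  have hinj : InjOn h U := by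
    intro x hx y hy hxy
    apply hf.inj hx hy
    apply mob_injOn hw (hf.maps hx) (hf.maps hy)
    rw [← hsq x hx, ← hsq y hy, hxy]
  refine ⟨_, fam_of hz₀ hh hinj hh1, ?_⟩
  have hd1 : HasDerivAt h (deriv h z₀) z₀ :=
    (hh.differentiableAt (hU.mem_nhds hz₀)).hasDerivAt
  have hd2 : HasDerivAt f (deriv f z₀) z₀ :=
    (hf.diff.differentiableAt (hU.mem_nhds hz₀)).hasDerivAt
  have hhz : ‖h z₀‖ < 1 := by simpa using hh1 hz₀
  have hd3 : HasDerivAt (fun z => mob (h z₀) (h z)) _ z₀ :=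
    (hasDerivAt_mob hhz hhz.le).comp z₀ hd1
  have hd4 : HasDerivAt (fun z => mob w (f z)) _ z₀ :=
    (hasDerivAt_mob (z := f z₀) hw (hfz z₀ hz₀).le).comp z₀ hd2
  have hd5 : HasDerivAt (fun z => mob w (f z)) (2 * h z₀ * deriv h z₀) z₀ := by
    have h1 : HasDerivAt (fun z => h z ^ 2) (2 * h z₀ * deriv h z₀) z₀ := by
      simpa using hd1.fun_pow 2
    apply h1.congr_of_eventuallyEq
    filter_upwards [hU.mem_nhds hz₀] with z hz using (hsq z hz).symm
  have heq := hd4.unique hd5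
  rw [hf.zero] at heq
  set t := ‖h z₀‖ with ht
  have ht2 : t ^ 2 = ‖w‖ := by
    rw [ht, ← norm_pow, hsq z₀ hz₀, hf.zero, mob_zero, norm_neg]
  have hw0 : w ≠ 0 := by
    rintro rfl
    exact hwf ⟨z₀, hz₀, hf.zero⟩
  have ht0 : 0 < t := by
    have : 0 < t ^ 2 := by rw [ht2]; exact norm_pos_iff.mpr hw0
    by_contra hcon
    have h0 : t = 0 := le_antisymm (not_lt.mp hcon) (norm_nonneg _)
    rw [h0] at this
    norm_num at this
  have hfd : 0 < ‖deriv f z₀‖ := norm_pos_iff.mpr (deriv_ne_zero_of_injOn hU hf.diff hf.inj hz₀)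
  -- norms
  have hn1 : (1 - t ^ 4) * ‖deriv f z₀‖ = 2 * t * ‖deriv h z₀‖ := by
    have h1 := congrArg norm heq
    rw [norm_mul, norm_mul, norm_mul] at h1
    simp only [mul_zero, sub_zero, one_pow, div_one] at h1
    have h2 : ‖(1 : ℂ) - (‖w‖ : ℂ) ^ 2‖ = 1 - t ^ 4 := by
      rw [show t ^ 4 = ‖w‖ ^ 2 by rw [← ht2]; ring]
      have h3 : (1 : ℂ) - (‖w‖ : ℂ) ^ 2 = ((1 - ‖w‖ ^ 2 : ℝ) : ℂ) := by push_cast; ring
      rw [h3, Complex.norm_real, Real.norm_of_nonneg]
      nlinarith [norm_nonneg w]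
    rw [h2] at h1
    simpa using h1
  have hn2 : ‖deriv (fun z => mob (h z₀) (h z)) z₀‖ * (1 - t ^ 2) = ‖deriv h z₀‖ := by
    rw [hd3.deriv, norm_mul, norm_div, norm_pow]
    have h1 : (1 : ℂ) - conj (h z₀) * h z₀ = ((1 - t ^ 2 : ℝ) : ℂ) := by
      rw [Complex.conj_mul']
      push_cast
      ring
    have h2 : (1 : ℂ) - (t : ℂ) ^ 2 = ((1 - t ^ 2 : ℝ) : ℂ) := by push_cast; ring
    have h3 : (0 : ℝ) < 1 - t ^ 2 := by nlinarith [norm_nonneg (h z₀)]
    rw [h1, h2, Complex.norm_real, Real.norm_of_nonneg h3.le]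
    field_simp
  have h3 : (0 : ℝ) < 1 - t ^ 2 := by nlinarith [norm_nonneg (h z₀)]
  have hn3 : ‖deriv (fun z => mob (h z₀) (h z)) z₀‖ * (2 * t) = (1 + t ^ 2) * ‖deriv f z₀‖ := by
    have h4 : (‖deriv (fun z => mob (h z₀) (h z)) z₀‖ * (2 * t)) * (1 - t ^ 2) =
        ((1 + t ^ 2) * ‖deriv f z₀‖) * (1 - t ^ 2) := by
      calc _ = 2 * t * (‖deriv (fun z => mob (h z₀) (h z)) z₀‖ * (1 - t ^ 2)) := by ring
        _ = 2 * t * ‖deriv h z₀‖ := by rw [hn2]
        _ = (1 - t ^ 4) * ‖deriv f z₀‖ := hn1.symm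
        _ = _ := by ring
    exact mul_right_cancel₀ h3.ne' h4
  have h5 : 2 * t < 1 + t ^ 2 := by nlinarith [sq_nonneg (1 - t)]
  have h6 : ‖deriv f z₀‖ * (2 * t) < ‖deriv (fun z => mob (h z₀) (h z)) z₀‖ * (2 * t) := by
    rw [hn3]
    nlinarith
  exact lt_of_mul_lt_mul_right h6 (by positivity)

/-- The extremal problem has a solution. -/
theorem exists_maximal (hU : IsOpen U) (hUc : IsPreconnected U) {z₀ : ℂ} (hz₀ : z₀ ∈ U)
    (hne : ∃ f, Fam U z₀ f) :
    ∃ f, Fam U z₀ f ∧ ∀ k, Fam U z₀ k → ‖deriv k z₀‖ ≤ ‖deriv f z₀‖ := by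
  obtain ⟨r, hr, hball⟩ := Metric.isOpen_iff.mp hU z₀ hz₀
  set S : Set ℝ := {x | ∃ f, Fam U z₀ f ∧ x = ‖deriv f z₀‖} with hS
  have hbdd : BddAbove S := by
    refine ⟨1 / r, ?_⟩
    rintro x ⟨f, hf, rfl⟩
    apply Complex.norm_deriv_le_div_of_mapsTo_ball (hf.diff.mono hball) _ hr
    rw [hf.zero]
    exact hf.maps.mono_left hball |>.mono_right ball_subset_closedBall
  obtain ⟨f₀, hf₀⟩ := hne
  have hSne : S.Nonempty := ⟨_, f₀, hf₀, rfl⟩
  set M := sSup S with hM
  have hM0 : 0 < M := by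
    apply lt_of_lt_of_le _ (le_csSup hbdd ⟨f₀, hf₀, rfl⟩)
    exact norm_pos_iff.mpr (deriv_ne_zero_of_injOn hU hf₀.diff hf₀.inj hz₀)
  have hseq : ∀ n : ℕ, ∃ f, Fam U z₀ f ∧ M - 1 / ((n : ℝ) + 1) < ‖deriv f z₀‖ := by
    intro n
    have h1 : M - 1 / ((n : ℝ) + 1) < M := by
      have : 0 < 1 / ((n : ℝ) + 1) := by positivity
      linarith
    obtain ⟨x, ⟨f, hf, rfl⟩, hx⟩ := exists_lt_of_lt_csSup hSne h1
    exact ⟨f, hf, hx⟩
  choose F hF hFM using hseq
  have hFz : ∀ n, ∀ z ∈ U, ‖F n z‖ < 1 := fun n z hz => by simpa using (hF n).maps hz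
  obtain ⟨φ, f, hφ, hfd, hlim⟩ := montel hU (fun n => (hF n).diff) (fun K hKU _ =>
    ⟨1, fun n z hz => (hFz n z (hKU hz)).le⟩)
  have hdlim : Tendsto (fun n => ‖deriv (F (φ n)) z₀‖) atTop (𝓝 ‖deriv f z₀‖) := by
    have h1 := hlim.deriv (Eventually.of_forall fun n => (hF (φ n)).diff) hU
    exact (h1.tendsto_at hz₀).norm
  have hMlim : Tendsto (fun n => ‖deriv (F (φ n)) z₀‖) atTop (𝓝 M) := by
    have h1 : Tendsto (fun n : ℕ => M - 1 / ((n : ℝ) + 1)) atTop (𝓝 M) := by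
      simpa using (tendsto_const_nhds (x := M)).sub tendsto_one_div_add_atTop_nhds_zero_nat
    apply tendsto_of_tendsto_of_tendsto_of_le_of_le (h1.comp hφ.tendsto_atTop) tendsto_const_nhds
    · intro n
      exact (hFM (φ n)).le
    · intro n
      exact le_csSup hbdd ⟨_, hF (φ n), rfl⟩
  have hfM : ‖deriv f z₀‖ = M := tendsto_nhds_unique hdlim hMlim
  have hinj : InjOn f U := by
    rcases injOn_or_eqOn_const hU hUc hlim (Eventually.of_forall fun n => (hF (φ n)).diff)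
      (Frequently.of_forall fun n => (hF (φ n)).inj) with h | ⟨c, hc⟩
    · exact h
    · exfalso
      have h1 : deriv f z₀ = 0 := by
        have h2 : f =ᶠ[𝓝 z₀] fun _ => c := by
          filter_upwards [hU.mem_nhds hz₀] with z hz using hc z hz
        rw [h2.deriv_eq, deriv_const]
      rw [h1, norm_zero] at hfM
      linarith
  have hle : ∀ z ∈ U, ‖f z‖ ≤ 1 := by
    intro z hz
    exact le_of_tendsto (hlim.tendsto_at hz).norm (Eventually.of_forall fun n => (hFz (φ n) z hz).le)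
  have hmaps : MapsTo f U (ball 0 1) := by
    have h1 : f '' U ⊆ closedBall 0 1 := by
      rintro _ ⟨z, hz, rfl⟩
      simpa using hle z hz
    have h2 : f '' U ⊆ interior (closedBall 0 1) :=
      interior_maximal h1 (isOpen_image_of_injOn hU hfd hinj)
    rw [interior_closedBall (0 : ℂ) one_ne_zero] at h2
    exact mapsTo_iff_image_subset.mpr h2
  have hzero : f z₀ = 0 := by
    have h1 := hlim.tendsto_at hz₀
    simp only [(hF _).zero] at h1
    exact (tendsto_nhds_unique h1 tendsto_const_nhds)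
  refine ⟨f, ⟨hfd, hinj, hmaps, hzero⟩, fun k hk => ?_⟩
  rw [hfM]
  exact le_csSup hbdd ⟨k, hk, rfl⟩

/-- **Riemann mapping theorem**. A connected open set `U ≠ ℂ` on which nowhere vanishing
holomorphic functions have holomorphic square roots is mapped onto the unit disc by an injective
holomorphic function with `f z₀ = 0` and `f' z₀ > 0`. -/
theorem exists_map_ball (hU : IsOpen U) (hUc : IsPreconnected U) (hs : HasHolSqrt U)
    (hne : U ≠ univ) {z₀ : ℂ} (hz₀ : z₀ ∈ U) :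
    ∃ f : ℂ → ℂ, DifferentiableOn ℂ f U ∧ InjOn f U ∧ f '' U = ball 0 1 ∧ f z₀ = 0 ∧
      ∃ c : ℝ, 0 < c ∧ deriv f z₀ = c := by
  obtain ⟨f, hf, hmax⟩ := exists_maximal hU hUc hz₀ (exists_fam hU hs hne hz₀)
  have hsurj : f '' U = ball 0 1 := by
    apply hf.maps.image_subset.antisymm
    intro w hw
    by_contra hcon
    rw [mem_ball_zero_iff] at hw
    obtain ⟨k, hk, hlt⟩ := exists_larger hU hs hz₀ hf hw hcon
    exact absurd (hmax k hk) (not_le.mpr hlt)
  have hd0 : deriv f z₀ ≠ 0 := deriv_ne_zero_of_injOn hU hf.diff hf.inj hz₀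
  set c : ℂ := (‖deriv f z₀‖ : ℂ) / deriv f z₀ with hc
  have hc1 : ‖c‖ = 1 := by
    rw [hc, norm_div, Complex.norm_real, norm_norm, div_self (norm_ne_zero_iff.mpr hd0)]
  have hc0 : c ≠ 0 := norm_ne_zero_iff.mp (by rw [hc1]; exact one_ne_zero)
  refine ⟨fun z => c * f z, hf.diff.const_mul c, ?_, ?_, ?_, ‖deriv f z₀‖,
    norm_pos_iff.mpr hd0, ?_⟩
  · intro x hx y hy hxy
    exact hf.inj hx hy (mul_left_cancel₀ hc0 hxy)
  · have h1 : (fun z => c * f z) '' U = (fun w => c * w) '' (f '' U) := by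
      rw [image_image]
    rw [h1, hsurj]
    ext w
    simp only [mem_image, mem_ball_zero_iff]
    constructor
    · rintro ⟨x, hx, rfl⟩
      rw [norm_mul, hc1, one_mul]; exact hx
    · intro hw
      refine ⟨c⁻¹ * w, ?_, ?_⟩
      · rw [norm_mul, norm_inv, hc1, inv_one, one_mul]; exact hw
      · rw [← mul_assoc, mul_inv_cancel₀ hc0, one_mul]
  · simp [hf.zero]
  · rw [deriv_const_mul_field, hc]
    field_simp

/-- **Riemann mapping theorem**, stated for the map from the disc. -/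
theorem exists_map_of_ball (hU : IsOpen U) (hUc : IsPreconnected U) (hs : HasHolSqrt U)
    (hne : U ≠ univ) {z₀ : ℂ} (hz₀ : z₀ ∈ U) :
    ∃ f g : ℂ → ℂ, DifferentiableOn ℂ f (ball 0 1) ∧ InjOn f (ball 0 1) ∧ f '' ball 0 1 = U ∧
      f 0 = z₀ ∧ (∃ c : ℝ, 0 < c ∧ deriv f 0 = c) ∧
      DifferentiableOn ℂ g U ∧ InjOn g U ∧ g '' U = ball 0 1 ∧ g z₀ = 0 ∧
      (∀ z ∈ ball (0 : ℂ) 1, g (f z) = z) ∧ ∀ z ∈ U, f (g z) = z := by
  obtain ⟨g, hg, hginj, hgimg, hg0, c, hc, hgd⟩ := exists_map_ball hU hUc hs hne hz₀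
  obtain ⟨f, hf, hfinj, hfimg, hfg, hgf, hder⟩ := exists_inverse hU hg hginj
  rw [hgimg] at hf hfinj hfimg hgf
  refine ⟨f, g, hf, hfinj, hfimg, ?_, ⟨c⁻¹, inv_pos.mpr hc, ?_⟩, hg, hginj, hgimg, hg0, hgf, hfg⟩
  · rw [← hg0, hfg z₀ hz₀]
  · have := (hder z₀ hz₀).deriv
    rw [hg0, hgd] at this
    rw [this]
    push_cast
    rfl

/-! ### Square roots and simple connectedness -/

/-- A continuous square root of a nowhere vanishing holomorphic function is holomorphic. -/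
theorem differentiableOn_of_sq (hU : IsOpen U) {g h : ℂ → ℂ} (hg : DifferentiableOn ℂ g U)
    (hg0 : ∀ z ∈ U, g z ≠ 0) (hh : ContinuousOn h U) (hsq : ∀ z ∈ U, h z ^ 2 = g z) :
    DifferentiableOn ℂ h U := by
  intro z hz
  have hhz : h z ≠ 0 := by
    intro h0
    apply hg0 z hz
    rw [← hsq z hz, h0]
    simp
  have hgd : HasDerivAt g (deriv g z) z := (hg.differentiableAt (hU.mem_nhds hz)).hasDerivAt
  have hhc : ContinuousAt h z := hh.continuousAt (hU.mem_nhds hz)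
  have key : HasDerivAt h (deriv g z / (h z + h z)) z := by
    rw [hasDerivAt_iff_tendsto_slope] at hgd ⊢
    have hne : h z + h z ≠ 0 := by
      intro h0
      apply hhz
      simpa using h0
    have h1 : Tendsto (fun w => h w + h z) (𝓝[≠] z) (𝓝 (h z + h z)) :=
      (hhc.tendsto.mono_left nhdsWithin_le_nhds).add_const _
    have h2 := hgd.div h1 hne
    apply h2.congr'
    filter_upwards [h1.eventually_ne hne, self_mem_nhdsWithin,
      mem_nhdsWithin_of_mem_nhds (hU.mem_nhds hz)] with w hw hwz hwU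
    have hwz' : w - z ≠ 0 := sub_ne_zero.mpr hwz
    rw [Pi.div_apply, slope_def_field, slope_def_field, ← hsq w hwU, ← hsq z hz]
    field_simp
    ring
  exact key.differentiableAt.differentiableWithinAt

/-- Open simply connected sets have holomorphic square roots. -/
theorem hasHolSqrt_of_isSimplyConnected (hU : IsOpen U) (hUc : IsSimplyConnected U) :
    HasHolSqrt U := by
  intro g hg hg0
  obtain ⟨h, hh, hsq⟩ := Complex.exists_continuousOn_pow_eq hUc hU hg.continuousOn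
    (by rintro ⟨z, hz, h0⟩; exact hg0 z hz h0) two_ne_zero
  exact ⟨h, differentiableOn_of_sq hU hg hg0 hh fun z _ => hsq z, fun z _ => hsq z⟩

/-- Convex sets are simply connected. -/
theorem isSimplyConnected_of_convex {s : Set ℂ} (hs : Convex ℝ s) (hne : s.Nonempty) :
    IsSimplyConnected s := by
  have : ContractibleSpace s := hs.contractibleSpace hne
  exact SimplyConnectedSpace.ofContractible s

/-- Holomorphic square roots are inherited by images under injective holomorphic maps. -/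
theorem HasHolSqrt.image (hU : IsOpen U) (hs : HasHolSqrt U) {f : ℂ → ℂ}
    (hf : DifferentiableOn ℂ f U) (hinj : InjOn f U) : HasHolSqrt (f '' U) := by
  obtain ⟨k, hk, -, himg, hkf, hfk, -⟩ := exists_inverse hU hf hinj
  have hkm : MapsTo k (f '' U) U := by
    intro w hw
    rw [← himg]
    exact mem_image_of_mem k hw
  intro g hg hg0
  obtain ⟨h, hh, hsq⟩ := hs (fun z => g (f z)) (hg.comp hf (mapsTo_image f U))
    (fun z hz => hg0 _ (mem_image_of_mem f hz))
  refine ⟨fun w => h (k w), hh.comp hk hkm, fun w hw => ?_⟩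
  rw [hsq _ (hkm hw), hfk w hw]

/-- Connected open sets with holomorphic square roots are simply connected. -/
theorem isSimplyConnected_of_hasHolSqrt (hU : IsOpen U) (hUc : IsConnected U)
    (hs : HasHolSqrt U) : IsSimplyConnected U := by
  by_cases hne : U = univ
  · rw [hne]
    exact isSimplyConnected_of_convex convex_univ univ_nonempty
  obtain ⟨z₀, hz₀⟩ := hUc.nonempty
  obtain ⟨f, g, hf, hfinj, hfimg, -, -, hg, hginj, hgimg, -, hgf, hfg⟩ :=
    exists_map_of_ball hU hUc.isPreconnected hs hne hz₀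
  have hball : IsSimplyConnected (ball (0 : ℂ) 1) :=
    isSimplyConnected_of_convex (convex_ball 0 1) ⟨0, mem_ball_self one_pos⟩
  have hfm : MapsTo f (ball 0 1) U := by
    rw [← hfimg]; exact mapsTo_image _ _
  have hgm : MapsTo g U (ball 0 1) := by
    rw [← hgimg]; exact mapsTo_image _ _
  let e : ball (0 : ℂ) 1 ≃ₜ U :=
    { toFun := fun z => ⟨f z, hfm z.2⟩
      invFun := fun w => ⟨g w, hgm w.2⟩
      left_inv := fun z => Subtype.ext (hgf z z.2)
      right_inv := fun w => Subtype.ext (hfg w w.2)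
      continuous_toFun := by
        apply Continuous.subtype_mk
        exact hf.continuousOn.domRestrict
      continuous_invFun := by
        apply Continuous.subtype_mk
        exact hg.continuousOn.domRestrict }
  have h1 : SimplyConnectedSpace (ball (0 : ℂ) 1) := hball
  exact e.symm.toHomotopyEquiv.simplyConnectedSpace

/-- For connected open sets of the plane, simple connectedness is the same as having holomorphic
square roots of nowhere vanishing holomorphic functions. -/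
theorem isSimplyConnected_iff_hasHolSqrt (hU : IsOpen U) (hUc : IsConnected U) :
    IsSimplyConnected U ↔ HasHolSqrt U :=
  ⟨hasHolSqrt_of_isSimplyConnected hU, isSimplyConnected_of_hasHolSqrt hU hUc⟩

/-- **Riemann mapping theorem** for simply connected open sets. -/
theorem riemann_mapping (hU : IsOpen U) (hUs : IsSimplyConnected U)
    (hne : U ≠ univ) {z₀ : ℂ} (hz₀ : z₀ ∈ U) :
    ∃ f g : ℂ → ℂ, DifferentiableOn ℂ f (ball 0 1) ∧ InjOn f (ball 0 1) ∧ f '' ball 0 1 = U ∧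
      f 0 = z₀ ∧ (∃ c : ℝ, 0 < c ∧ deriv f 0 = c) ∧
      DifferentiableOn ℂ g U ∧ InjOn g U ∧ g '' U = ball 0 1 ∧ g z₀ = 0 ∧
      (∀ z ∈ ball (0 : ℂ) 1, g (f z) = z) ∧ ∀ z ∈ U, f (g z) = z :=
  exists_map_of_ball hU hUs.isPathConnected.isConnected.isPreconnected
    (hasHolSqrt_of_isSimplyConnected hU hUs) hne hz₀

/-! ### Uniqueness, disc automorphisms -/

/-- A holomorphic bijection of the disc fixing the origin is a rotation. -/
theorem exists_rotation {f : ℂ → ℂ} (hf : DifferentiableOn ℂ f (ball 0 1))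
    (hinj : InjOn f (ball 0 1)) (himg : f '' ball 0 1 = ball 0 1) (h0 : f 0 = 0) :
    ‖deriv f 0‖ = 1 ∧ ∀ z ∈ ball (0 : ℂ) 1, f z = deriv f 0 * z := by
  obtain ⟨g, hg, -, hgimg, hgf, hfg, hder⟩ := exists_inverse isOpen_ball hf hinj
  rw [himg] at hg hgimg hfg
  have h0m : (0 : ℂ) ∈ ball (0 : ℂ) 1 := mem_ball_self one_pos
  have hg0 : g 0 = 0 := by rw [← h0, hgf 0 h0m, h0]
  have hfm : MapsTo f (ball 0 1) (closedBall (f 0) 1) := by
    rw [h0]
    intro z hz
    apply ball_subset_closedBall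
    rw [← himg]
    exact mem_image_of_mem f hz
  have hgm : MapsTo g (ball 0 1) (closedBall (g 0) 1) := by
    rw [hg0]
    intro z hz
    apply ball_subset_closedBall
    rw [← hgimg]
    exact mem_image_of_mem g hz
  have h1 : ‖deriv f 0‖ ≤ 1 := by
    simpa using Complex.norm_deriv_le_div_of_mapsTo_ball hf hfm one_pos
  have h2 : ‖deriv g 0‖ ≤ 1 := by
    simpa using Complex.norm_deriv_le_div_of_mapsTo_ball hg hgm one_pos
  have h3 : deriv g 0 = (deriv f 0)⁻¹ := by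
    have := (hder 0 h0m).deriv
    rwa [h0] at this
  have h4 : deriv f 0 ≠ 0 := deriv_ne_zero_of_injOn isOpen_ball hf hinj h0m
  have h5 : ‖deriv f 0‖ = 1 := by
    apply le_antisymm h1
    rw [h3, norm_inv] at h2
    exact (inv_le_one₀ (norm_pos_iff.mpr h4)).mp h2
  refine ⟨h5, ?_⟩
  have h6 := Complex.affine_of_mapsTo_ball_of_norm_dslope_eq_div hf hfm h0m (by
    rw [dslope_same, h5]; norm_num)
  intro z hz
  have := h6 hz
  simp only [dslope_same, h0, sub_zero, zero_add, smul_eq_mul] at this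
  rw [this, mul_comm]

/-- Every holomorphic bijection of the disc is a rotation after a disc automorphism `mob w`. -/
theorem exists_eq_mul_mob {f : ℂ → ℂ} (hf : DifferentiableOn ℂ f (ball 0 1))
    (hinj : InjOn f (ball 0 1)) (himg : f '' ball 0 1 = ball 0 1) :
    ∃ w c : ℂ, ‖w‖ < 1 ∧ ‖c‖ = 1 ∧ ∀ z ∈ ball (0 : ℂ) 1, f z = c * mob w z := by
  obtain ⟨w, hw, hfw⟩ : ∃ w ∈ ball (0 : ℂ) 1, f w = 0 := by
    have : (0 : ℂ) ∈ f '' ball 0 1 := by rw [himg]; exact mem_ball_self one_pos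
    exact this
  rw [mem_ball_zero_iff] at hw
  have hw' : ‖-w‖ < 1 := by rwa [norm_neg]
  have hd : DifferentiableOn ℂ (fun z => f (mob (-w) z)) (ball 0 1) :=
    hf.comp ((differentiableOn_mob hw').mono ball_subset_closedBall) (mob_mapsTo hw')
  have hi : InjOn (fun z => f (mob (-w) z)) (ball 0 1) :=
    hinj.comp (mob_injOn hw') (mob_mapsTo hw')
  have him : (fun z => f (mob (-w) z)) '' ball 0 1 = ball 0 1 := by
    have : (fun z => f (mob (-w) z)) '' ball 0 1 = f '' (mob (-w) '' ball 0 1) := by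
      rw [image_image]
    rw [this, mob_image_ball hw', himg]
  have h0 : (fun z => f (mob (-w) z)) 0 = 0 := by
    simp only [mob_zero, neg_neg, hfw]
  obtain ⟨h1, h2⟩ := exists_rotation hd hi him h0
  refine ⟨w, _, hw, h1, fun z hz => ?_⟩
  have h3 := h2 (mob w z) (mob_mapsTo hw hz)
  rw [← h3, mob_neg_mob hw (by simpa using hz)]

/-- **Uniqueness in the Riemann mapping theorem**. -/
theorem eqOn_of_map_ball (hU : IsOpen U) {z₀ : ℂ} (hz₀ : z₀ ∈ U) {f₁ f₂ : ℂ → ℂ}
    (h₁ : DifferentiableOn ℂ f₁ U) (hi₁ : InjOn f₁ U) (him₁ : f₁ '' U = ball 0 1)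
    (h0₁ : f₁ z₀ = 0) {c₁ : ℝ} (hc₁ : 0 < c₁) (hd₁ : deriv f₁ z₀ = c₁)
    (h₂ : DifferentiableOn ℂ f₂ U) (hi₂ : InjOn f₂ U) (him₂ : f₂ '' U = ball 0 1)
    (h0₂ : f₂ z₀ = 0) {c₂ : ℝ} (hc₂ : 0 < c₂) (hd₂ : deriv f₂ z₀ = c₂) :
    EqOn f₁ f₂ U := by
  obtain ⟨g, hg, hginj, hgimg, hgf, hfg, hder⟩ := exists_inverse hU h₁ hi₁
  rw [him₁] at hg hginj hgimg hfg
  have hgm : MapsTo g (ball 0 1) U := by rw [← hgimg]; exact mapsTo_image _ _
  have hd : DifferentiableOn ℂ (fun z => f₂ (g z)) (ball 0 1) := h₂.comp hg hgm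
  have hi : InjOn (fun z => f₂ (g z)) (ball 0 1) := hi₂.comp hginj hgm
  have him : (fun z => f₂ (g z)) '' ball 0 1 = ball 0 1 := by
    have : (fun z => f₂ (g z)) '' ball 0 1 = f₂ '' (g '' ball 0 1) := by rw [image_image]
    rw [this, hgimg, him₂]
  have hg0 : g 0 = z₀ := by rw [← h0₁, hgf z₀ hz₀]
  have h0 : (fun z => f₂ (g z)) 0 = 0 := by simp only [hg0, h0₂]
  obtain ⟨h3, h4⟩ := exists_rotation hd hi him h0
  have h5 : deriv (fun z => f₂ (g z)) 0 = ((c₂ / c₁ : ℝ) : ℂ) := by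
    have h6 : HasDerivAt g (c₁ : ℂ)⁻¹ 0 := by
      have := hder z₀ hz₀
      rwa [h0₁, hd₁] at this
    have h7 : HasDerivAt f₂ (c₂ : ℂ) (g 0) := by
      rw [hg0, ← hd₂]
      exact (h₂.differentiableAt (hU.mem_nhds hz₀)).hasDerivAt
    have h8 := (h7.comp (0 : ℂ) h6).deriv
    have h9 : (fun z => f₂ (g z)) = f₂ ∘ g := rfl
    rw [h9, h8]
    push_cast
    rw [div_eq_mul_inv]
  rw [h5, Complex.norm_real, Real.norm_of_nonneg (by positivity)] at h3
  rw [h5, h3] at h4
  intro z hz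
  have hz1 : f₁ z ∈ ball (0 : ℂ) 1 := by rw [← him₁]; exact mem_image_of_mem f₁ hz
  have := h4 (f₁ z) hz1
  rw [hgf z hz] at this
  rw [this]
  simp

end Pool.Agent.Lib.RiemannMapping
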