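import Mathlib
import Pool.Agent.Lib.CauchyPompeiu

/-!
# Open sets of the plane on which every holomorphic function has a primitive

`Pool.Lib.HasPrimitives U`: every holomorphic function on `U` has a primitive on `U`
(`U` is open, possibly disconnected; a domain with this property is a simply connected domain).

Main results:
* `hasPrimitives_of_forall_notMem`: `U` open and `1/(z-p)` has a primitive on `U` for every
  `p ∉ U`  ==>  `HasPrimitives U` (the homology form of Cauchy's theorem).
* `HasPrimitives.inter`, `HasPrimitives.iInter_finite`...: stability under intersections.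
* `HasPrimitives.connectedComponentIn`: passes to components.
* `HasPrimitives.exists_log`, `HasPrimitives.exists_pow_eq`: holomorphic logarithms and roots.
* `HasPrimitives.of_isSimplyConnected`, `hasPrimitives_ball`, `hasPrimitives_univ`.
* `HasPrimitives.image_of_injOn`: conformal images.
-/

open MeasureTheory Complex Set Filter Topology Metric

namespace Pool.Lib

/-- every holomorphic function on `U` has a primitive on `U` -/
def HasPrimitives (U : Set ℂ) : Prop :=
  ∀ f : ℂ → ℂ, DifferentiableOn ℂ f U → IsExactOn f U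

theorem isExactOn_mono {f : ℂ → ℂ} {U V : Set ℂ} (hf : IsExactOn f V) (h : U ⊆ V) :
    IsExactOn f U := by
  obtain ⟨g, hg⟩ := hf
  exact ⟨g, fun z hz => hg z (h hz)⟩

theorem isExactOn_congr {f g : ℂ → ℂ} {U : Set ℂ} (hf : IsExactOn f U) (h : EqOn f g U) :
    IsExactOn g U := by
  obtain ⟨F, hF⟩ := hf
  exact ⟨F, fun z hz => h hz ▸ hF z hz⟩

theorem eqOn_of_hasDerivAt {F G f : ℂ → ℂ} {U : Set ℂ} (hU : IsOpen U) (hc : IsPreconnected U)
    (hF : ∀ z ∈ U, HasDerivAt F (f z) z) (hG : ∀ z ∈ U, HasDerivAt G (f z) z) {b : ℂ}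
    (hb : b ∈ U) (hFG : F b = G b) : EqOn F G U := by
  refine hU.eqOn_of_deriv_eq hc (fun z hz => (hF z hz).differentiableAt.differentiableWithinAt)
    (fun z hz => (hG z hz).differentiableAt.differentiableWithinAt) ?_ hb hFG
  intro z hz
  rw [(hF z hz).deriv, (hG z hz).deriv]

/-- Exactness can be checked on each connected component. -/
theorem isExactOn_of_components {f : ℂ → ℂ} {U : Set ℂ} (hU : IsOpen U)
    (h : ∀ z ∈ U, IsExactOn f (connectedComponentIn U z)) : IsExactOn f U := by
  classical
  let Fs : Set ℂ → (ℂ → ℂ) := fun S => if h : IsExactOn f S then h.choose else 0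
  have hFs : ∀ S, IsExactOn f S → ∀ z ∈ S, HasDerivAt (Fs S) (f z) z := by
    intro S hS z hz
    have : Fs S = hS.choose := by simp only [Fs, dif_pos hS]
    rw [this]
    exact hS.choose_spec z hz
  refine ⟨fun z => Fs (connectedComponentIn U z) z, fun z hz => ?_⟩
  have hmem : z ∈ connectedComponentIn U z := mem_connectedComponentIn hz
  have hopen : IsOpen (connectedComponentIn U z) := hU.connectedComponentIn
  refine (hFs _ (h z hz) z hmem).congr_of_eventuallyEq ?_
  filter_upwards [hopen.mem_nhds hmem] with w hw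
  rw [connectedComponentIn_eq hw]

/-- Exactness passes to increasing unions of open preconnected sets with a common point. -/
theorem isExactOn_iUnion {f : ℂ → ℂ} {G : ℕ → Set ℂ} (hG : Monotone G)
    (ho : ∀ n, IsOpen (G n)) (hc : ∀ n, IsPreconnected (G n)) {b : ℂ} (hb : ∀ n, b ∈ G n)
    (h : ∀ n, IsExactOn f (G n)) : IsExactOn f (⋃ n, G n) := by
  classical
  have h' : ∀ n, ∃ g, g b = 0 ∧ ∀ x ∈ G n, HasDerivAt g (f x) x :=
    fun n => (h n).with_val_at b 0
  choose F hFb hF using h'
  have hcomp : ∀ m n, m ≤ n → EqOn (F m) (F n) (G m) := by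
    intro m n hmn
    exact eqOn_of_hasDerivAt (ho m) (hc m) (hF m) (fun z hz => hF n z (hG hmn hz)) (hb m)
      (by rw [hFb, hFb])
  let F' : ℂ → ℂ := fun z => if h : ∃ n, z ∈ G n then F (Nat.find h) z else 0
  have hF' : ∀ n, EqOn F' (F n) (G n) := by
    intro n z hz
    have hex : ∃ n, z ∈ G n := ⟨n, hz⟩
    have : F' z = F (Nat.find hex) z := by simp only [F', dif_pos hex]
    rw [this]
    exact hcomp _ n (Nat.find_min' hex hz) (Nat.find_spec hex)
  refine ⟨F', fun z hz => ?_⟩
  obtain ⟨n, hn⟩ := mem_iUnion.mp hz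
  refine (hF n z hn).congr_of_eventuallyEq ?_
  filter_upwards [(ho n).mem_nhds hn] with w hw
  exact hF' n hw

/-- The key step. -/
theorem isExactOn_of_compact {W K G : Set ℂ} (hW : IsOpen W) (hK : IsCompact K) (hKW : K ⊆ W)
    (hex : ∀ ζ ∉ K, IsExactOn (fun z => 1 / (ζ - z)) (interior K))
    (hG : IsOpen G) (hGc : IsPreconnected G) (hGK : G ⊆ K) {f : ℂ → ℂ}
    (hf : DifferentiableOn ℂ f W) : IsExactOn f G := by
  rcases G.eq_empty_or_nonempty with rfl | ⟨z0, hz0⟩
  · exact ⟨0, fun z hz => absurd hz (notMem_empty z)⟩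
  -- cutoff function
  obtain ⟨L, hL, hKL, hLW⟩ := exists_compact_between hK hW hKW
  obtain ⟨χ, hχ1, hχ0, -⟩ := exists_contMDiffMap_one_nhds_of_subset_interior
    (modelWithCornersSelf ℝ ℂ) (n := 1) hK.isClosed hKL
  have hχd : ContDiff ℝ 1 χ := χ.contMDiff.contDiff
  obtain ⟨V, hV, hKV, hχV⟩ := eventually_nhdsSet_iff_exists.mp hχ1
  set g : ℂ → ℂ := fun z => (χ z : ℂ) * f z with hg
  have hsupp : tsupport g ⊆ L := by
    apply closure_minimal _ hL.isClosed
    intro z hz
    by_contra hzL
    apply hz
    simp only [hg]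
    rw [hχ0 z hzL]; simp
  have hgc : HasCompactSupport g := HasCompactSupport.of_support_subset_isCompact hL
    ((subset_tsupport g).trans hsupp)
  have hgd : ContDiff ℝ 1 g := by
    rw [contDiff_iff_contDiffAt]
    intro z
    by_cases hz : z ∈ W
    · have h1 : ContDiffAt ℂ 1 f z := by
        have := hf.analyticAt (hW.mem_nhds hz)
        exact this.contDiffAt
      have h2 : ContDiffAt ℝ 1 f z := h1.restrict_scalars ℝ
      have h3 : ContDiffAt ℝ 1 (fun z => (χ z : ℂ)) z :=
        ofRealCLM.contDiff.contDiffAt.comp z hχd.contDiffAt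
      exact h3.mul h2
    · have h1 : g =ᶠ[𝓝 z] fun _ => 0 := by
        have : (tsupport g)ᶜ ∈ 𝓝 z :=
          (isClosed_tsupport g).isOpen_compl.mem_nhds (fun h => hz (hLW (hsupp h)))
        filter_upwards [this] with w hw
        exact image_eq_zero_of_notMem_tsupport hw
      exact contDiffAt_const.congr_of_eventuallyEq h1
  have hgf : ∀ z ∈ V, g z = f z := by
    intro z hz
    simp only [hg]; rw [hχV z hz]; simp
  set c : ℂ → ℂ := dbar g with hc
  have hcc : Continuous c := continuous_dbar hgd
  have hcs : HasCompactSupport c := by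
    apply HasCompactSupport.of_support_subset_isCompact hL
    exact (subset_tsupport c).trans ((tsupport_dbar_subset g).trans hsupp)
  have hcV : ∀ z ∈ V ∩ W, c z = 0 := by
    intro z hz
    have h1 : g =ᶠ[𝓝 z] f := by
      filter_upwards [hV.mem_nhds hz.1] with w hw
      exact hgf w hw
    rw [hc, dbar_congr h1]
    exact dbar_eq_zero (hf.differentiableAt (hW.mem_nhds hz.2))
  have hVW : IsOpen (V ∩ W) := hV.inter hW
  have hKVW : K ⊆ V ∩ W := subset_inter hKV hKW
  -- primitives of the kernels
  have hGint : G ⊆ interior K := interior_maximal hGK hG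
  have hex' : ∀ ζ, ∃ L : ℂ → ℂ, L z0 = 0 ∧
      (ζ ∉ K → ∀ z ∈ G, HasDerivAt L (1 / (ζ - z)) z) := by
    intro ζ
    by_cases hζ : ζ ∈ K
    · exact ⟨0, rfl, fun h => absurd hζ h⟩
    · obtain ⟨L, h1, h2⟩ := (hex ζ hζ).with_val_at z0 0
      exact ⟨L, h1, fun _ z hz => h2 z (hGint hz)⟩
  choose P hP0 hP using hex'
  -- continuity in ζ
  have hPc : ∀ z ∈ G, ∀ ζ1 ∉ K, ContinuousAt (fun ζ => P ζ z) ζ1 := by
    intro z hz ζ1 hζ1
    obtain ⟨δ, hδ, hball⟩ := Metric.isOpen_iff.mp hK.isClosed.isOpen_compl ζ1 hζ1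
    set M : ℂ → ℂ → ℂ := fun ζ z => -log (1 + (ζ - ζ1) / (ζ1 - z)) with hM
    have hkey : ∀ ζ ∈ ball ζ1 δ, ∀ x ∈ G, P ζ x = P ζ1 x + M ζ x - M ζ z0 := by
      intro ζ hζ
      have hζK : ζ ∉ K := hball hζ
      have hG1 : ∀ x ∈ G, HasDerivAt (fun x => P ζ1 x + M ζ x - M ζ z0) (1 / (ζ - x)) x := by
        intro x hx
        have hxK := hGK hx
        have hne1 : ζ1 - x ≠ 0 := fun h => hζ1 ((sub_eq_zero.mp h) ▸ hxK)
        have hne2 : ζ - x ≠ 0 := fun h => hζK ((sub_eq_zero.mp h) ▸ hxK)
        have hlt : ‖(ζ - ζ1) / (ζ1 - x)‖ < 1 := by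
          rw [norm_div, div_lt_one (norm_pos_iff.mpr hne1)]
          by_contra hge
          push Not at hge
          have hx' : x ∈ ball ζ1 δ := by
            rw [mem_ball, dist_comm, dist_eq_norm]
            rw [mem_ball, dist_eq_norm] at hζ
            exact hge.trans_lt hζ
          exact hball hx' hxK
        have hslit : 1 + (ζ - ζ1) / (ζ1 - x) ∈ slitPlane := mem_slitPlane_of_norm_lt_one hlt
        have hd1 : HasDerivAt (fun x => 1 + (ζ - ζ1) / (ζ1 - x))
            ((ζ - ζ1) / (ζ1 - x) ^ 2) x := by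
          have h1 : HasDerivAt (fun x => ζ1 - x) (-1) x := by
            simpa using (hasDerivAt_id x).const_sub ζ1
          have h2 := (h1.fun_inv hne1).const_mul (ζ - ζ1)
          have h3 := h2.const_add 1
          refine h3.congr_deriv ?_
          rw [neg_neg, mul_one_div]
        have hd2 := (hd1.clog hslit).neg
        have hd3 := ((hP ζ1 hζ1 x hx).add hd2).sub_const (M ζ z0)
        refine hd3.congr_deriv ?_
        have h4 : 1 + (ζ - ζ1) / (ζ1 - x) = (ζ - x) / (ζ1 - x) := by
          field_simp; ring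
        rw [h4]
        field_simp
        ring
      exact fun x hx => eqOn_of_hasDerivAt hG hGc (hP ζ hζK) hG1 hz0 (by simp [hP0]) hx
    have hMc : ∀ x ∈ G, Tendsto (fun ζ => M ζ x) (𝓝 ζ1) (𝓝 0) := by
      intro x hx
      have hne1 : ζ1 - x ≠ 0 := fun h => hζ1 ((sub_eq_zero.mp h) ▸ hGK hx)
      have h1 : ContinuousAt (fun ζ => M ζ x) ζ1 := by
        simp only [hM]
        apply ContinuousAt.neg
        apply ContinuousAt.clog
        · fun_prop
        · simp
      have h2 : M ζ1 x = 0 := by simp [hM]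
      have := h1.tendsto
      rwa [h2] at this
    have hlim : Tendsto (fun ζ => P ζ1 z + M ζ z - M ζ z0) (𝓝 ζ1) (𝓝 (P ζ1 z)) := by
      have := ((tendsto_const_nhds (x := P ζ1 z)).add (hMc z hz)).sub (hMc z0 hz0)
      simpa using this
    unfold ContinuousAt
    refine hlim.congr' ?_
    filter_upwards [ball_mem_nhds ζ1 hδ] with ζ hζ
    exact (hkey ζ hζ z hz).symm
  -- the integrand
  have hFc : ∀ z ∈ G, Continuous (fun ζ => c ζ * P ζ z) := by
    intro z hz
    rw [continuous_iff_continuousAt]
    intro ζ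
    by_cases hζ : ζ ∈ K
    · have : (fun ζ => c ζ * P ζ z) =ᶠ[𝓝 ζ] fun _ => 0 := by
        filter_upwards [hVW.mem_nhds (hKVW hζ)] with w hw
        rw [hcV w hw, zero_mul]
      exact (continuousAt_const (y := (0:ℂ))).congr this.symm
    · exact hcc.continuousAt.mul (hPc z hz ζ hζ)
  have hFs : ∀ z, HasCompactSupport (fun ζ => c ζ * P ζ z) := fun z => hcs.mul_right
  have hmain : ∀ z ∈ G, HasDerivAt (fun z => ∫ ζ, c ζ * P ζ z) (∫ ζ, c ζ / (ζ - z)) z := by
    intro z hz
    obtain ⟨δ, hδ, hball⟩ := Metric.isOpen_iff.mp hVW z (hKVW (hGK hz))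
    obtain ⟨δ', hδ', hball'⟩ := Metric.isOpen_iff.mp hG z hz
    set r := min (δ / 2) δ' with hr
    have hrpos : 0 < r := lt_min (by linarith) hδ'
    have hfar : ∀ ζ x, c ζ ≠ 0 → x ∈ ball z r → δ / 2 ≤ ‖ζ - x‖ := by
      intro ζ x hζ hx
      have h1 : ζ ∉ ball z δ := fun h => hζ (hcV ζ (hball h))
      rw [mem_ball, not_lt] at h1
      have h2 : dist x z < δ / 2 := lt_of_lt_of_le (mem_ball.mp hx) (min_le_left _ _)
      have h3 : dist ζ z ≤ dist ζ x + dist x z := dist_triangle _ _ _
      rw [← dist_eq_norm]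
      linarith
    have hgoal := hasDerivAt_integral_of_dominated_loc_of_deriv_le
      (μ := (volume : Measure ℂ)) (F := fun x ζ => c ζ * P ζ x)
      (F' := fun x ζ => c ζ / (ζ - x)) (x₀ := z) (s := ball z r)
      (bound := fun ζ => ‖c ζ‖ * (2 / δ)) (ball_mem_nhds z hrpos) ?_ ?_ ?_ ?_ ?_ ?_
    · exact hgoal.2
    · filter_upwards [ball_mem_nhds z hrpos] with x hx
      have hxG : x ∈ G := hball' (ball_subset_ball (min_le_right _ _) hx)
      exact (hFc x hxG).aestronglyMeasurable
    · exact (hFc z hz).integrable_of_hasCompactSupport (hFs z)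
    · have : Continuous (fun ζ => c ζ / (ζ - z)) := by
        rw [continuous_iff_continuousAt]
        intro ζ
        by_cases hζ : ζ = z
        · have : (fun ζ => c ζ / (ζ - z)) =ᶠ[𝓝 ζ] fun _ => 0 := by
            rw [hζ]
            filter_upwards [hVW.mem_nhds (hKVW (hGK hz))] with w hw
            rw [hcV w hw, zero_div]
          exact (continuousAt_const (y := (0:ℂ))).congr this.symm
        · exact hcc.continuousAt.div (by fun_prop) (sub_ne_zero.mpr hζ)
      exact this.aestronglyMeasurable
    · refine ae_of_all _ (fun ζ x hx => ?_)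
      by_cases hζ : c ζ = 0
      · simp [hζ]
      · have h1 := hfar ζ x hζ hx
        rw [norm_div, div_eq_mul_inv]
        apply mul_le_mul_of_nonneg_left _ (norm_nonneg _)
        rw [show (2 : ℝ) / δ = (δ / 2)⁻¹ by rw [inv_div]]
        exact inv_anti₀ (by linarith) h1
    · exact (hcc.norm.integrable_of_hasCompactSupport hcs.norm).mul_const _
    · refine ae_of_all _ (fun ζ x hx => ?_)
      have hxG : x ∈ G := hball' (ball_subset_ball (min_le_right _ _) hx)
      by_cases hζ : c ζ = 0
      · simp only [hζ, zero_mul, zero_div]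
        exact hasDerivAt_const x 0
      · have hζK : ζ ∉ K := fun h => hζ (hcV ζ (hKVW h))
        have := (hP ζ hζK x hxG).const_mul (c ζ)
        rwa [mul_one_div] at this
  refine ⟨fun z => (-(1 / (Real.pi : ℂ))) * ∫ ζ, c ζ * P ζ z, fun z hz => ?_⟩
  have h1 := (hmain z hz).const_mul (-(1 / (Real.pi : ℂ)))
  have h2 : -(1 / (Real.pi : ℂ)) * ∫ ζ, c ζ / (ζ - z) = f z := by
    rw [hc, integral_dbar_div_sub g hgd hgc z, hgf z (hKV (hGK hz))]
    have : (Real.pi : ℂ) ≠ 0 := by exact_mod_cast Real.pi_ne_zero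
    field_simp
  rwa [h2] at h1

/-- The standard compact exhaustion of an open set. -/
def exh (W : Set ℂ) (ε R : ℝ) : Set ℂ := {z | (∀ p ∉ W, ε ≤ dist z p) ∧ ‖z‖ ≤ R}

theorem isCompact_exh (W : Set ℂ) (ε R : ℝ) : IsCompact (exh W ε R) := by
  have h1 : IsClosed (exh W ε R) := by
    have : exh W ε R = (⋂ p ∈ Wᶜ, {z | ε ≤ dist z p}) ∩ {z | ‖z‖ ≤ R} := by
      ext z; simp [exh]
    rw [this]
    apply IsClosed.inter
    · exact isClosed_biInter fun p _ => isClosed_le continuous_const (by fun_prop)
    · exact isClosed_le (by fun_prop) continuous_const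
  refine IsCompact.of_isClosed_subset (isCompact_closedBall (0 : ℂ) R) h1 ?_
  intro z hz
  simpa using hz.2

theorem exh_subset (W : Set ℂ) {ε : ℝ} (hε : 0 < ε) (R : ℝ) : exh W ε R ⊆ W := by
  intro z hz
  by_contra h
  have := hz.1 z h
  rw [dist_self] at this
  linarith

theorem exh_mono (W : Set ℂ) {ε ε' R R' : ℝ} (h : ε' ≤ ε) (h' : R ≤ R') :
    exh W ε R ⊆ exh W ε' R' := fun _ hz => ⟨fun p hp => h.trans (hz.1 p hp), hz.2.trans h'⟩

theorem exists_mem_interior_exh {W : Set ℂ} (hW : IsOpen W) {z : ℂ} (hz : z ∈ W) :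
    ∃ n : ℕ, z ∈ interior (exh W (1 / ((n : ℝ) + 1)) ((n : ℝ) + 1)) := by
  obtain ⟨δ, hδ, hball⟩ := Metric.isOpen_iff.mp hW z hz
  obtain ⟨n1, hn1⟩ := exists_nat_one_div_lt (show (0:ℝ) < δ / 2 by linarith)
  obtain ⟨n2, hn2⟩ := exists_nat_ge (‖z‖ + δ / 2)
  refine ⟨max n1 n2, mem_interior.mpr ⟨ball z (δ / 2), ?_, isOpen_ball,
    mem_ball_self (by linarith)⟩⟩
  intro w hw
  have hw' : dist w z < δ / 2 := hw
  refine ⟨fun p hp => ?_, ?_⟩
  · have h1 : δ ≤ dist p z := by
      by_contra hlt
      push Not at hlt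
      exact hp (hball hlt)
    have h2 : dist p z ≤ dist p w + dist w z := dist_triangle _ _ _
    have h3 : 1 / (((max n1 n2 : ℕ) : ℝ) + 1) ≤ 1 / ((n1 : ℝ) + 1) := by
      apply one_div_le_one_div_of_le (by positivity)
      have : (n1 : ℝ) ≤ (max n1 n2 : ℕ) := by exact_mod_cast le_max_left _ _
      linarith
    rw [dist_comm w p]
    linarith
  · have h1 : ‖w‖ ≤ ‖z‖ + dist w z := by
      rw [dist_eq_norm]
      calc ‖w‖ = ‖z + (w - z)‖ := by ring_nf
        _ ≤ _ := norm_add_le _ _
    have h2 : (n2 : ℝ) ≤ (max n1 n2 : ℕ) := by exact_mod_cast le_max_right _ _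
    linarith

/-- **Homology form of Cauchy's theorem**: if `1/(z-p)` has a primitive on the open set `W` for
every `p ∉ W` then every holomorphic function on `W` has a primitive on `W`. -/
theorem hasPrimitives_of_forall_notMem {W : Set ℂ} (hW : IsOpen W)
    (h : ∀ p ∉ W, IsExactOn (fun z => 1 / (z - p)) W) : HasPrimitives W := by
  intro f hf
  apply isExactOn_of_components hW
  intro z0 hz0
  obtain ⟨N, hN⟩ := exists_mem_interior_exh hW hz0
  set K : ℕ → Set ℂ := fun n => exh W (1 / (((N + n : ℕ) : ℝ) + 1)) (((N + n : ℕ) : ℝ) + 1)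
    with hK
  have hpos : ∀ n : ℕ, 0 < 1 / (((N + n : ℕ) : ℝ) + 1) := fun n => by positivity
  have hKmono : Monotone K := by
    intro m n hmn
    apply exh_mono
    · apply one_div_le_one_div_of_le (by positivity)
      have : ((N + m : ℕ) : ℝ) ≤ ((N + n : ℕ) : ℝ) := by exact_mod_cast Nat.add_le_add_left hmn N
      linarith
    · have : ((N + m : ℕ) : ℝ) ≤ ((N + n : ℕ) : ℝ) := by exact_mod_cast Nat.add_le_add_left hmn N
      linarith
  have hz0K : ∀ n, z0 ∈ interior (K n) := by
    intro n
    have h0 : z0 ∈ interior (K 0) := by simpa [hK] using hN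
    exact interior_mono (hKmono (Nat.zero_le n)) h0
  set G : ℕ → Set ℂ := fun n => connectedComponentIn (interior (K n)) z0 with hG
  have hGmono : Monotone G := fun m n hmn =>
    connectedComponentIn_mono z0 (interior_mono (hKmono hmn))
  have hexact : ∀ n, IsExactOn f (G n) := by
    intro n
    apply isExactOn_of_compact hW (isCompact_exh _ _ _) (exh_subset W (hpos n) _) (G := G n) ?_
      isOpen_interior.connectedComponentIn isPreconnected_connectedComponentIn
      ((connectedComponentIn_subset _ _).trans interior_subset) hf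
    intro ζ hζ
    by_cases hR : ((N + n : ℕ) : ℝ) + 1 < ‖ζ‖
    · have h1 : DifferentiableOn ℂ (fun z => 1 / (ζ - z)) (ball 0 ‖ζ‖) := by
        intro z hz
        have hne : ζ - z ≠ 0 := by
          intro h0
          rw [sub_eq_zero.mp h0] at hz
          simp at hz
        exact ((differentiableAt_const _).div (by fun_prop) hne).differentiableWithinAt
      refine isExactOn_mono h1.isExactOn_ball ?_
      intro z hz
      have := (interior_subset hz).2
      simp only [mem_ball, dist_zero_right]
      linarith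
    · have : ∃ p ∉ W, dist ζ p < 1 / (((N + n : ℕ) : ℝ) + 1) := by
        by_contra hcon
        push Not at hcon hR
        exact hζ ⟨hcon, hR⟩
      obtain ⟨p, hp, hζp⟩ := this
      obtain ⟨ℓ, hℓ⟩ := h p hp
      refine ⟨fun z => -log (1 + (p - ζ) / (z - p)) - ℓ z, fun z hz => ?_⟩
      have hzK := interior_subset hz
      have hzW := exh_subset W (hpos n) _ hzK
      have hne1 : z - p ≠ 0 := fun h0 => hp ((sub_eq_zero.mp h0) ▸ hzW)
      have hlt : ‖(p - ζ) / (z - p)‖ < 1 := by
        rw [norm_div, div_lt_one (norm_pos_iff.mpr hne1), ← dist_eq_norm, ← dist_eq_norm]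
        rw [dist_comm p ζ]
        exact hζp.trans_le (hzK.1 p hp)
      have hne2 : ζ - z ≠ 0 := by
        intro h0
        have h1 : ζ = z := sub_eq_zero.mp h0
        have h2 := hzK.1 p hp
        rw [h1] at hζp
        linarith
      have hslit : 1 + (p - ζ) / (z - p) ∈ slitPlane := mem_slitPlane_of_norm_lt_one hlt
      have hd1 : HasDerivAt (fun z => 1 + (p - ζ) / (z - p)) ((ζ - p) / (z - p) ^ 2) z := by
        have h1 : HasDerivAt (fun z => z - p) 1 z := (hasDerivAt_id z).sub_const p
        have h2 := (h1.fun_inv hne1).const_mul (p - ζ)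
        have h3 := h2.const_add 1
        refine h3.congr_deriv ?_
        field_simp
        ring
      have hd2 := (hd1.clog hslit).neg.sub (hℓ z hzW)
      refine hd2.congr_deriv ?_
      have h4 : 1 + (p - ζ) / (z - p) = (z - ζ) / (z - p) := by
        field_simp; ring
      have hne3 : z - ζ ≠ 0 := by
        intro h0
        exact hne2 (by rw [sub_eq_zero] at h0 ⊢; exact h0.symm)
      rw [h4]
      field_simp
      ring
  have hun := isExactOn_iUnion hGmono (fun n => isOpen_interior.connectedComponentIn)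
    (fun n => isPreconnected_connectedComponentIn)
    (fun n => mem_connectedComponentIn (hz0K n)) hexact
  refine isExactOn_mono hun ?_
  intro z hz
  have hCo : IsOpen (connectedComponentIn W z0) := hW.connectedComponentIn
  have hCc : IsConnected (connectedComponentIn W z0) :=
    ⟨⟨z0, mem_connectedComponentIn hz0⟩, isPreconnected_connectedComponentIn⟩
  have hCp : IsPathConnected (connectedComponentIn W z0) := hCo.isConnected_iff_isPathConnected.mp hCc
  obtain ⟨γ, hγ⟩ := hCp.joinedIn z0 (mem_connectedComponentIn hz0) z hz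
  have hrange : range γ ⊆ ⋃ n, interior (K n) := by
    rintro _ ⟨t, rfl⟩
    have hW' := connectedComponentIn_subset _ _ (hγ t)
    obtain ⟨m, hm⟩ := exists_mem_interior_exh hW hW'
    refine mem_iUnion.mpr ⟨m, interior_mono ?_ hm⟩
    apply exh_mono
    · apply one_div_le_one_div_of_le (by positivity)
      have : (m : ℝ) ≤ ((N + m : ℕ) : ℝ) := by exact_mod_cast Nat.le_add_left m N
      linarith
    · have : (m : ℝ) ≤ ((N + m : ℕ) : ℝ) := by exact_mod_cast Nat.le_add_left m N
      linarith
  obtain ⟨n, hn⟩ := (isCompact_range γ.continuous).elim_directed_cover _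
    (fun n => isOpen_interior) hrange (directed_of_isDirected_le
      (fun m n hmn => interior_mono (hKmono hmn)))
  refine mem_iUnion.mpr ⟨n, ?_⟩
  have hpre : IsPreconnected (range γ) := isPreconnected_range γ.continuous
  exact hpre.subset_connectedComponentIn ⟨0, γ.source⟩ hn ⟨1, γ.target⟩

theorem hasPrimitives_iff {W : Set ℂ} (hW : IsOpen W) :
    HasPrimitives W ↔ ∀ p ∉ W, IsExactOn (fun z => 1 / (z - p)) W := by
  refine ⟨fun h p hp => h _ fun z hz => ?_, hasPrimitives_of_forall_notMem hW⟩
  have hne : z - p ≠ 0 := fun h0 => hp ((sub_eq_zero.mp h0) ▸ hz)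
  have h1 : DifferentiableAt ℂ (fun z : ℂ => z - p) z := by fun_prop
  exact (DifferentiableAt.fun_div (differentiableAt_const (1 : ℂ)) h1 hne).differentiableWithinAt

/-- Intersections of two open sets with primitives. -/
theorem HasPrimitives.inter {U V : Set ℂ} (hU : IsOpen U) (hV : IsOpen V)
    (hPU : HasPrimitives U) (hPV : HasPrimitives V) : HasPrimitives (U ∩ V) := by
  apply hasPrimitives_of_forall_notMem (hU.inter hV)
  intro p hp
  by_cases hpU : p ∈ U
  · have hpV : p ∉ V := fun h => hp ⟨hpU, h⟩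
    exact isExactOn_mono ((hasPrimitives_iff hV).mp hPV p hpV) inter_subset_right
  · exact isExactOn_mono ((hasPrimitives_iff hU).mp hPU p hpU) inter_subset_left

/-- More generally: the interior of an arbitrary intersection, or any open set `W` each missing
point of which is missed by an open set with primitives containing `W`. -/
theorem HasPrimitives.of_forall_exists {W : Set ℂ} (hW : IsOpen W)
    (h : ∀ p ∉ W, ∃ U : Set ℂ, IsOpen U ∧ HasPrimitives U ∧ W ⊆ U ∧ p ∉ U) :
    HasPrimitives W := by
  apply hasPrimitives_of_forall_notMem hW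
  intro p hp
  obtain ⟨U, hU, hPU, hWU, hpU⟩ := h p hp
  exact isExactOn_mono ((hasPrimitives_iff hU).mp hPU p hpU) hWU

/-- Connected components of an open set with primitives have primitives. -/
theorem HasPrimitives.connectedComponentIn {U : Set ℂ} (hU : IsOpen U) (hPU : HasPrimitives U)
    (z : ℂ) : HasPrimitives (connectedComponentIn U z) := by
  classical
  intro f hf
  set C := _root_.connectedComponentIn U z with hC
  have hCo : IsOpen C := hU.connectedComponentIn
  set f' : ℂ → ℂ := C.indicator f with hf'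
  have hd : DifferentiableOn ℂ f' U := by
    intro w hw
    by_cases hwC : w ∈ C
    · have h1 : f' =ᶠ[𝓝 w] f := by
        filter_upwards [hCo.mem_nhds hwC] with x hx
        exact indicator_of_mem hx f
      exact ((hf.differentiableAt (hCo.mem_nhds hwC)).congr_of_eventuallyEq
        h1).differentiableWithinAt
    · have hD : IsOpen (_root_.connectedComponentIn U w) := hU.connectedComponentIn
      have h1 : f' =ᶠ[𝓝 w] fun _ => 0 := by
        filter_upwards [hD.mem_nhds (mem_connectedComponentIn hw)] with x hx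
        apply indicator_of_notMem
        intro hxC
        apply hwC
        have e1 := connectedComponentIn_eq hx
        have e2 := connectedComponentIn_eq hxC
        rw [hC, e2, ← e1]
        exact mem_connectedComponentIn hw
      exact ((differentiableAt_const _).congr_of_eventuallyEq h1).differentiableWithinAt
  have h2 := isExactOn_mono (hPU f' hd) (connectedComponentIn_subset U z)
  exact isExactOn_congr h2 fun x hx => indicator_of_mem hx f

theorem hasPrimitives_of_components {U : Set ℂ} (hU : IsOpen U)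
    (h : ∀ z ∈ U, HasPrimitives (_root_.connectedComponentIn U z)) : HasPrimitives U := by
  intro f hf
  exact isExactOn_of_components hU fun z hz => h z hz f (hf.mono (connectedComponentIn_subset _ _))

theorem hasPrimitives_univ : HasPrimitives univ := fun _ hf =>
  (differentiableOn_univ.mp hf).isExactOn_univ

theorem hasPrimitives_ball (c : ℂ) (r : ℝ) : HasPrimitives (ball c r) := fun _ hf =>
  hf.isExactOn_ball

theorem hasPrimitives_of_isSimplyConnected {U : Set ℂ} (hU : IsOpen U)
    (hs : IsSimplyConnected U) : HasPrimitives U := by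
  apply hasPrimitives_of_forall_notMem hU
  intro p hp
  obtain ⟨f, hfc, hf⟩ := exists_continuousOn_eqOn_exp_comp hs hU (g := fun z => z - p)
    (by fun_prop) (by
      rintro ⟨z, hz, h0⟩
      exact hp ((sub_eq_zero.mp h0) ▸ hz))
  refine ⟨f, fun z hz => ?_⟩
  have hne : z - p ≠ 0 := fun h0 => hp ((sub_eq_zero.mp h0) ▸ hz)
  have hcont : ContinuousAt f z := hfc.continuousAt (hU.mem_nhds hz)
  have hef : exp (f z) = z - p := hf hz
  have h1 : HasDerivAt (fun w => exp w + p) (exp (f z)) (f z) := (hasDerivAt_exp _).add_const p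
  have h2 := HasDerivAt.of_local_left_inverse hcont h1 (exp_ne_zero _) (by
    filter_upwards [hU.mem_nhds hz] with w hw
    have : exp (f w) = w - p := hf hw
    simp [this])
  rw [hef] at h2
  simpa only [one_div] using h2

/-- holomorphic logarithm -/
theorem HasPrimitives.exists_log {U : Set ℂ} (hU : IsOpen U) (hP : HasPrimitives U) {f : ℂ → ℂ}
    (hf : DifferentiableOn ℂ f U) (h0 : ∀ z ∈ U, f z ≠ 0) :
    ∃ g : ℂ → ℂ, DifferentiableOn ℂ g U ∧ ∀ z ∈ U, exp (g z) = f z := by
  classical
  have hd : DifferentiableOn ℂ (fun z => deriv f z / f z) U := (hf.deriv hU).div hf h0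
  obtain ⟨F, hF⟩ := hP _ hd
  let b : ℂ → ℂ := fun z =>
    if h : (_root_.connectedComponentIn U z).Nonempty then h.some else 0
  have hb : ∀ z ∈ U, b z ∈ _root_.connectedComponentIn U z := by
    intro z hz
    have h : (_root_.connectedComponentIn U z).Nonempty := ⟨z, mem_connectedComponentIn hz⟩
    have : b z = h.some := by simp only [b, dif_pos h]
    rw [this]; exact h.some_mem
  have hbe : ∀ z w, w ∈ _root_.connectedComponentIn U z → b w = b z := by
    intro z w hw
    have := connectedComponentIn_eq hw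
    simp only [b]
    rw [← this]
  refine ⟨fun z => F z - F (b z) + log (f (b z)), ?_, ?_⟩
  · intro z hz
    have hC : IsOpen (_root_.connectedComponentIn U z) := hU.connectedComponentIn
    have h1 : (fun w => F w - F (b w) + log (f (b w))) =ᶠ[𝓝 z]
        fun w => F w - F (b z) + log (f (b z)) := by
      filter_upwards [hC.mem_nhds (mem_connectedComponentIn hz)] with w hw
      rw [hbe z w hw]
    have h2 : DifferentiableAt ℂ (fun w => F w - F (b z) + log (f (b z))) z :=
      ((hF z hz).differentiableAt.sub_const _).add_const _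
    exact (h2.congr_of_eventuallyEq h1).differentiableWithinAt
  · intro z hz
    set C := _root_.connectedComponentIn U z with hCdef
    have hC : IsOpen C := hU.connectedComponentIn
    have hCU : C ⊆ U := connectedComponentIn_subset _ _
    have hbz := hb z hz
    have key : EqOn (fun w => exp (F w) / f w) (fun _ => exp (F (b z)) / f (b z)) C := by
      refine hC.eqOn_of_deriv_eq isPreconnected_connectedComponentIn ?_ ?_ ?_ hbz rfl
      · intro w hw
        exact (((hF w (hCU hw)).differentiableAt.cexp).div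
          (hf.differentiableAt (hU.mem_nhds (hCU hw))) (h0 w (hCU hw))).differentiableWithinAt
      · exact differentiableOn_const _
      · intro w hw
        have hw' := hCU hw
        have h1 := ((hF w hw').cexp).div (hf.differentiableAt (hU.mem_nhds hw')).hasDerivAt
          (h0 w hw')
        have h1' : HasDerivAt (fun w => exp (F w) / f w) _ w := h1
        rw [h1'.deriv]
        simp only [deriv_const']
        have := h0 w hw'
        field_simp
        ring
    have h1 := key (mem_connectedComponentIn hz)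
    simp only at h1
    have hfz := h0 z hz
    have hfb := h0 _ (hCU hbz)
    have he := exp_ne_zero (F (b z))
    rw [exp_add, exp_sub, exp_log hfb]
    field_simp at h1 ⊢
    linear_combination h1

/-- holomorphic `n`-th roots -/
theorem HasPrimitives.exists_pow_eq {U : Set ℂ} (hU : IsOpen U) (hP : HasPrimitives U) {f : ℂ → ℂ}
    (hf : DifferentiableOn ℂ f U) (h0 : ∀ z ∈ U, f z ≠ 0) {n : ℕ} (hn : n ≠ 0) :
    ∃ g : ℂ → ℂ, DifferentiableOn ℂ g U ∧ ∀ z ∈ U, g z ^ n = f z := by
  obtain ⟨g, hg, hgf⟩ := hP.exists_log hU hf h0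
  refine ⟨fun z => exp (g z / n), (hg.div_const _).cexp, fun z hz => ?_⟩
  rw [← exp_nat_mul, mul_div_cancel₀ _ (by exact_mod_cast hn), hgf z hz]

end Pool.Lib
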