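import Mathlib
import Pool.Agent.Lib.HolomorphicPrimitives

/-!
# Injective holomorphic maps

For `U` open and `f` holomorphic and injective on `U`:
* `isOpen_image_of_injOn`, `deriv_ne_zero_of_injOn`, `hasDerivAt_invFunOn`,
  `differentiableOn_invFunOn`;
* `HasPrimitives.image_of_injOn`, `HasPrimitives.of_image_of_injOn`,
  `HasPrimitives.inter_preimage`.
-/

open MeasureTheory Complex Set Filter Topology Metric Function

namespace Pool.Lib

section Inj

variable {U : Set ℂ} {f : ℂ → ℂ}

theorem not_eventually_const_of_injOn (hU : IsOpen U) (hinj : InjOn f U) {z : ℂ} (hz : z ∈ U) :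
    ¬ ∀ᶠ w in 𝓝 z, f w = f z := by
  intro h
  obtain ⟨w, hw⟩ := (((h.and (hU.mem_nhds hz)).filter_mono
    (nhdsWithin_le_nhds (s := {z}ᶜ))).and self_mem_nhdsWithin).exists
  exact hw.2 (hinj hw.1.2 hz hw.1.1)

theorem isOpen_image_of_injOn (hU : IsOpen U) (hf : DifferentiableOn ℂ f U) (hinj : InjOn f U)
    {V : Set ℂ} (hV : IsOpen V) (hVU : V ⊆ U) : IsOpen (f '' V) := by
  rw [isOpen_iff_mem_nhds]
  rintro _ ⟨z, hz, rfl⟩
  have han : AnalyticAt ℂ f z := hf.analyticAt (hU.mem_nhds (hVU hz))
  rcases han.eventually_constant_or_nhds_le_map_nhds with h | h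
  · exact absurd h (not_eventually_const_of_injOn hU hinj (hVU hz))
  · exact h (image_mem_map (hV.mem_nhds hz))

theorem continuousOn_invFunOn (hU : IsOpen U) (hf : DifferentiableOn ℂ f U) (hinj : InjOn f U) :
    ContinuousOn (invFunOn f U) (f '' U) := by
  rw [continuousOn_open_iff (isOpen_image_of_injOn hU hf hinj hU Subset.rfl)]
  intro t ht
  have : f '' U ∩ invFunOn f U ⁻¹' t = f '' (U ∩ t) := by
    ext w
    constructor
    · rintro ⟨⟨z, hz, rfl⟩, hw⟩
      rw [mem_preimage, hinj.leftInvOn_invFunOn hz] at hw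
      exact ⟨z, ⟨hz, hw⟩, rfl⟩
    · rintro ⟨z, ⟨hz, hzt⟩, rfl⟩
      refine ⟨⟨z, hz, rfl⟩, ?_⟩
      rw [mem_preimage, hinj.leftInvOn_invFunOn hz]
      exact hzt
  rw [this]
  exact isOpen_image_of_injOn hU hf hinj (hU.inter ht) inter_subset_left

theorem hasDerivAt_invFunOn_aux (hU : IsOpen U) (hf : DifferentiableOn ℂ f U) (hinj : InjOn f U)
    {z : ℂ} (hz : z ∈ U) (h0 : deriv f z ≠ 0) :
    HasDerivAt (invFunOn f U) (deriv f z)⁻¹ (f z) := by
  have hopen := isOpen_image_of_injOn hU hf hinj hU Subset.rfl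
  have hmem : f z ∈ f '' U := mem_image_of_mem f hz
  have hinv : invFunOn f U (f z) = z := hinj.leftInvOn_invFunOn hz
  have h1 : ContinuousAt (invFunOn f U) (f z) :=
    (continuousOn_invFunOn hU hf hinj).continuousAt (hopen.mem_nhds hmem)
  have h2 : HasDerivAt f (deriv f z) (invFunOn f U (f z)) := by
    rw [hinv]; exact (hf.differentiableAt (hU.mem_nhds hz)).hasDerivAt
  refine HasDerivAt.of_local_left_inverse h1 h2 h0 ?_
  filter_upwards [hopen.mem_nhds hmem] with w hw
  obtain ⟨x, hx, rfl⟩ := hw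
  rw [hinj.leftInvOn_invFunOn hx]

theorem differentiableOn_invFunOn (hU : IsOpen U) (hf : DifferentiableOn ℂ f U)
    (hinj : InjOn f U) : DifferentiableOn ℂ (invFunOn f U) (f '' U) := by
  have hopen := isOpen_image_of_injOn hU hf hinj hU Subset.rfl
  rintro _ ⟨z, hz, rfl⟩
  have hmem : f z ∈ f '' U := mem_image_of_mem f hz
  -- `f'` does not vanish in a punctured neighbourhood of `z`
  have han : AnalyticAt ℂ (deriv f) z := (hf.analyticAt (hU.mem_nhds hz)).deriv
  have hpunct : ∀ᶠ w in 𝓝[≠] z, deriv f w ≠ 0 := by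
    rcases han.eventually_eq_zero_or_eventually_ne_zero with h | h
    · exfalso
      obtain ⟨r, hr, hball⟩ := Metric.eventually_nhds_iff_ball.mp (h.and (hU.mem_nhds hz))
      apply not_eventually_const_of_injOn hU hinj hz
      filter_upwards [ball_mem_nhds z hr] with w hw
      refine isOpen_ball.is_const_of_deriv_eq_zero (convex_ball z r).isPreconnected ?_ ?_ hw
        (mem_ball_self hr)
      · exact hf.mono fun x hx => (hball x hx).2
      · intro x hx; exact (hball x hx).1
    · exact h
  obtain ⟨r, hr, hball⟩ := Metric.mem_nhdsWithin_iff.mp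
    (hpunct.and (mem_nhdsWithin_of_mem_nhds (hU.mem_nhds hz)))
  have hballU : ball z r ⊆ U := by
    intro w hw
    by_cases hwz : w = z
    · rw [hwz]; exact hz
    · exact (hball ⟨hw, hwz⟩).2
  have hVopen : IsOpen (f '' ball z r) := isOpen_image_of_injOn hU hf hinj isOpen_ball hballU
  have hVmem : f z ∈ f '' ball z r := mem_image_of_mem f (mem_ball_self hr)
  have hcont : ContinuousAt (invFunOn f U) (f z) :=
    (continuousOn_invFunOn hU hf hinj).continuousAt (hopen.mem_nhds hmem)
  have hd : DifferentiableOn ℂ (invFunOn f U) (f '' ball z r \ {f z}) := by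
    rintro _ ⟨⟨w, hw, rfl⟩, hne⟩
    have hwz : w ≠ z := fun h => hne (by rw [h]; rfl)
    exact (hasDerivAt_invFunOn_aux hU hf hinj (hballU hw)
      (hball ⟨hw, hwz⟩).1).differentiableAt.differentiableWithinAt
  have := (Complex.differentiableOn_compl_singleton_and_continuousAt_iff
    (hVopen.mem_nhds hVmem)).mp ⟨hd, hcont⟩
  exact (this.differentiableAt (hVopen.mem_nhds hVmem)).differentiableWithinAt

/-- The derivative of an injective holomorphic function does not vanish. -/
theorem deriv_ne_zero_of_injOn (hU : IsOpen U) (hf : DifferentiableOn ℂ f U) (hinj : InjOn f U)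
    {z : ℂ} (hz : z ∈ U) : deriv f z ≠ 0 := by
  have hopen := isOpen_image_of_injOn hU hf hinj hU Subset.rfl
  have hmem : f z ∈ f '' U := mem_image_of_mem f hz
  have h1 : HasDerivAt (invFunOn f U) (deriv (invFunOn f U) (f z)) (f z) :=
    ((differentiableOn_invFunOn hU hf hinj).differentiableAt (hopen.mem_nhds hmem)).hasDerivAt
  have h2 : HasDerivAt f (deriv f z) z := (hf.differentiableAt (hU.mem_nhds hz)).hasDerivAt
  have h3 := h1.comp z h2
  have h4 : HasDerivAt (invFunOn f U ∘ f) 1 z := by
    refine (hasDerivAt_id z).congr_of_eventuallyEq ?_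
    filter_upwards [hU.mem_nhds hz] with w hw
    exact hinj.leftInvOn_invFunOn hw
  have h5 := h3.unique h4
  intro h0
  rw [h0, mul_zero] at h5
  exact zero_ne_one h5

theorem hasDerivAt_invFunOn (hU : IsOpen U) (hf : DifferentiableOn ℂ f U) (hinj : InjOn f U)
    {z : ℂ} (hz : z ∈ U) : HasDerivAt (invFunOn f U) (deriv f z)⁻¹ (f z) :=
  hasDerivAt_invFunOn_aux hU hf hinj hz (deriv_ne_zero_of_injOn hU hf hinj hz)

/-- Conformal images of open sets with primitives. -/
theorem HasPrimitives.image_of_injOn (hU : IsOpen U) (hP : HasPrimitives U)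
    (hf : DifferentiableOn ℂ f U) (hinj : InjOn f U) : HasPrimitives (f '' U) := by
  intro h hh
  have hopen := isOpen_image_of_injOn hU hf hinj hU Subset.rfl
  have hd : DifferentiableOn ℂ (fun z => h (f z) * deriv f z) U :=
    (hh.comp hf (mapsTo_image f U)).mul (hf.deriv hU)
  obtain ⟨G, hG⟩ := hP _ hd
  refine ⟨fun w => G (invFunOn f U w), ?_⟩
  rintro _ ⟨z, hz, rfl⟩
  have hinv : invFunOn f U (f z) = z := hinj.leftInvOn_invFunOn hz
  have h1 := hasDerivAt_invFunOn hU hf hinj hz
  have h2 : HasDerivAt G (h (f z) * deriv f z) (invFunOn f U (f z)) := by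
    rw [hinv]; exact hG z hz
  have h3 := h2.comp (f z) h1
  refine h3.congr_deriv ?_
  have := deriv_ne_zero_of_injOn hU hf hinj hz
  field_simp

theorem invFunOn_image (hinj : InjOn f U) : invFunOn f U '' (f '' U) = U := by
  rw [image_image]
  ext z
  constructor
  · rintro ⟨w, hw, rfl⟩
    have := hinj.leftInvOn_invFunOn hw
    simp only
    rw [this]; exact hw
  · intro hz
    exact ⟨z, hz, hinj.leftInvOn_invFunOn hz⟩

/-- If the conformal image of `U` has primitives, so has `U`. -/
theorem HasPrimitives.of_image_of_injOn (hU : IsOpen U) (hf : DifferentiableOn ℂ f U)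
    (hinj : InjOn f U) (hP : HasPrimitives (f '' U)) : HasPrimitives U := by
  have hopen := isOpen_image_of_injOn hU hf hinj hU Subset.rfl
  have h1 : InjOn (invFunOn f U) (f '' U) := invFunOn_injOn_image f U
  have := hP.image_of_injOn hopen (differentiableOn_invFunOn hU hf hinj) h1
  rwa [invFunOn_image hinj] at this

/-- Preimages under a conformal map. -/
theorem HasPrimitives.inter_preimage (hU : IsOpen U) (hPU : HasPrimitives U)
    (hf : DifferentiableOn ℂ f U) (hinj : InjOn f U) {V : Set ℂ} (hV : IsOpen V)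
    (hPV : HasPrimitives V) : HasPrimitives (U ∩ f ⁻¹' V) := by
  have hopen := isOpen_image_of_injOn hU hf hinj hU Subset.rfl
  have hW : IsOpen (U ∩ f ⁻¹' V) := hf.continuousOn.isOpen_inter_preimage hU hV
  apply HasPrimitives.of_image_of_injOn hW (hf.mono inter_subset_left)
    (hinj.mono inter_subset_left)
  rw [image_inter_preimage]
  exact (hPU.image_of_injOn hU hf hinj).inter hopen hV hPV

end Inj

/-- Complex conjugation. -/
theorem HasPrimitives.conj {U : Set ℂ} (hU : IsOpen U) (hP : HasPrimitives U) :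
    HasPrimitives ((starRingEnd ℂ) ⁻¹' U) := by
  have hU' : IsOpen ((starRingEnd ℂ) ⁻¹' U) := hU.preimage continuous_conj
  intro f hf
  have hd : DifferentiableOn ℂ (fun z => (starRingEnd ℂ) (f ((starRingEnd ℂ) z))) U := by
    intro z hz
    have hz' : (starRingEnd ℂ) z ∈ (starRingEnd ℂ) ⁻¹' U := by simpa using hz
    have h1 := hf.differentiableAt (hU'.mem_nhds hz')
    exact (differentiableAt_conj_conj_iff.mpr h1).differentiableWithinAt
  obtain ⟨G, hG⟩ := hP _ hd
  refine ⟨fun z => (starRingEnd ℂ) (G ((starRingEnd ℂ) z)), fun z hz => ?_⟩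
  have h1 := HasDerivAt.conj_conj (hG _ hz)
  rw [conj_conj, conj_conj] at h1
  exact h1

/-- Convex open sets have primitives. -/
theorem hasPrimitives_of_convex {U : Set ℂ} (hU : IsOpen U) (hc : Convex ℝ U) :
    HasPrimitives U := by
  apply hasPrimitives_of_forall_notMem hU
  intro p hp
  obtain ⟨φ, hφ⟩ := geometric_hahn_banach_open_point hc hU hp
  -- `φ z = Re (u z)` for some nonzero `u`
  set u : ℂ := (φ 1 : ℂ) - (φ I : ℂ) * I with hu
  have hφu : ∀ z, φ z = (u * z).re := by
    intro z
    have h1 : z = z.re • (1 : ℂ) + z.im • I := by apply Complex.ext <;> simp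
    conv_lhs => rw [h1]
    rw [map_add, map_smul, map_smul]
    simp [hu]
    ring
  have hslit : ∀ z ∈ U, -(u * (z - p)) ∈ slitPlane := by
    intro z hz
    left
    have h1 := hφ z hz
    rw [hφu, hφu] at h1
    rw [mul_sub, neg_re, sub_re]
    linarith
  refine ⟨fun z => log (-(u * (z - p))), fun z hz => ?_⟩
  have h1 : HasDerivAt (fun z => -(u * (z - p))) (-(u * 1)) z :=
    (((hasDerivAt_id z).sub_const p).const_mul u).neg
  have h2 := h1.clog (hslit z hz)
  refine h2.congr_deriv ?_
  have hne : u * (z - p) ≠ 0 := by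
    have := slitPlane_ne_zero (hslit z hz)
    intro h; apply this; rw [h, neg_zero]
  have hu0 : u ≠ 0 := left_ne_zero_of_mul hne
  have hz0 : z - p ≠ 0 := right_ne_zero_of_mul hne
  field_simp

end Pool.Lib
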