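import Mathlib
import Pool.Agent.Lib.Conformal
import Pool.Agent.Lib.RiemannMapping

/-!
# Components of intersections of simply connected plane domains

* `hasPrimitives_iff_isSimplyConnected`, `hasPrimitives_iff_hasHolSqrt` for connected open sets.
* `isSimplyConnected_component_inter`: every component of the intersection of two open simply
  connected sets is simply connected.
* `exists_map_component_inter`: every component of the intersection of two conformal discs is a
  conformal disc.
-/

open Complex Set Filter Topology Metric Function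
open Pool.Agent.Lib.RiemannMapping

namespace Pool.Lib

variable {U V : Set ℂ}

theorem HasPrimitives.hasHolSqrt (hU : IsOpen U) (hP : HasPrimitives U) : HasHolSqrt U := by
  intro g hg hg0
  exact hP.exists_pow_eq hU hg hg0 two_ne_zero

theorem HasPrimitives.isSimplyConnected (hU : IsOpen U) (hUc : IsConnected U)
    (hP : HasPrimitives U) : IsSimplyConnected U :=
  isSimplyConnected_of_hasHolSqrt hU hUc (hP.hasHolSqrt hU)

theorem hasPrimitives_iff_isSimplyConnected (hU : IsOpen U) (hUc : IsConnected U) :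
    HasPrimitives U ↔ IsSimplyConnected U :=
  ⟨fun h => h.isSimplyConnected hU hUc, hasPrimitives_of_isSimplyConnected hU⟩

theorem hasPrimitives_iff_hasHolSqrt (hU : IsOpen U) (hUc : IsConnected U) :
    HasPrimitives U ↔ HasHolSqrt U :=
  ⟨fun h => h.hasHolSqrt hU, fun h => hasPrimitives_of_isSimplyConnected hU
    (isSimplyConnected_of_hasHolSqrt hU hUc h)⟩

/-- Components of open sets with primitives are simply connected. -/
theorem HasPrimitives.isSimplyConnected_component (hU : IsOpen U) (hP : HasPrimitives U)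
    {p : ℂ} (hp : p ∈ U) : IsSimplyConnected (_root_.connectedComponentIn U p) :=
  (hP.connectedComponentIn hU p).isSimplyConnected hU.connectedComponentIn
    ⟨⟨p, mem_connectedComponentIn hp⟩, isPreconnected_connectedComponentIn⟩

/-- Components of the intersection of two simply connected open sets are simply connected. -/
theorem isSimplyConnected_component_inter (hU : IsOpen U) (hV : IsOpen V)
    (hUs : IsSimplyConnected U) (hVs : IsSimplyConnected V) {p : ℂ} (hp : p ∈ U ∩ V) :
    IsSimplyConnected (connectedComponentIn (U ∩ V) p) :=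
  ((hasPrimitives_of_isSimplyConnected hU hUs).inter hU hV
    (hasPrimitives_of_isSimplyConnected hV hVs)).isSimplyConnected_component (hU.inter hV) hp

/-- A holomorphic function on the disc is not surjective onto the plane if it is injective. -/
theorem image_ball_ne_univ {f : ℂ → ℂ} (hf : DifferentiableOn ℂ f (ball 0 1))
    (hinj : InjOn f (ball 0 1)) : f '' ball 0 1 ≠ univ := by
  intro h
  have h1 := differentiableOn_invFunOn isOpen_ball hf hinj
  rw [h] at h1
  have h2 : Differentiable ℂ (invFunOn f (ball 0 1)) := differentiableOn_univ.mp h1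
  have hmem : ∀ w, invFunOn f (ball 0 1) w ∈ ball (0 : ℂ) 1 := by
    intro w
    have : w ∈ f '' ball 0 1 := by rw [h]; exact mem_univ w
    obtain ⟨z, hz, hzw⟩ := this
    exact invFunOn_mem ⟨z, hz, hzw⟩
  have hb : Bornology.IsBounded (range (invFunOn f (ball 0 1))) := by
    refine (isBounded_ball (x := (0 : ℂ)) (r := 1)).subset ?_
    rintro _ ⟨w, rfl⟩
    exact hmem w
  obtain ⟨c, hc⟩ := h2.exists_const_forall_eq_of_bounded hb
  have h3 : ∀ z ∈ ball (0 : ℂ) 1, z = c := by
    intro z hz
    rw [← hc (f z)]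
    exact (hinj.leftInvOn_invFunOn hz).symm
  have h4 := h3 0 (mem_ball_self one_pos)
  have h5 := h3 (1 / 2) (by simp; norm_num)
  rw [← h4] at h5
  norm_num at h5

/-- Every component of the intersection of two conformal discs is a conformal disc. -/
theorem exists_map_component_inter {f₁ f₂ : ℂ → ℂ} (hf₁ : DifferentiableOn ℂ f₁ (ball 0 1))
    (hi₁ : InjOn f₁ (ball 0 1)) (hf₂ : DifferentiableOn ℂ f₂ (ball 0 1))
    (hi₂ : InjOn f₂ (ball 0 1)) {p : ℂ} (hp : p ∈ f₁ '' ball 0 1 ∩ f₂ '' ball 0 1) :
    ∃ G : ℂ → ℂ, DifferentiableOn ℂ G (ball 0 1) ∧ InjOn G (ball 0 1) ∧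
      G '' ball 0 1 = connectedComponentIn (f₁ '' ball 0 1 ∩ f₂ '' ball 0 1) p ∧ G 0 = p ∧
      ∃ c : ℝ, 0 < c ∧ deriv G 0 = c := by
  have ho₁ := isOpen_image_of_injOn isOpen_ball hf₁ hi₁ isOpen_ball Subset.rfl
  have ho₂ := isOpen_image_of_injOn isOpen_ball hf₂ hi₂ isOpen_ball Subset.rfl
  have hP₁ := (hasPrimitives_ball 0 1).image_of_injOn isOpen_ball hf₁ hi₁
  have hP₂ := (hasPrimitives_ball 0 1).image_of_injOn isOpen_ball hf₂ hi₂
  have hP := (hP₁.inter ho₁ ho₂ hP₂).connectedComponentIn (ho₁.inter ho₂) p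
  have hne : connectedComponentIn (f₁ '' ball 0 1 ∩ f₂ '' ball 0 1) p ≠ univ := by
    intro h
    apply image_ball_ne_univ hf₁ hi₁
    rw [eq_univ_iff_forall]
    intro z
    have : z ∈ connectedComponentIn (f₁ '' ball 0 1 ∩ f₂ '' ball 0 1) p := by
      rw [h]; exact mem_univ z
    exact (connectedComponentIn_subset _ _ this).1
  obtain ⟨G, -, h1, h2, h3, h4, h5, -⟩ := exists_map_of_ball (ho₁.inter ho₂).connectedComponentIn
    isPreconnected_connectedComponentIn
    (hP.hasHolSqrt (ho₁.inter ho₂).connectedComponentIn) hne (mem_connectedComponentIn hp)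
  exact ⟨G, h1, h2, h3, h4, h5⟩

/-- Components of the preimage of a conformal disc (or any open set with primitives) under an
injective holomorphic map of the disc are conformal discs. -/
theorem exists_map_component_preimage {f : ℂ → ℂ} (hf : DifferentiableOn ℂ f (ball 0 1))
    (hi : InjOn f (ball 0 1)) (hV : IsOpen V) (hPV : HasPrimitives V) {p : ℂ}
    (hp : p ∈ ball (0 : ℂ) 1 ∩ f ⁻¹' V) :
    ∃ G : ℂ → ℂ, DifferentiableOn ℂ G (ball 0 1) ∧ InjOn G (ball 0 1) ∧
      G '' ball 0 1 = connectedComponentIn (ball 0 1 ∩ f ⁻¹' V) p ∧ G 0 = p ∧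
      ∃ c : ℝ, 0 < c ∧ deriv G 0 = c := by
  have ho : IsOpen (ball (0 : ℂ) 1 ∩ f ⁻¹' V) :=
    hf.continuousOn.isOpen_inter_preimage isOpen_ball hV
  have hP := ((hasPrimitives_ball 0 1).inter_preimage isOpen_ball hf hi hV
    hPV).connectedComponentIn ho p
  have hne : connectedComponentIn (ball (0 : ℂ) 1 ∩ f ⁻¹' V) p ≠ univ := by
    intro h
    have h2 : (2 : ℂ) ∈ connectedComponentIn (ball (0 : ℂ) 1 ∩ f ⁻¹' V) p := by
      rw [h]; exact mem_univ _
    have h3 := (connectedComponentIn_subset _ _ h2).1
    simp at h3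
  obtain ⟨G, -, h1, h2, h3, h4, h5, -⟩ := exists_map_of_ball ho.connectedComponentIn
    isPreconnected_connectedComponentIn (hP.hasHolSqrt ho.connectedComponentIn) hne
    (mem_connectedComponentIn hp)
  exact ⟨G, h1, h2, h3, h4, h5⟩

end Pool.Lib
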