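import Mathlib
import Pool.Agent.Lib.Brouwer

/-!
# Brouwer's invariance of domain theorem

Proof following Kulpa and Tao: Brouwer's fixed point theorem gives the stability of the zero of
the inverse, and a small perturbation of the inverse has no zero if the image is not a
neighbourhood.
-/

open MeasureTheory Metric Set
open scoped NNReal ENNReal Topology

namespace Pool.Lib

noncomputable section

variable {E : Type*} [NormedAddCommGroup E] [InnerProductSpace ℝ E] [FiniteDimensional ℝ E]

/-- Stability of the zero: if `G (f x) = x` on the ball and `G'` is within `1` of `G` on the image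
of the ball, then `G'` has a zero on this image. -/
theorem stability_of_zero {f G' : E → E}
    (hf : ContinuousOn f (closedBall (0 : E) 1))
    (hG' : ContinuousOn G' (f '' closedBall (0 : E) 1))
    (hclose : ∀ x ∈ closedBall (0 : E) 1, ‖x - G' (f x)‖ ≤ 1) :
    ∃ x ∈ closedBall (0 : E) 1, G' (f x) = 0 := by
  obtain ⟨x, hx, hfix⟩ := brouwer_fixed_point_of_innerProductSpace
    (f := fun x => x - G' (f x))
    (continuousOn_id.sub (hG'.comp hf (mapsTo_image f _)))
    (fun x hx => mem_closedBall_zero_iff.2 (hclose x hx))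
  exact ⟨x, hx, by simpa using hfix⟩

/-- Core case of the invariance of domain: the image of the closed unit ball under an injective
continuous map is a neighbourhood of the image of the centre. -/
theorem image_closedBall_mem_nhds {f : E → E}
    (hf : ContinuousOn f (closedBall (0 : E) 1)) (hinj : InjOn f (closedBall (0 : E) 1)) :
    f '' closedBall (0 : E) 1 ∈ 𝓝 (f 0) := by
  classical
  borelize E
  rcases subsingleton_or_nontrivial E with hE | hE
  · have : f '' closedBall (0 : E) 1 = univ := by
      refine eq_univ_of_forall fun y => ⟨0, mem_closedBall_self zero_le_one, Subsingleton.elim _ _⟩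
    rw [this]
    exact Filter.univ_mem
  by_contra hcon
  set B := closedBall (0 : E) 1 with hB
  have hBc : IsCompact B := isCompact_closedBall _ _
  have h0B : (0 : E) ∈ B := mem_closedBall_self zero_le_one
  have hKc : IsCompact (f '' B) := hBc.image_of_continuousOn hf
  -- the continuous inverse
  have : CompactSpace B := isCompact_iff_compactSpace.1 hBc
  have hemb : Topology.IsClosedEmbedding (B.domRestrict f) :=
    (Continuous.isClosedEmbedding hf.domRestrict (injOn_iff_injective.1 hinj))
  obtain ⟨G, hG⟩ := ContinuousMap.exists_extension' hemb (⟨Subtype.val, continuous_subtype_val⟩ :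
    C(B, E))
  have hGf : ∀ x ∈ B, G (f x) = x := by
    intro x hx
    have := congrFun hG ⟨x, hx⟩
    simpa using this
  -- choice of `ε`
  have hGc : ContinuousAt G (f 0) := G.continuous.continuousAt
  have hG0 : G (f 0) = 0 := hGf 0 h0B
  obtain ⟨ε', hε'pos, hε'⟩ := Metric.continuousAt_iff.1 hGc (1 / 10) (by norm_num)
  set ε : ℝ := ε' / 3 with hε
  have hεpos : 0 < ε := by positivity
  -- a point `c` close to `f 0` outside the image
  obtain ⟨c, hc, hcK⟩ : ∃ c ∈ ball (f 0) ε, c ∉ f '' B := by
    by_contra hcon2
    push Not at hcon2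
    exact hcon (Filter.mem_of_superset (ball_mem_nhds _ hεpos) hcon2)
  have hGsmall : ∀ y, ‖y - c‖ ≤ ε → ‖G y‖ < 1 / 10 := by
    intro y hy
    have h1 : dist y (f 0) < ε' := by
      calc dist y (f 0) ≤ dist y c + dist c (f 0) := dist_triangle _ _ _
        _ < ε + ε := by
          rw [dist_eq_norm]
          have := mem_ball.1 hc
          linarith
        _ ≤ ε' := by rw [hε]; linarith
    have h2 := hε' h1
    rwa [hG0, dist_zero_right] at h2
  -- the radial push
  have hcne : ∀ y ∈ f '' B, 0 < ‖y - c‖ := by
    intro y hy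
    refine norm_pos_iff.2 (sub_ne_zero.2 ?_)
    rintro rfl
    exact hcK hy
  set Φ : E → E := fun y => c + (max (ε / ‖y - c‖) 1) • (y - c) with hΦ
  have hΦc : ContinuousOn Φ (f '' B) := by
    refine continuousOn_const.add (ContinuousOn.smul ?_ (continuousOn_id.sub continuousOn_const))
    have h1 : ContinuousOn (fun y => ε / ‖y - c‖) (f '' B) :=
      continuousOn_const.div (continuousOn_id.sub continuousOn_const).norm
        (fun y hy => (hcne y hy).ne')
    have h2 : Continuous fun t : ℝ => max t 1 := continuous_id.max continuous_const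
    exact h2.comp_continuousOn h1
  have hΦ1 : ∀ y, ε ≤ ‖y - c‖ → Φ y = y := by
    intro y hy
    have h1 : max (ε / ‖y - c‖) 1 = 1 := by
      refine max_eq_right ?_
      rw [div_le_one (by linarith)]
      exact hy
    simp only [hΦ, h1]
    simp
  have hΦ2 : ∀ y ∈ f '' B, ‖y - c‖ ≤ ε → ‖Φ y - c‖ = ε := by
    intro y hy hyε
    have h0 := hcne y hy
    have h1 : max (ε / ‖y - c‖) 1 = ε / ‖y - c‖ := by
      refine max_eq_left ?_
      rw [one_le_div h0]
      exact hyε
    simp only [hΦ, h1]
    rw [add_sub_cancel_left, norm_smul, norm_div, norm_norm, Real.norm_eq_abs,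
      abs_of_pos hεpos]
    field_simp
  -- lower bound of `‖G‖` on the outer part of the image
  set S1 : Set E := f '' B ∩ {y | ε ≤ ‖y - c‖} with hS1
  have hS1c : IsCompact S1 := hKc.inter_right
    (isClosed_le continuous_const (continuous_id.sub continuous_const).norm)
  obtain ⟨δ, hδpos, hδle, hδ⟩ : ∃ δ : ℝ, 0 < δ ∧ δ ≤ 1 / 10 ∧ ∀ y ∈ S1, δ ≤ ‖G y‖ := by
    rcases S1.eq_empty_or_nonempty with hemp | hne
    · exact ⟨1 / 10, by norm_num, le_rfl, fun y hy => by rw [hemp] at hy; exact hy.elim⟩
    · obtain ⟨y₀, hy₀, hmin⟩ := hS1c.exists_isMinOn hne (G.continuous.norm.continuousOn)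
      have hpos : 0 < ‖G y₀‖ := by
        rw [norm_pos_iff]
        obtain ⟨x, hx, hxy⟩ := hy₀.1
        rw [← hxy, hGf x hx]
        rintro rfl
        have h1 : ε ≤ ‖y₀ - c‖ := hy₀.2
        rw [← hxy, ← dist_eq_norm, dist_comm] at h1
        have := mem_ball.1 hc
        linarith
      exact ⟨min ‖G y₀‖ (1 / 10), lt_min hpos (by norm_num), min_le_right _ _,
        fun y hy => (min_le_left _ _).trans (hmin hy)⟩
  -- smooth approximation
  obtain ⟨P, hPC, hPapp, -⟩ := G.continuous.exists_contDiff_approx 1
    (ε := fun _ => δ / 2) continuous_const (fun _ => by positivity)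
  have hPd : Differentiable ℝ P := by
    have h1 : ContDiff ℝ 1 P := hPC
    exact h1.differentiable (by norm_num)
  have hnull : volume (P '' sphere c ε) = 0 :=
    addHaar_image_eq_zero_of_differentiableOn_of_addHaar_eq_zero _ hPd.differentiableOn
      (Measure.addHaar_sphere _ _ _)
  -- generic shift
  obtain ⟨s, hs1, hs2⟩ : ∃ s ∈ ball (0 : E) (δ / 2), s ∉ P '' sphere c ε := by
    by_contra hcon2
    push Not at hcon2
    have h1 : volume (ball (0 : E) (δ / 2)) ≤ 0 := by
      rw [← hnull]
      exact measure_mono hcon2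
    have h2 := measure_ball_pos (volume : Measure E) (0 : E) (half_pos hδpos)
    exact absurd h1 (not_le.2 h2)
  have hsn : ‖s‖ < δ / 2 := mem_ball_zero_iff.1 hs1
  set Q : E → E := fun y => P y - s with hQ
  have hQapp : ∀ y, ‖G y - Q y‖ < δ := by
    intro y
    have h1 := hPapp y
    rw [dist_eq_norm, norm_sub_rev] at h1
    calc ‖G y - Q y‖ = ‖(G y - P y) + s‖ := by simp only [hQ]; congr 1; abel
      _ ≤ ‖G y - P y‖ + ‖s‖ := norm_add_le _ _
      _ < δ := by linarith
  have hQ0 : ∀ y ∈ f '' B, Q (Φ y) ≠ 0 := by
    intro y hy h0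
    rcases le_total ε ‖y - c‖ with h1 | h1
    · rw [hΦ1 y h1] at h0
      have h2 := hQapp y
      rw [h0, sub_zero] at h2
      exact absurd (hδ y ⟨hy, h1⟩) (not_le.2 h2)
    · have h2 : Φ y ∈ sphere c ε := by
        rw [mem_sphere_iff_norm]
        exact hΦ2 y hy h1
      apply hs2
      refine ⟨Φ y, h2, ?_⟩
      exact sub_eq_zero.1 h0
  have hQc : Continuous Q := hPd.continuous.sub continuous_const
  obtain ⟨x, hx, hx0⟩ := stability_of_zero (G' := fun y => Q (Φ y)) hf (hQc.comp_continuousOn hΦc)
    (by
      intro x hx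
      have hfx : f x ∈ f '' B := mem_image_of_mem _ hx
      have h1 := hQapp (Φ (f x))
      have h2 : ‖x - G (Φ (f x))‖ ≤ 1 / 5 := by
        rcases le_total ε ‖f x - c‖ with h3 | h3
        · rw [hΦ1 _ h3, hGf x hx]
          simp
        · have h4 := hGsmall (f x) h3
          have h5 := hGsmall (Φ (f x)) (hΦ2 _ hfx h3).le
          rw [hGf x hx] at h4
          calc ‖x - G (Φ (f x))‖ ≤ ‖x‖ + ‖G (Φ (f x))‖ := norm_sub_le _ _
            _ ≤ _ := by linarith
      calc ‖x - Q (Φ (f x))‖ = ‖(x - G (Φ (f x))) + (G (Φ (f x)) - Q (Φ (f x)))‖ := by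
            congr 1; abel
        _ ≤ ‖x - G (Φ (f x))‖ + ‖G (Φ (f x)) - Q (Φ (f x))‖ := norm_add_le _ _
        _ ≤ 1 := by linarith)
  exact hQ0 (f x) (mem_image_of_mem _ hx) hx0

/-- The image of a closed ball around `a` under an injective continuous map is a neighbourhood of
the image of `a`. -/
theorem image_closedBall_mem_nhds' {f : E → E} {a : E} {R : ℝ} (hR : 0 < R)
    (hf : ContinuousOn f (closedBall a R)) (hinj : InjOn f (closedBall a R)) :
    f '' closedBall a R ∈ 𝓝 (f a) := by
  set T : E → E := fun x => a + R • x with hT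
  have hTc : Continuous T := by fun_prop
  have hTm : MapsTo T (closedBall (0 : E) 1) (closedBall a R) := by
    intro x hx
    rw [mem_closedBall_iff_norm]
    simp only [hT, add_sub_cancel_left]
    rw [norm_smul, Real.norm_eq_abs, abs_of_pos hR]
    have := mem_closedBall_zero_iff.1 hx
    nlinarith
  have hTi : Function.Injective T := by
    intro x y hxy
    simp only [hT, add_right_inj] at hxy
    exact smul_right_injective E hR.ne' hxy
  have h1 := image_closedBall_mem_nhds (f := f ∘ T) (hf.comp hTc.continuousOn hTm)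
    (hinj.comp hTi.injOn hTm)
  have h2 : (f ∘ T) 0 = f a := by simp [hT]
  rw [h2, image_comp] at h1
  exact Filter.mem_of_superset h1 (image_mono hTm.image_subset)

/-- **Invariance of domain** in a finite dimensional real inner product space. -/
theorem invariance_of_domain_of_innerProductSpace {U : Set E} (hU : IsOpen U) {f : E → E}
    (hf : ContinuousOn f U) (hinj : InjOn f U) : IsOpen (f '' U) := by
  rw [isOpen_iff_mem_nhds]
  rintro _ ⟨a, ha, rfl⟩
  obtain ⟨R, hR, hRU⟩ := Metric.nhds_basis_closedBall.mem_iff.1 (hU.mem_nhds ha)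
  exact Filter.mem_of_superset (image_closedBall_mem_nhds' hR (hf.mono hRU) (hinj.mono hRU))
    (image_mono hRU)

/-- **Invariance of domain**. -/
theorem invariance_of_domain {n : ℕ} {U : Set (EuclideanSpace ℝ (Fin n))} (hU : IsOpen U)
    {f : EuclideanSpace ℝ (Fin n) → EuclideanSpace ℝ (Fin n)}
    (hf : ContinuousOn f U) (hinj : Set.InjOn f U) : IsOpen (f '' U) :=
  invariance_of_domain_of_innerProductSpace hU hf hinj

section Normed

variable {V W : Type*} [NormedAddCommGroup V] [NormedSpace ℝ V] [FiniteDimensional ℝ V]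
  [NormedAddCommGroup W] [NormedSpace ℝ W] [FiniteDimensional ℝ W]

/-- Invariance of domain between finite dimensional normed spaces of the same dimension. -/
theorem invariance_of_domain_of_finrank_eq (hVW : Module.finrank ℝ V = Module.finrank ℝ W)
    {U : Set V} (hU : IsOpen U) {f : V → W} (hf : ContinuousOn f U) (hinj : InjOn f U) :
    IsOpen (f '' U) := by
  set n := Module.finrank ℝ V with hn
  let eV : V ≃L[ℝ] EuclideanSpace ℝ (Fin n) :=
    ContinuousLinearEquiv.ofFinrankEq (by rw [finrank_euclideanSpace_fin])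
  let eW : W ≃L[ℝ] EuclideanSpace ℝ (Fin n) :=
    ContinuousLinearEquiv.ofFinrankEq (by rw [finrank_euclideanSpace_fin, hVW])
  have h1 : IsOpen (eV '' U) := eV.toHomeomorph.isOpenMap U hU
  have h2 : IsOpen ((fun y => eW (f (eV.symm y))) '' (eV '' U)) := by
    refine invariance_of_domain h1 ?_ ?_
    · refine eW.continuous.comp_continuousOn (hf.comp eV.symm.continuous.continuousOn ?_)
      rintro _ ⟨x, hx, rfl⟩
      simpa using hx
    · rintro _ ⟨x, hx, rfl⟩ _ ⟨y, hy, rfl⟩ hxy
      simp only [ContinuousLinearEquiv.symm_apply_apply] at hxy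
      rw [hinj hx hy (eW.injective hxy)]
  have h3 : f '' U = eW ⁻¹' ((fun y => eW (f (eV.symm y))) '' (eV '' U)) := by
    ext y
    constructor
    · rintro ⟨x, hx, rfl⟩
      exact ⟨eV x, mem_image_of_mem _ hx, by simp⟩
    · rintro ⟨_, ⟨x, hx, rfl⟩, hxy⟩
      simp only [ContinuousLinearEquiv.symm_apply_apply] at hxy
      exact ⟨x, hx, eW.injective hxy⟩
  rw [h3]
  exact h2.preimage eW.continuous

/-- Invariance of dimension: no nonempty open subset of a space of larger dimension embeds
continuously and injectively into a space of smaller dimension. -/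
theorem not_injOn_of_finrank_lt (hVW : Module.finrank ℝ W < Module.finrank ℝ V)
    {U : Set V} (hU : IsOpen U) (hne : U.Nonempty) {f : V → W} (hf : ContinuousOn f U) :
    ¬ InjOn f U := by
  intro hinj
  set m := Module.finrank ℝ W with hm
  set n := Module.finrank ℝ V with hn
  -- embed `W` in `W × ℝ^(n-m)`
  let Z := EuclideanSpace ℝ (Fin (n - m))
  have hfin : Module.finrank ℝ V = Module.finrank ℝ (W × Z) := by
    rw [Module.finrank_prod, finrank_euclideanSpace_fin]
    omega
  have h1 : IsOpen ((fun x => (f x, (0 : Z))) '' U) := by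
    refine invariance_of_domain_of_finrank_eq hfin hU (hf.prodMk continuousOn_const) ?_
    intro x hx y hy hxy
    exact hinj hx hy (Prod.ext_iff.1 hxy).1
  obtain ⟨x, hx⟩ := hne
  have h2 : IsOpen ((fun z : Z => (f x, z)) ⁻¹' ((fun x => (f x, (0 : Z))) '' U)) :=
    h1.preimage (by fun_prop)
  have h3 : ((fun z : Z => (f x, z)) ⁻¹' ((fun x => (f x, (0 : Z))) '' U)) = {0} := by
    ext z
    constructor
    · rintro ⟨y, _, hyz⟩
      exact (Prod.ext_iff.1 hyz).2.symm
    · rintro rfl
      exact ⟨x, hx, rfl⟩
  rw [h3] at h2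
  have hpos : 0 < n - m := by omega
  have : Nontrivial Z := by
    have : Nonempty (Fin (n - m)) := ⟨⟨0, hpos⟩⟩
    infer_instance
  have h4 : (𝓝[≠] (0 : Z)).NeBot := Module.punctured_nhds_neBot ℝ Z 0
  exact not_isOpen_singleton (0 : Z) h2

/-- Invariance of dimension, for injective continuous maps of whole spaces. -/
theorem finrank_le_of_injective {f : V → W} (hf : Continuous f) (hinj : Function.Injective f) :
    Module.finrank ℝ V ≤ Module.finrank ℝ W := by
  by_contra hcon
  push Not at hcon
  exact not_injOn_of_finrank_lt hcon isOpen_univ univ_nonempty hf.continuousOn hinj.injOn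

/-- Invariance of dimension, for homeomorphic spaces. -/
theorem finrank_eq_of_homeomorph (e : V ≃ₜ W) :
    Module.finrank ℝ V = Module.finrank ℝ W :=
  le_antisymm (finrank_le_of_injective e.continuous e.injective)
    (finrank_le_of_injective e.symm.continuous e.symm.injective)

end Normed

section Manifold

variable {H : Type*} [NormedAddCommGroup H] [NormedSpace ℝ H] [FiniteDimensional ℝ H]
  {H' : Type*} [NormedAddCommGroup H'] [NormedSpace ℝ H'] [FiniteDimensional ℝ H']
  {M : Type*} [TopologicalSpace M] [ChartedSpace H M]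
  {N : Type*} [TopologicalSpace N] [ChartedSpace H' N]

/-- Invariance of domain for (boundaryless) topological manifolds of the same dimension:
an injective continuous map is open. No separation axiom is needed. -/
theorem isOpenMap_of_injective_of_chartedSpace
    (hHH : Module.finrank ℝ H = Module.finrank ℝ H')
    {f : M → N} (hf : Continuous f) (hinj : Function.Injective f) : IsOpenMap f := by
  rw [isOpenMap_iff_nhds_le]
  intro x s hs
  rw [Filter.mem_map] at hs
  -- charts
  set φ := chartAt H x with hφ
  set ψ := chartAt H' (f x) with hψ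
  set U : Set M := φ.source ∩ f ⁻¹' ψ.source ∩ interior (f ⁻¹' s) with hU
  have hUo : IsOpen U := (φ.open_source.inter (ψ.open_source.preimage hf)).inter isOpen_interior
  have hxU : x ∈ U := ⟨⟨mem_chart_source H x, mem_chart_source H' (f x)⟩, mem_interior_iff_mem_nhds.2 hs⟩
  have hUφ : U ⊆ φ.source := fun y hy => hy.1.1
  have hV : IsOpen (φ '' U) := φ.isOpen_image_of_subset_source hUo hUφ
  have hO : IsOpen ((fun z => ψ (f (φ.symm z))) '' (φ '' U)) := by
    refine invariance_of_domain_of_finrank_eq hHH hV ?_ ?_
    · intro z hz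
      obtain ⟨y, hy, rfl⟩ := hz
      refine ContinuousAt.continuousWithinAt ?_
      have h1 : ContinuousAt φ.symm (φ y) := φ.symm.continuousAt (φ.map_source (hUφ hy))
      have h2 : ContinuousAt ψ (f (φ.symm (φ y))) := by
        rw [φ.left_inv (hUφ hy)]
        exact ψ.continuousAt hy.1.2
      have h3 : ContinuousAt (fun z => f (φ.symm z)) (φ y) :=
        ContinuousAt.comp (g := f) (f := φ.symm) hf.continuousAt h1
      exact ContinuousAt.comp (g := ψ) (f := fun z => f (φ.symm z)) h2 h3
    · rintro _ ⟨y, hy, rfl⟩ _ ⟨y', hy', rfl⟩ h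
      simp only [φ.left_inv (hUφ hy), φ.left_inv (hUφ hy')] at h
      rw [hinj (ψ.injOn hy.1.2 hy'.1.2 h)]
  have himg : (fun z => ψ (f (φ.symm z))) '' (φ '' U) = ψ '' (f '' U) := by
    rw [image_image, image_image]
    refine image_congr fun y hy => ?_
    rw [φ.left_inv (hUφ hy)]
  rw [himg] at hO
  have hfU : IsOpen (f '' U) := by
    have h1 : f '' U = ψ.source ∩ ψ ⁻¹' (ψ '' (f '' U)) := by
      ext y
      constructor
      · rintro ⟨z, hz, rfl⟩
        exact ⟨hz.1.2, mem_image_of_mem _ (mem_image_of_mem _ hz)⟩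
      · rintro ⟨hy, ⟨_, ⟨z, hz, rfl⟩, hzy⟩⟩
        rw [← ψ.injOn hz.1.2 hy hzy]
        exact mem_image_of_mem _ hz
    rw [h1]
    exact ψ.isOpen_inter_preimage hO
  refine Filter.mem_of_superset (hfU.mem_nhds (mem_image_of_mem _ hxU)) ?_
  rintro _ ⟨y, hy, rfl⟩
  exact interior_subset (s := f ⁻¹' s) hy.2

/-- An injective continuous map between boundaryless topological manifolds of the same dimension
is an open embedding. -/
theorem isOpenEmbedding_of_injective_of_chartedSpace
    (hHH : Module.finrank ℝ H = Module.finrank ℝ H')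
    {f : M → N} (hf : Continuous f) (hinj : Function.Injective f) :
    Topology.IsOpenEmbedding f :=
  Topology.IsOpenEmbedding.of_continuous_injective_isOpenMap hf hinj
    (isOpenMap_of_injective_of_chartedSpace (H := H) (H' := H') hHH hf hinj)

end Manifold

end

end Pool.Lib
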