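import Mathlib

/-!
# Extension complexity lower bounds (Yannakakis, Kaibel–Weltge)

* `farkas`: Farkas' lemma for finitely many linear functionals on a real vector space.
* `HasEF P r`: the set `P` is the projection of a polyhedron with `r` inequalities (in standard
  form: equations and `r` nonnegative variables).
* `exists_factorisation`: the slack of valid inequalities at points of `P` is a sum of `r + 1`
  products of nonnegative numbers (Yannakakis).
* `card_disjoint_pairs_le`: if `|a ∩ b| ≠ 1` for all `a`, `b` with `p a`, `q b` (subsets of a set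
  with `m` elements), then at most `2 ^ m` of these pairs are disjoint (Kaibel–Weltge).
* `xc_lower`: a slack matrix containing the matrix `(1 - |a ∩ b|)²`, for `a`, `b` subsets of a set
  with `m` elements, forces `(3/2) ^ m ≤ r + 1`.
-/

set_option autoImplicit false

namespace Pool.Agent.Lib.ExtComplexity

/-- **Farkas' lemma** (Bartl's proof). -/
theorem farkas {V : Type*} [AddCommGroup V] [Module ℝ V] {n : ℕ} :
    ∀ (a : Fin n → Module.Dual ℝ V) (b : Module.Dual ℝ V),
      (∀ x, (∀ i, 0 ≤ a i x) → 0 ≤ b x) →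
      ∃ l : Fin n → ℝ, (∀ i, 0 ≤ l i) ∧ ∀ x, b x = ∑ i, l i * a i x := by
  induction n with
  | zero =>
    intro a b h
    refine ⟨fun _ => 0, fun _ => le_rfl, fun x => ?_⟩
    have h1 := h x (fun i => i.elim0)
    have h2 := h (-x) (fun i => i.elim0)
    rw [map_neg] at h2
    simp only [Finset.univ_eq_empty, Finset.sum_empty]
    linarith
  | succ n ih =>
    intro a b h
    by_cases hc : ∀ x, (∀ i : Fin n, 0 ≤ a i.succ x) → 0 ≤ b x
    · obtain ⟨l, hl, hb⟩ := ih (fun i => a i.succ) b hc
      refine ⟨Fin.cons 0 l, fun i => ?_, fun x => ?_⟩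
      · refine Fin.cases ?_ (fun j => ?_) i
        · simp
        · simpa using hl j
      · rw [Fin.sum_univ_succ, hb]
        simp
    · push Not at hc
      obtain ⟨x0, hx0, hbx0⟩ := hc
      have hc0 : a 0 x0 < 0 := by
        by_contra hcon
        push Not at hcon
        refine absurd (h x0 fun i => ?_) (not_le.2 hbx0)
        refine Fin.cases ?_ (fun j => ?_) i
        · exact hcon
        · exact hx0 j
      set t := a 0 x0 with ht
      -- projection along `x0` onto the kernel of `a 0`
      let π : V →ₗ[ℝ] V := LinearMap.id - (LinearMap.smulRight (a 0) ((t⁻¹ : ℝ) • x0))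
      have hπ : ∀ x, π x = x - (a 0 x * t⁻¹) • x0 := by
        intro x
        simp only [π, LinearMap.sub_apply, LinearMap.id_apply, LinearMap.smulRight_apply, smul_smul]
      have hπ0 : ∀ x, a 0 (π x) = 0 := by
        intro x
        rw [hπ, map_sub, map_smul, smul_eq_mul, ← ht, mul_assoc, inv_mul_cancel₀ hc0.ne, mul_one,
          sub_self]
      obtain ⟨l, hl, hb⟩ := ih (fun i => (a i.succ).comp π) (b.comp π) (by
        intro x hx
        refine h (π x) fun i => ?_
        refine Fin.cases ?_ (fun j => ?_) i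
        · rw [hπ0]
        · exact hx j)
      refine ⟨Fin.cons (t⁻¹ * (b x0 - ∑ i, l i * a i.succ x0)) l, fun i => ?_, fun x => ?_⟩
      · refine Fin.cases ?_ (fun j => ?_) i
        · rw [Fin.cons_zero]
          have h1 : 0 ≤ ∑ i, l i * a i.succ x0 :=
            Finset.sum_nonneg fun i _ => mul_nonneg (hl i) (hx0 i)
          have h2 : t⁻¹ < 0 := inv_lt_zero.2 hc0
          nlinarith
        · simpa using hl j
      · have h1 := hb x
        simp only [LinearMap.comp_apply, hπ, map_sub, map_smul, smul_eq_mul, mul_sub,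
          Finset.sum_sub_distrib] at h1
        rw [Fin.sum_univ_succ]
        simp only [Fin.cons_zero, Fin.cons_succ]
        have h2 : ∑ i, l i * (a 0 x * t⁻¹ * a i.succ x0) =
            (a 0 x * t⁻¹) * ∑ i, l i * a i.succ x0 := by
          rw [Finset.mul_sum]
          exact Finset.sum_congr rfl fun i _ => by ring
        rw [h2] at h1
        linarith

/-- `P` is the projection of the polyhedron `{(x, z) | E x + F z = g, z ≥ 0}`, `z ∈ ℝ^r`. Every
description of `P` as a projection of a polyhedron with `r` inequalities can be brought to this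
form (by introducing slack variables). -/
def HasEF {ι : Type*} [Fintype ι] (P : Set (ι → ℝ)) (r : ℕ) : Prop :=
  ∃ (k : ℕ) (E : Matrix (Fin k) ι ℝ) (F : Matrix (Fin k) (Fin r) ℝ) (g : Fin k → ℝ),
    P = {x | ∃ z : Fin r → ℝ, (∀ i, 0 ≤ z i) ∧ E.mulVec x + F.mulVec z = g}

/-- The standard form of `HasEF` is no restriction: a set described with free auxiliary variables
`y`, `r` inequalities and arbitrary many equations has such a description. -/
theorem HasEF.of_general {ι : Type*} [Fintype ι] {P : Set (ι → ℝ)} {r l k : ℕ}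
    (A : Matrix (Fin r) ι ℝ) (B : Matrix (Fin r) (Fin l) ℝ) (c : Fin r → ℝ)
    (E : Matrix (Fin k) ι ℝ) (F : Matrix (Fin k) (Fin l) ℝ) (g : Fin k → ℝ)
    (hP : P = {x | ∃ y : Fin l → ℝ, (∀ i, (A.mulVec x + B.mulVec y) i ≤ c i) ∧
      E.mulVec x + F.mulVec y = g}) : HasEF P r := by
  classical
  let R : Submodule ℝ ((Fin r → ℝ) × (Fin k → ℝ)) :=
    LinearMap.range (B.mulVecLin.prod F.mulVecLin)
  obtain ⟨k', Q, hQ⟩ : ∃ (k' : ℕ) (Q : ((Fin r → ℝ) × (Fin k → ℝ)) →ₗ[ℝ] (Fin k' → ℝ)),
      ∀ v, v ∈ R ↔ Q v = 0 := by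
    let e := (Module.finBasis ℝ (((Fin r → ℝ) × (Fin k → ℝ)) ⧸ R)).equivFun
    refine ⟨_, e.toLinearMap.comp R.mkQ, fun v => ?_⟩
    rw [LinearMap.comp_apply, LinearEquiv.coe_coe, LinearEquiv.map_eq_zero_iff,
      Submodule.mkQ_apply, Submodule.Quotient.mk_eq_zero]
  let ME : (ι → ℝ) →ₗ[ℝ] (Fin k' → ℝ) := Q.comp (A.mulVecLin.prod E.mulVecLin)
  let MF : (Fin r → ℝ) →ₗ[ℝ] (Fin k' → ℝ) := Q.comp (LinearMap.inl ℝ _ _)
  refine ⟨k', LinearMap.toMatrix' ME, LinearMap.toMatrix' MF, Q (c, g), ?_⟩
  rw [hP]
  ext x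
  simp only [Set.mem_ofPred_eq]
  have key : ∀ z : Fin r → ℝ, ((LinearMap.toMatrix' ME).mulVec x +
      (LinearMap.toMatrix' MF).mulVec z = Q (c, g)) ↔
      ∃ y : Fin l → ℝ, B.mulVec y = c - A.mulVec x - z ∧ F.mulVec y = g - E.mulVec x := by
    intro z
    rw [LinearMap.toMatrix'_mulVec, LinearMap.toMatrix'_mulVec]
    have e1 : ME x + MF z = Q (A.mulVec x + z, E.mulVec x) := by
      have e2 : ME x = Q (A.mulVec x, E.mulVec x) := rfl
      have e3 : MF z = Q (z, 0) := rfl
      rw [e2, e3, ← map_add, Prod.mk_add_mk, add_zero]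
    rw [e1, ← sub_eq_zero, ← map_sub, ← neg_eq_zero, ← map_neg, ← hQ, LinearMap.mem_range]
    refine exists_congr fun y => ?_
    have e4 : (B.mulVecLin.prod F.mulVecLin) y = (B.mulVec y, F.mulVec y) := rfl
    rw [e4, Prod.mk_sub_mk, Prod.neg_mk, neg_sub, neg_sub, Prod.mk.injEq, sub_sub]
  constructor
  · rintro ⟨y, hy, he⟩
    refine ⟨fun i => c i - (A.mulVec x + B.mulVec y) i, fun i => sub_nonneg.2 (hy i), ?_⟩
    rw [key]
    refine ⟨y, ?_, ?_⟩
    · funext i
      simp only [Pi.sub_apply, Pi.add_apply]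
      ring
    · rw [← he]; abel
  · rintro ⟨z, hz, he⟩
    rw [key] at he
    obtain ⟨y, hy1, hy2⟩ := he
    refine ⟨y, fun i => ?_, ?_⟩
    · rw [hy1]
      simp only [Pi.sub_apply, Pi.add_apply]
      have := hz i
      linarith
    · rw [hy2]; abel

/-- **Yannakakis.** Slacks of valid inequalities at points factorise through `r + 1` nonnegative
coordinates. -/
theorem exists_factorisation {ι : Type*} [Fintype ι] {P : Set (ι → ℝ)} {r : ℕ} (h : HasEF P r)
    {A B : Type*} (x : B → ι → ℝ) (hx : ∀ b, x b ∈ P) (w : A → ι → ℝ) (β : A → ℝ)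
    (hval : ∀ a, ∀ y ∈ P, ∑ i, w a i * y i ≤ β a) (hne : P.Nonempty) :
    ∃ (u : A → Fin (r + 1) → ℝ) (v : B → Fin (r + 1) → ℝ), (∀ a i, 0 ≤ u a i) ∧
      (∀ b i, 0 ≤ v b i) ∧
      ∀ a b, β a - ∑ i, w a i * x b i = ∑ i, u a i * v b i := by
  classical
  obtain ⟨k, E, F, g, hP⟩ := h
  -- the homogenised solution space
  let W : Submodule ℝ ((ι → ℝ) × (Fin r → ℝ) × ℝ) :=
    { carrier := {p | E.mulVec p.1 + F.mulVec p.2.1 = p.2.2 • g}
      add_mem' := by
        intro p q hp hq
        simp only [Set.mem_ofPred_eq] at hp hq ⊢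
        simp only [Prod.fst_add, Prod.snd_add, Matrix.mulVec_add, add_smul]
        rw [← hp, ← hq]
        abel
      zero_mem' := by simp
      smul_mem' := by
        intro c p hp
        simp only [Set.mem_ofPred_eq] at hp ⊢
        simp only [Prod.smul_fst, Prod.smul_snd, Matrix.mulVec_smul, smul_assoc]
        rw [← hp, smul_add] }
  have hW : ∀ p : (ι → ℝ) × (Fin r → ℝ) × ℝ, p ∈ W ↔
      E.mulVec p.1 + F.mulVec p.2.1 = p.2.2 • g := fun p => Iff.rfl
  -- the functionals
  let fz : Fin r → Module.Dual ℝ W := fun i =>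
    (LinearMap.proj i).comp ((LinearMap.fst ℝ (Fin r → ℝ) ℝ).comp
      ((LinearMap.snd ℝ (ι → ℝ) ((Fin r → ℝ) × ℝ)).comp W.subtype))
  let ft : Module.Dual ℝ W := (LinearMap.snd ℝ (Fin r → ℝ) ℝ).comp
      ((LinearMap.snd ℝ (ι → ℝ) ((Fin r → ℝ) × ℝ)).comp W.subtype)
  have hfz : ∀ i (p : W), fz i p = p.1.2.1 i := fun i p => rfl
  have hft : ∀ p : W, ft p = p.1.2.2 := fun p => rfl
  let fb : A → Module.Dual ℝ W := fun a => β a • ft -
    ∑ i, w a i • ((LinearMap.proj i).comp ((LinearMap.fst ℝ (ι → ℝ) ((Fin r → ℝ) × ℝ)).comp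
      W.subtype))
  have hfb : ∀ a (p : W), fb a p = β a * p.1.2.2 - ∑ i, w a i * p.1.1 i := by
    intro a p
    simp [fb, hft]
  obtain ⟨y0, hy0⟩ := hne
  have hy0' := hy0
  rw [hP] at hy0'
  obtain ⟨z0, hz0, he0⟩ := hy0'
  have key : ∀ a, ∃ l : Fin (r + 1) → ℝ, (∀ i, 0 ≤ l i) ∧
      ∀ p : W, fb a p = ∑ i, l i * (Fin.cons ft fz : Fin (r + 1) → Module.Dual ℝ W) i p := by
    intro a
    refine farkas _ _ fun p hp => ?_
    have ht : 0 ≤ p.1.2.2 := by simpa [hft] using hp 0
    have hz : ∀ i, 0 ≤ p.1.2.1 i := fun i => by simpa [hfz] using hp i.succ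
    have hpW := (hW p.1).1 p.2
    rw [hfb]
    rcases ht.lt_or_eq with ht | ht
    · -- scale to `t = 1`
      have hmem : (p.1.2.2)⁻¹ • p.1.1 ∈ P := by
        rw [hP]
        refine ⟨(p.1.2.2)⁻¹ • p.1.2.1, fun i => ?_, ?_⟩
        · exact mul_nonneg (inv_nonneg.2 ht.le) (hz i)
        · rw [Matrix.mulVec_smul, Matrix.mulVec_smul, ← smul_add, hpW, smul_smul,
            inv_mul_cancel₀ ht.ne', one_smul]
      have := hval a _ hmem
      have e : ∑ i, w a i * ((p.1.2.2)⁻¹ • p.1.1) i = (p.1.2.2)⁻¹ * ∑ i, w a i * p.1.1 i := by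
        rw [Finset.mul_sum]
        exact Finset.sum_congr rfl fun i _ => by
          rw [Pi.smul_apply, smul_eq_mul]; ring
      rw [e, inv_mul_le_iff₀ ht] at this
      linarith
    · -- a recession direction
      rw [← ht, mul_zero, zero_sub, Left.nonneg_neg_iff]
      by_contra hcon
      push Not at hcon
      rw [← ht, zero_smul] at hpW
      have hmem : ∀ s : ℝ, 0 ≤ s → y0 + s • p.1.1 ∈ P := by
        intro s hs
        rw [hP]
        refine ⟨z0 + s • p.1.2.1, fun i => ?_, ?_⟩
        · exact add_nonneg (hz0 i) (mul_nonneg hs (hz i))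
        · rw [Matrix.mulVec_add, Matrix.mulVec_add, Matrix.mulVec_smul, Matrix.mulVec_smul]
          have : E.mulVec y0 + s • E.mulVec p.1.1 + (F.mulVec z0 + s • F.mulVec p.1.2.1) =
            (E.mulVec y0 + F.mulVec z0) + s • (E.mulVec p.1.1 + F.mulVec p.1.2.1) := by
            rw [smul_add]; abel
          rw [this, he0, hpW, smul_zero, add_zero]
      set c := ∑ i, w a i * p.1.1 i with hcdef
      set c0 := ∑ i, w a i * y0 i with hc0def
      have hall : ∀ s : ℝ, 0 ≤ s → c0 + s * c ≤ β a := by
        intro s hs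
        have := hval a _ (hmem s hs)
        have e : ∑ i, w a i * (y0 + s • p.1.1) i = c0 + s * c := by
          rw [hc0def, hcdef, Finset.mul_sum, ← Finset.sum_add_distrib]
          exact Finset.sum_congr rfl fun i _ => by
            rw [Pi.add_apply, Pi.smul_apply, smul_eq_mul]; ring
        rwa [e] at this
      have h1 := hall ((|β a - c0| + 1) / c) (by positivity)
      rw [div_mul_cancel₀ _ hcon.ne'] at h1
      have := le_abs_self (β a - c0)
      linarith
  choose u hu hub using key
  have hzb : ∀ b, ∃ z : Fin r → ℝ, (∀ i, 0 ≤ z i) ∧ E.mulVec (x b) + F.mulVec z = g := by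
    intro b
    have := hx b
    rw [hP] at this
    exact this
  choose z hz hze using hzb
  refine ⟨u, fun b => Fin.cons 1 (z b), hu, fun b i => ?_, fun a b => ?_⟩
  · refine Fin.cases ?_ (fun j => ?_) i
    · simp
    · simpa using hz b j
  · have hmem : ((x b, z b, (1 : ℝ)) : (ι → ℝ) × (Fin r → ℝ) × ℝ) ∈ W := by
      rw [hW]
      simp only [one_smul]
      exact hze b
    have h1 := hub a ⟨_, hmem⟩
    rw [hfb] at h1
    simp only [mul_one] at h1
    rw [h1, Fin.sum_univ_succ, Fin.sum_univ_succ]
    simp [hft, hfz]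

/-! ### Counting disjoint pairs -/

open scoped Classical in
/-- number of disjoint pairs of subsets of `s` with `p a` and `q b` -/
noncomputable def dp {α : Type*} [DecidableEq α] (s : Finset α) (p q : Finset α → Prop) : ℕ :=
  ∑ a ∈ s.powerset, ∑ b ∈ s.powerset, if p a ∧ q b ∧ Disjoint a b then 1 else 0

open scoped Classical in
theorem dp_insert {α : Type*} [DecidableEq α] {n : α} {s : Finset α} (hn : n ∉ s) (p q : Finset α → Prop) :
    dp (insert n s) p q = ∑ a ∈ s.powerset, ∑ b ∈ s.powerset,
      ((if p a ∧ q b ∧ Disjoint a b then 1 else 0) +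
        (if p a ∧ q (insert n b) ∧ Disjoint a b then 1 else 0) +
        (if p (insert n a) ∧ q b ∧ Disjoint a b then 1 else 0)) := by
  rw [dp, Finset.sum_powerset_insert hn, ← Finset.sum_add_distrib]
  refine Finset.sum_congr rfl fun a ha => ?_
  rw [Finset.sum_powerset_insert hn, Finset.sum_powerset_insert hn, ← Finset.sum_add_distrib,
    ← Finset.sum_add_distrib, ← Finset.sum_add_distrib]
  refine Finset.sum_congr rfl fun b hb => ?_
  rw [Finset.mem_powerset] at ha hb
  have hna : n ∉ a := fun h => hn (ha h)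
  have hnb : n ∉ b := fun h => hn (hb h)
  have e1 : Disjoint a (insert n b) ↔ Disjoint a b := by
    rw [Finset.disjoint_insert_right]; exact and_iff_right hna
  have e2 : Disjoint (insert n a) b ↔ Disjoint a b := by
    rw [Finset.disjoint_insert_left]; exact and_iff_right hnb
  have e3 : ¬ Disjoint (insert n a) (insert n b) := by
    rw [Finset.disjoint_insert_left]
    intro h
    exact h.1 (Finset.mem_insert_self _ _)
  simp only [e1, e2, e3, and_false, if_false]
  ring

/-- **Kaibel–Weltge.** -/
theorem card_disjoint_pairs_le {α : Type*} [DecidableEq α] (s : Finset α) :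
    ∀ (p q : Finset α → Prop), (∀ a ⊆ s, ∀ b ⊆ s, p a → q b → (a ∩ b).card ≠ 1) →
      dp s p q ≤ 2 ^ s.card := by
  classical
  induction s using Finset.induction_on with
  | empty =>
    intro p q _
    simp only [dp, Finset.powerset_empty, Finset.sum_singleton, Finset.card_empty, pow_zero]
    split_ifs <;> simp
  | insert n s hn ih =>
    intro p q h
    have h1 := ih (fun a => p a ∨ p (insert n a)) q (by
      intro a ha b hb hp hq
      rcases hp with hp | hp
      · exact h a (ha.trans (Finset.subset_insert _ _)) b (hb.trans (Finset.subset_insert _ _)) hp hq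
      · have := h (insert n a) (Finset.insert_subset_insert _ ha) b
          (hb.trans (Finset.subset_insert _ _)) hp hq
        rwa [Finset.insert_inter_of_notMem fun hm => hn (hb hm)] at this)
    have h2 := ih p (fun b => q b ∨ q (insert n b)) (by
      intro a ha b hb hp hq
      rcases hq with hq | hq
      · exact h a (ha.trans (Finset.subset_insert _ _)) b (hb.trans (Finset.subset_insert _ _)) hp hq
      · have := h a (ha.trans (Finset.subset_insert _ _)) (insert n b)
          (Finset.insert_subset_insert _ hb) hp hq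
        rwa [Finset.inter_insert_of_notMem fun hm => hn (ha hm)] at this)
    rw [dp_insert hn, Finset.card_insert_of_notMem hn, pow_succ, mul_two]
    refine le_trans ?_ (Nat.add_le_add h1 h2)
    rw [dp, dp, ← Finset.sum_add_distrib]
    refine Finset.sum_le_sum fun a ha => ?_
    rw [← Finset.sum_add_distrib]
    refine Finset.sum_le_sum fun b hb => ?_
    rw [Finset.mem_powerset] at ha hb
    by_cases hd : Disjoint a b
    · have hna : n ∉ a := fun hm => hn (ha hm)
      have hnb : n ∉ b := fun hm => hn (hb hm)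
      have h3 : ¬ (p (insert n a) ∧ q (insert n b)) := by
        rintro ⟨hp, hq⟩
        refine h _ (Finset.insert_subset_insert _ ha) _ (Finset.insert_subset_insert _ hb) hp hq ?_
        rw [← Finset.insert_inter_distrib, Finset.disjoint_iff_inter_eq_empty.1 hd,
          Finset.card_insert_of_notMem (Finset.notMem_empty _), Finset.card_empty]
      by_cases c1 : p a <;> by_cases c2 : p (insert n a) <;> by_cases c3 : q b <;>
        by_cases c4 : q (insert n b) <;> simp_all
    · simp [hd]

theorem dp_true {α : Type*} [DecidableEq α] (s : Finset α) :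
    dp s (fun _ => True) (fun _ => True) = 3 ^ s.card := by
  classical
  induction s using Finset.induction_on with
  | empty => simp [dp]
  | insert n s hn ih =>
    rw [dp_insert hn, Finset.card_insert_of_notMem hn, pow_succ, ← ih, dp, Finset.sum_mul]
    refine Finset.sum_congr rfl fun a _ => ?_
    rw [Finset.sum_mul]
    refine Finset.sum_congr rfl fun b _ => ?_
    ring

theorem dp_union {α : Type*} [DecidableEq α] {k : ℕ} (s : Finset α) (p q : Fin k → Finset α → Prop)
    (h : ∀ a ⊆ s, ∀ b ⊆ s, Disjoint a b → ∃ i, p i a ∧ q i b) :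
    dp s (fun _ => True) (fun _ => True) ≤ ∑ i, dp s (p i) (q i) := by
  classical
  simp only [dp]
  rw [Finset.sum_comm (s := Finset.univ)]
  refine Finset.sum_le_sum fun a ha => ?_
  rw [Finset.sum_comm (s := Finset.univ)]
  refine Finset.sum_le_sum fun b hb => ?_
  rw [Finset.mem_powerset] at ha hb
  by_cases hd : Disjoint a b
  · obtain ⟨i, hi⟩ := h a ha b hb hd
    have := Finset.single_le_sum (s := Finset.univ)
      (f := fun i => if p i a ∧ q i b ∧ Disjoint a b then 1 else 0)
      (fun _ _ => Nat.zero_le _) (Finset.mem_univ i)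
    simp only [hi.1, hi.2, hd, and_self, if_true] at this
    simpa [hd] using this
  · simp [hd]

/-- The unique-disjointness matrix has nonnegative rank at least `(3/2)^m`. -/
theorem nonneg_rank_lower {m k : ℕ} (u v : Finset (Fin m) → Fin k → ℝ)
    (hu : ∀ a i, 0 ≤ u a i) (hv : ∀ b i, 0 ≤ v b i)
    (h : ∀ a b, ((a ∩ b).card = 0 → 0 < ∑ i, u a i * v b i) ∧
      ((a ∩ b).card = 1 → ∑ i, u a i * v b i = 0)) :
    (3 / 2 : ℝ) ^ m ≤ k := by
  classical
  have h1 := dp_union (Finset.univ : Finset (Fin m)) (fun i a => 0 < u a i) (fun i b => 0 < v b i)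
    (by
      intro a _ b _ hd
      by_contra hcon
      push Not at hcon
      have h2 := (h a b).1 (by rw [Finset.disjoint_iff_inter_eq_empty.1 hd, Finset.card_empty])
      have h3 : ∑ i, u a i * v b i = 0 := by
        refine Finset.sum_eq_zero fun i _ => ?_
        rcases (hu a i).lt_or_eq with hu' | hu'
        · have := le_antisymm (hcon i hu') (hv b i)
          rw [this, mul_zero]
        · rw [← hu', zero_mul]
      exact absurd h3 h2.ne')
  rw [dp_true, Finset.card_univ, Fintype.card_fin] at h1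
  have h2 : ∑ i, dp (Finset.univ : Finset (Fin m)) (fun a => 0 < u a i) (fun b => 0 < v b i) ≤
      ∑ _i : Fin k, 2 ^ m := by
    refine Finset.sum_le_sum fun i _ => ?_
    have := card_disjoint_pairs_le (Finset.univ : Finset (Fin m)) (fun a => 0 < u a i)
      (fun b => 0 < v b i) (by
        intro a _ b _ hp hq hc
        have h3 := (h a b).2 hc
        rw [Finset.sum_eq_zero_iff_of_nonneg fun i _ => mul_nonneg (hu a i) (hv b i)] at h3
        exact absurd (h3 i (Finset.mem_univ i)) (mul_pos hp hq).ne')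
    rwa [Finset.card_univ, Fintype.card_fin] at this
  rw [Finset.sum_const, Finset.card_univ, Fintype.card_fin, smul_eq_mul] at h2
  have h3 : (3 : ℝ) ^ m ≤ k * 2 ^ m := by exact_mod_cast h1.trans h2
  rw [div_pow, div_le_iff₀ (by positivity)]
  exact h3

/-- **Lower bound for the extension complexity.** If the slack matrix of valid inequalities and
points of `P` contains the matrix `(1 - |a ∩ b|)²`, `a, b ⊆ [m]`, then every extended formulation
of `P` has at least `(3/2)^m - 1` inequalities. -/
theorem xc_lower {ι : Type*} [Fintype ι] {P : Set (ι → ℝ)} {m r : ℕ} (h : HasEF P r)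
    (x : Finset (Fin m) → ι → ℝ) (hx : ∀ b, x b ∈ P)
    (w : Finset (Fin m) → ι → ℝ) (β : Finset (Fin m) → ℝ)
    (hval : ∀ a, ∀ y ∈ P, ∑ i, w a i * y i ≤ β a)
    (hslack : ∀ a b, β a - ∑ i, w a i * x b i = (1 - ((a ∩ b).card : ℝ)) ^ 2) :
    (3 / 2 : ℝ) ^ m ≤ (r : ℝ) + 1 := by
  obtain ⟨u, v, hu, hv, huv⟩ := exists_factorisation h x hx w β hval ⟨x ∅, hx ∅⟩
  have := nonneg_rank_lower u v hu hv (by
    intro a b
    rw [← huv a b, hslack a b]
    refine ⟨fun hc => ?_, fun hc => ?_⟩
    · rw [hc]; norm_num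
    · rw [hc]; norm_num)
  simpa using this

end Pool.Agent.Lib.ExtComplexity
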