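import Pool.Agent.Lib.DedekindLog

/-!
# Primes of a number field with prescribed quadratic symbols

If no product of a non-empty subfamily of `a` is a square in `K`, then there are primes `q` of `𝓞 K`
(outside any given finite set) at which the set of squares among the `a i` is any prescribed set.
The proof compares the prime ideal sums of `K` and of its quadratic extensions near `s = 1`.
-/

set_option linter.unusedSectionVars false

open NumberField IsDedekindDomain Filter Topology Finset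

namespace Pool.Agent.Lib.QuadSymbols
open Pool.Agent.Lib.Dedekind

section split
variable {K L : Type*} [Field K] [NumberField K] [Field L] [NumberField L] [Algebra K L]

/-- primes of `L` whose restriction is `q`, as primes over `q` -/
noncomputable def fibEquiv (q : HeightOneSpectrum (𝓞 K)) :
    {P : HeightOneSpectrum (𝓞 L) // P.under (𝓞 K) = q} ≃ q.asIdeal.primesOver (𝓞 L) where
  toFun P := ⟨P.1.asIdeal, P.1.isPrime, ⟨(congrArg HeightOneSpectrum.asIdeal P.2).symm⟩⟩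
  invFun P := ⟨⟨P.1, P.2.1, Ideal.ne_bot_of_mem_primesOver q.ne_bot P.2⟩,
    HeightOneSpectrum.ext P.2.2.over.symm⟩
  left_inv _ := rfl
  right_inv _ := rfl

variable (L) in
/-- local sum over the primes above `q` -/
noncomputable def lsum (s : ℝ) (q : HeightOneSpectrum (𝓞 K)) : ℝ :=
  ∑ P : q.asIdeal.primesOver (𝓞 L), wt L s P.1

lemma lsum_nonneg (s : ℝ) (q : HeightOneSpectrum (𝓞 K)) : 0 ≤ lsum L s q :=
  Finset.sum_nonneg (fun _ _ ↦ wt_nonneg _ _)

lemma hasSum_lsum (s : ℝ) (q : HeightOneSpectrum (𝓞 K)) :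
    HasSum (fun P : {P : HeightOneSpectrum (𝓞 L) // P.under (𝓞 K) = q} ↦ wt L s P.1.asIdeal)
      (lsum L s q) := by
  have h := hasSum_fintype (fun P : q.asIdeal.primesOver (𝓞 L) ↦ wt L s P.1)
  exact (fibEquiv (L := L) q).hasSum_iff.2 h

variable (K) in
lemma LP_eq_tsum {s : ℝ} (hs : 1 < s) :
    Summable (fun q : HeightOneSpectrum (𝓞 K) ↦ lsum L s q) ∧
    LP L s = ∑' q : HeightOneSpectrum (𝓞 K), lsum L s q := by
  have h1 : Summable (fun P : HeightOneSpectrum (𝓞 L) ↦ wt L s P.asIdeal) := summable_wt_prime hs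
  have h2 : HasSum (fun P : HeightOneSpectrum (𝓞 L) ↦ wt L s P.asIdeal) (LP L s) := h1.hasSum
  have h3 := (Equiv.sigmaFiberEquiv (HeightOneSpectrum.under (𝓞 K) :
    HeightOneSpectrum (𝓞 L) → HeightOneSpectrum (𝓞 K))).hasSum_iff.2 h2
  have h4 := h3.sigma (fun q ↦ hasSum_lsum (L := L) s q)
  exact ⟨h4.summable, h4.tsum_eq.symm⟩

lemma sum_ef (q : HeightOneSpectrum (𝓞 K)) (h2 : Module.finrank K L = 2) :
    ∑ P : q.asIdeal.primesOver (𝓞 L), P.1.ramificationIdx (𝓞 K) * P.1.inertiaDeg (𝓞 K) = 2 := by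
  have : q.asIdeal.IsPrime := q.isPrime
  have h := Ideal.sum_ramification_inertia_eq_finrank (R := 𝓞 K) (S := 𝓞 L) (p := q.asIdeal)
  rw [h, ← h2, IsFractionRing.finrank_eq (𝓞 K) K (𝓞 L) L]

lemma wt_over (s : ℝ) (q : HeightOneSpectrum (𝓞 K)) (P : q.asIdeal.primesOver (𝓞 L)) :
    wt L s P.1 = (wt K s q.asIdeal) ^ (P.1.inertiaDeg (𝓞 K)) := by
  have h1 : P.1.IsPrime := P.2.1
  have h2 : P.1.LiesOver q.asIdeal := P.2.2
  have h := Ideal.absNorm_pow_inertiaDeg (R := 𝓞 K) q.asIdeal P.1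
  unfold wt
  rw [← h, Nat.cast_pow, ← Real.rpow_natCast, ← Real.rpow_natCast, ← Real.rpow_mul (by positivity),
    ← Real.rpow_mul (by positivity)]
  ring_nf

lemma ef_pos (q : HeightOneSpectrum (𝓞 K)) (P : q.asIdeal.primesOver (𝓞 L)) :
    1 ≤ P.1.ramificationIdx (𝓞 K) ∧ 1 ≤ P.1.inertiaDeg (𝓞 K) := by
  have h1 : P.1.IsPrime := P.2.1
  exact ⟨Ideal.ramificationIdx_pos _ _, Ideal.inertiaDeg_pos _ _⟩

lemma card_le_two (q : HeightOneSpectrum (𝓞 K)) (h2 : Module.finrank K L = 2) :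
    Fintype.card (q.asIdeal.primesOver (𝓞 L)) ≤ 2 := by
  rw [← sum_ef (L := L) q h2, Fintype.card_eq_sum_ones]
  refine Finset.sum_le_sum (fun P _ ↦ ?_)
  obtain ⟨h3, h4⟩ := ef_pos q P
  exact Nat.mul_le_mul h3 h4

lemma wt_le_one {s : ℝ} (hs : 1 < s) (q : HeightOneSpectrum (𝓞 K)) : wt K s q.asIdeal ≤ 1 := by
  have := wt_le_half hs.le q
  linarith

lemma lsum_le {s : ℝ} (hs : 1 < s) (q : HeightOneSpectrum (𝓞 K)) (h2 : Module.finrank K L = 2) :
    lsum L s q ≤ 2 := by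
  have h3 : lsum L s q ≤ ∑ P : q.asIdeal.primesOver (𝓞 L), (1 : ℝ) := by
    refine Finset.sum_le_sum (fun P _ ↦ ?_)
    rw [wt_over]
    exact pow_le_one₀ (wt_nonneg _ _) (wt_le_one hs q)
  refine h3.trans ?_
  rw [Finset.sum_const, nsmul_eq_mul, mul_one, Finset.card_univ]
  exact_mod_cast card_le_two q h2

lemma exists_root_of_inertia (q : HeightOneSpectrum (𝓞 K)) (P : q.asIdeal.primesOver (𝓞 L))
    (hf : P.1.inertiaDeg (𝓞 K) = 1) (x : 𝓞 L) : ∃ c : 𝓞 K, x - algebraMap (𝓞 K) (𝓞 L) c ∈ P.1 := by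
  have h1 : P.1.IsPrime := P.2.1
  have h2 : P.1.LiesOver q.asIdeal := P.2.2
  have h3 : q.asIdeal.IsMaximal := q.isMaximal
  have h4 : P.1.IsMaximal := Ideal.IsMaximal.of_liesOver_isMaximal P.1 q.asIdeal
  rw [Ideal.inertiaDeg_eq_of_isMaximal q.asIdeal P.1] at hf
  let : Field (𝓞 K ⧸ q.asIdeal) := Ideal.Quotient.field q.asIdeal
  let : Field (𝓞 L ⧸ P.1) := Ideal.Quotient.field P.1
  obtain ⟨c, hc⟩ := (finrank_eq_one_iff_of_nonzero' (1 : 𝓞 L ⧸ P.1) one_ne_zero).1 hf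
    (Ideal.Quotient.mk P.1 x)
  obtain ⟨c, rfl⟩ := Ideal.Quotient.mk_surjective c
  refine ⟨c, ?_⟩
  rw [← Ideal.Quotient.eq_zero_iff_mem, map_sub, ← hc, Algebra.smul_def, mul_one, sub_eq_zero]
  rfl

lemma mem_over (q : HeightOneSpectrum (𝓞 K)) (P : q.asIdeal.primesOver (𝓞 L)) (x : 𝓞 K) :
    algebraMap (𝓞 K) (𝓞 L) x ∈ P.1 ↔ x ∈ q.asIdeal := by
  have h2 : P.1.LiesOver q.asIdeal := P.2.2
  exact (Ideal.mem_of_liesOver P.1 q.asIdeal x).symm

/-- the case where `b` is not a square modulo `q` -/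
lemma lsum_inert {s : ℝ} (hs : 1 < s) (q : HeightOneSpectrum (𝓞 K))
    (h2 : Module.finrank K L = 2) {b : 𝓞 K} {β : 𝓞 L} (hβ : β ^ 2 = algebraMap (𝓞 K) (𝓞 L) b)
    (hq : ¬ ∃ c : 𝓞 K, c ^ 2 - b ∈ q.asIdeal) : lsum L s q ≤ (wt K s q.asIdeal) ^ 2 := by
  have hf : ∀ P : q.asIdeal.primesOver (𝓞 L), 2 ≤ P.1.inertiaDeg (𝓞 K) := by
    intro P
    by_contra hcon
    have h3 := (ef_pos q P).2
    have h4 : P.1.inertiaDeg (𝓞 K) = 1 := by omega
    obtain ⟨c, hc⟩ := exists_root_of_inertia q P h4 β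
    refine hq ⟨c, ?_⟩
    rw [← mem_over q P, map_sub, map_pow, ← hβ]
    have : (algebraMap (𝓞 K) (𝓞 L) c) ^ 2 - β ^ 2
      = (β - algebraMap (𝓞 K) (𝓞 L) c) * (- (β + algebraMap (𝓞 K) (𝓞 L) c)) := by ring
    rw [this]
    exact Ideal.mul_mem_right _ _ hc
  have hcard : Fintype.card (q.asIdeal.primesOver (𝓞 L)) ≤ 1 := by
    have h3 := sum_ef (L := L) q h2
    have h4 : ∑ P : q.asIdeal.primesOver (𝓞 L), 2 ≤
        ∑ P : q.asIdeal.primesOver (𝓞 L), P.1.ramificationIdx (𝓞 K) * P.1.inertiaDeg (𝓞 K) := by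
      refine Finset.sum_le_sum (fun P _ ↦ ?_)
      exact Nat.mul_le_mul (ef_pos q P).1 (hf P)
    rw [h3, Finset.sum_const, Finset.card_univ, smul_eq_mul] at h4
    omega
  have h5 : lsum L s q ≤ ∑ P : q.asIdeal.primesOver (𝓞 L), (wt K s q.asIdeal) ^ 2 := by
    refine Finset.sum_le_sum (fun P _ ↦ ?_)
    rw [wt_over]
    exact pow_le_pow_of_le_one (wt_nonneg _ _) (wt_le_one hs q) (hf P)
  refine h5.trans ?_
  rw [Finset.sum_const, nsmul_eq_mul, Finset.card_univ]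
  have h6 : (Fintype.card (q.asIdeal.primesOver (𝓞 L)) : ℝ) ≤ 1 := by exact_mod_cast hcard
  have h7 : 0 ≤ (wt K s q.asIdeal) ^ 2 := by positivity
  nlinarith

/-- the case where `b` is a square modulo `q` -/
lemma lsum_split (s : ℝ) (q : HeightOneSpectrum (𝓞 K))
    (h2 : Module.finrank K L = 2) {b : 𝓞 K} {β : 𝓞 L} (hβ : β ^ 2 = algebraMap (𝓞 K) (𝓞 L) b)
    (σ : 𝓞 L ≃+* 𝓞 L) (hσ : ∀ x : 𝓞 K, σ (algebraMap (𝓞 K) (𝓞 L) x) = algebraMap (𝓞 K) (𝓞 L) x)
    (hσβ : σ β = - β) (hb : b ∉ q.asIdeal) (h2q : (2 : 𝓞 K) ∉ q.asIdeal)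
    (hq : ∃ c : 𝓞 K, c ^ 2 - b ∈ q.asIdeal) : lsum L s q = 2 * wt K s q.asIdeal := by
  obtain ⟨c, hc⟩ := hq
  have hqp : q.asIdeal.IsPrime := q.isPrime
  have hcq : c ∉ q.asIdeal := by
    intro h
    apply hb
    have : b = c * c - (c ^ 2 - b) := by ring
    rw [this]
    exact Ideal.sub_mem _ (Ideal.mul_mem_left _ _ h) hc
  have h2c : 2 * c ∉ q.asIdeal := by
    intro h
    rcases hqp.mem_or_mem h with h | h
    · exact h2q h
    · exact hcq h
  have hsum := sum_ef (L := L) q h2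
  have hne : Nonempty (q.asIdeal.primesOver (𝓞 L)) := by
    by_contra hcon
    rw [not_nonempty_iff] at hcon
    rw [Finset.univ_eq_empty, Finset.sum_empty] at hsum
    omega
  obtain ⟨P⟩ := hne
  have hPp : P.1.IsPrime := P.2.1
  have hPo : P.1.LiesOver q.asIdeal := P.2.2
  let P' : q.asIdeal.primesOver (𝓞 L) := ⟨P.1.comap σ, inferInstance, ⟨by
    ext x
    rw [Ideal.mem_comap, Ideal.mem_comap, hσ, mem_over]⟩⟩
  have hneq : P ≠ P' := by
    intro h
    have h3 : ∀ x : 𝓞 L, x ∈ P.1 → σ x ∈ P.1 := by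
      intro x hx
      have h4 : x ∈ P'.1 := h ▸ hx
      exact h4
    have h5 : (β - algebraMap (𝓞 K) (𝓞 L) c) * (β + algebraMap (𝓞 K) (𝓞 L) c) ∈ P.1 := by
      have : (β - algebraMap (𝓞 K) (𝓞 L) c) * (β + algebraMap (𝓞 K) (𝓞 L) c)
        = algebraMap (𝓞 K) (𝓞 L) (-(c ^ 2 - b)) := by
        rw [map_neg, map_sub, map_pow, ← hβ]; ring
      rw [this, mem_over]
      exact neg_mem hc
    apply h2c
    rw [← mem_over q P, map_mul, map_ofNat]
    rcases hPp.mem_or_mem h5 with h6 | h6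
    · have h7 := h3 _ h6
      rw [map_sub, hσβ, hσ] at h7
      have h8 := neg_mem (add_mem h6 h7)
      convert h8 using 1
      ring
    · have h7 := h3 _ h6
      rw [map_add, hσβ, hσ] at h7
      have h8 := add_mem h6 h7
      convert h8 using 1
      ring
  have hcard : 2 ≤ Fintype.card (q.asIdeal.primesOver (𝓞 L)) := by
    by_contra hcon
    have : Fintype.card (q.asIdeal.primesOver (𝓞 L)) ≤ 1 := by omega
    exact hneq (Fintype.card_le_one_iff.1 this P P')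
  have hcard2 : Fintype.card (q.asIdeal.primesOver (𝓞 L)) = 2 := le_antisymm (card_le_two q h2) hcard
  have hf : ∀ Q : q.asIdeal.primesOver (𝓞 L), Q.1.inertiaDeg (𝓞 K) = 1 := by
    intro Q
    by_contra hcon
    have h3 : 2 ≤ Q.1.inertiaDeg (𝓞 K) := by have := (ef_pos q Q).2; omega
    have h4 : ∑ Q : q.asIdeal.primesOver (𝓞 L), 1 <
        ∑ P : q.asIdeal.primesOver (𝓞 L), P.1.ramificationIdx (𝓞 K) * P.1.inertiaDeg (𝓞 K) := by
      refine Finset.sum_lt_sum (fun P _ ↦ ?_) ⟨Q, Finset.mem_univ _, ?_⟩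
      · exact Nat.mul_le_mul (ef_pos q P).1 (ef_pos q P).2
      · have h5 := Nat.mul_le_mul (ef_pos q Q).1 h3
        omega
    rw [hsum, ← Fintype.card_eq_sum_ones, hcard2] at h4
    omega
  unfold lsum
  rw [Finset.sum_congr rfl (fun Q _ ↦ (by rw [wt_over, hf Q, pow_one] :
    wt L s Q.1 = wt K s q.asIdeal)), Finset.sum_const, nsmul_eq_mul, Finset.card_univ, hcard2]
  norm_num

end split

/-- the quadratic extension generated by a square root of `b` -/
lemma exists_quad (K : Type) [Field K] [NumberField K] (b : 𝓞 K) (hb : ¬ IsSquare (b : K)) :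
    ∃ (L : Type) (_ : Field L) (_ : NumberField L) (_ : Algebra K L) (β : 𝓞 L) (σ : 𝓞 L ≃+* 𝓞 L),
      Module.finrank K L = 2 ∧ β ^ 2 = algebraMap (𝓞 K) (𝓞 L) b ∧
      (∀ x : 𝓞 K, σ (algebraMap (𝓞 K) (𝓞 L) x) = algebraMap (𝓞 K) (𝓞 L) x) ∧ σ β = - β := by
  have hfact : Fact (∀ r : K, r ^ 2 ≠ (b : K) + 0 * r) := by
    refine ⟨fun r hr ↦ hb ⟨r, ?_⟩⟩
    rw [zero_mul, add_zero] at hr
    rw [← hr, sq]
  let L := QuadraticAlgebra K (b : K) 0
  have hN : NumberField L := NumberField.of_module_finite K L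
  let ω : L := ⟨0, 1⟩
  have hω : ω ^ 2 = algebraMap K L (b : K) := by
    rw [sq]
    ext <;> simp [ω, L]
  have hint : IsIntegral ℤ ω := by
    have h1 : IsIntegral ℤ (algebraMap K L (b : K)) := b.2.map (algebraMap K L).toIntAlgHom
    rw [← hω] at h1
    exact h1.of_pow (by norm_num)
  let σ₀ : L ≃+* L := (starRingAut : RingAut L)
  refine ⟨L, inferInstance, hN, inferInstance, ⟨ω, hint⟩, RingOfIntegers.mapRingEquiv σ₀,
    QuadraticAlgebra.finrank_eq_two _ _, ?_, ?_, ?_⟩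
  · apply RingOfIntegers.ext
    exact hω
  · intro x
    apply RingOfIntegers.ext
    change star (algebraMap K L (x : K)) = algebraMap K L (x : K)
    ext <;> simp [L]
  · apply RingOfIntegers.ext
    change star ω = - ω
    ext <;> simp [L, ω]


section main
variable {K : Type} [Field K] [NumberField K]

open Classical in
/-- the quadratic symbol of `x` at `q`, as a real number -/
noncomputable def chi (q : HeightOneSpectrum (𝓞 K)) (x : 𝓞 K) : ℝ :=
  if x ∈ q.asIdeal then 0 else if ∃ c : 𝓞 K, c ^ 2 - x ∈ q.asIdeal then 1 else -1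

lemma chi_abs (q : HeightOneSpectrum (𝓞 K)) (x : 𝓞 K) : |chi q x| ≤ 1 := by
  unfold chi; split_ifs <;> simp

open Classical in
lemma chi_eq (q : HeightOneSpectrum (𝓞 K)) : ∃ f : 𝓞 K →*₀ ℤ, ∀ x, chi q x = (f x : ℝ) := by
  let : Field (𝓞 K ⧸ q.asIdeal) := Ideal.Quotient.field q.asIdeal
  have : Finite (𝓞 K ⧸ q.asIdeal) := Ring.HasFiniteQuotients.finiteQuotient q.ne_bot
  let : Fintype (𝓞 K ⧸ q.asIdeal) := Fintype.ofFinite _
  refine ⟨((quadraticChar (𝓞 K ⧸ q.asIdeal)).toMonoidWithZeroHom).comp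
    (Ideal.Quotient.mk q.asIdeal).toMonoidWithZeroHom, fun x ↦ ?_⟩
  change chi q x = ((quadraticChar (𝓞 K ⧸ q.asIdeal) (Ideal.Quotient.mk q.asIdeal x) : ℤ) : ℝ)
  unfold chi
  by_cases hx : x ∈ q.asIdeal
  · rw [if_pos hx, Ideal.Quotient.eq_zero_iff_mem.2 hx, quadraticChar_zero]
    norm_num
  · have hx0 : (Ideal.Quotient.mk q.asIdeal x) ≠ 0 := fun h ↦ hx (Ideal.Quotient.eq_zero_iff_mem.1 h)
    have hsq : IsSquare (Ideal.Quotient.mk q.asIdeal x) ↔ ∃ c : 𝓞 K, c ^ 2 - x ∈ q.asIdeal := by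
      constructor
      · rintro ⟨r, hr⟩
        obtain ⟨c, rfl⟩ := Ideal.Quotient.mk_surjective r
        refine ⟨c, ?_⟩
        rw [← Ideal.Quotient.eq_zero_iff_mem, map_sub, map_pow, hr, sq, sub_self]
      · rintro ⟨c, hc⟩
        refine ⟨Ideal.Quotient.mk q.asIdeal c, ?_⟩
        rw [← Ideal.Quotient.eq_zero_iff_mem, map_sub, map_pow, sub_eq_zero] at hc
        rw [← hc, sq]
    rw [if_neg hx]
    by_cases h : ∃ c : 𝓞 K, c ^ 2 - x ∈ q.asIdeal
    · rw [if_pos h, (quadraticChar_one_iff_isSquare hx0).2 (hsq.2 h)]; norm_num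
    · rw [if_neg h, quadraticChar_neg_one_iff_not_isSquare.2 (fun h' ↦ h (hsq.1 h'))]; norm_num

lemma chi_prod (q : HeightOneSpectrum (𝓞 K)) {ι : Type*} (s : Finset ι) (a : ι → 𝓞 K) :
    ∏ i ∈ s, chi q (a i) = chi q (∏ i ∈ s, a i) := by
  obtain ⟨f, hf⟩ := chi_eq q
  simp only [hf, map_prod, Int.cast_prod]

lemma finite_bad {D : 𝓞 K} (hD : D ≠ 0) : {q : HeightOneSpectrum (𝓞 K) | D ∈ q.asIdeal}.Finite := by
  have h := Ideal.finite_factors (R := 𝓞 K) (I := Ideal.span {D})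
    (by rwa [Ne, Ideal.zero_eq_bot, Ideal.span_singleton_eq_bot])
  refine h.subset (fun q hq ↦ ?_)
  rw [Set.mem_ofPred_eq, Ideal.dvd_span_singleton]
  exact hq

open Classical in
/-- the indicator of the primes not containing `D` -/
noncomputable def ind (D : 𝓞 K) (q : HeightOneSpectrum (𝓞 K)) : ℝ := if D ∈ q.asIdeal then 0 else 1

lemma summable_sq : Summable (fun q : HeightOneSpectrum (𝓞 K) ↦ wt K 2 q.asIdeal) :=
  summable_wt_prime (by norm_num)

lemma wt_sq_le {s : ℝ} (hs : 1 < s) (q : HeightOneSpectrum (𝓞 K)) :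
    (wt K s q.asIdeal) ^ 2 ≤ wt K 2 q.asIdeal := by
  have hN : (2:ℝ) ≤ Ideal.absNorm q.asIdeal := by exact_mod_cast absNorm_ge_two q
  unfold wt
  rw [← Real.rpow_natCast, ← Real.rpow_mul (by positivity)]
  apply Real.rpow_le_rpow_of_exponent_le (by linarith)
  push_cast; linarith

lemma summable_ind {s : ℝ} (hs : 1 < s) (D x : 𝓞 K) :
    Summable (fun q : HeightOneSpectrum (𝓞 K) ↦ ind D q * chi q x * wt K s q.asIdeal) := by
  refine Summable.of_norm_bounded (summable_wt_prime (F := K) hs) (fun q ↦ ?_)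
  rw [norm_mul, norm_mul, Real.norm_eq_abs, Real.norm_eq_abs, Real.norm_of_nonneg (wt_nonneg _ _)]
  have h1 : |ind D q| ≤ 1 := by unfold ind; split_ifs <;> simp
  have h2 := chi_abs q x
  have h3 := wt_nonneg s q.asIdeal
  have h4 : |ind D q| * |chi q x| ≤ 1 := by
    calc _ ≤ 1 * 1 := mul_le_mul h1 h2 (abs_nonneg _) (by norm_num)
      _ = 1 := one_mul 1
  calc |ind D q| * |chi q x| * wt K s q.asIdeal ≤ 1 * wt K s q.asIdeal :=
        mul_le_mul_of_nonneg_right h4 h3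
    _ = _ := one_mul _

/-- the quadratic character sum over primes stays bounded near `s = 1` -/
theorem charsum_bdd {D b : 𝓞 K} (hD : D ≠ 0) (hb : ¬ IsSquare (b : K))
    (hDb : ∀ q : HeightOneSpectrum (𝓞 K), D ∉ q.asIdeal → b ∉ q.asIdeal ∧ (2 : 𝓞 K) ∉ q.asIdeal) :
    ∃ C : ℝ, ∀ᶠ s in 𝓝[>] (1:ℝ),
      |∑' q : HeightOneSpectrum (𝓞 K), ind D q * chi q b * wt K s q.asIdeal| ≤ C := by
  obtain ⟨L, _, _, _, β, σ, h2, hβ, hσ, hσβ⟩ := exists_quad K b hb
  obtain ⟨C₁, hC₁⟩ := LP_log (F := K)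
  obtain ⟨C₂, hC₂⟩ := LP_log (F := L)
  have hfin := finite_bad hD
  let M : ℝ := ∑' q : HeightOneSpectrum (𝓞 K), (wt K 2 q.asIdeal + 3 * (1 - ind D q))
  have hsumB : Summable (fun q : HeightOneSpectrum (𝓞 K) ↦ 3 * (1 - ind D q)) := by
    refine summable_of_hasFiniteSupport (hfin.subset (fun q hq ↦ ?_))
    rw [Function.mem_support] at hq
    by_contra hcon
    apply hq
    have : D ∉ q.asIdeal := hcon
    unfold ind
    rw [if_neg this]; norm_num
  have hsumM : Summable (fun q : HeightOneSpectrum (𝓞 K) ↦ wt K 2 q.asIdeal + 3 * (1 - ind D q)) :=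
    summable_sq.add hsumB
  refine ⟨C₂ + C₁ + M, ?_⟩
  filter_upwards [hC₁, hC₂, self_mem_nhdsWithin] with s h3 h4 hs
  have hs1 : (1:ℝ) < s := hs
  obtain ⟨h5, h6⟩ := LP_eq_tsum K (L := L) hs1
  have h7 : |∑' q : HeightOneSpectrum (𝓞 K), (lsum L s q - wt K s q.asIdeal
      - ind D q * chi q b * wt K s q.asIdeal)| ≤ M := by
    rw [← Real.norm_eq_abs]
    refine tsum_of_norm_bounded hsumM.hasSum (fun q ↦ ?_)
    rw [Real.norm_eq_abs]
    have h8 := wt_nonneg s q.asIdeal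
    have h9 := wt_le_one hs1 q
    have h10 := lsum_nonneg (L := L) s q
    have h11 := lsum_le (L := L) hs1 q h2
    have h12 := wt_nonneg 2 q.asIdeal
    by_cases hq : D ∈ q.asIdeal
    · rw [ind, if_pos hq, zero_mul, zero_mul, sub_zero, sub_zero, abs_le]
      constructor <;> linarith
    · obtain ⟨hbq, h2q⟩ := hDb q hq
      rw [ind, if_neg hq]
      by_cases hsq : ∃ c : 𝓞 K, c ^ 2 - b ∈ q.asIdeal
      · have hc : chi q b = 1 := by unfold chi; rw [if_neg hbq, if_pos hsq]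
        rw [hc, lsum_split s q h2 hβ σ hσ hσβ hbq h2q hsq]
        have : 2 * wt K s q.asIdeal - wt K s q.asIdeal - 1 * 1 * wt K s q.asIdeal = 0 := by ring
        rw [this, abs_zero]
        linarith
      · have hc : chi q b = -1 := by unfold chi; rw [if_neg hbq, if_neg hsq]
        rw [hc]
        have h13 := lsum_inert hs1 q h2 hβ hsq
        have h14 := wt_sq_le hs1 q
        have : lsum L s q - wt K s q.asIdeal - 1 * -1 * wt K s q.asIdeal = lsum L s q := by ring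
        rw [this, abs_of_nonneg h10]
        linarith
  rw [Summable.tsum_sub (h5.sub (summable_wt_prime hs1)) (summable_ind hs1 D b),
    Summable.tsum_sub h5 (summable_wt_prime hs1), ← h6] at h7
  change |LP L s - LP K s - _| ≤ M at h7
  have h15 : |LP L s - LP K s| ≤ C₂ + C₁ := by
    have e : LP L s - LP K s = (LP L s - Real.log (1 / (s - 1))) - (LP K s - Real.log (1 / (s - 1))) := by
      ring
    rw [e]
    exact (abs_sub _ _).trans (add_le_add h4 h3)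
  have e : ∀ x y : ℝ, |x| ≤ |y| + |y - x| := by
    intro x y
    have := abs_sub y (y - x)
    rwa [sub_sub_cancel] at this
  refine (e _ (LP L s - LP K s)).trans ?_
  linarith

open Classical in
theorem exists_prime_symbols {ι : Type} [Fintype ι] (a : ι → 𝓞 K) (ha : ∀ i, a i ≠ 0)
    (hind : ∀ s : Finset ι, s.Nonempty → ¬ IsSquare (∏ i ∈ s, ((a i : 𝓞 K) : K)))
    (T : Set ι) (D : 𝓞 K) (hD : D ≠ 0) :
    ∃ q : Ideal (𝓞 K), q.IsPrime ∧ q ≠ ⊥ ∧ D ∉ q ∧ (2 : 𝓞 K) ∉ q ∧ (∀ i, a i ∉ q) ∧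
      ∀ i, (∃ b : 𝓞 K, b ^ 2 - a i ∈ q) ↔ i ∈ T := by
  by_contra hcon
  push Not at hcon
  let E : 𝓞 K := D * 2 * ∏ i, a i
  have hE : E ≠ 0 := mul_ne_zero (mul_ne_zero hD two_ne_zero) (Finset.prod_ne_zero_iff.2 fun i _ ↦ ha i)
  have hgood : ∀ q : HeightOneSpectrum (𝓞 K), E ∉ q.asIdeal →
      D ∉ q.asIdeal ∧ (2 : 𝓞 K) ∉ q.asIdeal ∧ ∀ i, a i ∉ q.asIdeal := by
    intro q hq
    refine ⟨fun h ↦ hq ?_, fun h ↦ hq ?_, fun i h ↦ hq ?_⟩
    · exact Ideal.mul_mem_right _ _ (Ideal.mul_mem_right _ _ h)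
    · exact Ideal.mul_mem_right _ _ (Ideal.mul_mem_left _ _ h)
    · refine Ideal.mul_mem_left _ _ ?_
      rw [← Finset.mul_prod_erase Finset.univ a (Finset.mem_univ i)]
      exact Ideal.mul_mem_right _ _ h
  let ε : ι → ℝ := fun i ↦ if i ∈ T then 1 else -1
  have hvan : ∀ q : HeightOneSpectrum (𝓞 K), E ∉ q.asIdeal → ∏ i, (1 + ε i * chi q (a i)) = 0 := by
    intro q hq
    obtain ⟨h1, h2, h3⟩ := hgood q hq
    obtain ⟨i, hi⟩ := hcon q.asIdeal q.isPrime q.ne_bot h1 h2 h3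
    apply Finset.prod_eq_zero (Finset.mem_univ i)
    by_cases hT : i ∈ T
    · have h4 : ¬ ∃ b : 𝓞 K, b ^ 2 - a i ∈ q.asIdeal := by
        rcases hi with h | h
        · exact absurd hT h.2
        · exact fun ⟨b, hb⟩ ↦ h.1 b hb
      simp only [ε, if_pos hT, chi, if_neg (h3 i), if_neg h4]
      norm_num
    · have h4 : ∃ b : 𝓞 K, b ^ 2 - a i ∈ q.asIdeal := by
        rcases hi with h | h
        · exact h.1
        · exact absurd h.2 hT
      simp only [ε, if_neg hT, chi, if_neg (h3 i), if_pos h4]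
      norm_num
  -- the sums over characters
  let S : Finset ι → ℝ → ℝ := fun J s ↦
    ∑' q : HeightOneSpectrum (𝓞 K), ind E q * chi q (∏ i ∈ J, a i) * wt K s q.asIdeal
  have hzero : ∀ s : ℝ, 1 < s → ∑ J : Finset ι, (∏ i ∈ J, ε i) * S J s = 0 := by
    intro s hs
    have h1 : ∀ J : Finset ι, (∏ i ∈ J, ε i) * S J s = ∑' q : HeightOneSpectrum (𝓞 K),
        (∏ i ∈ J, ε i) * (ind E q * chi q (∏ i ∈ J, a i) * wt K s q.asIdeal) := by
      intro J
      rw [tsum_mul_left]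
    rw [Finset.sum_congr rfl (fun J _ ↦ h1 J),
      ← Summable.tsum_finsetSum (fun J _ ↦ (summable_ind hs E _).mul_left _)]
    rw [← tsum_zero (α := ℝ) (β := HeightOneSpectrum (𝓞 K))]
    refine tsum_congr (fun q ↦ ?_)
    by_cases hq : E ∈ q.asIdeal
    · refine Finset.sum_eq_zero (fun J _ ↦ ?_)
      rw [ind, if_pos hq]; ring
    · have h2 := hvan q hq
      rw [Finset.prod_one_add, Finset.powerset_univ] at h2
      have h3 : ∀ J : Finset ι, (∏ i ∈ J, ε i) * (ind E q * chi q (∏ i ∈ J, a i) * wt K s q.asIdeal)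
          = (∏ i ∈ J, ε i * chi q (a i)) * (ind E q * wt K s q.asIdeal) := by
        intro J
        rw [← chi_prod, Finset.prod_mul_distrib]; ring
      rw [Finset.sum_congr rfl (fun J _ ↦ h3 J), ← Finset.sum_mul, h2, zero_mul]
  have hbdd : ∀ J : Finset ι, ∃ C : ℝ, J.Nonempty → ∀ᶠ s in 𝓝[>] (1:ℝ), |S J s| ≤ C := by
    intro J
    by_cases hJ : J.Nonempty
    · have hns : ¬ IsSquare (((∏ i ∈ J, a i : 𝓞 K)) : K) := by
        have e : ((∏ i ∈ J, a i : 𝓞 K) : K) = ∏ i ∈ J, ((a i : 𝓞 K) : K) :=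
          map_prod (algebraMap (𝓞 K) K) _ _
        rw [e]
        exact hind J hJ
      have hdb : ∀ q : HeightOneSpectrum (𝓞 K), E ∉ q.asIdeal →
          (∏ i ∈ J, a i) ∉ q.asIdeal ∧ (2 : 𝓞 K) ∉ q.asIdeal := by
        intro q hq
        obtain ⟨_, h2, h3⟩ := hgood q hq
        refine ⟨fun h ↦ ?_, h2⟩
        obtain ⟨i, _, hi⟩ := (q.isPrime.prod_mem_iff).1 h
        exact h3 i hi
      obtain ⟨C, hC⟩ := charsum_bdd hE hns hdb
      exact ⟨C, fun _ ↦ hC⟩
    · exact ⟨0, fun h ↦ absurd h hJ⟩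
  choose C hC using hbdd
  obtain ⟨C₁, hC₁⟩ := LP_log (F := K)
  have hfin := finite_bad hE
  have hsumB : Summable (fun q : HeightOneSpectrum (𝓞 K) ↦ (1 - ind E q)) := by
    refine summable_of_hasFiniteSupport (hfin.subset (fun q hq ↦ ?_))
    rw [Function.mem_support] at hq
    by_contra hcon'
    apply hq
    have : E ∉ q.asIdeal := hcon'
    unfold ind
    rw [if_neg this]; norm_num
  let M : ℝ := ∑' q : HeightOneSpectrum (𝓞 K), (1 - ind E q)
  have hLP : ∀ s : ℝ, 1 < s → LP K s ≤ S ∅ s + M := by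
    intro s hs
    have h1 : S ∅ s + M = ∑' q : HeightOneSpectrum (𝓞 K),
        (ind E q * chi q (∏ i ∈ (∅ : Finset ι), a i) * wt K s q.asIdeal + (1 - ind E q)) :=
      ((summable_ind hs E _).tsum_add hsumB).symm
    rw [h1]
    refine Summable.tsum_le_tsum (fun q ↦ ?_) (summable_wt_prime hs) ((summable_ind hs E _).add hsumB)
    have hchi : chi q (∏ i ∈ (∅ : Finset ι), a i) = 1 := by
      rw [Finset.prod_empty, chi, if_neg (fun h ↦ q.isPrime.ne_top ((Ideal.eq_top_iff_one _).2 h)),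
        if_pos ⟨1, by simp⟩]
    rw [hchi]
    have h2 := wt_le_one hs q
    by_cases hq : E ∈ q.asIdeal
    · rw [ind, if_pos hq]; linarith
    · rw [ind, if_neg hq]; linarith
  have htend : Tendsto (fun s : ℝ ↦ Real.log (1 / (s - 1))) (𝓝[>] 1) atTop := by
    have h1 : Tendsto (fun s : ℝ ↦ s - 1) (𝓝[>] 1) (𝓝[>] 0) := by
      refine tendsto_nhdsWithin_iff.2 ⟨?_, ?_⟩
      · have : Tendsto (fun s : ℝ ↦ s - 1) (𝓝 1) (𝓝 (1 - 1)) := (continuous_id.sub continuous_const).tendsto 1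
        rw [sub_self] at this
        exact this.mono_left nhdsWithin_le_nhds
      · filter_upwards [self_mem_nhdsWithin] with s hs
        have : (1:ℝ) < s := hs
        exact sub_pos.2 this
    have h2 := Real.tendsto_log_atTop.comp (tendsto_inv_nhdsGT_zero.comp h1)
    refine h2.congr (fun s ↦ ?_)
    simp only [Function.comp_apply, one_div]
  have hall : ∀ᶠ s in 𝓝[>] (1:ℝ), ∀ J : Finset ι, J.Nonempty → |S J s| ≤ C J := by
    rw [eventually_all]
    intro J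
    by_cases hJ : J.Nonempty
    · filter_upwards [hC J hJ] with s hs _
      exact hs
    · exact Eventually.of_forall (fun s h ↦ absurd h hJ)
  have hbig := htend.eventually_gt_atTop (C₁ + M + ∑ J ∈ (Finset.univ : Finset (Finset ι)).erase ∅, C J)
  obtain ⟨s, hs1, hs2, hs3, hs4⟩ := (hall.and (hbig.and (hC₁.and self_mem_nhdsWithin))).exists
  have hs : (1:ℝ) < s := hs4
  have h0 := hzero s hs
  rw [← Finset.add_sum_erase _ _ (Finset.mem_univ ∅), Finset.prod_empty, one_mul] at h0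
  have h5 : |∑ J ∈ (Finset.univ : Finset (Finset ι)).erase ∅, (∏ i ∈ J, ε i) * S J s|
      ≤ ∑ J ∈ (Finset.univ : Finset (Finset ι)).erase ∅, C J := by
    refine (Finset.abs_sum_le_sum_abs _ _).trans (Finset.sum_le_sum (fun J hJ ↦ ?_))
    have hJ' : J.Nonempty := Finset.nonempty_iff_ne_empty.2 (Finset.ne_of_mem_erase hJ)
    rw [abs_mul, Finset.abs_prod]
    have : ∏ i ∈ J, |ε i| = 1 := by
      refine Finset.prod_eq_one (fun i _ ↦ ?_)
      simp only [ε]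
      split_ifs <;> simp
    rw [this, one_mul]
    exact hs1 J hJ'
  have h6 := hLP s hs
  have h7 := (abs_le.1 hs3).1
  have h8 := (abs_le.1 h5).1
  linarith

end main
end Pool.Agent.Lib.QuadSymbols

/-- primes with prescribed quadratic symbols -/
theorem Pool.Agent.Lib.exists_prime_symbols (K : Type) [Field K] [NumberField K] {ι : Type}
    [Fintype ι] (a : ι → 𝓞 K) (ha : ∀ i, a i ≠ 0)
    (hind : ∀ s : Finset ι, s.Nonempty → ¬ IsSquare (∏ i ∈ s, ((a i : 𝓞 K) : K)))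
    (T : Set ι) (D : 𝓞 K) (hD : D ≠ 0) :
    ∃ q : Ideal (𝓞 K), q.IsPrime ∧ q ≠ ⊥ ∧ D ∉ q ∧ (2 : 𝓞 K) ∉ q ∧ (∀ i, a i ∉ q) ∧
      ∀ i, (∃ b : 𝓞 K, b ^ 2 - a i ∈ q) ↔ i ∈ T :=
  Pool.Agent.Lib.QuadSymbols.exists_prime_symbols a ha hind T D hD
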