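import Mathlib
import Pool.Agent.Lib.Tauberian

/-!
The prime number theorem in Moebius form: `∑_{k ≤ n} μ(k) = o(n)`.
-/

set_option autoImplicit false

open MeasureTheory Filter Topology Set Complex

namespace Pool.Agent.Lib.MobiusSum

open Pool.Agent.Lib.Tauberian

/-- Mertens function at a natural number, as a real number. -/
noncomputable def M (n : ℕ) : ℝ := ∑ k ∈ Finset.Icc 1 n, ((ArithmeticFunction.moebius k : ℤ) : ℝ)

lemma abs_M_sub_le {m n : ℕ} (h : m ≤ n) : |M n - M m| ≤ (n : ℝ) - m := by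
  have h1 : M n - M m = ∑ k ∈ Finset.Ioc m n, ((ArithmeticFunction.moebius k : ℤ) : ℝ) := by
    unfold M
    have : Finset.Icc 1 n = Finset.Icc 1 m ∪ Finset.Ioc m n := by
      ext k; simp only [Finset.mem_Icc, Finset.mem_union, Finset.mem_Ioc]; omega
    rw [this, Finset.sum_union]
    · ring
    · rw [Finset.disjoint_left]
      intro k hk hk'
      simp only [Finset.mem_Icc, Finset.mem_Ioc] at hk hk'
      omega
  rw [h1]
  calc |∑ k ∈ Finset.Ioc m n, ((ArithmeticFunction.moebius k : ℤ) : ℝ)|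
      ≤ ∑ k ∈ Finset.Ioc m n, |((ArithmeticFunction.moebius k : ℤ) : ℝ)| :=
        Finset.abs_sum_le_sum_abs _ _
    _ ≤ ∑ k ∈ Finset.Ioc m n, (1 : ℝ) := by
        apply Finset.sum_le_sum
        intro k _
        have := ArithmeticFunction.abs_moebius_le_one (n := k)
        exact_mod_cast this
    _ = (n : ℝ) - m := by
        simp [Nat.cast_sub h]

lemma abs_M_le (n : ℕ) : |M n| ≤ n := by
  have h := abs_M_sub_le (Nat.zero_le n)
  simpa [M] using h

/-- The normalised Mertens function in logarithmic scale. -/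
noncomputable def a (t : ℝ) : ℝ := M ⌊Real.exp t⌋₊ * Real.exp (-t)

lemma a_measurable : Measurable a := by
  unfold a
  refine Measurable.mul ?_ (by fun_prop)
  exact (measurable_from_nat (f := M)).comp (Nat.measurable_floor.comp Real.measurable_exp)

lemma abs_a_le (t : ℝ) : |a t| ≤ 1 := by
  unfold a
  rw [abs_mul, abs_of_pos (Real.exp_pos _)]
  calc |M ⌊Real.exp t⌋₊| * Real.exp (-t) ≤ (⌊Real.exp t⌋₊ : ℝ) * Real.exp (-t) :=
        mul_le_mul_of_nonneg_right (abs_M_le _) (Real.exp_pos _).le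
    _ ≤ Real.exp t * Real.exp (-t) :=
        mul_le_mul_of_nonneg_right (Nat.floor_le (Real.exp_pos _).le) (Real.exp_pos _).le
    _ = 1 := by rw [← Real.exp_add]; simp

/-- The continuous extension of the Laplace transform. -/
noncomputable def G (s : ℂ) : ℂ := if s = 0 then 0 else 1 / ((1 + s) * riemannZeta (1 + s))

lemma G_continuousOn : ContinuousOn G {s : ℂ | 0 ≤ s.re} := by
  intro s hs
  simp only [mem_ofPred_eq] at hs
  apply ContinuousAt.continuousWithinAt
  by_cases h0 : s = 0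
  · subst h0
    have hG0 : G 0 = 0 := by simp [G]
    rw [continuousAt_iff_punctured_nhds, hG0]
    have h1 : Tendsto (fun s : ℂ => s * riemannZeta (1 + s)) (𝓝[≠] 0) (𝓝 1) := by
      have hshift : Tendsto (fun s : ℂ => 1 + s) (𝓝[≠] 0) (𝓝[≠] 1) := by
        apply tendsto_nhdsWithin_of_tendsto_nhds_of_eventually_within
        · have : Tendsto (fun s : ℂ => 1 + s) (𝓝 0) (𝓝 (1 + 0)) :=
            (by fun_prop : Continuous fun s : ℂ => 1 + s).tendsto 0
          rw [add_zero] at this
          exact this.mono_left nhdsWithin_le_nhds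
        · filter_upwards [self_mem_nhdsWithin] with s hs
          simpa using hs
      have := riemannZeta_residue_one.comp hshift
      refine this.congr fun s => ?_
      simp
    have h2 : Tendsto (fun s : ℂ => s / ((1 + s) * (s * riemannZeta (1 + s)))) (𝓝[≠] 0)
        (𝓝 (0 / ((1 + 0) * 1))) := by
      refine Tendsto.div ?_ (Tendsto.mul ?_ h1) (by simp)
      · exact tendsto_id.mono_left nhdsWithin_le_nhds
      · have : Tendsto (fun s : ℂ => 1 + s) (𝓝 0) (𝓝 (1 + 0)) :=
            (by fun_prop : Continuous fun s : ℂ => 1 + s).tendsto 0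
        exact this.mono_left nhdsWithin_le_nhds
    rw [zero_div] at h2
    refine h2.congr' ?_
    filter_upwards [self_mem_nhdsWithin] with s hs
    have hs' : s ≠ 0 := hs
    unfold G
    rw [if_neg hs']
    rw [mul_left_comm, div_mul_eq_div_div, div_self hs']
  · have hev : (fun s : ℂ => 1 / ((1 + s) * riemannZeta (1 + s))) =ᶠ[𝓝 s] G := by
      filter_upwards [isOpen_ne.mem_nhds h0] with z hz
      unfold G
      rw [if_neg hz]
    refine ContinuousAt.congr ?_ hev
    have h1s : 1 + s ≠ 0 := by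
      intro h
      have := congrArg Complex.re h
      simp at this
      linarith
    have hz : riemannZeta (1 + s) ≠ 0 := riemannZeta_ne_zero_of_one_le_re (by simpa using hs)
    refine ContinuousAt.div continuousAt_const (ContinuousAt.mul (by fun_prop) ?_)
      (mul_ne_zero h1s hz)
    have hd : DifferentiableAt ℂ riemannZeta (1 + s) := differentiableAt_riemannZeta (by simpa using h0)
    exact ContinuousAt.comp (f := fun s : ℂ => 1 + s) hd.continuousAt (by fun_prop)

lemma moebius_bigO : (fun n : ℕ => ∑ k ∈ Finset.Icc 1 n,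
    ((fun k : ℕ => ((ArithmeticFunction.moebius k : ℤ) : ℂ)) k)) =O[atTop]
      fun n : ℕ => (n : ℝ) ^ (1:ℝ) := by
  apply Asymptotics.IsBigO.of_bound 1
  filter_upwards with n
  have : (∑ k ∈ Finset.Icc 1 n, ((ArithmeticFunction.moebius k : ℤ) : ℂ)) = ((M n : ℝ) : ℂ) := by
    unfold M; push_cast; rfl
  rw [this, Complex.norm_real, Real.rpow_one, one_mul, Real.norm_eq_abs,
    Real.norm_of_nonneg (Nat.cast_nonneg n)]
  exact abs_M_le n

lemma laplace (s : ℂ) (hs : 0 < s.re) :
    ∫ t in Ioi (0:ℝ), (a t : ℂ) * cexp (-(s * t)) = G s := by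
  have hs1 : 1 < (1 + s).re := by simpa using hs
  have hne : 1 + s ≠ 0 := by
    intro h
    have := congrArg Complex.re h
    simp at this
    linarith
  have hL := LSeries_eq_mul_integral (fun k : ℕ => ((ArithmeticFunction.moebius k : ℤ) : ℂ))
    zero_le_one hs1 (ArithmeticFunction.LSeriesSummable_moebius_iff.mpr hs1) moebius_bigO
  have hinv : LSeries (fun k : ℕ => ((ArithmeticFunction.moebius k : ℤ) : ℂ)) (1 + s)
      = 1 / riemannZeta (1 + s) := by
    have h := LSeries_one_mul_Lseries_moebius hs1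
    rw [LSeries_one_eq_riemannZeta hs1] at h
    have hz : riemannZeta (1 + s) ≠ 0 := riemannZeta_ne_zero_of_one_le_re (le_of_lt hs1)
    rw [eq_div_iff hz, mul_comm]
    exact h
  have hsub : ∫ t in Ioi (0:ℝ), (a t : ℂ) * cexp (-(s * t))
      = ∫ y in Ioi (1:ℝ), (∑ k ∈ Finset.Icc 1 ⌊y⌋₊,
          ((ArithmeticFunction.moebius k : ℤ) : ℂ)) * (y:ℂ) ^ (-((1 + s) + 1)) := by
    have h := integral_comp_exp_Ioi (fun y : ℝ => (∑ k ∈ Finset.Icc 1 ⌊y⌋₊,
          ((ArithmeticFunction.moebius k : ℤ) : ℂ)) * (y:ℂ) ^ (-((1 + s) + 1))) 0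
    rw [Real.exp_zero] at h
    rw [← h]
    refine setIntegral_congr_fun measurableSet_Ioi fun t ht => ?_
    have hM : (∑ k ∈ Finset.Icc 1 ⌊Real.exp t⌋₊, ((ArithmeticFunction.moebius k : ℤ) : ℂ))
        = ((M ⌊Real.exp t⌋₊ : ℝ) : ℂ) := by
      unfold M; push_cast; rfl
    simp only [Complex.real_smul]
    rw [hM]
    unfold a
    rw [Complex.cpow_def_of_ne_zero (by exact_mod_cast (Real.exp_pos t).ne'),
      ← Complex.ofReal_log (Real.exp_pos t).le, Real.log_exp]
    push_cast
    have e1 : cexp (-(t:ℂ)) * cexp (-(s * t)) = cexp (-((1 + s) * t)) := by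
      rw [← Complex.exp_add]; congr 1; ring
    have e2 : cexp (t:ℂ) * cexp (t * -(1 + s + 1)) = cexp (-((1 + s) * t)) := by
      rw [← Complex.exp_add]; congr 1; ring
    rw [mul_assoc, e1, mul_left_comm, e2]
  rw [hsub]
  rw [hinv] at hL
  have hs0 : s ≠ 0 := by
    intro h; rw [h] at hs; simp at hs
  unfold G
  rw [if_neg hs0]
  rw [eq_div_iff (mul_ne_zero hne (riemannZeta_ne_zero_of_one_le_re (le_of_lt hs1)))]
  rw [div_eq_iff (riemannZeta_ne_zero_of_one_le_re (le_of_lt hs1))] at hL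
  linear_combination -hL

lemma slow : ∀ ε > 0, ∃ δ > 0, ∃ X : ℝ, ∀ x ≥ X, ∀ y, x ≤ y → y ≤ x + δ → a x - ε ≤ a y := by
  intro ε hε
  have hlim : Tendsto (fun x : ℝ => Real.exp (-x)) atTop (𝓝 0) :=
    Real.tendsto_exp_neg_atTop_nhds_zero
  obtain ⟨X, hX⟩ := eventually_atTop.mp (hlim.eventually (gt_mem_nhds (show 0 < ε / 2 by positivity)))
  refine ⟨ε / 4, by positivity, X, fun x hx y hxy hy => ?_⟩
  have h1 : Real.exp (-x) < ε / 2 := hX x hx
  have hexy : Real.exp x ≤ Real.exp y := Real.exp_le_exp.mpr hxy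
  have hfl : ⌊Real.exp x⌋₊ ≤ ⌊Real.exp y⌋₊ := Nat.floor_le_floor hexy
  have h2 := abs_M_sub_le hfl
  have h3 : (⌊Real.exp y⌋₊ : ℝ) - ⌊Real.exp x⌋₊ ≤ Real.exp y - Real.exp x + 1 := by
    have := Nat.floor_le (Real.exp_pos y).le
    have := Nat.lt_floor_add_one (Real.exp x)
    linarith
  have h4 : |M ⌊Real.exp x⌋₊| ≤ Real.exp x := (abs_M_le _).trans (Nat.floor_le (Real.exp_pos _).le)
  have h5 : a y - a x = (M ⌊Real.exp y⌋₊ - M ⌊Real.exp x⌋₊) * Real.exp (-y)
      + M ⌊Real.exp x⌋₊ * (Real.exp (-y) - Real.exp (-x)) := by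
    unfold a; ring
  have hey : 0 < Real.exp (-y) := Real.exp_pos _
  have hmono : Real.exp (-y) ≤ Real.exp (-x) := Real.exp_le_exp.mpr (by linarith)
  have h6 : |(M ⌊Real.exp y⌋₊ - M ⌊Real.exp x⌋₊) * Real.exp (-y)|
      ≤ (Real.exp y - Real.exp x + 1) * Real.exp (-y) := by
    rw [abs_mul, abs_of_pos hey]
    exact mul_le_mul_of_nonneg_right (h2.trans h3) hey.le
  have h7 : |M ⌊Real.exp x⌋₊ * (Real.exp (-y) - Real.exp (-x))|
      ≤ Real.exp x * (Real.exp (-x) - Real.exp (-y)) := by
    rw [abs_mul, abs_of_nonpos (by linarith : Real.exp (-y) - Real.exp (-x) ≤ 0)]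
    have : 0 ≤ Real.exp (-x) - Real.exp (-y) := by linarith
    calc _ = |M ⌊Real.exp x⌋₊| * (Real.exp (-x) - Real.exp (-y)) := by ring
      _ ≤ _ := mul_le_mul_of_nonneg_right h4 this
  have e1 : Real.exp y * Real.exp (-y) = 1 := by rw [← Real.exp_add]; simp
  have e2 : Real.exp x * Real.exp (-x) = 1 := by rw [← Real.exp_add]; simp
  have e3 : 1 - (y - x) ≤ Real.exp x * Real.exp (-y) := by
    rw [← Real.exp_add]
    have := Real.add_one_le_exp (x + -y)
    linarith
  have h8 := abs_le.mp h6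
  have h9 := abs_le.mp h7
  have h10 : (Real.exp y - Real.exp x + 1) * Real.exp (-y) ≤ (y - x) + Real.exp (-x) := by
    have : (Real.exp y - Real.exp x + 1) * Real.exp (-y)
      = Real.exp y * Real.exp (-y) - Real.exp x * Real.exp (-y) + Real.exp (-y) := by ring
    rw [this, e1]
    linarith
  have h11 : Real.exp x * (Real.exp (-x) - Real.exp (-y)) ≤ y - x := by
    rw [mul_sub, e2]; linarith
  have : a y - a x ≥ -((y - x) + Real.exp (-x)) - (y - x) := by
    rw [h5]; linarith [h8.1, h9.1]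
  linarith

theorem a_tendsto : Tendsto a atTop (𝓝 0) :=
  tendsto_zero_of_laplace a 1 a_measurable (fun t _ => abs_a_le t) G G_continuousOn laplace slow

/-- **Prime number theorem, Moebius form.** -/
theorem mertens_isLittleO :
    Filter.Tendsto (fun n : ℕ => (∑ k ∈ Finset.Icc 1 n, ((ArithmeticFunction.moebius k : ℤ) : ℝ)) / (n : ℝ))
      Filter.atTop (nhds 0) := by
  have h := a_tendsto.comp (Real.tendsto_log_atTop.comp tendsto_natCast_atTop_atTop)
  refine h.congr' ?_
  filter_upwards [eventually_gt_atTop 0] with n hn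
  have hn' : (0:ℝ) < n := by exact_mod_cast hn
  simp only [Function.comp]
  unfold a
  rw [Real.exp_log hn', Real.exp_neg, Real.exp_log hn', Nat.floor_natCast]
  unfold M
  rw [div_eq_mul_inv]

end Pool.Agent.Lib.MobiusSum
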