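import Mathlib

set_option autoImplicit false

/-!
# An Artin–Rees type lemma for nilpotent groups

Let a nilpotent group `𝒢` act linearly on a Noetherian module `M` and let `V ≤ M` be a submodule on
which the action is trivial.  Then there is a stable submodule `C` with `C ⊓ V = ⊥` such that the
action on `M ⧸ C` is unipotent (`exists_filtration`).
-/

namespace Pool.Lib.ARNil

variable {R : Type*} [CommRing R] {M : Type*} [AddCommGroup M] [Module R M]
  {𝒢 : Type*} [Group 𝒢]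

/-- stable submodules -/
def Stab (ρ : 𝒢 →* Module.End R M) (W : Submodule R M) : Prop := ∀ g, ∀ w ∈ W, ρ g w ∈ W

/-- the unipotent filtration above `K` -/
def Fl (ρ : 𝒢 →* Module.End R M) (K : Submodule R M) : ℕ → Submodule R M
  | 0 => K
  | k + 1 => ⨅ g, (Fl ρ K k).comap (ρ g - 1)

/-- the difference operator -/
def dz (ρ : 𝒢 →* Module.End R M) (z : 𝒢) : Module.End R M := ρ z - 1

variable {ρ : 𝒢 →* Module.End R M}

lemma dz_apply (z : 𝒢) (w : M) : dz ρ z w = ρ z w - w := rfl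

lemma mem_Fl_succ {K : Submodule R M} {k : ℕ} {y : M} :
    y ∈ Fl ρ K (k + 1) ↔ ∀ g, ρ g y - y ∈ Fl ρ K k := by
  simp [Fl, Submodule.mem_iInf]

lemma Fl_stab {K : Submodule R M} (hK : Stab ρ K) (k : ℕ) : Stab ρ (Fl ρ K k) := by
  induction k with
  | zero => exact hK
  | succ k ih =>
    intro g y hy
    rw [mem_Fl_succ] at hy ⊢
    intro h
    have e : ρ h (ρ g y) - ρ g y = ρ g (ρ (g⁻¹ * h * g) y - y) := by
      have e1 : ρ h (ρ g y) = ρ (h * g) y := by rw [map_mul]; rfl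
      have e2 : ρ g (ρ (g⁻¹ * h * g) y) = ρ (h * g) y := by
        rw [← Module.End.mul_apply, ← map_mul]
        congr 2
        group
      rw [map_sub, e1, e2]
    rw [e]
    exact ih g _ (hy _)

lemma stab_bot : Stab ρ (⊥ : Submodule R M) := by
  intro g w hw
  rw [Submodule.mem_bot] at hw ⊢
  rw [hw, map_zero]

lemma Fl_mono {K : Submodule R M} (hK : Stab ρ K) (k : ℕ) : Fl ρ K k ≤ Fl ρ K (k + 1) := by
  intro y hy
  rw [mem_Fl_succ]
  intro g
  exact (Fl ρ K k).sub_mem (Fl_stab hK k g y hy) hy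

lemma Fl_le {K : Submodule R M} (hK : Stab ρ K) {k l : ℕ} (h : k ≤ l) : Fl ρ K k ≤ Fl ρ K l := by
  induction l, h using Nat.le_induction with
  | base => exact le_rfl
  | succ l _ ih => exact ih.trans (Fl_mono hK l)

lemma Fl_Fl {K : Submodule R M} {k : ℕ} (hK : K ≤ Fl ρ ⊥ k) (l : ℕ) :
    Fl ρ K l ≤ Fl ρ ⊥ (k + l) := by
  induction l with
  | zero => exact hK
  | succ l ih =>
    intro y hy
    rw [mem_Fl_succ] at hy
    rw [← add_assoc, mem_Fl_succ]
    intro g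
    exact ih (hy g)

/-- If all `ρ z - 1`, `z ∈ Z`, send `w` into the filtration, then `w` is in the filtration above
the fixed points. -/
lemma mem_Fl_of_sub {W K : Submodule R M} (hW : Stab ρ W) (Z : Set 𝒢)
    (hcomm : ∀ z ∈ Z, ∀ g, ∀ w ∈ W, ρ z (ρ g w) = ρ g (ρ z w))
    (hK : ∀ w ∈ W, (∀ z ∈ Z, ρ z w = w) → w ∈ K) (l : ℕ) :
    ∀ w ∈ W, (∀ z ∈ Z, ρ z w - w ∈ Fl ρ ⊥ l) → w ∈ Fl ρ K l := by
  induction l with
  | zero =>
    intro w hw h
    apply hK w hw
    intro z hz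
    have := h z hz
    rw [Fl, Submodule.mem_bot, sub_eq_zero] at this
    exact this
  | succ l ih =>
    intro w hw h
    rw [mem_Fl_succ]
    intro g
    apply ih _ (W.sub_mem (hW g w hw) hw)
    intro z hz
    have := mem_Fl_succ.1 (h z hz) g
    have e : ρ z (ρ g w - w) - (ρ g w - w) = ρ g (ρ z w - w) - (ρ z w - w) := by
      rw [map_sub, map_sub, hcomm z hz g w hw]
      abel
    rw [e]
    exact this

lemma pow_comm {W : Submodule R M} (hW : Stab ρ W) {z : 𝒢}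
    (hcomm : ∀ g, ∀ w ∈ W, ρ z (ρ g w) = ρ g (ρ z w)) (k : ℕ) :
    ∀ w ∈ W, (dz ρ z ^ k) w ∈ W ∧ ∀ g, ρ g ((dz ρ z ^ k) w) = (dz ρ z ^ k) (ρ g w) := by
  induction k with
  | zero => intro w hw; simpa using hw
  | succ k ih =>
    intro w hw
    have h1 : dz ρ z w ∈ W := by
      rw [dz_apply]
      exact W.sub_mem (hW z w hw) hw
    rw [pow_succ, Module.End.mul_apply]
    refine ⟨(ih _ h1).1, fun g => ?_⟩
    rw [(ih _ h1).2 g, Module.End.mul_apply]
    congr 1
    rw [dz_apply, dz_apply, map_sub, hcomm g w hw]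

/-- Fitting's lemma with an essential submodule. -/
lemma nilp [IsNoetherian R M] {V : Submodule R M} (hV : ∀ g, ∀ v ∈ V, ρ g v = v)
    (hess : ∀ W : Submodule R M, Stab ρ W → W ⊓ V = ⊥ → W = ⊥) {W : Submodule R M}
    (hW : Stab ρ W) {z : 𝒢} (hcomm : ∀ g, ∀ w ∈ W, ρ z (ρ g w) = ρ g (ρ z w)) :
    ∃ k, ∀ w ∈ W, (dz ρ z ^ k) w = 0 := by
  set a : Module.End R M := dz ρ z with ha
  have hmono : Monotone fun k => LinearMap.ker (a ^ k) := by
    apply monotone_nat_of_le_succ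
    intro n x hx
    rw [LinearMap.mem_ker] at hx ⊢
    rw [pow_succ', Module.End.mul_apply, hx, map_zero]
  obtain ⟨k₀, hk₀⟩ := monotone_stabilizes_iff_noetherian.2 (inferInstance : IsNoetherian R M)
    ⟨fun k => LinearMap.ker (a ^ k), hmono⟩
  have hk : ∀ m, k₀ ≤ m → LinearMap.ker (a ^ k₀) = LinearMap.ker (a ^ m) := hk₀
  set k := k₀ + 1
  have hkk : LinearMap.ker (a ^ (k + k)) = LinearMap.ker (a ^ k) := by
    rw [← hk (k + k) (by omega), ← hk k (by omega)]
  refine ⟨k, ?_⟩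
  have hY : (W.map (a ^ k)) = ⊥ := by
    apply hess
    · rintro g _ ⟨w, hw, rfl⟩
      rw [(pow_comm hW hcomm k w hw).2 g]
      exact ⟨_, hW g w hw, rfl⟩
    · rw [eq_bot_iff]
      rintro v ⟨⟨w, hw, rfl⟩, hv⟩
      have h1 : a ((a ^ k) w) = 0 := by
        rw [ha, dz_apply, hV z _ hv, sub_self]
      have h2 : (a ^ (k + k)) w = 0 := by
        rw [show k + k = k₀ + 1 + k by rfl, add_assoc, pow_add, add_comm 1 k, pow_succ',
          Module.End.mul_apply, Module.End.mul_apply, h1, map_zero]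
      have h3 : w ∈ LinearMap.ker (a ^ k) := by rw [← hkk]; exact h2
      exact h3
  intro w hw
  have : (a ^ k) w ∈ W.map (a ^ k) := ⟨w, hw, rfl⟩
  rw [hY] at this
  exact this

lemma exists_maximal [IsNoetherian R M] (P : Submodule R M → Prop) (h : ∃ W, P W) :
    ∃ W, P W ∧ ∀ W', P W' → W ≤ W' → W' = W := by
  obtain ⟨W, hW, hmax⟩ := set_has_maximal_iff_noetherian.2 (inferInstance : IsNoetherian R M)
    {W | P W} h
  refine ⟨W, hW, fun W' hW' hle => ?_⟩
  by_contra hne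
  exact hmax W' hW' (lt_of_le_of_ne hle (Ne.symm hne))

/-- The inductive step. -/
lemma step [IsNoetherian R M] {V : Submodule R M} (hV : ∀ g, ∀ v ∈ V, ρ g v = v)
    (hess : ∀ W : Submodule R M, Stab ρ W → W ⊓ V = ⊥ → W = ⊥) (Z : Set 𝒢)
    (IH : ∀ W : Submodule R M, Stab ρ W → (∀ z ∈ Z, ∀ w ∈ W, ρ z w = w) → ∃ k, W ≤ Fl ρ ⊥ k)
    {W : Submodule R M} (hW : Stab ρ W)
    (hcomm : ∀ z ∈ Z, ∀ g, ∀ w ∈ W, ρ z (ρ g w) = ρ g (ρ z w)) : ∃ k, W ≤ Fl ρ ⊥ k := by
  -- the fixed points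
  set W₁ : Submodule R M := W ⊓ ⨅ z : Z, LinearMap.ker (ρ z - 1) with hW₁
  have hmem : ∀ w, w ∈ W₁ ↔ w ∈ W ∧ ∀ z ∈ Z, ρ z w = w := by
    intro w
    simp [hW₁, Submodule.mem_inf, Submodule.mem_iInf, sub_eq_zero]
  obtain ⟨k₁, hk₁⟩ : ∃ k, W₁ ≤ Fl ρ ⊥ k := by
    apply IH
    · intro g w hw
      rw [hmem] at hw ⊢
      refine ⟨hW g w hw.1, fun z hz => ?_⟩
      rw [hcomm z hz g w hw.1, hw.2 z hz]
    · intro z hz w hw
      exact ((hmem w).1 hw).2 z hz
  obtain ⟨W', ⟨hW's, hW'W, l, hl⟩, hmax⟩ := exists_maximal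
    (fun W' => Stab ρ W' ∧ W' ≤ W ∧ ∃ k, W' ≤ Fl ρ ⊥ k) ⟨⊥, stab_bot, bot_le, 0, bot_le⟩
  by_cases hfin : W ≤ W'
  · exact ⟨l, hfin.trans hl⟩
  exfalso
  set B : Set (Module.End R M) := {b | (∀ w ∈ W, b w ∈ W) ∧
    (∀ g, ∀ w ∈ W, ρ g (b w) = b (ρ g w)) ∧ ¬ W ≤ W'.comap b} with hB
  obtain ⟨K, ⟨b, hb, rfl⟩, hKmax⟩ := exists_maximal
    (fun K => ∃ b ∈ B, K = W ⊓ W'.comap b) ⟨_, 1, ⟨fun w hw => hw, fun g w _ => rfl, hfin⟩, rfl⟩
  have hbz : ∀ z ∈ Z, ∀ w ∈ W, b (ρ z w - w) ∈ W' := by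
    intro z hz
    by_contra hcon
    have hsub : ∀ w ∈ W, dz ρ z w ∈ W := fun w hw => by
      rw [dz_apply]
      exact W.sub_mem (hW z w hw) hw
    have hbB : b * dz ρ z ∈ B := by
      refine ⟨fun w hw => ?_, fun g w hw => ?_, fun hle => ?_⟩
      · rw [Module.End.mul_apply]
        exact hb.1 _ (hsub w hw)
      · rw [Module.End.mul_apply, Module.End.mul_apply, hb.2.1 g _ (hsub w hw)]
        congr 1
        rw [dz_apply, dz_apply, map_sub, hcomm z hz g w hw]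
      · apply hcon
        intro w hw
        exact hle hw
    have heq := hKmax _ ⟨_, hbB, rfl⟩ (by
      intro w hw
      rw [Submodule.mem_inf, Submodule.mem_comap] at hw ⊢
      refine ⟨hw.1, ?_⟩
      rw [Module.End.mul_apply, dz_apply, map_sub, ← hb.2.1 z w hw.1]
      exact W'.sub_mem (hW's z _ hw.2) hw.2)
    have hback : ∀ w ∈ W, b (dz ρ z w) ∈ W' → b w ∈ W' := by
      intro w hw h
      have : w ∈ W ⊓ W'.comap (b * dz ρ z) := ⟨hw, h⟩
      rw [heq] at this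
      exact this.2
    have hback2 : ∀ k, ∀ w ∈ W, b ((dz ρ z ^ k) w) ∈ W' → b w ∈ W' := by
      intro k
      induction k with
      | zero => intro w _ h; simpa using h
      | succ k ih =>
        intro w hw h
        apply ih w hw
        apply hback _ (pow_comm hW (hcomm z hz) k w hw).1
        rw [pow_succ', Module.End.mul_apply] at h
        exact h
    obtain ⟨k, hk⟩ := nilp hV hess hW (hcomm z hz)
    apply hb.2.2
    intro w hw
    apply hback2 k w hw
    rw [hk w hw, map_zero]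
    exact W'.zero_mem
  -- the larger unipotent submodule
  have hW₂ := hmax (W.map b ⊔ W') ⟨?_, ?_, ?_⟩ le_sup_right
  · apply hb.2.2
    intro w hw
    have : b w ∈ W.map b ⊔ W' := Submodule.mem_sup_left ⟨w, hw, rfl⟩
    rw [hW₂] at this
    exact this
  · intro g y hy
    obtain ⟨u, hu, v, hv, rfl⟩ := Submodule.mem_sup.1 hy
    obtain ⟨w, hw, rfl⟩ := hu
    rw [map_add, hb.2.1 g w hw]
    exact Submodule.add_mem _ (Submodule.mem_sup_left ⟨_, hW g w hw, rfl⟩)
      (Submodule.mem_sup_right (hW's g v hv))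
  · apply sup_le _ hW'W
    rintro _ ⟨w, hw, rfl⟩
    exact hb.1 w hw
  · refine ⟨k₁ + l, sup_le ?_ (hl.trans (Fl_le stab_bot (by omega)))⟩
    rintro _ ⟨w, hw, rfl⟩
    apply Fl_Fl hk₁ l
    apply mem_Fl_of_sub hW Z hcomm (fun w hw h => (hmem w).2 ⟨hw, h⟩) l (b w) (hb.1 w hw)
    intro z hz
    apply hl
    have := hbz z hz w hw
    rw [map_sub, ← hb.2.1 z w hw] at this
    exact this

/-- Essential extensions of trivial modules are unipotent. -/
theorem unip [IsNoetherian R M] {V : Submodule R M} (hV : ∀ g, ∀ v ∈ V, ρ g v = v)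
    (hess : ∀ W : Submodule R M, Stab ρ W → W ⊓ V = ⊥ → W = ⊥) (i : ℕ) :
    ∀ W : Submodule R M, Stab ρ W →
      (∀ z ∈ (⊤ : Subgroup 𝒢).lowerCentralSeries i, ∀ w ∈ W, ρ z w = w) →
      ∃ k, W ≤ Fl ρ ⊥ k := by
  induction i with
  | zero =>
    intro W hW h
    refine ⟨1, fun w hw => ?_⟩
    rw [show (1 : ℕ) = 0 + 1 from rfl, mem_Fl_succ]
    intro g
    rw [h g (by simp) w hw, sub_self]
    exact Submodule.zero_mem _
  | succ i ih =>
    intro W hW h
    apply step hV hess ((⊤ : Subgroup 𝒢).lowerCentralSeries i : Set 𝒢) ih hW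
    intro z hz g w hw
    have h1 : z * g * z⁻¹ * g⁻¹ ∈ (⊤ : Subgroup 𝒢).lowerCentralSeries (i + 1) := by
      rw [Subgroup.lowerCentralSeries_succ]
      exact Subgroup.commutator_mem_commutator hz (Subgroup.mem_top g)
    have e : ρ z (ρ g w) = ρ (z * g * z⁻¹ * g⁻¹) (ρ g (ρ z w)) := by
      rw [← Module.End.mul_apply, ← map_mul, ← Module.End.mul_apply, ← map_mul,
        ← Module.End.mul_apply, ← map_mul]
      congr 2
      group
    rw [e, h _ h1 _ (hW g _ (hW z w hw))]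

/-- **Artin–Rees type lemma** for nilpotent groups. -/
theorem exists_filtration [IsNoetherian R M] [Group.IsNilpotent 𝒢] (ρ : 𝒢 →* Module.End R M)
    (V : Submodule R M) (hV : ∀ g, ∀ v ∈ V, ρ g v = v) :
    ∃ (F : ℕ → Submodule R M) (k : ℕ), F 0 ⊓ V = ⊥ ∧ (∀ i g, ∀ v ∈ F i, ρ g v ∈ F i) ∧
      (∀ i g, ∀ v ∈ F (i + 1), ρ g v - v ∈ F i) ∧ F k = ⊤ := by
  obtain ⟨C, ⟨hCs, hCV⟩, hmax⟩ := exists_maximal
    (fun C => Stab ρ C ∧ C ⊓ V = ⊥) ⟨⊥, stab_bot, bot_inf_eq _⟩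
  -- the action on the quotient
  let ρ' : 𝒢 →* Module.End R (M ⧸ C) :=
    { toFun := fun g => C.mapQ C (ρ g) (fun w hw => hCs g w hw)
      map_one' := by
        apply Submodule.linearMap_qext
        ext x
        simp
      map_mul' := by
        intro g h
        apply Submodule.linearMap_qext
        ext x
        simp [Module.End.mul_apply] }
  have hρ' : ∀ g x, ρ' g (C.mkQ x) = C.mkQ (ρ g x) := by
    intro g x
    rfl
  obtain ⟨c, hc⟩ := (Subgroup.nilpotent_iff_lowerCentralSeries (G := 𝒢)).1 inferInstance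
  have hun : ∃ k, (⊤ : Submodule R (M ⧸ C)) ≤ Fl ρ' ⊥ k := by
    apply unip (V := V.map C.mkQ) ?_ ?_ c ⊤ (fun g w _ => Submodule.mem_top)
    · intro z hz w _
      rw [hc, Subgroup.mem_bot] at hz
      rw [hz, map_one]
      rfl
    · rintro g _ ⟨v, hv, rfl⟩
      rw [hρ', hV g v hv]
    · intro W hW hWV
      have h1 : W.comap C.mkQ = C := by
        apply hmax
        · refine ⟨fun g w hw => ?_, ?_⟩
          · rw [Submodule.mem_comap] at hw ⊢
            rw [← hρ']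
            exact hW g _ hw
          · rw [eq_bot_iff]
            rintro v ⟨hv1, hv2⟩
            have h2 : C.mkQ v ∈ W ⊓ V.map C.mkQ := ⟨hv1, v, hv2, rfl⟩
            rw [hWV, Submodule.mem_bot, ← LinearMap.mem_ker, Submodule.ker_mkQ] at h2
            rw [← hCV]
            exact ⟨h2, hv2⟩
        · intro x hx
          rw [Submodule.mem_comap]
          have : C.mkQ x = 0 := by rw [← LinearMap.mem_ker, Submodule.ker_mkQ]; exact hx
          rw [this]
          exact W.zero_mem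
      rw [eq_bot_iff]
      intro w hw
      obtain ⟨x, rfl⟩ := C.mkQ_surjective w
      have h2 : x ∈ C := by rw [← h1]; exact hw
      rw [Submodule.mem_bot, ← LinearMap.mem_ker, Submodule.ker_mkQ]
      exact h2
  obtain ⟨k, hk⟩ := hun
  refine ⟨fun i => (Fl ρ' ⊥ i).comap C.mkQ, k, ?_, ?_, ?_, ?_⟩
  · show Submodule.comap C.mkQ ⊥ ⊓ V = ⊥
    rw [Submodule.comap_bot, Submodule.ker_mkQ, hCV]
  · intro i g v hv
    rw [Submodule.mem_comap] at hv ⊢
    rw [← hρ']
    exact Fl_stab stab_bot i g _ hv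
  · intro i g v hv
    rw [Submodule.mem_comap] at hv ⊢
    rw [map_sub, ← hρ']
    exact mem_Fl_succ.1 hv g
  · rw [eq_top_iff]
    intro x _
    exact hk Submodule.mem_top

end Pool.Lib.ARNil
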