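import Pool.Agent.Lib.ARNil
import Pool.Agent.Lib.APoly

set_option autoImplicit false

/-!
# Phases of polynomial orbits of nilpotent groups of affine maps

Let `T i x = A i x + b i` generate a nilpotent group, the automorphisms `A i` acting on the
characters through units `α i` of a commutative ring `R`.  If along polynomial sequences `g j` the
sums `∑ j, χ j (g j n x)` differ only by constants, then these constants form a polynomial
sequence (`phase_poly`).
-/

open Finset

namespace Pool.Lib.AffAlg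

open Pool.Lib.PolySeq Pool.Lib.APoly Pool.Lib.ARNil

section Fn

/-- additive maps from the ring to functions -/
def Fn (R X K : Type*) [CommRing R] [AddCommGroup K] : Type _ := R →+ (X → K)

variable {R X K : Type*} [CommRing R] [AddCommGroup K]

noncomputable instance : AddCommGroup (Fn R X K) := inferInstanceAs (AddCommGroup (R →+ (X → K)))

/-- the values -/
def val (F : Fn R X K) (u : R) (x : X) : K := (show R →+ (X → K) from F) u x

/-- constructor -/
def mkF (f : R → X → K) (h : ∀ u v x, f (u + v) x = f u x + f v x) : Fn R X K :=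
  AddMonoidHom.mk' f (fun u v => funext (h u v))

@[simp] lemma val_mkF (f : R → X → K) (h : ∀ u v x, f (u + v) x = f u x + f v x) (u : R) (x : X) :
    val (mkF f h) u x = f u x := rfl

lemma Fn_ext {F G : Fn R X K} (h : ∀ u x, val F u x = val G u x) : F = G :=
  AddMonoidHom.ext fun u => funext fun x => h u x

@[simp] lemma val_add (F G : Fn R X K) (u : R) (x : X) : val (F + G) u x = val F u x + val G u x :=
  rfl

@[simp] lemma val_zero (u : R) (x : X) : val (0 : Fn R X K) u x = 0 := rfl

lemma val_add_ring (F : Fn R X K) (u v : R) (x : X) : val F (u + v) x = val F u x + val F v x :=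
  congrFun (map_add (show R →+ (X → K) from F) u v) x

lemma val_zero_ring (F : Fn R X K) (x : X) : val F 0 x = 0 :=
  congrFun (map_zero (show R →+ (X → K) from F)) x

/-- evaluation as a homomorphism -/
noncomputable def valHom (u : R) (x : X) : Fn R X K →+ K :=
  AddMonoidHom.mk' (fun F => val F u x) (fun F G => val_add F G u x)

lemma val_sub (F G : Fn R X K) (u : R) (x : X) : val (F - G) u x = val F u x - val G u x :=
  map_sub (valHom u x) F G

lemma val_sum {ι : Type*} (s : Finset ι) (F : ι → Fn R X K) (u : R) (x : X) :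
    val (∑ i ∈ s, F i) u x = ∑ i ∈ s, val (F i) u x :=
  map_sum (valHom u x) F s

noncomputable instance : Module R (Fn R X K) where
  smul r F := mkF (fun u x => val F (u * r) x) (fun u v x => by rw [add_mul, val_add_ring])
  one_smul F := Fn_ext fun u x => by
    show val F (u * 1) x = val F u x
    rw [mul_one]
  mul_smul r s F := Fn_ext fun u x => by
    show val F (u * (r * s)) x = val F (u * r * s) x
    rw [mul_assoc]
  smul_zero r := rfl
  smul_add r F G := rfl
  add_smul r s F := Fn_ext fun u x => by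
    show val F (u * (r + s)) x = val F (u * r) x + val F (u * s) x
    rw [mul_add, val_add_ring]
  zero_smul F := Fn_ext fun u x => by
    show val F (u * 0) x = 0
    rw [mul_zero, val_zero_ring]

@[simp] lemma val_smul (r : R) (F : Fn R X K) (u : R) (x : X) :
    val (r • F) u x = val F (u * r) x := rfl

/-- composition with a map -/
def pull (φ : X → X) : Fn R X K →ₗ[R] Fn R X K where
  toFun F := mkF (fun u x => val F u (φ x)) (fun u v x => val_add_ring F u v (φ x))
  map_add' F G := rfl
  map_smul' r F := rfl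

@[simp] lemma val_pull (φ : X → X) (F : Fn R X K) (u : R) (x : X) :
    val (pull φ F) u x = val F u (φ x) := rfl

end Fn

variable {R X K Γ : Type*} [CommRing R] [AddCommGroup K] [AddCommGroup Γ] [Module R Γ]

/-- the map `(χ, y) ↦ (u ↦ x ↦ (u χ)(x) + ∑ (u y_i)(b_i))` -/
noncomputable def Phi (ev : Γ →+ (X → K)) {d : ℕ} (b : Fin d → X) (N : Submodule R Γ) :
    (N × (Fin d → N)) →ₗ[R] Fn R X K where
  toFun p := mkF (fun u x => ev (u • (p.1 : Γ)) x + ∑ i, ev (u • (p.2 i : Γ)) (b i))
    (fun u v x => by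
      simp only [add_smul, map_add, Pi.add_apply, Finset.sum_add_distrib]
      abel)
  map_add' p q := Fn_ext fun u x => by
    simp only [val_mkF, val_add, Prod.fst_add, Prod.snd_add, Pi.add_apply, Submodule.coe_add,
      smul_add, map_add, Finset.sum_add_distrib]
    abel
  map_smul' r p := Fn_ext fun u x => by
    simp only [val_mkF, RingHom.id_apply, val_smul, Prod.smul_fst, Prod.smul_snd, Pi.smul_apply,
      Submodule.coe_smul, smul_smul]

lemma val_Phi (ev : Γ →+ (X → K)) {d : ℕ} (b : Fin d → X) (N : Submodule R Γ)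
    (p : N × (Fin d → N)) (u : R) (x : X) :
    val (Phi ev b N p) u x = ev (u • (p.1 : Γ)) x + ∑ i, ev (u • (p.2 i : Γ)) (b i) := rfl

/-- polynomial functions with values in a second subgroup -/
lemma PD_inf {V : Type*} [AddCommGroup V] {C D : AddSubgroup V} {k : ℕ} : ∀ {p : ℕ → V},
    PD C k p → (∀ n, p n ∈ D) → PD (C ⊓ D) k p := by
  induction k with
  | zero => intro p hp hD n; exact ⟨hp n, hD n⟩
  | succ k ih => intro p hp hD; exact ih hp fun n => D.sub_mem (hD _) (hD _)

/-- add `ψ` at the place `i` -/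
def addAt {d : ℕ} {N : Type*} [AddCommGroup N] (y : Fin d → N) (i : Fin d) (ψ : N) : Fin d → N :=
  fun k => if k = i then y k + ψ else y k

lemma sum_addAt (ev : Γ →+ (X → K)) {d : ℕ} (b : Fin d → X) {N : Submodule R Γ} (u : R) (i : Fin d)
    (ψ : N) (y : Fin d → N) : ∑ k, ev (u • ((addAt y i ψ k : N) : Γ)) (b k) =
        ∑ k, ev (u • (y k : Γ)) (b k) + ev (u • (ψ : Γ)) (b i) := by
  have : ∀ k, ev (u • ((addAt y i ψ k : N) : Γ)) (b k) = ev (u • (y k : Γ)) (b k) +
      (if k = i then ev (u • (ψ : Γ)) (b i) else 0) := by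
    intro k
    by_cases hk : k = i
    · subst hk
      simp [addAt, smul_add]
    · simp [addAt, hk]
  simp_rw [this]
  rw [Finset.sum_add_distrib, Finset.sum_ite_eq' Finset.univ i]
  simp

section main

variable (ev : Γ →+ (X → K)) {d : ℕ} (b : Fin d → X) (T : Fin d → Equiv.Perm X) (α : Fin d → Rˣ)

include ev in
lemma range_stable (hT : ∀ i (χ : Γ) x, ev χ (T i x) = ev (α i • χ) x + ev χ (b i))
    (N : Submodule R Γ) (g : Equiv.Perm X) (hg : g ∈ Subgroup.closure (Set.range T)) :
    ∀ F ∈ LinearMap.range (Phi ev b N), pull g F ∈ LinearMap.range (Phi ev b N) := by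
  classical
  suffices h : (∀ F ∈ LinearMap.range (Phi ev b N), pull g F ∈ LinearMap.range (Phi ev b N)) ∧
      (∀ F ∈ LinearMap.range (Phi ev b N), pull (g⁻¹ : Equiv.Perm X) F ∈
        LinearMap.range (Phi ev b N)) from h.1
  induction hg using Subgroup.closure_induction with
  | mem g hg =>
    obtain ⟨i, rfl⟩ := hg
    constructor
    · rintro _ ⟨p, rfl⟩
      refine ⟨((α i : R) • p.1, addAt p.2 i p.1), Fn_ext fun u x => ?_⟩
      rw [val_Phi, val_pull, val_Phi, hT, sum_addAt]
      simp only [Submodule.coe_smul, smul_smul, Units.smul_def]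
      rw [mul_comm u (α i : R)]
      abel
    · rintro _ ⟨p, rfl⟩
      refine ⟨(((α i)⁻¹ : Rˣ) • p.1, addAt p.2 i (-(((α i)⁻¹ : Rˣ) • p.1))),
        Fn_ext fun u x => ?_⟩
      rw [val_Phi, val_pull, val_Phi, sum_addAt]
      have h1 := hT i (((α i)⁻¹ : Rˣ) • (u • (p.1 : Γ))) ((T i)⁻¹ x)
      have h0 : T i ((T i)⁻¹ x) = x := (T i).apply_symm_apply x
      rw [smul_inv_smul, h0] at h1
      have h2 : ev (u • (p.1 : Γ)) ((T i)⁻¹ x) = ev (((α i)⁻¹ : Rˣ) • (u • (p.1 : Γ))) x -
          ev (((α i)⁻¹ : Rˣ) • (u • (p.1 : Γ))) (b i) := by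
        rw [h1]; abel
      rw [h2]
      have h3 : (u • ((((α i)⁻¹ : Rˣ) • p.1 : N) : Γ)) = ((α i)⁻¹ : Rˣ) • (u • (p.1 : Γ)) := by
        simp only [Units.smul_def, Submodule.coe_smul, smul_smul]
        rw [mul_comm]
      rw [h3]
      have h4 : (u • ((-(((α i)⁻¹ : Rˣ) • p.1) : N) : Γ)) = -(((α i)⁻¹ : Rˣ) • (u • (p.1 : Γ))) := by
        rw [← h3]
        simp
      rw [h4, map_neg, Pi.neg_apply]
      abel
  | one =>
    constructor
    · intro F hF; exact hF
    · intro F hF; exact hF
  | mul g h _ _ ihg ihh =>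
    constructor
    · intro F hF
      exact ihh.1 _ (ihg.1 F hF)
    · intro F hF
      rw [mul_inv_rev]
      exact ihg.2 _ (ihh.2 F hF)
  | inv g _ ih =>
    refine ⟨ih.2, ?_⟩
    rw [inv_inv]
    exact ih.1

/-- **Phases are polynomial.** -/
theorem phase_poly [Group.IsNilpotent (Subgroup.closure (Set.range T))]
    (hT : ∀ i (χ : Γ) x, ev χ (T i x) = ev (α i • χ) x + ev χ (b i))
    (N : Submodule R Γ) [IsNoetherian R N] {ι : Type*} [Fintype ι]
    (g : ι → ℕ → Subgroup.closure (Set.range T)) (s : ℕ) (hg : ∀ j, Dv s (fun n => (g j n)⁻¹))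
    (χ : ι → N)
    (hconst : ∀ (u : R) (n : ℕ), ∃ c : K, ∀ x, ∑ j, ev (u • (χ j : Γ)) ((g j n : Equiv.Perm X) x) =
      ∑ j, ev (u • (χ j : Γ)) ((g j 0 : Equiv.Perm X) x) + c) (x₀ : X) :
    ∃ k, PD ⊥ k (fun n => ∑ j, ev (χ j : Γ) ((g j n : Equiv.Perm X) x₀) -
      ∑ j, ev (χ j : Γ) ((g j 0 : Equiv.Perm X) x₀)) := by
  classical
  have hst := range_stable ev b T α hT N
  set Qm := LinearMap.range (Phi ev b N) with hQm
  haveI : IsNoetherian R Qm := isNoetherian_range _
  -- the action on the range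
  let ρ : Subgroup.closure (Set.range T) →* Module.End R Qm :=
    { toFun := fun g => (pull ((g : Equiv.Perm X)⁻¹ : Equiv.Perm X)).restrict
        (fun F hF => hst _ (Subgroup.inv_mem _ g.2) F hF)
      map_one' := by
        ext F
        rfl
      map_mul' := by
        intro g h
        apply LinearMap.ext
        intro F
        apply Subtype.ext
        apply Fn_ext
        intro u x
        show val (F : Fn R X K) u (((g * h : Subgroup.closure (Set.range T)) : Equiv.Perm X)⁻¹ x) =
          val (F : Fn R X K) u ((h : Equiv.Perm X)⁻¹ ((g : Equiv.Perm X)⁻¹ x))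
        rw [Subgroup.coe_mul, mul_inv_rev]
        rfl }
  have hρ : ∀ g (F : Qm) u x, val ((ρ g F : Qm) : Fn R X K) u x =
      val (F : Fn R X K) u ((g : Equiv.Perm X)⁻¹ x) := fun g F u x => rfl
  -- the constants
  let V : Submodule R Qm :=
    { carrier := {F | ∀ u x x', val (F : Fn R X K) u x = val (F : Fn R X K) u x'}
      add_mem' := by
        intro F G hF hG u x x'
        show val (F : Fn R X K) u x + val (G : Fn R X K) u x =
          val (F : Fn R X K) u x' + val (G : Fn R X K) u x'
        rw [hF u x x', hG u x x']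
      zero_mem' := by
        intro u x x'
        rfl
      smul_mem' := by
        intro r F hF u x x'
        exact hF (u * r) x x' }
  have hV : ∀ g, ∀ v ∈ V, ρ g v = v := by
    intro g v hv
    apply Subtype.ext
    apply Fn_ext
    intro u x
    rw [hρ]
    exact hv u _ _
  obtain ⟨F, k, hF0, hstab, hdrop, htop⟩ := exists_filtration ρ V hV
  letI : DistribMulAction (Subgroup.closure (Set.range T)) Qm := DistribMulAction.compHom Qm ρ
  have hsm : ∀ (g : Subgroup.closure (Set.range T)) (F : Qm), g • F = ρ g F := fun g F => rfl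
  set Fj : ι → Qm := fun j => ⟨Phi ev b N (χ j, 0), LinearMap.mem_range_self _ _⟩ with hFj
  have h1 : ∀ j, IsP (F 0).toAddSubgroup (fun n => (g j n)⁻¹ • Fj j) := by
    intro j
    apply isP_smul (fun i => (F i).toAddSubgroup) (fun i g v hv => hstab i g v hv)
      (fun i g v hv => hdrop i g v hv) k s (fun n => (g j n)⁻¹) (hg j) (fun _ => Fj j)
      (IsP.const _)
    intro n
    show Fj j ∈ F k
    rw [htop]
    exact Submodule.mem_top
  have h2 : IsP (F 0).toAddSubgroup (fun n => ∑ j, (g j n)⁻¹ • Fj j - ∑ j, (g j 0)⁻¹ • Fj j) :=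
    (IsP.sum Finset.univ _ fun j _ => h1 j).sub (IsP.const _)
  obtain ⟨l, hl⟩ := h2
  have hval : ∀ (u : R) (n : ℕ) x, val ((∑ j, (g j n)⁻¹ • Fj j : Qm) : Fn R X K) u x =
      ∑ j, ev (u • (χ j : Γ)) ((g j n : Equiv.Perm X) x) := by
    intro u n x
    rw [AddSubmonoidClass.coe_finset_sum, val_sum]
    apply Finset.sum_congr rfl
    intro j _
    rw [hsm, hρ, hFj, val_Phi]
    simp
  have h3 : PD (F 0 ⊓ V).toAddSubgroup l
      (fun n => ∑ j, (g j n)⁻¹ • Fj j - ∑ j, (g j 0)⁻¹ • Fj j) := by
    have h4 := PD_inf (D := V.toAddSubgroup) hl (fun n => by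
      intro u x x'
      obtain ⟨c, hc⟩ := hconst u n
      rw [AddSubgroupClass.coe_sub, val_sub, val_sub, hval, hval, hval, hval, hc, hc]
      abel)
    exact PD_subgroup (fun v hv => hv) h4
  rw [hF0] at h3
  refine ⟨l, ?_⟩
  have h5 := PD_map (C' := (⊥ : AddSubgroup K))
    ((valHom (1 : R) x₀).comp (Qm.subtype.toAddMonoidHom)) (fun v hv => by
      have hv' : v = 0 := hv
      rw [hv', map_zero]
      exact AddSubgroup.zero_mem _) h3
  have e : (fun n => ∑ j, ev (χ j : Γ) ((g j n : Equiv.Perm X) x₀) -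
      ∑ j, ev (χ j : Γ) ((g j 0 : Equiv.Perm X) x₀)) =
      fun n => ((valHom (1 : R) x₀).comp (Qm.subtype.toAddMonoidHom))
        (∑ j, (g j n)⁻¹ • Fj j - ∑ j, (g j 0)⁻¹ • Fj j) := by
    funext n
    show _ = val ((∑ j, (g j n)⁻¹ • Fj j - ∑ j, (g j 0)⁻¹ • Fj j : Qm) : Fn R X K) 1 x₀
    rw [AddSubgroupClass.coe_sub, val_sub, hval, hval]
    simp only [one_smul]
  rw [e]
  exact h5

end main

end Pool.Lib.AffAlg
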