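import Pool.Agent.Lib.AffineMeas

set_option autoImplicit false

/-!
# Trigonometric polynomials on compact abelian groups

Density of trigonometric polynomials, and convergence for trigonometric polynomials along orbits of
affine maps.
-/

open MeasureTheory Filter Topology Finset
open scoped ENNReal NNReal ComplexConjugate

namespace Pool.Lib.AffMeas

open Pool.Lib.Erg Pool.Lib.Weyl Pool.Lib.AffAlg Pool.Lib.APoly

universe u

variable {X : Type u} [AddCommGroup X] [TopologicalSpace X] [IsTopologicalAddGroup X]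
  [CompactSpace X] [T2Space X]

/-- trigonometric polynomials -/
def IsTrig (φ : X → ℂ) : Prop :=
  φ ∈ Submodule.span ℂ (Set.range fun χ : Ch X => fun x => e (χ x))

omit [IsTopologicalAddGroup X] [CompactSpace X] [T2Space X] in
lemma isTrig_char (χ : Ch X) : IsTrig (fun x : X => e (χ x)) :=
  Submodule.subset_span ⟨χ, rfl⟩

omit [IsTopologicalAddGroup X] [CompactSpace X] [T2Space X] in
lemma IsTrig.add {φ ψ : X → ℂ} (hφ : IsTrig φ) (hψ : IsTrig ψ) : IsTrig (fun x => φ x + ψ x) :=
  Submodule.add_mem _ hφ hψ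

omit [IsTopologicalAddGroup X] [CompactSpace X] [T2Space X] in
lemma IsTrig.smul {φ : X → ℂ} (c : ℂ) (hφ : IsTrig φ) : IsTrig (fun x => c * φ x) :=
  Submodule.smul_mem _ c hφ

omit [IsTopologicalAddGroup X] [CompactSpace X] [T2Space X] in
lemma isTrig_const (c : ℂ) : IsTrig (fun _ : X => c) := by
  have h := (isTrig_char (0 : Ch X)).smul c
  have e1 : (fun x : X => c * e ((0 : Ch X) x)) = fun _ => c := by
    funext x
    have : (0 : Ch X) x = 0 := rfl
    rw [this, e_zero, mul_one]
  rw [e1] at h
  exact h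

omit [IsTopologicalAddGroup X] [CompactSpace X] [T2Space X] in
lemma IsTrig.mul {φ ψ : X → ℂ} (hφ : IsTrig φ) (hψ : IsTrig ψ) : IsTrig (fun x => φ x * ψ x) := by
  have h1 : ∀ (χ : Ch X), IsTrig (fun x => e (χ x) * ψ x) := by
    intro χ
    unfold IsTrig at hψ
    induction hψ using Submodule.span_induction with
    | mem ψ h =>
      obtain ⟨χ', rfl⟩ := h
      have := isTrig_char (χ + χ')
      have e1 : (fun x : X => e ((χ + χ') x)) = fun x => e (χ x) * e (χ' x) := by
        funext x
        have : (χ + χ') x = χ x + χ' x := rfl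
        rw [this, e_add]
      rw [e1] at this
      exact this
    | zero => simpa using isTrig_const (X := X) 0
    | add a b _ _ ha hb =>
      have := ha.add hb
      have e1 : (fun x => e (χ x) * a x + e (χ x) * b x) = fun x => e (χ x) * (a + b) x := by
        funext x; rw [Pi.add_apply]; ring
      rw [e1] at this
      exact this
    | smul c a _ ha =>
      have := ha.smul c
      have e1 : (fun x => c * (e (χ x) * a x)) = fun x => e (χ x) * (c • a) x := by
        funext x; rw [Pi.smul_apply, smul_eq_mul]; ring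
      rw [e1] at this
      exact this
  unfold IsTrig at hφ
  induction hφ using Submodule.span_induction with
  | mem φ h =>
    obtain ⟨χ', rfl⟩ := h
    exact h1 χ'
  | zero => simpa using isTrig_const (X := X) 0
  | add a b _ _ ha hb =>
    have := ha.add hb
    have e1 : (fun x => a x * ψ x + b x * ψ x) = fun x => (a + b) x * ψ x := by
      funext x; rw [Pi.add_apply]; ring
    rw [e1] at this
    exact this
  | smul c a _ ha =>
    have := ha.smul c
    have e1 : (fun x => c * (a x * ψ x)) = fun x => (c • a) x * ψ x := by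
      funext x; rw [Pi.smul_apply, smul_eq_mul]; ring
    rw [e1] at this
    exact this

omit [IsTopologicalAddGroup X] [CompactSpace X] [T2Space X] in
lemma IsTrig.conj {φ : X → ℂ} (hφ : IsTrig φ) : IsTrig (fun x => conj (φ x)) := by
  unfold IsTrig at hφ
  induction hφ using Submodule.span_induction with
  | mem ψ h =>
    obtain ⟨χ', rfl⟩ := h
    have := isTrig_char (-χ')
    have e1 : (fun x : X => e ((-χ') x)) = fun x => conj (e (χ' x)) := by
      funext x
      have : (-χ') x = -χ' x := rfl
      rw [this, e_neg]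
    rw [e1] at this
    exact this
  | zero => simpa using isTrig_const (X := X) 0
  | add a b _ _ ha hb =>
    have := ha.add hb
    have e1 : (fun x => conj (a x) + conj (b x)) = fun x => conj ((a + b) x) := by
      funext x; rw [Pi.add_apply, map_add]
    rw [e1] at this
    exact this
  | smul c a _ ha =>
    have := ha.smul (conj c)
    have e1 : (fun x => conj c * conj (a x)) = fun x => conj ((c • a) x) := by
      funext x; rw [Pi.smul_apply, smul_eq_mul, map_mul]
    rw [e1] at this
    exact this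

omit [IsTopologicalAddGroup X] [CompactSpace X] [T2Space X] in
lemma IsTrig.cont {φ : X → ℂ} (hφ : IsTrig φ) : Continuous φ := by
  unfold IsTrig at hφ
  induction hφ using Submodule.span_induction with
  | mem ψ h =>
    obtain ⟨χ', rfl⟩ := h
    exact (continuous_induced_dom.comp (AddCircle.continuous_toCircle)).comp (map_continuous χ')
  | zero => exact continuous_const
  | add a b _ _ ha hb => exact ha.add hb
  | smul c a _ ha => exact continuous_const.mul ha

/-- Uniform density. -/
theorem trig_dense {f : X → ℂ} (hf : Continuous f) {ε : ℝ} (hε : 0 < ε) :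
    ∃ φ : X → ℂ, IsTrig φ ∧ ∀ x, ‖f x - φ x‖ ≤ ε := by
  let cch : Ch X → C(X, ℂ) := fun χ => ⟨fun x => e (χ x), (isTrig_char χ).cont⟩
  let A : StarSubalgebra ℂ C(X, ℂ) := StarAlgebra.adjoin ℂ (Set.range cch)
  have hsep : A.SeparatesPoints := by
    intro x y hxy
    obtain ⟨χ, hχ⟩ := Pool.Lib.PeterWeyl.exists_char (sub_ne_zero.2 hxy)
    refine ⟨cch χ, ⟨cch χ, StarAlgebra.subset_adjoin ℂ _ ⟨χ, rfl⟩, rfl⟩, ?_⟩
    intro h
    apply hχ
    rw [map_sub]
    apply e_eq_one
    rw [e_sub]
    have h1 : e (χ x) = e (χ y) := h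
    rw [h1, Complex.mul_conj, Complex.normSq_eq_norm_sq, norm_e]
    simp
  have htop := ContinuousMap.starSubalgebra_topologicalClosure_eq_top_of_separatesPoints A hsep
  have hmem : (⟨f, hf⟩ : C(X, ℂ)) ∈ A.topologicalClosure := by rw [htop]; trivial
  have hmem2 : (⟨f, hf⟩ : C(X, ℂ)) ∈ closure (A : Set C(X, ℂ)) := hmem
  rw [Metric.mem_closure_iff] at hmem2
  obtain ⟨g, hg, hgd⟩ := hmem2 ε hε
  refine ⟨g, ?_, fun x => ?_⟩
  · have hg' : g ∈ StarAlgebra.adjoin ℂ (Set.range cch) := hg
    clear hgd hg
    induction hg' using StarAlgebra.adjoin_induction with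
    | mem x h =>
      obtain ⟨χ, rfl⟩ := h
      exact isTrig_char χ
    | algebraMap r => exact isTrig_const r
    | add x y _ _ hx hy => exact hx.add hy
    | mul x y _ _ hx hy => exact hx.mul hy
    | star x _ hx => exact hx.conj
  · have h1 := ContinuousMap.dist_apply_le_dist (f := (⟨f, hf⟩ : C(X, ℂ))) (g := g) x
    rw [dist_eq_norm] at h1
    exact h1.trans hgd.le

variable [MeasurableSpace X] [BorelSpace X]

lemma regular_of_haar (μ : Measure X) [μ.IsAddHaarMeasure] [IsProbabilityMeasure μ] :
    μ.Regular := by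
  let K₀ : TopologicalSpace.PositiveCompacts X := ⊤
  haveI : IsProbabilityMeasure (Measure.addHaarMeasure K₀) := ⟨by
    have := Measure.addHaarMeasure_self (K₀ := K₀)
    simpa [K₀] using this⟩
  have h1 := Measure.isAddHaarMeasure_eq_of_isProbabilityMeasure μ (Measure.addHaarMeasure K₀)
  rw [h1]
  infer_instance

/-- Density in mean. -/
theorem trig_dense_L1 (μ : Measure X) [μ.IsAddHaarMeasure] [IsProbabilityMeasure μ] {f : X → ℂ}
    (hf : Integrable f μ) {ε : ℝ} (hε : 0 < ε) :
    ∃ φ : X → ℂ, IsTrig φ ∧ ∫ x, ‖f x - φ x‖ ∂μ ≤ ε := by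
  haveI := regular_of_haar μ
  obtain ⟨g, _, hg, hgc, hgi⟩ := hf.exists_hasCompactSupport_integral_sub_le (half_pos hε)
  obtain ⟨φ, hφ, hd⟩ := trig_dense hgc (half_pos hε)
  have hφi : Integrable φ μ := by
    obtain ⟨C, hC⟩ := isCompact_univ.exists_bound_of_continuousOn hφ.cont.continuousOn
    exact Integrable.of_bound hφ.cont.aestronglyMeasurable C
      (Eventually.of_forall fun x => hC x (Set.mem_univ x))
  refine ⟨φ, hφ, ?_⟩
  calc ∫ x, ‖f x - φ x‖ ∂μ ≤ ∫ x, (‖f x - g x‖ + ‖g x - φ x‖) ∂μ := by
        apply integral_mono (hf.sub hφi).norm ((hf.sub hgi).norm.add (hgi.sub hφi).norm)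
        intro x
        show ‖f x - φ x‖ ≤ ‖f x - g x‖ + ‖g x - φ x‖
        calc ‖f x - φ x‖ = ‖(f x - g x) + (g x - φ x)‖ := by congr 1; ring
          _ ≤ _ := norm_add_le _ _
    _ = ∫ x, ‖f x - g x‖ ∂μ + ∫ x, ‖g x - φ x‖ ∂μ :=
        integral_add (hf.sub hgi).norm (hgi.sub hφi).norm
    _ ≤ ε / 2 + ε / 2 := by
        apply add_le_add hg
        calc ∫ x, ‖g x - φ x‖ ∂μ ≤ ∫ _, ε / 2 ∂μ := by
              apply integral_mono (hgi.sub hφi).norm (integrable_const _)
              intro x
              exact hd x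
          _ = ε / 2 := by simp
    _ = ε := by ring

/-! ### Affine maps preserve Haar measure -/

lemma affine_preserving (μ : Measure X) [μ.IsAddHaarMeasure] [IsProbabilityMeasure μ]
    (A : X ≃ₜ+ X) (b : X) : MeasurePreserving (fun x => A x + b) μ μ := by
  have h1 : MeasurePreserving (fun x => A x) μ μ := by
    refine ⟨A.continuous.measurable, ?_⟩
    haveI : (μ.map A).IsAddHaarMeasure := by
      have := ContinuousAddEquiv.isAddHaarMeasure_map μ A
      exact this
    haveI : IsProbabilityMeasure (μ.map A) :=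
      Measure.isProbabilityMeasure_map A.continuous.measurable.aemeasurable
    exact Measure.isAddHaarMeasure_eq_of_isProbabilityMeasure (μ.map A) μ
  exact (measurePreserving_add_right μ b).comp h1

lemma closure_preserving (μ : Measure X) [μ.IsAddHaarMeasure] [IsProbabilityMeasure μ] {d : ℕ}
    (A : Fin d → X ≃ₜ+ X) (b : Fin d → X) (T : Fin d → Equiv.Perm X)
    (hT : ∀ i x, T i x = A i x + b i) {g : Equiv.Perm X}
    (hg : g ∈ Subgroup.closure (Set.range T)) : MeasurePreserving g μ μ := by
  suffices h : MeasurePreserving g μ μ ∧ MeasurePreserving (g⁻¹ : Equiv.Perm X) μ μ from h.1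
  induction hg using Subgroup.closure_induction with
  | mem g hg =>
    obtain ⟨i, rfl⟩ := hg
    constructor
    · have e1 : (T i : X → X) = fun x => A i x + b i := funext (hT i)
      rw [e1]
      exact affine_preserving μ (A i) (b i)
    · have e1 : ((T i)⁻¹ : Equiv.Perm X) = fun x => (A i).symm x + -((A i).symm (b i)) := by
        funext x
        apply (T i).injective
        have h0 : T i ((T i)⁻¹ x) = x := (T i).apply_symm_apply x
        rw [h0, hT, map_add, map_neg, (A i).apply_symm_apply, (A i).apply_symm_apply]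
        abel
      have := affine_preserving μ (A i).symm (-((A i).symm (b i)))
      rw [← e1] at this
      exact this
  | one => exact ⟨MeasurePreserving.id μ, MeasurePreserving.id μ⟩
  | mul g h _ _ ihg ihh =>
    refine ⟨ihg.1.comp ihh.1, ?_⟩
    rw [mul_inv_rev]
    exact ihh.2.comp ihg.2
  | inv g _ ih =>
    refine ⟨ih.2, ?_⟩
    rw [inv_inv]
    exact ih.1

/-- **Convergence for trigonometric polynomials.** -/
theorem trig_conv (μ : Measure X) [μ.IsAddHaarMeasure] [IsProbabilityMeasure μ] {d m : ℕ}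
    (A : Fin d → X ≃ₜ+ X) (b : Fin d → X) (hA : ∀ i k x, A i (A k x) = A k (A i x))
    (T : Fin d → Equiv.Perm X) (hT : ∀ i x, T i x = A i x + b i)
    [Group.IsNilpotent (Subgroup.closure (Set.range T))] (P : Fin d → Fin m → Polynomial ℤ)
    (φ : Fin m → X → ℂ) (hφ : ∀ j, IsTrig (φ j)) :
    ∀ᵐ x ∂μ, ∃ L, Tendsto (avg fun n : ℕ => ∏ j, φ j (gel T P j (n : ℤ) x)) atTop (𝓝 L) := by
  classical
  have h1 : ∀ j, ∃ c : Ch X →₀ ℂ, ∀ x, φ j x = ∑ χ ∈ c.support, c χ * e (χ x) := by
    intro j
    obtain ⟨c, hc⟩ := (Finsupp.mem_span_range_iff_exists_finsupp).1 (hφ j)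
    refine ⟨c, fun x => ?_⟩
    rw [← hc, Finsupp.sum, Finset.sum_apply]
    rfl
  choose c hc using h1
  have h2 : ∀ (n : ℤ) x, ∏ j, φ j (gel T P j n x) =
      ∑ χ ∈ Fintype.piFinset fun j => (c j).support,
        (∏ j, c j (χ j)) * ∏ j, e (χ j (gel T P j n x)) := by
    intro n x
    simp_rw [hc]
    rw [Finset.prod_univ_sum]
    simp_rw [Finset.prod_mul_distrib]
  have h3 : ∀ᵐ x ∂μ, ∀ χ ∈ Fintype.piFinset fun j => (c j).support,
      ∃ L, Tendsto (avg fun n : ℕ => ∏ j, e (χ j (gel T P j (n : ℤ) x))) atTop (𝓝 L) := by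
    rw [Filter.eventually_all_finset]
    intro χ _
    exact char_conv μ A b hA T hT P χ
  filter_upwards [h3] with x hx
  choose! L hL using hx
  refine ⟨∑ χ ∈ Fintype.piFinset fun j => (c j).support, (∏ j, c j (χ j)) * L χ, ?_⟩
  have h4 := tendsto_finset_sum (Fintype.piFinset fun j => (c j).support)
    fun χ hχ => (hL χ hχ).const_mul (∏ j, c j (χ j))
  refine h4.congr fun N => ?_
  simp_rw [h2, ← avg_mul_left]
  rw [avg_sum]

end Pool.Lib.AffMeas
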