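import Pool.Agent.Lib.ModDich2

set_option autoImplicit false

/-!
# Sums of polynomial orbits in Noetherian modules: the dichotomy

`module_dichotomy`: let `R` be a Noetherian ring, `M` a finitely generated `R`-module and `U` a
finitely generated group of units.  There is `q > 0` such that for all polynomial sequences `τ_j`
with values in the group of `q`-th powers of elements of `U`, `τ_j(0) = 1`, and all `y_j` in `M`,
the sequence `∑ τ_j(n) y_j` is constant or has sparse level sets.
-/

open Finset

namespace Pool.Lib.ModDich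

open Pool.Lib.PolySeq Pool.Lib.APoly Pool.Lib.EPoly

variable {R M : Type*} [CommRing R] [AddCommGroup M] [Module R M]

section core

variable [IsNoetherian R M] {N : Submodule R M}

lemma Dv_mul_inv {A : Type*} [CommGroup A] {f g : ℕ → A} (hf : ∃ D, Dv D f)
    (hg : ∃ D, Dv D g) : ∃ D, Dv D (fun n => (f n)⁻¹ * g n) := by
  obtain ⟨D, hD⟩ := hf
  obtain ⟨D', hD'⟩ := hg
  refine ⟨max D D', ?_⟩
  exact Dv_mul' (Dv_inv' (Dv_le (le_max_left D D') hD)) (Dv_le (le_max_right D D') hD')

theorem core (hirr : Irr N) (W : Subgroup Rˣ)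
    (hW : ∀ w ∈ W, ∀ m : ℕ, 0 < m → ((w : R) ^ m - 1) ∈ pp N → ((w : R) - 1) ∈ pp N)
    {Coef : (ℕ → M) → Prop} (hC : CoefOK N W (∀ m : ℕ, 0 < m → (m : R) ∉ pp N) Coef) :
    ∀ (i : ℕ) (J : Type) [Fintype J] (τ : J → ℕ → Rˣ), (∀ j, ∃ D, Dv D (τ j)) →
      (∀ j, τ j 0 = 1) → (∀ j n, τ j n ∈ W) → ∀ p : J → ℕ → M, (∀ j, Coef (p j)) →
      (∀ j n, p j n ∈ NN N i) → ∀ z : M,
      (∀ n, (z + ∑ j, τ j n • p j n) - (z + ∑ j, τ j 0 • p j 0) ∈ N) ∨
        Sparse N (fun n => z + ∑ j, τ j n • p j n) := by
  classical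
  intro i
  induction i with
  | zero =>
    intro J _ τ _ _ _ p _ hv z
    left
    intro n
    have h1 : ∀ n, ∑ j, τ j n • p j n ∈ N := fun n =>
      N.sum_mem fun j _ => N.smul_mem _ (by have := hv j n; rwa [NN_zero] at this)
    have e : z + ∑ j, τ j n • p j n - (z + ∑ j, τ j 0 • p j 0) =
        ∑ j, τ j n • p j n - ∑ j, τ j 0 • p j 0 := by abel
    rw [e]
    exact N.sub_mem (h1 n) (h1 0)
  | succ i ih =>
    intro J _ τ hτ h0 hτW p hp hv z
    -- a common degree bound for the coefficients
    have hk : ∃ k, 1 ≤ k ∧ (k ≤ 1 ∨ ∀ m : ℕ, 0 < m → (m : R) ∉ pp N) ∧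
        ∀ j, PD N.toAddSubgroup k (p j) := by
      choose kk hkk hpk using fun j => hC.pd (p j) (hp j)
      by_cases h : ∀ m : ℕ, 0 < m → (m : R) ∉ pp N
      · refine ⟨1 + ∑ j, kk j, by omega, Or.inr h, fun j => PD_le ?_ (hpk j)⟩
        have := Finset.single_le_sum (f := kk) (fun _ _ => Nat.zero_le _) (mem_univ j)
        omega
      · refine ⟨1, le_rfl, Or.inl le_rfl, fun j => PD_le ?_ (hpk j)⟩
        rcases hkk j with h1 | h1
        · exact h1
        · exact absurd h1 h
    obtain ⟨k, hk1, hk, hpk⟩ := hk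
    rcases formal_step hirr W hW hk1 hk i J τ hτ h0 hτW p hpk hv z with hsp | ⟨hA, hB⟩
    · exact Or.inr hsp
    · -- regroup
      set cl : J → (ℕ → R ⧸ pp N) := fun j n => Ideal.Quotient.mk (pp N) (τ j n : R) with hcl
      have hA' : ∀ c : ℕ → R ⧸ pp N, c ≠ 1 → ∀ n,
          ∑ j ∈ univ.filter (fun j => cl j = c), p j n ∈ NN N i := hA
      have hB' : ∀ n, ∑ j ∈ univ.filter (fun j => cl j = 1), (p j n - p j 0) ∈ NN N i := hB
      let s : Setoid J := ⟨fun a b => cl a = cl b, fun _ => rfl, fun h => h.symm,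
        fun h h' => h.trans h'⟩
      let r : J → J := fun j => Quotient.out (Quotient.mk s j)
      have hr1 : ∀ j, cl (r j) = cl j := fun j => Quotient.mk_out (s := s) j
      have hr2 : ∀ j j', cl j = cl j' → r j = r j' := by
        intro j j' h
        show Quotient.out (Quotient.mk s j) = Quotient.out (Quotient.mk s j')
        rw [Quotient.sound (s := s) h]
      let ω : J → ℕ → Rˣ := fun j n => (τ (r j) n)⁻¹ * τ j n
      have hωD : ∀ j, ∃ D, Dv D (ω j) := fun j => Dv_mul_inv (hτ _) (hτ _)
      have hωW : ∀ j n, ω j n ∈ W := fun j n => W.mul_mem (W.inv_mem (hτW _ n)) (hτW _ n)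
      have hωp : ∀ j n, ((ω j n : Rˣ) : R) - 1 ∈ pp N := by
        intro j n
        have h1 : Ideal.Quotient.mk (pp N) (τ (r j) n : R) =
            Ideal.Quotient.mk (pp N) (τ j n : R) := congrFun (hr1 j) n
        rw [Ideal.Quotient.eq] at h1
        have h2 : ((ω j n : Rˣ) : R) - 1 =
            -(((τ (r j) n)⁻¹ : Rˣ) : R) * ((τ (r j) n : R) - (τ j n : R)) := by
          show (((τ (r j) n)⁻¹ * τ j n : Rˣ) : R) - 1 = _
          rw [Units.val_mul, neg_mul, mul_sub, Units.inv_mul]
          ring
        rw [h2]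
        exact (pp N).mul_mem_left _ h1
      have hτp : ∀ j, cl j = 1 → ∀ n, ((τ j n : Rˣ) : R) - 1 ∈ pp N := by
        intro j hj n
        have h1 : Ideal.Quotient.mk (pp N) (τ j n : R) = Ideal.Quotient.mk (pp N) 1 :=
          congrFun hj n
        rwa [Ideal.Quotient.eq] at h1
      set T : Finset J := univ.filter (fun j => cl j = 1) with hT
      set z1 : M := ∑ j ∈ T, p j 0 with hz1
      set C : J → Finset J := fun g => univ.filter (fun j => ¬ cl j = 1 ∧ r j = g) with hCdef
      -- the new family
      let τ' : Option J → ℕ → Rˣ := fun o => match o with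
        | none => 1
        | some g => τ g
      let p' : Option J → ℕ → M := fun o => match o with
        | none => fun n => ∑ j ∈ T, τ j n • p j n - z1
        | some g => fun n => ∑ j ∈ C g, ω j n • p j n
      have hsum : ∀ n, z + ∑ j, τ j n • p j n = (z + z1) + ∑ o, τ' o n • p' o n := by
        intro n
        rw [Fintype.sum_option]
        have e0 : τ' none n • p' none n = ∑ j ∈ T, τ j n • p j n - z1 := one_smul _ _
        rw [e0]
        have e1 : ∑ j, τ j n • p j n = ∑ j ∈ T, τ j n • p j n +
            ∑ j ∈ univ.filter (fun j => ¬ cl j = 1), τ j n • p j n :=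
          (Finset.sum_filter_add_sum_filter_not univ (fun j => cl j = 1) _).symm
        have e2 : ∑ j ∈ univ.filter (fun j => ¬ cl j = 1), τ j n • p j n =
            ∑ g, τ' (some g) n • p' (some g) n := by
          rw [← Finset.sum_fiberwise_of_maps_to (s := univ.filter (fun j => ¬ cl j = 1))
            (t := univ) (g := r) (fun _ _ => mem_univ _)]
          apply Finset.sum_congr rfl
          intro g _
          rw [Finset.filter_filter]
          show ∑ j ∈ C g, τ j n • p j n = τ g n • ∑ j ∈ C g, ω j n • p j n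
          rw [Finset.smul_sum]
          apply Finset.sum_congr rfl
          intro j hj
          have hj' : r j = g := (mem_filter.mp hj).2.2
          rw [← mul_smul]
          congr 1
          show τ j n = τ g n * ((τ (r j) n)⁻¹ * τ j n)
          rw [hj', mul_inv_cancel_left]
        rw [e1, e2]
        abel
      have hnew := ih (Option J) τ' ?_ ?_ ?_ p' ?_ ?_ (z + z1)
      · rcases hnew with h | h
        · left
          intro n
          rw [hsum n, hsum 0]
          exact h n
        · right
          have e : (fun n => z + ∑ j, τ j n • p j n) =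
              fun n => (z + z1) + ∑ o, τ' o n • p' o n := funext hsum
          rw [e]
          exact h
      · rintro (_ | g)
        · exact ⟨0, Dv_one' 0⟩
        · exact hτ g
      · rintro (_ | g)
        · rfl
        · exact h0 g
      · rintro (_ | g) n
        · exact W.one_mem
        · exact hτW g n
      · rintro (_ | g)
        · have h1 : Coef fun n => ∑ j ∈ T, τ j n • p j n := by
            apply hC.sum
            intro j hj
            exact hC.smul i (τ j) (p j) (hτ j) (hτW j) (hτp j (mem_filter.mp hj).2) (hp j) (hv j)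
          have h2 := hC.add _ _ h1 (hC.const (-z1))
          have e : (fun n => ∑ j ∈ T, τ j n • p j n + -z1) = p' none := by
            funext n; exact (sub_eq_add_neg _ _).symm
          rw [e] at h2
          exact h2
        · show Coef fun n => ∑ j ∈ C g, ω j n • p j n
          apply hC.sum
          intro j _
          exact hC.smul i (ω j) (p j) (hωD j) (hωW j) (hωp j) (hp j) (hv j)
      · have hdrop : ∀ (w : Rˣ) (y : M), ((w : R) - 1) ∈ pp N → y ∈ NN N (i + 1) →
            w • y - y ∈ NN N i := by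
          intro w y hw hy
          have e : w • y - y = ((w : R) - 1) • y := by
            rw [sub_smul, one_smul]; rfl
          rw [e]
          exact NN_drop hy hw
        rintro (_ | g) n
        · show ∑ j ∈ T, τ j n • p j n - z1 ∈ NN N i
          have e : ∑ j ∈ T, τ j n • p j n - z1 =
              ∑ j ∈ T, (τ j n • p j n - p j n) + ∑ j ∈ T, (p j n - p j 0) := by
            rw [Finset.sum_sub_distrib, Finset.sum_sub_distrib, hz1]
            abel
          rw [e]
          apply (NN N i).add_mem _ (hB' n)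
          apply (NN N i).sum_mem
          intro j hj
          exact hdrop _ _ (hτp j (mem_filter.mp hj).2 n) (hv j n)
        · show ∑ j ∈ C g, ω j n • p j n ∈ NN N i
          have e : ∑ j ∈ C g, ω j n • p j n =
              ∑ j ∈ C g, (ω j n • p j n - p j n) + ∑ j ∈ C g, p j n := by
            rw [Finset.sum_sub_distrib]
            abel
          rw [e]
          apply (NN N i).add_mem
          · apply (NN N i).sum_mem
            intro j _
            exact hdrop _ _ (hωp j n) (hv j n)
          · rcases (C g).eq_empty_or_nonempty with hempty | ⟨j0, hj0⟩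
            · rw [hempty, Finset.sum_empty]; exact (NN N i).zero_mem
            · obtain ⟨_, hj1, hj2⟩ := mem_filter.mp hj0
              have hg1 : cl g = cl j0 := by rw [← hj2]; exact hr1 j0
              have hg2 : r g = g := by rw [hr2 g j0 hg1, hj2]
              have hCg : C g = univ.filter (fun j => cl j = cl g) := by
                apply Finset.filter_congr
                intro j _
                constructor
                · rintro ⟨_, h2⟩
                  rw [← h2]; exact (hr1 j).symm
                · intro h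
                  refine ⟨?_, ?_⟩
                  · rw [h, hg1]; exact hj1
                  · rw [hr2 j g h, hg2]
              rw [hCg]
              exact hA' (cl g) (by rw [hg1]; exact hj1) n

end core

/-- the property proved by Noetherian induction -/
def Dich (U : Subgroup Rˣ) (N : Submodule R M) : Prop :=
  ∃ q : ℕ, 0 < q ∧ ∀ (J : Type) [Fintype J] (τ : J → ℕ → Rˣ), (∀ j, ∃ D, Dv D (τ j)) →
    (∀ j, τ j 0 = 1) → (∀ j n, τ j n ∈ Uq U q) → ∀ y : J → M,
    (∀ n, (∑ j, τ j n • y j) - (∑ j, y j) ∈ N) ∨ Sparse N (fun n => ∑ j, τ j n • y j)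

lemma Sparse.mono {N N' : Submodule R M} (h : N ≤ N') {u : ℕ → M} (hu : Sparse N' u) :
    Sparse N u := by
  obtain ⟨s, hs⟩ := hu
  exact ⟨s, fun z L S hS => hs z L S fun n hn => ⟨(hS n hn).1, h (hS n hn).2⟩⟩

lemma Dich.inf {U : Subgroup Rˣ} {N1 N2 : Submodule R M} (h1 : Dich U N1) (h2 : Dich U N2) :
    Dich U (N1 ⊓ N2) := by
  obtain ⟨q1, hq1, h1⟩ := h1
  obtain ⟨q2, hq2, h2⟩ := h2
  refine ⟨q1 * q2, by positivity, fun J _ τ hτ h0 hU y => ?_⟩
  have hU1 : ∀ j n, τ j n ∈ Uq U q1 := fun j n => Uq_mul_le U q1 q2 (hU j n)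
  have hU2 : ∀ j n, τ j n ∈ Uq U q2 := fun j n => Uq_mul_le U q2 q1 (by
    rw [mul_comm]; exact hU j n)
  rcases h1 J τ hτ h0 hU1 y with a | a
  · rcases h2 J τ hτ h0 hU2 y with b | b
    · exact Or.inl fun n => ⟨a n, b n⟩
    · exact Or.inr (b.mono inf_le_right)
  · exact Or.inr (a.mono inf_le_left)

lemma dich_top (U : Subgroup Rˣ) : Dich U (⊤ : Submodule R M) :=
  ⟨1, one_pos, fun _ _ _ _ _ _ _ => Or.inl fun _ => trivial⟩

lemma coef_char0 [IsNoetherianRing R] (N : Submodule R M) (W : Subgroup Rˣ)
    (h0 : ∀ m : ℕ, 0 < m → (m : R) ∉ pp N) :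
    CoefOK N W (∀ m : ℕ, 0 < m → (m : R) ∉ pp N) (fun p => IsP N.toAddSubgroup p) where
  const := fun c => IsP.const c
  add := fun _ _ hp hq => hp.add hq
  neg := fun _ hp => hp.neg
  pd := fun p ⟨k, hk⟩ => ⟨k, Or.inr h0, hk⟩
  smul := by
    intro i ω p ⟨D, hD⟩ _ hω hp hv
    -- the group of units congruent to one
    let Γ : Subgroup Rˣ :=
      { carrier := {w | (w : R) - 1 ∈ pp N}
        one_mem' := by
          show ((1 : Rˣ) : R) - 1 ∈ pp N
          rw [Units.val_one, sub_self]; exact (pp N).zero_mem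
        mul_mem' := by
          intro a b ha hb
          show ((a * b : Rˣ) : R) - 1 ∈ pp N
          have e : ((a * b : Rˣ) : R) - 1 = (a : R) * ((b : R) - 1) + ((a : R) - 1) := by
            rw [Units.val_mul]; ring
          rw [e]
          exact (pp N).add_mem ((pp N).mul_mem_left _ hb) ha
        inv_mem' := by
          intro a ha
          show ((a⁻¹ : Rˣ) : R) - 1 ∈ pp N
          have e : ((a⁻¹ : Rˣ) : R) - 1 = -((a⁻¹ : Rˣ) : R) * ((a : R) - 1) := by
            rw [neg_mul, mul_sub, Units.inv_mul]; ring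
          rw [e]
          exact (pp N).mul_mem_left _ ha }
    let ω' : ℕ → Γ := fun n => ⟨ω n, hω n⟩
    have hω' : Dv D ω' := Dv_of_injective Γ.subtype Γ.subtype_injective hD
    have key := isP_smul (Γ := Γ) (fun i => (NN N i).toAddSubgroup)
      (fun i g v hv => (NN N i).smul_mem ((g : Rˣ) : R) hv)
      (fun i g v hv => by
        have e : g • v - v = (((g : Rˣ) : R) - 1) • v := by
          rw [sub_smul, one_smul]; rfl
        rw [e]
        exact NN_drop hv g.2) (i + 1) D ω' hω' p
    have hN0 : (NN N 0).toAddSubgroup = N.toAddSubgroup := by rw [NN_zero]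
    rw [hN0] at key
    exact key hp hv

lemma coef_charp (N : Submodule R M) (W : Subgroup Rˣ) (C0 : Prop)
    (htriv : ∀ w ∈ W, ((w : R) - 1) ∈ pp N → ∀ y : M, w • y - y ∈ N) :
    CoefOK N W C0 (fun p => ∀ n, p n - p 0 ∈ N) where
  const := fun c n => by rw [sub_self]; exact N.zero_mem
  add := fun p q hp hq n => by
    have e : p n + q n - (p 0 + q 0) = (p n - p 0) + (q n - q 0) := by abel
    rw [e]
    exact N.add_mem (hp n) (hq n)
  neg := fun p hp n => by
    have e : - p n - - p 0 = -(p n - p 0) := by abel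
    rw [e]
    exact N.neg_mem (hp n)
  pd := fun p hp => ⟨1, Or.inl le_rfl, fun n => by
    show p (n + 1) - p n ∈ N
    have e : p (n + 1) - p n = (p (n + 1) - p 0) - (p n - p 0) := by abel
    rw [e]
    exact N.sub_mem (hp _) (hp _)⟩
  smul := by
    intro i ω p _ hW hω hp _ n
    have e : ω n • p n - ω 0 • p 0 = (ω n • p n - p n) - (ω 0 • p 0 - p 0) + (p n - p 0) := by
      abel
    rw [e]
    exact N.add_mem (N.sub_mem (htriv _ (hW n) (hω n) _) (htriv _ (hW 0) (hω 0) _)) (hp n)

lemma dich_irr [IsNoetherianRing R] [IsNoetherian R M] (U : Subgroup Rˣ) (hU : U.FG)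
    {N : Submodule R M} (hirr : Irr N) (hN : N ≠ ⊤) : Dich U N := by
  haveI hprime := pp_prime hirr hN
  obtain ⟨E, hE, hEx⟩ := exists_exponent U hU (pp N)
  obtain ⟨k, hk, hktop⟩ := exists_NN_top N
  have fin : ∀ (q : ℕ), 0 < q → E ∣ q → ∀ (Coef : (ℕ → M) → Prop),
      CoefOK N (Uq U q) (∀ m : ℕ, 0 < m → (m : R) ∉ pp N) Coef → Dich U N := by
    intro q hq hEq Coef hC
    refine ⟨q, hq, fun J _ τ hτ h0 hτU y => ?_⟩
    have hW : ∀ w ∈ Uq U q, ∀ m : ℕ, 0 < m → ((w : R) ^ m - 1) ∈ pp N → ((w : R) - 1) ∈ pp N := by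
      rintro _ ⟨w, hw, rfl⟩ m hm h
      have h' : (w : R) ^ (q * m) - 1 ∈ pp N := by
        have e : ((powMonoidHom q w : Rˣ) : R) ^ m = (w : R) ^ (q * m) := by
          show ((w ^ q : Rˣ) : R) ^ m = _
          rw [Units.val_pow_eq_pow_val, ← pow_mul]
        rw [← e]; exact h
      have h2 := hEx w hw (q * m) (by positivity) h'
      obtain ⟨t, rfl⟩ := hEq
      show ((w ^ (E * t) : Rˣ) : R) - 1 ∈ pp N
      rw [Units.val_pow_eq_pow_val, pow_mul, ← mul_geom_sum]
      exact (pp N).mul_mem_right _ h2
    have hc := core hirr (Uq U q) hW hC k J τ hτ h0 hτU (fun j _ => y j) (fun j => hC.const _)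
      (fun j n => by rw [hktop]; trivial) 0
    simp only [zero_add] at hc
    rcases hc with h | h
    · left
      intro n
      have := h n
      simp only [h0, one_smul] at this
      exact this
    · exact Or.inr h
  by_cases h0 : ∀ m : ℕ, 0 < m → (m : R) ∉ pp N
  · exact fin E hE dvd_rfl _ (coef_char0 N _ h0)
  · push Not at h0
    obtain ⟨m, hm, hmp⟩ := h0
    -- a prime number in the ideal
    obtain ⟨p, hp, hpp⟩ : ∃ p : ℕ, p.Prime ∧ (p : R) ∈ pp N := by
      have : ∀ m : ℕ, 0 < m → (m : R) ∈ pp N → ∃ p : ℕ, p.Prime ∧ (p : R) ∈ pp N := by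
        intro m
        induction m using Nat.strong_induction_on with
        | _ m ihm =>
          intro hm hmp
          by_cases h1 : m = 1
          · subst h1
            exfalso
            apply hprime.ne_top
            rw [Ideal.eq_top_iff_one]
            simpa using hmp
          · obtain ⟨p, hp, t, rfl⟩ := Nat.exists_prime_and_dvd h1
            rw [Nat.cast_mul] at hmp
            rcases hprime.mem_or_mem hmp with h | h
            · exact ⟨p, hp, h⟩
            · have ht : 0 < t := Nat.pos_of_ne_zero (by rintro rfl; simp at hm)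
              exact ihm t (by nlinarith [hp.two_le]) ht h
      exact this m hm hmp
    apply fin (E * p ^ k) (Nat.mul_pos hE (pow_pos hp.pos k)) (Dvd.intro _ rfl) _
      (coef_charp N _ _ _)
    rintro _ ⟨w, hw, rfl⟩ h y
    have h' : (w : R) ^ (E * p ^ k) - 1 ∈ pp N := by
      have e : ((powMonoidHom (E * p ^ k) w : Rˣ) : R) = (w : R) ^ (E * p ^ k) :=
        Units.val_pow_eq_pow_val _ _
      rw [← e]; exact h
    have h2 := hEx w hw (E * p ^ k) (Nat.mul_pos hE (pow_pos hp.pos k)) h'
    have h3 := pow_pow_congr (pp N) p hpp h2 k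
    rw [← pow_mul] at h3
    have h4 : (w : R) ^ (E * p ^ k) - 1 ∈ annI N :=
      hk (Ideal.pow_le_pow_right (Nat.le_succ k) h3)
    have h5 := h4 y
    have e : (powMonoidHom (E * p ^ k) w : Rˣ) • y - y = ((w : R) ^ (E * p ^ k) - 1) • y := by
      rw [sub_smul, one_smul, ← Units.val_pow_eq_pow_val]; rfl
    rw [e]
    exact h5

/-- **Module dichotomy.** -/
theorem dich_all [IsNoetherianRing R] [IsNoetherian R M] (U : Subgroup Rˣ) (hU : U.FG)
    (N : Submodule R M) : Dich U N := by
  induction N using IsNoetherian.induction with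
  | _ N ih =>
    by_cases hN : N = ⊤
    · rw [hN]; exact dich_top U
    · by_cases hirr : Irr N
      · exact dich_irr U hU hirr hN
      · unfold Irr at hirr
        push Not at hirr
        obtain ⟨N1, N2, h1, h2, h12, hn1, hn2⟩ := hirr
        rw [← h12]
        exact (ih N1 (lt_of_le_of_ne h1 (Ne.symm hn1))).inf
          (ih N2 (lt_of_le_of_ne h2 (Ne.symm hn2)))

end Pool.Lib.ModDich
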