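import Pool.Agent.Lib.AffineAlg
import Pool.Agent.Lib.ModDich3

set_option autoImplicit false

/-!
# Orbits of characters under nilpotent groups of affine maps with commuting linear parts

`orbit_alt` : along residue classes, `∑ j, χ j (g j n x)` is either a fixed function plus a
polynomial sequence of constants, or its linear part takes every value rarely.
-/

open Finset Polynomial

namespace Pool.Lib.AffAlg

open Pool.Lib.PolySeq Pool.Lib.APoly Pool.Lib.ModDich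

variable {R X K Γ : Type*} [CommRing R] [AddCommGroup K] [AddCommGroup Γ] [Module R Γ]

/-- `β` is the linear part of `g` -/
def Lin (ev : Γ →+ (X → K)) (g : Equiv.Perm X) (β : Rˣ) : Prop :=
  ∀ χ : Γ, ∃ c : K, ∀ x, ev χ (g x) = ev (β • χ) x + c

variable {ev : Γ →+ (X → K)}

lemma Lin.one : Lin ev 1 (1 : Rˣ) := fun χ => ⟨0, fun x => by simp⟩

lemma Lin.mul {g h : Equiv.Perm X} {β γ : Rˣ} (hg : Lin ev g β) (hh : Lin ev h γ) :
    Lin ev (g * h) (β * γ) := by
  intro χ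
  obtain ⟨c, hc⟩ := hg χ
  obtain ⟨c', hc'⟩ := hh (β • χ)
  refine ⟨c' + c, fun x => ?_⟩
  rw [Equiv.Perm.mul_apply, hc, hc', mul_comm β γ, mul_smul]
  abel

lemma Lin.inv {g : Equiv.Perm X} {β : Rˣ} (hg : Lin ev g β) : Lin ev g⁻¹ β⁻¹ := by
  intro χ
  obtain ⟨c, hc⟩ := hg (β⁻¹ • χ)
  refine ⟨-c, fun x => ?_⟩
  have h0 : g (g⁻¹ x) = x := g.apply_symm_apply x
  have h1 := hc (g⁻¹ x)
  rw [h0, smul_inv_smul] at h1
  rw [h1]
  abel

lemma Lin.pow {g : Equiv.Perm X} {β : Rˣ} (hg : Lin ev g β) (n : ℕ) : Lin ev (g ^ n) (β ^ n) := by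
  induction n with
  | zero => simpa using Lin.one
  | succ n ih => rw [pow_succ, pow_succ]; exact ih.mul hg

lemma Lin.zpow {g : Equiv.Perm X} {β : Rˣ} (hg : Lin ev g β) (n : ℤ) :
    Lin ev (g ^ n) (β ^ n) := by
  obtain ⟨k, rfl | rfl⟩ := n.eq_nat_or_neg
  · rw [zpow_natCast, zpow_natCast]; exact hg.pow k
  · rw [zpow_neg, zpow_neg, zpow_natCast, zpow_natCast]; exact (hg.pow k).inv

lemma Lin.listProd : ∀ {d : ℕ} (g : Fin d → Equiv.Perm X) (β : Fin d → Rˣ),
    (∀ i, Lin ev (g i) (β i)) → Lin ev (List.ofFn g).prod (∏ i, β i) := by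
  intro d
  induction d with
  | zero => intro g β _; simpa using Lin.one
  | succ d ih =>
    intro g β h
    rw [List.ofFn_succ, List.prod_cons, Fin.prod_univ_succ]
    exact (h 0).mul (ih _ _ fun i => h i.succ)

/-- the linear part of the orbit -/
def bet {d m : ℕ} (α : Fin d → Rˣ) (P : Fin d → Fin m → ℤ[X]) (j : Fin m) (n : ℤ) : Rˣ :=
  ∏ i, α i ^ (P i j).eval n

/-- Dichotomy for the linear parts. -/
theorem lin_dich [IsNoetherianRing R] {d m : ℕ} (α : Fin d → Rˣ) (P : Fin d → Fin m → ℤ[X])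
    (N : Submodule R Γ) [IsNoetherian R N] :
    ∃ q : ℕ, 0 < q ∧ ∀ (χ : Fin m → N) (r : ℕ),
      (∀ n : ℕ, ∑ j, bet α P j ((q * n + r : ℕ) : ℤ) • (χ j : Γ) =
        ∑ j, bet α P j (r : ℤ) • (χ j : Γ)) ∨
      ∃ s : ℕ, ∀ (z : Γ) (L : ℕ) (S : Finset ℕ),
        (∀ n ∈ S, n < L ∧ ∑ j, bet α P j ((q * n + r : ℕ) : ℤ) • (χ j : Γ) = z) →
        (S.card : ℝ) ≤ 3 * (L : ℝ) ^ (1 - (1 / 2 : ℝ) ^ s) := by
  classical
  set U : Subgroup Rˣ := Subgroup.closure (Set.range α) with hU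
  have hUfg : U.FG := ⟨Finset.univ.image α, by rw [hU]; congr 1; simp⟩
  obtain ⟨q, hq, hdich⟩ := dich_all U hUfg (⊥ : Submodule R N)
  refine ⟨q, hq, fun χ r => ?_⟩
  set τ : Fin m → ℕ → Rˣ := fun j n =>
    ∏ i, α i ^ ((P i j).eval ((q * n + r : ℕ) : ℤ) - (P i j).eval (r : ℤ)) with hτ
  have hτβ : ∀ j n, bet α P j ((q * n + r : ℕ) : ℤ) = τ j n * bet α P j (r : ℤ) := by
    intro j n
    simp only [bet, hτ]
    rw [← Finset.prod_mul_distrib]
    apply Finset.prod_congr rfl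
    intro i _
    rw [← zpow_add, sub_add_cancel]
  have h1 : ∀ j, ∃ D, Dv D (τ j) := by
    intro j
    set D := Finset.univ.sup fun i => ((P i j).comp (C (q : ℤ) * X + C (r : ℤ)) -
      C ((P i j).eval (r : ℤ))).natDegree with hD
    obtain ⟨s, hs⟩ := poly_Dv (G := Rˣ) D
    refine ⟨s, hs _ ?_⟩
    have e : τ j = ∏ i, fun n : ℕ => α i ^ (((P i j).comp (C (q : ℤ) * X + C (r : ℤ)) -
      C ((P i j).eval (r : ℤ))).eval (n : ℤ)) := by
      funext n
      rw [Finset.prod_apply]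
      simp only [hτ]
      apply Finset.prod_congr rfl
      intro i _
      congr 1
      simp
    rw [e]
    apply Subgroup.prod_mem
    intro i _
    apply Subgroup.subset_closure
    exact ⟨α i, _, Finset.le_sup (f := fun i => ((P i j).comp (C (q : ℤ) * X + C (r : ℤ)) -
      C ((P i j).eval (r : ℤ))).natDegree) (Finset.mem_univ i), rfl⟩
  have h2 : ∀ j, τ j 0 = 1 := by
    intro j
    simp [hτ]
  have h3 : ∀ j n, τ j n ∈ Uq U q := by
    intro j n
    have hdvd : ∀ i, (q : ℤ) ∣ (P i j).eval ((q * n + r : ℕ) : ℤ) - (P i j).eval (r : ℤ) := by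
      intro i
      have h4 := Polynomial.sub_dvd_eval_sub ((q * n + r : ℕ) : ℤ) (r : ℤ) (P i j)
      apply dvd_trans _ h4
      push_cast
      rw [add_sub_cancel_right]
      exact dvd_mul_right _ _
    choose w hw using hdvd
    rw [mem_Uq]
    refine ⟨∏ i, α i ^ w i, ?_, ?_⟩
    · apply Subgroup.prod_mem
      intro i _
      exact U.zpow_mem (Subgroup.subset_closure ⟨i, rfl⟩) _
    · rw [← Finset.prod_pow]
      simp only [hτ]
      apply Finset.prod_congr rfl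
      intro i _
      rw [hw i, mul_comm, zpow_mul, zpow_natCast]
  have hcoe : ∀ n, ((∑ j, τ j n • (bet α P j (r : ℤ) • χ j) : N) : Γ) =
      ∑ j, bet α P j ((q * n + r : ℕ) : ℤ) • (χ j : Γ) := by
    intro n
    rw [AddSubmonoidClass.coe_finsetSum]
    apply Finset.sum_congr rfl
    intro j _
    rw [← mul_smul, ← hτβ]
    rfl
  have hcoe0 : ((∑ j, (bet α P j (r : ℤ) • χ j) : N) : Γ) = ∑ j, bet α P j (r : ℤ) • (χ j : Γ) := by
    rw [AddSubmonoidClass.coe_finsetSum]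
    rfl
  rcases hdich (Fin m) τ h1 h2 h3 (fun j => bet α P j (r : ℤ) • χ j) with h | ⟨s, hs⟩
  · left
    intro n
    have h4 := h n
    rw [Submodule.mem_bot, sub_eq_zero] at h4
    rw [← hcoe, h4, hcoe0]
  · right
    refine ⟨s, fun z L S hS => ?_⟩
    rcases S.eq_empty_or_nonempty with rfl | ⟨n0, hn0⟩
    · simp only [Finset.card_empty, Nat.cast_zero]
      positivity
    · apply hs (∑ j, τ j n0 • (bet α P j (r : ℤ) • χ j)) L S
      intro n hn
      refine ⟨(hS n hn).1, ?_⟩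
      rw [Submodule.mem_bot, sub_eq_zero]
      apply Subtype.ext
      rw [hcoe, hcoe, (hS n hn).2, (hS n0 hn0).2]

/-- the group element moving the point at time `n` -/
def gel {d m : ℕ} (T : Fin d → Equiv.Perm X) (P : Fin d → Fin m → ℤ[X]) (j : Fin m) (n : ℤ) :
    Equiv.Perm X :=
  (List.ofFn fun i : Fin d => T i ^ (P i j).eval n).prod

lemma gel_mem {d m : ℕ} (T : Fin d → Equiv.Perm X) (P : Fin d → Fin m → ℤ[X]) (j : Fin m)
    (n : ℤ) : gel T P j n ∈ Subgroup.closure (Set.range T) := by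
  apply Subgroup.list_prod_mem
  intro g hg
  rw [List.mem_ofFn] at hg
  obtain ⟨i, rfl⟩ := hg
  exact Subgroup.zpow_mem _ (Subgroup.subset_closure (Set.mem_range_self i)) _

/-- the same, in the generated group -/
def gelG {d m : ℕ} (T : Fin d → Equiv.Perm X) (P : Fin d → Fin m → ℤ[X]) (j : Fin m) (n : ℤ) :
    Subgroup.closure (Set.range T) := ⟨gel T P j n, gel_mem T P j n⟩

lemma coe_gelG {d m : ℕ} (T : Fin d → Equiv.Perm X) (P : Fin d → Fin m → ℤ[X]) (j : Fin m)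
    (n : ℤ) : ((gelG T P j n : Subgroup.closure (Set.range T)) : Equiv.Perm X) = gel T P j n := rfl

lemma gel_lin {d m : ℕ} {T : Fin d → Equiv.Perm X} {α : Fin d → Rˣ} {b : Fin d → X}
    (hT : ∀ i (χ : Γ) x, ev χ (T i x) = ev (α i • χ) x + ev χ (b i))
    (P : Fin d → Fin m → ℤ[X]) (j : Fin m) (n : ℤ) : Lin ev (gel T P j n) (bet α P j n) := by
  apply Lin.listProd
  intro i
  apply Lin.zpow
  intro χ
  exact ⟨ev χ (b i), fun x => hT i χ x⟩

/-- the sequences are polynomial along residue classes -/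
lemma gel_Dv {d m : ℕ} (T : Fin d → Equiv.Perm X)
    [Group.IsNilpotent (Subgroup.closure (Set.range T))] (P : Fin d → Fin m → ℤ[X]) (q r : ℕ) :
    ∃ s, ∀ j, Dv s (fun n : ℕ => (gelG T P j ((q * n + r : ℕ) : ℤ))⁻¹) := by
  classical
  set G := Subgroup.closure (Set.range T) with hG
  let t : Fin d → G := fun i => ⟨T i, Subgroup.subset_closure ⟨i, rfl⟩⟩
  set Q : Fin d → Fin m → ℤ[X] := fun i j => (P i j).comp (C (q : ℤ) * Polynomial.X + C (r : ℤ)) with hQ
  set D : ℕ := ∑ i, ∑ j, (Q i j).natDegree with hD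
  have hdeg : ∀ i j, (Q i j).natDegree ≤ D := by
    intro i j
    calc (Q i j).natDegree ≤ ∑ j, (Q i j).natDegree :=
          Finset.single_le_sum (f := fun j => (Q i j).natDegree) (fun _ _ => Nat.zero_le _)
            (mem_univ j)
      _ ≤ D := Finset.single_le_sum (f := fun i => ∑ j, (Q i j).natDegree)
          (fun _ _ => Nat.zero_le _) (mem_univ i)
  obtain ⟨s, hs⟩ := poly_Dv (G := G) D
  refine ⟨s, fun j => hs _ ?_⟩
  have hp : (fun n : ℕ => gelG T P j ((q * n + r : ℕ) : ℤ)) ∈ Subgroup.closure (monos G D) := by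
    have e : (fun n : ℕ => gelG T P j ((q * n + r : ℕ) : ℤ)) =
        (List.ofFn fun i : Fin d => fun n : ℕ => t i ^ (Q i j).eval (n : ℤ)).prod := by
      funext n
      have h1 := map_list_prod (Pi.evalMonoidHom (fun _ : ℕ => G) n)
        (List.ofFn fun i : Fin d => fun n : ℕ => t i ^ (Q i j).eval (n : ℤ))
      rw [List.map_ofFn] at h1
      have h2 := map_list_prod G.subtype (List.ofFn fun i : Fin d => t i ^ (Q i j).eval (n : ℤ))
      rw [List.map_ofFn] at h2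
      apply Subtype.ext
      rw [show (List.ofFn fun i : Fin d => fun n : ℕ => t i ^ (Q i j).eval (n : ℤ)).prod n =
        (List.ofFn fun i : Fin d => t i ^ (Q i j).eval (n : ℤ)).prod from h1]
      rw [show (((List.ofFn fun i : Fin d => t i ^ (Q i j).eval (n : ℤ)).prod : G) :
        Equiv.Perm X) = (List.ofFn fun i : Fin d => T i ^ (Q i j).eval (n : ℤ)).prod from h2]
      show gel T P j ((q * n + r : ℕ) : ℤ) = _
      unfold gel
      congr 1
      congr 1
      funext i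
      congr 1
      simp [hQ]
    rw [e]
    apply Subgroup.list_prod_mem
    intro g hg
    rw [List.mem_ofFn] at hg
    obtain ⟨i, rfl⟩ := hg
    exact Subgroup.subset_closure ⟨t i, Q i j, hdeg i j, rfl⟩
  exact (Subgroup.closure (monos G D)).inv_mem hp

/-- **The alternative.** -/
theorem orbit_alt [IsNoetherianRing R] {d m : ℕ} (T : Fin d → Equiv.Perm X) (b : Fin d → X)
    (α : Fin d → Rˣ) [Group.IsNilpotent (Subgroup.closure (Set.range T))]
    (hT : ∀ i (χ : Γ) x, ev χ (T i x) = ev (α i • χ) x + ev χ (b i)) (x₀ : X)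
    (P : Fin d → Fin m → ℤ[X]) (N : Submodule R Γ) [IsNoetherian R N] (χ : Fin m → N) :
    ∃ q : ℕ, 0 < q ∧ ∀ r : ℕ,
      (∃ θ : ℕ → K, (∃ k, PD ⊥ k θ) ∧ ∀ (n : ℕ) x,
        ∑ j, ev (χ j : Γ) (gel T P j ((q * n + r : ℕ) : ℤ) x) =
        ∑ j, ev (χ j : Γ) (gel T P j (r : ℤ) x) + θ n) ∨
      (∃ (γ : ℕ → Γ) (c : ℕ → K) (s : ℕ), (∀ (n : ℕ) x,
        ∑ j, ev (χ j : Γ) (gel T P j ((q * n + r : ℕ) : ℤ) x) = ev (γ n) x + c n) ∧
        ∀ (z : Γ) (L : ℕ) (S : Finset ℕ), (∀ n ∈ S, n < L ∧ γ n = z) →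
        (S.card : ℝ) ≤ 3 * (L : ℝ) ^ (1 - (1 / 2 : ℝ) ^ s)) := by
  classical
  obtain ⟨q, hq, hd⟩ := lin_dich α P N
  refine ⟨q, hq, fun r => ?_⟩
  have hlin : ∀ (u : R) (n : ℤ), ∃ c : K, ∀ x, ∑ j, ev (u • (χ j : Γ)) (gel T P j n x) =
      ev (u • ∑ j, bet α P j n • (χ j : Γ)) x + c := by
    intro u n
    have h1 : ∀ j, ∃ c : K, ∀ x, ev (u • (χ j : Γ)) (gel T P j n x) =
        ev (bet α P j n • (u • (χ j : Γ))) x + c := fun j => gel_lin hT P j n _
    choose c hc using h1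
    refine ⟨∑ j, c j, fun x => ?_⟩
    simp_rw [hc]
    rw [Finset.sum_add_distrib, Finset.smul_sum, map_sum, Finset.sum_apply]
    congr 1
    apply Finset.sum_congr rfl
    intro j _
    rw [Units.smul_def, Units.smul_def, smul_smul, smul_smul, mul_comm]
  rcases hd χ r with h | ⟨s, hs⟩
  · left
    obtain ⟨s, hs⟩ := gel_Dv T P q r
    have hconst : ∀ (u : R) (n : ℕ), ∃ c : K, ∀ x,
        ∑ j, ev (u • (χ j : Γ)) (gel T P j ((q * n + r : ℕ) : ℤ) x) =
        ∑ j, ev (u • (χ j : Γ)) (gel T P j ((q * 0 + r : ℕ) : ℤ) x) + c := by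
      intro u n
      obtain ⟨c1, h1⟩ := hlin u ((q * n + r : ℕ) : ℤ)
      obtain ⟨c2, h2⟩ := hlin u ((q * 0 + r : ℕ) : ℤ)
      refine ⟨c1 - c2, fun x => ?_⟩
      rw [h1, h2, h n, h 0]
      abel
    obtain ⟨k, hk⟩ := phase_poly ev b T α hT N
      (fun j n => gelG T P j ((q * n + r : ℕ) : ℤ)) s hs χ hconst x₀
    refine ⟨_, ⟨k, hk⟩, fun n x => ?_⟩
    obtain ⟨c, hc⟩ := hconst 1 n
    simp only [one_smul] at hc
    have h3 := hc x
    have h4 := hc x₀
    simp only [mul_zero, zero_add, coe_gelG] at h3 h4 ⊢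
    rw [h3, h4]
    abel
  · right
    have h1 : ∀ n : ℕ, ∃ c : K, ∀ x, ∑ j, ev (χ j : Γ) (gel T P j ((q * n + r : ℕ) : ℤ) x) =
        ev (∑ j, bet α P j ((q * n + r : ℕ) : ℤ) • (χ j : Γ)) x + c := by
      intro n
      obtain ⟨c, hc⟩ := hlin 1 ((q * n + r : ℕ) : ℤ)
      refine ⟨c, fun x => ?_⟩
      have := hc x
      simpa only [one_smul] using this
    choose c hc using h1
    exact ⟨_, c, s, hc, fun z L S hS => hs z L S hS⟩

end Pool.Lib.AffAlg
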