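import Mathlib

/-!
# Characters separate the points of a compact Hausdorff abelian group

`Pool.Lib.PeterWeyl.exists_char`: for `x ≠ 0` in a compact Hausdorff abelian group `X` there is a
continuous character `χ : X → ℝ / ℤ` with `χ x ≠ 0`.

The proof uses the Gelfand theory of the (closed, commutative) algebra of operators on `C(X, ℂ)`
generated by the convolution operators.
-/

set_option autoImplicit false
set_option linter.unusedSectionVars false

open MeasureTheory ComplexConjugate Topology Filter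

namespace Pool.Lib.PeterWeyl

section Conv

variable {X : Type*} [AddCommGroup X] [TopologicalSpace X] [IsTopologicalAddGroup X]
  [CompactSpace X]

/-- Translation of continuous functions, `(tr a f) x = f (x + a)`. -/
noncomputable def tr (a : X) : C(X, ℂ) →L[ℂ] C(X, ℂ) :=
  LinearMap.mkContinuous
    { toFun := fun f => ⟨fun x => f (x + a), by fun_prop⟩
      map_add' := fun f g => by ext x; simp
      map_smul' := fun c f => by ext x; simp } 1 (by
    intro f
    rw [one_mul, ContinuousMap.norm_le _ (norm_nonneg f)]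
    intro x
    exact f.norm_coe_le_norm (x + a))

@[simp] theorem tr_apply (a : X) (f : C(X, ℂ)) (x : X) : tr a f x = f (x + a) := rfl

theorem continuous_tr (f : C(X, ℂ)) : Continuous fun a : X => tr a f := by
  have h : (fun a : X => tr a f)
      = (ContinuousMap.curry ⟨fun p : X × X => f (p.2 + p.1), by fun_prop⟩ : X → C(X, ℂ)) := by
    funext a
    ext x
    rfl
  rw [h]
  exact ContinuousMap.continuous _

variable [MeasurableSpace X] [BorelSpace X] (μ : Measure X) [IsProbabilityMeasure μ]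

theorem integrable_cont {E : Type*} [NormedAddCommGroup E] {F : X → E} (hF : Continuous F) :
    Integrable F μ :=
  hF.integrable_of_hasCompactSupport (HasCompactSupport.of_compactSpace F)

theorem integrable_aux (f h : C(X, ℂ)) : Integrable (fun y => f y • tr (-y) h) μ := by
  apply integrable_cont
  exact (map_continuous f).smul ((continuous_tr h).comp continuous_neg)

theorem norm_tr_le (a : X) (f : C(X, ℂ)) : ‖tr a f‖ ≤ ‖f‖ := by
  rw [ContinuousMap.norm_le _ (norm_nonneg f)]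
  intro x
  exact f.norm_coe_le_norm (x + a)

theorem norm_conv_le (f h : C(X, ℂ)) : ‖∫ y, f y • tr (-y) h ∂μ‖ ≤ ‖f‖ * ‖h‖ := by
  have := norm_integral_le_of_norm_le_const (μ := μ) (f := fun y => f y • tr (-y) h)
    (C := ‖f‖ * ‖h‖) (Eventually.of_forall fun y => by
      rw [norm_smul]
      exact mul_le_mul (f.norm_coe_le_norm y) (norm_tr_le _ _) (norm_nonneg _) (norm_nonneg _))
  simpa using this

/-- The convolution operator with kernel `f`. -/
noncomputable def Tc (f : C(X, ℂ)) : C(X, ℂ) →L[ℂ] C(X, ℂ) :=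
  LinearMap.mkContinuous
    { toFun := fun h => ∫ y, f y • tr (-y) h ∂μ
      map_add' := fun g h => by
        rw [← integral_add (integrable_aux μ f g) (integrable_aux μ f h)]
        congr 1
        funext y
        rw [map_add, smul_add]
      map_smul' := fun c h => by
        rw [RingHom.id_apply, ← integral_smul]
        congr 1
        funext y
        rw [map_smul, smul_comm] } ‖f‖ (fun h => norm_conv_le μ f h)

theorem Tc_def (f h : C(X, ℂ)) : Tc μ f h = ∫ y, f y • tr (-y) h ∂μ := rfl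

theorem Tc_apply (f h : C(X, ℂ)) (x : X) : Tc μ f h x = ∫ y, f y * h (x - y) ∂μ := by
  have := (ContinuousMap.evalCLM ℂ x).integral_comp_comm (integrable_aux μ f h)
  rw [Tc_def]
  change (ContinuousMap.evalCLM ℂ x) (∫ y, f y • tr (-y) h ∂μ) = _
  rw [← this]
  congr 1
  funext y
  simp [sub_eq_add_neg]

theorem norm_Tc_le (f : C(X, ℂ)) : ‖Tc μ f‖ ≤ ‖f‖ :=
  LinearMap.mkContinuous_norm_le _ (norm_nonneg _) _

theorem Tc_add (f g : C(X, ℂ)) : Tc μ (f + g) = Tc μ f + Tc μ g := by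
  ext h x
  simp only [add_apply, ContinuousMap.add_apply, Tc_apply, add_mul]
  exact integral_add (integrable_cont μ (by fun_prop)) (integrable_cont μ (by fun_prop))

theorem Tc_smul (c : ℂ) (f : C(X, ℂ)) : Tc μ (c • f) = c • Tc μ f := by
  ext h x
  simp only [smul_apply, ContinuousMap.smul_apply, Tc_apply, smul_eq_mul,
    mul_assoc]
  exact integral_const_mul _ _

/-- `Tc` as a continuous linear map of the kernel. -/
noncomputable def TcL : C(X, ℂ) →L[ℂ] (C(X, ℂ) →L[ℂ] C(X, ℂ)) :=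
  LinearMap.mkContinuous
    { toFun := fun f => Tc μ f
      map_add' := Tc_add μ
      map_smul' := Tc_smul μ } 1 (fun f => by simpa using norm_Tc_le μ f)

@[simp] theorem TcL_apply (f : C(X, ℂ)) : TcL μ f = Tc μ f := rfl

theorem tr_tr (a b : X) (f : C(X, ℂ)) : tr a (tr b f) = tr (a + b) f := by
  ext x
  simp [add_comm, add_left_comm]

theorem Tc_tr (f h : C(X, ℂ)) (a : X) : Tc μ f (tr a h) = tr a (Tc μ f h) := by
  ext x
  rw [tr_apply, Tc_apply, Tc_apply]
  congr 1
  funext y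
  rw [tr_apply]
  congr 2
  abel

theorem Tc_left_comm (f g h : C(X, ℂ)) : Tc μ g (Tc μ f h) = Tc μ f (Tc μ g h) := by
  rw [Tc_def μ f h, Tc_def μ f (Tc μ g h), ← ContinuousLinearMap.integral_comp_comm _
    (integrable_aux μ f h)]
  congr 1
  funext y
  rw [map_smul, Tc_tr]

variable [μ.IsAddHaarMeasure] [μ.IsNegInvariant]

theorem Tc_comm (f h : C(X, ℂ)) : Tc μ f h = Tc μ h f := by
  ext x
  rw [Tc_apply, Tc_apply, ← integral_sub_left_eq_self (fun y => h y * f (x - y)) μ x]
  congr 1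
  funext y
  rw [sub_sub_cancel, mul_comm]

theorem Tc_Tc (f g : C(X, ℂ)) : Tc μ (Tc μ f g) = Tc μ f * Tc μ g := by
  ext1 h
  rw [mul_apply_eq_comp, Tc_comm μ (Tc μ f g) h, Tc_left_comm μ f h g, Tc_comm μ h g]

theorem tr_Tc (f h : C(X, ℂ)) (a : X) : Tc μ (tr a f) h = Tc μ f (tr a h) := by
  rw [Tc_comm, Tc_tr, Tc_comm, Tc_tr]

/-- The involution `f̃ x = conj (f (-x))`. -/
noncomputable def inv' (f : C(X, ℂ)) : C(X, ℂ) := ⟨fun x => conj (f (-x)), by fun_prop⟩

@[simp] theorem inv'_apply (f : C(X, ℂ)) (x : X) : inv' f x = conj (f (-x)) := rfl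

theorem inv'_inv' (f : C(X, ℂ)) : inv' (inv' f) = f := by
  ext x
  simp

theorem inv'_Tc (f h : C(X, ℂ)) : inv' (Tc μ f h) = Tc μ (inv' f) (inv' h) := by
  ext x
  rw [inv'_apply, Tc_apply, Tc_apply, ← integral_conj,
    ← integral_neg_eq_self (fun y => inv' f y * inv' h (x - y)) μ]
  congr 1
  funext y
  simp only [inv'_apply, map_mul, neg_neg]
  congr 3
  abel

/-- The inner product in terms of convolution. -/
theorem inner_eq (f h : C(X, ℂ)) :
    inner ℂ (ContinuousMap.toLp 2 μ ℂ f) (ContinuousMap.toLp 2 μ ℂ h) = Tc μ (inv' f) h 0 := by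
  rw [ContinuousMap.inner_toLp, Tc_apply,
    ← integral_neg_eq_self (fun y => inv' f y * h (0 - y)) μ]
  congr 1
  funext y
  simp [mul_comm]

theorem symm_Tc {p : C(X, ℂ)} (hp : inv' p = p) (f h : C(X, ℂ)) :
    inner ℂ (ContinuousMap.toLp 2 μ ℂ (Tc μ p f)) (ContinuousMap.toLp 2 μ ℂ h)
      = inner ℂ (ContinuousMap.toLp 2 μ ℂ f) (ContinuousMap.toLp 2 μ ℂ (Tc μ p h)) := by
  rw [inner_eq, inner_eq, inv'_Tc, hp, Tc_Tc, mul_apply_eq_comp, Tc_left_comm]

theorem norm_toLp_pos {f : C(X, ℂ)} (hf : f ≠ 0) : 0 < ‖ContinuousMap.toLp 2 μ ℂ f‖ := by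
  rw [norm_pos_iff]
  intro h
  apply hf
  exact ContinuousMap.toLp_injective μ (by rw [h, map_zero])

theorem norm_toLp_le (f : C(X, ℂ)) : ‖ContinuousMap.toLp 2 μ ℂ f‖ ≤ ‖f‖ := by
  have h := (ContinuousMap.toLp 2 μ ℂ).le_opNorm f
  have h2 := ContinuousMap.toLp_norm_le (α := X) (p := 2) (μ := μ) (E := ℂ) (𝕜 := ℂ)
  simp only [measureUnivNNReal, measure_univ, ENNReal.toNNReal_one, NNReal.coe_one,
    Real.one_rpow] at h2
  nlinarith [norm_nonneg f]

/-- Lower bound for the powers of a symmetric convolution operator. -/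
theorem pow_bound {p : C(X, ℂ)} (hp : inv' p = p) (hp0 : p 0 ≠ 0) :
    ∃ s > (0:ℝ), ∃ C > (0:ℝ), ∀ n : ℕ, C * s ^ n ≤ ‖(Tc μ p) ^ n‖ := by
  classical
  set v : ℕ → Lp ℂ 2 μ := fun n => ContinuousMap.toLp 2 μ ℂ (((Tc μ p) ^ n) p) with hv
  have hpne : p ≠ 0 := by
    rintro rfl
    exact hp0 rfl
  have hv0 : 0 < ‖v 0‖ := norm_toLp_pos μ hpne
  have hv1 : 0 < ‖v 1‖ := by
    apply norm_toLp_pos μ
    rw [pow_one]
    intro h
    have h1 := inner_eq μ p p
    rw [hp, h] at h1
    simp only [ContinuousMap.zero_apply, inner_self_eq_zero] at h1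
    exact hpne (ContinuousMap.toLp_injective μ (by rw [h1, map_zero]))
  have hstep : ∀ n, ‖v (n + 1)‖ * ‖v (n + 1)‖ ≤ ‖v n‖ * ‖v (n + 2)‖ := by
    intro n
    have h1 : inner ℂ (v (n + 1)) (v (n + 1)) = inner ℂ (v n) (v (n + 2)) := by
      simp only [hv]
      have e1 : ((Tc μ p) ^ (n + 1)) p = Tc μ p (((Tc μ p) ^ n) p) := by
        rw [pow_succ']
        rfl
      have e2 : ((Tc μ p) ^ (n + 2)) p = Tc μ p (((Tc μ p) ^ (n + 1)) p) := by
        rw [pow_succ']
        rfl
      rw [e2, ← symm_Tc μ hp, ← e1]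
    have h2 : ‖inner ℂ (v (n + 1)) (v (n + 1))‖ = ‖v (n + 1)‖ * ‖v (n + 1)‖ := by
      rw [inner_self_eq_norm_sq_to_K]
      simp [sq]
    rw [← h2, h1]
    exact norm_inner_le_norm _ _
  set s : ℝ := ‖v 1‖ / ‖v 0‖ with hs
  have hs0 : 0 < s := div_pos hv1 hv0
  have hrec : ∀ n, 0 < ‖v n‖ ∧ s * ‖v n‖ ≤ ‖v (n + 1)‖ := by
    intro n
    induction n with
    | zero => exact ⟨hv0, by rw [hs, div_mul_cancel₀ _ hv0.ne']⟩
    | succ n ih =>
      obtain ⟨h1, h2⟩ := ih
      have h3 : 0 < ‖v (n + 1)‖ := lt_of_lt_of_le (mul_pos hs0 h1) h2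
      refine ⟨h3, ?_⟩
      have h4 := hstep n
      have h5 : s * ‖v n‖ * ‖v (n + 1)‖ ≤ ‖v n‖ * ‖v (n + 2)‖ :=
        le_trans (mul_le_mul_of_nonneg_right h2 h3.le) h4
      have h6 : ‖v n‖ * (s * ‖v (n + 1)‖) ≤ ‖v n‖ * ‖v (n + 2)‖ := by linarith
      exact le_of_mul_le_mul_left h6 h1
  have hlow : ∀ n, s ^ n * ‖v 0‖ ≤ ‖v n‖ := by
    intro n
    induction n with
    | zero => simp
    | succ n ih =>
      calc s ^ (n + 1) * ‖v 0‖ = s * (s ^ n * ‖v 0‖) := by ring
        _ ≤ s * ‖v n‖ := mul_le_mul_of_nonneg_left ih hs0.le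
        _ ≤ ‖v (n + 1)‖ := (hrec n).2
  have hpn : 0 < ‖p‖ := norm_pos_iff.2 hpne
  refine ⟨s, hs0, ‖v 0‖ / ‖p‖, div_pos hv0 hpn, fun n => ?_⟩
  have h1 : ‖v n‖ ≤ ‖(Tc μ p) ^ n‖ * ‖p‖ :=
    le_trans (norm_toLp_le μ _) (ContinuousLinearMap.le_opNorm _ _)
  have h2 := hlow n
  rw [div_mul_eq_mul_div, div_le_iff₀ hpn]
  linarith

/-- A closed commutative algebra containing all convolution operators. -/
noncomputable def B : Subalgebra ℂ (C(X, ℂ) →L[ℂ] C(X, ℂ)) :=
  Subalgebra.centralizer ℂ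
    (Subalgebra.centralizer ℂ (Set.range (Tc μ)) : Set (C(X, ℂ) →L[ℂ] C(X, ℂ)))

theorem Tc_mem (f : C(X, ℂ)) : Tc μ f ∈ B μ := by
  rw [B, Subalgebra.mem_centralizer_iff]
  intro g hg
  exact ((Subalgebra.mem_centralizer_iff ℂ).1 hg _ (Set.mem_range_self f)).symm

theorem B_comm (a b : C(X, ℂ) →L[ℂ] C(X, ℂ)) (ha : a ∈ B μ) (hb : b ∈ B μ) : a * b = b * a := by
  have h : ∀ x ∈ Set.range (Tc μ), ∀ y ∈ Set.range (Tc μ), x * y = y * x := by
    rintro _ ⟨f, rfl⟩ _ ⟨g, rfl⟩
    ext1 h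
    exact Tc_left_comm μ _ _ _
  exact Set.centralizer_centralizer_comm_of_comm h a ha b hb

theorem B_closed : IsClosed (B μ : Set (C(X, ℂ) →L[ℂ] C(X, ℂ))) :=
  Set.isClosed_centralizer _

noncomputable instance : NormedCommRing (B μ) :=
  { (inferInstance : NormedRing (B μ)) with
    mul_comm := fun a b => Subtype.ext (B_comm μ a b a.2 b.2) }

instance : CompleteSpace (B μ) := (B_closed μ).completeSpace_coe

/-- A nonzero multiplicative functional on the convolution algebra. -/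
theorem exists_functional {p : C(X, ℂ)} (hp : inv' p = p) (hp0 : p 0 ≠ 0) :
    ∃ ψ : C(X, ℂ) →L[ℂ] ℂ, (∀ f g, ψ (Tc μ f g) = ψ f * ψ g) ∧ ψ p ≠ 0 := by
  set T : B μ := ⟨Tc μ p, Tc_mem μ p⟩ with hT
  obtain ⟨s, hs, C, hC, hb⟩ := pow_bound μ hp hp0
  have : Nontrivial (B μ) := by
    refine ⟨⟨T, 0, fun h => ?_⟩⟩
    have h1 : Tc μ p = 0 := congrArg Subtype.val h
    have h2 := hb 1
    rw [pow_one, pow_one, h1, norm_zero] at h2
    nlinarith [mul_pos hC hs]
  obtain ⟨z, hz, hzr⟩ := spectrum.exists_nnnorm_eq_spectralRadius T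
  have hz0 : z ≠ 0 := by
    rintro rfl
    simp only [nnnorm_zero, ENNReal.coe_zero] at hzr
    have h1 := spectrum.pow_norm_pow_one_div_tendsto_nhds_spectralRadius T
    rw [← hzr] at h1
    have h2 : ∀ᶠ n : ℕ in atTop, ENNReal.ofReal (‖T ^ n‖ ^ (1 / n : ℝ)) < ENNReal.ofReal (s / 2) :=
      h1.eventually_lt_const (by positivity)
    have h3 : ∀ᶠ n : ℕ in atTop, 1 < C * 2 ^ n := by
      have : Tendsto (fun n : ℕ => C * 2 ^ n) atTop atTop :=
        (tendsto_pow_atTop_atTop_of_one_lt one_lt_two).const_mul_atTop hC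
      exact this.eventually_gt_atTop 1
    obtain ⟨n, hn2, hn3, hn1⟩ := (h2.and (h3.and (eventually_ge_atTop 1))).exists
    have hn0 : (n : ℝ) ≠ 0 := by positivity
    have h4 : ‖T ^ n‖ ^ (1 / n : ℝ) < s / 2 := by
      rwa [ENNReal.ofReal_lt_ofReal_iff (by positivity)] at hn2
    have h5 : ‖T ^ n‖ < (s / 2) ^ n := by
      have h6 : (‖T ^ n‖ ^ (1 / n : ℝ)) ^ n < (s / 2) ^ n :=
        pow_lt_pow_left₀ h4 (by positivity) (by omega)
      rwa [← Real.rpow_natCast, ← Real.rpow_mul (norm_nonneg _), one_div,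
        inv_mul_cancel₀ hn0, Real.rpow_one] at h6
    have h7 : C * s ^ n ≤ ‖T ^ n‖ := by
      have := hb n
      have e : ‖T ^ n‖ = ‖(Tc μ p) ^ n‖ := rfl
      rw [e]
      exact this
    have h8 : C * s ^ n < s ^ n / 2 ^ n := by
      rw [← div_pow]
      linarith
    rw [lt_div_iff₀ (by positivity)] at h8
    have h9 : 0 < s ^ n := by positivity
    nlinarith
  obtain ⟨φ, hφ⟩ := WeakDual.CharacterSpace.mem_spectrum_iff_exists.1 hz
  let L : C(X, ℂ) →L[ℂ] B μ := (TcL μ).codRestrict (B μ).toSubmodule (fun f => Tc_mem μ f)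
  refine ⟨(WeakDual.CharacterSpace.toCLM φ).comp L, fun f g => ?_, ?_⟩
  · change φ (L (Tc μ f g)) = φ (L f) * φ (L g)
    rw [← map_mul]
    congr 1
    exact Subtype.ext (Tc_Tc μ f g)
  · change φ (L p) ≠ 0
    have : L p = T := rfl
    rw [this, hφ]
    exact hz0

include μ in
/-- A continuous multiplicative function to `ℂ` separating a given kernel from its translate. -/
theorem exists_mul_fun {k : C(X, ℂ)} {x₀ : X} (hk : k x₀ ≠ k 0) :
    ∃ c : X → ℂ, Continuous c ∧ c 0 = 1 ∧ (∀ a b, c (a + b) = c a * c b) ∧ c x₀ ≠ 1 := by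
  set g : C(X, ℂ) := tr x₀ k - k with hg
  have hg0 : g ≠ 0 := by
    intro h
    have h1 : g 0 = 0 := by rw [h]; rfl
    rw [hg, ContinuousMap.sub_apply, tr_apply, zero_add, sub_eq_zero] at h1
    exact hk h1
  set p : C(X, ℂ) := Tc μ (inv' g) g with hp
  have hpp : inv' p = p := by
    rw [hp, inv'_Tc, inv'_inv', Tc_comm]
  have hp0 : p 0 ≠ 0 := by
    rw [hp, ← inner_eq]
    simp only [ne_eq, inner_self_eq_zero]
    exact norm_ne_zero_iff.1 (norm_toLp_pos μ hg0).ne'
  obtain ⟨ψ, hψ, hψp⟩ := exists_functional μ hpp hp0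
  have hψg : ψ g ≠ 0 := by
    intro h
    apply hψp
    rw [hp, hψ, h, mul_zero]
  -- the translates
  have key : ∀ (a : X) (f : C(X, ℂ)), ψ (tr a f) = ψ (tr a p) / ψ p * ψ f := by
    intro a f
    have h1 : ψ (tr a f) * ψ p = ψ f * ψ (tr a p) := by
      rw [← hψ, ← hψ, tr_Tc]
    field_simp
    linear_combination h1
  refine ⟨fun a => ψ (tr a p) / ψ p, ?_, ?_, ?_, ?_⟩
  · exact (ψ.continuous.comp (continuous_tr p)).div_const _
  · have : tr (0 : X) p = p := by
      ext x
      simp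
    simp only [this]
    exact div_self hψp
  · intro a b
    have h1 : tr (a + b) p = tr a (tr b p) := (tr_tr a b p).symm
    simp only [h1, key a (tr b p)]
    ring
  · intro h
    apply hψg
    have h1 := key x₀ k
    simp only at h
    rw [h, one_mul] at h1
    rw [hg, map_sub, h1, sub_self]

end Conv

/-- **Continuous characters separate the points of a compact Hausdorff abelian group**
(circle-valued version). -/
theorem exists_circle {X : Type*} [AddCommGroup X] [TopologicalSpace X]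
    [IsTopologicalAddGroup X] [CompactSpace X] [T2Space X] {x : X} (hx : x ≠ 0) :
    ∃ c : X → Circle, Continuous c ∧ (∀ a b, c (a + b) = c a * c b) ∧ c x ≠ 1 := by
  let : MeasurableSpace X := borel X
  have : BorelSpace X := ⟨rfl⟩
  let K₀ : TopologicalSpace.PositiveCompacts X := ⊤
  let μ : Measure X := Measure.addHaarMeasure K₀
  have hμ : IsProbabilityMeasure μ := ⟨by
    have := Measure.addHaarMeasure_self (K₀ := K₀)
    simpa [K₀] using this⟩
  obtain ⟨k, hk0, hk1, -⟩ := exists_continuous_zero_one_of_isClosed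
    (isClosed_singleton (x := (0 : X))) (isClosed_singleton (x := x))
    (by simpa using hx.symm)
  let k' : C(X, ℂ) := ⟨fun y => (k y : ℂ), by fun_prop⟩
  have hk : k' x ≠ k' 0 := by
    have h0 : k 0 = 0 := hk0 (Set.mem_singleton _)
    have h1 : k x = 1 := hk1 (Set.mem_singleton _)
    simp [k', h0, h1]
  obtain ⟨c, hc, hc0, hcm, hcx⟩ := exists_mul_fun μ hk
  have hpow : ∀ (n : ℕ) (a : X), c (n • a) = c a ^ n := by
    intro n a
    induction n with
    | zero => simpa using hc0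
    | succ n ih => rw [succ_nsmul, hcm, ih, pow_succ]
  have hle : ∀ a, ‖c a‖ ≤ 1 := by
    intro a
    by_contra h
    rw [not_le] at h
    obtain ⟨M, hM⟩ := (isCompact_range hc).isBounded.exists_norm_le
    have h1 := tendsto_pow_atTop_atTop_of_one_lt h
    obtain ⟨n, hn⟩ := (h1.eventually_gt_atTop M).exists
    have h2 := hM (c (n • a)) (Set.mem_range_self _)
    rw [hpow, norm_pow] at h2
    linarith
  have hone : ∀ a, ‖c a‖ = 1 := by
    intro a
    apply le_antisymm (hle a)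
    have h1 : c a * c (-a) = 1 := by rw [← hcm, add_neg_cancel, hc0]
    have h2 : ‖c a‖ * ‖c (-a)‖ = 1 := by rw [← norm_mul, h1, norm_one]
    nlinarith [hle (-a), norm_nonneg (c a), norm_nonneg (c (-a))]
  refine ⟨fun a => ⟨c a, mem_sphere_zero_iff_norm.2 (hone a)⟩, ?_, ?_, ?_⟩
  · exact Continuous.subtype_mk hc _
  · intro a b
    exact Subtype.ext (hcm a b)
  · intro h
    exact hcx (congrArg Subtype.val h)

/-- Continuous characters separate the points of a compact Hausdorff abelian group. -/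
theorem exists_char {X : Type*} [AddCommGroup X] [TopologicalSpace X]
    [IsTopologicalAddGroup X] [CompactSpace X] [T2Space X] {x : X} (hx : x ≠ 0) :
    ∃ χ : ContinuousAddMonoidHom X UnitAddCircle, χ x ≠ 0 := by
  obtain ⟨c, hc, hcm, hcx⟩ := exists_circle hx
  let e : UnitAddCircle ≃ₜ Circle := AddCircle.homeomorphCircle one_ne_zero
  have he : ∀ y : UnitAddCircle, e y = AddCircle.toCircle y :=
    AddCircle.homeomorphCircle_apply one_ne_zero
  have hadd : ∀ u v : Circle, e.symm (u * v) = e.symm u + e.symm v := by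
    intro u v
    apply e.injective
    rw [e.apply_symm_apply, he, AddCircle.toCircle_add, ← he, ← he, e.apply_symm_apply,
      e.apply_symm_apply]
  let f : X →+ UnitAddCircle := AddMonoidHom.mk' (fun a => e.symm (c a)) (fun a b => by
    rw [hcm, hadd])
  refine ⟨⟨f, e.symm.continuous.comp hc⟩, fun h => hcx ?_⟩
  have h1 : e.symm (c x) = 0 := h
  have h2 : c x = e 0 := by rw [← h1, e.apply_symm_apply]
  rw [h2, he, AddCircle.toCircle_zero]

end Pool.Lib.PeterWeyl
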