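import Pool.Agent.Lib.AffineLin
import Pool.Agent.Lib.Weyl
import Pool.Agent.Lib.PeterWeyl

set_option autoImplicit false

/-!
# Pointwise convergence for characters along orbits of affine maps of compact abelian groups
-/

open MeasureTheory Filter Topology Finset
open scoped ENNReal NNReal ComplexConjugate

namespace Pool.Lib.AffMeas

open Pool.Lib.Erg Pool.Lib.Weyl Pool.Lib.AffAlg Pool.Lib.APoly

universe u

/-- commuting invertible endomorphisms give a module over a Noetherian ring -/
lemma exists_ring {Γ : Type u} [AddCommGroup Γ] {d : ℕ} (E : Fin d → (Module.End ℤ Γ)ˣ)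
    (hcomm : ∀ i k, E i * E k = E k * E i) :
    ∃ (R : Type u) (_ : CommRing R) (_ : IsNoetherianRing R) (_ : Module R Γ) (α : Fin d → Rˣ),
      ∀ i χ, α i • χ = (E i : Module.End ℤ Γ) χ := by
  classical
  set S : Set (Module.End ℤ Γ) := Set.range (fun i => (E i : Module.End ℤ Γ)) ∪
    Set.range (fun i => (((E i)⁻¹ : (Module.End ℤ Γ)ˣ) : Module.End ℤ Γ)) with hS
  have h1 : ∀ i k, Commute (E i) (E k) := hcomm
  have hc : ∀ a ∈ S, ∀ b ∈ S, a * b = b * a := by
    rintro _ (⟨i, rfl⟩ | ⟨i, rfl⟩) _ (⟨k, rfl⟩ | ⟨k, rfl⟩)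
    · exact congrArg Units.val (h1 i k).eq
    · exact congrArg Units.val (h1 i k).inv_right.eq
    · exact congrArg Units.val (h1 i k).inv_left.eq
    · exact congrArg Units.val (h1 i k).inv_inv.eq
  letI : CommRing (Algebra.adjoin ℤ S) := Algebra.adjoinCommRingOfComm ℤ hc
  have hfin : S.Finite := (Set.finite_range _).union (Set.finite_range _)
  have hft : Algebra.FiniteType ℤ (Algebra.adjoin ℤ S) := by
    rw [← Subalgebra.fg_iff_finiteType]
    exact ⟨hfin.toFinset, by simp⟩
  have hN : IsNoetherianRing (Algebra.adjoin ℤ S) :=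
    Algebra.FiniteType.isNoetherianRing ℤ (Algebra.adjoin ℤ S)
  refine ⟨Algebra.adjoin ℤ S, inferInstance, hN, inferInstance, fun i =>
    ⟨⟨(E i : Module.End ℤ Γ), Algebra.subset_adjoin (Or.inl ⟨i, rfl⟩)⟩,
      ⟨(((E i)⁻¹ : (Module.End ℤ Γ)ˣ) : Module.End ℤ Γ), Algebra.subset_adjoin (Or.inr ⟨i, rfl⟩)⟩,
      ?_, ?_⟩, fun i χ => rfl⟩
  · apply Subtype.ext
    exact Units.mul_inv (E i)
  · apply Subtype.ext
    exact Units.inv_mul (E i)

variable {X : Type u} [AddCommGroup X] [TopologicalSpace X] [IsTopologicalAddGroup X]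
  [CompactSpace X] [T2Space X] [MeasurableSpace X] [BorelSpace X]

/-- the character group -/
abbrev Ch (X : Type u) [AddCommGroup X] [TopologicalSpace X] := ContinuousAddMonoidHom X UnitAddCircle

/-- evaluation -/
def evC : Ch X →+ (X → UnitAddCircle) := AddMonoidHom.mk' (fun χ => χ) (fun _ _ => rfl)

lemma evC_apply (χ : Ch X) (x : X) : evC χ x = χ x := rfl

lemma continuous_e : Continuous e :=
  continuous_induced_dom.comp (AddCircle.continuous_toCircle)

lemma continuous_ech (γ : Ch X) (c : UnitAddCircle) : Continuous fun x => e (γ x + c) :=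
  continuous_e.comp ((map_continuous γ).add continuous_const)

/-- orthogonality -/
lemma int_char (μ : Measure X) [μ.IsAddHaarMeasure] {γ : Ch X} (hγ : γ ≠ 0) :
    ∫ x, e (γ x) ∂μ = 0 := by
  obtain ⟨x₀, hx₀⟩ : ∃ x₀, γ x₀ ≠ 0 := by
    by_contra h
    push Not at h
    exact hγ (DFunLike.ext _ _ h)
  have h1 : ∫ x, e (γ (x + x₀)) ∂μ = ∫ x, e (γ x) ∂μ :=
    integral_add_right_eq_self (fun x => e (γ x)) x₀
  have h2 : ∫ x, e (γ (x + x₀)) ∂μ = (∫ x, e (γ x) ∂μ) * e (γ x₀) := by
    rw [← integral_mul_const]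
    congr 1
    funext x
    rw [map_add, e_add]
  rw [h2] at h1
  have h3 : (∫ x, e (γ x) ∂μ) * (e (γ x₀) - 1) = 0 := by linear_combination h1
  rcases mul_eq_zero.1 h3 with h | h
  · exact h
  · exact absurd (e_eq_one (sub_eq_zero.1 h)) hx₀

/-- sparse linear parts: averages tend to zero -/
lemma sparse_conv (μ : Measure X) [μ.IsAddHaarMeasure] [IsProbabilityMeasure μ] (γ : ℕ → Ch X)
    (c : ℕ → UnitAddCircle) (s : ℕ)
    (hs : ∀ (z : Ch X) (L : ℕ) (S : Finset ℕ), (∀ n ∈ S, n < L ∧ γ n = z) →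
        (S.card : ℝ) ≤ 3 * (L : ℝ) ^ (1 - (1 / 2 : ℝ) ^ s)) :
    ∀ᵐ x ∂μ, Tendsto (avg fun n => e (γ n x + c n)) atTop (𝓝 0) := by
  classical
  apply avg_zero_of_L2_pow (fun n x => e (γ n x + c n)) 1
    (fun n => (continuous_ech (γ n) (c n)).aestronglyMeasurable)
    (Eventually.of_forall fun x n => (norm_e _).le) (2 ^ (s + 1)) Nat.one_le_two_pow 3
  intro k
  set N : ℕ := (k + 1) ^ (2 ^ (s + 1)) with hN
  have hNpos : 0 < N := by positivity
  have hNR : (0 : ℝ) < N := by exact_mod_cast hNpos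
  have horth : ∀ n m, ¬ (γ n = γ m) →
      ∫ x, e (γ n x + c n) * conj (e (γ m x + c m)) ∂μ = 0 := by
    intro n m hnm
    have e1 : ∀ x, e (γ n x + c n) * conj (e (γ m x + c m)) =
        e ((γ n - γ m) x) * e (c n - c m) := by
      intro x
      have h0 : (γ n - γ m) x = γ n x - γ m x := congrFun (map_sub evC (γ n) (γ m)) x
      rw [← e_sub, ← e_add, h0]
      congr 1
      abel
    simp_rw [e1]
    rw [integral_mul_const, int_char μ (sub_ne_zero.2 hnm), zero_mul]
  have hcard : (((range N ×ˢ range N).filter fun p => γ p.1 = γ p.2).card : ℝ) ≤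
      3 * ((N : ℝ) ^ 2 / ((k : ℝ) + 1) ^ 2) := by
    have h1 : ((range N ×ˢ range N).filter fun p => γ p.1 = γ p.2).card =
        ∑ n ∈ range N, (((range N ×ˢ range N).filter fun p => γ p.1 = γ p.2).filter
          fun p => p.1 = n).card := by
      apply Finset.card_eq_sum_card_fiberwise
      intro p hp
      simp only [coe_filter, mem_product, Set.mem_setOf_eq, mem_range] at hp
      simpa using hp.1.1
    have h2 : ∀ n ∈ range N, (((((range N ×ˢ range N).filter fun p => γ p.1 = γ p.2).filter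
          fun p => p.1 = n).card : ℕ) : ℝ) ≤ 3 * (N : ℝ) ^ (1 - (1 / 2 : ℝ) ^ s) := by
      intro n _
      have h3 : ((((range N ×ˢ range N).filter fun p => γ p.1 = γ p.2).filter
          fun p => p.1 = n).image Prod.snd).card =
          (((range N ×ˢ range N).filter fun p => γ p.1 = γ p.2).filter fun p => p.1 = n).card := by
        apply Finset.card_image_of_injOn
        intro p hp p' hp' h
        simp only [coe_filter, mem_filter, mem_product, Set.mem_setOf_eq, mem_range] at hp hp'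
        exact Prod.ext (hp.2.trans hp'.2.symm) h
      rw [← h3]
      apply hs (γ n) N
      intro m hm
      rw [Finset.mem_image] at hm
      obtain ⟨p, hp, rfl⟩ := hm
      simp only [mem_filter, mem_product, mem_range] at hp
      refine ⟨hp.1.1.2, ?_⟩
      rw [← hp.1.2, hp.2]
    rw [h1]
    push_cast
    refine (Finset.sum_le_sum h2).trans ?_
    rw [Finset.sum_const, card_range, nsmul_eq_mul]
    have h4 : (N : ℝ) ^ ((1 / 2 : ℝ) ^ s) = ((k : ℝ) + 1) ^ 2 := by
      rw [hN]
      push_cast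
      rw [← Real.rpow_natCast, ← Real.rpow_mul (by positivity)]
      have : (((2 ^ (s + 1) : ℕ) : ℝ)) * (1 / 2 : ℝ) ^ s = ((2 : ℕ) : ℝ) := by
        push_cast
        rw [pow_succ, one_div, inv_pow]
        field_simp
      rw [this, Real.rpow_natCast]
    rw [Real.rpow_sub hNR, Real.rpow_one, h4]
    apply le_of_eq
    ring
  have := int_sq_le_pairs (μ := μ) (fun n x => e (γ n x + c n)) 1
    (fun n => (continuous_ech (γ n) (c n)).aestronglyMeasurable)
    (fun n => Eventually.of_forall fun x => (norm_e _).le) (fun n m => γ n = γ m) horth N _ hcard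
  rw [one_pow, one_mul] at this
  exact this

/-- composition of characters with an automorphism -/
def compA (A : X ≃ₜ+ X) : Ch X →ₗ[ℤ] Ch X :=
  (AddMonoidHom.mk' (fun χ : Ch X => (⟨(χ : X →+ UnitAddCircle).comp (A : X →+ X),
    (map_continuous χ).comp A.continuous⟩ : Ch X)) (fun χ ψ => rfl)).toIntLinearMap

lemma compA_apply (A : X ≃ₜ+ X) (χ : Ch X) (x : X) : (compA A χ) x = χ (A x) := rfl

/-- the same as a unit -/
def compU (A : X ≃ₜ+ X) : (Module.End ℤ (Ch X))ˣ where
  val := compA A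
  inv := compA A.symm
  val_inv := by
    apply LinearMap.ext
    intro χ
    apply DFunLike.ext
    intro x
    show χ (A.symm (A x)) = χ x
    rw [A.symm_apply_apply]
  inv_val := by
    apply LinearMap.ext
    intro χ
    apply DFunLike.ext
    intro x
    show χ (A (A.symm x)) = χ x
    rw [A.apply_symm_apply]

/-- **Convergence for characters.** -/
theorem char_conv (μ : Measure X) [μ.IsAddHaarMeasure] [IsProbabilityMeasure μ] {d m : ℕ}
    (A : Fin d → X ≃ₜ+ X) (b : Fin d → X) (hA : ∀ i k x, A i (A k x) = A k (A i x))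
    (T : Fin d → Equiv.Perm X) (hT : ∀ i x, T i x = A i x + b i)
    [Group.IsNilpotent (Subgroup.closure (Set.range T))] (P : Fin d → Fin m → Polynomial ℤ)
    (χ : Fin m → Ch X) :
    ∀ᵐ x ∂μ, ∃ L, Tendsto (avg fun n : ℕ => ∏ j, e (χ j (gel T P j (n : ℤ) x))) atTop (𝓝 L) := by
  classical
  obtain ⟨R, _, _, _, α, hα⟩ := exists_ring (fun i => compU (A i)) (by
    intro i k
    apply Units.ext
    apply LinearMap.ext
    intro χ
    apply DFunLike.ext
    intro x
    show χ (A k (A i x)) = χ (A i (A k x))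
    rw [hA])
  have hTe : ∀ i (χ : Ch X) x, evC χ (T i x) = evC (α i • χ) x + evC χ (b i) := by
    intro i χ x
    rw [hα, evC_apply, hT, map_add]
    rfl
  haveI : IsNoetherian R (Submodule.span R (Set.range χ)) :=
    isNoetherian_span_of_finite R (Set.finite_range χ)
  obtain ⟨q, hq, hd⟩ := orbit_alt T b α hTe 0 P (Submodule.span R (Set.range χ))
    (fun j => ⟨χ j, Submodule.subset_span (Set.mem_range_self j)⟩)
  have hprod : ∀ (n : ℤ) x, ∏ j, e (χ j (gel T P j n x)) = e (∑ j, evC (χ j) (gel T P j n x)) := by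
    intro n x
    have : ∀ s : Finset (Fin m), ∏ j ∈ s, e (χ j (gel T P j n x)) =
        e (∑ j ∈ s, evC (χ j) (gel T P j n x)) := by
      intro s
      induction s using Finset.induction_on with
      | empty => simp [e_zero]
      | insert a s ha ih => rw [Finset.prod_insert ha, Finset.sum_insert ha, e_add, ih]; rfl
    exact this _
  have hres : ∀ r < q, ∀ᵐ x ∂μ, ∃ L, Tendsto
      (avg fun t : ℕ => ∏ j, e (χ j (gel T P j ((q * t + r : ℕ) : ℤ) x))) atTop (𝓝 L) := by
    intro r _
    rcases hd r with ⟨θ, ⟨k, hk⟩, hθ⟩ | ⟨γ, c, s, hγ, hs⟩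
    · apply Eventually.of_forall
      intro x
      obtain ⟨L, hL⟩ := weyl k θ hk
      refine ⟨e (∑ j, evC (χ j) (gel T P j (r : ℤ) x)) * L, ?_⟩
      refine (hL.const_mul _).congr fun N => ?_
      rw [← avg_mul_left]
      congr 1
      funext n
      rw [hprod, hθ n x, e_add]
    · filter_upwards [sparse_conv μ γ c s hs] with x hx
      refine ⟨0, hx.congr fun N => ?_⟩
      congr 1
      funext n
      rw [hprod, hγ n x, evC_apply]
  have hall : ∀ᵐ x ∂μ, ∀ r : Fin q, ∃ L, Tendsto
      (avg fun t : ℕ => ∏ j, e (χ j (gel T P j ((q * t + r : ℕ) : ℤ) x))) atTop (𝓝 L) :=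
    ae_all_iff.2 fun r => hres r r.2
  filter_upwards [hall] with x hx
  apply avg_residue _ 1 (fun n => ?_) q hq
  · intro r hr
    exact hx ⟨r, hr⟩
  · rw [norm_prod]
    apply le_of_eq
    apply Finset.prod_eq_one
    intro j _
    exact norm_e _

end Pool.Lib.AffMeas
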