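import Pool.Agent.Lib.ErgodicAverages2

set_option autoImplicit false

/-!
# Averages of local functions on product spaces along moving coordinates
-/

open MeasureTheory Filter Topology Finset
open scoped ENNReal NNReal ComplexConjugate

namespace Pool.Lib.Erg

variable {I A : Type*} [MeasurableSpace A] (α : Measure A) [IsProbabilityMeasure α]

lemma law_inj {F : Type*} [Fintype F] (f : F → I) (hf : Function.Injective f) :
    MeasurePreserving (fun (x : I → A) (i : F) => x (f i)) (Measure.infinitePi fun _ : I => α)
      (Measure.pi fun _ : F => α) := by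
  refine ⟨by fun_prop, ?_⟩
  rw [Measure.map_infinitePi_infinitePi_of_inj hf, Measure.infinitePi_eq_pi]

lemma law_pair {E D : Type*} [Fintype E] [Fintype D] (c0 : E → I) (c1 : D → I)
    (hf : Function.Injective (Sum.elim c0 c1)) :
    MeasurePreserving (fun (x : I → A) => ((fun i : E => x (c0 i)), (fun i : D => x (c1 i))))
      (Measure.infinitePi fun _ : I => α)
      ((Measure.pi fun _ : E => α).prod (Measure.pi fun _ : D => α)) := by
  have h1 := law_inj α (Sum.elim c0 c1) hf
  have h2 := measurePreserving_sumPiEquivProdPi (fun _ : E ⊕ D => α)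
  exact h2.comp h1

lemma law_triple {E D : Type*} [Fintype E] [Fintype D] (c0 : E → I) (c1 c2 : D → I)
    (hf : Function.Injective (Sum.elim c0 (Sum.elim c1 c2))) :
    MeasurePreserving (fun (x : I → A) => ((fun i : E => x (c0 i)), ((fun i : D => x (c1 i)),
      (fun i : D => x (c2 i))))) (Measure.infinitePi fun _ : I => α)
      ((Measure.pi fun _ : E => α).prod ((Measure.pi fun _ : D => α).prod
        (Measure.pi fun _ : D => α))) := by
  have h1 := law_pair α c0 (Sum.elim c1 c2) hf
  have h2 := measurePreserving_sumPiEquivProdPi (fun _ : D ⊕ D => α)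
  exact ((MeasurePreserving.id _).prod h2).comp h1

section core

variable {E D : Type*} [Fintype E] [Fintype D]

/-- conditional mean over the moving coordinates -/
noncomputable def cmean (Ψ : (E → A) × (D → A) → ℂ) (s : E → A) : ℂ :=
  ∫ w, Ψ (s, w) ∂(Measure.pi fun _ : D => α)

variable {α}

lemma cmean_meas {Ψ : (E → A) × (D → A) → ℂ} (hΨ : Measurable Ψ) :
    Measurable (cmean α Ψ) := by
  have h := (hΨ.stronglyMeasurable).integral_prod_right' (ν := Measure.pi fun _ : D => α)
  exact h.measurable

lemma cmean_bound {Ψ : (E → A) × (D → A) → ℂ} {C : ℝ} (hC : ∀ p, ‖Ψ p‖ ≤ C) (s : E → A) :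
    ‖cmean α Ψ s‖ ≤ C := by
  unfold cmean
  calc _ ≤ C * (Measure.pi fun _ : D => α).real Set.univ :=
        norm_integral_le_of_norm_le_const (Eventually.of_forall fun w => hC (s, w))
    _ = C := by simp

lemma core_orth (c0 : E → I) (c1 c2 : D → I)
    (hf : Function.Injective (Sum.elim c0 (Sum.elim c1 c2))) {Ψ : (E → A) × (D → A) → ℂ}
    (hΨ : Measurable Ψ) {C : ℝ} (hC : ∀ p, ‖Ψ p‖ ≤ C) :
    ∫ x : I → A, (Ψ ((fun i => x (c0 i)), (fun i => x (c1 i))) - cmean α Ψ (fun i => x (c0 i))) *
      conj (Ψ ((fun i => x (c0 i)), (fun i => x (c2 i))) - cmean α Ψ (fun i => x (c0 i)))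
      ∂(Measure.infinitePi fun _ : I => α) = 0 := by
  set G : (E → A) × (D → A) → ℂ := fun p => Ψ p - cmean α Ψ p.1 with hG
  have hGm : Measurable G := hΨ.sub ((cmean_meas hΨ).comp measurable_fst)
  have hGb : ∀ p, ‖G p‖ ≤ C + C := fun p =>
    (norm_sub_le _ _).trans (add_le_add (hC p) (cmean_bound hC p.1))
  have hG0 : ∀ s, ∫ w, G (s, w) ∂(Measure.pi fun _ : D => α) = 0 := by
    intro s
    have hi : Integrable (fun w => Ψ (s, w)) (Measure.pi fun _ : D => α) :=
      Integrable.of_bound (hΨ.comp (measurable_prodMk_left)).aestronglyMeasurable C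
        (Eventually.of_forall fun w => hC _)
    rw [hG]
    simp only
    rw [integral_sub hi (integrable_const _), integral_const]
    simp [cmean]
  set H : (E → A) × ((D → A) × (D → A)) → ℂ := fun p => G (p.1, p.2.1) * conj (G (p.1, p.2.2))
    with hH
  have hHm : Measurable H := by
    apply Measurable.mul
    · exact hGm.comp (measurable_fst.prodMk (measurable_fst.comp measurable_snd))
    · exact Complex.continuous_conj.measurable.comp
        (hGm.comp (measurable_fst.prodMk (measurable_snd.comp measurable_snd)))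
  have h1 := (law_triple α c0 c1 c2 hf).map_eq
  have h2 : ∫ x : I → A, H ((fun i : E => x (c0 i)), ((fun i : D => x (c1 i)),
      (fun i : D => x (c2 i)))) ∂(Measure.infinitePi fun _ : I => α) =
      ∫ p, H p ∂((Measure.pi fun _ : E => α).prod ((Measure.pi fun _ : D => α).prod
        (Measure.pi fun _ : D => α))) := by
    rw [← h1, integral_map (law_triple α c0 c1 c2 hf).measurable.aemeasurable
      hHm.aestronglyMeasurable]
  have h3 : ∫ p, H p ∂((Measure.pi fun _ : E => α).prod ((Measure.pi fun _ : D => α).prod
        (Measure.pi fun _ : D => α))) = 0 := by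
    rw [integral_prod]
    · have : ∀ s, ∫ p, H (s, p) ∂((Measure.pi fun _ : D => α).prod
          (Measure.pi fun _ : D => α)) = 0 := by
        intro s
        have := integral_prod_mul (μ := Measure.pi fun _ : D => α)
          (ν := Measure.pi fun _ : D => α) (fun w => G (s, w)) (fun w => conj (G (s, w)))
        rw [hG0 s, zero_mul] at this
        exact this
      simp_rw [this]
      simp
    · apply Integrable.of_bound hHm.aestronglyMeasurable ((C + C) * (C + C))
      refine Eventually.of_forall fun p => ?_
      rw [hH]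
      simp only
      rw [norm_mul, RCLike.norm_conj]
      exact mul_le_mul (hGb _) (hGb _) (norm_nonneg _) ((norm_nonneg _).trans (hGb (p.1, p.2.1)))
  rw [← h3, ← h2]

/-- **Core convergence statement.**  Frozen coordinates `c0`, moving coordinates `c`. -/
theorem core_avg (c0 : E → I) (c : D → ℕ → I) (Mb : ℕ)
    (hM : ∀ (d : D) (z : I) (S : Finset ℕ), (∀ n ∈ S, c d n = z) → S.card ≤ Mb) (n0 : ℕ)
    (hinj : ∀ n ≥ n0, Function.Injective (Sum.elim c0 (fun d => c d n)))
    {Ψ : (E → A) × (D → A) → ℂ} (hΨ : Measurable Ψ) {C : ℝ} (hC : ∀ p, ‖Ψ p‖ ≤ C) :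
    ∀ᵐ x ∂(Measure.infinitePi fun _ : I => α),
      Tendsto (avg fun n => Ψ ((fun i => x (c0 i)), (fun d => x (c d n)))) atTop
        (𝓝 (cmean α Ψ (fun i => x (c0 i)))) := by
  classical
  set W : ℕ → (I → A) → ℂ := fun n x =>
    if n0 ≤ n then Ψ ((fun i => x (c0 i)), (fun d => x (c d n))) -
      cmean α Ψ (fun i => x (c0 i)) else 0 with hW
  have hWm : ∀ n, Measurable (W n) := by
    intro n
    by_cases hn : n0 ≤ n
    · have : W n = fun x => Ψ ((fun i => x (c0 i)), (fun d => x (c d n))) -
          cmean α Ψ (fun i => x (c0 i)) := by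
        funext x; simp [hW, hn]
      rw [this]
      apply Measurable.sub
      · exact hΨ.comp (by fun_prop)
      · exact (cmean_meas hΨ).comp (by fun_prop)
    · have : W n = fun _ => 0 := by
        funext x; simp [hW, hn]
      rw [this]
      exact measurable_const
  have hC0 : 0 ≤ C := by
    obtain ⟨x⟩ : Nonempty (I → A) := by
      have : Nonempty A := nonempty_of_isProbabilityMeasure α
      infer_instance
    exact (norm_nonneg _).trans (hC ((fun i => x (c0 i)), (fun d => x (c d 0))))
  have hWb : ∀ n x, ‖W n x‖ ≤ C + C := by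
    intro n x
    simp only [hW]
    split_ifs
    · exact (norm_sub_le _ _).trans (add_le_add (hC _) (cmean_bound hC _))
    · rw [norm_zero]; positivity
  set B : ℕ → ℕ → Prop := fun n m => ∃ d d', c d n = c d' m with hB
  have hcount : ∀ N : ℕ, (((range N ×ˢ range N).filter fun p => B p.1 p.2).card : ℝ) ≤
      ((Fintype.card D * Fintype.card D * Mb : ℕ) : ℝ) * N := by
    intro N
    have h1 : ((range N ×ˢ range N).filter fun p => B p.1 p.2).card ≤
        ∑ n ∈ range N, ∑ d : D, ∑ d' : D, ((range N).filter fun m => c d' m = c d n).card := by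
      have : ((range N ×ˢ range N).filter fun p => B p.1 p.2) ⊆
          (range N).biUnion fun n => (univ : Finset D).biUnion fun d =>
            (univ : Finset D).biUnion fun d' =>
              ((range N).filter fun m => c d' m = c d n).image fun m => (n, m) := by
        rintro ⟨n, m⟩ hp
        rw [mem_filter, mem_product] at hp
        obtain ⟨⟨hn, hm⟩, d, d', hd⟩ := hp
        simp only [mem_biUnion, mem_image, mem_filter]
        exact ⟨n, hn, d, mem_univ _, d', mem_univ _, m, ⟨hm, hd.symm⟩, rfl⟩
      refine (card_le_card this).trans ?_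
      refine card_biUnion_le.trans (Finset.sum_le_sum fun n _ => ?_)
      refine card_biUnion_le.trans (Finset.sum_le_sum fun d _ => ?_)
      refine card_biUnion_le.trans (Finset.sum_le_sum fun d' _ => ?_)
      exact card_image_le
    have h2 : ∑ n ∈ range N, ∑ d : D, ∑ d' : D, ((range N).filter fun m => c d' m = c d n).card ≤
        Fintype.card D * Fintype.card D * Mb * N := by
      calc _ ≤ ∑ n ∈ range N, ∑ d : D, ∑ d' : D, Mb := by
            apply Finset.sum_le_sum
            intro n _
            apply Finset.sum_le_sum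
            intro d _
            apply Finset.sum_le_sum
            intro d' _
            exact hM d' (c d n) _ fun m hm => (mem_filter.mp hm).2
        _ = _ := by
            simp only [sum_const, card_univ, smul_eq_mul, card_range]
            ring
    exact_mod_cast h1.trans h2
  have hzero : ∀ᵐ x ∂(Measure.infinitePi fun _ : I => α),
      Tendsto (avg fun n => W n x) atTop (𝓝 0) := by
    apply avg_zero_of_L2 W (C + C) (fun n => (hWm n).aestronglyMeasurable)
      (Eventually.of_forall fun x n => hWb n x)
      ((C + C) ^ 2 * ((Fintype.card D * Fintype.card D * Mb : ℕ) : ℝ))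
    intro N
    rw [mul_assoc]
    apply int_sq_le_pairs W (C + C) (fun n => (hWm n).aestronglyMeasurable)
      (fun n => Eventually.of_forall fun x => hWb n x) B _ N _ (hcount N)
    intro n m hnm
    simp only [hW]
    by_cases hn : n0 ≤ n
    · by_cases hm : n0 ≤ m
      · simp only [if_pos hn, if_pos hm]
        apply core_orth c0 (fun d => c d n) (fun d => c d m) _ hΨ hC
        have i1 := hinj n hn
        have i2 := hinj m hm
        rintro (a | a | a) (b | b | b) hab
        · have := i1 (a₁ := Sum.inl a) (a₂ := Sum.inl b) hab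
          rw [Sum.inl.inj this]
        · exact absurd (i1 (a₁ := Sum.inl a) (a₂ := Sum.inr b) hab) (by simp)
        · exact absurd (i2 (a₁ := Sum.inl a) (a₂ := Sum.inr b) hab) (by simp)
        · exact absurd (i1 (a₁ := Sum.inr a) (a₂ := Sum.inl b) hab) (by simp)
        · have := i1 (a₁ := Sum.inr a) (a₂ := Sum.inr b) hab
          rw [Sum.inr.inj this]
        · exact absurd ⟨a, b, hab⟩ hnm
        · exact absurd (i2 (a₁ := Sum.inr a) (a₂ := Sum.inl b) hab) (by simp)
        · exact absurd ⟨b, a, hab.symm⟩ hnm
        · have := i2 (a₁ := Sum.inr a) (a₂ := Sum.inr b) hab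
          rw [Sum.inr.inj this]
      · simp [if_neg hm]
    · simp [if_neg hn]
  filter_upwards [hzero] with x hx
  set Φ := cmean α Ψ (fun i => x (c0 i)) with hΦ
  have hsupp : Tendsto (avg fun n => if n0 ≤ n then 0 else
      Ψ ((fun i => x (c0 i)), (fun d => x (c d n))) - Φ) atTop (𝓝 0) := by
    apply avg_finite_support _ n0
    intro n hn
    rw [if_pos hn]
  have h4 := (hx.add hsupp).add (avg_const Φ)
  rw [add_zero, zero_add] at h4
  refine h4.congr fun N => ?_
  rw [← avg_add, ← avg_add]
  congr 1
  funext n
  simp only [hW]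
  split_ifs <;> ring

end core

/-- **Averages of local functions along moving coordinates.**  Each coordinate sequence is constant
or of bounded multiplicity, and two coordinate sequences agree always or finitely often. -/
theorem local_avg {F : Type*} [Fintype F] (c : F → ℕ → I)
    (h1 : ∀ a, (∀ n, c a n = c a 0) ∨
      ∃ M : ℕ, ∀ (z : I) (S : Finset ℕ), (∀ n ∈ S, c a n = z) → S.card ≤ M)
    (h2 : ∀ a b, (∀ n, c a n = c b n) ∨
      ∃ M : ℕ, ∀ S : Finset ℕ, (∀ n ∈ S, c a n = c b n) → S.card ≤ M)
    {Ψ : (F → A) → ℂ} (hΨ : Measurable Ψ) {C : ℝ} (hC : ∀ y, ‖Ψ y‖ ≤ C) :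
    ∀ᵐ x ∂(Measure.infinitePi fun _ : I => α), ∃ L,
      Tendsto (avg fun n => Ψ (fun a => x (c a n))) atTop (𝓝 L) := by
  classical
  -- a common threshold
  have hfin : ∀ a b, ∃ n0 : ℕ, (∀ n, c a n = c b n) ∨ ∀ n ≥ n0, c a n ≠ c b n := by
    intro a b
    rcases h2 a b with h | ⟨M, hM⟩
    · exact ⟨0, Or.inl h⟩
    · by_contra hcon
      push Not at hcon
      -- infinitely many coincidences
      have hinf : {n | c a n = c b n}.Infinite := by
        rw [Set.infinite_iff_exists_gt]
        intro n
        obtain ⟨_, k, hk, hkc⟩ := hcon (n + 1)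
        exact ⟨k, hkc, hk⟩
      obtain ⟨S, hS, hScard⟩ := hinf.exists_subset_card_eq (M + 1)
      have := hM S fun n hn => hS hn
      omega
  choose n0 hn0 using hfin
  set m0 : ℕ := ∑ a, ∑ b, n0 a b with hm0
  have hle : ∀ a b, n0 a b ≤ m0 := by
    intro a b
    calc n0 a b ≤ ∑ b, n0 a b := Finset.single_le_sum (f := fun b => n0 a b)
          (fun _ _ => Nat.zero_le _) (mem_univ b)
      _ ≤ m0 := Finset.single_le_sum (f := fun a => ∑ b, n0 a b)
          (fun _ _ => Nat.zero_le _) (mem_univ a)
  have hdich : ∀ a b, (∀ n, c a n = c b n) ∨ ∀ n ≥ m0, c a n ≠ c b n := by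
    intro a b
    rcases hn0 a b with h | h
    · exact Or.inl h
    · exact Or.inr fun n hn => h n ((hle a b).trans hn)
  -- frozen positions
  set fro : F → Prop := fun a => ∀ n, c a n = c a 0 with hfro
  let E : Type _ := ((univ : Finset F).filter fro).image fun a => c a 0
  let s : Setoid {a : F // ¬ fro a} :=
    { r := fun a b => ∀ n, c a n = c b n
      iseqv := ⟨fun _ _ => rfl, fun h n => (h n).symm, fun h h' n => (h n).trans (h' n)⟩ }
  let D : Type _ := Quotient s
  let c0 : E → I := fun e => e.1
  let cD : D → ℕ → I := fun d => c (Quotient.out d).1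
  have hout : ∀ (a : {a : F // ¬ fro a}) n, cD (Quotient.mk s a) n = c a n := by
    intro a n
    have : s.r (Quotient.out (Quotient.mk s a)) a := Quotient.mk_out a
    exact this n
  have hbd : ∀ a : {a : F // ¬ fro a}, ∃ M : ℕ, ∀ (z : I) (S : Finset ℕ),
      (∀ n ∈ S, c a n = z) → S.card ≤ M := by
    intro a
    rcases h1 a with h | h
    · exact absurd h a.2
    · exact h
  choose Mf hMf using hbd
  set Mb : ℕ := ∑ a, Mf a with hMb
  have hM : ∀ (d : D) (z : I) (S : Finset ℕ), (∀ n ∈ S, cD d n = z) → S.card ≤ Mb := by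
    intro d z S hS
    exact (hMf _ z S hS).trans (Finset.single_le_sum (f := Mf) (fun _ _ => Nat.zero_le _)
      (mem_univ _))
  have hinj : ∀ n ≥ m0, Function.Injective (Sum.elim c0 (fun d => cD d n)) := by
    intro n hn
    rintro (a | a) (b | b) hab
    · have : a = b := Subtype.ext hab
      rw [this]
    · exfalso
      obtain ⟨a', ha'⟩ := a
      rw [Finset.mem_image] at ha'
      obtain ⟨a'', ha'', rfl⟩ := ha'
      have hfa : fro a'' := (mem_filter.mp ha'').2
      have hab' : c a'' 0 = c (Quotient.out b).1 n := hab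
      rw [← hfa n] at hab'
      rcases hdich a'' (Quotient.out b).1 with h | h
      · apply (Quotient.out b).2
        intro k
        rw [← h k, hfa k, ← h 0]
      · exact h n hn hab'
    · exfalso
      obtain ⟨b', hb'⟩ := b
      rw [Finset.mem_image] at hb'
      obtain ⟨b'', hb'', rfl⟩ := hb'
      have hfb : fro b'' := (mem_filter.mp hb'').2
      have hab' : c (Quotient.out a).1 n = c b'' 0 := hab
      rw [← hfb n] at hab'
      rcases hdich b'' (Quotient.out a).1 with h | h
      · apply (Quotient.out a).2
        intro k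
        rw [← h k, hfb k, ← h 0]
      · exact h n hn hab'.symm
    · have hab' : c (Quotient.out a).1 n = c (Quotient.out b).1 n := hab
      rcases hdich (Quotient.out a).1 (Quotient.out b).1 with h | h
      · have : a = b := by
          rw [← Quotient.out_eq a, ← Quotient.out_eq b]
          exact Quotient.sound h
        rw [this]
      · exact absurd hab' (h n hn)
  have hmemE : ∀ a, fro a → c a 0 ∈ ((univ : Finset F).filter fro).image fun a => c a 0 := by
    intro a ha
    exact Finset.mem_image.mpr ⟨a, mem_filter.mpr ⟨mem_univ _, ha⟩, rfl⟩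
  let G : (E → A) × (D → A) → (F → A) := fun p a =>
    if h : fro a then p.1 ⟨c a 0, hmemE a h⟩ else p.2 (Quotient.mk s ⟨a, h⟩)
  have hG : Measurable G := by
    rw [measurable_pi_iff]
    intro a
    by_cases h : fro a
    · have : (fun p => G p a) = fun p => p.1 ⟨c a 0, hmemE a h⟩ := by
        funext p; simp only [G, dif_pos h]
      rw [this]
      fun_prop
    · have : (fun p => G p a) = fun p => p.2 (Quotient.mk s ⟨a, h⟩) := by
        funext p; simp only [G, dif_neg h]
      rw [this]
      fun_prop
  have hcore := core_avg (α := α) c0 cD Mb hM m0 hinj (Ψ := fun p => Ψ (G p)) (hΨ.comp hG)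
    (C := C) (fun p => hC _)
  filter_upwards [hcore] with x hx
  refine ⟨_, hx.congr fun N => ?_⟩
  congr 1
  funext n
  congr 1
  funext a
  by_cases h : fro a
  · simp only [G, dif_pos h, c0]
    rw [h n]
  · simp only [G, dif_neg h]
    rw [hout ⟨a, h⟩ n]

end Pool.Lib.Erg
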