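import Pool.Agent.Lib.BernoulliGroup

set_option autoImplicit false

/-!
# Density of local functions; permutations of the coordinates preserve product measures
-/

open MeasureTheory Filter Topology Finset
open scoped ENNReal NNReal symmDiff

namespace Pool.Lib.Erg

variable {I A : Type*} [MeasurableSpace A] (α : Measure A) [IsProbabilityMeasure α]

lemma IsLocal.add {φ ψ : (I → A) → ℂ} (h1 : IsLocal φ) (h2 : IsLocal ψ) : IsLocal (φ + ψ) := by
  classical
  obtain ⟨m1, ⟨C1, b1⟩, F1, d1⟩ := h1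
  obtain ⟨m2, ⟨C2, b2⟩, F2, d2⟩ := h2
  refine ⟨m1.add m2, ⟨C1 + C2, fun x => (norm_add_le _ _).trans (add_le_add (b1 x) (b2 x))⟩,
    F1 ∪ F2, fun x y h => ?_⟩
  show φ x + ψ x = φ y + ψ y
  rw [d1 x y fun i hi => h i (mem_union_left _ hi), d2 x y fun i hi => h i (mem_union_right _ hi)]

lemma isLocal_indicator {t : Set (I → A)} (ht : t ∈ measurableCylinders fun _ : I => A) (c : ℂ) :
    IsLocal (t.indicator fun _ => c) := by
  classical
  have hm : MeasurableSet t := MeasurableSet.of_mem_measurableCylinders ht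
  obtain ⟨s, S, hS, rfl⟩ := (mem_measurableCylinders t).mp ht
  refine ⟨measurable_const.indicator hm, ⟨‖c‖, fun x => ?_⟩, s, fun x y h => ?_⟩
  · exact norm_indicator_le_norm_self (fun _ => c) x
  · have e : s.restrict x = s.restrict y := by
      funext i
      exact h i i.2
    unfold Set.indicator
    simp only [mem_cylinder]
    rw [e]

lemma dense_local (f : (I → A) → ℂ) (hf : MemLp f 1 (Measure.infinitePi fun _ : I => α)) (ε : ℝ)
    (hε : 0 < ε) : ∃ φ, IsLocal φ ∧ ∫ x, ‖f x - φ x‖ ∂(Measure.infinitePi fun _ : I => α) ≤ ε := by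
  classical
  set μ := Measure.infinitePi fun _ : I => α with hμ
  obtain ⟨φ, hφ, hφl⟩ := MemLp.induction_dense (μ := μ) (p := 1) (by simp)
    (fun g : (I → A) → ℂ => IsLocal g) (by
    intro c s hs _ δ hδ
    obtain ⟨δ', hδ'0, hδ'⟩ : ∃ δ' : ℝ≥0∞, 0 < δ' ∧ ‖c‖ₑ * δ' ≤ δ := by
      by_cases hc : c = 0
      · exact ⟨1, one_pos, by simp [hc]⟩
      · refine ⟨δ / ‖c‖ₑ, ENNReal.div_pos hδ enorm_ne_top, ?_⟩
        rw [ENNReal.mul_div_cancel (by simpa using hc) enorm_ne_top]
    obtain ⟨t, ht, hts⟩ := exists_measure_symmDiff_lt_of_generateFrom_isSetRing (μ := μ)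
      (isSetRing_measurableCylinders (α := fun _ : I => A))
      ⟨{Set.univ}, Set.countable_singleton _, by
        rw [Set.singleton_subset_iff]; exact univ_mem_measurableCylinders _, by simp⟩
      generateFrom_measurableCylinders.symm hs hδ'0
    refine ⟨t.indicator fun _ => c, ?_, isLocal_indicator ht c⟩
    rw [eLpNorm_one_eq_lintegral_enorm]
    have hle : ∀ x, ‖(t.indicator (fun _ => c) - s.indicator fun _ => c) x‖ₑ ≤
        (t ∆ s).indicator (fun _ => ‖c‖ₑ) x := by
      intro x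
      rw [Pi.sub_apply]
      by_cases h1 : x ∈ t <;> by_cases h2 : x ∈ s <;>
        simp [Set.indicator, h1, h2, Set.mem_symmDiff]
    calc _ ≤ ∫⁻ x, (t ∆ s).indicator (fun _ => ‖c‖ₑ) x ∂μ := lintegral_mono hle
      _ ≤ ‖c‖ₑ * μ (t ∆ s) := lintegral_indicator_const_le _ _
      _ ≤ ‖c‖ₑ * δ' := by gcongr
      _ ≤ δ := hδ')
    (fun f g hf hg => hf.add hg) (fun f hf => hf.1.aestronglyMeasurable) hf
    (ε := ENNReal.ofReal ε) (by simpa using hε)
  refine ⟨φ, hφl, ?_⟩
  rw [eLpNorm_one_eq_lintegral_enorm] at hφ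
  have hm : AEStronglyMeasurable (fun x => f x - φ x) μ :=
    hf.aestronglyMeasurable.sub hφl.1.aestronglyMeasurable
  rw [integral_norm_eq_lintegral_enorm hm]
  apply ENNReal.toReal_le_of_le_ofReal hε.le
  exact hφ

/-- Permuting the coordinates preserves the product measure. -/
lemma perm_preserving (σ : Equiv.Perm I) :
    MeasurePreserving (fun (x : I → A) (i : I) => x (σ i)) (Measure.infinitePi fun _ : I => α)
      (Measure.infinitePi fun _ : I => α) := by
  refine ⟨by fun_prop, ?_⟩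
  rw [Measure.map_infinitePi_infinitePi_of_inj σ.injective]

end Pool.Lib.Erg
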