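import Pool.Agent.Lib.PolyOrbit

set_option autoImplicit false

/-!
# Orbits of polynomial sequences in nilpotent groups: the dichotomy
-/

open Finset

namespace Pool.Lib.PolySeq

variable {G : Type*} [Group G]

lemma Dv_of_injective {G' : Type*} [Group G'] (φ : G →* G') (hφ : Function.Injective φ) {s : ℕ} :
    ∀ {g : ℕ → G}, Dv s (fun n => φ (g n)) → Dv s g := by
  induction s with
  | zero =>
    intro g hg n
    have := hg n
    rwa [map_eq_one_iff φ hφ] at this
  | succ s ih =>
    intro g hg h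
    apply ih
    have e : (fun n => φ (dd h g n)) = dd h (fun n => φ (g n)) := by
      funext n; simp [dd]
    rw [e]
    exact hg h

/-- The dichotomy statement for cosets of `K`. -/
def Dich (K : Subgroup G) (p : ℕ → G) (q r : ℕ) : Prop :=
  (∀ n, (p r)⁻¹ * p (q * n + r) ∈ K) ∨
    ∃ M : ℕ, ∀ (g : G) (S : Finset ℕ), (∀ n ∈ S, g⁻¹ * p (q * n + r) ∈ K) → S.card ≤ M

/-- dichotomy in an abelian section -/
lemma section_dichotomy (L K : Subgroup G) (hKL : K ≤ L)
    (hcomm : ∀ x ∈ L, ∀ y ∈ L, x * y * x⁻¹ * y⁻¹ ∈ K) {s : ℕ} {p : ℕ → G} (hp : Dv s p)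
    (hpL : ∀ n, p n ∈ L) : ∃ q : ℕ, 0 < q ∧ ∀ r, Dich K p q r := by
  let N : Subgroup L := K.subgroupOf L
  have hN : N.Normal := by
    refine ⟨fun k hk x => ?_⟩
    rw [Subgroup.mem_subgroupOf] at hk ⊢
    have h1 := hcomm x x.2 k k.2
    have h2 := K.mul_mem h1 hk
    have e : (x : G) * k * (x : G)⁻¹ * (k : G)⁻¹ * k = ((x * k * x⁻¹ : L) : G) := by
      push_cast; group
    rwa [e] at h2
  letI : CommGroup (L ⧸ N) :=
    { QuotientGroup.Quotient.group N with
      mul_comm := by
        intro a b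
        obtain ⟨x, rfl⟩ := QuotientGroup.mk_surjective a
        obtain ⟨y, rfl⟩ := QuotientGroup.mk_surjective b
        show ((x * y : L) : L ⧸ N) = ((y * x : L) : L ⧸ N)
        rw [QuotientGroup.eq, Subgroup.mem_subgroupOf]
        have h1 := hcomm _ (L.inv_mem y.2) _ (L.inv_mem x.2)
        have e : (y : G)⁻¹ * (x : G)⁻¹ * ((y : G)⁻¹)⁻¹ * ((x : G)⁻¹)⁻¹ =
            (((x * y)⁻¹ * (y * x) : L) : G) := by
          push_cast; group
        rwa [e] at h1 }
  let pL : ℕ → L := fun n => ⟨p n, hpL n⟩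
  have hpL' : Dv s pL := Dv_of_injective L.subtype L.subtype_injective hp
  let ζ : ℕ → L ⧸ N := fun n => (QuotientGroup.mk' N) (pL n)
  have hζ : Dv s ζ := Dv_map (QuotientGroup.mk' N) hpL'
  have hζeq : ∀ a b, ζ a = ζ b ↔ (p a)⁻¹ * p b ∈ K := by
    intro a b
    show ((pL a : L) : L ⧸ N) = ((pL b : L) : L ⧸ N) ↔ _
    rw [QuotientGroup.eq, Subgroup.mem_subgroupOf]
    rfl
  obtain ⟨q, hq, hd⟩ := abelian_dichotomy hζ
  refine ⟨q, hq, fun r => ?_⟩
  rcases hd r with h | ⟨M, hM⟩
  · left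
    intro n
    exact (hζeq _ _).mp (h n).symm
  · right
    refine ⟨M, fun g S hS => ?_⟩
    rcases S.eq_empty_or_nonempty with h0 | ⟨n0, hn0⟩
    · rw [h0]; simp
    · apply hM (ζ (q * n0 + r)) S
      intro n hn
      rw [hζeq]
      have h1 := hS n hn
      have h2 := hS n0 hn0
      have h3 := K.mul_mem (K.inv_mem h1) h2
      have e : (g⁻¹ * p (q * n + r))⁻¹ * (g⁻¹ * p (q * n0 + r)) =
          (p (q * n + r))⁻¹ * p (q * n0 + r) := by group
      rwa [e] at h3

/-- the chain of subgroups -/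
def chain (H : Subgroup G) (k : ℕ) : Subgroup G := H ⊔ Subgroup.upperCentralSeries G k

lemma central_comm {Γ : Type*} [Group Γ] (a b z z' : Γ) (hz : ∀ g, z * g = g * z)
    (hz' : ∀ g, z' * g = g * z') :
    (a * z) * (b * z') * (a * z)⁻¹ * (b * z')⁻¹ = a * b * a⁻¹ * b⁻¹ := by
  have h1 : (a * z) * (b * z') = (a * b) * (z * z') := by
    calc (a * z) * (b * z') = a * (z * b) * z' := by group
      _ = a * (b * z) * z' := by rw [hz b]
      _ = _ := by group
  have h2 : (b * z') * (a * z) = (b * a) * (z * z') := by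
    calc (b * z') * (a * z) = b * (z' * a) * z := by group
      _ = b * (a * z') * z := by rw [hz' a]
      _ = (b * a) * (z' * z) := by group
      _ = _ := by rw [hz' z]
  calc (a * z) * (b * z') * (a * z)⁻¹ * (b * z')⁻¹ =
      ((a * z) * (b * z')) * ((b * z') * (a * z))⁻¹ := by group
    _ = ((a * b) * (z * z')) * ((b * a) * (z * z'))⁻¹ := by rw [h1, h2]
    _ = _ := by group

lemma chain_comm (H : Subgroup G) (k : ℕ) (x : G) (hx : x ∈ chain H (k + 1)) (y : G)
    (hy : y ∈ chain H (k + 1)) : x * y * x⁻¹ * y⁻¹ ∈ chain H k := by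
  unfold chain at hx hy ⊢
  rw [Subgroup.mem_sup_of_normal_right] at hx hy
  obtain ⟨h, hh, z, hz, rfl⟩ := hx
  obtain ⟨h', hh', z', hz', rfl⟩ := hy
  set N := Subgroup.upperCentralSeries G k with hN
  have hcen : ∀ z ∈ Subgroup.upperCentralSeries G (k + 1), ∀ g : G ⧸ N,
      (QuotientGroup.mk' N z) * g = g * (QuotientGroup.mk' N z) := by
    intro z hz g
    obtain ⟨g, rfl⟩ := QuotientGroup.mk'_surjective N g
    have h1 := Subgroup.mem_upperCentralSeries_succ_iff.mp
        ((Subgroup.upperCentralSeries G (k + 1)).inv_mem hz) g⁻¹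
    rw [← map_mul, ← map_mul]
    apply Eq.symm
    show ((g * z : G) : G ⧸ N) = ((z * g : G) : G ⧸ N)
    rw [QuotientGroup.eq]
    have e : (g * z)⁻¹ * (z * g) = z⁻¹ * g⁻¹ * z⁻¹⁻¹ * g⁻¹⁻¹ := by group
    rw [e]
    exact h1
  have hq := central_comm (QuotientGroup.mk' N h) (QuotientGroup.mk' N h')
    (QuotientGroup.mk' N z) (QuotientGroup.mk' N z') (hcen z hz) (hcen z' hz')
  simp only [← map_mul, ← map_inv] at hq
  have hq' : (((h * z) * (h' * z') * (h * z)⁻¹ * (h' * z')⁻¹ : G) : G ⧸ N) =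
      ((h * h' * h⁻¹ * h'⁻¹ : G) : G ⧸ N) := hq
  rw [QuotientGroup.eq] at hq'
  rw [Subgroup.mem_sup_of_normal_right]
  refine ⟨h * h' * h⁻¹ * h'⁻¹, ?_, (h * h' * h⁻¹ * h'⁻¹)⁻¹ *
    ((h * z) * (h' * z') * (h * z)⁻¹ * (h' * z')⁻¹), ?_, by group⟩
  · exact H.mul_mem (H.mul_mem (H.mul_mem hh hh') (H.inv_mem hh)) (H.inv_mem hh')
  · have := N.inv_mem hq'
    have e : (((h * z) * (h' * z') * (h * z)⁻¹ * (h' * z')⁻¹)⁻¹ * (h * h' * h⁻¹ * h'⁻¹))⁻¹ =
        (h * h' * h⁻¹ * h'⁻¹)⁻¹ * ((h * z) * (h' * z') * (h * z)⁻¹ * (h' * z')⁻¹) := by group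
    rwa [e] at this

lemma chain_mono (H : Subgroup G) (k : ℕ) : chain H k ≤ chain H (k + 1) := by
  unfold chain
  apply sup_le_sup_left
  exact Subgroup.upperCentralSeries_mono G (Nat.le_succ k)

/-- **Dichotomy** for polynomial sequences in nilpotent groups. -/
theorem dichotomy [Group.IsNilpotent G] (H : Subgroup G) {s : ℕ} {p : ℕ → G} (hp : Dv s p) :
    ∃ q : ℕ, 0 < q ∧ ∀ r, Dich H p q r := by
  obtain ⟨c, hc⟩ := Group.IsNilpotent.nilpotent G
  have hp' : Dv (s + 1) p := Dv_mono hp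
  have key : ∀ j, j ≤ c → ∃ q : ℕ, 0 < q ∧ ∀ r, Dich (chain H (c - j)) p q r := by
    intro j
    induction j with
    | zero =>
      intro _
      refine ⟨1, one_pos, fun r => Or.inl fun n => ?_⟩
      unfold chain
      rw [Nat.sub_zero, hc, sup_top_eq]
      exact Subgroup.mem_top _
    | succ j ih =>
      intro hj
      obtain ⟨q1, hq1, h1⟩ := ih (by omega)
      set k := c - (j + 1) with hk
      rw [show c - j = k + 1 by omega] at h1
      -- second moduli
      have h2 : ∀ r, ∃ q2 : ℕ, 0 < q2 ∧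
          ((∀ n, (p r)⁻¹ * p (q1 * n + r) ∈ chain H (k + 1)) →
            ∀ a, Dich (chain H k) (fun n => (p r)⁻¹ * p (q1 * n + r)) q2 a) := by
        intro r
        by_cases hr : ∀ n, (p r)⁻¹ * p (q1 * n + r) ∈ chain H (k + 1)
        · obtain ⟨q2, hq2, hd⟩ := section_dichotomy (chain H (k + 1)) (chain H k)
            (chain_mono H k) (fun x hx y hy => chain_comm H k x hx y hy)
            (Dv_left (p r)⁻¹ (Nat.succ_pos s) (Dv_affine q1 r hp')) hr
          exact ⟨q2, hq2, fun _ => hd⟩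
        · exact ⟨1, one_pos, fun h => absurd h hr⟩
      choose q2 hq2 h2 using h2
      set Q : ℕ := ∏ r ∈ range q1, q2 r with hQ
      have hQ0 : 0 < Q := Finset.prod_pos fun r _ => hq2 r
      refine ⟨q1 * Q, by positivity, fun r => ?_⟩
      set r' := r % q1 with hr'
      set a := r / q1 with ha
      have hr : r = q1 * a + r' := (Nat.div_add_mod r q1).symm
      have hr'lt : r' < q1 := Nat.mod_lt _ hq1
      have hidx : ∀ n, q1 * Q * n + r = q1 * (Q * n + a) + r' := by
        intro n; rw [hr]; ring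
      rcases h1 r' with hl | ⟨M, hM⟩
      · obtain ⟨Q', hQ'⟩ : q2 r' ∣ Q := Finset.dvd_prod_of_mem q2 (mem_range.mpr hr'lt)
        have hQ'0 : 0 < Q' := by
          rcases Nat.eq_zero_or_pos Q' with h | h
          · rw [h, mul_zero] at hQ'; omega
          · exact h
        rcases h2 r' hl a with hl2 | ⟨M, hM⟩
        · left
          intro n
          have h3 := hl2 (Q' * n)
          simp only at h3
          rw [hidx n]
          have e : ((p r')⁻¹ * p (q1 * a + r'))⁻¹ *
              ((p r')⁻¹ * p (q1 * (q2 r' * (Q' * n) + a) + r')) =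
              (p r)⁻¹ * p (q1 * (Q * n + a) + r') := by
            rw [← hr, hQ', ← mul_assoc (q2 r') Q' n]; group
          rwa [e] at h3
        · right
          refine ⟨M, fun g S hS => ?_⟩
          have hinj : Function.Injective fun n : ℕ => Q' * n :=
            fun x y hxy => Nat.eq_of_mul_eq_mul_left hQ'0 hxy
          have h3 := hM ((p r')⁻¹ * g) (S.image fun n => Q' * n) (by
            intro m hm
            obtain ⟨n, hn, rfl⟩ := mem_image.mp hm
            have h4 := hS n hn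
            rw [hidx n] at h4
            have e : ((p r')⁻¹ * g)⁻¹ * ((p r')⁻¹ * p (q1 * (q2 r' * (Q' * n) + a) + r')) =
                g⁻¹ * p (q1 * (Q * n + a) + r') := by
              rw [hQ', ← mul_assoc (q2 r') Q' n]; group
            rw [e]
            exact h4)
          rwa [card_image_of_injective _ hinj] at h3
      · right
        refine ⟨M, fun g S hS => ?_⟩
        have hinj : Function.Injective fun n : ℕ => Q * n + a := by
          intro x y hxy
          have : Q * x = Q * y := by simpa using hxy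
          exact Nat.eq_of_mul_eq_mul_left hQ0 this
        have h3 := hM g (S.image fun n => Q * n + a) (by
          intro m hm
          obtain ⟨n, hn, rfl⟩ := mem_image.mp hm
          have h4 := hS n hn
          rw [hidx n] at h4
          exact chain_mono H k h4)
        rwa [card_image_of_injective _ hinj] at h3
  obtain ⟨q, hq, h⟩ := key c le_rfl
  have e : chain H (c - c) = H := by
    unfold chain
    rw [Nat.sub_self, Subgroup.upperCentralSeries_zero, sup_bot_eq]
  rw [e] at h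
  exact ⟨q, hq, h⟩

/-- **Orbit dichotomy**: polynomial orbits of nilpotent groups are, along residue classes, constant
or of bounded multiplicity. -/
theorem orbit_dichotomy [Group.IsNilpotent G] {I : Type*} [MulAction G I] (i : I) {s : ℕ}
    {p : ℕ → G} (hp : Dv s p) :
    ∃ q : ℕ, 0 < q ∧ ∀ r : ℕ, (∀ n, p (q * n + r) • i = p r • i) ∨
      ∃ M : ℕ, ∀ (z : I) (S : Finset ℕ), (∀ n ∈ S, p (q * n + r) • i = z) → S.card ≤ M := by
  obtain ⟨q, hq, h⟩ := dichotomy (MulAction.stabilizer G i) hp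
  refine ⟨q, hq, fun r => ?_⟩
  rcases h r with h | ⟨M, hM⟩
  · left
    intro n
    have := h n
    rw [MulAction.mem_stabilizer_iff, mul_smul, inv_smul_eq_iff] at this
    exact this
  · right
    refine ⟨M, fun z S hS => ?_⟩
    rcases S.eq_empty_or_nonempty with h0 | ⟨n0, hn0⟩
    · rw [h0]; simp
    · apply hM (p (q * n0 + r)) S
      intro n hn
      rw [MulAction.mem_stabilizer_iff, mul_smul, inv_smul_eq_iff, hS n hn, hS n0 hn0]

end Pool.Lib.PolySeq
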