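import Pool.Agent.Lib.BernoulliAvg
import Pool.Agent.Lib.PolyOrbit2

set_option autoImplicit false

/-!
# Local functions along polynomial sequences in nilpotent groups permuting the coordinates
-/

open MeasureTheory Filter Topology Finset
open scoped ENNReal NNReal

namespace Pool.Lib.Erg

open Pool.Lib.PolySeq

variable {I A : Type*} [MeasurableSpace A]

/-- Bounded measurable functions depending on finitely many coordinates. -/
def IsLocal (φ : (I → A) → ℂ) : Prop :=
  Measurable φ ∧ (∃ C : ℝ, ∀ x, ‖φ x‖ ≤ C) ∧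
    ∃ F : Finset I, ∀ x y : I → A, (∀ i ∈ F, x i = y i) → φ x = φ y

/-- Dichotomy along residue classes modulo `q`. -/
def DD (F : ℕ → I) (q : ℕ) : Prop := ∀ r, (∀ n, F (q * n + r) = F r) ∨
  ∃ M : ℕ, ∀ (z : I) (S : Finset ℕ), (∀ n ∈ S, F (q * n + r) = z) → S.card ≤ M

lemma DD.mul {F : ℕ → I} {q : ℕ} (h : DD F q) (t : ℕ) (ht : 0 < t) (hq : 0 < q) :
    DD F (q * t) := by
  intro r
  set r' := r % q with hr'
  set a := r / q with ha
  have hr : r = q * a + r' := (Nat.div_add_mod r q).symm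
  have hidx : ∀ n, q * t * n + r = q * (t * n + a) + r' := by
    intro n; rw [hr]; ring
  rcases h r' with h | ⟨M, hM⟩
  · left
    intro n
    rw [hidx n, h, hr, h]
  · right
    refine ⟨M, fun z S hS => ?_⟩
    have hinj : Function.Injective fun n : ℕ => t * n + a := by
      intro x y hxy
      have : t * x = t * y := by simpa using hxy
      exact Nat.eq_of_mul_eq_mul_left ht this
    have h3 := hM z (S.image fun n => t * n + a) (by
      intro m hm
      obtain ⟨n, hn, rfl⟩ := mem_image.mp hm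
      rw [← hidx n]
      exact hS n hn)
    rwa [card_image_of_injective _ hinj] at h3

lemma DD.dvd {F : ℕ → I} {q Q : ℕ} (h : DD F q) (hq : 0 < q) (hQ : 0 < Q) (hd : q ∣ Q) :
    DD F Q := by
  obtain ⟨t, rfl⟩ := hd
  apply h.mul t _ hq
  rcases Nat.eq_zero_or_pos t with h0 | h0
  · subst h0; simp at hQ
  · exact h0

variable {α : Measure A} [IsProbabilityMeasure α]

theorem bern_local {G : Type*} [Group G] [Group.IsNilpotent G] [MulAction G I] {m : ℕ}
    (p : Fin m → ℕ → G) (D : ℕ) (hp : ∀ j, p j ∈ Subgroup.closure (monos G D))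
    (φ : Fin m → (I → A) → ℂ) (hφ : ∀ j, IsLocal (φ j)) :
    ∀ᵐ x ∂(Measure.infinitePi fun _ : I => α), ∃ L,
      Tendsto (avg fun n => ∏ j, φ j (fun i => x ((p j n)⁻¹ • i))) atTop (𝓝 L) := by
  classical
  obtain ⟨s, hs⟩ := poly_Dv (G := G) D
  choose hφm hφb F hF using hφ
  choose C hC using hφb
  obtain ⟨x0⟩ : Nonempty A := nonempty_of_isProbabilityMeasure α
  -- index type of all coordinates
  let 𝓕 : Type _ := Σ j : Fin m, {i : I // i ∈ F j}
  let c : 𝓕 → ℕ → I := fun a n => (p a.1 n)⁻¹ • a.2.1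
  have hinv : ∀ j, Dv s (fun n => (p j n)⁻¹) := fun j =>
    hs _ (Subgroup.inv_mem _ (hp j))
  have hdiv : ∀ j j', Dv s (fun n => p j' n * (p j n)⁻¹) := fun j j' =>
    hs _ (Subgroup.mul_mem _ (hp j') (Subgroup.inv_mem _ (hp j)))
  have h1 : ∀ a : 𝓕, ∃ q : ℕ, 0 < q ∧ DD (c a) q := by
    intro a
    exact orbit_dichotomy a.2.1 (hinv a.1)
  have h2 : ∀ a b : 𝓕, ∃ q : ℕ, 0 < q ∧
      DD (fun n => (p b.1 n * (p a.1 n)⁻¹) • a.2.1) q := by
    intro a b
    exact orbit_dichotomy a.2.1 (hdiv a.1 b.1)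
  choose q1 hq1 hD1 using h1
  choose q2 hq2 hD2 using h2
  set Q : ℕ := (∏ a, q1 a) * ∏ a, ∏ b, q2 a b with hQ
  have hQ0 : 0 < Q := by
    apply Nat.mul_pos
    · exact Finset.prod_pos fun a _ => hq1 a
    · exact Finset.prod_pos fun a _ => Finset.prod_pos fun b _ => hq2 a b
  have hE1 : ∀ a, DD (c a) Q := by
    intro a
    apply (hD1 a).dvd (hq1 a) hQ0
    exact (Finset.dvd_prod_of_mem q1 (mem_univ a)).mul_right _
  have hE2 : ∀ a b : 𝓕, DD (fun n => (p b.1 n * (p a.1 n)⁻¹) • a.2.1) Q := by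
    intro a b
    apply (hD2 a b).dvd (hq2 a b) hQ0
    apply Dvd.dvd.mul_left
    exact (Finset.dvd_prod_of_mem (q2 a) (mem_univ b)).trans
      (Finset.dvd_prod_of_mem (fun a => ∏ b, q2 a b) (mem_univ a))
  have hbd : ∀ (x : I → A) (n : ℕ), ‖∏ j, φ j (fun i => x ((p j n)⁻¹ • i))‖ ≤ ∏ j, C j := by
    intro x n
    rw [norm_prod]
    exact Finset.prod_le_prod (fun _ _ => norm_nonneg _) fun j _ => hC j _
  -- the function of the coordinates
  let Ψ : (𝓕 → A) → ℂ := fun y => ∏ j, φ j (fun i => if h : i ∈ F j then y ⟨j, i, h⟩ else x0)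
  have hΨ : Measurable Ψ := by
    apply Finset.measurable_fun_prod
    intro j _
    apply (hφm j).comp
    rw [measurable_pi_iff]
    intro i
    by_cases h : i ∈ F j
    · simp only [dif_pos h]; fun_prop
    · simp only [dif_neg h]; exact measurable_const
  have hΨb : ∀ y, ‖Ψ y‖ ≤ ∏ j, C j := by
    intro y
    simp only [Ψ]
    rw [norm_prod]
    exact Finset.prod_le_prod (fun _ _ => norm_nonneg _) fun j _ => hC j _
  have hΨe : ∀ (x : I → A) (n : ℕ), ∏ j, φ j (fun i => x ((p j n)⁻¹ • i)) =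
      Ψ (fun a => x (c a n)) := by
    intro x n
    simp only [Ψ]
    apply Finset.prod_congr rfl
    intro j _
    apply hF j
    intro i hi
    rw [dif_pos hi]
  have hres : ∀ r : ℕ, ∀ᵐ x ∂(Measure.infinitePi fun _ : I => α), ∃ L,
      Tendsto (avg fun n => Ψ (fun a => x (c a (Q * n + r)))) atTop (𝓝 L) := by
    intro r
    apply local_avg α (fun a n => c a (Q * n + r)) _ _ hΨ hΨb
    · intro a
      rcases hE1 a r with h | h
      · left
        intro n
        rw [h n, Nat.mul_zero, zero_add]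
      · exact Or.inr h
    · intro a b
      rcases hE2 a b r with h | ⟨M, hM⟩
      · by_cases hab : (p b.1 r * (p a.1 r)⁻¹) • a.2.1 = b.2.1
        · left
          intro n
          have h3 := h n
          simp only at h3
          rw [hab, mul_smul, ← eq_inv_smul_iff] at h3
          exact h3
        · right
          refine ⟨0, fun S hS => ?_⟩
          rw [Nat.le_zero, Finset.card_eq_zero]
          by_contra hne
          obtain ⟨n, hn⟩ := Finset.nonempty_iff_ne_empty.mpr hne
          apply hab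
          have h3 := h n
          simp only at h3
          rw [← h3, mul_smul]
          have h4 : (p a.1 (Q * n + r))⁻¹ • a.2.1 = (p b.1 (Q * n + r))⁻¹ • b.2.1 := hS n hn
          rw [h4, smul_inv_smul]
      · right
        refine ⟨M, fun S hS => hM b.2.1 S fun n hn => ?_⟩
        have h4 : (p a.1 (Q * n + r))⁻¹ • a.2.1 = (p b.1 (Q * n + r))⁻¹ • b.2.1 := hS n hn
        show (p b.1 (Q * n + r) * (p a.1 (Q * n + r))⁻¹) • a.2.1 = b.2.1
        rw [mul_smul, h4, smul_inv_smul]
  rw [← ae_all_iff] at hres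
  filter_upwards [hres] with x hx
  apply avg_residue _ _ (hbd x) Q hQ0
  intro r _
  obtain ⟨L, hL⟩ := hx r
  refine ⟨L, hL.congr fun N => ?_⟩
  congr 1
  funext n
  rw [hΨe]

end Pool.Lib.Erg
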