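import Mathlib

/-!
# The prime ideal sum of a number field near `s = 1`

`Σ_P N(P)^{-s} = log (1/(s-1)) + O(1)` as `s → 1+`.
-/

open NumberField IsDedekindDomain Filter Topology Finset

namespace Pool.Agent.Lib.Dedekind

variable (F : Type*) [Field F] [NumberField F]

/-- the weight `N(I)^{-s}` -/
noncomputable def wt (s : ℝ) (I : Ideal (𝓞 F)) : ℝ := (Ideal.absNorm I : ℝ) ^ (-s)

variable {F}

lemma wt_nonneg (s : ℝ) (I : Ideal (𝓞 F)) : 0 ≤ wt F s I := by unfold wt; positivity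

lemma wt_bot {s : ℝ} (hs : 0 < s) : wt F s ⊥ = 0 := by
  unfold wt
  rw [Ideal.absNorm_bot, Nat.cast_zero, Real.zero_rpow (by linarith)]

lemma wt_top (s : ℝ) : wt F s ⊤ = 1 := by
  unfold wt
  rw [Ideal.absNorm_top, Nat.cast_one, Real.one_rpow]

lemma wt_mul (s : ℝ) (I J : Ideal (𝓞 F)) : wt F s (I * J) = wt F s I * wt F s J := by
  unfold wt
  rw [map_mul, Nat.cast_mul, Real.mul_rpow (by positivity) (by positivity)]

variable (F) in
/-- number of ideals of given norm -/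
noncomputable def cnt (n : ℕ) : ℕ := Nat.card {I : Ideal (𝓞 F) // Ideal.absNorm I = n}

variable (F) in
lemma tendsto_cnt : Tendsto (fun n : ℕ ↦ (∑ k ∈ Icc 1 n, (cnt F k : ℝ)) / (n : ℝ)) atTop
    (𝓝 (dedekindZeta_residue F)) := by
  refine ((Ideal.tendsto_norm_le_div_atTop₀ F).comp tendsto_natCast_atTop_atTop).congr fun n ↦ ?_
  simp only [Function.comp_apply, Nat.cast_le, ← Nat.cast_sum, cnt]
  congr
  rw [← add_left_inj 1, ← Ideal.card_norm_le_eq_card_norm_le_add_one,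
    show Finset.Icc 1 n = Finset.Ioc 0 n from Finset.Icc_succ_left_eq_Ioc _ _,
    show 1 = Nat.card {I : Ideal (𝓞 F) // Ideal.absNorm I = 0} by simp [Ideal.absNorm_eq_zero_iff],
    Finset.sum_Ioc_add_eq_sum_Icc (n.zero_le),
    ← Finset.card_preimage_eq_sum_card_image_eq (fun k _ ↦ Ideal.finite_setOfPred_absNorm_eq k)]
  simp [Set.coe_eq_subtype]

lemma summable_cnt {s : ℝ} (hs : 1 < s) : Summable (fun n : ℕ ↦ (cnt F n : ℝ) * (n : ℝ) ^ (-s)) := by
  have h1 : LSeriesSummable (fun n ↦ ((cnt F n : ℝ) : ℂ)) (s : ℂ) := by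
    refine LSeriesSummable_of_sum_norm_bigO_and_nonneg (r := 1) ?_ (fun n ↦ Nat.cast_nonneg _)
      zero_le_one (by simpa using hs)
    exact Asymptotics.isBigO_atTop_natCast_rpow_of_tendsto_div_rpow (by simpa using tendsto_cnt F)
  have h2 := h1.norm
  refine h2.congr (fun n ↦ ?_)
  rcases Nat.eq_zero_or_pos n with rfl | hn
  · rw [LSeries.term_zero]
    simp only [norm_zero, Nat.cast_zero]
    rw [Real.zero_rpow (by linarith), mul_zero]
  · rw [LSeries.term_of_ne_zero hn.ne']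
    rw [norm_div, Complex.norm_real, Complex.norm_natCast_cpow_of_pos hn, Complex.ofReal_re,
      Real.norm_of_nonneg (Nat.cast_nonneg _), Real.rpow_neg (Nat.cast_nonneg _), div_eq_mul_inv]

lemma fiber_sum (s : ℝ) (n : ℕ) :
    Summable (fun y : {I : Ideal (𝓞 F) // Ideal.absNorm I = n} ↦ wt F s y.1) ∧
    ∑' y : {I : Ideal (𝓞 F) // Ideal.absNorm I = n}, wt F s y.1 = (cnt F n : ℝ) * (n : ℝ) ^ (-s) := by
  have hfin : Finite {I : Ideal (𝓞 F) // Ideal.absNorm I = n} :=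
    (Ideal.finite_setOfPred_absNorm_eq n).to_subtype
  have : Fintype {I : Ideal (𝓞 F) // Ideal.absNorm I = n} := Fintype.ofFinite _
  refine ⟨Summable.of_finite, ?_⟩
  rw [tsum_fintype]
  have : ∀ y : {I : Ideal (𝓞 F) // Ideal.absNorm I = n}, wt F s y.1 = (n : ℝ) ^ (-s) := by
    intro y; unfold wt; rw [y.2]
  rw [Finset.sum_congr rfl (fun y _ ↦ this y), Finset.sum_const, nsmul_eq_mul, Finset.card_univ, cnt,
    Nat.card_eq_fintype_card]

lemma summable_wt {s : ℝ} (hs : 1 < s) : Summable (wt F s) := by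
  rw [← (Equiv.sigmaFiberEquiv (Ideal.absNorm : Ideal (𝓞 F) → ℕ)).summable_iff]
  refine (summable_sigma_of_nonneg (fun x ↦ wt_nonneg s _)).2 ?_
  refine ⟨fun n ↦ (fiber_sum s n).1, ?_⟩
  refine (summable_cnt (F := F) hs).congr (fun n ↦ ?_)
  exact ((fiber_sum s n).2).symm

variable (F) in
/-- the Dedekind zeta function at real `s > 1` as a sum over ideals -/
noncomputable def ZZ (s : ℝ) : ℝ := ∑' I : Ideal (𝓞 F), wt F s I

lemma ZZ_eq {s : ℝ} (hs : 1 < s) : ZZ F s = ∑' n : ℕ, (cnt F n : ℝ) * (n : ℝ) ^ (-s) := by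
  unfold ZZ
  rw [← (Equiv.sigmaFiberEquiv (Ideal.absNorm : Ideal (𝓞 F) → ℕ)).tsum_eq]
  refine (Summable.tsum_sigma (((Equiv.sigmaFiberEquiv (Ideal.absNorm : Ideal (𝓞 F) → ℕ)).summable_iff).2
    (summable_wt hs))).trans ?_
  exact tsum_congr (fun n ↦ (fiber_sum s n).2)

lemma dedekindZeta_eq {s : ℝ} (hs : 1 < s) : dedekindZeta F (s : ℂ) = ((ZZ F s : ℝ) : ℂ) := by
  rw [ZZ_eq hs, Complex.ofReal_tsum]
  unfold dedekindZeta LSeries
  refine tsum_congr (fun n ↦ ?_)
  rcases Nat.eq_zero_or_pos n with rfl | hn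
  · rw [LSeries.term_zero]
    rw [Nat.cast_zero, Real.zero_rpow (by linarith), mul_zero, Complex.ofReal_zero]
  · rw [LSeries.term_of_ne_zero hn.ne']
    rw [Complex.ofReal_mul, Complex.ofReal_cpow (Nat.cast_nonneg _), Complex.ofReal_neg,
      Complex.cpow_neg, div_eq_mul_inv]
    simp [cnt]

variable (F) in
lemma tendsto_ZZ : Tendsto (fun s : ℝ ↦ (s - 1) * ZZ F s) (𝓝[>] 1) (𝓝 (dedekindZeta_residue F)) := by
  have h := tendsto_sub_one_mul_dedekindZeta_nhdsGT F
  have h2 := (Complex.continuous_re.tendsto _).comp h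
  rw [Complex.ofReal_re] at h2
  refine h2.congr' ?_
  filter_upwards [self_mem_nhdsWithin] with s hs
  simp only [Function.comp_apply]
  rw [dedekindZeta_eq hs, ← Complex.ofReal_one, ← Complex.ofReal_sub, ← Complex.ofReal_mul,
    Complex.ofReal_re]

/-! ### Euler product -/

open Classical in
/-- the weight restricted to ideals prime to `S` -/
noncomputable def fS (s : ℝ) (S : Finset (HeightOneSpectrum (𝓞 F))) (I : Ideal (𝓞 F)) : ℝ :=
  if ∀ P ∈ S, ¬ (P.asIdeal ∣ I) then wt F s I else 0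

lemma fS_nonneg (s : ℝ) (S : Finset (HeightOneSpectrum (𝓞 F))) (I : Ideal (𝓞 F)) : 0 ≤ fS s S I := by
  unfold fS; split_ifs
  · exact wt_nonneg _ _
  · exact le_rfl

lemma fS_le (s : ℝ) (S : Finset (HeightOneSpectrum (𝓞 F))) (I : Ideal (𝓞 F)) :
    fS s S I ≤ wt F s I := by
  unfold fS; split_ifs
  · exact le_rfl
  · exact wt_nonneg _ _

lemma summable_fS {s : ℝ} (hs : 1 < s) (S : Finset (HeightOneSpectrum (𝓞 F))) : Summable (fS s S) :=
  Summable.of_nonneg_of_le (fS_nonneg s S) (fS_le s S) (summable_wt hs)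

lemma fS_mul {s : ℝ} {S : Finset (HeightOneSpectrum (𝓞 F))} {P : HeightOneSpectrum (𝓞 F)}
    (hP : P ∉ S) (J : Ideal (𝓞 F)) : fS s S (P.asIdeal * J) = wt F s P.asIdeal * fS s S J := by
  have h : (∀ Q ∈ S, ¬ (Q.asIdeal ∣ P.asIdeal * J)) ↔ (∀ Q ∈ S, ¬ (Q.asIdeal ∣ J)) := by
    refine forall₂_congr (fun Q hQ ↦ not_congr ⟨fun hd ↦ ?_, fun hd ↦ hd.mul_left _⟩)
    rcases Q.prime.dvd_or_dvd hd with h1 | h1
    · exfalso
      have h2 : P.asIdeal ≤ Q.asIdeal := Ideal.dvd_iff_le.1 h1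
      have h3 : P.asIdeal = Q.asIdeal := P.isMaximal.eq_of_le Q.isPrime.ne_top h2
      have : P = Q := HeightOneSpectrum.ext h3
      exact hP (this ▸ hQ)
    · exact h1
  unfold fS
  by_cases h1 : ∀ Q ∈ S, ¬ (Q.asIdeal ∣ J)
  · rw [if_pos h1, if_pos (h.2 h1), wt_mul]
  · rw [if_neg h1, if_neg (fun h2 ↦ h1 (h.1 h2)), mul_zero]

lemma tsum_fS_insert {s : ℝ} (hs : 1 < s) {S : Finset (HeightOneSpectrum (𝓞 F))}
    {P : HeightOneSpectrum (𝓞 F)} (hP : P ∉ S) [DecidableEq (HeightOneSpectrum (𝓞 F))] :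
    ∑' I, fS s (insert P S) I = (1 - wt F s P.asIdeal) * ∑' I, fS s S I := by
  classical
  have hinj : Function.Injective (fun J : Ideal (𝓞 F) ↦ P.asIdeal * J) :=
    fun J J' h ↦ mul_left_cancel₀ P.ne_bot h
  have h1 : ∑' I, (fS s S I - fS s (insert P S) I) = wt F s P.asIdeal * ∑' I, fS s S I := by
    rw [← tsum_mul_left, ← hinj.tsum_eq]
    · refine tsum_congr (fun J ↦ ?_)
      have h2 : fS s (insert P S) (P.asIdeal * J) = 0 := by
        unfold fS
        rw [if_neg]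
        intro h
        exact h P (Finset.mem_insert_self _ _) (dvd_mul_right _ _)
      rw [h2, sub_zero, fS_mul hP]
    · intro I hI
      by_contra hcon
      apply hI
      have h3 : ¬ (P.asIdeal ∣ I) := by
        rintro ⟨J, rfl⟩
        exact hcon ⟨J, rfl⟩
      change fS s S I - fS s (insert P S) I = 0
      unfold fS
      by_cases h4 : ∀ Q ∈ S, ¬ (Q.asIdeal ∣ I)
      · rw [if_pos h4, if_pos, sub_self]
        intro Q hQ
        rcases Finset.mem_insert.1 hQ with rfl | hQ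
        · exact h3
        · exact h4 Q hQ
      · rw [if_neg h4, if_neg, sub_self]
        intro h5
        exact h4 (fun Q hQ ↦ h5 Q (Finset.mem_insert_of_mem hQ))
  rw [Summable.tsum_sub (summable_fS hs S) (summable_fS hs _)] at h1
  linear_combination -h1

lemma prod_eq {s : ℝ} (hs : 1 < s) (S : Finset (HeightOneSpectrum (𝓞 F))) :
    ∑' I, fS s S I = (∏ P ∈ S, (1 - wt F s P.asIdeal)) * ZZ F s := by
  classical
  induction S using Finset.induction_on with
  | empty =>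
    rw [Finset.prod_empty, one_mul]
    unfold ZZ
    refine tsum_congr (fun I ↦ ?_)
    unfold fS; simp
  | insert P S hP ih => rw [tsum_fS_insert hs hP, ih, Finset.prod_insert hP]; ring

lemma tendsto_fS {s : ℝ} (hs : 1 < s) :
    Tendsto (fun S : Finset (HeightOneSpectrum (𝓞 F)) ↦ ∑' I, fS s S I) atTop (𝓝 1) := by
  classical
  have h1 : ∑' I : Ideal (𝓞 F), (if I = ⊤ then (1:ℝ) else 0) = 1 := by
    rw [tsum_ite_eq]
  rw [← h1]
  refine tendsto_tsum_of_dominated_convergence (summable_wt hs) (fun I ↦ ?_)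
    (Eventually.of_forall fun S I ↦ by rw [Real.norm_of_nonneg (fS_nonneg _ _ _)]; exact fS_le _ _ _)
  by_cases hI : I = ⊤
  · rw [if_pos hI]
    refine tendsto_const_nhds.congr (fun S ↦ ?_)
    rw [hI]
    unfold fS
    rw [if_pos, wt_top]
    intro P _ h
    exact P.isPrime.ne_top (top_le_iff.1 (Ideal.dvd_iff_le.1 h))
  · rw [if_neg hI]
    by_cases hI0 : I = ⊥
    · refine tendsto_const_nhds.congr (fun S ↦ ?_)
      have := fS_le s S I
      rw [hI0, wt_bot (by linarith)] at this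
      rw [hI0]
      exact (le_antisymm this (fS_nonneg _ _ _)).symm
    · obtain ⟨M, hM, hIM⟩ := Ideal.exists_le_maximal I hI
      have hM0 : M ≠ ⊥ := by
        rintro rfl
        exact hI0 (le_bot_iff.1 hIM)
      let P : HeightOneSpectrum (𝓞 F) := ⟨M, hM.isPrime, hM0⟩
      refine tendsto_const_nhds.congr' ?_
      filter_upwards [eventually_ge_atTop {P}] with S hS
      unfold fS
      rw [if_neg]
      intro h
      exact h P (hS (Finset.mem_singleton_self P)) (Ideal.dvd_iff_le.2 hIM)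

lemma absNorm_ge_two (P : HeightOneSpectrum (𝓞 F)) : 2 ≤ Ideal.absNorm P.asIdeal := by
  have h0 : Ideal.absNorm P.asIdeal ≠ 0 := by
    rw [Ne, Ideal.absNorm_eq_zero_iff]; exact P.ne_bot
  have h1 : Ideal.absNorm P.asIdeal ≠ 1 := by
    rw [Ne, Ideal.absNorm_eq_one_iff]; exact P.isPrime.ne_top
  omega

lemma wt_le_half {s : ℝ} (hs : 1 ≤ s) (P : HeightOneSpectrum (𝓞 F)) : wt F s P.asIdeal ≤ 1 / 2 := by
  have h2 : (2:ℝ) ≤ Ideal.absNorm P.asIdeal := by exact_mod_cast absNorm_ge_two P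
  unfold wt
  calc (Ideal.absNorm P.asIdeal : ℝ) ^ (-s) ≤ (Ideal.absNorm P.asIdeal : ℝ) ^ (-1 : ℝ) :=
        Real.rpow_le_rpow_of_exponent_le (by linarith) (by linarith)
    _ = (Ideal.absNorm P.asIdeal : ℝ)⁻¹ := Real.rpow_neg_one _
    _ ≤ (2:ℝ)⁻¹ := inv_anti₀ (by norm_num) h2
    _ = 1 / 2 := by norm_num

lemma ZZ_pos {s : ℝ} (hs : 1 < s) : 0 < ZZ F s := by
  have h := (summable_wt (F := F) hs).le_tsum ⊤ (fun I _ ↦ wt_nonneg _ _)
  rw [wt_top] at h
  unfold ZZ
  linarith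

lemma hasSum_log {s : ℝ} (hs : 1 < s) :
    HasSum (fun P : HeightOneSpectrum (𝓞 F) ↦ -Real.log (1 - wt F s P.asIdeal))
      (Real.log (ZZ F s)) := by
  have h1 := tendsto_fS (F := F) hs
  have h2 : Tendsto (fun S : Finset (HeightOneSpectrum (𝓞 F)) ↦ Real.log (∑' I, fS s S I)) atTop
      (𝓝 (Real.log 1)) := h1.log one_ne_zero
  rw [Real.log_one] at h2
  have h3 := h2.const_sub (Real.log (ZZ F s))
  rw [sub_zero] at h3
  unfold HasSum
  rw [SummationFilter.unconditional_filter]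
  refine h3.congr (fun S ↦ ?_)
  have hpos : ∀ P ∈ S, (0:ℝ) < 1 - wt F s P.asIdeal := by
    intro P _
    have := wt_le_half (F := F) hs.le P
    linarith
  rw [prod_eq hs, Real.log_mul (Finset.prod_pos hpos).ne' (ZZ_pos hs).ne',
    Real.log_prod (fun P hP ↦ (hpos P hP).ne'), Finset.sum_neg_distrib]
  ring

variable (F) in
/-- the sum over the primes -/
noncomputable def LP (s : ℝ) : ℝ := ∑' P : HeightOneSpectrum (𝓞 F), wt F s P.asIdeal

lemma summable_wt_prime {s : ℝ} (hs : 1 < s) :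
    Summable (fun P : HeightOneSpectrum (𝓞 F) ↦ wt F s P.asIdeal) :=
  (summable_wt (F := F) hs).comp_injective (i := fun P : HeightOneSpectrum (𝓞 F) ↦ P.asIdeal)
    (fun _ _ h ↦ HeightOneSpectrum.ext h)

lemma log_sub_le {x : ℝ} (h0 : 0 ≤ x) (h1 : x ≤ 1 / 2) : |-Real.log (1 - x) - x| ≤ 2 * x ^ 2 := by
  have h := Real.abs_log_sub_add_sum_range_le (x := x) (by rw [abs_of_nonneg h0]; linarith) 1
  simp only [Finset.sum_range_one, zero_add, pow_one, Nat.cast_zero, div_one] at h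
  have e : -Real.log (1 - x) - x = -(x + Real.log (1 - x)) := by ring
  rw [e, abs_neg]
  refine h.trans ?_
  rw [abs_of_nonneg h0, div_le_iff₀ (by linarith)]
  norm_num
  nlinarith [sq_nonneg x]

variable (F) in
/-- **`Σ_P N(P)^{-s} = log (1/(s-1)) + O(1)`** -/
theorem LP_log : ∃ C : ℝ, ∀ᶠ s in 𝓝[>] (1:ℝ), |LP F s - Real.log (1 / (s - 1))| ≤ C := by
  have hρ := dedekindZeta_residue_pos F
  have h1 := (tendsto_ZZ F).log hρ.ne'
  have h2 : ∀ᶠ s in 𝓝[>] (1:ℝ), |Real.log ((s - 1) * ZZ F s)| ≤ |Real.log (dedekindZeta_residue F)| + 1 := by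
    have h3 := h1.abs
    exact h3.eventually (ge_mem_nhds (by linarith))
  refine ⟨|Real.log (dedekindZeta_residue F)| + 1 + 2 * ZZ F 2, ?_⟩
  filter_upwards [h2, self_mem_nhdsWithin] with s hs hs1
  have hs1' : (1:ℝ) < s := hs1
  have hsub : 0 < s - 1 := by linarith
  have h4 : |Real.log (ZZ F s) - LP F s| ≤ 2 * ZZ F 2 := by
    rw [← (hasSum_log (F := F) hs1').tsum_eq, LP,
      ← Summable.tsum_sub (hasSum_log (F := F) hs1').summable (summable_wt_prime hs1'),
      ← Real.norm_eq_abs]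
    have h5 : Summable (fun P : HeightOneSpectrum (𝓞 F) ↦ 2 * wt F 2 P.asIdeal) :=
      (summable_wt_prime (F := F) (by norm_num)).mul_left 2
    refine (tsum_of_norm_bounded h5.hasSum (fun P ↦ ?_)).trans ?_
    · rw [Real.norm_eq_abs]
      refine (log_sub_le (wt_nonneg _ _) (wt_le_half hs1'.le P)).trans ?_
      apply mul_le_mul_of_nonneg_left _ (by norm_num)
      have hN : (2:ℝ) ≤ Ideal.absNorm P.asIdeal := by exact_mod_cast absNorm_ge_two P
      unfold wt
      rw [← Real.rpow_natCast, ← Real.rpow_mul (by positivity)]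
      apply Real.rpow_le_rpow_of_exponent_le (by linarith)
      push_cast; linarith
    · rw [tsum_mul_left]
      apply mul_le_mul_of_nonneg_left _ (by norm_num)
      unfold ZZ
      exact (summable_wt_prime (F := F) (by norm_num)).tsum_le_tsum_of_inj
        (fun P : HeightOneSpectrum (𝓞 F) ↦ P.asIdeal) (fun _ _ h ↦ HeightOneSpectrum.ext h)
        (fun I _ ↦ wt_nonneg _ _) (fun P ↦ le_rfl) (summable_wt (by norm_num))
  have h6 : Real.log ((s - 1) * ZZ F s) = Real.log (ZZ F s) - Real.log (1 / (s - 1)) := by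
    rw [Real.log_mul hsub.ne' (ZZ_pos hs1').ne', one_div, Real.log_inv]; ring
  rw [h6] at hs
  have e : LP F s - Real.log (1 / (s - 1))
      = (Real.log (ZZ F s) - Real.log (1 / (s - 1))) - (Real.log (ZZ F s) - LP F s) := by ring
  rw [e]
  exact (abs_sub _ _).trans (add_le_add hs h4)

end Pool.Agent.Lib.Dedekind
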