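import Pool.Agent.Lib.ErgodicAverages

set_option autoImplicit false

/-!
# More tools for pointwise convergence of averages

* `avg_zero_of_L2_pow` : a power saving in the second moments gives averages tending to zero.
* `int_sq_le_pairs` : second moments bounded by the number of correlated pairs.
* `multi_closure2` : closure principle with different classes of functions in different slots.
* `avg_shift` : finitely many terms do not matter.
-/

open MeasureTheory Filter Topology Finset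
open scoped ENNReal NNReal ComplexConjugate

namespace Pool.Lib.Erg

/-- Averages along a subsequence with ratios tending to one control all averages. -/
lemma tendsto_of_subseq (a : ℕ → ℂ) (C : ℝ) (ha : ∀ n, ‖a n‖ ≤ C) (b : ℕ → ℕ)
    (hb : StrictMono b) (hb0 : 0 < b 0)
    (hr : Tendsto (fun k => ((b (k + 1) : ℝ) - b k) / b k) atTop (𝓝 0))
    (h : Tendsto (fun k => avg a (b k)) atTop (𝓝 0)) : Tendsto (avg a) atTop (𝓝 0) := by
  have hC : 0 ≤ C := (norm_nonneg _).trans (ha 0)
  set s : ℕ → ℕ := fun N => Nat.findGreatest (fun k => b k ≤ N) N with hs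
  have hs1 : ∀ N, b 0 ≤ N → b (s N) ≤ N := by
    intro N hN
    exact Nat.findGreatest_spec (P := fun k => b k ≤ N) (Nat.zero_le N) hN
  have hs2 : ∀ N, N < b (s N + 1) := by
    intro N
    by_contra hcon
    push Not at hcon
    have h1 : s N + 1 ≤ N := (hb.le_apply).trans hcon
    have h2 : s N + 1 ≤ s N := Nat.le_findGreatest (P := fun k => b k ≤ N) h1 hcon
    omega
  have hst : Tendsto s atTop atTop := by
    rw [tendsto_atTop_atTop]
    intro k
    refine ⟨b k, fun N hN => ?_⟩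
    exact Nat.le_findGreatest ((hb.le_apply).trans hN) hN
  have h1 : Tendsto (fun N => ‖avg a (b (s N))‖) atTop (𝓝 0) :=
    tendsto_zero_iff_norm_tendsto_zero.mp (h.comp hst)
  have h2 : Tendsto (fun N => C * (((b (s N + 1) : ℝ) - b (s N)) / b (s N))) atTop (𝓝 0) := by
    have := (hr.comp hst).const_mul C
    simpa using this
  have h3 := h1.add h2
  rw [add_zero] at h3
  apply squeeze_zero_norm' _ h3
  filter_upwards [eventually_ge_atTop (b 0)] with N hN
  have hN0 : (0 : ℝ) < N := by exact_mod_cast lt_of_lt_of_le hb0 hN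
  have hle := hs1 N hN
  have hlt := hs2 N
  set M := b (s N) with hM
  have hM0 : 0 < M := lt_of_lt_of_le hb0 (hb.monotone (Nat.zero_le _))
  have hMr : (0 : ℝ) < M := by exact_mod_cast hM0
  have hsum : ∑ n ∈ range N, a n = ∑ n ∈ range M, a n + ∑ n ∈ Finset.Ico M N, a n := by
    rw [Finset.sum_range_add_sum_Ico _ hle]
  have b0 : ‖∑ n ∈ range M, a n‖ = (M : ℝ) * ‖avg a M‖ := by
    unfold avg
    rw [norm_mul, norm_inv, Complex.norm_natCast]
    field_simp
  have b1 : ‖∑ n ∈ Finset.Ico M N, a n‖ ≤ ((b (s N + 1) : ℝ) - M) * C := by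
    calc _ ≤ ∑ n ∈ Finset.Ico M N, ‖a n‖ := norm_sum_le _ _
      _ ≤ ∑ _n ∈ Finset.Ico M N, C := Finset.sum_le_sum fun n _ => ha n
      _ = ((N - M : ℕ) : ℝ) * C := by simp
      _ ≤ _ := by
          apply mul_le_mul_of_nonneg_right _ hC
          rw [Nat.cast_sub hle]
          have : (N : ℝ) ≤ b (s N + 1) := by exact_mod_cast hlt.le
          linarith
  have e : ‖avg a N‖ = (N : ℝ)⁻¹ * ‖∑ n ∈ range N, a n‖ := by
    unfold avg
    rw [norm_mul, norm_inv, Complex.norm_natCast]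
  have hcast : (M : ℝ) ≤ N := by exact_mod_cast hle
  have hnn : 0 ≤ ((b (s N + 1) : ℝ) - M) := by
    have : (M : ℝ) ≤ b (s N + 1) := by exact_mod_cast (hle.trans hlt.le)
    linarith
  rw [e, hsum, inv_mul_le_iff₀ hN0]
  calc _ ≤ ‖∑ n ∈ range M, a n‖ + ‖∑ n ∈ Finset.Ico M N, a n‖ := norm_add_le _ _
    _ ≤ (M : ℝ) * ‖avg a M‖ + ((b (s N + 1) : ℝ) - M) * C := by rw [b0]; linarith
    _ ≤ N * ‖avg a M‖ + N * (C * (((b (s N + 1) : ℝ) - M) / M)) := by
        apply add_le_add
        · exact mul_le_mul_of_nonneg_right hcast (norm_nonneg _)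
        · have : ((b (s N + 1) : ℝ) - M) * C = M * (C * (((b (s N + 1) : ℝ) - M) / M)) := by
            field_simp
          rw [this]
          exact mul_le_mul_of_nonneg_right hcast (by positivity)
    _ = N * (‖avg a M‖ + C * (((b (s N + 1) : ℝ) - M) / M)) := by ring

lemma pow_ratio (p : ℕ) : Tendsto (fun k : ℕ => (((((k + 1) + 1) ^ p : ℕ) : ℝ) -
    (((k + 1) ^ p : ℕ) : ℝ)) / (((k + 1) ^ p : ℕ) : ℝ)) atTop (𝓝 0) := by
  have h1 : Tendsto (fun k : ℕ => (1 + 1 / ((k : ℝ) + 1)) ^ p - 1) atTop (𝓝 0) := by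
    have h2 : Tendsto (fun k : ℕ => 1 / ((k : ℝ) + 1)) atTop (𝓝 0) :=
      tendsto_one_div_add_atTop_nhds_zero_nat
    have h3 := ((h2.const_add 1).pow p).sub_const 1
    simpa using h3
  refine h1.congr fun k => ?_
  have : (0 : ℝ) < (k : ℝ) + 1 := by positivity
  push_cast
  rw [sub_div, div_self (by positivity), ← div_pow]
  congr 2
  field_simp

variable {X : Type*} [MeasurableSpace X] {μ : Measure X}

/-- A bounded sequence whose second moments have a power saving has averages tending to zero. -/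
theorem avg_zero_of_L2_pow [IsFiniteMeasure μ] (Y : ℕ → X → ℂ) (C : ℝ)
    (hY : ∀ n, AEStronglyMeasurable (Y n) μ) (hYb : ∀ᵐ x ∂μ, ∀ n, ‖Y n x‖ ≤ C) (p : ℕ)
    (hp : 1 ≤ p) (K : ℝ)
    (hK : ∀ k : ℕ, ∫ x, ‖∑ n ∈ range ((k + 1) ^ p), Y n x‖ ^ 2 ∂μ ≤
      K * ((((k + 1) ^ p : ℕ) : ℝ) ^ 2 / ((k : ℝ) + 1) ^ 2)) :
    ∀ᵐ x ∂μ, Tendsto (avg fun n => Y n x) atTop (𝓝 0) := by
  have hmeas : ∀ N : ℕ, AEStronglyMeasurable (fun x => ∑ n ∈ range N, Y n x) μ := fun N =>
    Finset.aestronglyMeasurable_fun_sum _ fun n _ => hY n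
  set Z : ℕ → X → ℝ≥0∞ := fun k x => ENNReal.ofReal (‖avg (fun n => Y n x) ((k + 1) ^ p)‖ ^ 2)
    with hZ
  have hZm : ∀ k, AEMeasurable (Z k) μ := by
    intro k
    apply AEMeasurable.ennreal_ofReal
    have : AEStronglyMeasurable (fun x => avg (fun n => Y n x) ((k + 1) ^ p)) μ := by
      unfold avg
      exact (hmeas _).const_mul _
    exact (this.norm.aemeasurable).pow_const 2
  have hint : ∀ N : ℕ, Integrable (fun x => ‖∑ n ∈ range N, Y n x‖ ^ 2) μ := by
    intro N
    apply Integrable.of_bound ((hmeas N).norm.pow 2) ((N * C) ^ 2)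
    filter_upwards [hYb] with x hx
    have hsq : ‖((fun x => ‖∑ n ∈ range N, Y n x‖) ^ 2) x‖ = ‖∑ n ∈ range N, Y n x‖ ^ 2 := by
      rw [Pi.pow_apply, norm_pow, norm_norm]
    rw [hsq]
    apply pow_le_pow_left₀ (norm_nonneg _)
    calc _ ≤ ∑ n ∈ range N, ‖Y n x‖ := norm_sum_le _ _
      _ ≤ ∑ _n ∈ range N, C := Finset.sum_le_sum fun n _ => hx n
      _ = N * C := by simp
  have hZi : ∀ k : ℕ, ∫⁻ x, Z k x ∂μ ≤ ENNReal.ofReal (|K| * (1 / ((k : ℝ) + 1) ^ 2)) := by
    intro k
    have hpos : (0 : ℝ) < (((k + 1) ^ p : ℕ) : ℝ) := by positivity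
    have e : ∀ x, Z k x = ENNReal.ofReal
        (((((k + 1) ^ p : ℕ) : ℝ)⁻¹) ^ 2 * ‖∑ n ∈ range ((k + 1) ^ p), Y n x‖ ^ 2) := by
      intro x
      rw [hZ]
      simp only [avg]
      rw [norm_mul, norm_inv, Complex.norm_natCast, mul_pow]
    simp_rw [e]
    rw [← ofReal_integral_eq_lintegral_ofReal ((hint _).const_mul _)
      (Eventually.of_forall fun x => mul_nonneg (sq_nonneg _) (sq_nonneg _)), integral_const_mul]
    apply ENNReal.ofReal_le_ofReal
    calc _ ≤ ((((k + 1) ^ p : ℕ) : ℝ)⁻¹) ^ 2 *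
          (|K| * ((((k + 1) ^ p : ℕ) : ℝ) ^ 2 / ((k : ℝ) + 1) ^ 2)) := by
          apply mul_le_mul_of_nonneg_left _ (by positivity)
          exact (hK _).trans (mul_le_mul_of_nonneg_right (le_abs_self K) (by positivity))
      _ = |K| * (1 / ((k : ℝ) + 1) ^ 2) := by
          field_simp
  have hsum : ∫⁻ x, ∑' k, Z k x ∂μ ≠ ⊤ := by
    rw [lintegral_tsum hZm]
    apply ne_top_of_le_ne_top _ (ENNReal.tsum_le_tsum hZi)
    have hs : Summable fun k : ℕ => |K| * (1 / ((k : ℝ) + 1) ^ 2) := by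
      apply Summable.mul_left
      have := (summable_nat_add_iff 1).mpr (Real.summable_one_div_nat_pow.mpr (one_lt_two))
      simpa using this
    rw [← ENNReal.ofReal_tsum_of_nonneg (fun k => by positivity) hs]
    exact ENNReal.ofReal_ne_top
  have hfin := ae_lt_top' (AEMeasurable.ennreal_tsum hZm) hsum
  filter_upwards [hfin, hYb] with x hx hxb
  have hstrict : StrictMono fun k : ℕ => (k + 1) ^ p := by
    intro a b hab
    exact Nat.pow_lt_pow_left (by omega) (by omega)
  apply tendsto_of_subseq _ C hxb (fun k => (k + 1) ^ p) hstrict (by positivity)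
  · have := pow_ratio p
    refine this.congr fun k => ?_
    simp
  -- the terms tend to zero
  have h1 : Tendsto (fun k => Z k x) atTop (𝓝 0) :=
    ENNReal.tendsto_atTop_zero_of_tsum_ne_top hx.ne
  have h2 : Tendsto (fun k : ℕ => ‖avg (fun n => Y n x) ((k + 1) ^ p)‖ ^ 2) atTop (𝓝 0) := by
    have h3 := (ENNReal.tendsto_toReal (a := 0) (by simp)).comp h1
    simp only [ENNReal.toReal_zero] at h3
    refine h3.congr fun k => ?_
    simp only [Function.comp, hZ]
    rw [ENNReal.toReal_ofReal (by positivity)]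
  have h4 : Tendsto (fun k : ℕ => ‖avg (fun n => Y n x) ((k + 1) ^ p)‖) atTop (𝓝 0) := by
    have h5 := (Real.continuous_sqrt.tendsto 0).comp h2
    rw [Real.sqrt_zero] at h5
    refine h5.congr fun k => ?_
    simp only [Function.comp]
    rw [Real.sqrt_sq (norm_nonneg _)]
  exact tendsto_zero_iff_norm_tendsto_zero.mpr h4

/-- Second moments are bounded by the number of correlated pairs. -/
lemma int_sq_le_pairs [IsProbabilityMeasure μ] (Y : ℕ → X → ℂ) (C : ℝ)
    (hY : ∀ n, AEStronglyMeasurable (Y n) μ) (hYb : ∀ n, ∀ᵐ x ∂μ, ‖Y n x‖ ≤ C)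
    (B : ℕ → ℕ → Prop) (horth : ∀ n m, ¬ B n m → ∫ x, Y n x * conj (Y m x) ∂μ = 0)
    (N : ℕ) (K : ℝ) [DecidableRel B]
    (hB : (((range N ×ˢ range N).filter fun p => B p.1 p.2).card : ℝ) ≤ K) :
    ∫ x, ‖∑ n ∈ range N, Y n x‖ ^ 2 ∂μ ≤ C ^ 2 * K := by
  have hC : 0 ≤ C := by
    obtain ⟨x, hx⟩ := (hYb 0).exists
    exact (norm_nonneg _).trans hx
  have hmm : ∀ n m, Integrable (fun x => Y n x * conj (Y m x)) μ := by
    intro n m
    have hm : AEStronglyMeasurable (fun x => conj (Y m x)) μ :=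
      Complex.continuous_conj.comp_aestronglyMeasurable (hY m)
    apply Integrable.of_bound ((hY n).mul hm) (C * C)
    filter_upwards [hYb n, hYb m] with x h1 h2
    show ‖Y n x * conj (Y m x)‖ ≤ C * C
    rw [norm_mul, RCLike.norm_conj]
    exact mul_le_mul h1 h2 (norm_nonneg _) hC
  have h1 : ((∫ x, ‖∑ n ∈ range N, Y n x‖ ^ 2 ∂μ : ℝ) : ℂ) =
      ∑ p ∈ range N ×ˢ range N, ∫ x, Y p.1 x * conj (Y p.2 x) ∂μ := by
    rw [← integral_finset_sum _ fun p _ => hmm p.1 p.2, ← integral_complex_ofReal]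
    apply integral_congr_ae
    apply Eventually.of_forall
    intro x
    simp only
    rw [← Complex.normSq_eq_norm_sq, ← Complex.mul_conj, map_sum, Finset.sum_mul_sum,
      Finset.sum_product]
  have h2 : (∫ x, ‖∑ n ∈ range N, Y n x‖ ^ 2 ∂μ : ℝ) =
      ‖∑ p ∈ range N ×ˢ range N, ∫ x, Y p.1 x * conj (Y p.2 x) ∂μ‖ := by
    rw [← h1, Complex.norm_real, Real.norm_of_nonneg]
    exact integral_nonneg fun x => by positivity
  rw [h2]
  calc _ ≤ ∑ p ∈ range N ×ˢ range N, ‖∫ x, Y p.1 x * conj (Y p.2 x) ∂μ‖ := norm_sum_le _ _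
    _ ≤ ∑ p ∈ range N ×ˢ range N, (if B p.1 p.2 then C ^ 2 else 0) := by
        apply Finset.sum_le_sum
        intro p _
        split_ifs with hp
        · calc _ ≤ C ^ 2 * μ.real Set.univ := by
                apply norm_integral_le_of_norm_le_const
                filter_upwards [hYb p.1, hYb p.2] with x h1 h2
                rw [norm_mul, RCLike.norm_conj, sq]
                exact mul_le_mul h1 h2 (norm_nonneg _) hC
            _ = C ^ 2 := by simp
        · rw [horth _ _ hp, norm_zero]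
    _ = C ^ 2 * ((range N ×ˢ range N).filter fun p => B p.1 p.2).card := by
        rw [← Finset.sum_filter, Finset.sum_const, nsmul_eq_mul, mul_comm]
    _ ≤ C ^ 2 * K := mul_le_mul_of_nonneg_left hB (by positivity)

/-- Averages of a sequence vanishing from some point on. -/
lemma avg_finite_support (a : ℕ → ℂ) (n0 : ℕ) (h : ∀ n ≥ n0, a n = 0) :
    Tendsto (avg a) atTop (𝓝 0) := by
  have h1 : Tendsto (fun N : ℕ => ((N : ℂ))⁻¹ * ∑ n ∈ range n0, a n) atTop (𝓝 0) := by
    have h2 : Tendsto (fun N : ℕ => ((N : ℂ))⁻¹) atTop (𝓝 0) := by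
      have := tendsto_inv_atTop_nhds_zero_nat (𝕜 := ℂ)
      exact this
    have := h2.mul_const (∑ n ∈ range n0, a n)
    simpa using this
  refine h1.congr' ?_
  filter_upwards [eventually_ge_atTop n0] with N hN
  unfold avg
  congr 1
  rw [← Finset.sum_range_add_sum_Ico _ hN]
  rw [Finset.sum_eq_zero (s := Finset.Ico n0 N), add_zero]
  intro n hn
  exact h n (Finset.mem_Ico.mp hn).1

lemma avg_add (a b : ℕ → ℂ) (N : ℕ) : avg (fun n => a n + b n) N = avg a N + avg b N := by
  unfold avg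
  rw [Finset.sum_add_distrib, mul_add]

lemma avg_const (c : ℂ) : Tendsto (avg fun _ => c) atTop (𝓝 c) := by
  apply Tendsto.congr' _ tendsto_const_nhds
  filter_upwards [eventually_gt_atTop 0] with N hN
  unfold avg
  have : (N : ℂ) ≠ 0 := by exact_mod_cast hN.ne'
  rw [Finset.sum_const, card_range, nsmul_eq_mul]
  field_simp

/-- Uniform approximation. -/
lemma exists_lim_of_approx (a : ℕ → ℂ)
    (h : ∀ ε : ℝ, 0 < ε → ∃ b : ℕ → ℂ, (∀ n, ‖a n - b n‖ ≤ ε) ∧ ∃ L, Tendsto (avg b) atTop (𝓝 L)) :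
    ∃ L, Tendsto (avg a) atTop (𝓝 L) := by
  apply exists_lim_of_cauchyAt
  intro j
  have hpos : (0 : ℝ) < 1 / ((j : ℝ) + 1) := by positivity
  obtain ⟨b, hb, L, hL⟩ := h (1 / ((j : ℝ) + 1) / 4) (by positivity)
  obtain ⟨N0, hN0⟩ := cauchyAt_of_lim _ L hL (1 / ((j : ℝ) + 1) / 2) (by positivity)
  have hd : ∀ N, ‖avg a N - avg b N‖ ≤ 1 / ((j : ℝ) + 1) / 4 := by
    intro N
    rw [← avg_sub]
    exact avg_bound _ _ hb N
  refine ⟨N0, fun m hm n hn => ?_⟩
  calc ‖avg a m - avg a n‖ = ‖(avg a m - avg b m) - (avg a n - avg b n) +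
        (avg b m - avg b n)‖ := by congr 1; ring
    _ ≤ (1 / ((j : ℝ) + 1) / 4 + 1 / ((j : ℝ) + 1) / 4) + 1 / ((j : ℝ) + 1) / 2 := by
        refine (norm_add_le _ _).trans (add_le_add ?_ (hN0 m hm n hn))
        exact (norm_sub_le _ _).trans (add_le_add (hd m) (hd n))
    _ = 1 / ((j : ℝ) + 1) := by ring

/-- The closure principle for products of several functions, with different classes in different
slots.  In slot `j` the maps are `τ j n`; the function is either a uniform limit of functions in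
`D`, or `τ j n` is the `n`-th iterate of a measure preserving map and the function is any bounded
measurable one. -/
theorem multi_closure2 [IsFiniteMeasure μ] {m : ℕ} (τ : Fin m → ℕ → X → X)
    (hτ : ∀ j n, MeasurePreserving (τ j n) μ μ) (D : Set (X → ℂ))
    (hD : ∀ φ ∈ D, AEStronglyMeasurable φ μ ∧ ∃ C : ℝ, ∀ x, ‖φ x‖ ≤ C)
    (hdense : ∀ f : X → ℂ, MemLp f ∞ μ → ∀ ε : ℝ, 0 < ε → ∃ φ ∈ D, ∫ x, ‖f x - φ x‖ ∂μ ≤ ε)
    (hconv : ∀ φ : Fin m → X → ℂ, (∀ j, φ j ∈ D) →
      ∀ᵐ x ∂μ, ∃ L, Tendsto (avg fun n => ∏ j, φ j (τ j n x)) atTop (𝓝 L))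
    (f : Fin m → X → ℂ)
    (hf : ∀ j, (∀ ε : ℝ, 0 < ε → ∃ φ ∈ D, ∀ x, ‖f j x - φ x‖ ≤ ε) ∨
      (MemLp (f j) ∞ μ ∧ ∃ S : X → X, MeasurePreserving S μ μ ∧ ∀ n, τ j n = S^[n])) :
    ∀ᵐ x ∂μ, ∃ L, Tendsto (avg fun n => ∏ j, f j (τ j n x)) atTop (𝓝 L) := by
  classical
  -- essential boundedness along the orbits
  have hbd : ∀ (j : Fin m) (g : X → ℂ), ((∀ ε : ℝ, 0 < ε → ∃ φ ∈ D, ∀ x, ‖g x - φ x‖ ≤ ε) ∨
      MemLp g ∞ μ) → ∃ C : ℝ, 0 ≤ C ∧ ∀ᵐ x ∂μ, ∀ n, ‖g (τ j n x)‖ ≤ C := by
    intro j g hg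
    rcases hg with hg | hg
    · obtain ⟨φ, hφ, hb⟩ := hg 1 one_pos
      obtain ⟨C, hC⟩ := (hD φ hφ).2
      refine ⟨|C| + 1, by positivity, Eventually.of_forall fun x n => ?_⟩
      have h1 := hb (τ j n x)
      have h2 := hC (τ j n x)
      have h3 := le_abs_self C
      calc ‖g (τ j n x)‖ = ‖(g (τ j n x) - φ (τ j n x)) + φ (τ j n x)‖ := by congr 1; ring
        _ ≤ 1 + C := (norm_add_le _ _).trans (add_le_add h1 h2)
        _ ≤ |C| + 1 := by linarith
    · refine ⟨(eLpNorm g ∞ μ).toReal, ENNReal.toReal_nonneg, ?_⟩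
      rw [ae_all_iff]
      intro n
      have h1 : ∀ᵐ x ∂μ, ‖g x‖ ≤ (eLpNorm g ∞ μ).toReal := by
        have h2 := ae_le_eLpNormEssSup (f := g) (μ := μ)
        filter_upwards [h2] with x hx
        rw [← eLpNorm_exponent_top] at hx
        have := ENNReal.toReal_mono hg.eLpNorm_ne_top hx
        simpa using this
      exact (hτ j n).quasiMeasurePreserving.ae h1
  have hDself : ∀ φ ∈ D, ∀ ε : ℝ, 0 < ε → ∃ ψ ∈ D, ∀ x, ‖φ x - ψ x‖ ≤ ε := by
    intro φ hφ ε hε
    exact ⟨φ, hφ, fun x => by simp [hε.le]⟩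
  have key : ∀ s : Finset (Fin m), ∀ f : Fin m → X → ℂ,
      (∀ j ∈ s, (∀ ε : ℝ, 0 < ε → ∃ φ ∈ D, ∀ x, ‖f j x - φ x‖ ≤ ε) ∨
      (MemLp (f j) ∞ μ ∧ ∃ S : X → X, MeasurePreserving S μ μ ∧ ∀ n, τ j n = S^[n])) →
      (∀ j ∉ s, f j ∈ D) →
      ∀ᵐ x ∂μ, ∃ L, Tendsto (avg fun n => ∏ j, f j (τ j n x)) atTop (𝓝 L) := by
    intro s
    induction s using Finset.induction_on with
    | empty =>
      intro f _ h2
      exact hconv f fun j => h2 j (Finset.notMem_empty j)
    | insert a s ha ih =>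
      intro f h1 h2
      set w : ℕ → X → ℂ := fun n x => ∏ j ∈ univ.erase a, f j (τ j n x) with hw
      have hsplit : ∀ (g : X → ℂ) (x : X) (n : ℕ),
          ∏ j, (Function.update f a g) j (τ j n x) = w n x * g (τ a n x) := by
        intro g x n
        rw [← Finset.mul_prod_erase univ _ (Finset.mem_univ a), Function.update_self, mul_comm]
        congr 1
        apply Finset.prod_congr rfl
        intro j hj
        rw [Function.update_of_ne (Finset.ne_of_mem_erase hj)]
      have hC : ∀ j, ∃ C : ℝ, 0 ≤ C ∧ ∀ᵐ x ∂μ, ∀ n, ‖f j (τ j n x)‖ ≤ C := by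
        intro j
        apply hbd
        by_cases hj : j ∈ insert a s
        · rcases h1 j hj with h | ⟨h, _⟩
          · exact Or.inl h
          · exact Or.inr h
        · exact Or.inl (hDself _ (h2 j hj))
      choose C hC0 hC using hC
      have hwb : ∀ᵐ x ∂μ, ∀ n, ‖w n x‖ ≤ ∏ j ∈ univ.erase a, C j := by
        have : ∀ᵐ x ∂μ, ∀ j, ∀ n, ‖f j (τ j n x)‖ ≤ C j := by
          rw [ae_all_iff]
          exact hC
        filter_upwards [this] with x hx n
        rw [hw]
        simp only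
        rw [norm_prod]
        exact Finset.prod_le_prod (fun _ _ => norm_nonneg _) fun j _ => hx j n
      have hself : ∀ x n, ∏ j, f j (τ j n x) = w n x * f a (τ a n x) := by
        intro x n
        rw [← hsplit, Function.update_eq_self]
      have hD1 : ∀ φ ∈ D, ∀ᵐ x ∂μ, ∃ L,
          Tendsto (avg fun n => w n x * φ (τ a n x)) atTop (𝓝 L) := by
        intro φ hφ
        have := ih (Function.update f a φ) (by
          intro j hj
          have hja : j ≠ a := by
            rintro rfl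
            exact ha hj
          rw [Function.update_of_ne hja]
          exact h1 j (Finset.mem_insert_of_mem hj)) (by
          intro j hj
          by_cases hja : j = a
          · subst hja; rw [Function.update_self]; exact hφ
          · rw [Function.update_of_ne hja]
            exact h2 j (by rw [Finset.mem_insert, not_or]; exact ⟨hja, hj⟩))
        simp_rw [hsplit] at this
        exact this
      simp_rw [hself]
      rcases h1 a (Finset.mem_insert_self a s) with h | ⟨hfa, S, hS, hτS⟩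
      · -- uniform approximation
        choose! φ hφD hφ using h
        set W : ℝ := (∏ j ∈ univ.erase a, C j) + 1 with hW
        have hW0 : 0 < W := by
          have : 0 ≤ ∏ j ∈ univ.erase a, C j := Finset.prod_nonneg fun j _ => hC0 j
          positivity
        have hall : ∀ᵐ x ∂μ, ∀ k : ℕ, ∃ L,
            Tendsto (avg fun n => w n x * φ (1 / ((k : ℝ) + 1)) (τ a n x)) atTop (𝓝 L) := by
          rw [ae_all_iff]
          intro k
          exact hD1 _ (hφD _ (by positivity))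
        filter_upwards [hall, hwb] with x hx hwx
        apply exists_lim_of_approx
        intro ε hε
        obtain ⟨k, hk⟩ := exists_nat_one_div_lt (show 0 < ε / W by positivity)
        refine ⟨_, fun n => ?_, hx k⟩
        rw [← mul_sub, norm_mul]
        calc _ ≤ W * (1 / ((k : ℝ) + 1)) := by
              apply mul_le_mul _ (hφ _ (by positivity) _) (norm_nonneg _) hW0.le
              have := hwx n
              rw [hW]; linarith
          _ ≤ W * (ε / W) := mul_le_mul_of_nonneg_left hk.le hW0.le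
          _ = ε := by field_simp
      · -- maximal inequality
        simp_rw [hτS]
        simp_rw [hτS] at hD1
        apply closure_L1 S hS w _ hwb
        intro ε hε
        obtain ⟨φ, hφ, hφε⟩ := hdense (f a) hfa ε hε
        refine ⟨φ, ?_, hφε, hD1 φ hφ⟩
        obtain ⟨hm, C', hC'⟩ := hD φ hφ
        exact (hfa.integrable (by simp)).sub
          (Integrable.of_bound hm C' (Eventually.of_forall hC'))
  exact key univ f (fun j _ => hf j) (fun j hj => absurd (Finset.mem_univ j) hj)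

end Pool.Lib.Erg
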