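import Pool.Agent.Lib.ErgodicAverages2

set_option autoImplicit false

/-!
# A closure principle with domination

`closure_dom` : if `|f - φ| ≤ v` with `∫ v` small and the averages of `v` converge almost
everywhere, then convergence passes from `φ` to `f`.  `multi_closure3` is the version for products.
-/

open MeasureTheory Filter Topology Finset
open scoped ENNReal NNReal

namespace Pool.Lib.Erg

variable {X : Type*} [MeasurableSpace X] {μ : Measure X}

/-- the set where the averages of `v` are eventually large is small -/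
lemma avg_large [IsFiniteMeasure μ] (τ : ℕ → X → X) (hτ : ∀ n, MeasurePreserving (τ n) μ μ)
    (v : X → ℝ) (hv0 : ∀ x, 0 ≤ v x) (hvi : Integrable v μ)
    (hvc : ∀ᵐ x ∂μ, ∃ L, Tendsto (avg fun n => (v (τ n x) : ℂ)) atTop (𝓝 L)) (l : ℝ)
    (hl : 0 < l) : ∃ E : Set X, μ E ≤ ENNReal.ofReal ((∫ x, v x ∂μ) / l) ∧
      ∀ᵐ x ∂μ, x ∉ E → ∀ᶠ N : ℕ in atTop, (N : ℝ)⁻¹ * ∑ n ∈ range N, v (τ n x) ≤ l := by
  set a : ℕ → X → ℝ≥0∞ := fun N x => ENNReal.ofReal ((N : ℝ)⁻¹ * ∑ n ∈ range N, v (τ n x)) with ha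
  have ham : ∀ N, AEMeasurable (a N) μ := by
    intro N
    apply AEMeasurable.ennreal_ofReal
    apply AEMeasurable.const_mul
    apply Finset.aemeasurable_fun_sum
    intro n _
    exact hvi.aemeasurable.comp_quasiMeasurePreserving (hτ n).quasiMeasurePreserving
  have hbound : ∀ N, ∫⁻ x, a N x ∂μ ≤ ENNReal.ofReal (∫ x, v x ∂μ) := by
    intro N
    have hint : Integrable (fun x => (N : ℝ)⁻¹ * ∑ n ∈ range N, v (τ n x)) μ := by
      apply Integrable.const_mul
      apply integrable_finsetSum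
      intro n _
      exact (hτ n).integrable_comp_of_integrable hvi
    have hnn : 0 ≤ᵐ[μ] fun x => (N : ℝ)⁻¹ * ∑ n ∈ range N, v (τ n x) :=
      Eventually.of_forall fun x => mul_nonneg (by positivity)
        (Finset.sum_nonneg fun n _ => hv0 _)
    rw [ha]
    simp only
    rw [← ofReal_integral_eq_lintegral_ofReal hint hnn]
    apply ENNReal.ofReal_le_ofReal
    have hsum : ∫ x, ∑ n ∈ range N, v (τ n x) ∂μ = ∑ n ∈ range N, ∫ x, v (τ n x) ∂μ :=
      integral_finsetSum _ (fun n _ => (hτ n).integrable_comp_of_integrable hvi)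
    rw [integral_const_mul, hsum]
    have : ∀ n ∈ range N, ∫ x, v (τ n x) ∂μ = ∫ x, v x ∂μ := by
      intro n _
      have hmap := (hτ n).map_eq
      have hm : AEStronglyMeasurable v (μ.map (τ n)) := by rw [hmap]; exact hvi.1
      have h1 := integral_map (hτ n).measurable.aemeasurable hm
      rw [hmap] at h1
      exact h1.symm
    rw [Finset.sum_congr rfl this, Finset.sum_const, card_range, nsmul_eq_mul]
    rcases Nat.eq_zero_or_pos N with h | h
    · subst h
      simp only [Nat.cast_zero, inv_zero, zero_mul]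
      exact integral_nonneg hv0
    · have hN : (N : ℝ) ≠ 0 := by exact_mod_cast h.ne'
      rw [inv_mul_cancel_left₀ hN]
  have hlm : AEMeasurable (fun x => liminf (fun N => a N x) atTop) μ := by
    refine ⟨fun x => liminf (fun N => (ham N).mk (a N) x) atTop,
      Measurable.liminf fun N => (ham N).measurable_mk, ?_⟩
    have : ∀ᵐ x ∂μ, ∀ N, a N x = (ham N).mk (a N) x := ae_all_iff.2 fun N => (ham N).ae_eq_mk
    filter_upwards [this] with x hx
    simp_rw [hx]
  refine ⟨{x | ENNReal.ofReal l ≤ liminf (fun N => a N x) atTop}, ?_, ?_⟩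
  · have h1 := mul_meas_ge_le_lintegral₀ (μ := μ) hlm (ENNReal.ofReal l)
    have h2 : ∫⁻ x, liminf (fun N => a N x) atTop ∂μ ≤ ENNReal.ofReal (∫ x, v x ∂μ) := by
      refine (lintegral_liminf_le' ham).trans ?_
      exact (Filter.liminf_le_of_frequently_le' (Eventually.of_forall hbound).frequently)
    have h3 := h1.trans h2
    rw [ENNReal.ofReal_div_of_pos hl]
    rw [ENNReal.le_div_iff_mul_le (Or.inl (by simpa using hl)) (Or.inl ENNReal.ofReal_ne_top),
      mul_comm]
    exact h3
  · filter_upwards [hvc] with x ⟨L, hL⟩ hx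
    have hre : Tendsto (fun N : ℕ => (N : ℝ)⁻¹ * ∑ n ∈ range N, v (τ n x)) atTop (𝓝 L.re) := by
      have h1 := (Complex.continuous_re.tendsto L).comp hL
      refine h1.congr fun N => ?_
      simp only [Function.comp, avg]
      have : (N : ℂ)⁻¹ * ∑ n ∈ range N, (v (τ n x) : ℂ) =
          (((N : ℝ)⁻¹ * ∑ n ∈ range N, v (τ n x) : ℝ) : ℂ) := by push_cast; rfl
      rw [this, Complex.ofReal_re]
    have h2 : liminf (fun N => a N x) atTop = ENNReal.ofReal L.re :=
      (ENNReal.tendsto_ofReal hre).liminf_eq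
    replace hx : ENNReal.ofReal L.re < ENNReal.ofReal l := by
      rw [← h2]
      exact not_le.1 hx
    have h3 : L.re < l := by
      by_contra hcon
      push Not at hcon
      exact absurd (ENNReal.ofReal_le_ofReal hcon) (not_le.2 hx)
    filter_upwards [hre.eventually (gt_mem_nhds h3)] with N hN
    exact hN.le

/-- **Closure principle with domination.** -/
theorem closure_dom [IsFiniteMeasure μ] (τ : ℕ → X → X) (hτ : ∀ n, MeasurePreserving (τ n) μ μ)
    (w : ℕ → X → ℂ) (C : ℝ) (hw : ∀ᵐ x ∂μ, ∀ n, ‖w n x‖ ≤ C) (f : X → ℂ)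
    (happ : ∀ ε : ℝ, 0 < ε → ∃ (φ : X → ℂ) (v : X → ℝ), (∀ x, ‖f x - φ x‖ ≤ v x) ∧
      Integrable v μ ∧ ∫ x, v x ∂μ ≤ ε ∧
      (∀ᵐ x ∂μ, ∃ L, Tendsto (avg fun n => (v (τ n x) : ℂ)) atTop (𝓝 L)) ∧
      ∀ᵐ x ∂μ, ∃ L, Tendsto (avg fun n => w n x * φ (τ n x)) atTop (𝓝 L)) :
    ∀ᵐ x ∂μ, ∃ L, Tendsto (avg fun n => w n x * f (τ n x)) atTop (𝓝 L) := by
  set C' : ℝ := |C| + 1 with hC'
  have hC'0 : 0 < C' := by positivity
  have hw' : ∀ᵐ x ∂μ, ∀ n, ‖w n x‖ ≤ C' := by
    filter_upwards [hw] with x hx n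
    have := hx n
    have := le_abs_self C
    linarith
  have key : ∀ r : ℝ, 0 < r →
      ∀ᵐ x ∂μ, CauchyAt (avg fun n => w n x * f (τ n x)) r := by
    intro r hr
    rw [ae_iff]
    have hle : ∀ ε : ℝ, 0 < ε →
        μ {x | ¬ CauchyAt (avg fun n => w n x * f (τ n x)) r} ≤ ENNReal.ofReal ε := by
      intro ε hε
      set l : ℝ := r / (4 * C') with hl
      have hl0 : 0 < l := by positivity
      obtain ⟨φ, v, hfv, hvi, hvε, hvc, hφc⟩ := happ (ε * l) (by positivity)
      have hv0 : ∀ x, 0 ≤ v x := fun x => (norm_nonneg _).trans (hfv x)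
      obtain ⟨E, hE, hEx⟩ := avg_large τ hτ v hv0 hvi hvc l hl0
      set Z : Set X := {x | ¬ ((∀ n, ‖w n x‖ ≤ C') ∧
        (x ∉ E → ∀ᶠ N : ℕ in atTop, (N : ℝ)⁻¹ * ∑ n ∈ range N, v (τ n x) ≤ l) ∧
        ∃ L, Tendsto (avg fun n => w n x * φ (τ n x)) atTop (𝓝 L))} with hZ
      have hZ0 : μ Z = 0 := by
        rw [hZ, ← ae_iff]
        filter_upwards [hw', hφc, hEx] with x h1 h2 h3 using ⟨h1, h3, h2⟩
      have hsub : {x | ¬ CauchyAt (avg fun n => w n x * f (τ n x)) r} ⊆ Z ∪ E := by
        intro x hx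
        by_contra hcon
        rw [Set.mem_union, not_or] at hcon
        obtain ⟨hxZ, hxE⟩ := hcon
        rw [hZ, Set.mem_setOf_eq, not_not] at hxZ
        obtain ⟨hwx, hEv, L, hL⟩ := hxZ
        apply hx
        obtain ⟨N0, hN0⟩ := cauchyAt_of_lim _ L hL (r / 2) (by positivity)
        obtain ⟨N1, hN1⟩ := eventually_atTop.1 (hEv hxE)
        have hdiff : ∀ N : ℕ, N1 ≤ N → ‖avg (fun n => w n x * f (τ n x)) N -
            avg (fun n => w n x * φ (τ n x)) N‖ ≤ r / 4 := by
          intro N hN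
          rw [← avg_sub]
          refine (avg_norm_le _ _).trans ?_
          have h1 : ∑ n ∈ range N, ‖w n x * f (τ n x) - w n x * φ (τ n x)‖ ≤
              C' * ∑ n ∈ range N, v (τ n x) := by
            rw [Finset.mul_sum]
            apply Finset.sum_le_sum
            intro n _
            rw [← mul_sub, norm_mul]
            exact mul_le_mul (hwx n) (hfv _) (norm_nonneg _) hC'0.le
          calc _ ≤ (N : ℝ)⁻¹ * (C' * ∑ n ∈ range N, v (τ n x)) :=
                mul_le_mul_of_nonneg_left h1 (by positivity)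
            _ = C' * ((N : ℝ)⁻¹ * ∑ n ∈ range N, v (τ n x)) := by ring
            _ ≤ C' * l := mul_le_mul_of_nonneg_left (hN1 N hN) hC'0.le
            _ = r / 4 := by rw [hl]; field_simp
        refine ⟨max N0 N1, fun m hm n hn => ?_⟩
        have e1 := hdiff m (le_trans (le_max_right _ _) hm)
        have e2 := hdiff n (le_trans (le_max_right _ _) hn)
        have e3 := hN0 m (le_trans (le_max_left _ _) hm) n (le_trans (le_max_left _ _) hn)
        calc ‖avg (fun n => w n x * f (τ n x)) m - avg (fun n => w n x * f (τ n x)) n‖ =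
            ‖(avg (fun n => w n x * f (τ n x)) m - avg (fun n => w n x * φ (τ n x)) m) -
              (avg (fun n => w n x * f (τ n x)) n - avg (fun n => w n x * φ (τ n x)) n) +
              (avg (fun n => w n x * φ (τ n x)) m -
                avg (fun n => w n x * φ (τ n x)) n)‖ := by congr 1; ring
          _ ≤ (r / 4 + r / 4) + r / 2 := by
              refine (norm_add_le _ _).trans (add_le_add ?_ e3)
              exact (norm_sub_le _ _).trans (add_le_add e1 e2)
          _ = r := by ring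
      calc μ {x | ¬ CauchyAt (avg fun n => w n x * f (τ n x)) r} ≤ μ (Z ∪ E) := measure_mono hsub
        _ ≤ μ Z + μ E := measure_union_le _ _
        _ ≤ 0 + ENNReal.ofReal ((∫ x, v x ∂μ) / l) := by
            rw [hZ0]; exact add_le_add le_rfl hE
        _ ≤ ENNReal.ofReal ε := by
            rw [zero_add]
            apply ENNReal.ofReal_le_ofReal
            rw [div_le_iff₀ hl0]
            exact hvε
    refine le_antisymm ?_ bot_le
    apply le_of_forall_pos_le_add
    intro ε hε
    rw [zero_add]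
    by_cases htop : ε = ⊤
    · rw [htop]; exact le_top
    · have := hle ε.toReal (ENNReal.toReal_pos hε.ne' htop)
      rwa [ENNReal.ofReal_toReal htop] at this
  have hall : ∀ᵐ x ∂μ, ∀ j : ℕ, CauchyAt (avg fun n => w n x * f (τ n x)) (1 / (j + 1)) := by
    rw [ae_all_iff]
    intro j
    exact key _ (by positivity)
  filter_upwards [hall] with x hx
  exact exists_lim_of_cauchyAt _ hx

/-- The closure principle for products: in slot `j` the function is either well approximated from
both sides by functions in `D`, or `τ j n` is the `n`-th iterate of a measure preserving map and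
the function is any bounded measurable one. -/
theorem multi_closure3 [IsFiniteMeasure μ] {m : ℕ} (τ : Fin m → ℕ → X → X)
    (hτ : ∀ j n, MeasurePreserving (τ j n) μ μ) (D : Set (X → ℂ)) (hone : (fun _ => 1) ∈ D)
    (hD : ∀ φ ∈ D, AEStronglyMeasurable φ μ ∧ ∃ C : ℝ, ∀ x, ‖φ x‖ ≤ C)
    (hdense : ∀ f : X → ℂ, MemLp f ∞ μ → ∀ ε : ℝ, 0 < ε → ∃ φ ∈ D, ∫ x, ‖f x - φ x‖ ∂μ ≤ ε)
    (hconv : ∀ φ : Fin m → X → ℂ, (∀ j, φ j ∈ D) →
      ∀ᵐ x ∂μ, ∃ L, Tendsto (avg fun n => ∏ j, φ j (τ j n x)) atTop (𝓝 L))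
    (f : Fin m → X → ℂ)
    (hf : ∀ j, (∀ ε : ℝ, 0 < ε → ∃ φ ∈ D, ∃ v : X → ℝ, (fun x => (v x : ℂ)) ∈ D ∧
        (∀ x, ‖f j x - φ x‖ ≤ v x) ∧ ∫ x, v x ∂μ ≤ ε) ∨
      (MemLp (f j) ∞ μ ∧ ∃ S : X → X, MeasurePreserving S μ μ ∧ ∀ n, τ j n = S^[n])) :
    ∀ᵐ x ∂μ, ∃ L, Tendsto (avg fun n => ∏ j, f j (τ j n x)) atTop (𝓝 L) := by
  classical
  have hbd : ∀ (j : Fin m) (g : X → ℂ), ((∀ ε : ℝ, 0 < ε → ∃ φ ∈ D, ∃ v : X → ℝ,
        (fun x => (v x : ℂ)) ∈ D ∧ (∀ x, ‖g x - φ x‖ ≤ v x) ∧ ∫ x, v x ∂μ ≤ ε) ∨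
      MemLp g ∞ μ) → ∃ C : ℝ, 0 ≤ C ∧ ∀ᵐ x ∂μ, ∀ n, ‖g (τ j n x)‖ ≤ C := by
    intro j g hg
    rcases hg with hg | hg
    · obtain ⟨φ, hφ, v, hv, hb, _⟩ := hg 1 one_pos
      obtain ⟨C, hC⟩ := (hD φ hφ).2
      obtain ⟨C', hC'⟩ := (hD _ hv).2
      refine ⟨|C| + |C'|, by positivity, Eventually.of_forall fun x n => ?_⟩
      have h1 := hb (τ j n x)
      have h2 := hC (τ j n x)
      have h3 := le_abs_self C
      have h4 := hC' (τ j n x)
      rw [Complex.norm_real] at h4
      have h5 := le_abs_self C'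
      have h6 := Real.le_norm_self (v (τ j n x))
      calc ‖g (τ j n x)‖ = ‖(g (τ j n x) - φ (τ j n x)) + φ (τ j n x)‖ := by congr 1; ring
        _ ≤ v (τ j n x) + C := (norm_add_le _ _).trans (add_le_add h1 h2)
        _ ≤ |C| + |C'| := by linarith
    · refine ⟨(eLpNorm g ∞ μ).toReal, ENNReal.toReal_nonneg, ?_⟩
      rw [ae_all_iff]
      intro n
      have h1 : ∀ᵐ x ∂μ, ‖g x‖ ≤ (eLpNorm g ∞ μ).toReal := by
        have h2 := ae_le_eLpNormEssSup (f := g) (μ := μ)
        filter_upwards [h2] with x hx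
        rw [← eLpNorm_exponent_top] at hx
        have := ENNReal.toReal_mono hg.eLpNorm_ne_top hx
        simpa using this
      exact (hτ j n).quasiMeasurePreserving.ae h1
  have hDb : ∀ φ ∈ D, MemLp φ ∞ μ := by
    intro φ hφ
    obtain ⟨h1, C, hC⟩ := hD φ hφ
    exact memLp_top_of_bound h1 C (Eventually.of_forall hC)
  -- averages of a single function
  have hsingle : ∀ (a : Fin m) (v : X → ℝ), (fun x => (v x : ℂ)) ∈ D →
      ∀ᵐ x ∂μ, ∃ L, Tendsto (avg fun n => (v (τ a n x) : ℂ)) atTop (𝓝 L) := by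
    intro a v hv
    have := hconv (Function.update (fun _ _ => 1) a fun x => (v x : ℂ)) (by
      intro j
      by_cases hja : j = a
      · subst hja; rw [Function.update_self]; exact hv
      · rw [Function.update_of_ne hja]; exact hone)
    have e1 : ∀ n x, ∏ j, (Function.update (fun _ _ => 1) a (fun x => (v x : ℂ)) : Fin m → X → ℂ) j
        (τ j n x) = (v (τ a n x) : ℂ) := by
      intro n x
      rw [← Finset.mul_prod_erase univ _ (Finset.mem_univ a), Function.update_self]
      rw [Finset.prod_eq_one, mul_one]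
      intro j hj
      rw [Function.update_of_ne (Finset.ne_of_mem_erase hj)]
    simp_rw [e1] at this
    exact this
  have key : ∀ s : Finset (Fin m), ∀ f : Fin m → X → ℂ,
      (∀ j ∈ s, (∀ ε : ℝ, 0 < ε → ∃ φ ∈ D, ∃ v : X → ℝ, (fun x => (v x : ℂ)) ∈ D ∧
        (∀ x, ‖f j x - φ x‖ ≤ v x) ∧ ∫ x, v x ∂μ ≤ ε) ∨
      (MemLp (f j) ∞ μ ∧ ∃ S : X → X, MeasurePreserving S μ μ ∧ ∀ n, τ j n = S^[n])) →
      (∀ j ∉ s, f j ∈ D) →
      ∀ᵐ x ∂μ, ∃ L, Tendsto (avg fun n => ∏ j, f j (τ j n x)) atTop (𝓝 L) := by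
    intro s
    induction s using Finset.induction_on with
    | empty =>
      intro f _ h2
      exact hconv f fun j => h2 j (Finset.notMem_empty j)
    | insert a s ha ih =>
      intro f h1 h2
      set w : ℕ → X → ℂ := fun n x => ∏ j ∈ univ.erase a, f j (τ j n x) with hw
      have hsplit : ∀ (g : X → ℂ) (x : X) (n : ℕ),
          ∏ j, (Function.update f a g) j (τ j n x) = w n x * g (τ a n x) := by
        intro g x n
        rw [← Finset.mul_prod_erase univ _ (Finset.mem_univ a), Function.update_self, mul_comm]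
        congr 1
        apply Finset.prod_congr rfl
        intro j hj
        rw [Function.update_of_ne (Finset.ne_of_mem_erase hj)]
      have hC : ∀ j, ∃ C : ℝ, 0 ≤ C ∧ ∀ᵐ x ∂μ, ∀ n, ‖f j (τ j n x)‖ ≤ C := by
        intro j
        apply hbd
        by_cases hj : j ∈ insert a s
        · rcases h1 j hj with h | ⟨h, _⟩
          · exact Or.inl h
          · exact Or.inr h
        · exact Or.inr (hDb _ (h2 j hj))
      choose C hC0 hC using hC
      have hwb : ∀ᵐ x ∂μ, ∀ n, ‖w n x‖ ≤ ∏ j ∈ univ.erase a, C j := by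
        have : ∀ᵐ x ∂μ, ∀ j, ∀ n, ‖f j (τ j n x)‖ ≤ C j := by
          rw [ae_all_iff]
          exact hC
        filter_upwards [this] with x hx n
        rw [hw]
        simp only
        rw [norm_prod]
        exact Finset.prod_le_prod (fun _ _ => norm_nonneg _) fun j _ => hx j n
      have hself : ∀ x n, ∏ j, f j (τ j n x) = w n x * f a (τ a n x) := by
        intro x n
        rw [← hsplit, Function.update_eq_self]
      have hD1 : ∀ φ ∈ D, ∀ᵐ x ∂μ, ∃ L,
          Tendsto (avg fun n => w n x * φ (τ a n x)) atTop (𝓝 L) := by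
        intro φ hφ
        have := ih (Function.update f a φ) (by
          intro j hj
          have hja : j ≠ a := by
            rintro rfl
            exact ha hj
          rw [Function.update_of_ne hja]
          exact h1 j (Finset.mem_insert_of_mem hj)) (by
          intro j hj
          by_cases hja : j = a
          · subst hja; rw [Function.update_self]; exact hφ
          · rw [Function.update_of_ne hja]
            exact h2 j (by rw [Finset.mem_insert, not_or]; exact ⟨hja, hj⟩))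
        simp_rw [hsplit] at this
        exact this
      simp_rw [hself]
      rcases h1 a (Finset.mem_insert_self a s) with h | ⟨hfa, S, hS, hτS⟩
      · -- domination
        apply closure_dom (τ a) (hτ a) w _ hwb
        intro ε hε
        obtain ⟨φ, hφ, v, hv, hfv, hvε⟩ := h ε hε
        have hvi : Integrable v μ := by
          have h3 := (hDb _ hv).integrable (q := ∞) (by simp)
          have h4 := h3.re
          simpa using h4
        exact ⟨φ, v, hfv, hvi, hvε, hsingle a v hv, hD1 φ hφ⟩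
      · -- maximal inequality
        simp_rw [hτS]
        simp_rw [hτS] at hD1
        apply closure_L1 S hS w _ hwb
        intro ε hε
        obtain ⟨φ, hφ, hφε⟩ := hdense (f a) hfa ε hε
        refine ⟨φ, ?_, hφε, hD1 φ hφ⟩
        obtain ⟨hm, C', hC'⟩ := hD φ hφ
        exact (hfa.integrable (by simp)).sub
          (Integrable.of_bound hm C' (Eventually.of_forall hC'))
  exact key univ f (fun j _ => hf j) (fun j hj => absurd (Finset.mem_univ j) hj)

end Pool.Lib.Erg
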