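import Pool.Agent.Lib.ErgodicAverages3

set_option autoImplicit false

/-!
# A closure principle from maximal inequalities

* `WeakMax μ τ` : the maximal function along `τ` is continuous in measure at `0 ∈ L²`.
* `weakMax_of_weak22` : it follows from a weak type (2,2) inequality.
* `weakMax_iterate` : it holds for the iterates of a measure preserving map.
* `closure_weak`, `multi_closure4` : the closure principles.
-/

open MeasureTheory Filter Topology Finset
open scoped ENNReal NNReal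

namespace Pool.Lib.Erg

variable {X : Type*} [MeasurableSpace X] {μ : Measure X}

/-- the maximal function along `τ` is continuous in measure at `0 ∈ L²` -/
def WeakMax (μ : Measure X) (τ : ℕ → X → X) : Prop :=
  ∀ ε : ℝ, 0 < ε → ∃ δ : ℝ, 0 < δ ∧ ∀ g : X → ℝ, (∀ x, 0 ≤ g x) → MemLp g 2 μ →
    ∫ x, g x ^ 2 ∂μ ≤ δ →
      μ {x | ∃ N : ℕ, ε * N < ∑ n ∈ range N, g (τ n x)} ≤ ENNReal.ofReal ε

/-- a weak type (2,2) inequality for the maximal function -/
theorem weakMax_of_weak22 (τ : ℕ → X → X) (C : ℝ)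
    (h : ∀ g : X → ℝ, (∀ x, 0 ≤ g x) → MemLp g 2 μ → ∀ l : ℝ, 0 < l →
      μ {x | ∃ N : ℕ, 1 ≤ N ∧ l < (N : ℝ)⁻¹ * ∑ n ∈ range N, g (τ n x)} ≤
        ENNReal.ofReal (C * (∫ x, g x ^ 2 ∂μ) / l ^ 2)) : WeakMax μ τ := by
  intro ε hε
  refine ⟨ε ^ 3 / (|C| + 1), by positivity, fun g hg hg2 hgi => ?_⟩
  have hC : 0 < |C| + 1 := by positivity
  refine le_trans (measure_mono ?_) ((h g hg hg2 ε hε).trans (ENNReal.ofReal_le_ofReal ?_))
  · rintro x ⟨N, hN⟩
    have hN1 : 1 ≤ N := by
      rcases Nat.eq_zero_or_pos N with h0 | h0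
      · subst h0; simp at hN
      · exact h0
    refine ⟨N, hN1, ?_⟩
    have hN0 : (0 : ℝ) < N := by exact_mod_cast hN1
    rw [lt_inv_mul_iff₀ hN0, mul_comm]
    exact hN
  · have h0 : 0 ≤ ∫ x, g x ^ 2 ∂μ := integral_nonneg fun x => sq_nonneg _
    rw [div_le_iff₀ (by positivity)]
    have h1 : C ≤ |C| + 1 := by
      have := le_abs_self C
      linarith
    calc C * ∫ x, g x ^ 2 ∂μ ≤ (|C| + 1) * ∫ x, g x ^ 2 ∂μ := mul_le_mul_of_nonneg_right h1 h0
      _ ≤ (|C| + 1) * (ε ^ 3 / (|C| + 1)) := mul_le_mul_of_nonneg_left hgi hC.le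
      _ = ε * ε ^ 2 := by field_simp

/-- the iterates of a measure preserving map -/
theorem weakMax_iterate [IsFiniteMeasure μ] (S : X → X) (hS : MeasurePreserving S μ μ) :
    WeakMax μ (fun n => S^[n]) := by
  intro ε hε
  set M : ℝ := μ.real Set.univ with hM
  have hM0 : 0 ≤ M := measureReal_nonneg
  refine ⟨(ε ^ 2) ^ 2 / (M + 1), by positivity, fun g hg hg2 hgi => ?_⟩
  have hg1 : MemLp g 1 μ := hg2.mono_exponent (by norm_num)
  have hgI : Integrable g μ := memLp_one_iff_integrable.1 hg1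
  refine (weak_type S hS g hgI hg ε hε).trans (ENNReal.ofReal_le_ofReal ?_)
  rw [div_le_iff₀ hε]
  -- Cauchy-Schwarz in the form `2 t g ≤ t² + g²`
  have hg2I : Integrable (fun x => g x ^ 2) μ := hg2.integrable_sq
  have h1 : ∀ t : ℝ, 2 * t * ∫ x, g x ∂μ ≤ t ^ 2 * M + ∫ x, g x ^ 2 ∂μ := by
    intro t
    have h2 : ∫ x, 2 * t * g x ∂μ ≤ ∫ x, (t ^ 2 + g x ^ 2) ∂μ := by
      apply integral_mono (hgI.const_mul _) ((integrable_const _).add hg2I)
      intro x
      change 2 * t * g x ≤ t ^ 2 + g x ^ 2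
      nlinarith [sq_nonneg (t - g x)]
    rw [integral_const_mul, integral_add (integrable_const _) hg2I, integral_const, smul_eq_mul]
      at h2
    rw [mul_comm (t ^ 2)]
    exact h2
  have hM1 : 0 < M + 1 := by positivity
  have h3 := h1 (ε ^ 2 / (M + 1))
  have h4 : (ε ^ 2 / (M + 1)) ^ 2 * M + ∫ x, g x ^ 2 ∂μ ≤
      2 * (ε ^ 2 / (M + 1)) * ε ^ 2 := by
    have h5 : (ε ^ 2 / (M + 1)) ^ 2 * M ≤ (ε ^ 2) ^ 2 / (M + 1) := by
      rw [div_pow, div_mul_eq_mul_div, div_le_div_iff₀ (by positivity) hM1]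
      have h6 : 0 ≤ (ε ^ 2) ^ 2 * (M + 1) := by positivity
      nlinarith
    have h7 : 2 * (ε ^ 2 / (M + 1)) * ε ^ 2 = (ε ^ 2) ^ 2 / (M + 1) + (ε ^ 2) ^ 2 / (M + 1) := by
      ring
    rw [h7]
    exact add_le_add h5 hgi
  have h8 : 0 < 2 * (ε ^ 2 / (M + 1)) := by positivity
  have h9 : ∫ x, g x ∂μ ≤ ε ^ 2 := le_of_mul_le_mul_left (h3.trans h4) h8
  calc ∫ x, g x ∂μ ≤ ε ^ 2 := h9
    _ = ε * ε := by ring

/-- **Closure principle** for one slot with a maximal inequality. -/
theorem closure_weak [IsFiniteMeasure μ] (τ : ℕ → X → X) (hmax : WeakMax μ τ)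
    (w : ℕ → X → ℂ) (C : ℝ) (hw : ∀ᵐ x ∂μ, ∀ n, ‖w n x‖ ≤ C) (f : X → ℂ)
    (happ : ∀ ε : ℝ, 0 < ε → ∃ φ : X → ℂ, MemLp (fun x => f x - φ x) 2 μ ∧
      ∫ x, ‖f x - φ x‖ ^ 2 ∂μ ≤ ε ∧
      ∀ᵐ x ∂μ, ∃ L, Tendsto (avg fun n => w n x * φ (τ n x)) atTop (𝓝 L)) :
    ∀ᵐ x ∂μ, ∃ L, Tendsto (avg fun n => w n x * f (τ n x)) atTop (𝓝 L) := by
  set C' : ℝ := |C| + 1 with hC'
  have hC'0 : 0 < C' := by positivity
  have hw' : ∀ᵐ x ∂μ, ∀ n, ‖w n x‖ ≤ C' := by
    filter_upwards [hw] with x hx n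
    have := hx n
    have := le_abs_self C
    linarith
  have key : ∀ r : ℝ, 0 < r →
      ∀ᵐ x ∂μ, CauchyAt (avg fun n => w n x * f (τ n x)) r := by
    intro r hr
    rw [ae_iff]
    have hle : ∀ ε : ℝ, 0 < ε →
        μ {x | ¬ CauchyAt (avg fun n => w n x * f (τ n x)) r} ≤ ENNReal.ofReal ε := by
      intro ε hε
      set l : ℝ := min ε (r / (4 * C')) with hl
      have hl0 : 0 < l := lt_min hε (by positivity)
      obtain ⟨δ, hδ, hδm⟩ := hmax l hl0
      obtain ⟨φ, hφi, hφ, hφc⟩ := happ δ hδ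
      have hwt := hδm (fun x => ‖f x - φ x‖) (fun x => norm_nonneg _) hφi.norm hφ
      set B : Set X := {x | ∃ N : ℕ, l * N < ∑ n ∈ range N, ‖f (τ n x) - φ (τ n x)‖} with hB
      set Z : Set X := {x | ¬ ((∀ n, ‖w n x‖ ≤ C') ∧
        ∃ L, Tendsto (avg fun n => w n x * φ (τ n x)) atTop (𝓝 L))} with hZ
      have hZ0 : μ Z = 0 := by
        rw [hZ, ← ae_iff]
        filter_upwards [hw', hφc] with x h1 h2 using ⟨h1, h2⟩
      have hsub : {x | ¬ CauchyAt (avg fun n => w n x * f (τ n x)) r} ⊆ Z ∪ B := by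
        intro x hx
        by_contra hcon
        rw [Set.mem_union, not_or] at hcon
        obtain ⟨hxZ, hxB⟩ := hcon
        rw [hZ, Set.mem_setOf_eq, not_not] at hxZ
        obtain ⟨hwx, L, hL⟩ := hxZ
        rw [hB, Set.mem_setOf_eq] at hxB
        push Not at hxB
        apply hx
        obtain ⟨N0, hN0⟩ := cauchyAt_of_lim _ L hL (r / 2) (by positivity)
        have hdiff : ∀ N : ℕ, ‖avg (fun n => w n x * f (τ n x)) N -
            avg (fun n => w n x * φ (τ n x)) N‖ ≤ r / 4 := by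
          intro N
          rw [← avg_sub]
          refine (avg_norm_le _ _).trans ?_
          rcases Nat.eq_zero_or_pos N with h0 | hpos
          · subst h0; simp; positivity
          · have hN : (0 : ℝ) < N := by exact_mod_cast hpos
            have h1 : ∑ n ∈ range N, ‖w n x * f (τ n x) - w n x * φ (τ n x)‖ ≤
                C' * (r / (4 * C') * N) := by
              calc _ ≤ ∑ n ∈ range N, C' * ‖f (τ n x) - φ (τ n x)‖ := by
                    apply Finset.sum_le_sum
                    intro n _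
                    rw [← mul_sub, norm_mul]
                    exact mul_le_mul_of_nonneg_right (hwx n) (norm_nonneg _)
                _ = C' * ∑ n ∈ range N, ‖f (τ n x) - φ (τ n x)‖ := by rw [Finset.mul_sum]
                _ ≤ C' * (l * N) := mul_le_mul_of_nonneg_left (hxB N) hC'0.le
                _ ≤ C' * (r / (4 * C') * N) :=
                    mul_le_mul_of_nonneg_left
                      (mul_le_mul_of_nonneg_right (min_le_right _ _) hN.le) hC'0.le
            calc _ ≤ (N : ℝ)⁻¹ * (C' * (r / (4 * C') * N)) :=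
                  mul_le_mul_of_nonneg_left h1 (by positivity)
              _ = r / 4 := by field_simp
        refine ⟨N0, fun m hm n hn => ?_⟩
        have e1 := hdiff m
        have e2 := hdiff n
        have e3 := hN0 m hm n hn
        calc ‖avg (fun n => w n x * f (τ n x)) m - avg (fun n => w n x * f (τ n x)) n‖ =
            ‖(avg (fun n => w n x * f (τ n x)) m - avg (fun n => w n x * φ (τ n x)) m) -
              (avg (fun n => w n x * f (τ n x)) n - avg (fun n => w n x * φ (τ n x)) n) +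
              (avg (fun n => w n x * φ (τ n x)) m -
                avg (fun n => w n x * φ (τ n x)) n)‖ := by congr 1; ring
          _ ≤ (r / 4 + r / 4) + r / 2 := by
              refine (norm_add_le _ _).trans (add_le_add ?_ e3)
              exact (norm_sub_le _ _).trans (add_le_add e1 e2)
          _ = r := by ring
      calc μ {x | ¬ CauchyAt (avg fun n => w n x * f (τ n x)) r} ≤ μ (Z ∪ B) := measure_mono hsub
        _ ≤ μ Z + μ B := measure_union_le _ _
        _ ≤ 0 + ENNReal.ofReal l := by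
            rw [hZ0]; exact add_le_add le_rfl hwt
        _ ≤ ENNReal.ofReal ε := by
            rw [zero_add]
            exact ENNReal.ofReal_le_ofReal (min_le_left _ _)
    refine le_antisymm ?_ bot_le
    apply le_of_forall_pos_le_add
    intro ε hε
    rw [zero_add]
    by_cases htop : ε = ⊤
    · rw [htop]; exact le_top
    · have := hle ε.toReal (ENNReal.toReal_pos hε.ne' htop)
      rwa [ENNReal.ofReal_toReal htop] at this
  have hall : ∀ᵐ x ∂μ, ∀ j : ℕ, CauchyAt (avg fun n => w n x * f (τ n x)) (1 / (j + 1)) := by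
    rw [ae_all_iff]
    intro j
    exact key _ (by positivity)
  filter_upwards [hall] with x hx
  exact exists_lim_of_cauchyAt _ hx

/-- The closure principle for products: in slot `j` the function is either well approximated from
both sides by functions in `D`, or the maps `τ j` satisfy a maximal inequality and the function is
any bounded measurable one. -/
theorem multi_closure4 [IsFiniteMeasure μ] {m : ℕ} (τ : Fin m → ℕ → X → X)
    (hτ : ∀ j n, MeasurePreserving (τ j n) μ μ) (D : Set (X → ℂ)) (hone : (fun _ => 1) ∈ D)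
    (hD : ∀ φ ∈ D, AEStronglyMeasurable φ μ ∧ ∃ C : ℝ, ∀ x, ‖φ x‖ ≤ C)
    (hdense : ∀ f : X → ℂ, MemLp f ∞ μ → ∀ ε : ℝ, 0 < ε →
      ∃ φ ∈ D, ∫ x, ‖f x - φ x‖ ^ 2 ∂μ ≤ ε)
    (hconv : ∀ φ : Fin m → X → ℂ, (∀ j, φ j ∈ D) →
      ∀ᵐ x ∂μ, ∃ L, Tendsto (avg fun n => ∏ j, φ j (τ j n x)) atTop (𝓝 L))
    (f : Fin m → X → ℂ)
    (hf : ∀ j, (∀ ε : ℝ, 0 < ε → ∃ φ ∈ D, ∃ v : X → ℝ, (fun x => (v x : ℂ)) ∈ D ∧
        (∀ x, ‖f j x - φ x‖ ≤ v x) ∧ ∫ x, v x ∂μ ≤ ε) ∨
      (MemLp (f j) ∞ μ ∧ WeakMax μ (τ j))) :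
    ∀ᵐ x ∂μ, ∃ L, Tendsto (avg fun n => ∏ j, f j (τ j n x)) atTop (𝓝 L) := by
  classical
  have hbd : ∀ (j : Fin m) (g : X → ℂ), ((∀ ε : ℝ, 0 < ε → ∃ φ ∈ D, ∃ v : X → ℝ,
        (fun x => (v x : ℂ)) ∈ D ∧ (∀ x, ‖g x - φ x‖ ≤ v x) ∧ ∫ x, v x ∂μ ≤ ε) ∨
      MemLp g ∞ μ) → ∃ C : ℝ, 0 ≤ C ∧ ∀ᵐ x ∂μ, ∀ n, ‖g (τ j n x)‖ ≤ C := by
    intro j g hg
    rcases hg with hg | hg
    · obtain ⟨φ, hφ, v, hv, hb, _⟩ := hg 1 one_pos
      obtain ⟨C, hC⟩ := (hD φ hφ).2
      obtain ⟨C', hC'⟩ := (hD _ hv).2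
      refine ⟨|C| + |C'|, by positivity, Eventually.of_forall fun x n => ?_⟩
      have h1 := hb (τ j n x)
      have h2 := hC (τ j n x)
      have h3 := le_abs_self C
      have h4 := hC' (τ j n x)
      rw [Complex.norm_real] at h4
      have h5 := le_abs_self C'
      have h6 := Real.le_norm_self (v (τ j n x))
      calc ‖g (τ j n x)‖ = ‖(g (τ j n x) - φ (τ j n x)) + φ (τ j n x)‖ := by congr 1; ring
        _ ≤ v (τ j n x) + C := (norm_add_le _ _).trans (add_le_add h1 h2)
        _ ≤ |C| + |C'| := by linarith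
    · refine ⟨(eLpNorm g ∞ μ).toReal, ENNReal.toReal_nonneg, ?_⟩
      rw [ae_all_iff]
      intro n
      have h1 : ∀ᵐ x ∂μ, ‖g x‖ ≤ (eLpNorm g ∞ μ).toReal := by
        have h2 := ae_le_eLpNormEssSup (f := g) (μ := μ)
        filter_upwards [h2] with x hx
        rw [← eLpNorm_exponent_top] at hx
        have := ENNReal.toReal_mono hg.eLpNorm_ne_top hx
        simpa using this
      exact (hτ j n).quasiMeasurePreserving.ae h1
  have hDb : ∀ φ ∈ D, MemLp φ ∞ μ := by
    intro φ hφ
    obtain ⟨h1, C, hC⟩ := hD φ hφ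
    exact memLp_top_of_bound h1 C (Eventually.of_forall hC)
  have hsingle : ∀ (a : Fin m) (v : X → ℝ), (fun x => (v x : ℂ)) ∈ D →
      ∀ᵐ x ∂μ, ∃ L, Tendsto (avg fun n => (v (τ a n x) : ℂ)) atTop (𝓝 L) := by
    intro a v hv
    have := hconv (Function.update (fun _ _ => 1) a fun x => (v x : ℂ)) (by
      intro j
      by_cases hja : j = a
      · subst hja; rw [Function.update_self]; exact hv
      · rw [Function.update_of_ne hja]; exact hone)
    have e1 : ∀ n x, ∏ j, (Function.update (fun _ _ => 1) a (fun x => (v x : ℂ)) : Fin m → X → ℂ) j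
        (τ j n x) = (v (τ a n x) : ℂ) := by
      intro n x
      rw [← Finset.mul_prod_erase univ _ (Finset.mem_univ a), Function.update_self]
      rw [Finset.prod_eq_one, mul_one]
      intro j hj
      rw [Function.update_of_ne (Finset.ne_of_mem_erase hj)]
    simp_rw [e1] at this
    exact this
  have key : ∀ s : Finset (Fin m), ∀ f : Fin m → X → ℂ,
      (∀ j ∈ s, (∀ ε : ℝ, 0 < ε → ∃ φ ∈ D, ∃ v : X → ℝ, (fun x => (v x : ℂ)) ∈ D ∧
        (∀ x, ‖f j x - φ x‖ ≤ v x) ∧ ∫ x, v x ∂μ ≤ ε) ∨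
      (MemLp (f j) ∞ μ ∧ WeakMax μ (τ j))) →
      (∀ j ∉ s, f j ∈ D) →
      ∀ᵐ x ∂μ, ∃ L, Tendsto (avg fun n => ∏ j, f j (τ j n x)) atTop (𝓝 L) := by
    intro s
    induction s using Finset.induction_on with
    | empty =>
      intro f _ h2
      exact hconv f fun j => h2 j (Finset.notMem_empty j)
    | insert a s ha ih =>
      intro f h1 h2
      set w : ℕ → X → ℂ := fun n x => ∏ j ∈ univ.erase a, f j (τ j n x) with hw
      have hsplit : ∀ (g : X → ℂ) (x : X) (n : ℕ),
          ∏ j, (Function.update f a g) j (τ j n x) = w n x * g (τ a n x) := by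
        intro g x n
        rw [← Finset.mul_prod_erase univ _ (Finset.mem_univ a), Function.update_self, mul_comm]
        congr 1
        apply Finset.prod_congr rfl
        intro j hj
        rw [Function.update_of_ne (Finset.ne_of_mem_erase hj)]
      have hC : ∀ j, ∃ C : ℝ, 0 ≤ C ∧ ∀ᵐ x ∂μ, ∀ n, ‖f j (τ j n x)‖ ≤ C := by
        intro j
        apply hbd
        by_cases hj : j ∈ insert a s
        · rcases h1 j hj with h | ⟨h, _⟩
          · exact Or.inl h
          · exact Or.inr h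
        · exact Or.inr (hDb _ (h2 j hj))
      choose C hC0 hC using hC
      have hwb : ∀ᵐ x ∂μ, ∀ n, ‖w n x‖ ≤ ∏ j ∈ univ.erase a, C j := by
        have : ∀ᵐ x ∂μ, ∀ j, ∀ n, ‖f j (τ j n x)‖ ≤ C j := by
          rw [ae_all_iff]
          exact hC
        filter_upwards [this] with x hx n
        rw [hw]
        simp only
        rw [norm_prod]
        exact Finset.prod_le_prod (fun _ _ => norm_nonneg _) fun j _ => hx j n
      have hself : ∀ x n, ∏ j, f j (τ j n x) = w n x * f a (τ a n x) := by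
        intro x n
        rw [← hsplit, Function.update_eq_self]
      have hD1 : ∀ φ ∈ D, ∀ᵐ x ∂μ, ∃ L,
          Tendsto (avg fun n => w n x * φ (τ a n x)) atTop (𝓝 L) := by
        intro φ hφ
        have := ih (Function.update f a φ) (by
          intro j hj
          have hja : j ≠ a := by
            rintro rfl
            exact ha hj
          rw [Function.update_of_ne hja]
          exact h1 j (Finset.mem_insert_of_mem hj)) (by
          intro j hj
          by_cases hja : j = a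
          · subst hja; rw [Function.update_self]; exact hφ
          · rw [Function.update_of_ne hja]
            exact h2 j (by rw [Finset.mem_insert, not_or]; exact ⟨hja, hj⟩))
        simp_rw [hsplit] at this
        exact this
      simp_rw [hself]
      rcases h1 a (Finset.mem_insert_self a s) with h | ⟨hfa, hmax⟩
      · -- domination
        apply closure_dom (τ a) (hτ a) w _ hwb
        intro ε hε
        obtain ⟨φ, hφ, v, hv, hfv, hvε⟩ := h ε hε
        have hvi : Integrable v μ := by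
          have h3 := (hDb _ hv).integrable (q := ∞) (by simp)
          have h4 := h3.re
          simpa using h4
        exact ⟨φ, v, hfv, hvi, hvε, hsingle a v hv, hD1 φ hφ⟩
      · -- maximal inequality
        apply closure_weak (τ a) hmax w _ hwb
        intro ε hε
        obtain ⟨φ, hφ, hφε⟩ := hdense (f a) hfa ε hε
        refine ⟨φ, ?_, hφε, hD1 φ hφ⟩
        exact (hfa.sub (hDb φ hφ)).mono_exponent le_top
  exact key univ f (fun j _ => hf j) (fun j hj => absurd (Finset.mem_univ j) hj)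

end Pool.Lib.Erg
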