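import Pool.Agent.Lib.APoly

set_option autoImplicit false

/-!
# Exponential polynomials with values in a group

`Λ` is a torsion free commutative group acting freely on `V \ {0}`.  A formal exponential
polynomial is a finitely supported function `v` on the group `Qs Λ` of normalised polynomial
sequences of `Λ`, the component at `β` being a function `n ↦ β(n) • p(n)` with `p` a polynomial
function.  The main results are: every formal exponential polynomial is killed by finitely many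
twisted differences, the number being bounded in terms of the degree and the number of terms
(`exists_kill`), and the zero set of a nonzero exponential polynomial is sparse with a power
saving (`sparse`).
-/

open Finset

namespace Pool.Lib.EPoly

open Pool.Lib.PolySeq Pool.Lib.APoly

section seqs

variable {Λ : Type*} [CommGroup Λ]

lemma Dv_mul' {s : ℕ} : ∀ {f g : ℕ → Λ}, Dv s f → Dv s g → Dv s (f * g) := by
  induction s with
  | zero => intro f g hf hg n; simp only [Pi.mul_apply, hf n, hg n, mul_one]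
  | succ s ih =>
    intro f g hf hg h
    have e : dd h (f * g) = dd h f * dd h g := by
      funext n
      simp only [dd, Pi.mul_apply, mul_inv_rev]
      rw [mul_comm (g n)⁻¹, mul_assoc, mul_assoc]
      congr 1
      rw [← mul_assoc, mul_comm (g n)⁻¹, mul_assoc]
    rw [e]
    exact ih (hf h) (hg h)

lemma Dv_inv' {s : ℕ} {f : ℕ → Λ} (hf : Dv s f) : Dv s f⁻¹ :=
  Dv_map (invMonoidHom : Λ →* Λ) hf

lemma Dv_one' (s : ℕ) : Dv s (1 : ℕ → Λ) := by
  induction s with
  | zero => intro n; rfl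
  | succ s ih =>
    intro h
    have e : dd h (1 : ℕ → Λ) = 1 := by funext n; simp [dd]
    rw [e]; exact ih

/-- polynomial sequences as additive polynomial functions -/
lemma PD_of_Dv {s : ℕ} : ∀ {f : ℕ → Λ}, Dv s f →
    PD (⊥ : AddSubgroup (Additive Λ)) s (fun n => Additive.ofMul (f n)) := by
  induction s with
  | zero =>
    intro f hf n
    rw [AddSubgroup.mem_bot]
    show Additive.ofMul (f n) = 0
    rw [hf n]
    rfl
  | succ s ih =>
    intro f hf
    show PD ⊥ s (del fun n => Additive.ofMul (f n))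
    have e : (del fun n => Additive.ofMul (f n)) = fun n => Additive.ofMul (dd 1 f n) := by
      funext n
      simp only [del, dd, ofMul_mul, ofMul_inv]
      abel
    rw [e]
    exact ih (hf 1)

/-- A sequence with trivial differences which is trivial from some point on is trivial. -/
lemma Dv_backward (N : ℕ) {s : ℕ} : ∀ {f : ℕ → Λ}, Dv s f → (∀ n ≥ N, f n = 1) →
    ∀ n, f n = 1 := by
  induction s with
  | zero => intro f hf _; exact hf
  | succ s ih =>
    intro f hf hN
    have h1 : ∀ n, dd 1 f n = 1 := by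
      apply ih (hf 1)
      intro n hn
      simp only [dd, hN n hn, hN (n + 1) (by omega), inv_one, one_mul]
    have h2 : ∀ n, f (n + 1) = f n := by
      intro n
      have := h1 n
      simp only [dd] at this
      exact (inv_mul_eq_one.mp this).symm
    have h3 : ∀ n, f n = f 0 := by
      intro n
      induction n with
      | zero => rfl
      | succ n ihn => rw [h2, ihn]
    intro n
    rw [h3 n, ← h3 N]
    exact hN N le_rfl

variable (Λ) in
/-- normalised polynomial sequences -/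
def Qs : Subgroup (ℕ → Λ) where
  carrier := {α | α 0 = 1 ∧ ∃ D, Dv D α}
  mul_mem' := by
    rintro a b ⟨ha, D, hD⟩ ⟨hb, D', hD'⟩
    refine ⟨by rw [Pi.mul_apply, ha, hb, mul_one], max D D', Dv_mul' ?_ ?_⟩
    · exact Dv_le (le_max_left _ _) hD
    · exact Dv_le (le_max_right _ _) hD'
  one_mem' := ⟨rfl, 0, Dv_one' 0⟩
  inv_mem' := by
    rintro a ⟨ha, D, hD⟩
    exact ⟨by rw [Pi.inv_apply, ha, inv_one], D, Dv_inv' hD⟩

variable (Λ) in
/-- normalised polynomial sequences of degree at most `D` -/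
def QD (D : ℕ) : Subgroup (Qs Λ) where
  carrier := {α | Dv (D + 1) α.1}
  mul_mem' := fun ha hb => Dv_mul' ha hb
  one_mem' := Dv_one' _
  inv_mem' := fun ha => Dv_inv' ha

lemma QD_mono (D : ℕ) : QD Λ D ≤ QD Λ (D + 1) := fun _ ha => Dv_mono ha

lemma Dv_shift (h : ℕ) {s : ℕ} {f : ℕ → Λ} (hf : Dv s f) : Dv s (fun n => f (n + h)) := by
  have := Dv_affine 1 h hf
  simpa only [one_mul] using this

lemma Dv_const_mul (c : Λ) {s : ℕ} (hs : 0 < s) {f : ℕ → Λ} (hf : Dv s f) :
    Dv s (fun n => f n * c) := by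
  have := Dv_left c hs hf
  simpa only [mul_comm] using this

/-- the shift on normalised sequences -/
def sg (h : ℕ) (β : Qs Λ) : Qs Λ :=
  ⟨fun n => β.1 (n + h) * (β.1 h)⁻¹, by
    obtain ⟨β, hβ, D, hD⟩ := β
    refine ⟨by simp, D + 1, ?_⟩
    exact Dv_const_mul _ (Nat.succ_pos D) (Dv_shift h (Dv_mono hD))⟩

lemma sg_one (h : ℕ) : sg h (1 : Qs Λ) = 1 := by
  apply Subtype.ext
  funext n
  show (1 : Λ) * 1⁻¹ = 1
  simp

lemma sg_mem {D h : ℕ} {β : Qs Λ} (hβ : β ∈ QD Λ D) : sg h β ∈ QD Λ D :=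
  Dv_const_mul _ (Nat.succ_pos D) (Dv_shift h hβ)

/-- the shift does not change the leading term -/
lemma sg_div {D h : ℕ} {β : Qs Λ} (hβ : β ∈ QD Λ (D + 1)) : β⁻¹ * sg h β ∈ QD Λ D := by
  have h1 : Dv (D + 1) (dd h β.1) := hβ h
  have h2 := Dv_const_mul ((β.1 h)⁻¹) (Nat.succ_pos D) h1
  show Dv (D + 1) (β⁻¹ * sg h β).1
  have e : (β⁻¹ * sg h β).1 = fun n => dd h β.1 n * (β.1 h)⁻¹ := by
    funext n
    show (β.1 n)⁻¹ * (β.1 (n + h) * (β.1 h)⁻¹) = (β.1 n)⁻¹ * β.1 (n + h) * (β.1 h)⁻¹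
    rw [mul_assoc]
  rw [e]
  exact h2

lemma sg_add (a b : ℕ) (β : Qs Λ) : sg a (sg b β) = sg (a + b) β := by
  apply Subtype.ext
  funext n
  show β.1 (n + a + b) * (β.1 b)⁻¹ * (β.1 (a + b) * (β.1 b)⁻¹)⁻¹ =
    β.1 (n + (a + b)) * (β.1 (a + b))⁻¹
  rw [mul_inv_rev, inv_inv, show n + a + b = n + (a + b) by ring]
  rw [mul_assoc, inv_mul_cancel_left]

lemma sg_injective (h : ℕ) : Function.Injective (sg h : Qs Λ → Qs Λ) := by
  intro β γ hβγ
  obtain ⟨D, hD⟩ := (β * γ⁻¹).2.2
  have h0 : (β * γ⁻¹).1 0 = 1 := (β * γ⁻¹).2.1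
  have h1 : ∀ n, β.1 (n + h) * (β.1 h)⁻¹ = γ.1 (n + h) * (γ.1 h)⁻¹ := by
    intro n
    exact congrFun (congrArg Subtype.val hβγ) n
  have h2 : ∀ n ≥ h, (β * γ⁻¹).1 n * ((β * γ⁻¹).1 h)⁻¹ = 1 := by
    intro n hn
    obtain ⟨k, rfl⟩ := Nat.exists_eq_add_of_le hn
    have h3 := h1 k
    rw [add_comm k h] at h3
    show β.1 (h + k) * (γ.1 (h + k))⁻¹ * (β.1 h * (γ.1 h)⁻¹)⁻¹ = 1
    rw [mul_inv_rev, inv_inv, mul_assoc, mul_comm (γ.1 (h + k))⁻¹, mul_comm (γ.1 h) (β.1 h)⁻¹,
      mul_assoc, ← mul_assoc, h3]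
    rw [mul_assoc, mul_comm (γ.1 h) (γ.1 (h + k))⁻¹, ← mul_assoc (γ.1 h)⁻¹,
      mul_comm (γ.1 h)⁻¹ (γ.1 (h + k))⁻¹, mul_assoc, inv_mul_cancel, mul_one, mul_inv_cancel]
  have h3 := Dv_backward h (Dv_const_mul (((β * γ⁻¹).1 h)⁻¹) (Nat.succ_pos D) (Dv_mono hD)) h2
  have h4 : (β * γ⁻¹).1 h = 1 := by
    have := h3 0
    rw [h0, one_mul, inv_eq_one] at this
    exact this
  have h5 : β * γ⁻¹ = 1 := by
    apply Subtype.ext
    funext n
    have := h3 n
    rw [h4, inv_one, mul_one] at this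
    exact this
  exact mul_inv_eq_one.mp h5

lemma QD_zero {β : Qs Λ} (hβ : β ∈ QD Λ 0) : β = 1 := by
  apply Subtype.ext
  funext n
  have h1 : Dv 1 β.1 := hβ
  have h2 : (β.1 0)⁻¹ * β.1 (0 + n) = 1 := h1 n 0
  rw [β.2.1, inv_one, one_mul, zero_add] at h2
  exact h2

lemma exists_QD (β : Qs Λ) : ∃ D, β ∈ QD Λ D := by
  obtain ⟨D, hD⟩ := β.2.2
  exact ⟨D, Dv_mono hD⟩

/-- a sequence proportional to one of its shifts is geometric (torsion free case) -/
lemma geometric (htf : ∀ (x : Λ) (m : ℕ), 0 < m → x ^ m = 1 → x = 1) {β : Qs Λ} {l : ℕ}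
    (hl : 0 < l) (h : sg l β = β) : ∀ n, β.1 n = (β.1 1) ^ n := by
  have h1 : ∀ n, β.1 (n + l) = β.1 n * β.1 l := by
    intro n
    have : β.1 (n + l) * (β.1 l)⁻¹ = β.1 n := congrFun (congrArg Subtype.val h) n
    rw [← this, inv_mul_cancel_right]
  obtain ⟨D, hD⟩ := β.2.2
  have h2 : Dv D (dd 1 β.1) := (Dv_mono hD) 1
  have h3 : ∀ n, dd 1 β.1 (n + l) = dd 1 β.1 n := by
    intro n
    simp only [dd]
    rw [show n + l + 1 = n + 1 + l by ring, h1, h1, mul_inv_rev,
      mul_comm (β.1 l)⁻¹, mul_assoc, mul_comm (β.1 (n + 1)), ← mul_assoc (β.1 l)⁻¹,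
      inv_mul_cancel, one_mul]
  have h4 : ∀ n, dd 1 β.1 n = dd 1 β.1 0 := by
    have := const_of_periodic (V := Additive Λ) (fun m hm v hv => by
      have : (Additive.toMul v) ^ m = 1 := hv
      exact htf _ m hm this) l hl (PD_of_Dv h2) (fun n => by
        show Additive.ofMul (dd 1 β.1 (n + l)) = Additive.ofMul (dd 1 β.1 n)
        rw [h3])
    intro n
    exact this n
  have h5 : dd 1 β.1 0 = β.1 1 := by
    show (β.1 0)⁻¹ * β.1 (0 + 1) = β.1 1
    rw [β.2.1, inv_one, one_mul]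
  intro n
  induction n with
  | zero => rw [pow_zero]; exact β.2.1
  | succ n ihn =>
    have h6 : (β.1 n)⁻¹ * β.1 (n + 1) = β.1 1 := by rw [← h5, ← h4 n]; rfl
    rw [pow_succ, ← ihn, ← h6, mul_inv_cancel_left]

end seqs

variable {Λ : Type*} [CommGroup Λ] {V : Type*} [AddCommGroup V] [DistribMulAction Λ V]

/-- pointwise multiplication by a sequence -/
def mulHom (α : ℕ → Λ) : (ℕ → V) →+ (ℕ → V) where
  toFun f n := (α n)⁻¹ • f n
  map_zero' := by funext n; simp
  map_add' f g := by funext n; simp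

/-- the shift of functions -/
def shHom (h : ℕ) : (ℕ → V) →+ (ℕ → V) where
  toFun f n := f (n + h)
  map_zero' := by funext n; simp
  map_add' f g := by funext n; simp

/-- Formal exponential polynomials -/
abbrev FE (Λ V : Type*) [CommGroup Λ] [AddCommGroup V] := Qs Λ →₀ (ℕ → V)

/-- multiplication by `α⁻¹` -/
noncomputable def MM (α : Qs Λ) : FE Λ V →+ FE Λ V :=
  (Finsupp.mapDomain.addMonoidHom (fun β : Qs Λ => β * α⁻¹)).comp
    (Finsupp.mapRange.addMonoidHom (mulHom α.1))

/-- the formal shift -/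
noncomputable def SS (h : ℕ) : FE Λ V →+ FE Λ V :=
  (Finsupp.mapDomain.addMonoidHom (sg h)).comp (Finsupp.mapRange.addMonoidHom (shHom h))

/-- twisted difference -/
noncomputable def tw (α : Qs Λ) (h : ℕ) : FE Λ V →+ FE Λ V :=
  (SS h).comp (MM α) - MM α

/-- evaluation -/
noncomputable def ev (n : ℕ) : FE Λ V →+ V :=
  Finsupp.liftAddHom fun _ => Pi.evalAddMonoidHom (fun _ : ℕ => V) n

lemma ev_single (n : ℕ) (β : Qs Λ) (f : ℕ → V) : ev n (Finsupp.single β f) = f n := by
  simp [ev]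

lemma MM_single (α β : Qs Λ) (f : ℕ → V) :
    MM α (Finsupp.single β f) = Finsupp.single (β * α⁻¹) (mulHom α.1 f) := by
  simp [MM]

lemma SS_single (h : ℕ) (β : Qs Λ) (f : ℕ → V) :
    SS h (Finsupp.single β f) = Finsupp.single (sg h β) (shHom h f) := by
  simp [SS]

lemma ev_MM (α : Qs Λ) (n : ℕ) (v : FE Λ V) : ev n (MM α v) = (α.1 n)⁻¹ • ev n v := by
  induction v using Finsupp.induction_linear with
  | zero => simp
  | add v w hv hw => rw [map_add, map_add, map_add, hv, hw, smul_add]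
  | single β f => rw [MM_single, ev_single, ev_single]; rfl

lemma ev_SS (h n : ℕ) (v : FE Λ V) : ev n (SS h v) = ev (n + h) v := by
  induction v using Finsupp.induction_linear with
  | zero => simp
  | add v w hv hw => rw [map_add, map_add, map_add, hv, hw]
  | single β f => rw [SS_single, ev_single, ev_single]; rfl

lemma ev_tw (α : Qs Λ) (h n : ℕ) (v : FE Λ V) :
    ev n (tw α h v) = (α.1 (n + h))⁻¹ • ev (n + h) v - (α.1 n)⁻¹ • ev n v := by
  show ev n (SS h (MM α v) - MM α v) = _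
  rw [map_sub, ev_SS, ev_MM, ev_MM]

lemma MM_apply (α : Qs Λ) (v : FE Λ V) (γ : Qs Λ) :
    MM α v γ = mulHom α.1 (v (γ * α)) := by
  have hinj : Function.Injective (fun β : Qs Λ => β * α⁻¹) := mul_left_injective _
  have e : γ = (fun β : Qs Λ => β * α⁻¹) (γ * α) := by simp
  conv_lhs => rw [e]
  show (Finsupp.mapDomain (fun β : Qs Λ => β * α⁻¹)
    (Finsupp.mapRange (mulHom α.1) (map_zero _) v)) ((fun β : Qs Λ => β * α⁻¹) (γ * α)) = _
  rw [Finsupp.mapDomain_apply hinj, Finsupp.mapRange_apply]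

lemma SS_apply (h : ℕ) (v : FE Λ V) (β : Qs Λ) : SS h v (sg h β) = shHom h (v β) := by
  show (Finsupp.mapDomain (sg h) (Finsupp.mapRange (shHom h) (map_zero _) v)) (sg h β) = _
  rw [Finsupp.mapDomain_apply (sg_injective h), Finsupp.mapRange_apply]

lemma SS_apply_notin (h : ℕ) (v : FE Λ V) (γ : Qs Λ) (hγ : γ ∉ Set.range (sg h)) :
    SS h v γ = 0 := by
  show (Finsupp.mapDomain (sg h) (Finsupp.mapRange (shHom h) (map_zero _) v)) γ = _
  exact Finsupp.mapDomain_notin_range _ _ hγ

lemma mulHom_injective (α : ℕ → Λ) : Function.Injective (mulHom α : (ℕ → V) →+ (ℕ → V)) := by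
  intro f g hfg
  funext n
  have : (α n)⁻¹ • f n = (α n)⁻¹ • g n := congrFun hfg n
  exact MulAction.injective _ this

lemma MM_injective (α : Qs Λ) : Function.Injective (MM α : FE Λ V →+ FE Λ V) := by
  intro v w hvw
  ext1 γ
  have := DFunLike.congr_fun hvw (γ * α⁻¹)
  rw [MM_apply, MM_apply, inv_mul_cancel_right] at this
  exact mulHom_injective _ this

lemma MM_MM (α β : Qs Λ) (v : FE Λ V) : MM α (MM β v) = MM (α * β) v := by
  ext1 γ
  rw [MM_apply, MM_apply, MM_apply]
  funext n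
  show (α.1 n)⁻¹ • (β.1 n)⁻¹ • v (γ * α * β) n = (α.1 n * β.1 n)⁻¹ • v (γ * (α * β)) n
  rw [← mul_smul, mul_inv_rev, mul_comm (β.1 n)⁻¹, mul_assoc γ]

lemma tw_MM (α β : Qs Λ) (h : ℕ) (v : FE Λ V) : tw α h (MM β v) = tw (α * β) h v := by
  show SS h (MM α (MM β v)) - MM α (MM β v) = SS h (MM (α * β) v) - MM (α * β) v
  rw [MM_MM]

/-- the coefficients are polynomial functions of degree less than `k` -/
def Gd (k : ℕ) (v : FE Λ V) : Prop :=
  ∀ β : Qs Λ, ∃ p : ℕ → V, PD ⊥ k p ∧ ∀ n, v β n = β.1 n • p n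

lemma PD_smul_const (l : Λ) {k : ℕ} {p : ℕ → V} (hp : PD ⊥ k p) : PD ⊥ k (fun n => l • p n) :=
  PD_map (DistribMulAction.toAddMonoidHom V l) (fun v hv => by
    rw [AddSubgroup.mem_bot] at hv ⊢
    rw [hv]; exact map_zero _) hp

lemma Gd.sub {k : ℕ} {v w : FE Λ V} (hv : Gd k v) (hw : Gd k w) : Gd k (v - w) := by
  intro β
  obtain ⟨p, hp, hp'⟩ := hv β
  obtain ⟨q, hq, hq'⟩ := hw β
  refine ⟨fun n => p n - q n, PD_sub hp hq, fun n => ?_⟩
  rw [Finsupp.sub_apply, Pi.sub_apply, hp', hq', smul_sub]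

lemma Gd.add {k : ℕ} {v w : FE Λ V} (hv : Gd k v) (hw : Gd k w) : Gd k (v + w) := by
  intro β
  obtain ⟨p, hp, hp'⟩ := hv β
  obtain ⟨q, hq, hq'⟩ := hw β
  refine ⟨fun n => p n + q n, PD_add hp hq, fun n => ?_⟩
  rw [Finsupp.add_apply, Pi.add_apply, hp', hq', smul_add]

lemma Gd.zero (k : ℕ) : Gd k (0 : FE Λ V) := by
  intro β
  exact ⟨fun _ => 0, PD_zero k, fun n => by simp⟩

lemma Gd.single {k : ℕ} (β : Qs Λ) {p : ℕ → V} (hp : PD ⊥ k p) :
    Gd k (Finsupp.single β fun n => β.1 n • p n) := by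
  classical
  intro γ
  by_cases h : β = γ
  · subst h
    exact ⟨p, hp, fun n => by rw [Finsupp.single_eq_same]⟩
  · refine ⟨fun _ => 0, PD_zero k, fun n => ?_⟩
    rw [Finsupp.single_apply, if_neg h]; simp

lemma Gd.MM {k : ℕ} {v : FE Λ V} (hv : Gd k v) (α : Qs Λ) : Gd k (MM α v) := by
  intro γ
  obtain ⟨p, hp, hp'⟩ := hv (γ * α)
  refine ⟨p, hp, fun n => ?_⟩
  rw [MM_apply]
  show (α.1 n)⁻¹ • v (γ * α) n = _
  rw [hp', ← mul_smul]
  congr 1
  show (α.1 n)⁻¹ * (γ.1 n * α.1 n) = γ.1 n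
  rw [mul_comm, mul_inv_cancel_right]

lemma Gd.SS {k : ℕ} {v : FE Λ V} (hv : Gd k v) (h : ℕ) : Gd k (SS h v) := by
  intro γ
  by_cases hγ : γ ∈ Set.range (sg h)
  · obtain ⟨β, rfl⟩ := hγ
    obtain ⟨p, hp, hp'⟩ := hv β
    refine ⟨fun n => β.1 h • p (n + h), PD_smul_const _ (PD_shift h hp), fun n => ?_⟩
    rw [SS_apply]
    show v β (n + h) = (β.1 (n + h) * (β.1 h)⁻¹) • β.1 h • p (n + h)
    rw [hp', ← mul_smul, inv_mul_cancel_right]
  · rw [SS_apply_notin h v γ hγ]
    exact ⟨fun _ => 0, PD_zero k, fun n => by simp⟩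

lemma Gd.tw {k : ℕ} {v : FE Λ V} (hv : Gd k v) (α : Qs Λ) (h : ℕ) : Gd k (tw α h v) :=
  ((hv.MM α).SS h).sub (hv.MM α)

lemma PD_backward (N : ℕ) {k : ℕ} : ∀ {p : ℕ → V}, PD ⊥ k p → (∀ n ≥ N, p n = 0) →
    ∀ n, p n = 0 := by
  induction k with
  | zero => intro p hp _ n; exact AddSubgroup.mem_bot.mp (hp n)
  | succ k ih =>
    intro p hp hN
    have h1 : ∀ n, del p n = 0 := by
      apply ih hp
      intro n hn
      simp only [del, hN n hn, hN (n + 1) (by omega), sub_zero]
    have h2 : ∀ n, p n = p 0 := by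
      intro n
      induction n with
      | zero => rfl
      | succ n ihn =>
        have := h1 n
        simp only [del, sub_eq_zero] at this
        rw [this, ihn]
    intro n
    rw [h2 n, ← h2 N]
    exact hN N le_rfl

/-- no polynomial function is an eigenvector of a shift with a nontrivial multiplier -/
lemma no_twist (hfree : ∀ l : Λ, l ≠ 1 → ∀ v : V, l • v = v → v = 0) (l : Λ) (hl : l ≠ 1) (h : ℕ)
    {k : ℕ} : ∀ {p : ℕ → V}, PD ⊥ k p → (∀ n, p n = l • p (n + h)) → ∀ n, p n = 0 := by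
  induction k with
  | zero => intro p hp _ n; exact AddSubgroup.mem_bot.mp (hp n)
  | succ k ih =>
    intro p hp hrel
    have h1 : ∀ n, del p n = 0 := by
      apply ih hp
      intro n
      simp only [del]
      rw [show n + h + 1 = n + 1 + h by ring, smul_sub, ← hrel, ← hrel]
    have h2 : ∀ n, p n = p 0 := by
      intro n
      induction n with
      | zero => rfl
      | succ n ihn =>
        have := h1 n
        simp only [del, sub_eq_zero] at this
        rw [this, ihn]
    have h3 : p 0 = 0 := by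
      apply hfree l hl
      have := hrel 0
      rw [h2 (0 + h)] at this
      exact this.symm
    intro n
    rw [h2 n, h3]

/-- **Formal injectivity**: a formal exponential polynomial equal to its shift is constant. -/
lemma shift_fixed (htf : ∀ (x : Λ) (m : ℕ), 0 < m → x ^ m = 1 → x = 1)
    (hfree : ∀ l : Λ, l ≠ 1 → ∀ v : V, l • v = v → v = 0) {k : ℕ}
    (hT : k ≤ 1 ∨ ∀ m : ℕ, 0 < m → ∀ v : V, m • v = 0 → v = 0) {w : FE Λ V} (hw : Gd k w)
    {h : ℕ} (hh : 0 < h) (hS : SS h w = w) : ∃ c : V, w = Finsupp.single 1 (fun _ => c) := by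
  classical
  -- the support is stable under the shift
  have hstab : ∀ β, w β ≠ 0 → w (sg h β) ≠ 0 := by
    intro β hβ hcon
    apply hβ
    obtain ⟨p, hp, hp'⟩ := hw β
    have h1 : shHom h (w β) = 0 := by rw [← SS_apply, hS]; exact hcon
    have h2 : ∀ n ≥ h, p n = 0 := by
      intro n hn
      obtain ⟨m, rfl⟩ := Nat.exists_eq_add_of_le hn
      have h3 : w β (m + h) = 0 := congrFun h1 m
      rw [hp', smul_eq_zero_iff_eq] at h3
      rw [add_comm]; exact h3
    have h3 := PD_backward h hp h2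
    funext n
    rw [hp', h3, smul_zero]; rfl
  have hiter : ∀ (m : ℕ) β, w β ≠ 0 → w (sg (m * h) β) ≠ 0 := by
    intro m
    induction m with
    | zero =>
      intro β hβ
      have e : sg (0 * h) β = β := by
        apply Subtype.ext
        funext n
        show β.1 (n + 0 * h) * (β.1 (0 * h))⁻¹ = β.1 n
        rw [zero_mul, β.2.1]; simp
      rwa [e]
    | succ m ihm =>
      intro β hβ
      have := hstab _ (ihm β hβ)
      rw [sg_add] at this
      rwa [show (m + 1) * h = h + m * h by ring]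
  have hgeo : ∀ β, w β ≠ 0 → β = 1 := by
    intro β hβ
    -- pigeonhole
    obtain ⟨a, b, hab, heq⟩ : ∃ a b : ℕ, a < b ∧ sg (a * h) β = sg (b * h) β := by
      by_contra hcon
      push Not at hcon
      have hinj : Function.Injective fun m : ℕ => sg (m * h) β := by
        intro x y hxy
        rcases lt_trichotomy x y with hlt | heq | hgt
        · exact absurd hxy (hcon x y hlt)
        · exact heq
        · exact absurd hxy.symm (hcon y x hgt)
      have hsub : Set.range (fun m : ℕ => sg (m * h) β) ⊆ ↑w.support := by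
        rintro _ ⟨m, rfl⟩
        rw [Finset.mem_coe, Finsupp.mem_support_iff]
        exact hiter m β hβ
      exact (Set.infinite_range_of_injective hinj) (w.support.finite_toSet.subset hsub)
    obtain ⟨c, rfl⟩ := Nat.exists_eq_add_of_lt hab
    have h1 : sg ((c + 1) * h) β = β := by
      apply sg_injective (a * h)
      rw [sg_add, heq]
      congr 1; ring
    have h2 := geometric htf (by positivity) h1
    -- now the shift fixes `β`
    have h3 : sg h β = β := by
      apply Subtype.ext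
      funext n
      show β.1 (n + h) * (β.1 h)⁻¹ = β.1 n
      rw [h2 (n + h), h2 h, h2 n, pow_add, mul_inv_cancel_right]
    obtain ⟨p, hp, hp'⟩ := hw β
    have h4 : ∀ n, p n = (β.1 h) • p (n + h) := by
      intro n
      have h5 : w β n = w β (n + h) := by
        have h6 := SS_apply h w β
        rw [hS, h3] at h6
        exact congrFun h6 n
      rw [hp', hp', h2 (n + h), pow_add, mul_smul, ← h2 n, ← h2 h] at h5
      exact MulAction.injective _ h5
    by_contra hne
    have hc : β.1 1 ≠ 1 := by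
      intro hc
      apply hne
      apply Subtype.ext
      funext n
      rw [h2 n, hc, one_pow]; rfl
    have hch : β.1 h ≠ 1 := by
      intro hch
      rw [h2 h] at hch
      exact hc (htf _ h hh hch)
    apply hβ
    have := no_twist hfree _ hch h hp h4
    funext n
    rw [hp', this, smul_zero]; rfl
  -- the coefficient at `1` is constant
  obtain ⟨p, hp, hp'⟩ := hw 1
  have h1 : ∀ n, p (n + h) = p n := by
    intro n
    have h6 := SS_apply h w 1
    rw [hS, sg_one] at h6
    have h7 : w 1 n = w 1 (n + h) := congrFun h6 n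
    rw [hp', hp'] at h7
    have e1 : ∀ n, (1 : Qs Λ).1 n = 1 := fun n => rfl
    rw [e1, e1, one_smul, one_smul] at h7
    exact h7.symm
  have h2 : ∀ n, p n = p 0 := by
    rcases hT with hk | htors
    · have hp1 : PD ⊥ 1 p := PD_le hk hp
      intro n
      induction n with
      | zero => rfl
      | succ n ihn =>
        have := hp1 n
        rw [AddSubgroup.mem_bot] at this
        simp only [del, sub_eq_zero] at this
        rw [this, ihn]
    · exact const_of_periodic htors h hh hp h1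
  refine ⟨p 0, ?_⟩
  ext1 β
  by_cases hβ : β = 1
  · subst hβ
    rw [Finsupp.single_eq_same]
    funext n
    rw [hp', h2 n]
    exact one_smul _ _
  · rw [Finsupp.single_apply, if_neg (Ne.symm hβ)]
    by_contra hcon
    exact hβ (hgeo β hcon)

end Pool.Lib.EPoly
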