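import Pool.Agent.Lib.ExpPoly

set_option autoImplicit false

/-!
# Killing exponential polynomials; sparse zero sets
-/

open Finset

namespace Pool.Lib.EPoly

open Pool.Lib.PolySeq Pool.Lib.APoly

variable {Λ : Type*} [CommGroup Λ] {V : Type*} [AddCommGroup V] [DistribMulAction Λ V]

/-- `v` is killed by `s` twisted differences, with multipliers of degree at most `D`. -/
def Kill (D : ℕ) : ℕ → FE Λ V → Prop
  | 0, v => v = 0
  | s + 1, v => ∃ α ∈ QD Λ D, ∀ h : ℕ, 1 ≤ h → Kill D s (tw α h v)

lemma Kill_mono {D s : ℕ} : ∀ {v : FE Λ V}, Kill D s v → Kill D (s + 1) v := by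
  induction s with
  | zero =>
    intro v hv
    have hv' : v = 0 := hv
    subst hv'
    exact ⟨1, (QD Λ D).one_mem, fun h _ => by show tw 1 h 0 = 0; exact map_zero _⟩
  | succ s ih =>
    rintro v ⟨α, hα, hk⟩
    exact ⟨α, hα, fun h hh => ih (hk h hh)⟩

lemma Kill_le {D s t : ℕ} (hst : s ≤ t) {v : FE Λ V} (hv : Kill D s v) : Kill D t v := by
  induction t, hst using Nat.le_induction with
  | base => exact hv
  | succ t _ ih => exact Kill_mono ih

lemma Kill_deg {D s : ℕ} : ∀ {v : FE Λ V}, Kill D s v → Kill (D + 1) s v := by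
  induction s with
  | zero => intro v hv; exact hv
  | succ s ih =>
    rintro v ⟨α, hα, hk⟩
    exact ⟨α, QD_mono D hα, fun h hh => ih (hk h hh)⟩

lemma Kill_of_MM {D s : ℕ} {α : Qs Λ} (hα : α ∈ QD Λ D) {v : FE Λ V} (hv : Kill D s (MM α v)) :
    Kill D s v := by
  cases s with
  | zero =>
    have hv' : MM α v = 0 := hv
    apply MM_injective α
    rw [hv', map_zero]
  | succ s =>
    obtain ⟨β, hβ, hk⟩ := hv
    refine ⟨β * α, (QD Λ D).mul_mem hβ hα, fun h hh => ?_⟩
    rw [← tw_MM]
    exact hk h hh

lemma kill_single (k : ℕ) : ∀ f : ℕ → V, PD ⊥ k f →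
    Kill 0 k (Finsupp.single (1 : Qs Λ) f : FE Λ V) := by
  induction k with
  | zero =>
    intro f hf
    have : f = 0 := by
      funext n
      exact AddSubgroup.mem_bot.mp (hf n)
    subst this
    show (Finsupp.single (1 : Qs Λ) (0 : ℕ → V) : FE Λ V) = 0
    exact Finsupp.single_zero _
  | succ k ih =>
    intro f hf
    refine ⟨1, (QD Λ 0).one_mem, fun h _ => ?_⟩
    have e : tw (1 : Qs Λ) h (Finsupp.single (1 : Qs Λ) f : FE Λ V) =
        Finsupp.single (1 : Qs Λ) (fun n => f (n + h) - f n) := by
      show SS h (MM 1 (Finsupp.single (1 : Qs Λ) f)) - MM 1 (Finsupp.single (1 : Qs Λ) f) = _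
      rw [MM_single, SS_single, inv_one, mul_one, sg_one, ← Finsupp.single_sub]
      congr 1
      funext n
      show (1 : Λ)⁻¹ • f (n + h) - (1 : Λ)⁻¹ • f n = f (n + h) - f n
      rw [inv_one, one_smul, one_smul]
    rw [e]
    exact ih _ (PD_diff h hf)

lemma tw_support [DecidableEq (Qs Λ)] (α : Qs Λ) (h : ℕ) (v : FE Λ V) :
    (tw α h v).support ⊆ (v.support.image fun β => sg h (β * α⁻¹)) ∪
      (v.support.image fun β => β * α⁻¹) := by
  intro γ hγ
  rw [Finsupp.mem_support_iff] at hγ
  rw [mem_union]
  by_contra hcon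
  push Not at hcon
  obtain ⟨h1, h2⟩ := hcon
  apply hγ
  have e : tw α h v γ = SS h (MM α v) γ - MM α v γ := rfl
  have e2 : MM α v γ = 0 := by
    rw [MM_apply]
    have : v (γ * α) = 0 := by
      by_contra hne
      apply h2
      rw [mem_image]
      exact ⟨γ * α, Finsupp.mem_support_iff.mpr hne, by simp⟩
    rw [this, map_zero]
  have e1 : SS h (MM α v) γ = 0 := by
    by_cases hr : γ ∈ Set.range (sg h)
    · obtain ⟨β, rfl⟩ := hr
      rw [SS_apply, MM_apply]
      have : v (β * α) = 0 := by
        by_contra hne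
        apply h1
        rw [mem_image]
        exact ⟨β * α, Finsupp.mem_support_iff.mpr hne, by simp⟩
      rw [this, map_zero, map_zero]
    · exact SS_apply_notin h _ _ hr
  rw [e, e1, e2, sub_zero]

/-- the set of classes modulo lower degree -/
noncomputable def cls (D : ℕ) (v : FE Λ V) : Finset (Qs Λ ⧸ QD Λ D) :=
  @Finset.image _ _ (Classical.decEq _) (fun β : Qs Λ => (QuotientGroup.mk β : Qs Λ ⧸ QD Λ D))
    v.support

lemma mem_cls {D : ℕ} {v : FE Λ V} {c : Qs Λ ⧸ QD Λ D} :
    c ∈ cls D v ↔ ∃ β : Qs Λ, v β ≠ 0 ∧ (QuotientGroup.mk β : Qs Λ ⧸ QD Λ D) = c := by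
  unfold cls
  simp only [Finset.mem_image, Finsupp.mem_support_iff]

lemma card_cls_le (D : ℕ) (v : FE Λ V) : (cls D v).card ≤ v.support.card := by
  unfold cls
  exact @Finset.card_image_le _ _ _ _ (Classical.decEq _)

lemma cls_tw {D : ℕ} {α : Qs Λ} (hα : α ∈ QD Λ D) (h : ℕ) {v : FE Λ V}
    (hv : ∀ β, v β ≠ 0 → β ∈ QD Λ (D + 1)) : cls D (tw α h v) ⊆ cls D v := by
  classical
  intro c hc
  rw [mem_cls] at hc ⊢
  obtain ⟨γ, hγ, rfl⟩ := hc
  have h1 := tw_support α h v (Finsupp.mem_support_iff.mpr hγ)
  rw [mem_union, mem_image, mem_image] at h1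
  rcases h1 with ⟨β, hβ, rfl⟩ | ⟨β, hβ, rfl⟩
  · rw [Finsupp.mem_support_iff] at hβ
    refine ⟨β, hβ, ?_⟩
    rw [QuotientGroup.eq]
    have h2 : β * α⁻¹ ∈ QD Λ (D + 1) :=
      (QD Λ (D + 1)).mul_mem (hv β hβ) ((QD Λ (D + 1)).inv_mem (QD_mono D hα))
    have h3 := sg_div (h := h) h2
    have h4 : β⁻¹ * sg h (β * α⁻¹) = α⁻¹ * ((β * α⁻¹)⁻¹ * sg h (β * α⁻¹)) := by group
    rw [h4]
    exact (QD Λ D).mul_mem ((QD Λ D).inv_mem hα) h3
  · rw [Finsupp.mem_support_iff] at hβ
    refine ⟨β, hβ, ?_⟩
    rw [QuotientGroup.eq]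
    have h4 : β⁻¹ * (β * α⁻¹) = α⁻¹ := by group
    rw [h4]
    exact (QD Λ D).inv_mem hα

lemma tw_deg {D : ℕ} {α : Qs Λ} (hα : α ∈ QD Λ D) (h : ℕ) {v : FE Λ V}
    (hv : ∀ β, v β ≠ 0 → β ∈ QD Λ D) : ∀ β, tw α h v β ≠ 0 → β ∈ QD Λ D := by
  classical
  intro γ hγ
  have h1 := tw_support α h v (Finsupp.mem_support_iff.mpr hγ)
  rw [mem_union, mem_image, mem_image] at h1
  rcases h1 with ⟨β, hβ, rfl⟩ | ⟨β, hβ, rfl⟩
  · rw [Finsupp.mem_support_iff] at hβ
    exact sg_mem ((QD Λ D).mul_mem (hv β hβ) ((QD Λ D).inv_mem hα))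
  · rw [Finsupp.mem_support_iff] at hβ
    exact (QD Λ D).mul_mem (hv β hβ) ((QD Λ D).inv_mem hα)

lemma tw_card (α : Qs Λ) (h : ℕ) (v : FE Λ V) :
    (tw α h v).support.card ≤ 2 * v.support.card := by
  classical
  calc _ ≤ _ := card_le_card (tw_support α h v)
    _ ≤ _ := card_union_le _ _
    _ ≤ v.support.card + v.support.card := add_le_add card_image_le card_image_le
    _ = 2 * v.support.card := by ring

/-- Every exponential polynomial is killed; the number of steps is bounded in terms of the degree,
the degrees of the coefficients and the number of terms. -/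
theorem exists_kill (k : ℕ) : ∀ (D B : ℕ), ∃ s : ℕ, ∀ v : FE Λ V, Gd k v →
    (∀ β, v β ≠ 0 → β ∈ QD Λ D) → v.support.card ≤ B → Kill D s v := by
  classical
  intro D
  induction D with
  | zero =>
    intro B
    refine ⟨k, fun v hv hD _ => ?_⟩
    have e : v = Finsupp.single 1 (v 1) := by
      ext1 β
      by_cases hβ : β = 1
      · subst hβ; rw [Finsupp.single_eq_same]
      · rw [Finsupp.single_apply, if_neg (Ne.symm hβ)]
        by_contra hne
        exact hβ (QD_zero (hD β hne))
    rw [e]
    apply kill_single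
    obtain ⟨p, hp, hp'⟩ := hv 1
    have : v 1 = p := by
      funext n
      rw [hp']
      exact one_smul _ _
    rw [this]
    exact hp
  | succ D ihD =>
    have inner : ∀ (g B : ℕ), ∃ s : ℕ, ∀ v : FE Λ V, Gd k v →
        (∀ β, v β ≠ 0 → β ∈ QD Λ (D + 1)) → (cls D v).card ≤ g → v.support.card ≤ B →
        Kill (D + 1) s v := by
      intro g
      induction g with
      | zero =>
        intro B
        refine ⟨0, fun v _ _ hcl _ => ?_⟩
        show v = 0
        by_contra hne
        obtain ⟨β, hβ⟩ := Finsupp.support_nonempty_iff.mpr hne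
        have : (β : Qs Λ ⧸ QD Λ D) ∈ cls D v :=
          mem_cls.mpr ⟨β, Finsupp.mem_support_iff.mp hβ, rfl⟩
        rw [Nat.le_zero, card_eq_zero] at hcl
        rw [hcl] at this
        exact absurd this (notMem_empty _)
      | succ g ihg =>
        intro B
        obtain ⟨s1, hs1⟩ := ihD B
        choose f hf using ihg
        -- the combination lemma
        have comb : ∀ (t B' : ℕ) (w v' : FE Λ V), Kill D t w → Gd k v' →
            (∀ β, v' β ≠ 0 → β ∈ QD Λ (D + 1)) → (cls D v').card ≤ g →
            v'.support.card ≤ B' → Kill (D + 1) (t + f (2 ^ t * B')) (w + v') := by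
          intro t
          induction t with
          | zero =>
            intro B' w v' hw hG hD hc hB
            have hw' : w = 0 := hw
            subst hw'
            rw [zero_add, zero_add, pow_zero, one_mul]
            exact hf B' v' hG hD hc hB
          | succ t iht =>
            rintro B' w v' ⟨α, hα, hk⟩ hG hD hc hB
            rw [show t + 1 + f (2 ^ (t + 1) * B') = (t + f (2 ^ t * (2 * B'))) + 1 by
              rw [pow_succ, mul_assoc]; ring]
            refine ⟨α, QD_mono D hα, fun h hh => ?_⟩
            rw [map_add]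
            apply iht (2 * B') _ _ (hk h hh) (hG.tw α h)
            · exact tw_deg (QD_mono D hα) h hD
            · exact (card_le_card (cls_tw hα h hD)).trans hc
            · exact (tw_card α h v').trans (by omega)
        refine ⟨s1 + f (2 ^ s1 * B), fun v hv hD hc hB => ?_⟩
        by_cases hv0 : v = 0
        · subst hv0
          exact Kill_le (Nat.zero_le _) (show Kill (D + 1) 0 (0 : FE Λ V) from rfl)
        · obtain ⟨β0, hβ0⟩ := Finsupp.support_nonempty_iff.mpr hv0
          rw [Finsupp.mem_support_iff] at hβ0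
          apply Kill_of_MM (hD β0 hβ0)
          set u := MM β0 v with hu
          have hu1 : Gd k u := hv.MM β0
          have huD : ∀ β, u β ≠ 0 → β ∈ QD Λ (D + 1) := by
            intro β hβ
            have h1 : v (β * β0) ≠ 0 := by
              intro hcon
              apply hβ
              rw [hu, MM_apply, hcon, map_zero]
            have h2 := (QD Λ (D + 1)).mul_mem (hD _ h1) ((QD Λ (D + 1)).inv_mem (hD β0 hβ0))
            rwa [mul_inv_cancel_right] at h2
          have hucard : u.support.card ≤ B := by
            refine le_trans ?_ hB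
            have : u.support ⊆ v.support.image fun β => β * β0⁻¹ := by
              intro β hβ
              rw [Finsupp.mem_support_iff] at hβ
              rw [mem_image]
              refine ⟨β * β0, Finsupp.mem_support_iff.mpr ?_, by simp⟩
              intro hcon
              apply hβ
              rw [hu, MM_apply, hcon, map_zero]
            exact (card_le_card this).trans card_image_le
          set w := u.filter (fun β => β ∈ QD Λ D) with hw
          set v' := u.filter (fun β => ¬ β ∈ QD Λ D) with hv'
          have hsum : u = w + v' := (Finsupp.filter_pos_add_filter_neg u _).symm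
          have hwv : ∀ β, (w β = u β ∧ β ∈ QD Λ D) ∨ w β = 0 := by
            intro β
            by_cases hβ : β ∈ QD Λ D
            · left; exact ⟨Finsupp.filter_apply_pos _ _ hβ, hβ⟩
            · right; exact Finsupp.filter_apply_neg _ _ hβ
          have hv'v : ∀ β, (v' β = u β ∧ β ∉ QD Λ D) ∨ v' β = 0 := by
            intro β
            by_cases hβ : β ∈ QD Λ D
            · right; exact Finsupp.filter_apply_neg _ _ (not_not.mpr hβ)
            · left; exact ⟨Finsupp.filter_apply_pos _ _ hβ, hβ⟩
          have hwG : Gd k w := by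
            intro β
            rcases hwv β with ⟨h1, _⟩ | h1
            · rw [h1]; exact hu1 β
            · rw [h1]; exact ⟨fun _ => 0, PD_zero k, fun n => by simp⟩
          have hv'G : Gd k v' := by
            intro β
            rcases hv'v β with ⟨h1, _⟩ | h1
            · rw [h1]; exact hu1 β
            · rw [h1]; exact ⟨fun _ => 0, PD_zero k, fun n => by simp⟩
          rw [hsum]
          apply comb s1 B w v'
          · apply hs1 w hwG
            · intro β hβ
              rcases hwv β with ⟨_, h2⟩ | h1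
              · exact h2
              · exact absurd h1 hβ
            · refine (card_le_card fun β hβ => ?_).trans hucard
              rw [Finsupp.mem_support_iff] at hβ ⊢
              rcases hwv β with ⟨h2, _⟩ | h1
              · rwa [← h2]
              · exact absurd h1 hβ
          · exact hv'G
          · intro β hβ
            rcases hv'v β with ⟨h1, _⟩ | h1
            · exact huD β (h1 ▸ hβ)
            · exact absurd h1 hβ
          · -- the trivial class has been removed
            have hcu : (cls D u).card ≤ g + 1 := by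
              refine le_trans ?_ hc
              have : cls D u ⊆ (cls D v).image fun c => c * ((β0⁻¹ : Qs Λ) : Qs Λ ⧸ QD Λ D) := by
                intro c hc'
                rw [mem_cls] at hc'
                obtain ⟨β, hβ, rfl⟩ := hc'
                rw [mem_image]
                refine ⟨((β * β0 : Qs Λ) : Qs Λ ⧸ QD Λ D), mem_cls.mpr ⟨β * β0, ?_, rfl⟩, ?_⟩
                · intro hcon
                  apply hβ
                  rw [hu, MM_apply, hcon, map_zero]
                · rw [← QuotientGroup.mk_mul, mul_inv_cancel_right]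
              exact (card_le_card this).trans card_image_le
            have h1 : (1 : Qs Λ ⧸ QD Λ D) ∈ cls D u := by
              rw [mem_cls]
              refine ⟨1, ?_, rfl⟩
              rw [hu, MM_apply, one_mul]
              intro hcon
              apply hβ0
              apply mulHom_injective β0.1
              rw [hcon, map_zero]
            have h2 : cls D v' ⊆ (cls D u).erase 1 := by
              intro c hc'
              rw [mem_cls] at hc'
              obtain ⟨β, hβ, rfl⟩ := hc'
              rcases hv'v β with ⟨h3, h4⟩ | h3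
              · rw [mem_erase]
                refine ⟨?_, mem_cls.mpr ⟨β, h3 ▸ hβ, rfl⟩⟩
                intro hcon
                exact h4 ((QuotientGroup.eq_one_iff β).mp hcon)
              · exact absurd h3 hβ
            have h3 := card_le_card h2
            rw [card_erase_of_mem h1] at h3
            omega
          · refine (card_le_card fun β hβ => ?_).trans hucard
            rw [Finsupp.mem_support_iff] at hβ ⊢
            rcases hv'v β with ⟨h2, _⟩ | h1
            · rwa [← h2]
            · exact absurd h1 hβ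
    intro B
    obtain ⟨s, hs⟩ := inner B B
    refine ⟨s, fun v hv hD hB => hs v hv hD ?_ hB⟩
    exact (card_cls_le D v).trans hB

lemma sq_le_pairs (S : Finset ℕ) (N : ℕ) (hS : ∀ n ∈ S, n < N) :
    S.card ^ 2 ≤ S.card + 2 * ∑ h ∈ Finset.Ico 1 N, (S.filter fun a => a + h ∈ S).card := by
  have h1 : S ×ˢ S ⊆ (S.image fun a => (a, a)) ∪
      (((Finset.Ico 1 N).biUnion fun h => (S.filter fun a => a + h ∈ S).image fun a => (a, a + h)) ∪
      ((Finset.Ico 1 N).biUnion fun h =>
        (S.filter fun a => a + h ∈ S).image fun a => (a + h, a))) := by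
    rintro ⟨a, b⟩ hab
    rw [mem_product] at hab
    obtain ⟨ha, hb⟩ := hab
    simp only at ha hb
    have haN := hS a ha
    have hbN := hS b hb
    simp only [mem_union, mem_image, mem_biUnion, mem_filter, mem_Ico]
    rcases lt_trichotomy a b with h | h | h
    · right; left
      refine ⟨b - a, by omega, a, ⟨ha, ?_⟩, ?_⟩
      · rwa [show a + (b - a) = b by omega]
      · rw [show a + (b - a) = b by omega]
    · left
      exact ⟨a, ha, by rw [h]⟩
    · right; right
      refine ⟨a - b, by omega, b, ⟨hb, ?_⟩, ?_⟩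
      · rwa [show b + (a - b) = a by omega]
      · rw [show b + (a - b) = a by omega]
  have h2 := card_le_card h1
  rw [card_product, ← sq] at h2
  refine h2.trans ((card_union_le _ _).trans ?_)
  apply add_le_add card_image_le
  refine (card_union_le _ _).trans ?_
  rw [two_mul]
  apply add_le_add
  · exact card_biUnion_le.trans (Finset.sum_le_sum fun h _ => card_image_le)
  · exact card_biUnion_le.trans (Finset.sum_le_sum fun h _ => card_image_le)

/-- **Sparse zero sets** of nonzero exponential polynomials. -/
theorem sparse (htf : ∀ (x : Λ) (m : ℕ), 0 < m → x ^ m = 1 → x = 1)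
    (hfree : ∀ l : Λ, l ≠ 1 → ∀ v : V, l • v = v → v = 0) {k : ℕ}
    (hT : k ≤ 1 ∨ ∀ m : ℕ, 0 < m → ∀ v : V, m • v = 0 → v = 0) (D : ℕ) :
    ∀ (s : ℕ) (v : FE Λ V), Kill D s v → Gd k v → v ≠ 0 → ∀ (N : ℕ) (S : Finset ℕ),
      (∀ n ∈ S, n < N ∧ ev n v = 0) → (S.card : ℝ) ≤ 3 * (N : ℝ) ^ (1 - (1 / 2 : ℝ) ^ s) := by
  intro s
  induction s with
  | zero => intro v hK _ hne; exact absurd hK hne
  | succ s ih =>
    rintro v ⟨α, hα, hk⟩ hG hne N S hS
    have hnn : (0 : ℝ) ≤ 3 * (N : ℝ) ^ (1 - (1 / 2 : ℝ) ^ (s + 1)) := by positivity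
    by_cases hex : ∃ h : ℕ, 1 ≤ h ∧ tw α h v = 0
    · -- a constant multiple of `α`: no zeros
      obtain ⟨h, hh, h0⟩ := hex
      have h1 : SS h (MM α v) = MM α v := by
        have : SS h (MM α v) - MM α v = 0 := h0
        exact sub_eq_zero.mp this
      obtain ⟨c, hc⟩ := shift_fixed htf hfree hT (hG.MM α) hh h1
      have hc0 : c ≠ 0 := by
        intro hcon
        apply hne
        apply MM_injective α
        rw [hc, hcon, map_zero]
        exact Finsupp.single_zero _
      have hSe : S = ∅ := by
        rw [Finset.eq_empty_iff_forall_notMem]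
        intro n hn
        have h2 := (hS n hn).2
        have h3 := ev_MM α n v
        rw [h2, smul_zero, hc, ev_single] at h3
        exact hc0 h3
      rw [hSe]
      simpa using hnn
    · push Not at hex
      rcases Nat.eq_zero_or_pos N with hN0 | hNpos
      · have hSe : S = ∅ := by
          rw [Finset.eq_empty_iff_forall_notMem]
          intro n hn
          have := (hS n hn).1
          omega
        rw [hSe]
        simpa using hnn
      · have hN1 : (1 : ℝ) ≤ N := by exact_mod_cast hNpos
        have hN0 : (0 : ℝ) < N := by linarith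
        set δ : ℝ := (1 / 2 : ℝ) ^ s with hδ
        have hδ0 : 0 < δ := by positivity
        have hδ1 : δ ≤ 1 := pow_le_one₀ (by norm_num) (by norm_num)
        have hstep : ∀ h ∈ Finset.Ico 1 N, ((S.filter fun a => a + h ∈ S).card : ℝ) ≤
            3 * (N : ℝ) ^ (1 - δ) := by
          intro h hh
          rw [mem_Ico] at hh
          apply ih (tw α h v) (hk h hh.1) (hG.tw α h) (hex h hh.1) N
          intro n hn
          rw [mem_filter] at hn
          refine ⟨(hS n hn.1).1, ?_⟩
          rw [ev_tw, (hS n hn.1).2, (hS _ hn.2).2, smul_zero, smul_zero, sub_zero]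
        have h2 := sq_le_pairs S N fun n hn => (hS n hn).1
        have h3 : (S.card : ℝ) ^ 2 ≤ S.card + 2 *
            ∑ h ∈ Finset.Ico 1 N, ((S.filter fun a => a + h ∈ S).card : ℝ) := by
          exact_mod_cast h2
        have h4 : ∑ h ∈ Finset.Ico 1 N, ((S.filter fun a => a + h ∈ S).card : ℝ) ≤
            N * (3 * (N : ℝ) ^ (1 - δ)) := by
          calc _ ≤ ∑ _h ∈ Finset.Ico 1 N, (3 * (N : ℝ) ^ (1 - δ)) := Finset.sum_le_sum hstep
            _ = ((N - 1 : ℕ) : ℝ) * (3 * (N : ℝ) ^ (1 - δ)) := by
                rw [Finset.sum_const, Nat.card_Ico, nsmul_eq_mul]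
            _ ≤ _ := by
                apply mul_le_mul_of_nonneg_right _ (by positivity)
                exact_mod_cast Nat.sub_le N 1
        have h5 : (S.card : ℝ) ≤ N := by
          have : S.card ≤ (range N).card := card_le_card fun n hn => mem_range.mpr (hS n hn).1
          rw [card_range] at this
          exact_mod_cast this
        have e1 : (N : ℝ) * (N : ℝ) ^ (1 - δ) = (N : ℝ) ^ (2 - δ) := by
          rw [← Real.rpow_one_add' hN0.le (by linarith)]
          congr 1; ring
        have h6 : (N : ℝ) ≤ (N : ℝ) ^ (2 - δ) := by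
          conv_lhs => rw [← Real.rpow_one (N : ℝ)]
          exact Real.rpow_le_rpow_of_exponent_le hN1 (by linarith)
        have h7 : (S.card : ℝ) ^ 2 ≤ 9 * (N : ℝ) ^ (2 - δ) := by
          have : (N : ℝ) * (3 * (N : ℝ) ^ (1 - δ)) = 3 * (N : ℝ) ^ (2 - δ) := by
            rw [← e1]; ring
          rw [this] at h4
          have : (0 : ℝ) < (N : ℝ) ^ (2 - δ) := by positivity
          linarith
        have h8 : 9 * (N : ℝ) ^ (2 - δ) = (3 * (N : ℝ) ^ (1 - (1 / 2 : ℝ) ^ (s + 1))) ^ 2 := by
          rw [mul_pow, ← Real.rpow_natCast ((N : ℝ) ^ _) 2, ← Real.rpow_mul hN0.le]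
          norm_num
          congr 1
          rw [hδ, pow_succ]; ring
        rw [h8] at h7
        exact (pow_le_pow_iff_left₀ (by positivity) hnn (by norm_num)).mp h7

end Pool.Lib.EPoly
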