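import Mathlib

/-!
# Mayer-Vietoris element by element, and a Leray acyclicity criterion for three open sets

(The degree `n` cohomology of an open set `U` is Mathlib's `F.H' n U`.)
-/

namespace Pool.Agent.Lib.Leray

open CategoryTheory Opposite Limits Abelian GrothendieckTopology TopologicalSpace

universe w v u

section General

variable {C : Type u} [Category.{v} C] {J : GrothendieckTopology C}
  [HasWeakSheafify J (Type v)] [HasSheafify J AddCommGrpCat.{v}]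
  [HasExt.{w} (Sheaf J AddCommGrpCat.{v})]

variable (F : Sheaf J AddCommGrpCat.{v})

variable (J) in
/-- The free abelian sheaf on a representable presheaf. -/
noncomputable abbrev Z (U : C) : Sheaf J AddCommGrpCat.{v} :=
  (presheafToSheaf J _).obj (yoneda.obj U ⋙ AddCommGrpCat.free)

variable (J) in
/-- Functoriality of `Z`. -/
noncomputable abbrev Zm {V U : C} (i : V ⟶ U) : Z J V ⟶ Z J U :=
  (presheafToSheaf J _).map (Functor.whiskerRight (yoneda.map i) AddCommGrpCat.free)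

omit [HasWeakSheafify J (Type v)] in
lemma res_eq (n : ℕ) {V U : C} (i : V ⟶ U) (a : Ext (Z J U) F n) :
    (F.cohomologyPresheaf n).map i.op a = (Ext.mk₀ (Zm J i)).comp a (zero_add n) := rfl

variable (S : J.MayerVietorisSquare)

lemma delta_eq (n₀ n₁ : ℕ) (h : n₀ + 1 = n₁) (x : Ext (Z J S.X₁) F n₀) :
    S.δ F n₀ n₁ h x = S.shortComplex_shortExact.extClass.comp x (by omega) := rfl

set_option backward.isDefEq.respectTransparency false in
lemma f_comp (n : ℕ) (a : Ext (Z J S.X₂) F n) (b : Ext (Z J S.X₃) F n) :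
    (Ext.mk₀ S.shortComplex.f).comp (Ext.biprodAddEquiv.symm (a, b)) (zero_add n) =
      (Ext.mk₀ (Zm J S.f₁₂)).comp a (zero_add n) - (Ext.mk₀ (Zm J S.f₁₃)).comp b (zero_add n) := by
  rw [Ext.biprodAddEquiv_symm_apply]
  simp [Ext.comp_add, Ext.mk₀_comp_mk₀_assoc, MayerVietorisSquare.shortComplex_f, biprod.lift_fst,
    biprod.lift_snd, Ext.mk₀_neg, Ext.neg_comp, sub_eq_add_neg]

set_option backward.isDefEq.respectTransparency false in
lemma g_comp (n : ℕ) (y : Ext (Z J S.X₄) F n) :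
    (Ext.mk₀ S.shortComplex.g).comp y (zero_add n) =
      Ext.biprodAddEquiv.symm ((Ext.mk₀ (Zm J S.f₂₄)).comp y (zero_add n),
        (Ext.mk₀ (Zm J S.f₃₄)).comp y (zero_add n)) := by
  apply Ext.biprodAddEquiv.injective
  rw [AddEquiv.apply_symm_apply]
  refine Prod.ext ?_ ?_
  · simp
  · simp

lemma exact_mid (n : ℕ) (a : F.H' n S.X₂) (b : F.H' n S.X₃)
    (hab : (F.cohomologyPresheaf n).map S.f₁₂.op a = (F.cohomologyPresheaf n).map S.f₁₃.op b) :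
    ∃ y : F.H' n S.X₄, (F.cohomologyPresheaf n).map S.f₂₄.op y = a ∧
      (F.cohomologyPresheaf n).map S.f₃₄.op y = b := by
  obtain ⟨y, hy⟩ := Ext.contravariant_sequence_exact₂ S.shortComplex_shortExact F
    (Ext.biprodAddEquiv.symm (a, b)) ((f_comp F S n a b).trans (sub_eq_zero.2 hab))
  have h3 := Ext.biprodAddEquiv.symm.injective (hy.symm.trans (g_comp F S n y))
  exact ⟨y, (congrArg Prod.fst h3).symm, (congrArg Prod.snd h3).symm⟩

lemma exact_left (n₀ n₁ : ℕ) (h : n₀ + 1 = n₁) (x : F.H' n₀ S.X₁) (hx : S.δ F n₀ n₁ h x = 0) :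
    ∃ (a : F.H' n₀ S.X₂) (b : F.H' n₀ S.X₃),
      (F.cohomologyPresheaf n₀).map S.f₁₂.op a - (F.cohomologyPresheaf n₀).map S.f₁₃.op b = x := by
  obtain ⟨y, hy⟩ := Ext.contravariant_sequence_exact₁ S.shortComplex_shortExact F
    x (n₀ := n₀) (n₁ := n₁) (by omega) hx
  obtain ⟨⟨a, b⟩, rfl⟩ := Ext.biprodAddEquiv.symm.surjective y
  exact ⟨a, b, (f_comp F S n₀ a b).symm.trans hy⟩

lemma exact_right (n₀ n₁ : ℕ) (h : n₀ + 1 = n₁) (y : F.H' n₁ S.X₄)
    (h2 : (F.cohomologyPresheaf n₁).map S.f₂₄.op y = 0)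
    (h3 : (F.cohomologyPresheaf n₁).map S.f₃₄.op y = 0) :
    ∃ x : F.H' n₀ S.X₁, S.δ F n₀ n₁ h x = y := by
  have h0 : (Ext.mk₀ S.shortComplex.g).comp y (zero_add n₁) = 0 := by
    refine (g_comp F S n₁ y).trans ?_
    have h2' : (Ext.mk₀ (Zm J S.f₂₄)).comp y (zero_add n₁) = 0 := h2
    have h3' : (Ext.mk₀ (Zm J S.f₃₄)).comp y (zero_add n₁) = 0 := h3
    rw [h2', h3']
    exact map_zero _
  obtain ⟨x, hx⟩ := Ext.contravariant_sequence_exact₃ S.shortComplex_shortExact F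
    y h0 (n₀ := n₀) (by omega)
  exact ⟨x, hx⟩

lemma eq_zero_of_res (y : F.H' 0 S.X₄)
    (h2 : (F.cohomologyPresheaf 0).map S.f₂₄.op y = 0)
    (h3 : (F.cohomologyPresheaf 0).map S.f₃₄.op y = 0) : y = 0 := by
  have h0 : (Ext.mk₀ S.shortComplex.g).comp y (zero_add 0) = 0 := by
    refine (g_comp F S 0 y).trans ?_
    have h2' : (Ext.mk₀ (Zm J S.f₂₄)).comp y (zero_add 0) = 0 := h2
    have h3' : (Ext.mk₀ (Zm J S.f₃₄)).comp y (zero_add 0) = 0 := h3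
    rw [h2', h3']
    exact map_zero _
  exact Ext.precomp_mk₀_injective_of_epi F S.shortComplex.g (h0.trans (map_zero _).symm)

lemma delta_sub (n₀ n₁ : ℕ) (h : n₀ + 1 = n₁) (a : F.H' n₀ S.X₂) (b : F.H' n₀ S.X₃) :
    S.δ F n₀ n₁ h ((F.cohomologyPresheaf n₀).map S.f₁₂.op a -
      (F.cohomologyPresheaf n₀).map S.f₁₃.op b) = 0 := by
  have h1 := congrArg (S.δ F n₀ n₁ h) (f_comp F S n₀ a b)
  exact h1.symm.trans (S.shortComplex_shortExact.extClass_comp_assoc _ (h := by omega))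

lemma delta_res_left (n₀ n₁ : ℕ) (h : n₀ + 1 = n₁) (a : F.H' n₀ S.X₂) :
    S.δ F n₀ n₁ h ((F.cohomologyPresheaf n₀).map S.f₁₂.op a) = 0 := by
  have := delta_sub F S n₀ n₁ h a 0
  simpa using this

lemma delta_res_right (n₀ n₁ : ℕ) (h : n₀ + 1 = n₁) (b : F.H' n₀ S.X₃) :
    S.δ F n₀ n₁ h ((F.cohomologyPresheaf n₀).map S.f₁₃.op b) = 0 := by
  have := delta_sub F S n₀ n₁ h 0 b
  simpa using this

set_option backward.isDefEq.respectTransparency false in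
/-- The morphism of short complexes attached to a morphism of Mayer-Vietoris squares. -/
noncomputable def scMap (S' : J.MayerVietorisSquare) (φ : S'.toSquare ⟶ S.toSquare) :
    S'.shortComplex ⟶ S.shortComplex where
  τ₁ := Zm J φ.τ₁
  τ₂ := biprod.map (Zm J φ.τ₂) (Zm J φ.τ₃)
  τ₃ := Zm J φ.τ₄
  comm₁₂ := by
    apply biprod.hom_ext
    · simp [← Functor.map_comp, ← Functor.whiskerRight_comp, φ.comm₁₂]
    · simp [← Functor.map_comp, ← Functor.whiskerRight_comp, φ.comm₁₃]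
  comm₂₃ := by
    apply biprod.hom_ext'
    · simp [← Functor.map_comp, ← Functor.whiskerRight_comp, φ.comm₂₄]
    · simp [← Functor.map_comp, ← Functor.whiskerRight_comp, φ.comm₃₄]

lemma delta_natural_aux (S' : J.MayerVietorisSquare) (φ : S'.toSquare ⟶ S.toSquare)
    (n₀ n₁ : ℕ) (h : 1 + n₀ = n₁) (x : Ext S.shortComplex.X₁ F n₀) :
    S'.shortComplex_shortExact.extClass.comp
      ((Ext.mk₀ (scMap S S' φ).τ₁).comp x (zero_add n₀)) h =
    (Ext.mk₀ (scMap S S' φ).τ₃).comp (S.shortComplex_shortExact.extClass.comp x h)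
      (zero_add n₁) := by
  have h1 := ShortComplex.ShortExact.extClass_naturality S'.shortComplex_shortExact
    S.shortComplex_shortExact (scMap S S' φ)
  rw [← Ext.comp_assoc_of_second_deg_zero, h1, Ext.comp_assoc]
  omega

/-- Naturality of the connecting homomorphism. -/
lemma delta_natural (S' : J.MayerVietorisSquare) (φ : S'.toSquare ⟶ S.toSquare)
    (n₀ n₁ : ℕ) (h : n₀ + 1 = n₁) (x : F.H' n₀ S.X₁) :
    S'.δ F n₀ n₁ h ((F.cohomologyPresheaf n₀).map φ.τ₁.op x) =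
      (F.cohomologyPresheaf n₁).map φ.τ₄.op (S.δ F n₀ n₁ h x) :=
  delta_natural_aux F S S' φ n₀ n₁ (by omega) x

end General

section Sections

variable {C : Type u} [Category.{v} C] {J : GrothendieckTopology C}
  [HasSheafify J AddCommGrpCat.{v}]
  [HasExt.{w} (Sheaf J AddCommGrpCat.{v})]

variable (F : Sheaf J AddCommGrpCat.{v})

/-- The tautological section of `Z U` over `U`. -/
noncomputable def taut (U : C) : (Z J U).obj.obj (op U) :=
  (toSheafify J (yoneda.obj U ⋙ AddCommGrpCat.free)).app (op U) (FreeAbelianGroup.of (𝟙 U))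

/-- Degree zero cohomology maps to sections. -/
noncomputable def toSec (U : C) : F.H' 0 U →+ F.obj.obj (op U) where
  toFun x := (Ext.addEquiv₀ (X := Z J U) (Y := F) x).hom.app (op U) (taut U)
  map_zero' := by
    have h : Ext.addEquiv₀ (X := Z J U) (Y := F) (0 : F.H' 0 U) = 0 := map_zero _
    rw [h]
    rfl
  map_add' x y := by
    have h : Ext.addEquiv₀ (X := Z J U) (Y := F) (x + y) =
      Ext.addEquiv₀ (X := Z J U) (Y := F) x + Ext.addEquiv₀ (X := Z J U) (Y := F) y :=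
        map_add _ _ _
    rw [h]
    rfl

lemma free_map_of {α β : Type v} (f : α ⟶ β) (x : α) :
    (AddCommGrpCat.free.map f) (FreeAbelianGroup.of x) = FreeAbelianGroup.of (f x) :=
  FreeAbelianGroup.map_of_apply _

omit [HasExt.{w} (Sheaf J AddCommGrpCat.{v})] in
lemma taut_map {V U : C} (i : V ⟶ U) :
    (Zm J i).hom.app (op V) (taut V) = (Z J U).obj.map i.op (taut U) := by
  have h1 : (Zm J i).hom.app (op V) (taut V) =
      (toSheafify J (yoneda.obj U ⋙ AddCommGrpCat.free)).app (op V) (FreeAbelianGroup.of i) := by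
    have h := toSheafify_naturality J (Functor.whiskerRight (yoneda.map i) AddCommGrpCat.free)
    have h' := NatTrans.congr_app h (op V)
    have h'' := ConcreteCategory.congr_hom h' (FreeAbelianGroup.of (𝟙 V))
    have h3 : ((Functor.whiskerRight (yoneda.map i) AddCommGrpCat.free).app (op V))
      (FreeAbelianGroup.of (𝟙 V)) = FreeAbelianGroup.of i := by
      refine (free_map_of _ _).trans ?_
      simp
    refine h''.symm.trans ?_
    exact congrArg ((toSheafify J (yoneda.obj U ⋙ AddCommGrpCat.free)).app (op V)) h3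
  have h2 : (Z J U).obj.map i.op (taut U) = 
      (toSheafify J (yoneda.obj U ⋙ AddCommGrpCat.free)).app (op V) (FreeAbelianGroup.of i) := by
    have h := (toSheafify J (yoneda.obj U ⋙ AddCommGrpCat.free)).naturality i.op
    have h'' := ConcreteCategory.congr_hom h (FreeAbelianGroup.of (𝟙 U))
    refine h''.symm.trans ?_
    have h3 : ((yoneda.obj U ⋙ AddCommGrpCat.free).map i.op)
      (FreeAbelianGroup.of (𝟙 U)) = FreeAbelianGroup.of i := by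
      refine (free_map_of _ _).trans ?_
      simp
    exact congrArg ((toSheafify J (yoneda.obj U ⋙ AddCommGrpCat.free)).app (op V)) h3
  rw [h1, h2]

lemma toSec_res {V U : C} (i : V ⟶ U) (x : F.H' 0 U) :
    toSec F V ((F.cohomologyPresheaf 0).map i.op x) = F.obj.map i.op (toSec F U x) := by
  have h : Ext.addEquiv₀ ((Ext.mk₀ (Zm J i)).comp (X := Z J V) (Y := Z J U) (Z := F) x (zero_add 0)) =
    Zm J i ≫ Ext.addEquiv₀ (X := Z J U) (Y := F) x := by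
    apply Ext.addEquiv₀.symm.injective
    rw [AddEquiv.symm_apply_apply, Ext.addEquiv₀_symm_apply, ← Ext.mk₀_comp_mk₀]
    congr 1
    exact (Ext.addEquiv₀.symm_apply_apply x).symm
  have e1 : toSec F V ((F.cohomologyPresheaf 0).map i.op x) =
    (Zm J i ≫ Ext.addEquiv₀ (X := Z J U) (Y := F) x).hom.app (op V) (taut V) := by
    rw [← h]; rfl
  rw [e1]
  have e2 := ConcreteCategory.congr_hom
    ((Ext.addEquiv₀ (X := Z J U) (Y := F) x).hom.naturality i.op) (taut U)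
  refine Eq.trans ?_ e2
  change (Ext.addEquiv₀ (X := Z J U) (Y := F) x).hom.app (op V)
    ((Zm J i).hom.app (op V) (taut V)) = _
  rw [taut_map]
  rfl

lemma toSec_bijective (U : C) : Function.Bijective (toSec F U) := by
  let e1 := Ext.addEquiv₀ (X := Z J U) (Y := F)
  let e2 := (sheafificationAdjunction J AddCommGrpCat.{v}).homEquiv
    (yoneda.obj U ⋙ AddCommGrpCat.free) F
  let e3 := (AddCommGrpCat.adj.whiskerRight Cᵒᵖ).homEquiv (yoneda.obj U) F.obj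
  let e4 := CategoryTheory.yonedaEquiv (X := U) (F := F.obj ⋙ forget AddCommGrpCat)
  have h : ⇑(toSec F U) = fun x => e4 (e3 (e2 (e1 x))) := by
    funext x
    simp only [toSec, e4, e3, e2, e1, CategoryTheory.yonedaEquiv_apply, Adjunction.homEquiv_unit]
    rfl
  rw [h]
  exact e4.bijective.comp (e3.bijective.comp (e2.bijective.comp e1.bijective))


end Sections

section Opens

variable {T : Type u} [TopologicalSpace T]
  [HasExt.{w} (Sheaf (Opens.grothendieckTopology T) AddCommGrpCat.{u})]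
variable (F : Sheaf (Opens.grothendieckTopology T) AddCommGrpCat.{u})

/-- Restriction of cohomology classes from an open set to a smaller one. -/
noncomputable def rs (n : ℕ) {V U : Opens T} (h : V ≤ U) : F.H' n U →+ F.H' n V :=
  ((F.cohomologyPresheaf n).map (homOfLE h).op).hom

/-- Restriction of sections from an open set to a smaller one. -/
noncomputable def rt {V U : Opens T} (h : V ≤ U) : F.obj.obj (op U) →+ F.obj.obj (op V) :=
  (F.obj.map (homOfLE h).op).hom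

lemma rs_rs (n : ℕ) {W V U : Opens T} (h : V ≤ U) (h' : W ≤ V) (x : F.H' n U) :
    rs F n h' (rs F n h x) = rs F n (h'.trans h) x := by
  have := ConcreteCategory.congr_hom
    ((F.cohomologyPresheaf n).map_comp (homOfLE h).op (homOfLE h').op) x
  exact this.symm

omit [HasExt.{w} (Sheaf (Opens.grothendieckTopology T) AddCommGrpCat.{u})] in
lemma rt_rt {W V U : Opens T} (h : V ≤ U) (h' : W ≤ V) (x : F.obj.obj (op U)) :
    rt F h' (rt F h x) = rt F (h'.trans h) x := by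
  have := ConcreteCategory.congr_hom
    (F.obj.map_comp (homOfLE h).op (homOfLE h').op) x
  exact this.symm

lemma toSec_rs {V U : Opens T} (h : V ≤ U) (x : F.H' 0 U) :
    toSec F V (rs F 0 h x) = rt F h (toSec F U x) := toSec_res F _ x

section Square

variable {P Q I U : Opens T} (hU : U = P ⊔ Q) (hI : I = P ⊓ Q)

/-- The Mayer-Vietoris square of two open sets with union `U` and intersection `I`. -/
noncomputable def sq : (Opens.grothendieckTopology T).MayerVietorisSquare :=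
  Opens.mayerVietorisSquare'
    { X₁ := I
      X₂ := P
      X₃ := Q
      X₄ := U
      f₁₂ := homOfLE (hI ▸ inf_le_left)
      f₁₃ := homOfLE (hI ▸ inf_le_right)
      f₂₄ := homOfLE (hU ▸ le_sup_left)
      f₃₄ := homOfLE (hU ▸ le_sup_right)
      fac := Subsingleton.elim _ _ } hU hI

/-- The connecting homomorphism. -/
noncomputable def dl (n : ℕ) : F.H' n I →+ F.H' (n + 1) U :=
  ((sq hU hI).δ F n (n + 1) rfl).hom

lemma dl_left (n : ℕ) (h : I ≤ P) (a : F.H' n P) : dl F hU hI n (rs F n h a) = 0 :=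
  delta_res_left F (sq hU hI) n (n + 1) rfl a

lemma dl_right (n : ℕ) (h : I ≤ Q) (a : F.H' n Q) : dl F hU hI n (rs F n h a) = 0 :=
  delta_res_right F (sq hU hI) n (n + 1) rfl a

lemma exists_sub (n : ℕ) (hP : I ≤ P) (hQ : I ≤ Q) (x : F.H' n I) (hx : dl F hU hI n x = 0) :
    ∃ (a : F.H' n P) (b : F.H' n Q), rs F n hP a - rs F n hQ b = x :=
  exact_left F (sq hU hI) n (n + 1) rfl x hx

lemma exists_dl (n : ℕ) (hP : P ≤ U) (hQ : Q ≤ U) (y : F.H' (n + 1) U)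
    (h2 : rs F (n + 1) hP y = 0) (h3 : rs F (n + 1) hQ y = 0) :
    ∃ x : F.H' n I, dl F hU hI n x = y :=
  exact_right F (sq hU hI) n (n + 1) rfl y h2 h3

include hU hI in
lemma exists_glue (n : ℕ) (hP : P ≤ U) (hQ : Q ≤ U) (hP' : I ≤ P) (hQ' : I ≤ Q)
    (a : F.H' n P) (b : F.H' n Q) (hab : rs F n hP' a = rs F n hQ' b) :
    ∃ y : F.H' n U, rs F n hP y = a ∧ rs F n hQ y = b :=
  exact_mid F (sq hU hI) n a b hab

include hU hI in
lemma eq_zero_of_rs (hP : P ≤ U) (hQ : Q ≤ U) (y : F.H' 0 U)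
    (h2 : rs F 0 hP y = 0) (h3 : rs F 0 hQ y = 0) : y = 0 :=
  eq_zero_of_res F (sq hU hI) y h2 h3

variable {P' Q' I' U' : Opens T} (hU' : U' = P' ⊔ Q') (hI' : I' = P' ⊓ Q')

/-- Naturality of the connecting homomorphism. -/
lemma dl_rs (hP : P' ≤ P) (hQ : Q' ≤ Q) (hII : I' ≤ I) (hUU : U' ≤ U) (n : ℕ) (x : F.H' n I) :
    dl F hU' hI' n (rs F n hII x) = rs F (n + 1) hUU (dl F hU hI n x) :=
  delta_natural F (sq hU hI) (sq hU' hI')
    { τ₁ := homOfLE hII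
      τ₂ := homOfLE hP
      τ₃ := homOfLE hQ
      τ₄ := homOfLE hUU
      comm₁₂ := Subsingleton.elim _ _
      comm₁₃ := Subsingleton.elim _ _
      comm₂₄ := Subsingleton.elim _ _
      comm₃₄ := Subsingleton.elim _ _ } n (n + 1) rfl x

include hU hI

/-- If `H^{n+1}` vanishes on `P` and `Q` and `H^n` vanishes on `P ⊓ Q`, then `H^{n+1}` vanishes
on `P ⊔ Q`. -/
theorem subsingleton_sup (n : ℕ) (hP : Subsingleton (F.H' (n + 1) P))
    (hQ : Subsingleton (F.H' (n + 1) Q)) (hPQ : Subsingleton (F.H' n I)) :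
    Subsingleton (F.H' (n + 1) U) := by
  refine subsingleton_of_forall_eq 0 fun y => ?_
  obtain ⟨x, rfl⟩ := exists_dl F hU hI n (hU ▸ le_sup_left) (hU ▸ le_sup_right) y
    (Subsingleton.elim _ _) (Subsingleton.elim _ _)
  rw [Subsingleton.elim x 0, map_zero]

/-- If `H^1` vanishes on `P` and `Q` and `F(P) + F(Q) → F(P ⊓ Q)` is onto, then `H^1` vanishes
on `P ⊔ Q`. -/
theorem subsingleton_sup_one (hP : Subsingleton (F.H' 1 P)) (hQ : Subsingleton (F.H' 1 Q))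
    (hIP : I ≤ P) (hIQ : I ≤ Q)
    (hs : ∀ s : F.obj.obj (op I), ∃ (a : F.obj.obj (op P)) (b : F.obj.obj (op Q)),
      rt F hIP a + rt F hIQ b = s) :
    Subsingleton (F.H' 1 U) := by
  refine subsingleton_of_forall_eq 0 fun y => ?_
  obtain ⟨x, rfl⟩ := exists_dl F hU hI 0 (hU ▸ le_sup_left) (hU ▸ le_sup_right) y
    (Subsingleton.elim _ _) (Subsingleton.elim _ _)
  obtain ⟨a, b, hab⟩ := hs (toSec F I x)
  obtain ⟨a', rfl⟩ := (toSec_bijective F P).2 a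
  obtain ⟨b', rfl⟩ := (toSec_bijective F Q).2 b
  have h1 : rs F 0 hIP a' + rs F 0 hIQ b' = x := by
    apply (toSec_bijective F I).1
    rw [map_add, toSec_rs, toSec_rs, hab]
  rw [← h1, map_add, dl_left, dl_right, add_zero]

end Square

/-- Two-element acyclicity: if `A`, `B`, `A ⊓ B` are acyclic and `F(A) + F(B) → F(A ⊓ B)` is onto
then `A ⊔ B` is acyclic. -/
theorem acyclic_sup (A B : Opens T) (hA : ∀ n : ℕ, Subsingleton (F.H' (n + 1) A))
    (hB : ∀ n : ℕ, Subsingleton (F.H' (n + 1) B))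
    (hI : ∀ n : ℕ, Subsingleton (F.H' (n + 1) (A ⊓ B)))
    (hAB : ∀ s : F.obj.obj (op (A ⊓ B)), ∃ (a : F.obj.obj (op A)) (b : F.obj.obj (op B)),
      F.obj.map (homOfLE inf_le_left : A ⊓ B ⟶ A).op a +
        F.obj.map (homOfLE inf_le_right : A ⊓ B ⟶ B).op b = s) (n : ℕ) :
    Subsingleton (F.H' (n + 1) (A ⊔ B)) := by
  cases n with
  | zero => exact subsingleton_sup_one F rfl rfl (hA 0) (hB 0) inf_le_left inf_le_right hAB
  | succ n => exact subsingleton_sup F rfl rfl (n + 1) (hA _) (hB _) (hI n)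

section Three

variable (W₀ W₁ W₂ : Opens T)

omit [HasExt.{w} (Sheaf (Opens.grothendieckTopology T) AddCommGrpCat.{u})] in
lemma le01 : W₀ ⊓ W₁ ⊓ W₂ ≤ W₀ ⊓ W₁ := inf_le_left
omit [HasExt.{w} (Sheaf (Opens.grothendieckTopology T) AddCommGrpCat.{u})] in
lemma le02 : W₀ ⊓ W₁ ⊓ W₂ ≤ W₀ ⊓ W₂ := inf_le_inf_right _ inf_le_left
omit [HasExt.{w} (Sheaf (Opens.grothendieckTopology T) AddCommGrpCat.{u})] in
lemma le12 : W₀ ⊓ W₁ ⊓ W₂ ≤ W₁ ⊓ W₂ := inf_le_inf_right _ inf_le_right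

/-- Vanishing of Cech `H^1` of three open sets. -/
def CechOne : Prop :=
  ∀ (s₀₁ : F.obj.obj (op (W₀ ⊓ W₁))) (s₀₂ : F.obj.obj (op (W₀ ⊓ W₂)))
    (s₁₂ : F.obj.obj (op (W₁ ⊓ W₂))),
    F.obj.map (homOfLE (le12 W₀ W₁ W₂)).op s₁₂ - F.obj.map (homOfLE (le02 W₀ W₁ W₂)).op s₀₂
      + F.obj.map (homOfLE (le01 W₀ W₁ W₂)).op s₀₁ = 0 →
    ∃ (t₀ : F.obj.obj (op W₀)) (t₁ : F.obj.obj (op W₁)) (t₂ : F.obj.obj (op W₂)),
      F.obj.map (homOfLE (inf_le_right : W₀ ⊓ W₁ ≤ W₁)).op t₁ -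
        F.obj.map (homOfLE (inf_le_left : W₀ ⊓ W₁ ≤ W₀)).op t₀ = s₀₁ ∧
      F.obj.map (homOfLE (inf_le_right : W₀ ⊓ W₂ ≤ W₂)).op t₂ -
        F.obj.map (homOfLE (inf_le_left : W₀ ⊓ W₂ ≤ W₀)).op t₀ = s₀₂ ∧
      F.obj.map (homOfLE (inf_le_right : W₁ ⊓ W₂ ≤ W₂)).op t₂ -
        F.obj.map (homOfLE (inf_le_left : W₁ ⊓ W₂ ≤ W₁)).op t₁ = s₁₂

/-- Vanishing of Cech `H^2` of three open sets. -/
def CechTwo : Prop :=
  ∀ s : F.obj.obj (op (W₀ ⊓ W₁ ⊓ W₂)),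
    ∃ (s₀₁ : F.obj.obj (op (W₀ ⊓ W₁))) (s₀₂ : F.obj.obj (op (W₀ ⊓ W₂)))
      (s₁₂ : F.obj.obj (op (W₁ ⊓ W₂))),
      F.obj.map (homOfLE (le12 W₀ W₁ W₂)).op s₁₂ - F.obj.map (homOfLE (le02 W₀ W₁ W₂)).op s₀₂
      + F.obj.map (homOfLE (le01 W₀ W₁ W₂)).op s₀₁ = s

omit [HasExt.{w} (Sheaf (Opens.grothendieckTopology T) AddCommGrpCat.{u})] in
lemma hU' : (W₀ ⊔ W₁) ⊓ W₂ = W₀ ⊓ W₂ ⊔ W₁ ⊓ W₂ := inf_sup_right _ _ _
omit [HasExt.{w} (Sheaf (Opens.grothendieckTopology T) AddCommGrpCat.{u})] in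
lemma hI' : W₀ ⊓ W₁ ⊓ W₂ = W₀ ⊓ W₂ ⊓ (W₁ ⊓ W₂) := inf_inf_distrib_right _ _ _

variable {W₀ W₁ W₂}

/-- Leray for three open sets, degree one. -/
theorem leray_one (h1₀ : Subsingleton (F.H' 1 W₀)) (h1₁ : Subsingleton (F.H' 1 W₁))
    (h1₂ : Subsingleton (F.H' 1 W₂)) (hC : CechOne F W₀ W₁ W₂) :
    Subsingleton (F.H' 1 (W₀ ⊔ W₁ ⊔ W₂)) := by
  refine subsingleton_of_forall_eq 0 fun y => ?_
  -- restriction to `V = W₀ ⊔ W₁`
  have hV : rs F 1 (le_sup_left : W₀ ⊔ W₁ ≤ W₀ ⊔ W₁ ⊔ W₂) y = 0 := by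
    obtain ⟨x, hx⟩ := exists_dl F (rfl : W₀ ⊔ W₁ = W₀ ⊔ W₁) rfl 0 le_sup_left le_sup_right
      (rs F 1 (le_sup_left : W₀ ⊔ W₁ ≤ W₀ ⊔ W₁ ⊔ W₂) y)
      (Subsingleton.elim _ _) (Subsingleton.elim _ _)
    have h1 : dl F (hU' W₀ W₁ W₂) (hI' W₀ W₁ W₂) 0 (rs F 0 (le01 W₀ W₁ W₂) x) = 0 := by
      rw [dl_rs F (rfl : W₀ ⊔ W₁ = W₀ ⊔ W₁) rfl (hU' W₀ W₁ W₂) (hI' W₀ W₁ W₂)
        inf_le_left inf_le_left (le01 W₀ W₁ W₂) inf_le_left 0 x, hx, rs_rs]
      have : rs F 1 (inf_le_right.trans le_sup_right : (W₀ ⊔ W₁) ⊓ W₂ ≤ W₀ ⊔ W₁ ⊔ W₂) y =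
        rs F 1 (inf_le_right : (W₀ ⊔ W₁) ⊓ W₂ ≤ W₂)
          (rs F 1 (le_sup_right : W₂ ≤ W₀ ⊔ W₁ ⊔ W₂) y) := (rs_rs F 1 _ _ y).symm
      rw [this, Subsingleton.elim (rs F 1 (le_sup_right : W₂ ≤ W₀ ⊔ W₁ ⊔ W₂) y) 0, map_zero]
    obtain ⟨a, b, hab⟩ := exists_sub F (hU' W₀ W₁ W₂) (hI' W₀ W₁ W₂) 0 (le02 W₀ W₁ W₂)
      (le12 W₀ W₁ W₂) _ h1
    obtain ⟨t₀, t₁, t₂, e01, e02, e12⟩ := hC (toSec F _ x) (toSec F _ a) (toSec F _ b) (by
      have := congrArg (toSec F _) hab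
      rw [map_sub, toSec_rs, toSec_rs, toSec_rs] at this
      change rt F _ (toSec F _ b) - rt F _ (toSec F _ a) + rt F _ (toSec F _ x) = 0
      rw [← this]; abel)
    obtain ⟨t₀, rfl⟩ := (toSec_bijective F W₀).2 t₀
    obtain ⟨t₁, rfl⟩ := (toSec_bijective F W₁).2 t₁
    have e : rs F 0 inf_le_right t₁ - rs F 0 inf_le_left t₀ = x := by
      apply (toSec_bijective F _).1
      rw [map_sub, toSec_rs, toSec_rs]
      exact e01
    rw [← hx, ← e, map_sub, dl_left, dl_right, sub_zero]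
  obtain ⟨c, rfl⟩ := exists_dl F (rfl : W₀ ⊔ W₁ ⊔ W₂ = (W₀ ⊔ W₁) ⊔ W₂) rfl 0 le_sup_left
    le_sup_right y hV (Subsingleton.elim _ _)
  have hle02 : W₀ ⊓ W₂ ≤ (W₀ ⊔ W₁) ⊓ W₂ := inf_le_inf_right _ le_sup_left
  have hle12 : W₁ ⊓ W₂ ≤ (W₀ ⊔ W₁) ⊓ W₂ := inf_le_inf_right _ le_sup_right
  obtain ⟨t₀, t₁, t₂, e01, e02, e12⟩ := hC 0 (toSec F _ (rs F 0 hle02 c))
    (toSec F _ (rs F 0 hle12 c)) (by
      change rt F _ (toSec F _ _) - rt F _ (toSec F _ _) + rt F _ 0 = 0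
      rw [map_zero, toSec_rs, toSec_rs, rt_rt, rt_rt, sub_self, add_zero])
  obtain ⟨t₀, rfl⟩ := (toSec_bijective F W₀).2 t₀
  obtain ⟨t₁, rfl⟩ := (toSec_bijective F W₁).2 t₁
  obtain ⟨t₂, rfl⟩ := (toSec_bijective F W₂).2 t₂
  obtain ⟨v, hv0, hv1⟩ := exists_glue F (rfl : W₀ ⊔ W₁ = W₀ ⊔ W₁) rfl 0 le_sup_left le_sup_right
    inf_le_left inf_le_right t₀ t₁ (by
      apply (toSec_bijective F _).1
      rw [toSec_rs, toSec_rs]
      exact (sub_eq_zero.1 e01).symm)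
  have e : rs F 0 inf_le_right t₂ - rs F 0 inf_le_left v = c := by
    -- equality can be checked on `W₀ ⊓ W₂` and `W₁ ⊓ W₂`
    have hz : ∀ y : F.H' 0 ((W₀ ⊔ W₁) ⊓ W₂), rs F 0 hle02 y = 0 → rs F 0 hle12 y = 0 → y = 0 :=
      fun y => eq_zero_of_rs F (hU' W₀ W₁ W₂) (hI' W₀ W₁ W₂) hle02 hle12 y
    refine sub_eq_zero.1 (hz _ ?_ ?_)
    · rw [map_sub, map_sub, rs_rs, rs_rs]
      have h1 : rs F 0 (inf_le_left : W₀ ⊓ W₂ ≤ W₀) t₀ =
          rs F 0 (hle02.trans inf_le_left : W₀ ⊓ W₂ ≤ W₀ ⊔ W₁) v := by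
        rw [← hv0, rs_rs]
      rw [← h1]
      apply (toSec_bijective F _).1
      rw [map_sub, map_sub, toSec_rs, toSec_rs, map_zero]
      exact sub_eq_zero.2 e02
    · rw [map_sub, map_sub, rs_rs, rs_rs]
      have h1 : rs F 0 (inf_le_left : W₁ ⊓ W₂ ≤ W₁) t₁ =
          rs F 0 (hle12.trans inf_le_left : W₁ ⊓ W₂ ≤ W₀ ⊔ W₁) v := by
        rw [← hv1, rs_rs]
      rw [← h1]
      apply (toSec_bijective F _).1
      rw [map_sub, map_sub, toSec_rs, toSec_rs, map_zero]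
      exact sub_eq_zero.2 e12
  rw [← e, map_sub, dl_left, dl_right, sub_zero]

/-- Leray for three open sets, degree two. -/
theorem leray_two (h2₀ : Subsingleton (F.H' 2 W₀)) (h2₁ : Subsingleton (F.H' 2 W₁))
    (h2₂ : Subsingleton (F.H' 2 W₂)) (h01 : Subsingleton (F.H' 1 (W₀ ⊓ W₁)))
    (h02 : Subsingleton (F.H' 1 (W₀ ⊓ W₂))) (h12 : Subsingleton (F.H' 1 (W₁ ⊓ W₂)))
    (hC : CechTwo F W₀ W₁ W₂) :
    Subsingleton (F.H' 2 (W₀ ⊔ W₁ ⊔ W₂)) := by
  refine subsingleton_of_forall_eq 0 fun y => ?_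
  have hV : Subsingleton (F.H' 2 (W₀ ⊔ W₁)) := subsingleton_sup F rfl rfl 1 h2₀ h2₁ h01
  obtain ⟨c, rfl⟩ := exists_dl F (rfl : W₀ ⊔ W₁ ⊔ W₂ = (W₀ ⊔ W₁) ⊔ W₂) rfl 1 le_sup_left
    le_sup_right y (Subsingleton.elim _ _) (Subsingleton.elim _ _)
  obtain ⟨s, hs⟩ := exists_dl F (hU' W₀ W₁ W₂) (hI' W₀ W₁ W₂) 0
    (inf_le_inf_right _ le_sup_left) (inf_le_inf_right _ le_sup_right) c
    (Subsingleton.elim _ _) (Subsingleton.elim _ _)
  obtain ⟨s₀₁, s₀₂, s₁₂, h⟩ := hC (toSec F _ s)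
  obtain ⟨s₀₁, rfl⟩ := (toSec_bijective F _).2 s₀₁
  obtain ⟨s₀₂, rfl⟩ := (toSec_bijective F _).2 s₀₂
  obtain ⟨s₁₂, rfl⟩ := (toSec_bijective F _).2 s₁₂
  have e : rs F 0 (le12 W₀ W₁ W₂) s₁₂ - rs F 0 (le02 W₀ W₁ W₂) s₀₂ + rs F 0 (le01 W₀ W₁ W₂) s₀₁
      = s := by
    apply (toSec_bijective F _).1
    rw [map_add, map_sub, toSec_rs, toSec_rs, toSec_rs]
    exact h
  have hc : rs F 1 (inf_le_left : (W₀ ⊔ W₁) ⊓ W₂ ≤ W₀ ⊔ W₁)
      (dl F (rfl : W₀ ⊔ W₁ = W₀ ⊔ W₁) rfl 0 s₀₁) = c := by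
    rw [← dl_rs F (rfl : W₀ ⊔ W₁ = W₀ ⊔ W₁) rfl (hU' W₀ W₁ W₂) (hI' W₀ W₁ W₂)
        inf_le_left inf_le_left (le01 W₀ W₁ W₂) inf_le_left 0 s₀₁, ← hs, ← e, map_add, map_sub,
        dl_left, dl_right, sub_zero]
    exact (zero_add _).symm
  rw [← hc, dl_left]

/-- Leray for three open sets with union `U`, degrees one and two. -/
theorem leray_three {U : Opens T} (hU : U = W₀ ⊔ W₁ ⊔ W₂)
    (h1₀ : Subsingleton (F.H' 1 W₀)) (h1₁ : Subsingleton (F.H' 1 W₁))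
    (h1₂ : Subsingleton (F.H' 1 W₂)) (h2₀ : Subsingleton (F.H' 2 W₀))
    (h2₁ : Subsingleton (F.H' 2 W₁)) (h2₂ : Subsingleton (F.H' 2 W₂))
    (h01 : Subsingleton (F.H' 1 (W₀ ⊓ W₁))) (h02 : Subsingleton (F.H' 1 (W₀ ⊓ W₂)))
    (h12 : Subsingleton (F.H' 1 (W₁ ⊓ W₂)))
    (hC1 : CechOne F W₀ W₁ W₂) (hC2 : CechTwo F W₀ W₁ W₂) :
    Subsingleton (F.H' 1 U) ∧ Subsingleton (F.H' 2 U) := by
  subst hU
  exact ⟨leray_one F h1₀ h1₁ h1₂ hC1, leray_two F h2₀ h2₁ h2₂ h01 h02 h12 hC2⟩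

end Three

end Opens

end Pool.Agent.Lib.Leray
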