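import Pool.Agent.Lib.ExpPoly2

set_option autoImplicit false

/-!
# Sums of polynomial orbits in Noetherian modules: preparations

Irreducible submodules `N` of a Noetherian module, the prime ideal `pp N` and the filtration
`NN N i = {y | pp^i y ⊆ N}`.
-/

open Finset

namespace Pool.Lib.ModDich

open Pool.Lib.PolySeq Pool.Lib.APoly Pool.Lib.EPoly

variable {R M : Type*} [CommRing R] [AddCommGroup M] [Module R M]

/-- the annihilator of `M / N` -/
def annI (N : Submodule R M) : Ideal R where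
  carrier := {s | ∀ y : M, s • y ∈ N}
  add_mem' := fun ha hb y => by rw [add_smul]; exact N.add_mem (ha y) (hb y)
  zero_mem' := fun y => by rw [zero_smul]; exact N.zero_mem
  smul_mem' := fun c s hs y => by
    rw [smul_eq_mul, mul_smul]; exact N.smul_mem c (hs y)

lemma mem_annI {N : Submodule R M} {s : R} : s ∈ annI N ↔ ∀ y : M, s • y ∈ N := Iff.rfl

/-- its radical -/
def pp (N : Submodule R M) : Ideal R := (annI N).radical

/-- the filtration -/
def NN (N : Submodule R M) (i : ℕ) : Submodule R M where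
  carrier := {y | ∀ a ∈ pp N ^ i, a • y ∈ N}
  add_mem' := fun hx hy a ha => by rw [smul_add]; exact N.add_mem (hx a ha) (hy a ha)
  zero_mem' := fun a _ => by rw [smul_zero]; exact N.zero_mem
  smul_mem' := fun c y hy a ha => by
    rw [smul_comm]; exact N.smul_mem c (hy a ha)

lemma mem_NN {N : Submodule R M} {i : ℕ} {y : M} : y ∈ NN N i ↔ ∀ a ∈ pp N ^ i, a • y ∈ N :=
  Iff.rfl

lemma NN_zero (N : Submodule R M) : NN N 0 = N := by
  ext y
  rw [mem_NN, pow_zero, Ideal.one_eq_top]
  constructor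
  · intro h
    have := h 1 trivial
    rwa [one_smul] at this
  · intro h a _
    exact N.smul_mem a h

lemma NN_mono (N : Submodule R M) (i : ℕ) : NN N i ≤ NN N (i + 1) := by
  intro y hy a ha
  exact hy a (Ideal.pow_le_pow_right (Nat.le_succ i) ha)

lemma le_NN (N : Submodule R M) (i : ℕ) : N ≤ NN N i := fun _ hy a _ => N.smul_mem a hy

lemma NN_drop {N : Submodule R M} {i : ℕ} {y : M} (hy : y ∈ NN N (i + 1)) {a : R}
    (ha : a ∈ pp N) : a • y ∈ NN N i := by
  intro b hb
  rw [← mul_smul]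
  apply hy
  rw [pow_succ]
  exact Ideal.mul_mem_mul hb ha

lemma exists_NN_top [IsNoetherianRing R] (N : Submodule R M) : ∃ k, pp N ^ k ≤ annI N ∧
    NN N k = ⊤ := by
  obtain ⟨k, hk⟩ := (annI N).exists_radical_pow_le_of_fg (IsNoetherian.noetherian _)
  refine ⟨k, hk, ?_⟩
  rw [eq_top_iff]
  intro y _ a ha
  exact hk ha y

/-- irreducibility of `N` -/
def Irr (N : Submodule R M) : Prop :=
  ∀ N1 N2 : Submodule R M, N ≤ N1 → N ≤ N2 → N1 ⊓ N2 = N → N1 = N ∨ N2 = N

lemma inj_of_notMem [IsNoetherian R M] {N : Submodule R M} (hirr : Irr N) {s : R}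
    (hs : s ∉ pp N) (y : M) (hy : s • y ∈ N) : y ∈ N := by
  -- the increasing chain of kernels
  let K : ℕ →o Submodule R M :=
    { toFun := fun k =>
        { carrier := {y | s ^ k • y ∈ N}
          add_mem' := fun hx hy => by
            show s ^ k • (_ + _) ∈ N
            rw [smul_add]; exact N.add_mem hx hy
          zero_mem' := by show s ^ k • (0 : M) ∈ N; rw [smul_zero]; exact N.zero_mem
          smul_mem' := fun c y hy => by
            show s ^ k • c • y ∈ N
            rw [smul_comm]; exact N.smul_mem c hy }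
      monotone' := by
        apply monotone_nat_of_le_succ
        intro k y hy
        show s ^ (k + 1) • y ∈ N
        rw [pow_succ', mul_smul]
        exact N.smul_mem s hy }
  have hK : ∀ k y, y ∈ K k ↔ s ^ k • y ∈ N := fun k y => Iff.rfl
  obtain ⟨k, hk⟩ := monotone_stabilizes_iff_noetherian.mpr inferInstance K
  have hNK : ∀ k, N ≤ K k := fun k y hy => N.smul_mem _ hy
  set B : Submodule R M := N ⊔ LinearMap.range (s ^ k • (LinearMap.id : M →ₗ[R] M)) with hB
  have hAB : K k ⊓ B = N := by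
    apply le_antisymm
    · rintro z ⟨hz1, hz2⟩
      have hz1' : s ^ k • z ∈ N := hz1
      rw [hB, SetLike.mem_coe, Submodule.mem_sup] at hz2
      obtain ⟨n, hn, w, ⟨m, rfl⟩, rfl⟩ := hz2
      simp only [LinearMap.smul_apply, LinearMap.id_apply] at hz1' ⊢
      rw [smul_add] at hz1'
      have h1 : s ^ k • s ^ k • m ∈ N := by
        have := N.sub_mem hz1' (N.smul_mem (s ^ k) hn)
        rwa [add_sub_cancel_left] at this
      have h2 : m ∈ K (k + k) := by
        rw [hK, pow_add, mul_smul]; exact h1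
      rw [← hk (k + k) (by omega), hK] at h2
      exact N.add_mem hn h2
    · exact le_inf (hNK k) le_sup_left
  rcases hirr (K k) B (hNK k) le_sup_left hAB with h | h
  · have h1 : y ∈ K (max k 1) := by
      have : y ∈ K 1 := by rw [hK, pow_one]; exact hy
      exact K.monotone (le_max_right k 1) this
    rw [← hk (max k 1) (le_max_left _ _), h] at h1
    exact h1
  · exfalso
    apply hs
    refine ⟨k, fun z => ?_⟩
    rw [← h]
    apply Submodule.mem_sup_right
    exact ⟨z, rfl⟩

lemma pp_prime [IsNoetherian R M] {N : Submodule R M} (hirr : Irr N) (hN : N ≠ ⊤) :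
    (pp N).IsPrime := by
  refine ⟨?_, ?_⟩
  · intro hcon
    apply hN
    rw [pp, Ideal.radical_eq_top] at hcon
    rw [eq_top_iff]
    intro y _
    have h1 : (1 : R) ∈ annI N := by rw [hcon]; trivial
    have := h1 y
    rwa [one_smul] at this
  · intro a b hab
    by_contra hcon
    push Not at hcon
    obtain ⟨ha, hb⟩ := hcon
    obtain ⟨k, hk⟩ := hab
    apply hb
    refine ⟨k, fun y => ?_⟩
    have h1 : ∀ (j : ℕ) (z : M), a ^ j • z ∈ N → z ∈ N := by
      intro j
      induction j with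
      | zero => intro z hz; rwa [pow_zero, one_smul] at hz
      | succ j ihj =>
        intro z hz
        rw [pow_succ, mul_smul] at hz
        exact inj_of_notMem hirr ha z (ihj _ hz)
    apply h1 k
    rw [← mul_smul, ← mul_pow]
    exact hk y

lemma NN_inj [IsNoetherian R M] {N : Submodule R M} (hirr : Irr N) {s : R} (hs : s ∉ pp N)
    {i : ℕ} {y : M} (hy : s • y ∈ NN N i) : y ∈ NN N i := by
  intro b hb
  apply inj_of_notMem hirr hs
  rw [smul_comm]
  exact hy b hb

/-! ### Exponents -/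

/-- A finitely generated commutative group has torsion of bounded exponent. -/
lemma torsion_exponent {A : Type*} [CommGroup A] [hA : Group.FG A] :
    ∃ E : ℕ, 0 < E ∧ ∀ x : A, ∀ m : ℕ, 0 < m → x ^ m = 1 → x ^ E = 1 := by
  haveI : AddGroup.FG (Additive A) := inferInstance
  haveI : Module.Finite ℤ (Additive A) := Module.Finite.iff_addGroup_fg.mpr inferInstance
  let T : Submodule ℤ (Additive A) := Submodule.torsion ℤ (Additive A)
  haveI : Module.Finite ℤ T := Module.IsNoetherian.finite ℤ T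
  haveI : Finite T := Module.finite_of_fg_torsion T (Submodule.torsion_isTorsion)
  refine ⟨Nat.card T, Nat.card_pos, fun x m hm hx => ?_⟩
  have hmem : Additive.ofMul x ∈ T := by
    rw [Submodule.mem_torsion_iff]
    refine ⟨⟨(m : ℤ), ?_⟩, ?_⟩
    · exact mem_nonZeroDivisors_of_ne_zero (by exact_mod_cast hm.ne')
    · show ((m : ℤ) • Additive.ofMul x) = 0
      rw [← ofMul_zpow, zpow_natCast, hx]
      rfl
  have h1 : Nat.card T • (⟨Additive.ofMul x, hmem⟩ : T) = 0 := card_nsmul_eq_zero'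
  have h2 := congrArg Subtype.val h1
  exact h2

/-- powers of elements of `U` -/
def Uq (U : Subgroup Rˣ) (q : ℕ) : Subgroup Rˣ := U.map (powMonoidHom q)

lemma mem_Uq {U : Subgroup Rˣ} {q : ℕ} {x : Rˣ} : x ∈ Uq U q ↔ ∃ w ∈ U, w ^ q = x := Iff.rfl

lemma Uq_mul_le (U : Subgroup Rˣ) (q t : ℕ) : Uq U (q * t) ≤ Uq U q := by
  rintro _ ⟨w, hw, rfl⟩
  refine ⟨w ^ t, U.pow_mem hw t, ?_⟩
  show (w ^ t) ^ q = w ^ (q * t)
  rw [← pow_mul, mul_comm]

/-- The exponent of the torsion of a finitely generated group of units modulo a prime. -/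
lemma exists_exponent (U : Subgroup Rˣ) (hU : U.FG) (P : Ideal R) :
    ∃ E : ℕ, 0 < E ∧ ∀ w ∈ U, ∀ m : ℕ, 0 < m → ((w : R) ^ m - 1) ∈ P → ((w : R) ^ E - 1) ∈ P := by
  let φ : Rˣ →* (R ⧸ P)ˣ := Units.map (Ideal.Quotient.mk P).toMonoidHom
  haveI : Group.FG U := (Group.fg_iff_subgroup_fg U).mpr hU
  let A := (φ.comp U.subtype).range
  haveI : Group.FG A := Group.fg_range _
  obtain ⟨E, hE, hx⟩ := torsion_exponent (A := A)
  refine ⟨E, hE, fun w hw m hm h => ?_⟩
  have key : ∀ j : ℕ, ((w : R) ^ j - 1) ∈ P ↔ (φ w) ^ j = 1 := by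
    intro j
    rw [Units.ext_iff, ← Ideal.Quotient.eq_zero_iff_mem, map_sub, map_pow, map_one, sub_eq_zero]
    rfl
  rw [key] at h ⊢
  have h1 := hx ⟨φ w, ⟨⟨w, hw⟩, rfl⟩⟩ m hm (Subtype.ext h)
  exact congrArg Subtype.val h1

/-- raising to the power `p` improves congruences modulo powers of an ideal containing `p` -/
lemma pow_congr (P : Ideal R) (p : ℕ) (hp : (p : R) ∈ P) {i : ℕ} (hi : 1 ≤ i) {a : R}
    (ha : a - 1 ∈ P ^ i) : a ^ p - 1 ∈ P ^ (i + 1) := by
  have ha1 : a - 1 ∈ P := by
    have := Ideal.pow_le_pow_right hi ha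
    rwa [pow_one] at this
  have hpow : ∀ j : ℕ, a ^ j - 1 ∈ P := by
    intro j
    rw [← mul_geom_sum]
    exact P.mul_mem_right _ ha1
  have h1 : a ^ p - 1 = (a - 1) * ∑ j ∈ range p, a ^ j := (mul_geom_sum a p).symm
  rw [h1, pow_succ]
  apply Ideal.mul_mem_mul ha
  have h2 : ∑ j ∈ range p, a ^ j = ∑ j ∈ range p, (a ^ j - 1) + (p : R) := by
    rw [Finset.sum_sub_distrib]; simp
  rw [h2]
  exact P.add_mem (P.sum_mem fun j _ => hpow j) hp

lemma pow_pow_congr (P : Ideal R) (p : ℕ) (hp : (p : R) ∈ P) {a : R} (ha : a - 1 ∈ P) (k : ℕ) :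
    a ^ (p ^ k) - 1 ∈ P ^ (k + 1) := by
  induction k with
  | zero => simpa using ha
  | succ k ih =>
    rw [pow_succ p k, pow_mul]
    exact pow_congr P p hp (by omega) ih

end Pool.Lib.ModDich
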