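import Pool.Agent.Lib.ModDich
import Pool.Agent.Lib.PolyOrbit2

set_option autoImplicit false

/-!
# Sums of polynomial orbits in Noetherian modules: the irreducible case
-/

open Finset

namespace Pool.Lib.ModDich

open Pool.Lib.PolySeq Pool.Lib.APoly Pool.Lib.EPoly

variable {R M : Type*} [CommRing R] [AddCommGroup M] [Module R M]

/-- the level sets of `u` modulo `N` are sparse (with a power saving) -/
def Sparse (N : Submodule R M) (u : ℕ → M) : Prop :=
  ∃ s : ℕ, ∀ (z : M) (L : ℕ) (S : Finset ℕ), (∀ n ∈ S, n < L ∧ u n - z ∈ N) →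
    (S.card : ℝ) ≤ 3 * (L : ℝ) ^ (1 - (1 / 2 : ℝ) ^ s)

/-- classes of coefficient functions -/
structure CoefOK (N : Submodule R M) (W : Subgroup Rˣ) (C0 : Prop) (Coef : (ℕ → M) → Prop) :
    Prop where
  const : ∀ c, Coef fun _ => c
  add : ∀ p q, Coef p → Coef q → Coef fun n => p n + q n
  neg : ∀ p, Coef p → Coef fun n => - p n
  smul : ∀ (i : ℕ) (ω : ℕ → Rˣ) (p : ℕ → M), (∃ D, Dv D ω) → (∀ n, ω n ∈ W) →
    (∀ n, ((ω n : Rˣ) : R) - 1 ∈ pp N) → Coef p → (∀ n, p n ∈ NN N (i + 1)) →
    Coef fun n => ω n • p n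
  pd : ∀ p, Coef p → ∃ k, (k ≤ 1 ∨ C0) ∧ PD N.toAddSubgroup k p

lemma CoefOK.sum {N : Submodule R M} {W : Subgroup Rˣ} {C0 : Prop} {Coef : (ℕ → M) → Prop}
    (h : CoefOK N W C0 Coef) {J : Type*} (s : Finset J) (p : J → ℕ → M)
    (hp : ∀ j ∈ s, Coef (p j)) : Coef fun n => ∑ j ∈ s, p j n := by
  classical
  induction s using Finset.induction_on with
  | empty => simpa using h.const 0
  | insert a s ha ih =>
    have e : (fun n => ∑ j ∈ insert a s, p j n) = fun n => p a n + ∑ j ∈ s, p j n := by
      funext n; rw [Finset.sum_insert ha]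
    rw [e]
    exact h.add _ _ (hp a (mem_insert_self a s)) (ih fun j hj => hp j (mem_insert_of_mem hj))

lemma Gd_sum {Λ V : Type*} [CommGroup Λ] [AddCommGroup V] [DistribMulAction Λ V] {k : ℕ}
    {J : Type*} (s : Finset J) (v : J → FE Λ V) (hv : ∀ j ∈ s, Gd k (v j)) :
    Gd k (∑ j ∈ s, v j) := by
  classical
  induction s using Finset.induction_on with
  | empty => simpa using Gd.zero k
  | insert a s ha ih =>
    rw [Finset.sum_insert ha]
    exact (hv a (mem_insert_self a s)).add (ih fun j hj => hv j (mem_insert_of_mem hj))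

section step

variable [IsNoetherian R M] {N : Submodule R M}

open Classical in
/-- The analysis on the level of the quotient `NN (i+1) / NN i`. -/
lemma formal_step (hirr : Irr N) (W : Subgroup Rˣ)
    (hW : ∀ w ∈ W, ∀ m : ℕ, 0 < m → ((w : R) ^ m - 1) ∈ pp N → ((w : R) - 1) ∈ pp N)
    {k : ℕ} (hk1 : 1 ≤ k) (hk : k ≤ 1 ∨ ∀ m : ℕ, 0 < m → (m : R) ∉ pp N) (i : ℕ)
    (J : Type) [Fintype J] (τ : J → ℕ → Rˣ)
    (hτ : ∀ j, ∃ D, Dv D (τ j)) (h0 : ∀ j, τ j 0 = 1) (hτW : ∀ j n, τ j n ∈ W)
    (p : J → ℕ → M) (hpd : ∀ j, PD N.toAddSubgroup k (p j)) (hv : ∀ j n, p j n ∈ NN N (i + 1))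
    (z : M) :
    Sparse N (fun n => z + ∑ j, τ j n • p j n) ∨
    ((∀ c : ℕ → R ⧸ pp N, c ≠ 1 → ∀ n,
        ∑ j ∈ univ.filter (fun j => (fun n => Ideal.Quotient.mk (pp N) (τ j n : R)) = c),
          p j n ∈ NN N i) ∧
      ∀ n, ∑ j ∈ univ.filter (fun j => (fun n => Ideal.Quotient.mk (pp N) (τ j n : R)) = 1),
          (p j n - p j 0) ∈ NN N i) := by
  let V := Submodule.torsionBySet R (M ⧸ NN N i) (pp N : Set R)
  letI modV : Module (R ⧸ pp N) V := (Submodule.torsionBySet_isTorsionBySet _).module
  let φ : Rˣ →* (R ⧸ pp N)ˣ := Units.map (Ideal.Quotient.mk (pp N)).toMonoidHom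
  let Λ : Subgroup (R ⧸ pp N)ˣ := W.map φ
  have hΛmem : ∀ w ∈ W, φ w ∈ Λ := fun w hw => ⟨w, hw, rfl⟩
  have hsm : ∀ (r : Rˣ) (hr : φ r ∈ Λ) (x : V), (⟨φ r, hr⟩ : Λ) • x = (r : R) • x :=
    fun r hr x => rfl
  have hmem : ∀ y ∈ NN N (i + 1), Submodule.Quotient.mk (p := NN N i) y ∈ V := by
    intro y hy
    rw [Submodule.mem_torsionBySet_iff]
    rintro ⟨a, ha⟩
    rw [← Submodule.Quotient.mk_smul, Submodule.Quotient.mk_eq_zero]
    exact NN_drop hy ha
  let α : J → Qs Λ := fun j => ⟨fun n => ⟨φ (τ j n), hΛmem _ (hτW j n)⟩, by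
    refine ⟨Subtype.ext ?_, ?_⟩
    · show φ (τ j 0) = 1
      rw [h0, map_one]
    · obtain ⟨D, hD⟩ := hτ j
      exact ⟨D, Dv_of_injective Λ.subtype Λ.subtype_injective (Dv_map φ hD)⟩⟩
  let pb : J → ℕ → V := fun j n => ⟨Submodule.Quotient.mk (p j n), hmem _ (hv j n)⟩
  -- torsion freeness and freeness
  have htf : ∀ (x : Λ) (m : ℕ), 0 < m → x ^ m = 1 → x = 1 := by
    rintro ⟨x, w, hw, rfl⟩ m hm hx
    apply Subtype.ext
    have h1 : φ w ^ m = 1 := congrArg Subtype.val hx
    have h2 : ((w : R) ^ m - 1) ∈ pp N := by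
      rw [← Ideal.Quotient.eq_zero_iff_mem, map_sub, map_pow, map_one, sub_eq_zero]
      exact Units.ext_iff.mp h1
    have h3 := hW w hw m hm h2
    apply Units.ext
    rw [← Ideal.Quotient.eq_zero_iff_mem, map_sub, map_one, sub_eq_zero] at h3
    exact h3
  have hVinj : ∀ (s : R) (x : V), s ∉ pp N → s • x = 0 → x = 0 := by
    rintro s ⟨x, hx⟩ hs hsx
    obtain ⟨y, rfl⟩ := Submodule.Quotient.mk_surjective _ x
    apply Subtype.ext
    show Submodule.Quotient.mk y = 0
    rw [Submodule.Quotient.mk_eq_zero]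
    have h1 : (Submodule.Quotient.mk (s • y) : M ⧸ NN N i) = 0 := congrArg Subtype.val hsx
    rw [Submodule.Quotient.mk_eq_zero] at h1
    exact NN_inj hirr hs h1
  have hfree : ∀ l : Λ, l ≠ 1 → ∀ v : V, l • v = v → v = 0 := by
    rintro ⟨l, w, hw, rfl⟩ hl v hlv
    have h1 : ((w : R) - 1) ∉ pp N := by
      intro hcon
      apply hl
      apply Subtype.ext
      apply Units.ext
      rw [← Ideal.Quotient.eq_zero_iff_mem, map_sub, map_one, sub_eq_zero] at hcon
      exact hcon
    apply hVinj _ v h1
    apply Subtype.ext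
    show ((w : R) - 1) • (v : M ⧸ NN N i) = 0
    rw [sub_smul, one_smul, sub_eq_zero]
    exact congrArg Subtype.val hlv
  have hT : k ≤ 1 ∨ ∀ m : ℕ, 0 < m → ∀ v : V, m • v = 0 → v = 0 := by
    rcases hk with h | h
    · exact Or.inl h
    · right
      intro m hm v hmv
      apply hVinj (m : R) v (h m hm)
      rw [Nat.cast_smul_eq_nsmul]
      exact hmv
  have hpb : ∀ j, PD (⊥ : AddSubgroup V) k (pb j) := by
    intro j
    -- transfer along the quotient map
    have h1 : PD (⊥ : AddSubgroup (M ⧸ NN N i)) k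
        (fun n => Submodule.Quotient.mk (p := NN N i) (p j n)) :=
      PD_map (NN N i).mkQ.toAddMonoidHom (fun v hv => by
        rw [AddSubgroup.mem_bot]
        exact (Submodule.Quotient.mk_eq_zero _).mpr (le_NN N i hv)) (hpd j)
    have h2 : ∀ (k : ℕ) (q : ℕ → V), PD (⊥ : AddSubgroup (M ⧸ NN N i)) k (fun n => (q n : M ⧸ NN N i)) →
        PD (⊥ : AddSubgroup V) k q := by
      intro k
      induction k with
      | zero =>
        intro q hq n
        rw [AddSubgroup.mem_bot]
        exact Subtype.ext (AddSubgroup.mem_bot.mp (hq n))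
      | succ k ihk =>
        intro q hq
        apply ihk
        exact hq
    exact h2 k (pb j) h1
  -- the formal exponential polynomial
  let v : FE Λ V := ∑ j, Finsupp.single (α j) (fun n => (α j).1 n • pb j n)
  have hvG : Gd k v := Gd_sum _ _ fun j _ => Gd.single (α j) (hpb j)
  have hev : ∀ n, ev n v = ∑ j, (α j).1 n • pb j n := by
    intro n
    rw [map_sum]
    simp_rw [ev_single]
  have hvapp : ∀ β n, v β n = ∑ j ∈ univ.filter (fun j => α j = β), β.1 n • pb j n := by
    intro β n
    have e1 : v β = ∑ j, (Finsupp.single (α j) (fun n => (α j).1 n • pb j n) : FE Λ V) β :=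
      Finsupp.finset_sum_apply _ _ _
    rw [e1, Finset.sum_apply, Finset.sum_filter]
    apply Finset.sum_congr rfl
    intro j _
    rw [Finsupp.single_apply]
    split_ifs with h
    · rw [h]
    · rfl
  have hcleq : ∀ j j', α j = α j' ↔ (fun n => Ideal.Quotient.mk (pp N) (τ j n : R)) =
      (fun n => Ideal.Quotient.mk (pp N) (τ j' n : R)) := by
    intro j j'
    constructor
    · intro h
      funext n
      have h1 := congrFun (congrArg Subtype.val h) n
      have h2 := congrArg Subtype.val h1
      exact congrArg Units.val h2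
    · intro h
      apply Subtype.ext
      funext n
      apply Subtype.ext
      apply Units.ext
      exact congrFun h n
  have hcl1 : ∀ j, α j = 1 ↔ (fun n => Ideal.Quotient.mk (pp N) (τ j n : R)) = 1 := by
    intro j
    constructor
    · intro h
      funext n
      have h1 := congrFun (congrArg Subtype.val h) n
      have h2 := congrArg Subtype.val h1
      exact congrArg Units.val h2
    · intro h
      apply Subtype.ext
      funext n
      apply Subtype.ext
      apply Units.ext
      exact congrFun h n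
  by_cases hex : ∃ c : V, v = Finsupp.single 1 (fun _ => c)
  · right
    obtain ⟨c, hc⟩ := hex
    constructor
    · intro d hd n
      by_cases hne : ∃ j0, (fun n => Ideal.Quotient.mk (pp N) (τ j0 n : R)) = d
      · obtain ⟨j0, rfl⟩ := hne
        have hβ : α j0 ≠ 1 := fun h => hd ((hcl1 j0).mp h)
        have h1 : v (α j0) n = 0 := by
          rw [hc, Finsupp.single_apply, if_neg (Ne.symm hβ)]; rfl
        rw [hvapp, ← Finset.smul_sum, smul_eq_zero_iff_eq] at h1
        have h2 : univ.filter (fun j => α j = α j0) = univ.filter (fun j =>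
            (fun n => Ideal.Quotient.mk (pp N) (τ j n : R)) =
            (fun n => Ideal.Quotient.mk (pp N) (τ j0 n : R))) := by
          apply Finset.filter_congr
          intro j _
          exact hcleq j j0
        rw [h2] at h1
        have h3 := congrArg (fun x : V => (x : M ⧸ NN N i)) h1
        simp only [pb, AddSubmonoidClass.coe_finset_sum, ZeroMemClass.coe_zero] at h3
        rw [← Submodule.Quotient.mk_eq_zero, ← h3]
        exact map_sum (NN N i).mkQ _ _
      · have h2 : univ.filter (fun j =>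
            (fun n => Ideal.Quotient.mk (pp N) (τ j n : R)) = d) = ∅ := by
          rw [Finset.filter_eq_empty_iff]
          intro j _ hj
          exact hne ⟨j, hj⟩
        rw [h2, Finset.sum_empty]
        exact (NN N i).zero_mem
    · intro n
      have h2 : univ.filter (fun j => α j = 1) = univ.filter (fun j =>
          (fun n => Ideal.Quotient.mk (pp N) (τ j n : R)) = 1) := by
        apply Finset.filter_congr
        intro j _
        exact hcl1 j
      have h1 : ∀ n, ∑ j ∈ univ.filter (fun j => α j = 1), pb j n = c := by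
        intro n
        have h3 := hvapp 1 n
        rw [hc, Finsupp.single_eq_same] at h3
        rw [h3]
        apply Finset.sum_congr rfl
        intro j _
        exact (one_smul Λ _).symm
      have h4 : ∑ j ∈ univ.filter (fun j => α j = 1), (pb j n - pb j 0) = 0 := by
        rw [Finset.sum_sub_distrib, h1, h1, sub_self]
      rw [h2] at h4
      have h3 := congrArg (fun x : V => (x : M ⧸ NN N i)) h4
      simp only [pb, AddSubmonoidClass.coe_finset_sum, ZeroMemClass.coe_zero,
        AddSubgroupClass.coe_sub] at h3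
      rw [← Submodule.Quotient.mk_eq_zero, ← h3]
      exact map_sum (NN N i).mkQ _ _
  · left
    push Not at hex
    -- a common degree
    have hD : ∃ D, ∀ j, α j ∈ QD Λ D := by
      choose D hD using fun j => exists_QD (α j)
      refine ⟨∑ j, D j, fun j => ?_⟩
      have hle : D j ≤ ∑ j, D j := Finset.single_le_sum (fun _ _ => Nat.zero_le _) (mem_univ j)
      have hm : Monotone fun D => QD Λ D := monotone_nat_of_le_succ QD_mono
      exact hm hle (hD j)
    obtain ⟨D, hD⟩ := hD
    obtain ⟨s, hs⟩ := exists_kill (Λ := Λ) (V := V) k D (Fintype.card J + 1)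
    refine ⟨s, fun z' L S hS => ?_⟩
    rcases S.eq_empty_or_nonempty with hSe | ⟨n0, hn0⟩
    · rw [hSe]
      simp only [card_empty, Nat.cast_zero]
      positivity
    · -- the level
      have hu : ∀ n, ∑ j, τ j n • p j n ∈ NN N (i + 1) := fun n =>
        (NN N (i + 1)).sum_mem fun j _ => (NN N (i + 1)).smul_mem _ (hv j n)
      have hzz : z' - z ∈ NN N (i + 1) := by
        have h1 := le_NN N (i + 1) (hS n0 hn0).2
        have h2 := (NN N (i + 1)).sub_mem (hu n0) h1
        have e : ∑ j, τ j n0 • p j n0 - (z + ∑ j, τ j n0 • p j n0 - z') = z' - z := by abel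
        rwa [e] at h2
      let c : V := ⟨Submodule.Quotient.mk (z' - z), hmem _ hzz⟩
      let v' : FE Λ V := v - Finsupp.single 1 (fun _ => c)
      have hv'0 : v' ≠ 0 := by
        intro hcon
        exact hex c (sub_eq_zero.mp hcon)
      have hconst : Gd k (Finsupp.single (1 : Qs Λ) (fun _ => c) : FE Λ V) := by
        have h1 := Gd.single (1 : Qs Λ) (PD_const (C := (⊥ : AddSubgroup V)) k hk1 c)
        have e : (fun n : ℕ => (1 : Qs Λ).1 n • c) = fun _ => c := by
          funext n
          exact one_smul Λ c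
        rw [e] at h1
        exact h1
      have hv'G : Gd k v' := hvG.sub hconst
      have hsupp : v'.support ⊆ insert 1 (univ.image α) := by
        intro β hβ
        rw [Finsupp.mem_support_iff] at hβ
        rw [mem_insert, mem_image]
        by_contra hcon
        push Not at hcon
        apply hβ
        show v β - (Finsupp.single (1 : Qs Λ) (fun _ => c) : FE Λ V) β = 0
        rw [Finsupp.single_apply, if_neg (Ne.symm hcon.1), sub_zero]
        funext n
        rw [hvapp]
        have : univ.filter (fun j => α j = β) = ∅ := by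
          rw [Finset.filter_eq_empty_iff]
          intro j _ hj
          exact hcon.2 j (mem_univ j) hj
        rw [this, Finset.sum_empty]; rfl
      have hK : Kill D s v' := by
        apply hs v' hv'G
        · intro β hβ
          have h1 := hsupp (Finsupp.mem_support_iff.mpr hβ)
          rw [mem_insert, mem_image] at h1
          rcases h1 with rfl | ⟨j, _, rfl⟩
          · exact (QD Λ D).one_mem
          · exact hD j
        · refine (card_le_card hsupp).trans ((card_insert_le _ _).trans ?_)
          exact Nat.succ_le_succ card_image_le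
      apply sparse htf hfree hT D s v' hK hv'G hv'0 L S
      intro n hn
      refine ⟨(hS n hn).1, ?_⟩
      refine (map_sub (ev n) v (Finsupp.single 1 (fun _ => c))).trans ?_
      rw [hev, ev_single]
      apply Subtype.ext
      have h1 : ((∑ j, (α j).1 n • pb j n : V) : M ⧸ NN N i) =
          Submodule.Quotient.mk (∑ j, τ j n • p j n) := by
        rw [AddSubmonoidClass.coe_finset_sum]
        exact (map_sum (NN N i).mkQ _ _).symm
      show ((∑ j, (α j).1 n • pb j n : V) : M ⧸ NN N i) - Submodule.Quotient.mk (z' - z) = 0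
      rw [h1, ← Submodule.Quotient.mk_sub, Submodule.Quotient.mk_eq_zero]
      have h2 := le_NN N i (hS n hn).2
      have e : ∑ j, τ j n • p j n - (z' - z) = z + ∑ j, τ j n • p j n - z' := by abel
      rw [e]
      exact h2

end step

end Pool.Lib.ModDich
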