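import Pool.Agent.Lib.PolySeq

set_option autoImplicit false

/-!
# Orbits of polynomial sequences in nilpotent groups

`orbit_dichotomy`: if `G` is nilpotent, `H` is a subgroup and all `s`-fold differences of
`p : ℕ → G` are trivial, then there is `q > 0` such that along every residue class modulo `q` the
coset `p(n) H` is constant or takes every value a bounded number of times.
-/

open Polynomial Finset

namespace Pool.Lib.PolySeq

section general

variable {G : Type*} [Group G]

lemma Dv_mono {s : ℕ} : ∀ {g : ℕ → G}, Dv s g → Dv (s + 1) g := by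
  induction s with
  | zero =>
    intro g hg h n
    simp only [dd, hg n, hg (n + h)]
    group
  | succ s ih => intro g hg h; exact ih (hg h)

lemma Dv_le {s t : ℕ} (hst : s ≤ t) {g : ℕ → G} (hg : Dv s g) : Dv t g := by
  induction t, hst using Nat.le_induction with
  | base => exact hg
  | succ t _ ih => exact Dv_mono ih

lemma Dv_map {G' : Type*} [Group G'] (φ : G →* G') {s : ℕ} : ∀ {g : ℕ → G}, Dv s g →
    Dv s (fun n => φ (g n)) := by
  induction s with
  | zero => intro g hg n; simp only [hg n, map_one]
  | succ s ih =>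
    intro g hg h
    have e : dd h (fun n => φ (g n)) = fun n => φ (dd h g n) := by
      funext n; simp [dd]
    rw [e]
    exact ih (hg h)

/-- left multiplication by a constant does not change differences -/
lemma Dv_left (c : G) {s : ℕ} (hs : 0 < s) {g : ℕ → G} (hg : Dv s g) :
    Dv s (fun n => c * g n) := by
  cases s with
  | zero => omega
  | succ s =>
    intro h
    have e : dd h (fun n => c * g n) = dd h g := by
      funext n; simp only [dd]; group
    rw [e]
    exact hg h

lemma Dv_affine (a b : ℕ) {s : ℕ} : ∀ {g : ℕ → G}, Dv s g → Dv s (fun n => g (a * n + b)) := by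
  induction s with
  | zero => intro g hg n; exact hg _
  | succ s ih =>
    intro g hg h
    have e : dd h (fun n => g (a * n + b)) = fun n => dd (a * h) g (a * n + b) := by
      funext n
      simp only [dd]
      congr 2
      ring
    rw [e]
    exact ih (hg (a * h))

/-- A sequence with trivial `s`-fold differences is determined by `s` values. -/
lemma Dv_unique {s : ℕ} : ∀ {g : ℕ → G}, Dv s g → (∀ t < s, g t = 1) → ∀ n, g n = 1 := by
  induction s with
  | zero => intro g hg _ n; exact hg n
  | succ s ih =>
    intro g hg h0 n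
    have h1 : ∀ n, dd 1 g n = 1 := by
      apply ih (hg 1)
      intro t ht
      simp only [dd, h0 t (by omega), h0 (t + 1) (by omega)]
      group
    induction n with
    | zero => exact h0 0 (by omega)
    | succ n ihn =>
      have := h1 n
      simp only [dd, ihn] at this
      simpa using this

end general

section commutative

variable {A : Type*} [CommGroup A]

lemma Dv_pow (E : ℕ) {s : ℕ} {g : ℕ → A} (hg : Dv s g) : Dv s (fun n => g n ^ E) :=
  Dv_map (powMonoidHom E) hg

/-- torsion sequences are periodic -/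
lemma periodic_of_torsion (E : ℕ) {s : ℕ} : ∀ {g : ℕ → A}, Dv s g →
    (∀ n, g n ^ E = g 0 ^ E) → ∀ n, g (n + E ^ s) = g n := by
  induction s with
  | zero => intro g hg _ n; rw [hg, hg]
  | succ s ih =>
    intro g hg hE n
    have hη : ∀ n, dd 1 g (n + E ^ s) = dd 1 g n := by
      apply ih (hg 1)
      intro n
      simp only [dd, mul_pow, inv_pow, hE]
    -- the increment over `E ^ s` is constant
    have hc : ∀ n, (g n)⁻¹ * g (n + E ^ s) = (g 0)⁻¹ * g (0 + E ^ s) := by
      intro n
      induction n with
      | zero => rfl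
      | succ n ihn =>
        rw [← ihn]
        have h1 := hη n
        simp only [dd] at h1
        have h2 : g (n + 1) = g n * ((g n)⁻¹ * g (n + 1)) := by group
        have h3 : g (n + 1 + E ^ s) = g (n + E ^ s) * ((g n)⁻¹ * g (n + 1)) := by
          rw [← h1, show n + 1 + E ^ s = n + E ^ s + 1 by ring]; group
        rw [h3]
        nth_rewrite 1 [h2]
        rw [mul_inv]
        have : (g n)⁻¹ * ((g n)⁻¹ * g (n + 1))⁻¹ * (g (n + E ^ s) * ((g n)⁻¹ * g (n + 1))) =
            (g n)⁻¹ * g (n + E ^ s) * (((g n)⁻¹ * g (n + 1))⁻¹ * ((g n)⁻¹ * g (n + 1))) := by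
          ac_rfl
        rw [this, inv_mul_cancel, mul_one]
    set c := (g 0)⁻¹ * g (0 + E ^ s) with hcdef
    have hstep : ∀ k n, g (n + E ^ s * k) = g n * c ^ k := by
      intro k
      induction k with
      | zero => intro n; simp
      | succ k ihk =>
        intro n
        have h1 := hc (n + E ^ s * k)
        have h2 : g (n + E ^ s * (k + 1)) = g (n + E ^ s * k) * c := by
          rw [← h1, show n + E ^ s * (k + 1) = n + E ^ s * k + E ^ s by ring]; group
        rw [h2, ihk, pow_succ, mul_assoc]
    have hcE : c ^ E = 1 := by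
      rw [hcdef, mul_pow, inv_pow, hE (0 + E ^ s), inv_mul_cancel]
    rw [pow_succ, hstep, hcE, mul_one]

/-- rational valued sequences with vanishing differences are polynomials -/
lemma exists_poly (s : ℕ) (f : ℕ → ℚ) (hf : ∀ n, (fwdDiff 1)^[s] f n = 0) :
    ∃ P : ℚ[X], P.natDegree ≤ s ∧ ∀ n : ℕ, f n = P.eval (n : ℚ) := by
  have hz : ∀ k, s ≤ k → (fwdDiff 1)^[k] f 0 = 0 := by
    intro k hk
    obtain ⟨j, rfl⟩ := Nat.exists_eq_add_of_le hk
    rw [add_comm, Function.iterate_add_apply]
    have h0 : (fwdDiff 1)^[s] f = 0 := funext hf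
    rw [h0]
    have : ∀ j : ℕ, (fwdDiff (1 : ℕ))^[j] (0 : ℕ → ℚ) = 0 := by
      intro j
      induction j with
      | zero => rfl
      | succ j ih =>
        rw [Function.iterate_succ_apply', ih]
        funext n; simp [fwdDiff]
    rw [this]
    rfl
  refine ⟨∑ k ∈ range s, C ((fwdDiff 1)^[k] f 0 / (k.factorial : ℚ)) * descPochhammer ℚ k,
    ?_, ?_⟩
  · apply natDegree_sum_le_of_forall_le
    intro k hk
    refine (natDegree_C_mul_le _ _).trans ?_
    rw [descPochhammer_natDegree]
    exact (mem_range.mp hk).le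
  · intro n
    have h1 := shift_eq_sum_fwdDiff_iter 1 f n 0
    simp only [smul_eq_mul, mul_one, zero_add, nsmul_eq_mul] at h1
    rw [h1, eval_finset_sum]
    have h2 : ∀ k, (C ((fwdDiff 1)^[k] f 0 / (k.factorial : ℚ)) * descPochhammer ℚ k).eval (n : ℚ) =
        (n.choose k : ℚ) * (fwdDiff 1)^[k] f 0 := by
      intro k
      rw [eval_mul, eval_C, descPochhammer_eval_eq_descFactorial,
        Nat.descFactorial_eq_factorial_mul_choose]
      have : (k.factorial : ℚ) ≠ 0 := by exact_mod_cast k.factorial_ne_zero
      push_cast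
      field_simp
    simp_rw [h2]
    -- compare the two ranges
    have h3 : ∑ k ∈ range (n + 1), (n.choose k : ℚ) * (fwdDiff 1)^[k] f 0 =
        ∑ k ∈ range (n + 1 + s), (n.choose k : ℚ) * (fwdDiff 1)^[k] f 0 := by
      apply Finset.sum_subset
      · intro k hk; rw [mem_range] at hk ⊢; omega
      · intro k _ hk
        rw [mem_range] at hk
        rw [Nat.choose_eq_zero_of_lt (by omega)]
        simp
    have h4 : ∑ k ∈ range s, (n.choose k : ℚ) * (fwdDiff 1)^[k] f 0 =
        ∑ k ∈ range (n + 1 + s), (n.choose k : ℚ) * (fwdDiff 1)^[k] f 0 := by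
      apply Finset.sum_subset
      · intro k hk; rw [mem_range] at hk ⊢; omega
      · intro k _ hk
        rw [mem_range] at hk
        rw [hz k (by omega), mul_zero]
    rw [h3, h4]

lemma fwdDiff_of_Dv (φ : Additive A →+ ℚ) (s : ℕ) : ∀ (g : ℕ → A), Dv s g →
    ∀ n, (fwdDiff 1)^[s] (fun n => φ (Additive.ofMul (g n))) n = 0 := by
  induction s with
  | zero => intro g hg n; simp [hg n]
  | succ s ih =>
    intro g hg n
    rw [Function.iterate_succ_apply]
    have e : fwdDiff 1 (fun n => φ (Additive.ofMul (g n))) =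
        fun n => φ (Additive.ofMul (dd 1 g n)) := by
      funext n
      simp only [fwdDiff, dd, ofMul_mul, ofMul_inv, map_add, map_neg]
      ring
    rw [e]
    exact ih (dd 1 g) (hg 1) n

/-- a homomorphism to the rationals detecting an element of infinite order -/
lemma exists_hom (u : A) (hu : ∀ n : ℕ, 0 < n → u ^ n ≠ 1) :
    ∃ φ : Additive A →+ ℚ, φ (Additive.ofMul u) = 1 := by
  have hB : Module.Baer ℤ ℚ := Module.Baer.of_divisible ℚ
  let f : ℤ →+ Additive A := (zmultiplesHom (Additive A)) (Additive.ofMul u)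
  have hf : Function.Injective f := by
    rw [injective_iff_map_eq_zero]
    intro a ha
    by_contra hne
    have h1 : u ^ a = 1 := by
      have : (a • Additive.ofMul u : Additive A) = 0 := ha
      rw [← ofMul_zpow] at this
      exact this
    rcases Int.natAbs_eq a with h | h
    · rw [h, zpow_natCast] at h1
      exact hu a.natAbs (Int.natAbs_pos.mpr hne) h1
    · rw [h, zpow_neg, zpow_natCast, inv_eq_one] at h1
      exact hu a.natAbs (Int.natAbs_pos.mpr hne) h1
  obtain ⟨φ, hφ⟩ := hB.extension_property_addMonoidHom f hf (Int.castAddHom ℚ)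
  refine ⟨φ, ?_⟩
  have := congrArg (fun ψ : ℤ →+ ℚ => ψ 1) hφ
  simpa [f] using this

/-- Dichotomy for abelian groups. -/
theorem abelian_dichotomy {s : ℕ} {g : ℕ → A} (hg : Dv s g) :
    ∃ q : ℕ, 0 < q ∧ ∀ r : ℕ, (∀ n, g (q * n + r) = g r) ∨
      ∃ K : ℕ, ∀ (z : A) (S : Finset ℕ), (∀ n ∈ S, g (q * n + r) = z) → S.card ≤ K := by
  by_cases htor : ∀ t < s, ∃ e : ℕ, 0 < e ∧ ((g 0)⁻¹ * g t) ^ e = 1
  · choose! e he0 he using htor
    set E : ℕ := ∏ t ∈ range s, e t with hE
    have hE0 : 0 < E := Finset.prod_pos fun t ht => he0 t (mem_range.mp ht)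
    rcases Nat.eq_zero_or_pos s with hs | hs
    · subst hs
      exact ⟨1, one_pos, fun r => Or.inl fun n => by rw [hg, hg]⟩
    have h1 : ∀ n, ((g 0)⁻¹ * g n) ^ E = 1 := by
      apply Dv_unique (Dv_pow E (Dv_left (g 0)⁻¹ hs hg))
      intro t ht
      have hdvd : e t ∣ E := Finset.dvd_prod_of_mem e (mem_range.mpr ht)
      obtain ⟨k, hk⟩ := hdvd
      rw [hk, pow_mul, he t ht, one_pow]
    have h2 : ∀ n, g n ^ E = g 0 ^ E := by
      intro n
      have := h1 n
      rw [mul_pow, inv_pow, inv_mul_eq_one] at this
      exact this.symm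
    have hper := periodic_of_torsion E hg h2
    refine ⟨E ^ s, by positivity, fun r => Or.inl fun n => ?_⟩
    induction n with
    | zero => simp
    | succ n ih => rw [show E ^ s * (n + 1) + r = E ^ s * n + r + E ^ s by ring, hper, ih]
  · push Not at htor
    obtain ⟨t, ht, hne⟩ := htor
    obtain ⟨φ, hφ⟩ := exists_hom ((g 0)⁻¹ * g t) hne
    obtain ⟨P, hPd, hP⟩ := exists_poly s _ (fwdDiff_of_Dv φ s g hg)
    refine ⟨1, one_pos, fun r => Or.inr ⟨s, fun z S hS => ?_⟩⟩
    set v : ℚ := φ (Additive.ofMul z) with hv
    by_contra hcon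
    push Not at hcon
    have hroots : ∀ n ∈ S, (P.comp (X + C (r : ℚ)) - C v).eval (n : ℚ) = 0 := by
      intro n hn
      have h1 := hS n hn
      rw [one_mul] at h1
      have h2 := hP (n + r)
      rw [h1] at h2
      simp only [eval_sub, eval_comp, eval_add, eval_X, eval_C]
      push_cast at h2
      rw [← h2, hv]
      ring
    have hzero : P.comp (X + C (r : ℚ)) - C v = 0 := by
      classical
      apply Polynomial.eq_zero_of_natDegree_lt_card_of_eval_eq_zero' _
        (S.image (fun n : ℕ => (n : ℚ)))
      · intro x hx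
        obtain ⟨n, hn, rfl⟩ := mem_image.mp hx
        exact hroots n hn
      · rw [card_image_of_injective _ Nat.cast_injective]
        refine lt_of_le_of_lt ?_ hcon
        refine (natDegree_sub_le _ _).trans (max_le ?_ (by simp))
        rw [natDegree_comp, natDegree_X_add_C, mul_one]
        exact hPd
    have hconst : ∀ x : ℚ, P.eval x = v := by
      intro x
      have h1 := congrArg (fun p : ℚ[X] => p.eval (x - r)) hzero
      simp only [eval_sub, eval_comp, eval_add, eval_X, eval_C, eval_zero] at h1
      have : x - r + r = x := by ring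
      rw [this] at h1
      linarith
    have h1 := hP 0
    have h2 := hP t
    rw [hconst] at h1 h2
    have h3 : φ (Additive.ofMul ((g 0)⁻¹ * g t)) = 0 := by
      rw [ofMul_mul, ofMul_inv, map_add, map_neg, h1, h2]
      ring
    rw [hφ] at h3
    exact one_ne_zero h3

end commutative

end Pool.Lib.PolySeq
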