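import Pool.Agent.Lib.RevMart

set_option autoImplicit false

/-!
# The remote past and pointwise convergence of multiple averages

A group `G` acts on a probability space and `𝒜 t` (`t` real) is an increasing family of σ-algebras
with `g⁻¹ 𝒜 t ⊆ 𝒜 (t + φ g)`.
-/

open MeasureTheory Filter Topology Finset
open scoped ENNReal NNReal ComplexConjugate

namespace Pool.Lib.RP

open Pool.Lib.Erg Pool.Lib.RM

variable {X : Type*} {m0 : MeasurableSpace X} {μ : Measure X} {G : Type*} [Group G] [MulAction G X]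

section basic

variable (𝒜 : ℝ → MeasurableSpace X) (φ : G → ℝ)

lemma meas_shift (hcomap : ∀ (g : G) t, (𝒜 t).comap (fun x => g • x) ≤ 𝒜 (t + φ g)) (g : G) (t s : ℝ)
    (hs : t + φ g ≤ s) (hmono : Monotone 𝒜) (F : X → ℂ) (hF : Measurable[𝒜 t] F) :
    Measurable[𝒜 s] (fun x => F (g • x)) := by
  intro u hu
  apply hmono hs
  apply hcomap g t
  exact ⟨F ⁻¹' u, hF hu, rfl⟩

lemma tail_shift (hcomap : ∀ (g : G) t, (𝒜 t).comap (fun x => g • x) ≤ 𝒜 (t + φ g)) (g : G) (s : ℝ)
    (F : X → ℂ) (hF : Measurable[⨅ t, 𝒜 t] F) :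
    Measurable[𝒜 s] (fun x => F (g • x)) := by
  intro u hu
  have h1 : MeasurableSet[𝒜 (s - φ g)] (F ⁻¹' u) := by
    have := hF hu
    rw [MeasurableSpace.measurableSet_iInf] at this
    exact this _
  have h2 := hcomap g (s - φ g)
  rw [sub_add_cancel] at h2
  exact h2 _ ⟨F ⁻¹' u, h1, rfl⟩

end basic

lemma card_pairs (C N : ℕ) [DecidableRel fun n m : ℕ => (n < C ∨ m < C ∨ (n < m + C ∧ m < n + C))] :
    (((range N ×ˢ range N).filter fun p : ℕ × ℕ =>
      (p.1 < C ∨ p.2 < C ∨ (p.1 < p.2 + C ∧ p.2 < p.1 + C))).card : ℝ) ≤ 4 * C * N := by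
  classical
  have hsub : (range N ×ˢ range N).filter (fun p : ℕ × ℕ =>
      (p.1 < C ∨ p.2 < C ∨ (p.1 < p.2 + C ∧ p.2 < p.1 + C))) ⊆
      (range C ×ˢ range N) ∪ ((range N ×ˢ range C) ∪
        ((range N ×ˢ range (2 * C)).image fun p => (p.1, p.1 + p.2 - C))) := by
    intro p hp
    rw [Finset.mem_filter, Finset.mem_product, mem_range, mem_range] at hp
    obtain ⟨⟨h1, h2⟩, h3⟩ := hp
    rw [Finset.mem_union, Finset.mem_union, Finset.mem_product, Finset.mem_product, Finset.mem_image]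
    rcases h3 with h | h | h
    · left; exact ⟨mem_range.2 h, mem_range.2 h2⟩
    · right; left; exact ⟨mem_range.2 h1, mem_range.2 h⟩
    · right; right
      refine ⟨(p.1, p.2 + C - p.1), ?_, ?_⟩
      · rw [Finset.mem_product]
        exact ⟨mem_range.2 h1, mem_range.2 (by simp only; omega)⟩
      · ext
        · rfl
        · simp only; omega
  have h1 := (Finset.card_le_card hsub).trans ((Finset.card_union_le _ _).trans
    (add_le_add le_rfl ((Finset.card_union_le _ _).trans (add_le_add le_rfl Finset.card_image_le))))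
  rw [Finset.card_product, Finset.card_product, Finset.card_product, card_range, card_range,
    card_range] at h1
  have h2 : C * N + (N * C + N * (2 * C)) = 4 * C * N := by ring
  rw [h2] at h1
  calc _ ≤ ((4 * C * N : ℕ) : ℝ) := by exact_mod_cast h1
    _ = _ := by push_cast; ring

variable [IsProbabilityMeasure μ]

/-- One step: the top slot contains a function orthogonal to the past at some level. -/
theorem step (hG : ∀ g : G, MeasurePreserving (fun x : X => g • x) μ μ)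
    (𝒜 : ℝ → MeasurableSpace X) (hmono : Monotone 𝒜) (hle : ∀ t, 𝒜 t ≤ m0)
    (φ : G → ℝ) (hinv : ∀ g, φ g⁻¹ = - φ g)
    (hcomap : ∀ (g : G) t, (𝒜 t).comap (fun x => g • x) ≤ 𝒜 (t + φ g))
    {m : ℕ} (γ : Fin m → ℕ → G) (a : Fin m) (R : Finset (Fin m)) (ha : a ∉ R)
    (hsep : ∀ i ∈ R, ∀ K : ℝ, ∃ C : ℕ, ∀ n ≥ C, φ (γ i n) + K ≤ φ (γ a n))
    (hinc : (∀ K : ℝ, ∃ C : ℕ, ∀ n ≥ C, ∀ n' ≥ n + C, φ (γ a n) + K ≤ φ (γ a n')) ∨
      (∀ K : ℝ, ∃ C : ℕ, ∀ n ≥ C, ∀ n' ≥ n + C, φ (γ a n') + K ≤ φ (γ a n)))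
    (t : ℝ) (d : X → ℂ) (D : ℝ) (hd : Measurable[𝒜 0] d) (hdD : ∀ x, ‖d x‖ ≤ D)
    (horth : ∀ W : X → ℂ, Measurable[𝒜 t] W → (∃ c, ∀ x, ‖W x‖ ≤ c) → ∫ x, d x * W x ∂μ = 0)
    (F : Fin m → X → ℂ) (hFR : ∀ i ∈ R, Measurable[𝒜 0] (F i))
    (hFT : ∀ i, i ∉ R → i ≠ a → Measurable[⨅ t, 𝒜 t] (F i)) (hFD : ∀ i x, ‖F i x‖ ≤ D) :
    ∀ᵐ x ∂μ, Tendsto (avg fun n => (∏ i ∈ univ.erase a, F i (γ i n • x)) * d (γ a n • x))
      atTop (𝓝 0) := by
  classical
  obtain ⟨x0⟩ : Nonempty X := by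
    by_contra h
    rw [not_nonempty_iff] at h
    have h1 : μ Set.univ = 1 := measure_univ
    rw [Set.univ_eq_empty_iff.2 h, measure_empty] at h1
    exact zero_ne_one h1
  have hD0 : 0 ≤ D := (norm_nonneg _).trans (hdD x0)
  set M : ℝ := D ^ (univ.erase a).card * D with hM
  have hM0 : 0 ≤ M := by positivity
  set w : ℕ → X → ℂ := fun n x => ∏ i ∈ univ.erase a, F i (γ i n • x) with hw
  set Y : ℕ → X → ℂ := fun n x => w n x * d (γ a n • x) with hY
  have hwb : ∀ n x, ‖w n x‖ ≤ D ^ (univ.erase a).card := by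
    intro n x
    rw [hw]
    simp only
    rw [norm_prod]
    calc _ ≤ ∏ _i ∈ univ.erase a, D := Finset.prod_le_prod (fun _ _ => norm_nonneg _)
          (fun i _ => hFD i _)
      _ = _ := by rw [Finset.prod_const]
  have hYb : ∀ n x, ‖Y n x‖ ≤ M := by
    intro n x
    rw [hY, hM]
    simp only
    rw [norm_mul]
    exact mul_le_mul (hwb n x) (hdD _) (norm_nonneg _) (by positivity)
  have hFm : ∀ i, i ≠ a → ∀ g : G, ∀ s, (i ∈ R → φ g ≤ s) → Measurable[𝒜 s] (fun x => F i (g • x)) := by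
    intro i hi g s hs
    by_cases hiR : i ∈ R
    · exact meas_shift 𝒜 φ hcomap g 0 s (by rw [zero_add]; exact hs hiR) hmono _ (hFR i hiR)
    · exact tail_shift 𝒜 φ hcomap g s _ (hFT i hiR hi)
  have hwm : ∀ n s, (∀ i ∈ R, φ (γ i n) ≤ s) → Measurable[𝒜 s] (w n) := by
    intro n s hs
    rw [hw]
    exact Finset.measurable_fun_prod _ fun i hi => hFm i (Finset.ne_of_mem_erase hi) _ s (hs i)
  have hYm : ∀ n s, (∀ i ∈ R, φ (γ i n) ≤ s) → φ (γ a n) ≤ s → Measurable[𝒜 s] (Y n) := by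
    intro n s hs hs'
    exact Measurable.mul (hwm n s hs)
      (meas_shift 𝒜 φ hcomap _ 0 s (by rw [zero_add]; exact hs') hmono _ hd)
  have hYm0 : ∀ n, Measurable[m0] (Y n) := by
    intro n
    obtain ⟨s, hs⟩ : ∃ s : ℝ, (∀ i ∈ R, φ (γ i n) ≤ s) ∧ φ (γ a n) ≤ s := by
      refine ⟨∑ i, |φ (γ i n)|, fun i _ => ?_, ?_⟩
      · exact (le_abs_self _).trans (Finset.single_le_sum (f := fun i => |φ (γ i n)|)
          (fun i _ => abs_nonneg _) (Finset.mem_univ i))
      · exact (le_abs_self _).trans (Finset.single_le_sum (f := fun i => |φ (γ i n)|)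
          (fun i _ => abs_nonneg _) (Finset.mem_univ a))
    intro u hu
    exact hle s _ (hYm n s hs.1 hs.2 hu)
  -- orthogonality when `p` is the top time
  have htop : ∀ p q : ℕ, (∀ i ∈ R, φ (γ i p) + -t ≤ φ (γ a p)) → (∀ i ∈ R, φ (γ i q) + -t ≤ φ (γ a p)) →
      φ (γ a q) + -t ≤ φ (γ a p) → ∫ x, Y p x * conj (Y q x) ∂μ = 0 := by
    intro p q h1 h2 h3
    set W : X → ℂ := fun x => w p x * conj (Y q x) with hW
    have hWm : Measurable[𝒜 (φ (γ a p) + t)] W := by
      apply Measurable.mul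
      · exact hwm p _ fun i hi => by have := h1 i hi; linarith
      · exact Complex.continuous_conj.measurable.comp
          (hYm q _ (fun i hi => by have := h2 i hi; linarith) (by linarith))
    have hWb : ∀ x, ‖W x‖ ≤ D ^ (univ.erase a).card * M := by
      intro x
      rw [hW]
      simp only
      rw [norm_mul, RCLike.norm_conj]
      exact mul_le_mul (hwb p x) (hYb q x) (norm_nonneg _) (by positivity)
    have hWg : Measurable[𝒜 t] (fun x => W ((γ a p)⁻¹ • x)) :=
      meas_shift 𝒜 φ hcomap _ _ t (by rw [hinv]; linarith) hmono _ hWm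
    have h4 := horth (fun x => W ((γ a p)⁻¹ • x)) hWg ⟨_, fun x => hWb _⟩
    have h5 : ∫ x, Y p x * conj (Y q x) ∂μ =
        ∫ x, (fun y => d y * W ((γ a p)⁻¹ • y)) (γ a p • x) ∂μ := by
      apply integral_congr_ae
      apply Eventually.of_forall
      intro x
      simp only [hY, hW, inv_smul_smul]
      ring
    rw [h5]
    have hmp := hG (γ a p)
    have hdm0 : Measurable[m0] d := fun u hu => hle 0 _ (hd hu)
    have hWm0 : Measurable[m0] (fun x => W ((γ a p)⁻¹ • x)) := fun u hu => hle t _ (hWg hu)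
    have h6 := integral_map (μ := μ) hmp.measurable.aemeasurable
      (f := fun y => d y * W ((γ a p)⁻¹ • y)) (hdm0.mul hWm0).aestronglyMeasurable
    rw [hmp.map_eq] at h6
    rw [← h6]
    exact h4
  -- the threshold
  obtain ⟨C0, hC0⟩ : ∃ C : ℕ, ∀ i ∈ R, ∀ n ≥ C, φ (γ i n) + |t| ≤ φ (γ a n) := by
    have : ∀ i : Fin m, ∃ C : ℕ, i ∈ R → ∀ n ≥ C, φ (γ i n) + |t| ≤ φ (γ a n) := by
      intro i
      by_cases hi : i ∈ R
      · obtain ⟨C, hC⟩ := hsep i hi |t|
        exact ⟨C, fun _ => hC⟩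
      · exact ⟨0, fun h => absurd h hi⟩
    choose C hC using this
    refine ⟨∑ i, C i, fun i hi n hn => hC i hi n (le_trans ?_ hn)⟩
    exact Finset.single_le_sum (f := C) (fun _ _ => Nat.zero_le _) (Finset.mem_univ i)
  have hab : -t ≤ |t| := neg_le_abs t
  have hab0 : 0 ≤ |t| := abs_nonneg t
  -- from an ordering of times to orthogonality
  have hord : ∀ C : ℕ, C0 ≤ C → ∀ p q : ℕ, C ≤ p → C ≤ q → φ (γ a q) + |t| ≤ φ (γ a p) →
      ∫ x, Y p x * conj (Y q x) ∂μ = 0 := by
    intro C hC p q hp hq h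
    apply htop p q
    · intro i hi
      have := hC0 i hi p (hC.trans hp)
      linarith
    · intro i hi
      have := hC0 i hi q (hC.trans hq)
      linarith
    · linarith
  have hsymm : ∀ p q : ℕ, ∫ x, Y p x * conj (Y q x) ∂μ = 0 → ∫ x, Y q x * conj (Y p x) ∂μ = 0 := by
    intro p q h
    have h1 : ∀ x, Y q x * conj (Y p x) = conj (Y p x * conj (Y q x)) := by
      intro x
      rw [map_mul (starRingEnd ℂ) (Y p x) (conj (Y q x)), Complex.conj_conj, mul_comm]
    simp_rw [h1]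
    rw [integral_conj, h, map_zero]
  obtain ⟨C, hCC, hC⟩ : ∃ C : ℕ, C0 ≤ C ∧ ∀ p q : ℕ, C ≤ p → C ≤ q → (p + C ≤ q ∨ q + C ≤ p) →
      ∫ x, Y p x * conj (Y q x) ∂μ = 0 := by
    rcases hinc with h | h
    · obtain ⟨C1, hC1⟩ := h |t|
      refine ⟨max C0 C1, le_max_left _ _, fun p q hp hq hpq => ?_⟩
      have hp1 : C1 ≤ p := (le_max_right _ _).trans hp
      have hq1 : C1 ≤ q := (le_max_right _ _).trans hq
      rcases hpq with h1 | h1
      · apply hsymm
        exact hord (max C0 C1) (le_max_left _ _) q p hq hp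
          (hC1 p hp1 q (by have := le_max_right C0 C1; omega))
      · exact hord (max C0 C1) (le_max_left _ _) p q hp hq
          (hC1 q hq1 p (by have := le_max_right C0 C1; omega))
    · obtain ⟨C1, hC1⟩ := h |t|
      refine ⟨max C0 C1, le_max_left _ _, fun p q hp hq hpq => ?_⟩
      have hp1 : C1 ≤ p := (le_max_right _ _).trans hp
      have hq1 : C1 ≤ q := (le_max_right _ _).trans hq
      rcases hpq with h1 | h1
      · exact hord (max C0 C1) (le_max_left _ _) p q hp hq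
          (hC1 p hp1 q (by have := le_max_right C0 C1; omega))
      · apply hsymm
        exact hord (max C0 C1) (le_max_left _ _) q p hq hp
          (hC1 q hq1 p (by have := le_max_right C0 C1; omega))
  apply avg_zero_of_L2 Y M (fun n => (hYm0 n).aestronglyMeasurable)
    (Eventually.of_forall fun x n => hYb n x) (M ^ 2 * (4 * C))
  intro N
  have := int_sq_le_pairs (μ := μ) Y M (fun n => (hYm0 n).aestronglyMeasurable)
    (fun n => Eventually.of_forall fun x => hYb n x)
    (fun n m => (n < C ∨ m < C ∨ (n < m + C ∧ m < n + C)))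
    (by
      intro n m hnm
      push Not at hnm
      obtain ⟨h1, h2, h3⟩ := hnm
      apply hC n m h1 h2
      by_cases h4 : n < m + C
      · exact Or.inl (h3 h4)
      · exact Or.inr (not_lt.1 h4)) N (4 * C * N) (card_pairs C N)
  calc _ ≤ _ := this
    _ = _ := by ring

/-- the remainder property -/
def Small (μ : Measure X) (τ : ℕ → X → X) (r : ℝ → X → ℂ) : Prop :=
  ∀ ε : ℝ, 0 < ε → ∃ t : ℝ, ∃ E : Set X, μ E ≤ ENNReal.ofReal ε ∧
    ∀ᵐ x ∂μ, x ∉ E → ∀ᶠ N : ℕ in atTop, (N : ℝ)⁻¹ * ∑ n ∈ range N, ‖r t (τ n x)‖ ≤ ε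

/-- Replacing the function in the top slot by its conditional expectation on the remote past. -/
theorem replace_one (hG : ∀ g : G, MeasurePreserving (fun x : X => g • x) μ μ)
    (𝒜 : ℝ → MeasurableSpace X) (hmono : Monotone 𝒜) (hle : ∀ t, 𝒜 t ≤ m0)
    (φ : G → ℝ) (hinv : ∀ g, φ g⁻¹ = - φ g)
    (hcomap : ∀ (g : G) t, (𝒜 t).comap (fun x => g • x) ≤ 𝒜 (t + φ g))
    {m : ℕ} (γ : Fin m → ℕ → G) (a : Fin m) (R : Finset (Fin m)) (ha : a ∉ R)
    (hsep : ∀ i ∈ R, ∀ K : ℝ, ∃ C : ℕ, ∀ n ≥ C, φ (γ i n) + K ≤ φ (γ a n))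
    (hinc : (∀ K : ℝ, ∃ C : ℕ, ∀ n ≥ C, ∀ n' ≥ n + C, φ (γ a n) + K ≤ φ (γ a n')) ∨
      (∀ K : ℝ, ∃ C : ℕ, ∀ n ≥ C, ∀ n' ≥ n + C, φ (γ a n') + K ≤ φ (γ a n)))
    (f e : X → ℂ) (D : ℝ) (hf : Measurable[𝒜 0] f) (hfD : ∀ x, ‖f x‖ ≤ D)
    (hee : e =ᵐ[μ] μ[f|⨅ t, 𝒜 t])
    (hsmall : Small μ (fun n x => γ a n • x) (fun t x => μ[f|𝒜 t] x - μ[f|⨅ t, 𝒜 t] x))
    (F : Fin m → X → ℂ) (hFR : ∀ i ∈ R, Measurable[𝒜 0] (F i))
    (hFT : ∀ i, i ∉ R → i ≠ a → Measurable[⨅ t, 𝒜 t] (F i)) (hFD : ∀ i x, ‖F i x‖ ≤ D) :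
    ∀ᵐ x ∂μ, Tendsto (avg fun n => (∏ i ∈ univ.erase a, F i (γ i n • x)) *
      (f (γ a n • x) - e (γ a n • x))) atTop (𝓝 0) := by
  classical
  obtain ⟨x0⟩ : Nonempty X := by
    by_contra h
    rw [not_nonempty_iff] at h
    have h1 : μ Set.univ = 1 := measure_univ
    rw [Set.univ_eq_empty_iff.2 h, measure_empty] at h1
    exact zero_ne_one h1
  have hD0 : 0 ≤ D := (norm_nonneg _).trans (hfD x0)
  have hfm0 : Measurable[m0] f := fun u hu => hle 0 _ (hf hu)
  set W : ℝ := D ^ (univ.erase a).card with hW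
  have hW0 : 0 ≤ W := by positivity
  set w : ℕ → X → ℂ := fun n x => ∏ i ∈ univ.erase a, F i (γ i n • x) with hw
  have hwb : ∀ n x, ‖w n x‖ ≤ W := by
    intro n x
    rw [hw]
    simp only
    rw [norm_prod]
    calc _ ≤ ∏ _i ∈ univ.erase a, D := Finset.prod_le_prod (fun _ _ => norm_nonneg _)
          (fun i _ => hFD i _)
      _ = _ := by rw [Finset.prod_const]
  have key : ∀ r : ℝ, 0 < r → ∀ᵐ x ∂μ, ∀ᶠ N : ℕ in atTop,
      ‖avg (fun n => w n x * (f (γ a n • x) - e (γ a n • x))) N‖ ≤ r := by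
    intro r hr
    rw [ae_iff]
    have hle' : ∀ ε : ℝ, 0 < ε → μ {x | ¬ ∀ᶠ N : ℕ in atTop,
        ‖avg (fun n => w n x * (f (γ a n • x) - e (γ a n • x))) N‖ ≤ r} ≤ ENNReal.ofReal ε := by
      intro ε hε
      set ε' : ℝ := min ε (r / (2 * (W + 1))) with hε'
      have hε'0 : 0 < ε' := lt_min hε (by positivity)
      obtain ⟨t, E, hE, hEx⟩ := hsmall ε' hε'0
      -- work at a level below zero
      obtain ⟨c, hcm, hcD, hce⟩ := exists_version (μ := μ) (𝒜 t) (hle t) f hfm0 D hfD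
      obtain ⟨c0, hc0m, hc0D, hc0e⟩ := exists_version (μ := μ) (𝒜 (min t 0)) (hle _) f hfm0 D hfD
      have hst : ∀ᵐ x ∂μ, Tendsto (avg fun n => w n x * (f (γ a n • x) - c (γ a n • x)))
          atTop (𝓝 0) := by
        by_cases ht : t ≤ 0
        · have := step hG 𝒜 hmono hle φ hinv hcomap γ a R ha hsep hinc t (fun x => f x - c x)
            (D + D) (hf.sub (fun u hu => hmono ht _ (hcm hu)))
            (fun x => (norm_sub_le _ _).trans (add_le_add (hfD x) (hcD x)))
            (by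
              rintro V hV ⟨v, hv⟩
              exact orth (𝒜 t) (hle t) f c V hfm0 D hfD hce hV v hv)
            F hFR hFT (fun i x => (hFD i x).trans (by linarith))
          exact this
        · -- here `f` is itself measurable at level `t`
          push Not at ht
          have hfc : f =ᵐ[μ] c := by
            have h1 : μ[f|𝒜 t] = f := condExp_of_stronglyMeasurable (hle t)
              (Measurable.stronglyMeasurable (fun u hu => hmono ht.le _ (hf hu)))
              (Integrable.of_bound hfm0.aestronglyMeasurable D (Eventually.of_forall hfD))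
            rw [h1] at hce
            exact hce.symm
          have h2 : ∀ᵐ x ∂μ, ∀ n, f (γ a n • x) = c (γ a n • x) := by
            rw [ae_all_iff]
            intro n
            exact (hG (γ a n)).quasiMeasurePreserving.ae hfc
          filter_upwards [h2] with x hx
          have : (fun n => w n x * (f (γ a n • x) - c (γ a n • x))) = fun _ => 0 := by
            funext n
            rw [hx n, sub_self, mul_zero]
          rw [this]
          exact avg_const 0
      have hcx : ∀ᵐ x ∂μ, ∀ n, c (γ a n • x) - e (γ a n • x) =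
          μ[f|𝒜 t] (γ a n • x) - μ[f|⨅ t, 𝒜 t] (γ a n • x) := by
        rw [ae_all_iff]
        intro n
        have : ∀ᵐ y ∂μ, c y - e y = μ[f|𝒜 t] y - μ[f|⨅ t, 𝒜 t] y := by
          filter_upwards [hce, hee] with y h1 h2
          rw [h1, h2]
        exact (hG (γ a n)).quasiMeasurePreserving.ae this
      set Z : Set X := {x | ¬ (Tendsto (avg fun n => w n x * (f (γ a n • x) - c (γ a n • x)))
          atTop (𝓝 0) ∧ (∀ n, c (γ a n • x) - e (γ a n • x) =
          μ[f|𝒜 t] (γ a n • x) - μ[f|⨅ t, 𝒜 t] (γ a n • x)) ∧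
          (x ∉ E → ∀ᶠ N : ℕ in atTop, (N : ℝ)⁻¹ * ∑ n ∈ range N,
            ‖μ[f|𝒜 t] (γ a n • x) - μ[f|⨅ t, 𝒜 t] (γ a n • x)‖ ≤ ε'))} with hZ
      have hZ0 : μ Z = 0 := by
        rw [hZ, ← ae_iff]
        filter_upwards [hst, hcx, hEx] with x h1 h2 h3 using ⟨h1, h2, h3⟩
      have hsub : {x | ¬ ∀ᶠ N : ℕ in atTop,
        ‖avg (fun n => w n x * (f (γ a n • x) - e (γ a n • x))) N‖ ≤ r} ⊆ Z ∪ E := by
        intro x hx
        by_contra hcon
        rw [Set.mem_union, not_or] at hcon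
        obtain ⟨hxZ, hxE⟩ := hcon
        rw [hZ, Set.mem_setOf_eq, not_not] at hxZ
        obtain ⟨h1, h2, h3⟩ := hxZ
        apply hx
        have h4 : ∀ᶠ N : ℕ in atTop,
            ‖avg (fun n => w n x * (f (γ a n • x) - c (γ a n • x))) N‖ < r / 2 := by
          have := (tendsto_zero_iff_norm_tendsto_zero.1 h1).eventually
            (gt_mem_nhds (show (0 : ℝ) < r / 2 by positivity))
          exact this
        filter_upwards [h4, h3 hxE] with N h5 h6
        have h7 : avg (fun n => w n x * (f (γ a n • x) - e (γ a n • x))) N =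
            avg (fun n => w n x * (f (γ a n • x) - c (γ a n • x))) N +
            avg (fun n => w n x * (c (γ a n • x) - e (γ a n • x))) N := by
          rw [← avg_add]
          congr 1
          funext n
          ring
        rw [h7]
        have h8 : ‖avg (fun n => w n x * (c (γ a n • x) - e (γ a n • x))) N‖ ≤ W * ε' := by
          refine (avg_norm_le _ _).trans ?_
          calc _ ≤ (N : ℝ)⁻¹ * ∑ n ∈ range N, W * ‖μ[f|𝒜 t] (γ a n • x) - μ[f|⨅ t, 𝒜 t] (γ a n • x)‖ := by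
                apply mul_le_mul_of_nonneg_left _ (by positivity)
                apply Finset.sum_le_sum
                intro n _
                rw [norm_mul, h2 n]
                exact mul_le_mul_of_nonneg_right (hwb n x) (norm_nonneg _)
            _ = W * ((N : ℝ)⁻¹ * ∑ n ∈ range N, ‖μ[f|𝒜 t] (γ a n • x) - μ[f|⨅ t, 𝒜 t] (γ a n • x)‖) := by
                rw [← Finset.mul_sum]; ring
            _ ≤ W * ε' := mul_le_mul_of_nonneg_left h6 hW0
        have h9 : W * ε' ≤ r / 2 := by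
          calc W * ε' ≤ W * (r / (2 * (W + 1))) :=
                mul_le_mul_of_nonneg_left (min_le_right _ _) hW0
            _ = (r / 2) * (W / (W + 1)) := by field_simp
            _ ≤ (r / 2) * 1 := by
                apply mul_le_mul_of_nonneg_left _ (by positivity)
                rw [div_le_one (by positivity)]
                linarith
            _ = r / 2 := mul_one _
        calc _ ≤ _ := norm_add_le _ _
          _ ≤ r / 2 + r / 2 := add_le_add h5.le (h8.trans h9)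
          _ = r := by ring
      calc _ ≤ μ (Z ∪ E) := measure_mono hsub
        _ ≤ μ Z + μ E := measure_union_le _ _
        _ ≤ 0 + ENNReal.ofReal ε' := by rw [hZ0]; exact add_le_add le_rfl hE
        _ ≤ ENNReal.ofReal ε := by
            rw [zero_add]
            exact ENNReal.ofReal_le_ofReal (min_le_left _ _)
    refine le_antisymm ?_ bot_le
    apply le_of_forall_pos_le_add
    intro ε hε
    rw [zero_add]
    by_cases htop : ε = ⊤
    · rw [htop]; exact le_top
    · have := hle' ε.toReal (ENNReal.toReal_pos hε.ne' htop)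
      rwa [ENNReal.ofReal_toReal htop] at this
  have hall : ∀ᵐ x ∂μ, ∀ j : ℕ, ∀ᶠ N : ℕ in atTop,
      ‖avg (fun n => w n x * (f (γ a n • x) - e (γ a n • x))) N‖ ≤ 1 / ((j : ℝ) + 1) := by
    rw [ae_all_iff]
    intro j
    exact key _ (by positivity)
  filter_upwards [hall] with x hx
  rw [tendsto_zero_iff_norm_tendsto_zero, Metric.tendsto_atTop]
  intro ε hε
  obtain ⟨j, hj⟩ := exists_nat_one_div_lt hε
  obtain ⟨N0, hN0⟩ := eventually_atTop.1 (hx j)
  refine ⟨N0, fun n hn => ?_⟩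
  rw [Real.dist_eq, sub_zero, abs_norm]
  exact lt_of_le_of_lt (hN0 n hn) hj

end Pool.Lib.RP
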