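import Pool.Agent.Lib.RemotePast

set_option autoImplicit false

/-!
# The remote past and pointwise convergence of multiple averages, part 2

All slots are replaced, starting with the top one.
-/

open MeasureTheory Filter Topology Finset
open scoped ENNReal NNReal ComplexConjugate

namespace Pool.Lib.RP

open Pool.Lib.Erg Pool.Lib.RM

variable {X : Type*} {m0 : MeasurableSpace X} {μ : Measure X} {G : Type*} [Group G] [MulAction G X]

/-- `u` is eventually below `v` by any prescribed amount -/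
def Below (u v : ℕ → ℝ) : Prop := ∀ K : ℝ, ∃ C : ℕ, ∀ n ≥ C, u n + K ≤ v n

lemma Below.trans {u v w : ℕ → ℝ} (h1 : Below u v) (h2 : Below v w) : Below u w := by
  intro K
  obtain ⟨C1, hC1⟩ := h1 K
  obtain ⟨C2, hC2⟩ := h2 0
  refine ⟨max C1 C2, fun n hn => ?_⟩
  have e1 := hC1 n ((le_max_left _ _).trans hn)
  have e2 := hC2 n ((le_max_right _ _).trans hn)
  linarith

lemma exists_top {ι : Type*} [DecidableEq ι] (h : ι → ℕ → ℝ) (R : Finset ι)
    (hR : R.Nonempty) : (∀ i ∈ R, ∀ j ∈ R, i ≠ j → Below (h i) (h j) ∨ Below (h j) (h i)) →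
    ∃ a ∈ R, ∀ i ∈ R, i ≠ a → Below (h i) (h a) := by
  induction hR using Finset.Nonempty.cons_induction with
  | singleton a =>
    intro hsep
    refine ⟨a, Finset.mem_singleton_self a, fun i hi hia => ?_⟩
    exact absurd (Finset.mem_singleton.1 hi) hia
  | cons b s hb hs ih =>
    intro hsep
    obtain ⟨a, ha, hmax⟩ := ih fun i hi j hj hij =>
      hsep i (Finset.mem_cons_of_mem hi) j (Finset.mem_cons_of_mem hj) hij
    have hab : b ≠ a := by
      rintro rfl
      exact hb ha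
    rcases hsep b (Finset.mem_cons_self b s) a (Finset.mem_cons_of_mem ha) hab with h1 | h1
    · refine ⟨a, Finset.mem_cons_of_mem ha, fun i hi hia => ?_⟩
      rcases Finset.mem_cons.1 hi with rfl | hi
      · exact h1
      · exact hmax i hi hia
    · refine ⟨b, Finset.mem_cons_self b s, fun i hi hib => ?_⟩
      rcases Finset.mem_cons.1 hi with rfl | hi
      · exact absurd rfl hib
      · by_cases hia : i = a
        · subst hia; exact h1
        · exact (hmax i hi hia).trans h1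

/-- Replacing the functions in all slots. -/
theorem replace_all [IsProbabilityMeasure μ]
    (hG : ∀ g : G, MeasurePreserving (fun x : X => g • x) μ μ)
    (𝒜 : ℝ → MeasurableSpace X) (hmono : Monotone 𝒜) (hle : ∀ t, 𝒜 t ≤ m0)
    (φ : G → ℝ) (hinv : ∀ g, φ g⁻¹ = - φ g)
    (hcomap : ∀ (g : G) t, (𝒜 t).comap (fun x => g • x) ≤ 𝒜 (t + φ g))
    {m : ℕ} (γ : Fin m → ℕ → G) (R0 : Finset (Fin m))
    (hsep : ∀ i ∈ R0, ∀ j ∈ R0, i ≠ j → Below (fun n => φ (γ i n)) (fun n => φ (γ j n)) ∨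
      Below (fun n => φ (γ j n)) (fun n => φ (γ i n)))
    (hinc : ∀ a ∈ R0, (∀ K : ℝ, ∃ C : ℕ, ∀ n ≥ C, ∀ n' ≥ n + C, φ (γ a n) + K ≤ φ (γ a n')) ∨
      (∀ K : ℝ, ∃ C : ℕ, ∀ n ≥ C, ∀ n' ≥ n + C, φ (γ a n') + K ≤ φ (γ a n)))
    (f e : Fin m → X → ℂ) (D : ℝ) (hf : ∀ j, Measurable[𝒜 0] (f j)) (hfD : ∀ j x, ‖f j x‖ ≤ D)
    (he : ∀ j, Measurable[⨅ t, 𝒜 t] (e j)) (heD : ∀ j x, ‖e j x‖ ≤ D)
    (hee : ∀ j, e j =ᵐ[μ] μ[f j|⨅ t, 𝒜 t]) (hout : ∀ j, j ∉ R0 → f j =ᵐ[μ] e j)
    (hsmall : ∀ j ∈ R0, Small μ (fun n x => γ j n • x)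
      (fun t x => μ[f j|𝒜 t] x - μ[f j|⨅ t, 𝒜 t] x)) :
    ∀ᵐ x ∂μ, Tendsto (avg fun n => ∏ j, f j (γ j n • x) - ∏ j, e j (γ j n • x)) atTop (𝓝 0) := by
  classical
  have key : ∀ k : ℕ, ∀ R : Finset (Fin m), R ⊆ R0 → R.card = k →
      ∀ᵐ x ∂μ, Tendsto (avg fun n => ∏ j, (if j ∈ R then f j else e j) (γ j n • x) -
        ∏ j, e j (γ j n • x)) atTop (𝓝 0) := by
    intro k
    induction k with
    | zero =>
      intro R _ hR
      rw [Finset.card_eq_zero] at hR
      subst hR
      refine Eventually.of_forall fun x => ?_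
      have : (fun n => ∏ j, (if j ∈ (∅ : Finset (Fin m)) then f j else e j) (γ j n • x) -
        ∏ j, e j (γ j n • x)) = fun _ => 0 := by
        funext n
        simp
      rw [this]
      exact avg_const 0
    | succ k ih =>
      intro R hRs hR
      have hne : R.Nonempty := by
        rw [← Finset.card_pos, hR]; exact Nat.succ_pos k
      obtain ⟨a, haR, hmax⟩ := exists_top (fun i n => φ (γ i n)) R hne
        fun i hi j hj hij => hsep i (hRs hi) j (hRs hj) hij
      have h1 := ih (R.erase a) ((Finset.erase_subset _ _).trans hRs) (by rw [Finset.card_erase_of_mem haR, hR]; rfl)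
      set F : Fin m → X → ℂ := fun j => if j ∈ R.erase a then f j else e j with hF
      have h2 := replace_one hG 𝒜 hmono hle φ hinv hcomap γ a (R.erase a)
        (Finset.notMem_erase a R)
        (fun i hi => hmax i (Finset.mem_of_mem_erase hi) (Finset.ne_of_mem_erase hi))
        (hinc a (hRs haR)) (f a) (e a) D (hf a) (hfD a) (hee a) (hsmall a (hRs haR)) F
        (by
          intro i hi
          simp only [hF, hi, if_true]
          exact hf i)
        (by
          intro i hi _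
          simp only [hF, hi, if_false]
          exact he i)
        (by
          intro i x
          by_cases hi : i ∈ R.erase a
          · simp only [hF, hi, if_true]; exact hfD i x
          · simp only [hF, hi, if_false]; exact heD i x)
      filter_upwards [h1, h2] with x hx1 hx2
      have h3 := hx1.add hx2
      rw [add_zero] at h3
      refine h3.congr fun N => ?_
      rw [← avg_add]
      congr 1
      funext n
      have e1 : ∏ j, (if j ∈ R then f j else e j) (γ j n • x) =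
          (∏ i ∈ univ.erase a, F i (γ i n • x)) * f a (γ a n • x) := by
        rw [← Finset.mul_prod_erase univ _ (Finset.mem_univ a), mul_comm]
        congr 1
        · apply Finset.prod_congr rfl
          intro i hi
          have hia : i ≠ a := Finset.ne_of_mem_erase hi
          by_cases hiR : i ∈ R
          · have : i ∈ R.erase a := Finset.mem_erase.2 ⟨hia, hiR⟩
            simp only [hF, this, hiR, if_true]
          · have : i ∉ R.erase a := fun h => hiR (Finset.mem_of_mem_erase h)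
            simp only [hF, this, hiR, if_false]
        · simp only [haR, if_true]
      have e2 : ∏ j, (if j ∈ R.erase a then f j else e j) (γ j n • x) =
          (∏ i ∈ univ.erase a, F i (γ i n • x)) * e a (γ a n • x) := by
        rw [← Finset.mul_prod_erase univ _ (Finset.mem_univ a), mul_comm]
        congr 1
        have : a ∉ R.erase a := Finset.notMem_erase a R
        simp only [this, if_false]
      rw [e1, e2]
      ring
  have hlast := key _ R0 (Finset.Subset.refl _) rfl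
  have hall : ∀ᵐ x ∂μ, ∀ j, j ∉ R0 → ∀ n, f j (γ j n • x) = e j (γ j n • x) := by
    rw [ae_all_iff]
    intro j
    by_cases hj : j ∈ R0
    · exact Eventually.of_forall fun x h => absurd hj h
    · have : ∀ᵐ x ∂μ, ∀ n, f j (γ j n • x) = e j (γ j n • x) := by
        rw [ae_all_iff]
        intro n
        exact (hG (γ j n)).quasiMeasurePreserving.ae (hout j hj)
      filter_upwards [this] with x hx _
      exact hx
  filter_upwards [hlast, hall] with x hx1 hx2
  refine hx1.congr fun N => ?_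
  congr 1
  funext n
  congr 1
  apply Finset.prod_congr rfl
  intro j _
  by_cases hj : j ∈ R0
  · simp only [hj, if_true]
  · simp only [hj, if_false]
    exact (hx2 j hj n).symm

/-! ### The remainder is small -/

lemma iInf_nat (𝒜 : ℝ → MeasurableSpace X) (hmono : Monotone 𝒜) :
    (⨅ k : ℕ, 𝒜 (-(k : ℝ))) = ⨅ t, 𝒜 t := by
  apply le_antisymm
  · apply le_iInf
    intro t
    obtain ⟨k, hk⟩ := exists_nat_ge (-t)
    exact (iInf_le _ k).trans (hmono (by linarith))
  · exact le_iInf fun k => iInf_le _ _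

lemma exists_level [IsProbabilityMeasure μ]
    (𝒜 : ℝ → MeasurableSpace X) (hmono : Monotone 𝒜) (hle : ∀ t, 𝒜 t ≤ m0)
    (f : X → ℂ) (hf : Measurable[m0] f) (D : ℝ) (hfD : ∀ x, ‖f x‖ ≤ D) (ε : ℝ) (hε : 0 < ε) :
    ∃ t : ℝ, ∫ x, ‖μ[f|𝒜 t] x - μ[f|⨅ t, 𝒜 t] x‖ ∂μ ≤ ε := by
  choose e he heC hee using fun k : ℕ =>
    exists_version (μ := μ) (𝒜 (-(k : ℝ))) (hle _) f hf D hfD
  obtain ⟨k, hk⟩ := rev_mart (μ := μ) (fun k : ℕ => 𝒜 (-(k : ℝ)))
    (fun a b hab => hmono (by
      have : (a : ℝ) ≤ b := by exact_mod_cast hab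
      linarith)) (fun k => hle _) f hf D hfD e he heC hee ε hε
  refine ⟨-(k : ℝ), ?_⟩
  rw [iInf_nat 𝒜 hmono] at hk
  refine le_of_eq_of_le ?_ hk
  apply integral_congr_ae
  filter_upwards [hee k] with x hx
  rw [hx]

/-- linear slots -/
lemma small_linear [IsProbabilityMeasure μ]
    (hG : ∀ g : G, MeasurePreserving (fun x : X => g • x) μ μ)
    (𝒜 : ℝ → MeasurableSpace X) (hmono : Monotone 𝒜) (hle : ∀ t, 𝒜 t ≤ m0)
    (f : X → ℂ) (hf : Measurable[m0] f) (D : ℝ) (hfD : ∀ x, ‖f x‖ ≤ D)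
    (γ : ℕ → G) (S : G) (hS : ∀ n, γ n = S ^ n) :
    Small μ (fun n x => γ n • x) (fun t x => μ[f|𝒜 t] x - μ[f|⨅ t, 𝒜 t] x) := by
  intro ε hε
  obtain ⟨t, ht⟩ := exists_level (μ := μ) 𝒜 hmono hle f hf D hfD (ε ^ 2) (by positivity)
  have hi : Integrable (fun x => ‖μ[f|𝒜 t] x - μ[f|⨅ t, 𝒜 t] x‖) μ :=
    (integrable_condExp.sub integrable_condExp).norm
  have hw := weak_type (fun x : X => S • x) (hG S) _ hi (fun x => norm_nonneg _) ε hε
  refine ⟨t, {x | ∃ n : ℕ, ε * n < ∑ i ∈ range n, ‖μ[f|𝒜 t] ((fun x : X => S • x)^[i] x) -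
      μ[f|⨅ t, 𝒜 t] ((fun x : X => S • x)^[i] x)‖}, ?_, ?_⟩
  · refine hw.trans (ENNReal.ofReal_le_ofReal ?_)
    rw [div_le_iff₀ hε]
    calc _ ≤ ε ^ 2 := ht
      _ = ε * ε := sq ε
  · refine Eventually.of_forall fun x hx => Eventually.of_forall fun N => ?_
    rw [Set.mem_setOf_eq] at hx
    push Not at hx
    have h1 := hx N
    have h2 : ∀ i, (fun x : X => S • x)^[i] x = γ i • x := by
      intro i
      rw [smul_iterate, hS]
    simp_rw [h2] at h1
    rcases Nat.eq_zero_or_pos N with h0 | h0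
    · subst h0; simpa using hε.le
    · have hN : (0 : ℝ) < N := by exact_mod_cast h0
      rw [inv_mul_le_iff₀ hN, mul_comm]
      exact h1

/-- slots with uniform convergence -/
lemma small_uniform (hG : ∀ g : G, MeasurePreserving (fun x : X => g • x) μ μ)
    (𝒜 : ℝ → MeasurableSpace X) (f : X → ℂ) (γ : ℕ → G)
    (h : ∀ ε : ℝ, 0 < ε → ∃ t, ∀ᵐ x ∂μ, ‖μ[f|𝒜 t] x - μ[f|⨅ t, 𝒜 t] x‖ ≤ ε) :
    Small μ (fun n x => γ n • x) (fun t x => μ[f|𝒜 t] x - μ[f|⨅ t, 𝒜 t] x) := by
  intro ε hε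
  obtain ⟨t, ht⟩ := h ε hε
  refine ⟨t, ∅, by simp, ?_⟩
  have h1 : ∀ᵐ x ∂μ, ∀ n, ‖μ[f|𝒜 t] (γ n • x) - μ[f|⨅ t, 𝒜 t] (γ n • x)‖ ≤ ε := by
    rw [ae_all_iff]
    intro n
    exact (hG (γ n)).quasiMeasurePreserving.ae ht
  filter_upwards [h1] with x hx _
  refine Eventually.of_forall fun N => ?_
  rcases Nat.eq_zero_or_pos N with h0 | h0
  · subst h0; simpa using hε.le
  · have hN : (0 : ℝ) < N := by exact_mod_cast h0
    rw [inv_mul_le_iff₀ hN]
    calc _ ≤ ∑ _n ∈ range N, ε := Finset.sum_le_sum fun n _ => hx n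
      _ = N * ε := by simp

/-- the set where two sided averages are eventually large is small -/
lemma avg_large_two [IsProbabilityMeasure μ] (τ : ℤ → X → X)
    (hτ : ∀ n, MeasurePreserving (τ n) μ μ)
    (v : X → ℝ) (hv0 : ∀ x, 0 ≤ v x) (hvi : Integrable v μ)
    (hvc : ∀ᵐ x ∂μ, ∃ L : ℝ, Tendsto (fun N : ℕ => (2 * (N : ℝ) + 1)⁻¹ *
      ∑ n ∈ Finset.Icc (-(N : ℤ)) N, v (τ n x)) atTop (𝓝 L)) (l : ℝ)
    (hl : 0 < l) : ∃ E : Set X, μ E ≤ ENNReal.ofReal ((∫ x, v x ∂μ) / l) ∧
      ∀ᵐ x ∂μ, x ∉ E → ∀ᶠ N : ℕ in atTop, (2 * (N : ℝ) + 1)⁻¹ *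
      ∑ n ∈ Finset.Icc (-(N : ℤ)) N, v (τ n x) ≤ l := by
  set a : ℕ → X → ℝ≥0∞ := fun N x => ENNReal.ofReal ((2 * (N : ℝ) + 1)⁻¹ *
      ∑ n ∈ Finset.Icc (-(N : ℤ)) N, v (τ n x)) with ha
  have ham : ∀ N, AEMeasurable (a N) μ := by
    intro N
    apply AEMeasurable.ennreal_ofReal
    apply AEMeasurable.const_mul
    apply Finset.aemeasurable_fun_sum
    intro n _
    exact hvi.aemeasurable.comp_quasiMeasurePreserving (hτ n).quasiMeasurePreserving
  have hbound : ∀ N, ∫⁻ x, a N x ∂μ ≤ ENNReal.ofReal (∫ x, v x ∂μ) := by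
    intro N
    have hint : Integrable (fun x => (2 * (N : ℝ) + 1)⁻¹ *
      ∑ n ∈ Finset.Icc (-(N : ℤ)) N, v (τ n x)) μ := by
      apply Integrable.const_mul
      apply integrable_finsetSum
      intro n _
      exact (hτ n).integrable_comp_of_integrable hvi
    have hnn : 0 ≤ᵐ[μ] fun x => (2 * (N : ℝ) + 1)⁻¹ *
      ∑ n ∈ Finset.Icc (-(N : ℤ)) N, v (τ n x) :=
      Eventually.of_forall fun x => mul_nonneg (by positivity)
        (Finset.sum_nonneg fun n _ => hv0 _)
    rw [ha]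
    simp only
    rw [← ofReal_integral_eq_lintegral_ofReal hint hnn]
    apply ENNReal.ofReal_le_ofReal
    have hsum : ∫ x, ∑ n ∈ Finset.Icc (-(N : ℤ)) N, v (τ n x) ∂μ =
        ∑ n ∈ Finset.Icc (-(N : ℤ)) N, ∫ x, v (τ n x) ∂μ :=
      integral_finsetSum _ (fun n _ => (hτ n).integrable_comp_of_integrable hvi)
    rw [integral_const_mul, hsum]
    have : ∀ n ∈ Finset.Icc (-(N : ℤ)) N, ∫ x, v (τ n x) ∂μ = ∫ x, v x ∂μ := by
      intro n _
      have hmap := (hτ n).map_eq
      have hm : AEStronglyMeasurable v (μ.map (τ n)) := by rw [hmap]; exact hvi.1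
      have h1 := integral_map (hτ n).measurable.aemeasurable hm
      rw [hmap] at h1
      exact h1.symm
    rw [Finset.sum_congr rfl this, Finset.sum_const, Int.card_Icc, nsmul_eq_mul]
    have hc : (((N : ℤ) + 1 - -(N : ℤ)).toNat : ℝ) = 2 * (N : ℝ) + 1 := by
      have : ((N : ℤ) + 1 - -(N : ℤ)).toNat = 2 * N + 1 := by omega
      rw [this]; push_cast; ring
    rw [hc, inv_mul_cancel_left₀ (by positivity)]
  have hlm : AEMeasurable (fun x => liminf (fun N => a N x) atTop) μ := by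
    refine ⟨fun x => liminf (fun N => (ham N).mk (a N) x) atTop,
      Measurable.liminf fun N => (ham N).measurable_mk, ?_⟩
    have : ∀ᵐ x ∂μ, ∀ N, a N x = (ham N).mk (a N) x := ae_all_iff.2 fun N => (ham N).ae_eq_mk
    filter_upwards [this] with x hx
    simp_rw [hx]
  refine ⟨{x | ENNReal.ofReal l ≤ liminf (fun N => a N x) atTop}, ?_, ?_⟩
  · have h1 := mul_meas_ge_le_lintegral₀ (μ := μ) hlm (ENNReal.ofReal l)
    have h2 : ∫⁻ x, liminf (fun N => a N x) atTop ∂μ ≤ ENNReal.ofReal (∫ x, v x ∂μ) := by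
      refine (lintegral_liminf_le' ham).trans ?_
      exact (Filter.liminf_le_of_frequently_le' (Eventually.of_forall hbound).frequently)
    have h3 := h1.trans h2
    rw [ENNReal.ofReal_div_of_pos hl]
    rw [ENNReal.le_div_iff_mul_le (Or.inl (by simpa using hl)) (Or.inl ENNReal.ofReal_ne_top),
      mul_comm]
    exact h3
  · filter_upwards [hvc] with x ⟨L, hL⟩ hx
    have h2 : liminf (fun N => a N x) atTop = ENNReal.ofReal L :=
      (ENNReal.tendsto_ofReal hL).liminf_eq
    replace hx : ENNReal.ofReal L < ENNReal.ofReal l := by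
      rw [← h2]
      exact not_le.1 hx
    have h3 : L < l := by
      by_contra hcon
      push Not at hcon
      exact absurd (ENNReal.ofReal_le_ofReal hcon) (not_le.2 hx)
    filter_upwards [hL.eventually (gt_mem_nhds h3)] with N hN
    exact hN.le

/-- slots along which single averages converge -/
lemma small_single [IsProbabilityMeasure μ]
    (hG : ∀ g : G, MeasurePreserving (fun x : X => g • x) μ μ)
    (𝒜 : ℝ → MeasurableSpace X) (hmono : Monotone 𝒜) (hle : ∀ t, 𝒜 t ≤ m0)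
    (f : X → ℂ) (hf : Measurable[m0] f) (D : ℝ) (hfD : ∀ x, ‖f x‖ ≤ D) (g : ℤ → G)
    (hv : ∀ v : X → ℝ, Measurable[m0] v → (∃ c : ℝ, ∀ x, |v x| ≤ c) → ∀ᵐ x ∂μ, ∃ L : ℝ,
      Tendsto (fun N : ℕ => (2 * (N : ℝ) + 1)⁻¹ *
        ∑ n ∈ Finset.Icc (-(N : ℤ)) N, v (g n • x)) atTop (𝓝 L))
    (γ : ℕ → G) (hγ : (∀ n : ℕ, γ n = g n) ∨ (∀ n : ℕ, γ n = g (-(n : ℤ)))) :
    Small μ (fun n x => γ n • x) (fun t x => μ[f|𝒜 t] x - μ[f|⨅ t, 𝒜 t] x) := by
  intro ε hε
  obtain ⟨t, ht⟩ := exists_level (μ := μ) 𝒜 hmono hle f hf D hfD (ε ^ 2 / 3) (by positivity)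
  have hT : (⨅ t, 𝒜 t) ≤ m0 := (iInf_le _ 0).trans (hle 0)
  obtain ⟨c, hcm, hcD, hce⟩ := exists_version (μ := μ) (𝒜 t) (hle t) f hf D hfD
  obtain ⟨e, hem, heD, hee⟩ := exists_version (μ := μ) (⨅ t, 𝒜 t) hT f hf D hfD
  have hcm0 : Measurable[m0] c := fun u hu => hle t _ (hcm hu)
  have hem0 : Measurable[m0] e := fun u hu => hT _ (hem hu)
  set v : X → ℝ := fun x => ‖c x - e x‖ with hvdef
  have hvm : Measurable[m0] v := (hcm0.sub hem0).norm
  have hvb : ∀ x, |v x| ≤ D + D := by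
    intro x
    rw [hvdef, abs_norm]
    exact (norm_sub_le _ _).trans (add_le_add (hcD x) (heD x))
  have hvi : Integrable v μ := Integrable.of_bound hvm.aestronglyMeasurable (D + D)
    (Eventually.of_forall hvb)
  have hvint : ∫ x, v x ∂μ ≤ ε ^ 2 / 3 := by
    refine le_of_eq_of_le ?_ ht
    apply integral_congr_ae
    filter_upwards [hce, hee] with x h1 h2
    simp only [hvdef, h1, h2]
  obtain ⟨E, hE, hEx⟩ := avg_large_two (μ := μ) (fun n x => g n • x) (fun n => hG (g n)) v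
    (fun x => norm_nonneg _) hvi (hv v hvm ⟨_, hvb⟩) (ε / 3) (by positivity)
  refine ⟨t, E, hE.trans (ENNReal.ofReal_le_ofReal ?_), ?_⟩
  · rw [div_le_iff₀ (by positivity)]
    calc _ ≤ ε ^ 2 / 3 := hvint
      _ = ε * (ε / 3) := by ring
  · have h1 : ∀ᵐ x ∂μ, ∀ n, ‖μ[f|𝒜 t] (γ n • x) - μ[f|⨅ t, 𝒜 t] (γ n • x)‖ = v (γ n • x) := by
      rw [ae_all_iff]
      intro n
      have : ∀ᵐ x ∂μ, ‖μ[f|𝒜 t] x - μ[f|⨅ t, 𝒜 t] x‖ = v x := by
        filter_upwards [hce, hee] with x h1 h2
        simp only [hvdef, h1, h2]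
      exact (hG (γ n)).quasiMeasurePreserving.ae this
    filter_upwards [h1, hEx] with x hx1 hx2 hxE
    filter_upwards [hx2 hxE, eventually_ge_atTop 1] with N hN hN1
    have hNpos : (0 : ℝ) < N := by exact_mod_cast hN1
    have h2 : ∑ n ∈ range N, ‖μ[f|𝒜 t] (γ n • x) - μ[f|⨅ t, 𝒜 t] (γ n • x)‖ ≤
        ∑ n ∈ Finset.Icc (-(N : ℤ)) N, v (g n • x) := by
      simp_rw [hx1]
      rcases hγ with hγ | hγ
      · simp_rw [hγ]
        calc ∑ n ∈ range N, v (g (n : ℤ) • x) =
            ∑ z ∈ (range N).image (fun n : ℕ => (n : ℤ)), v (g z • x) := by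
              rw [Finset.sum_image]
              intro p _ q _ h
              simpa using h
          _ ≤ _ := by
              apply Finset.sum_le_sum_of_subset_of_nonneg
              · intro z hz
                rw [Finset.mem_image] at hz
                obtain ⟨n, hn, rfl⟩ := hz
                rw [mem_range] at hn
                rw [Finset.mem_Icc]
                constructor <;> omega
              · intro z _ _; exact norm_nonneg _
      · simp_rw [hγ]
        calc ∑ n ∈ range N, v (g (-(n : ℤ)) • x) =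
            ∑ z ∈ (range N).image (fun n : ℕ => -(n : ℤ)), v (g z • x) := by
              rw [Finset.sum_image]
              intro p _ q _ h
              simp only [neg_inj] at h
              exact_mod_cast h
          _ ≤ _ := by
              apply Finset.sum_le_sum_of_subset_of_nonneg
              · intro z hz
                rw [Finset.mem_image] at hz
                obtain ⟨n, hn, rfl⟩ := hz
                rw [mem_range] at hn
                rw [Finset.mem_Icc]
                constructor <;> omega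
              · intro z _ _; exact norm_nonneg _
    rw [inv_mul_le_iff₀ (by positivity)] at hN
    rw [inv_mul_le_iff₀ hNpos]
    have h3 : (1 : ℝ) ≤ N := by exact_mod_cast hN1
    calc _ ≤ (2 * (N : ℝ) + 1) * (ε / 3) := h2.trans hN
      _ ≤ (3 * N) * (ε / 3) := by
          apply mul_le_mul_of_nonneg_right _ (by positivity)
          linarith
      _ = N * ε := by ring

end Pool.Lib.RP
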