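import Pool.Agent.Lib.RemotePast2

set_option autoImplicit false

/-!
# The remote past and pointwise convergence of multiple averages, part 3

Functions measurable with respect to the join of the family; heights given by real polynomials.
-/

open MeasureTheory Filter Topology Finset
open scoped ENNReal NNReal ComplexConjugate

namespace Pool.Lib.RP

open Pool.Lib.Erg Pool.Lib.RM

variable {X : Type*} {m0 : MeasurableSpace X} {μ : Measure X} {G : Type*} [Group G] [MulAction G X]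

lemma iInf_shift (𝒜 : ℝ → MeasurableSpace X) (s : ℝ) : (⨅ t, 𝒜 (t + s)) = ⨅ t, 𝒜 t := by
  apply le_antisymm
  · apply le_iInf
    intro t
    have := iInf_le (fun t => 𝒜 (t + s)) (t - s)
    simpa using this
  · exact le_iInf fun t => iInf_le _ _

lemma norm_prod_sub {ι : Type*} (s : Finset ι) (a b : ι → ℂ) (D : ℝ) (hD : 1 ≤ D)
    (ha : ∀ i, ‖a i‖ ≤ D) (hb : ∀ i, ‖b i‖ ≤ D) :
    ‖∏ i ∈ s, a i - ∏ i ∈ s, b i‖ ≤ D ^ s.card * ∑ i ∈ s, ‖a i - b i‖ := by
  classical
  induction s using Finset.induction_on with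
  | empty => simp
  | insert i s hi ih =>
    rw [Finset.prod_insert hi, Finset.prod_insert hi, Finset.sum_insert hi,
      Finset.card_insert_of_notMem hi]
    have e1 : a i * ∏ i ∈ s, a i - b i * ∏ i ∈ s, b i =
        (a i - b i) * ∏ i ∈ s, a i + b i * (∏ i ∈ s, a i - ∏ i ∈ s, b i) := by ring
    rw [e1]
    have h1 : ‖∏ i ∈ s, a i‖ ≤ D ^ s.card := by
      rw [norm_prod]
      calc _ ≤ ∏ _i ∈ s, D := Finset.prod_le_prod (fun _ _ => norm_nonneg _) (fun i _ => ha i)
        _ = _ := by rw [Finset.prod_const]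
    have hDp : 0 ≤ D ^ s.card := by positivity
    have hs0 : 0 ≤ ∑ i ∈ s, ‖a i - b i‖ := Finset.sum_nonneg fun i _ => norm_nonneg _
    calc _ ≤ ‖a i - b i‖ * D ^ s.card + D * (D ^ s.card * ∑ i ∈ s, ‖a i - b i‖) := by
          refine (norm_add_le _ _).trans ?_
          rw [norm_mul, norm_mul]
          apply add_le_add
          · exact mul_le_mul_of_nonneg_left h1 (norm_nonneg _)
          · exact mul_le_mul (hb i) ih (norm_nonneg _) (by linarith)
      _ ≤ ‖a i - b i‖ * D ^ (s.card + 1) + D * (D ^ s.card * ∑ i ∈ s, ‖a i - b i‖) := by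
          apply add_le_add _ le_rfl
          apply mul_le_mul_of_nonneg_left _ (norm_nonneg _)
          exact pow_le_pow_right₀ hD (Nat.le_succ _)
      _ = _ := by ring

/-- all slots, functions measurable with respect to the join -/
theorem replace_join [IsProbabilityMeasure μ]
    (hG : ∀ g : G, MeasurePreserving (fun x : X => g • x) μ μ)
    (𝒜 : ℝ → MeasurableSpace X) (hmono : Monotone 𝒜) (hle : ∀ t, 𝒜 t ≤ m0)
    (φ : G → ℝ) (hinv : ∀ g, φ g⁻¹ = - φ g)
    (hcomap : ∀ (g : G) t, (𝒜 t).comap (fun x => g • x) ≤ 𝒜 (t + φ g))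
    {m : ℕ} (γ : Fin m → ℕ → G) (R0 : Finset (Fin m))
    (hsep : ∀ i ∈ R0, ∀ j ∈ R0, i ≠ j → Below (fun n => φ (γ i n)) (fun n => φ (γ j n)) ∨
      Below (fun n => φ (γ j n)) (fun n => φ (γ i n)))
    (hinc : ∀ a ∈ R0, (∀ K : ℝ, ∃ C : ℕ, ∀ n ≥ C, ∀ n' ≥ n + C, φ (γ a n) + K ≤ φ (γ a n')) ∨
      (∀ K : ℝ, ∃ C : ℕ, ∀ n ≥ C, ∀ n' ≥ n + C, φ (γ a n') + K ≤ φ (γ a n)))
    (f e : Fin m → X → ℂ) (D : ℝ) (hD1 : 1 ≤ D) (hf : ∀ j, Measurable[m0] (f j))
    (hfD : ∀ j x, ‖f j x‖ ≤ D)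
    (he : ∀ j, Measurable[⨅ t, 𝒜 t] (e j)) (heD : ∀ j x, ‖e j x‖ ≤ D)
    (hee : ∀ j, e j =ᵐ[μ] μ[f j|⨅ t, 𝒜 t]) (hout : ∀ j, j ∉ R0 → f j =ᵐ[μ] e j)
    (hup : ∀ j, Small μ (fun n x => γ j n • x) (fun s x => f j x - μ[f j|𝒜 s] x))
    (hdown : ∀ j ∈ R0, ∀ s (c : X → ℂ), Measurable[m0] c → (∀ x, ‖c x‖ ≤ D) → c =ᵐ[μ] μ[f j|𝒜 s] →
      Small μ (fun n x => γ j n • x) (fun t x => μ[c|𝒜 t] x - μ[c|⨅ t, 𝒜 t] x)) :
    ∀ᵐ x ∂μ, Tendsto (avg fun n => ∏ j, f j (γ j n • x) - ∏ j, e j (γ j n • x)) atTop (𝓝 0) := by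
  classical
  have hT : (⨅ t, 𝒜 t) ≤ m0 := (iInf_le _ 0).trans (hle 0)
  have hDp : 0 < D := by linarith
  have key : ∀ r : ℝ, 0 < r → ∀ᵐ x ∂μ, ∀ᶠ N : ℕ in atTop,
      ‖avg (fun n => ∏ j, f j (γ j n • x) - ∏ j, e j (γ j n • x)) N‖ ≤ r := by
    intro r hr
    rw [ae_iff]
    have hle' : ∀ ε : ℝ, 0 < ε → μ {x | ¬ ∀ᶠ N : ℕ in atTop,
        ‖avg (fun n => ∏ j, f j (γ j n • x) - ∏ j, e j (γ j n • x)) N‖ ≤ r} ≤
          ENNReal.ofReal ε := by
      intro ε hε
      set ε' : ℝ := min (ε / (m + 1)) (r / (2 * (D ^ m * (m + 1)))) with hε'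
      have hε'0 : 0 < ε' := lt_min (by positivity) (by positivity)
      choose s E hE hEx using fun j => hup j ε' hε'0
      choose c hcm hcD hce using fun j =>
        exists_version (μ := μ) (𝒜 (s j)) (hle _) (f j) (hf j) D (hfD j)
      set σ : ℝ := ∑ j, |s j| with hσ
      have hsσ : ∀ j, s j ≤ σ := fun j => (le_abs_self _).trans
        (Finset.single_le_sum (f := fun j => |s j|) (fun i _ => abs_nonneg _) (Finset.mem_univ j))
      have hcm0 : ∀ j, Measurable[m0] (c j) := fun j u hu => hle _ _ (hcm j hu)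
      have hinf := iInf_shift 𝒜 σ
      have hec : ∀ j, e j =ᵐ[μ] μ[c j|⨅ t, 𝒜 t] := by
        intro j
        have h1 : μ[c j|⨅ t, 𝒜 t] =ᵐ[μ] μ[μ[f j|𝒜 (s j)]|⨅ t, 𝒜 t] := condExp_congr_ae (hce j)
        have h2 : μ[μ[f j|𝒜 (s j)]|⨅ t, 𝒜 t] =ᵐ[μ] μ[f j|⨅ t, 𝒜 t] :=
          condExp_condExp_of_le (iInf_le _ _) (hle _)
        exact (hee j).trans (h1.trans h2).symm
      have hmain := replace_all (μ := μ) hG (fun t => 𝒜 (t + σ))
        (fun a b hab => hmono (by linarith)) (fun t => hle _) φ hinv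
        (fun g t => by
          have := hcomap g (t + σ)
          have e1 : t + φ g + σ = t + σ + φ g := by ring
          rw [e1]
          exact this) γ R0 hsep hinc c e D
        (fun j u hu => hmono (by rw [zero_add]; exact hsσ j) _ (hcm j hu)) hcD
        (fun j => by rw [hinf]; exact he j) heD (fun j => by rw [hinf]; exact hec j)
        (fun j hj => by
          have h1 : μ[f j|𝒜 (s j)] =ᵐ[μ] μ[e j|𝒜 (s j)] := condExp_congr_ae (hout j hj)
          have h2 : μ[e j|𝒜 (s j)] = e j := condExp_of_stronglyMeasurable (hle _)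
            (Measurable.stronglyMeasurable fun u hu => (iInf_le _ _ : (⨅ t, 𝒜 t) ≤ 𝒜 (s j)) _
              (he j hu)) (integrable_condExp.congr (hee j).symm)
          rw [h2] at h1
          exact (hce j).trans h1)
        (fun j hj => by
          intro δ hδ
          obtain ⟨t, A, hA, hAx⟩ := hdown j hj (s j) (c j) (hcm0 j) (hcD j) (hce j) δ hδ
          refine ⟨t - σ, A, hA, ?_⟩
          rw [hinf]
          simp only [sub_add_cancel]
          exact hAx)
      have hcx : ∀ᵐ x ∂μ, ∀ j n, f j (γ j n • x) - c j (γ j n • x) =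
          f j (γ j n • x) - μ[f j|𝒜 (s j)] (γ j n • x) := by
        rw [ae_all_iff]
        intro j
        rw [ae_all_iff]
        intro n
        have : ∀ᵐ y ∂μ, f j y - c j y = f j y - μ[f j|𝒜 (s j)] y := by
          filter_upwards [hce j] with y h1
          rw [h1]
        exact (hG (γ j n)).quasiMeasurePreserving.ae this
      set Z : Set X := {x | ¬ (Tendsto (avg fun n => ∏ j, c j (γ j n • x) -
          ∏ j, e j (γ j n • x)) atTop (𝓝 0) ∧ (∀ j n, f j (γ j n • x) - c j (γ j n • x) =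
          f j (γ j n • x) - μ[f j|𝒜 (s j)] (γ j n • x)) ∧
          (∀ j, x ∉ E j → ∀ᶠ N : ℕ in atTop, (N : ℝ)⁻¹ * ∑ n ∈ range N,
            ‖f j (γ j n • x) - μ[f j|𝒜 (s j)] (γ j n • x)‖ ≤ ε'))} with hZ
      have hZ0 : μ Z = 0 := by
        rw [hZ, ← ae_iff]
        have hEx' : ∀ᵐ x ∂μ, ∀ j, x ∉ E j → ∀ᶠ N : ℕ in atTop, (N : ℝ)⁻¹ * ∑ n ∈ range N,
            ‖f j (γ j n • x) - μ[f j|𝒜 (s j)] (γ j n • x)‖ ≤ ε' := by
          rw [ae_all_iff]
          exact hEx
        filter_upwards [hmain, hcx, hEx'] with x h1 h2 h3 using ⟨h1, h2, h3⟩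
      have hsub : {x | ¬ ∀ᶠ N : ℕ in atTop,
        ‖avg (fun n => ∏ j, f j (γ j n • x) - ∏ j, e j (γ j n • x)) N‖ ≤ r} ⊆ Z ∪ ⋃ j, E j := by
        intro x hx
        by_contra hcon
        rw [Set.mem_union, not_or, Set.mem_iUnion] at hcon
        obtain ⟨hxZ, hxE⟩ := hcon
        push Not at hxE
        rw [hZ, Set.mem_setOf_eq, not_not] at hxZ
        obtain ⟨h1, h2, h3⟩ := hxZ
        apply hx
        have h4 : ∀ᶠ N : ℕ in atTop,
            ‖avg (fun n => ∏ j, c j (γ j n • x) - ∏ j, e j (γ j n • x)) N‖ < r / 2 :=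
          (tendsto_zero_iff_norm_tendsto_zero.1 h1).eventually
            (gt_mem_nhds (show (0 : ℝ) < r / 2 by positivity))
        have h5 : ∀ᶠ N : ℕ in atTop, ∀ j, (N : ℝ)⁻¹ * ∑ n ∈ range N,
            ‖f j (γ j n • x) - μ[f j|𝒜 (s j)] (γ j n • x)‖ ≤ ε' := by
          rw [eventually_all]
          exact fun j => h3 j (hxE j)
        filter_upwards [h4, h5] with N h6 h7
        have h8 : avg (fun n => ∏ j, f j (γ j n • x) - ∏ j, e j (γ j n • x)) N =
            avg (fun n => ∏ j, c j (γ j n • x) - ∏ j, e j (γ j n • x)) N +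
            avg (fun n => ∏ j, f j (γ j n • x) - ∏ j, c j (γ j n • x)) N := by
          rw [← avg_add]
          congr 1
          funext n
          ring
        rw [h8]
        have h9 : ‖avg (fun n => ∏ j, f j (γ j n • x) - ∏ j, c j (γ j n • x)) N‖ ≤
            D ^ m * (m * ε') := by
          refine (avg_norm_le _ _).trans ?_
          calc _ ≤ (N : ℝ)⁻¹ * ∑ n ∈ range N, D ^ m *
                ∑ j, ‖f j (γ j n • x) - μ[f j|𝒜 (s j)] (γ j n • x)‖ := by
                apply mul_le_mul_of_nonneg_left _ (by positivity)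
                apply Finset.sum_le_sum
                intro n _
                have h10 := norm_prod_sub (univ : Finset (Fin m)) (fun j => f j (γ j n • x))
                  (fun j => c j (γ j n • x)) D hD1 (fun j => hfD j _) (fun j => hcD j _)
                rw [Finset.card_univ, Fintype.card_fin] at h10
                simp_rw [h2] at h10
                exact h10
            _ = D ^ m * ∑ j, ((N : ℝ)⁻¹ * ∑ n ∈ range N,
                ‖f j (γ j n • x) - μ[f j|𝒜 (s j)] (γ j n • x)‖) := by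
                rw [← Finset.mul_sum, Finset.sum_comm, ← Finset.mul_sum]
                ring
            _ ≤ D ^ m * ∑ _j : Fin m, ε' := by
                apply mul_le_mul_of_nonneg_left _ (by positivity)
                exact Finset.sum_le_sum fun j _ => h7 j
            _ = D ^ m * (m * ε') := by simp
        have h10 : D ^ m * (m * ε') ≤ r / 2 := by
          calc D ^ m * (m * ε') ≤ D ^ m * ((m + 1) * (r / (2 * (D ^ m * (m + 1))))) := by
                apply mul_le_mul_of_nonneg_left _ (by positivity)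
                exact mul_le_mul (by linarith) (min_le_right _ _) hε'0.le (by positivity)
            _ = r / 2 := by field_simp
        calc _ ≤ _ := norm_add_le _ _
          _ ≤ r / 2 + r / 2 := add_le_add h6.le (h9.trans h10)
          _ = r := by ring
      calc _ ≤ μ (Z ∪ ⋃ j, E j) := measure_mono hsub
        _ ≤ μ Z + μ (⋃ j, E j) := measure_union_le _ _
        _ ≤ 0 + ∑ j, μ (E j) := by
            rw [hZ0]
            exact add_le_add le_rfl (measure_iUnion_fintype_le _ _)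
        _ ≤ 0 + ∑ _j : Fin m, ENNReal.ofReal ε' := add_le_add le_rfl
            (Finset.sum_le_sum fun j _ => hE j)
        _ ≤ ENNReal.ofReal ε := by
            rw [zero_add, Finset.sum_const, Finset.card_univ, Fintype.card_fin, nsmul_eq_mul,
              ← ENNReal.ofReal_natCast, ← ENNReal.ofReal_mul (by positivity)]
            apply ENNReal.ofReal_le_ofReal
            calc (m : ℝ) * ε' ≤ (m + 1) * (ε / (m + 1)) :=
                  mul_le_mul (by linarith) (min_le_left _ _) hε'0.le (by positivity)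
              _ = ε := by field_simp
    refine le_antisymm ?_ bot_le
    apply le_of_forall_pos_le_add
    intro ε hε
    rw [zero_add]
    by_cases htop : ε = ⊤
    · rw [htop]; exact le_top
    · have := hle' ε.toReal (ENNReal.toReal_pos hε.ne' htop)
      rwa [ENNReal.ofReal_toReal htop] at this
  have hall : ∀ᵐ x ∂μ, ∀ j : ℕ, ∀ᶠ N : ℕ in atTop,
      ‖avg (fun n => ∏ j, f j (γ j n • x) - ∏ j, e j (γ j n • x)) N‖ ≤ 1 / ((j : ℝ) + 1) := by
    rw [ae_all_iff]
    intro j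
    exact key _ (by positivity)
  filter_upwards [hall] with x hx
  rw [tendsto_zero_iff_norm_tendsto_zero, Metric.tendsto_atTop]
  intro ε hε
  obtain ⟨j, hj⟩ := exists_nat_one_div_lt hε
  obtain ⟨N0, hN0⟩ := eventually_atTop.1 (hx j)
  refine ⟨N0, fun n hn => ?_⟩
  rw [Real.dist_eq, sub_zero, abs_norm]
  exact lt_of_le_of_lt (hN0 n hn) hj

/-! ### Levels going up -/

lemma ae_up [IsProbabilityMeasure μ]
    (𝒜 : ℝ → MeasurableSpace X) (hmono : Monotone 𝒜) (hle : ∀ t, 𝒜 t ≤ m0)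
    (f : X → ℂ) (hf : Measurable[⨆ t, 𝒜 t] f) (D : ℝ) (hfD : ∀ x, ‖f x‖ ≤ D) :
    ∀ᵐ x ∂μ, Tendsto (fun k : ℕ => μ[f|𝒜 k] x) atTop (𝓝 (f x)) := by
  have hsup : (⨆ k : ℕ, 𝒜 (k : ℝ)) = ⨆ t, 𝒜 t := by
    apply le_antisymm
    · exact iSup_le fun k => le_iSup _ _
    · apply iSup_le
      intro t
      obtain ⟨k, hk⟩ := exists_nat_ge t
      exact (hmono hk).trans (le_iSup (fun k : ℕ => 𝒜 (k : ℝ)) k)
  have hS : (⨆ t, 𝒜 t) ≤ m0 := iSup_le hle
  have hf0 : Measurable[m0] f := fun u hu => hS _ (hf hu)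
  have hfi : Integrable f μ := Integrable.of_bound hf0.aestronglyMeasurable D (Eventually.of_forall hfD)
  set ℱ : Filtration ℕ m0 := ⟨fun k => 𝒜 (k : ℝ), fun a b hab => hmono (by exact_mod_cast hab),
    fun k => hle _⟩ with hℱ
  have hsup' : (⨆ k, ℱ k) = ⨆ t, 𝒜 t := hsup
  have hre : StronglyMeasurable[⨆ k, ℱ k] (fun x => (f x).re) := by
    rw [hsup']
    exact (Complex.continuous_re.measurable.comp hf).stronglyMeasurable
  have him : StronglyMeasurable[⨆ k, ℱ k] (fun x => (f x).im) := by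
    rw [hsup']
    exact (Complex.continuous_im.measurable.comp hf).stronglyMeasurable
  have h1 := Integrable.tendsto_ae_condExp (ℱ := ℱ) hfi.re hre
  have h2 := Integrable.tendsto_ae_condExp (ℱ := ℱ) hfi.im him
  have h3 : ∀ᵐ x ∂μ, ∀ k : ℕ, (μ[f|𝒜 (k : ℝ)] x).re = μ[fun x => (f x).re|𝒜 (k : ℝ)] x := by
    rw [ae_all_iff]
    intro k
    have := Complex.reCLM.comp_condExp_comm (m := 𝒜 (k : ℝ)) hfi
    filter_upwards [this] with x hx
    exact hx
  have h4 : ∀ᵐ x ∂μ, ∀ k : ℕ, (μ[f|𝒜 (k : ℝ)] x).im = μ[fun x => (f x).im|𝒜 (k : ℝ)] x := by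
    rw [ae_all_iff]
    intro k
    have := Complex.imCLM.comp_condExp_comm (m := 𝒜 (k : ℝ)) hfi
    filter_upwards [this] with x hx
    exact hx
  filter_upwards [h1, h2, h3, h4] with x h1 h2 h3 h4
  have h5 : Tendsto (fun k : ℕ => ((μ[f|𝒜 (k : ℝ)] x).re : ℂ) + (μ[f|𝒜 (k : ℝ)] x).im * Complex.I)
      atTop (𝓝 ((f x).re + (f x).im * Complex.I)) := by
    apply Tendsto.add
    · simp_rw [h3]
      exact (Complex.continuous_ofReal.tendsto _).comp h1
    · apply Tendsto.mul_const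
      simp_rw [h4]
      exact (Complex.continuous_ofReal.tendsto _).comp h2
  simpa [Complex.re_add_im] using h5

lemma exists_level_up [IsProbabilityMeasure μ]
    (𝒜 : ℝ → MeasurableSpace X) (hmono : Monotone 𝒜) (hle : ∀ t, 𝒜 t ≤ m0)
    (f : X → ℂ) (hf : Measurable[⨆ t, 𝒜 t] f) (D : ℝ) (hfD : ∀ x, ‖f x‖ ≤ D) (ε : ℝ)
    (hε : 0 < ε) : ∃ s : ℝ, ∫ x, ‖f x - μ[f|𝒜 s] x‖ ∂μ ≤ ε := by
  have hS : (⨆ t, 𝒜 t) ≤ m0 := iSup_le hle
  have hf0 : Measurable[m0] f := fun u hu => hS _ (hf hu)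
  have h1 := ae_up (μ := μ) 𝒜 hmono hle f hf D hfD
  have hb : ∀ k : ℕ, ∀ᵐ x ∂μ, ‖μ[f|𝒜 (k : ℝ)] x‖ ≤ D := by
    intro k
    obtain ⟨c, _, hcD, hce⟩ := exists_version (μ := μ) (𝒜 (k : ℝ)) (hle _) f hf0 D hfD
    filter_upwards [hce] with x hx
    rw [← hx]
    exact hcD x
  have hfin : Tendsto (fun k : ℕ => ∫ x, ‖f x - μ[f|𝒜 (k : ℝ)] x‖ ∂μ) atTop (𝓝 0) := by
    have h0 : (0 : ℝ) = ∫ x : X, (0 : ℝ) ∂μ := by simp
    rw [h0]
    apply tendsto_integral_of_dominated_convergence (fun _ => D + D)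
      (fun k => (hf0.aestronglyMeasurable.sub
        integrable_condExp.aestronglyMeasurable).norm) (integrable_const _)
    · intro k
      filter_upwards [hb k] with x hx
      rw [norm_norm]
      exact (norm_sub_le _ _).trans (add_le_add (hfD x) hx)
    · filter_upwards [h1] with x hx
      have := (hx.const_sub (f x)).norm
      simpa using this
  obtain ⟨k, hk⟩ := (hfin.eventually (gt_mem_nhds hε)).exists
  exact ⟨k, hk.le⟩

end Pool.Lib.RP
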