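import Pool.Agent.Lib.ErgodicAverages3

set_option autoImplicit false

/-!
# Bounded versions of conditional expectations and reverse martingales

* `exists_version` : a bounded function has a bounded version of its conditional expectation.
* `orth` : `f - E(f|m)` is orthogonal to bounded `m`-measurable functions.
* `rev_mart` : along an antitone sequence of σ-algebras the conditional expectations converge in `L¹`
  to the conditional expectation on the intersection.
-/

open MeasureTheory Filter Topology Finset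
open scoped ENNReal NNReal ComplexConjugate

namespace Pool.Lib.RM

variable {X : Type*} {m0 : MeasurableSpace X} {μ : Measure X}

lemma exists_version [IsProbabilityMeasure μ] (m' : MeasurableSpace X) (hm : m' ≤ m0) (f : X → ℂ)
    (hf : Measurable[m0] f) (C : ℝ) (hC : ∀ x, ‖f x‖ ≤ C) :
    ∃ e : X → ℂ, Measurable[m'] e ∧ (∀ x, ‖e x‖ ≤ C) ∧ e =ᵐ[μ] μ[f|m'] := by
  classical
  have hfi : Integrable f μ := Integrable.of_bound hf.aestronglyMeasurable C (Eventually.of_forall hC)
  have h1 : ∀ᵐ x ∂μ, μ[f|m'] x ∈ Metric.closedBall (0 : ℂ) C :=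
    Convex.condExp_mem hm hfi Metric.isClosed_closedBall (convex_closedBall _ _)
      (Eventually.of_forall fun x => by simpa using hC x)
  have hmeas : Measurable[m'] (μ[f|m']) := stronglyMeasurable_condExp.measurable
  have hset : MeasurableSet[m'] {x | ‖μ[f|m'] x‖ ≤ C} := by
    have h2 : MeasurableSet {z : ℂ | ‖z‖ ≤ C} := (isClosed_le continuous_norm continuous_const).measurableSet
    exact hmeas h2
  refine ⟨fun x => if ‖μ[f|m'] x‖ ≤ C then μ[f|m'] x else 0, ?_, ?_, ?_⟩
  · exact Measurable.ite hset hmeas measurable_const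
  · intro x
    have h0 : 0 ≤ C := (norm_nonneg _).trans (hC x)
    by_cases h : ‖μ[f|m'] x‖ ≤ C
    · simp only [h, if_true]
    · simp only [h, if_false, norm_zero]; exact h0
  · filter_upwards [h1] with x hx
    have : ‖μ[f|m'] x‖ ≤ C := by simpa using hx
    simp only [this, if_true]

/-- `f - E(f|m')` is orthogonal to bounded `m'`-measurable functions. -/
lemma orth [IsProbabilityMeasure μ] (m' : MeasurableSpace X) (hm : m' ≤ m0) (f e W : X → ℂ)
    (hf : Measurable[m0] f) (C : ℝ) (hC : ∀ x, ‖f x‖ ≤ C)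
    (he : e =ᵐ[μ] μ[f|m']) (hW : Measurable[m'] W) (D : ℝ) (hD : ∀ x, ‖W x‖ ≤ D) :
    ∫ x, (f x - e x) * W x ∂μ = 0 := by
  have hfi : Integrable f μ := Integrable.of_bound hf.aestronglyMeasurable C (Eventually.of_forall hC)
  have hWm : Measurable[m0] W := fun s hs => hm _ (hW hs)
  have hWs : StronglyMeasurable[m'] W := hW.stronglyMeasurable
  have hei : Integrable e μ := integrable_condExp.congr he.symm
  have hbd : ∀ᵐ x ∂μ, ‖W x‖ ≤ D := Eventually.of_forall hD
  have hWa : AEStronglyMeasurable[m0] W μ := hWm.aestronglyMeasurable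
  have h1 : Integrable (fun x => f x * W x) μ := hfi.mul_bdd hWa hbd
  have h2 : Integrable (fun x => e x * W x) μ := hei.mul_bdd hWa hbd
  have h3 : μ[fun x => f x * W x|m'] =ᵐ[μ] fun x => μ[f|m'] x * W x :=
    condExp_bilin_of_stronglyMeasurable_right (ContinuousLinearMap.mul ℝ ℂ) hWs h1 hfi
  have h4 : ∫ x, f x * W x ∂μ = ∫ x, e x * W x ∂μ := by
    rw [← integral_condExp hm]
    apply integral_congr_ae
    filter_upwards [h3, he] with x h3 he
    rw [h3, he]
  simp_rw [sub_mul]
  rw [integral_sub h1 h2, h4, sub_self]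

lemma measurable_limUnder (m' : MeasurableSpace X) (u : ℕ → X → ℂ) (K : ℕ)
    (hu : ∀ i, K ≤ i → Measurable[m'] (u i)) :
    Measurable[m'] (fun x => limUnder atTop fun i => u i x) := by
  have h1 : ∀ x, limUnder atTop (fun i => u i x) = limUnder atTop (fun i => u (i + K) x) := by
    intro x
    unfold limUnder
    congr 1
    conv_lhs => rw [← map_add_atTop_eq_nat K, Filter.map_map]
    rfl
  simp_rw [h1]
  have : StronglyMeasurable[m'] (fun x => limUnder atTop fun i => u (i + K) x) :=
    StronglyMeasurable.limUnder fun i => (hu (i + K) (by omega)).stronglyMeasurable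
  exact this.measurable

lemma sq_int_le [IsProbabilityMeasure μ] (g : X → ℂ) (C : ℝ) (hg : Measurable g)
    (hC : ∀ x, ‖g x‖ ≤ C) : (∫ x, ‖g x‖ ∂μ) ^ 2 ≤ ∫ x, ‖g x‖ ^ 2 ∂μ := by
  have hi : Integrable (fun x => ‖g x‖) μ :=
    Integrable.of_bound hg.norm.aestronglyMeasurable C (Eventually.of_forall fun x => by simpa using hC x)
  have hi2 : Integrable (fun x => ‖g x‖ ^ 2) μ := by
    apply Integrable.of_bound (hg.norm.pow_const 2).aestronglyMeasurable (C ^ 2)
    apply Eventually.of_forall
    intro x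
    rw [norm_pow, norm_norm]
    exact pow_le_pow_left₀ (norm_nonneg _) (hC x) 2
  set a := ∫ x, ‖g x‖ ∂μ with ha
  have h0 : 0 ≤ ∫ x, (‖g x‖ - a) ^ 2 ∂μ := integral_nonneg fun x => sq_nonneg _
  have h1 : ∫ x, (‖g x‖ - a) ^ 2 ∂μ = ∫ x, ‖g x‖ ^ 2 ∂μ - 2 * a * a + a ^ 2 := by
    have e : ∀ x, (‖g x‖ - a) ^ 2 = ‖g x‖ ^ 2 - 2 * a * ‖g x‖ + a ^ 2 := fun x => by ring
    simp_rw [e]
    have i1 : Integrable (fun x => ‖g x‖ ^ 2 - 2 * a * ‖g x‖) μ := hi2.sub (hi.const_mul _)
    rw [integral_add i1 (integrable_const _), integral_sub hi2 (hi.const_mul _),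
      integral_const_mul, integral_const]
    simp [ha]
  rw [h1] at h0
  nlinarith [h0]

/-- Reverse martingale convergence in `L¹` (bounded functions). -/
theorem rev_mart [IsProbabilityMeasure μ] (B : ℕ → MeasurableSpace X) (hB : Antitone B)
    (hle : ∀ k, B k ≤ m0) (f : X → ℂ) (hf : Measurable[m0] f) (C : ℝ) (hC : ∀ x, ‖f x‖ ≤ C)
    (e : ℕ → X → ℂ) (he : ∀ k, Measurable[B k] (e k)) (heC : ∀ k x, ‖e k x‖ ≤ C)
    (hee : ∀ k, e k =ᵐ[μ] μ[f|B k]) (ε : ℝ) (hε : 0 < ε) :
    ∃ k, ∫ x, ‖e k x - μ[f|⨅ k, B k] x‖ ∂μ ≤ ε := by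
  have hfi : Integrable f μ := Integrable.of_bound hf.aestronglyMeasurable C (Eventually.of_forall hC)
  have hem : ∀ k, Measurable (e k) := fun k s hs => hle k _ (he k hs)
  have hem' : ∀ k l, k ≤ l → Measurable[B k] (e l) := fun k l hkl s hs => hB hkl _ (he l hs)
  have hei : ∀ k, Integrable (e k) μ := fun k =>
    Integrable.of_bound (hem k).aestronglyMeasurable C (Eventually.of_forall (heC k))
  have hconj : ∀ k l, k ≤ l → Measurable[B k] fun x => conj (e l x) := fun k l hkl =>
    Complex.continuous_conj.measurable.comp (hem' k l hkl)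
  -- orthogonality relations
  have ho : ∀ k l, k ≤ l → ∫ x, (f x - e k x) * conj (e l x) ∂μ = 0 := fun k l hkl =>
    orth (B k) (hle k) f (e k) _ hf C hC (hee k) (hconj k l hkl) C
      (fun x => by rw [RCLike.norm_conj]; exact heC l x)
  set a : ℕ → ℝ := fun k => ∫ x, ‖e k x‖ ^ 2 ∂μ with ha
  have hsq : ∀ k, Integrable (fun x => ‖e k x‖ ^ 2) μ := by
    intro k
    apply Integrable.of_bound ((hem k).norm.pow_const 2).aestronglyMeasurable (C ^ 2)
    apply Eventually.of_forall
    intro x
    rw [norm_pow, norm_norm]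
    exact pow_le_pow_left₀ (norm_nonneg _) (heC k x) 2
  have hpair : ∀ (g h : X → ℂ) (c : ℝ), Integrable g μ → Measurable h → (∀ x, ‖h x‖ ≤ c) →
      Integrable (fun x => g x * conj (h x)) μ := by
    intro g h c hg hh hc
    exact hg.mul_bdd (c := c) (Complex.continuous_conj.measurable.comp hh).aestronglyMeasurable
      (Eventually.of_forall fun x => by rw [RCLike.norm_conj]; exact hc x)
  have hdiff : ∀ k l, k ≤ l → ∫ x, ‖e k x - e l x‖ ^ 2 ∂μ = a k - a l := by
    intro k l hkl
    have h1 : ∫ x, (e k x - e l x) * conj (e l x) ∂μ = 0 := by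
      have h2 := ho k l hkl
      have h3 := ho l l le_rfl
      have h4 : ∀ x, (e k x - e l x) * conj (e l x) =
          (f x - e l x) * conj (e l x) - (f x - e k x) * conj (e l x) := fun x => by ring
      simp_rw [h4]
      have i1 : Integrable (fun x => (f x - e l x) * conj (e l x)) μ :=
        hpair _ _ C (hfi.sub (hei l)) (hem l) (heC l)
      have i2 : Integrable (fun x => (f x - e k x) * conj (e l x)) μ :=
        hpair _ _ C (hfi.sub (hei k)) (hem l) (heC l)
      rw [integral_sub i1 i2, h3, h2, sub_zero]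
    have h5 : ∀ x, ‖e k x‖ ^ 2 = ‖e k x - e l x‖ ^ 2 + ‖e l x‖ ^ 2 +
        2 * ((e k x - e l x) * conj (e l x)).re := by
      intro x
      have h6 : e k x = (e k x - e l x) + e l x := by ring
      rw [← Complex.normSq_eq_norm_sq, ← Complex.normSq_eq_norm_sq, ← Complex.normSq_eq_norm_sq]
      conv_lhs => rw [h6]
      exact Complex.normSq_add _ _
    have hk2 : Integrable (fun x => ‖e k x - e l x‖ ^ 2) μ := by
      apply Integrable.of_bound (((hem k).sub (hem l)).norm.pow_const 2).aestronglyMeasurable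
        ((C + C) ^ 2)
      apply Eventually.of_forall
      intro x
      rw [norm_pow, norm_norm]
      exact pow_le_pow_left₀ (norm_nonneg _) ((norm_sub_le _ _).trans
        (add_le_add (heC k x) (heC l x))) 2
    have hre : Integrable (fun x => ((e k x - e l x) * conj (e l x)).re) μ :=
      (hpair _ _ C ((hei k).sub (hei l)) (hem l) (heC l)).re
    have h7 : a k = ∫ x, ‖e k x - e l x‖ ^ 2 ∂μ + a l + 2 * 0 := by
      rw [ha]
      simp only
      simp_rw [h5]
      have i1 : Integrable (fun x => ‖e k x - e l x‖ ^ 2 + ‖e l x‖ ^ 2) μ := hk2.add (hsq l)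
      rw [integral_add i1 (hre.const_mul 2), integral_add hk2 (hsq l), integral_const_mul]
      congr 2
      have i2 : Integrable (fun x => (e k x - e l x) * conj (e l x)) μ :=
        hpair _ _ C ((hei k).sub (hei l)) (hem l) (heC l)
      have := integral_re (𝕜 := ℂ) i2
      simp only [RCLike.re_to_complex] at this
      rw [this, h1]
      simp
    linarith
  have hanti : Antitone a := by
    intro k l hkl
    have := hdiff k l hkl
    have h0 : 0 ≤ ∫ x, ‖e k x - e l x‖ ^ 2 ∂μ := integral_nonneg fun x => by positivity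
    linarith
  have hbdd : BddBelow (Set.range a) := ⟨0, by
    rintro _ ⟨k, rfl⟩
    exact integral_nonneg fun x => by positivity⟩
  have hlim := tendsto_atTop_ciInf hanti hbdd
  -- Cauchy property in mean
  have hcau : ∀ δ : ℝ, 0 < δ → ∃ K, ∀ k l, K ≤ k → K ≤ l → ∫ x, ‖e k x - e l x‖ ∂μ ≤ δ := by
    intro δ hδ
    obtain ⟨K, hK⟩ := (Metric.cauchySeq_iff.1 hlim.cauchySeq) (δ ^ 2) (by positivity)
    have hmain : ∀ k l, K ≤ k → k ≤ l → ∫ x, ‖e k x - e l x‖ ∂μ ≤ δ := by
      intro k l hk hkl
      have h1 := hK k hk l (hk.trans hkl)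
      rw [Real.dist_eq] at h1
      have h2 := (le_abs_self _).trans h1.le
      have h3 := sq_int_le (μ := μ) (fun x => e k x - e l x) (C + C) ((hem k).sub (hem l))
        (fun x => (norm_sub_le _ _).trans (add_le_add (heC k x) (heC l x)))
      rw [hdiff k l hkl] at h3
      have h4 : 0 ≤ ∫ x, ‖e k x - e l x‖ ∂μ := integral_nonneg fun x => norm_nonneg _
      exact abs_le_of_sq_le_sq' (h3.trans h2) hδ.le |>.2
    refine ⟨K, fun k l hk hl => ?_⟩
    rcases le_total k l with h | h
    · exact hmain k l hk h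
    · have := hmain l k hl h
      simp_rw [norm_sub_rev (e k _)]
      exact this
  choose K hK using fun i : ℕ => hcau ((1 / 4) ^ i) (by positivity)
  set κ : ℕ → ℕ := fun i => i + ∑ j ∈ range (i + 1), K j with hκ
  have hκK : ∀ i, K i ≤ κ i := by
    intro i
    have : K i ≤ ∑ j ∈ range (i + 1), K j :=
      Finset.single_le_sum (f := K) (fun _ _ => Nat.zero_le _) (Finset.self_mem_range_succ i)
    rw [hκ]; simp only; omega
  have hκmono : Monotone κ := by
    apply monotone_nat_of_le_succ
    intro i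
    rw [hκ]; simp only
    rw [Finset.sum_range_succ _ (i + 1)]
    omega
  have hκi : ∀ i, i ≤ κ i := fun i => by rw [hκ]; simp only; omega
  set u : ℕ → X → ℂ := fun i => e (κ i) with hu
  have hae : ∀ᵐ x ∂μ, ∃ l : ℂ, Tendsto (fun i => u i x) atTop (𝓝 l) := by
    have hsum : ∑' i, ENNReal.ofReal (2 * (1 / 4) ^ i) ≠ ∞ := by
      have hs : Summable fun i : ℕ => (2 : ℝ) * (1 / 4) ^ i :=
        (summable_geometric_of_lt_one (by norm_num) (by norm_num)).mul_left 2
      rw [← ENNReal.ofReal_tsum_of_nonneg (fun i => by positivity) hs]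
      exact ENNReal.ofReal_ne_top
    apply Lp.ae_tendsto_of_cauchy_eLpNorm (μ := μ) (p := 1)
      (fun i => (hem (κ i)).aestronglyMeasurable) le_rfl hsum
    intro N n m hn hm
    have h1 := hK N (κ n) (κ m) ((hκK N).trans (hκmono hn)) ((hκK N).trans (hκmono hm))
    have hi : Integrable (u n - u m) μ := (hei _).sub (hei _)
    rw [eLpNorm_one_eq_lintegral_enorm, ← ofReal_integral_norm_eq_lintegral_enorm hi]
    rw [ENNReal.ofReal_lt_ofReal_iff (by positivity)]
    calc _ ≤ (1 / 4 : ℝ) ^ N := h1
      _ < 2 * (1 / 4) ^ N := by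
        have : (0 : ℝ) < (1 / 4) ^ N := by positivity
        linarith
  set g : X → ℂ := fun x => limUnder atTop fun i => u i x with hg
  have hgm : Measurable[⨅ k, B k] g := by
    intro s hs
    rw [MeasurableSpace.measurableSet_iInf]
    intro k
    exact measurable_limUnder (B k) u k (fun i hi => hem' k (κ i) (hi.trans (hκi i))) hs
  have hT : (⨅ k, B k) ≤ m0 := (iInf_le B 0).trans (hle 0)
  have hglim : ∀ᵐ x ∂μ, Tendsto (fun i => u i x) atTop (𝓝 (g x)) := by
    filter_upwards [hae] with x hx
    exact tendsto_nhds_limUnder hx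
  have hgC : ∀ᵐ x ∂μ, ‖g x‖ ≤ C := by
    filter_upwards [hglim] with x hx
    exact le_of_tendsto hx.norm (Eventually.of_forall fun i => heC _ x)
  have hgm0 : Measurable g := fun s hs => hT _ (hgm hs)
  have hgi : Integrable g μ := Integrable.of_bound hgm0.aestronglyMeasurable C hgC
  have hgE : g =ᵐ[μ] μ[f|⨅ k, B k] := by
    apply ae_eq_condExp_of_forall_setIntegral_eq hT hfi
    · intro s _ _
      exact hgi.integrableOn
    · intro s hs _
      have hs0 : MeasurableSet s := hT _ hs
      have h1 : Tendsto (fun i => ∫ x in s, u i x ∂μ) atTop (𝓝 (∫ x in s, g x ∂μ)) := by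
        apply tendsto_integral_of_dominated_convergence (fun _ => C)
          (fun i => (hem _).aestronglyMeasurable) (integrable_const _)
          (fun i => Eventually.of_forall fun x => heC _ x)
        exact ae_restrict_of_ae hglim
      have h2 : ∀ i, ∫ x in s, u i x ∂μ = ∫ x in s, f x ∂μ := by
        intro i
        have hsB : MeasurableSet[B (κ i)] s := by
          rw [MeasurableSpace.measurableSet_iInf] at hs
          exact hs _
        rw [← setIntegral_condExp (hle (κ i)) hfi hsB]
        apply setIntegral_congr_ae hs0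
        filter_upwards [hee (κ i)] with x hx _
        exact hx
      simp_rw [h2] at h1
      exact tendsto_nhds_unique h1 tendsto_const_nhds |>.symm ▸ rfl
    · exact hgm.stronglyMeasurable.aestronglyMeasurable
  have hfin : Tendsto (fun i => ∫ x, ‖u i x - g x‖ ∂μ) atTop (𝓝 0) := by
    have h0 : (0 : ℝ) = ∫ x : X, (0 : ℝ) ∂μ := by simp
    rw [h0]
    apply tendsto_integral_of_dominated_convergence (fun _ => C + C)
      (fun i => ((hem _).sub hgm0).norm.aestronglyMeasurable) (integrable_const _)
    · intro i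
      filter_upwards [hgC] with x hx
      rw [norm_norm]
      exact (norm_sub_le _ _).trans (add_le_add (heC _ x) hx)
    · filter_upwards [hglim] with x hx
      have := (hx.sub_const (g x)).norm
      simpa using this
  obtain ⟨i, hi⟩ := (hfin.eventually (gt_mem_nhds hε)).exists
  refine ⟨κ i, ?_⟩
  have : ∫ x, ‖e (κ i) x - μ[f|⨅ k, B k] x‖ ∂μ = ∫ x, ‖u i x - g x‖ ∂μ := by
    apply integral_congr_ae
    filter_upwards [hgE] with x hx
    simp only [hu, ← hx]
  rw [this]
  exact hi.le

end Pool.Lib.RM
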