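import Mathlib

set_option autoImplicit false

/-!
# Bounded almost everywhere continuous functions on compact spaces

Such functions are squeezed between continuous functions: `|f - φ| ≤ v` with `∫ v ≤ ε`.
-/

open MeasureTheory Filter Topology Finset
open scoped ENNReal NNReal

namespace Pool.Lib.Erg

/-- **Riemann integrable functions.** -/
theorem squeeze_of_ae_continuous {X : Type*} [TopologicalSpace X] [CompactSpace X] [T2Space X]
    [MeasurableSpace X] [BorelSpace X] (μ : Measure X) [IsProbabilityMeasure μ] [μ.OuterRegular]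
    (f : X → ℂ) (M : ℝ) (hM : ∀ x, ‖f x‖ ≤ M) (hc : ∀ᵐ x ∂μ, ContinuousAt f x) (ε : ℝ)
    (hε : 0 < ε) : ∃ (φ : X → ℂ) (v : X → ℝ), Continuous φ ∧ Continuous v ∧
      (∀ x, ‖f x - φ x‖ ≤ v x) ∧ ∫ x, v x ∂μ ≤ ε := by
  classical
  have hM0 : 0 ≤ M := by
    obtain ⟨x⟩ : Nonempty X := by
      by_contra h
      rw [not_nonempty_iff] at h
      have h1 : μ Set.univ = 1 := measure_univ
      rw [Set.univ_eq_empty_iff.2 h, measure_empty] at h1
      exact zero_ne_one h1
    exact (norm_nonneg _).trans (hM x)
  set δ : ℝ := ε / (M + 1) with hδ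
  have hδ0 : 0 < δ := by positivity
  -- the discontinuities
  have hE : μ {x | ¬ ContinuousAt f x} < ENNReal.ofReal δ := by
    rw [ae_iff.1 hc]
    simpa using hδ0
  obtain ⟨U, hEU, hUo, hUδ⟩ := Set.exists_isOpen_lt_of_lt _ _ hE
  have hcont : ∀ x : X, ∃ V : Set X, IsOpen V ∧ (x ∈ Uᶜ → x ∈ V ∧ ∀ y ∈ V, ‖f y - f x‖ ≤ δ) := by
    intro x
    by_cases hx : x ∈ Uᶜ
    · have h1 : ContinuousAt f x := by
        by_contra h
        exact hx (hEU h)
      have h2 : ∀ᶠ y in 𝓝 x, ‖f y - f x‖ < δ := by
        have := h1.eventually (Metric.ball_mem_nhds (f x) hδ0)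
        filter_upwards [this] with y hy
        rwa [← dist_eq_norm]
      obtain ⟨V, hV1, hV2, hV3⟩ := eventually_nhds_iff.1 h2
      exact ⟨V, hV2, fun _ => ⟨hV3, fun y hy => (hV1 y hy).le⟩⟩
    · exact ⟨∅, isOpen_empty, fun h => absurd h hx⟩
  choose V hVo hV using hcont
  obtain ⟨t, htU, htc⟩ := (hUo.isClosed_compl.isCompact).elim_nhds_subcover V
    fun x hx => (hVo x).mem_nhds (hV x hx).1
  -- the cover
  let W : Option t → Set X := fun i => match i with
    | none => U
    | some x => V x
  have hWo : ∀ i, IsOpen (W i) := by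
    intro i
    cases i with
    | none => exact hUo
    | some x => exact hVo x
  have hWc : (Set.univ : Set X) ⊆ ⋃ i, W i := by
    intro x _
    rw [Set.mem_iUnion]
    by_cases hx : x ∈ U
    · exact ⟨none, hx⟩
    · obtain ⟨y, hy, hxy⟩ := Set.mem_iUnion₂.1 (htc hx)
      exact ⟨some ⟨y, hy⟩, hxy⟩
  obtain ⟨ρ, hρ⟩ := PartitionOfUnity.exists_isSubordinate isClosed_univ W hWo hWc
  have hsum : ∀ x, ρ none x + ∑ i : t, ρ (some i) x = 1 := by
    intro x
    have := ρ.sum_eq_one (Set.mem_univ x)
    rw [finsum_eq_sum_of_fintype, Fintype.sum_option] at this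
    exact this
  have hsupp : ∀ i x, ρ i x ≠ 0 → x ∈ W i := fun i x hx => hρ i (subset_tsupport _ hx)
  refine ⟨fun x => ∑ i : t, (ρ (some i) x : ℂ) * f i, fun x => δ + M * ρ none x, ?_, ?_, ?_, ?_⟩
  · apply continuous_finsetSum
    intro i _
    exact (Complex.continuous_ofReal.comp (ρ (some i)).continuous).mul continuous_const
  · exact continuous_const.add (continuous_const.mul (ρ none).continuous)
  · intro x
    have e1 : f x - ∑ i : t, (ρ (some i) x : ℂ) * f i =
        (ρ none x : ℂ) * f x + ∑ i : t, (ρ (some i) x : ℂ) * (f x - f i) := by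
      simp_rw [mul_sub]
      rw [Finset.sum_sub_distrib, ← Finset.sum_mul]
      have h1 : (ρ none x : ℂ) + ∑ i : t, (ρ (some i) x : ℂ) = 1 := by
        have := congrArg (fun r : ℝ => (r : ℂ)) (hsum x)
        push_cast at this
        exact this
      linear_combination (-(f x)) * h1
    rw [e1]
    have h2 : ‖(ρ none x : ℂ) * f x‖ ≤ M * ρ none x := by
      rw [norm_mul, Complex.norm_real, Real.norm_of_nonneg (ρ.nonneg none x), mul_comm]
      exact mul_le_mul_of_nonneg_right (hM x) (ρ.nonneg none x)
    have h3 : ‖∑ i : t, (ρ (some i) x : ℂ) * (f x - f i)‖ ≤ δ := by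
      calc ‖∑ i : t, (ρ (some i) x : ℂ) * (f x - f i)‖
          ≤ ∑ i : t, ‖(ρ (some i) x : ℂ) * (f x - f i)‖ := norm_sum_le _ _
        _ ≤ ∑ i : t, ρ (some i) x * δ := by
            apply Finset.sum_le_sum
            intro i _
            rw [norm_mul, Complex.norm_real, Real.norm_of_nonneg (ρ.nonneg (some i) x)]
            by_cases h0 : ρ (some i) x = 0
            · rw [h0]; simp
            · apply mul_le_mul_of_nonneg_left _ (ρ.nonneg (some i) x)
              exact (hV i (htU i i.2)).2 x (hsupp (some i) x h0)
        _ = (∑ i : t, ρ (some i) x) * δ := by rw [Finset.sum_mul]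
        _ ≤ 1 * δ := by
            apply mul_le_mul_of_nonneg_right _ hδ0.le
            have := hsum x
            have := ρ.nonneg none x
            linarith
        _ = δ := one_mul δ
    calc _ ≤ M * ρ none x + δ := (norm_add_le _ _).trans (add_le_add h2 h3)
      _ = δ + M * ρ none x := add_comm _ _
  · have hint : Integrable (fun x => ρ none x) μ := by
      apply Integrable.of_bound (ρ none).continuous.aestronglyMeasurable 1
      apply Eventually.of_forall
      intro x
      rw [Real.norm_of_nonneg (ρ.nonneg none x)]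
      exact ρ.le_one none x
    rw [integral_add (integrable_const _) (hint.const_mul M), integral_const_mul]
    have h4 : ∫ x, ρ none x ∂μ ≤ δ := by
      have hUm : MeasurableSet U := hUo.measurableSet
      calc ∫ x, ρ none x ∂μ ≤ ∫ x, U.indicator (fun _ => (1 : ℝ)) x ∂μ := by
            apply integral_mono hint ((integrable_const (1 : ℝ)).indicator hUm)
            intro x
            by_cases hx : x ∈ U
            · rw [Set.indicator_of_mem hx]
              exact ρ.le_one none x
            · rw [Set.indicator_of_notMem hx]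
              by_contra h
              exact hx (hsupp none x (by
                intro h0
                exact h (by simp [h0])))
        _ = μ.real U := by
            rw [integral_indicator hUm]
            simp
        _ ≤ δ := by
            unfold Measure.real
            calc (μ U).toReal ≤ (ENNReal.ofReal δ).toReal :=
                  ENNReal.toReal_mono ENNReal.ofReal_ne_top hUδ.le
              _ = δ := ENNReal.toReal_ofReal hδ0.le
    have h5 : ∫ _ : X, δ ∂μ = δ := by simp
    rw [h5]
    calc δ + M * ∫ x, ρ none x ∂μ ≤ δ + M * δ := by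
          have := mul_le_mul_of_nonneg_left h4 hM0
          linarith
      _ = ε := by rw [hδ]; field_simp; ring

end Pool.Lib.Erg
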