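import Mathlib

open CategoryTheory TopologicalSpace Opposite Limits Abelian

universe w u

namespace Pool.Agent.SheafCoh

variable {X : Type u} [TopologicalSpace X]

/-- the free abelian sheaf on an open set -/
noncomputable abbrev freeSh (X : Type u) [TopologicalSpace X] : Opens X ⥤ Sheaf (Opens.grothendieckTopology X) AddCommGrpCat.{u} :=
  yoneda ⋙ (Functor.whiskeringRight _ _ _).obj
      AddCommGrpCat.free ⋙ presheafToSheaf _ _

/-- morphisms from the free abelian presheaf on `U` are sections over `U` -/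
noncomputable def psecEquiv (P : (Opens X)ᵒᵖ ⥤ AddCommGrpCat.{u}) (U : Opens X) :
   (yoneda.obj U ⋙ AddCommGrpCat.free ⟶ P) ≃ P.obj (op U) :=
   (((AddCommGrpCat.adj.whiskerRight (Opens X)ᵒᵖ).homEquiv _ _).trans yonedaEquiv)

theorem psecEquiv_apply (P : (Opens X)ᵒᵖ ⥤ AddCommGrpCat.{u}) (U : Opens X) (φ : yoneda.obj U ⋙ AddCommGrpCat.free ⟶ P) :
  psecEquiv P U φ = φ.app (op U) (FreeAbelianGroup.of (𝟙 U)) := by
  simp only [psecEquiv, Equiv.trans_apply]
  rfl

theorem psecEquiv_add (P : (Opens X)ᵒᵖ ⥤ AddCommGrpCat.{u}) (U : Opens X) (φ ψ : yoneda.obj U ⋙ AddCommGrpCat.free ⟶ P) :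
  psecEquiv P U (φ + ψ) = psecEquiv P U φ + psecEquiv P U ψ := by
  simp only [psecEquiv_apply]
  rfl

/-- morphisms from the free abelian sheaf on `U` are sections over `U` -/
noncomputable def secEquiv' (F : Sheaf (Opens.grothendieckTopology X) AddCommGrpCat.{u}) (U : Opens X) :
    ((freeSh X).obj U ⟶ F) ≃ F.obj.obj (op U) :=
  ((sheafificationAdjunction (Opens.grothendieckTopology X) AddCommGrpCat.{u}).homEquiv _ _).trans
    (psecEquiv F.obj U)

theorem secEquiv'_naturality_right {F G : Sheaf (Opens.grothendieckTopology X) AddCommGrpCat.{u}} (U : Opens X)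
    (φ : (freeSh X).obj U ⟶ F) (g : F ⟶ G) :
    secEquiv' G U (φ ≫ g) = g.hom.app (op U) (secEquiv' F U φ) := by
  simp only [secEquiv', Equiv.trans_apply]
  rw [Adjunction.homEquiv_naturality_right]
  refine (psecEquiv_apply _ _ _).trans ?_
  erw [psecEquiv_apply]
  rfl

theorem secEquiv'_naturality_left (F : Sheaf (Opens.grothendieckTopology X) AddCommGrpCat.{u}) {U V : Opens X}
    (h : V ⟶ U) (φ : (freeSh X).obj U ⟶ F) :
    secEquiv' F V ((freeSh X).map h ≫ φ) = F.obj.map h.op (secEquiv' F U φ) := by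
  simp only [secEquiv', Equiv.trans_apply, Functor.comp_map]
  rw [Adjunction.homEquiv_naturality_left]
  refine (psecEquiv_apply _ _ _).trans ?_
  erw [psecEquiv_apply]
  rw [← ConcreteCategory.comp_apply]
  erw [← NatTrans.naturality]
  rw [NatTrans.comp_app, ConcreteCategory.comp_apply, ConcreteCategory.comp_apply]
  congr 1

/-- morphisms from the free abelian sheaf on `U` are sections over `U` -/
noncomputable def secEquiv (F : Sheaf (Opens.grothendieckTopology X) AddCommGrpCat.{u}) (U : Opens X) :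
    ((freeSh X).obj U ⟶ F) ≃+ F.obj.obj (op U) :=
  AddEquiv.mk' (secEquiv' F U) (by
    intro φ ψ
    simp only [secEquiv', Equiv.trans_apply]
    rw [← psecEquiv_add]
    congr 1)

theorem exists_local_lift {F G : Sheaf (Opens.grothendieckTopology X) AddCommGrpCat.{u}} (g : F ⟶ G) (hg : Epi g)
    (U : Opens X) (t : G.obj.obj (op U)) (x : X) (hx : x ∈ U) :
    ∃ (V : Opens X) (h : V ≤ U), (∃ s, g.hom.app (op V) s = G.obj.map (homOfLE h).op t) ∧ x ∈ V := by
  have h1 : Sheaf.IsLocallySurjective g := (Sheaf.isLocallySurjective_iff_epi' _ g).mpr hg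
  obtain ⟨V, i, ⟨s, hs⟩, hxV⟩ := Presheaf.imageSieve_mem (Opens.grothendieckTopology X) g.hom (U := op U) t x hx
  exact ⟨V, leOfHom i, ⟨s, hs⟩, hxV⟩

theorem subsingleton_bot (F : Sheaf (Opens.grothendieckTopology X) AddCommGrpCat.{u}) :
    Subsingleton (F.obj.obj (op ⊥)) := by
  apply AddCommGrpCat.subsingleton_of_isZero
  exact (Sheaf.isTerminalOfBotCover F ⊥ (by intro x hx; exact hx.elim)).isZero

section
variable [HasExt.{w} (Sheaf (Opens.grothendieckTopology X) AddCommGrpCat.{u})]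

theorem map_apply (F : Sheaf (Opens.grothendieckTopology X) AddCommGrpCat.{u}) (n : ℕ)
    {U V : Opens X} (h : V ⟶ U) (a : F.H' n U) :
    (F.cohomologyPresheaf n).map h.op a = (Ext.mk₀ ((freeSh X).map h)).comp a (zero_add n) := rfl

/-- zeroth cohomology is sections -/
noncomputable def h0Equiv (F : Sheaf (Opens.grothendieckTopology X) AddCommGrpCat.{u}) (U : Opens X) :
    F.H' 0 U ≃+ F.obj.obj (op U) :=
  (Ext.addEquiv₀ (X := (freeSh X).obj U) (Y := F)).trans (secEquiv F U)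

theorem h0Equiv_map (F : Sheaf (Opens.grothendieckTopology X) AddCommGrpCat.{u}) {U V : Opens X} (h : V ⟶ U)
    (a : F.H' 0 U) :
    h0Equiv F V ((F.cohomologyPresheaf 0).map h.op a) = F.obj.map h.op (h0Equiv F U a) := by
  obtain ⟨b, rfl⟩ := (Ext.addEquiv₀ (X := (freeSh X).obj U) (Y := F)).symm.surjective a
  have h1 : (F.cohomologyPresheaf 0).map h.op ((Ext.addEquiv₀ (X := (freeSh X).obj U) (Y := F)).symm b) = 
    (Ext.addEquiv₀ (X := (freeSh X).obj V) (Y := F)).symm ((freeSh X).map h ≫ b) := by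
    rw [map_apply]
    simp 
  rw [h1]
  have h2 : ∀ (V : Opens X) (c : (freeSh X).obj V ⟶ F), h0Equiv F V ((Ext.addEquiv₀ (X := (freeSh X).obj V) (Y := F)).symm c) = secEquiv' F V c := by
    intro V c
    show secEquiv' F V (Ext.addEquiv₀ (Ext.addEquiv₀.symm c)) = _
    rw [AddEquiv.apply_symm_apply]
  rw [h2, h2]
  exact secEquiv'_naturality_left F h b

/-- **Local vanishing**: a cohomology class of positive degree is locally zero. -/
theorem exists_map_eq_zero (n : ℕ) : ∀ (F : Sheaf (Opens.grothendieckTopology X) AddCommGrpCat.{u})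
    (U : Opens X) (a : F.H' (n+1) U) (x : X), x ∈ U →
    ∃ (V : Opens X) (h : V ≤ U), x ∈ V ∧ (F.cohomologyPresheaf (n+1)).map (homOfLE h).op a = 0 := by
  induction n with
  | zero =>
    intro F U a x hx
    let ip : InjectivePresentation F := (EnoughInjectives.presentation F).some
    have hS := ip.shortExact_shortComplex
    have : Injective ip.J := ip.injective
    obtain ⟨b, hb⟩ := Ext.covariant_sequence_exact₁ ((freeSh X).obj U) hS a
      (Ext.eq_zero_of_injective (I := ip.J) _) (n₀ := 0) (by simp)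
    obtain ⟨φ, rfl⟩ := Ext.addEquiv₀.symm.surjective b
    obtain ⟨V, hVU, ⟨t, ht⟩, hV⟩ := exists_local_lift ip.shortComplex.g hS.epi_g U (secEquiv' _ U φ) x hx
    refine ⟨V, hVU, hV, ?_⟩
    have h2 : (freeSh X).map (homOfLE hVU) ≫ φ = (secEquiv' _ V).symm t ≫ ip.shortComplex.g := by
      apply (secEquiv' _ V).injective
      rw [secEquiv'_naturality_left, secEquiv'_naturality_right, Equiv.apply_symm_apply]
      exact ht.symm
    rw [map_apply, ← hb]
    simp only [Ext.addEquiv₀_symm_apply]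
    rw [Ext.mk₀_comp_mk₀_assoc, h2, ← Ext.mk₀_comp_mk₀_assoc, hS.comp_extClass, Ext.comp_zero]
    rfl
  | succ n ih =>
    intro F U a x hx
    let ip : InjectivePresentation F := (EnoughInjectives.presentation F).some
    have hS := ip.shortExact_shortComplex
    have : Injective ip.J := ip.injective
    obtain ⟨b, hb⟩ := Ext.covariant_sequence_exact₁ ((freeSh X).obj U) hS a
      (Ext.eq_zero_of_injective (I := ip.J) _) (n₀ := n + 1) (by simp)
    obtain ⟨V, hVU, hV, h3⟩ := ih ip.shortComplex.X₃ U b x hx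
    refine ⟨V, hVU, hV, ?_⟩
    rw [map_apply] at h3 ⊢
    rw [← hb, ← Ext.comp_assoc (h₁₂ := zero_add (n+1)) (h₂₃ := rfl) (h := by omega)]
    replace h3 : (Ext.mk₀ ((freeSh X).map (homOfLE hVU))).comp b (zero_add (n+1)) = 0 := h3
    rw [h3]
    exact Ext.zero_comp ..

/-- **Mayer-Vietoris, elementwise**: a class on `W₄ = W₂ ∪ W₃` that vanishes on `W₂` and on `W₃` is zero
as soon as `H^n(W₂) ⊕ H^n(W₃) → H^n(W₂ ∩ W₃)` is onto. -/
theorem mv_eq_zero (F : Sheaf (Opens.grothendieckTopology X) AddCommGrpCat.{u}) {W₁ W₂ W₃ W₄ : Opens X}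
    (h₄ : W₄ = W₂ ⊔ W₃) (h₁ : W₁ = W₂ ⊓ W₃) (n : ℕ) (a : F.H' (n+1) W₄)
    (h12 : W₁ ≤ W₂) (h13 : W₁ ≤ W₃) (h24 : W₂ ≤ W₄) (h34 : W₃ ≤ W₄)
    (ha2 : (F.cohomologyPresheaf (n+1)).map (homOfLE h24).op a = 0)
    (ha3 : (F.cohomologyPresheaf (n+1)).map (homOfLE h34).op a = 0)
    (hs : ∀ y : F.H' n W₁, ∃ (y2 : F.H' n W₂) (y3 : F.H' n W₃),
      y = (F.cohomologyPresheaf n).map (homOfLE h12).op y2 - (F.cohomologyPresheaf n).map (homOfLE h13).op y3) :
    a = 0 := by
  let S : (Opens.grothendieckTopology X).MayerVietorisSquare := Opens.mayerVietorisSquare'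
    { X₁ := W₁
      X₂ := W₂
      X₃ := W₃
      X₄ := W₄
      f₁₂ := homOfLE h12
      f₁₃ := homOfLE h13
      f₂₄ := homOfLE h24
      f₃₄ := homOfLE h34
      fac := Subsingleton.elim _ _ } h₄ h₁
  have hex := S.sequence_exact F n (n+1) rfl
  have h2 := (hex.exact 2)
  rw [ShortComplex.ab_exact_iff] at h2
  have h3 : S.toBiprod F (n+1) a = 0 := by
    rw [GrothendieckTopology.MayerVietorisSquare.toBiprod_apply]
    have e1 : (F.cohomologyPresheaf (n+1)).map S.f₂₄.op a = 0 := ha2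
    have e2 : (F.cohomologyPresheaf (n+1)).map S.f₃₄.op a = 0 := ha3
    rw [e1, e2]
    exact map_zero (AddCommGrpCat.biprodIsoProd _ _).inv.hom
  obtain ⟨y, hy⟩ := h2 a h3
  have hy' : S.δ F n (n+1) rfl y = a := hy
  obtain ⟨y2, y3, rfl⟩ := hs y
  have h4 : S.fromBiprod F n ((AddCommGrpCat.biprodIsoProd _ _).inv ⟨y2, y3⟩) =
     (F.cohomologyPresheaf n).map (homOfLE h12).op y2 - (F.cohomologyPresheaf n).map (homOfLE h13).op y3 :=
    S.fromBiprod_biprodIsoProd_inv_apply F y2 y3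
  rw [← hy', ← h4, ← ConcreteCategory.comp_apply, S.fromBiprod_δ F n (n+1) rfl]
  rfl

/-- composition of restrictions -/
theorem map_map (F : Sheaf (Opens.grothendieckTopology X) AddCommGrpCat.{u}) (n : ℕ)
    {U V W : Opens X} (h1 : V ≤ U) (h2 : W ≤ V) (a : F.H' n U) :
    (F.cohomologyPresheaf n).map (homOfLE h2).op ((F.cohomologyPresheaf n).map (homOfLE h1).op a) =
      (F.cohomologyPresheaf n).map (homOfLE (h2.trans h1)).op a := by
  rw [← ConcreteCategory.comp_apply, ← Functor.map_comp]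
  rfl

theorem eq_zero_of_eq (F : Sheaf (Opens.grothendieckTopology X) AddCommGrpCat.{u}) (n : ℕ)
    {U V : Opens X} (h : V ≤ U) (e : V = U) (a : F.H' n U) (ha : (F.cohomologyPresheaf n).map (homOfLE h).op a = 0) :
    a = 0 := by
  subst e
  have : (homOfLE h).op = 𝟙 _ := rfl
  rw [this, CategoryTheory.Functor.map_id] at ha
  exact ha

/-- cohomology of the empty set vanishes -/
theorem eq_zero_of_bot (F : Sheaf (Opens.grothendieckTopology X) AddCommGrpCat.{u}) (n : ℕ)
    (a : F.H' n ⊥) : a = 0 := by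
  have h0 : 𝟙 ((freeSh X).obj ⊥) = 0 := by
    apply (secEquiv' _ ⊥).injective
    have := subsingleton_bot ((freeSh X).obj ⊥)
    exact Subsingleton.elim _ _
  have h1 : (Ext.mk₀ (𝟙 ((freeSh X).obj ⊥))).comp a (zero_add n) = a := Ext.mk₀_id_comp _
  rw [← h1, h0, Ext.mk₀_zero]
  exact Ext.zero_comp ..

/-- restriction of cohomology classes -/
noncomputable def res (F : Sheaf (Opens.grothendieckTopology X) AddCommGrpCat.{u}) (n : ℕ)
    {U V : Opens X} (h : V ≤ U) : F.H' n U →+ F.H' n V :=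
  ((F.cohomologyPresheaf n).map (homOfLE h).op).hom

theorem res_def (F : Sheaf (Opens.grothendieckTopology X) AddCommGrpCat.{u}) (n : ℕ)
    {U V : Opens X} (h : V ≤ U) (a : F.H' n U) :
    res F n h a = (F.cohomologyPresheaf n).map (homOfLE h).op a := rfl

theorem res_res (F : Sheaf (Opens.grothendieckTopology X) AddCommGrpCat.{u}) (n : ℕ)
    {U V W : Opens X} (h1 : V ≤ U) (h2 : W ≤ V) (a : F.H' n U) :
    res F n h2 (res F n h1 a) = res F n (h2.trans h1) a :=
  map_map F n h1 h2 a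

theorem eq_zero_of_res (F : Sheaf (Opens.grothendieckTopology X) AddCommGrpCat.{u}) (n : ℕ)
    {U V : Opens X} (h : V ≤ U) (e : V = U) (a : F.H' n U) (ha : res F n h a = 0) :
    a = 0 := eq_zero_of_eq F n h e a ha

theorem exists_res_eq_zero (n : ℕ) (F : Sheaf (Opens.grothendieckTopology X) AddCommGrpCat.{u})
    (U : Opens X) (a : F.H' (n+1) U) (x : X) (hx : x ∈ U) :
    ∃ (V : Opens X) (h : V ≤ U), x ∈ V ∧ res F (n+1) h a = 0 :=
  exists_map_eq_zero n F U a x hx

theorem mv_res_eq_zero (F : Sheaf (Opens.grothendieckTopology X) AddCommGrpCat.{u}) {W₁ W₂ W₃ W₄ : Opens X}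
    (h₄ : W₄ = W₂ ⊔ W₃) (h₁ : W₁ = W₂ ⊓ W₃) (n : ℕ) (a : F.H' (n+1) W₄)
    (h12 : W₁ ≤ W₂) (h13 : W₁ ≤ W₃) (h24 : W₂ ≤ W₄) (h34 : W₃ ≤ W₄)
    (ha2 : res F (n+1) h24 a = 0)
    (ha3 : res F (n+1) h34 a = 0)
    (hs : ∀ y : F.H' n W₁, ∃ (y2 : F.H' n W₂) (y3 : F.H' n W₃),
      y = res F n h12 y2 - res F n h13 y3) :
    a = 0 :=
  mv_eq_zero F h₄ h₁ n a h12 h13 h24 h34 ha2 ha3 hs

theorem h0Equiv_res (F : Sheaf (Opens.grothendieckTopology X) AddCommGrpCat.{u}) {U V : Opens X} (h : V ≤ U)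
    (a : F.H' 0 U) :
    h0Equiv F V (res F 0 h a) = F.obj.map (homOfLE h).op (h0Equiv F U a) :=
  h0Equiv_map F (homOfLE h) a

end

end Pool.Agent.SheafCoh
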