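import Mathlib
import Pool.Agent.Lib.SheafCohBasic

open CategoryTheory TopologicalSpace Opposite Limits Abelian AlgebraicGeometry

universe u

namespace Pool.Agent.SheafCoh

theorem split_section {V : Scheme.{u}} {W : V.Opens} (hW : IsAffineOpen W) (f g : Γ(V, W)) (hu : IsUnit (f + g))
    {W₁ W₂ W₃ : V.Opens} (h2 : W₂ = V.basicOpen f) (h3 : W₃ = V.basicOpen g) (h1 : W₁ = W₂ ⊓ W₃)
    (h12 : W₁ ≤ W₂) (h13 : W₁ ≤ W₃) (y : Γ(V, W₁)) :
    ∃ (y2 : Γ(V, W₂)) (y3 : Γ(V, W₃)),
      y = V.presheaf.map (homOfLE h12).op y2 - V.presheaf.map (homOfLE h13).op y3 := by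
  have h2W : W₂ ≤ W := h2 ▸ V.basicOpen_le f
  have h3W : W₃ ≤ W := h3 ▸ V.basicOpen_le g
  have h1W : W₁ ≤ W := h12.trans h2W
  have hfg : W₁ = V.basicOpen (f * g) := by rw [Scheme.basicOpen_mul, h1, h2, h3]
  let _ := (V.presheaf.map (homOfLE h1W).op).hom.toAlgebra
  have : IsLocalization.Away (f * g) Γ(V, W₁) := hW.isLocalization_of_eq_basicOpen (f * g) (homOfLE h1W) hfg
  obtain ⟨⟨c, ⟨_, k, rfl⟩⟩, hc⟩ := IsLocalization.surj (Submonoid.powers (f * g)) y
  have hcop : IsCoprime f g := by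
    obtain ⟨v, hv⟩ := hu.exists_left_inv
    exact ⟨v, v, by rw [← hv]; ring⟩
  obtain ⟨a, b, hab⟩ : IsCoprime (f ^ k) (g ^ k) := hcop.pow
  have uf : IsUnit (V.presheaf.map (homOfLE h2W).op f) := by
    subst h2
    exact RingedSpace.isUnit_res_basicOpen V.toRingedSpace f
  have ug : IsUnit (V.presheaf.map (homOfLE h3W).op g) := by
    subst h3
    exact RingedSpace.isUnit_res_basicOpen V.toRingedSpace g
  obtain ⟨fi, hfi⟩ := uf.exists_left_inv
  obtain ⟨gi, hgi⟩ := ug.exists_left_inv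
  have r2 : ∀ z : Γ(V, W), V.presheaf.map (homOfLE h12).op (V.presheaf.map (homOfLE h2W).op z) = V.presheaf.map (homOfLE h1W).op z := by
    intro z
    rw [← ConcreteCategory.comp_apply, ← Functor.map_comp]
    rfl
  have r3 : ∀ z : Γ(V, W), V.presheaf.map (homOfLE h13).op (V.presheaf.map (homOfLE h3W).op z) = V.presheaf.map (homOfLE h1W).op z := by
    intro z
    rw [← ConcreteCategory.comp_apply, ← Functor.map_comp]
    rfl
  refine ⟨V.presheaf.map (homOfLE h2W).op (c * b) * fi ^ k, - (V.presheaf.map (homOfLE h3W).op (c * a) * gi ^ k), ?_⟩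
  have hfi' : V.presheaf.map (homOfLE h12).op fi * V.presheaf.map (homOfLE h1W).op f = 1 := by
    rw [← r2, ← map_mul, hfi, map_one]
  have hgi' : V.presheaf.map (homOfLE h13).op gi * V.presheaf.map (homOfLE h1W).op g = 1 := by
    rw [← r3, ← map_mul, hgi, map_one]
  have hc' : y * (V.presheaf.map (homOfLE h1W).op ((f * g) ^ k)) = V.presheaf.map (homOfLE h1W).op c := hc
  have huf : IsUnit (V.presheaf.map (homOfLE h1W).op f) := IsUnit.of_mul_eq_one_right _ hfi'
  have hug : IsUnit (V.presheaf.map (homOfLE h1W).op g) := IsUnit.of_mul_eq_one_right _ hgi'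
  have hufg : IsUnit ((V.presheaf.map (homOfLE h1W).op f) ^ k * (V.presheaf.map (homOfLE h1W).op g) ^ k) := (huf.pow k).mul (hug.pow k)
  rw [← hufg.mul_left_inj]
  have e1 : (V.presheaf.map (homOfLE h1W).op f) ^ k * (V.presheaf.map (homOfLE h1W).op g) ^ k = V.presheaf.map (homOfLE h1W).op ((f * g) ^ k) := by
    rw [mul_pow, map_mul, map_pow, map_pow]
  rw [e1, hc', ← e1]
  simp only [map_mul, map_neg, map_pow, r2, r3]
  have hab' : (V.presheaf.map (homOfLE h1W).op a) * (V.presheaf.map (homOfLE h1W).op f) ^ k + (V.presheaf.map (homOfLE h1W).op b) * (V.presheaf.map (homOfLE h1W).op g) ^ k = 1 := by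
    rw [← map_pow, ← map_pow, ← map_mul, ← map_mul, ← map_add, hab, map_one]
  generalize V.presheaf.map (homOfLE h12).op fi = fi' at *
  generalize V.presheaf.map (homOfLE h13).op gi = gi' at *
  generalize V.presheaf.map (homOfLE h1W).op f = f' at *
  generalize V.presheaf.map (homOfLE h1W).op g = g' at *
  generalize V.presheaf.map (homOfLE h1W).op a = a' at *
  generalize V.presheaf.map (homOfLE h1W).op b = b' at *
  generalize V.presheaf.map (homOfLE h1W).op c = c' at *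
  have e2 : fi' ^ k * f' ^ k = 1 := by rw [← mul_pow, hfi', one_pow]
  have e3 : gi' ^ k * g' ^ k = 1 := by rw [← mul_pow, hgi', one_pow]
  calc c' = c' * (a' * f' ^ k + b' * g' ^ k) := by rw [hab', mul_one]
    _ = c' * a' * f' ^ k * 1 + c' * b' * g' ^ k * 1 := by ring
    _ = c' * a' * f' ^ k * (gi' ^ k * g' ^ k) + c' * b' * g' ^ k * (fi' ^ k * f' ^ k) := by rw [e2, e3]
    _ = _ := by ring


/-- the structure sheaf as a sheaf of abelian groups -/
noncomputable def OV (V : Scheme.{u}) : Sheaf (Opens.grothendieckTopology V) AddCommGrpCat.{u} :=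
  (SheafOfModules.toSheaf _).obj (SheafOfModules.unit V.ringCatSheaf)

attribute [local irreducible] res

section
variable (V : Scheme.{u})

/-- splitting of classes in degree `0` for `OV` -/
theorem split_H0 {W : V.Opens} (hW : IsAffineOpen W) (f g : Γ(V, W)) (hu : IsUnit (f + g))
    {W₁ W₂ W₃ : V.Opens} (h2 : W₂ = V.basicOpen f) (h3 : W₃ = V.basicOpen g) (h1 : W₁ = W₂ ⊓ W₃)
    (h12 : W₁ ≤ W₂) (h13 : W₁ ≤ W₃) (y : (OV V).H' 0 W₁) :
    ∃ (y2 : (OV V).H' 0 W₂) (y3 : (OV V).H' 0 W₃),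
      y = res (OV V) 0 h12 y2 -
        res (OV V) 0 h13 y3 := by
  obtain ⟨z2, z3, hz⟩ := split_section hW f g hu h2 h3 h1 h12 h13 (h0Equiv (OV V) W₁ y)
  refine ⟨(h0Equiv (OV V) W₂).symm z2, (h0Equiv (OV V) W₃).symm z3, ?_⟩
  apply (h0Equiv (OV V) W₁).injective
  rw [map_sub]
  refine hz.trans (congrArg₂ (· - ·) ?_ ?_)
  · exact (congrArg ((OV V).obj.map (homOfLE h12).op) (AddEquiv.apply_symm_apply (h0Equiv (OV V) W₂) z2).symm).trans
      (h0Equiv_res (OV V) h12 _).symm
  · exact (congrArg ((OV V).obj.map (homOfLE h13).op) (AddEquiv.apply_symm_apply (h0Equiv (OV V) W₃) z3).symm).trans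
      (h0Equiv_res (OV V) h13 _).symm

theorem add_step (n : ℕ)
    (IH : ∀ W : V.Opens, IsAffineOpen W → ∀ (f g : Γ(V, W)) (_ : IsUnit (f + g)) {W₁ W₂ W₃ : V.Opens}
      (_ : W₂ = V.basicOpen f) (_ : W₃ = V.basicOpen g) (_ : W₁ = W₂ ⊓ W₃)
      (h12 : W₁ ≤ W₂) (h13 : W₁ ≤ W₃) (y : (OV V).H' n W₁),
      ∃ (y2 : (OV V).H' n W₂) (y3 : (OV V).H' n W₃),
      y = res (OV V) n h12 y2 -
        res (OV V) n h13 y3)
    {U : V.Opens} (hU : IsAffineOpen U) (a : (OV V).H' (n + 1) U)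
    (f g : Γ(V, U)) (hf : res (OV V) (n+1) (V.basicOpen_le f) a = 0)
    (hg : res (OV V) (n+1) (V.basicOpen_le g) a = 0) :
    res (OV V) (n+1) (V.basicOpen_le (f + g)) a = 0 := by
  have hW : IsAffineOpen (V.basicOpen (f + g)) := hU.basicOpen _
  have hle := V.basicOpen_le (f + g)
  have key : ∀ (W : V.Opens) (hWdef : V.basicOpen (f + g) = W) (hle : W ≤ U), res (OV V) (n+1) hle a = 0 := by
    intro W hWdef hle
    have hWa : IsAffineOpen W := hWdef ▸ hW
    let f' : Γ(V, W) := V.presheaf.map (homOfLE hle).op f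
    let g' : Γ(V, W) := V.presheaf.map (homOfLE hle).op g
    have hf' : V.basicOpen f' = W ⊓ V.basicOpen f := V.basicOpen_res _ _
    have hg' : V.basicOpen g' = W ⊓ V.basicOpen g := V.basicOpen_res _ _
    have hu : IsUnit (f' + g') := by
      have : f' + g' = V.presheaf.map (homOfLE hle).op (f + g) := (map_add _ _ _).symm
      rw [this]
      subst hWdef
      exact RingedSpace.isUnit_res_basicOpen V.toRingedSpace (f + g)
    have hcov : W = V.basicOpen f' ⊔ V.basicOpen g' := by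
      apply le_antisymm
      · rw [hf', hg', ← inf_sup_left]
        refine le_inf le_rfl ?_
        rw [← hWdef]
        exact V.basicOpen_add_le f g
      · exact sup_le (V.basicOpen_le _) (V.basicOpen_le _)
    have hle2 : V.basicOpen f' ≤ V.basicOpen f := hf' ▸ inf_le_right
    have hle3 : V.basicOpen g' ≤ V.basicOpen g := hg' ▸ inf_le_right
    refine mv_res_eq_zero (OV V) (W₁ := V.basicOpen f' ⊓ V.basicOpen g') (W₂ := V.basicOpen f') (W₃ := V.basicOpen g') (W₄ := W) hcov rfl n _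
      inf_le_left inf_le_right (V.basicOpen_le _) (V.basicOpen_le _) ?_ ?_ ?_
    · refine (res_res (OV V) (n+1) hle (V.basicOpen_le f') a).trans ?_
      exact (res_res (OV V) (n+1) (V.basicOpen_le f) hle2 a).symm.trans (by rw [hf, map_zero])
    · refine (res_res (OV V) (n+1) hle (V.basicOpen_le g') a).trans ?_
      exact (res_res (OV V) (n+1) (V.basicOpen_le g) hle3 a).symm.trans (by rw [hg, map_zero])
    · intro y
      exact IH W hWa f' g' hu rfl rfl rfl _ _ y
  exact key _ rfl _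

theorem zero_step (n : ℕ) {U : V.Opens} (a : (OV V).H' (n + 1) U) :
    res (OV V) (n+1) (V.basicOpen_le (0 : Γ(V, U))) a = 0 := by
  have key : ∀ (W : V.Opens) (hW : W = ⊥) (hle : W ≤ U), res (OV V) (n+1) hle a = 0 := by
    intro W hW hle
    subst hW
    exact eq_zero_of_bot (OV V) (n+1) _
  exact key _ (V.basicOpen_zero U) _

theorem smul_step (n : ℕ) {U : V.Opens} (a : (OV V).H' (n + 1) U) (c f : Γ(V, U))
    (hf : res (OV V) (n+1) (V.basicOpen_le f) a = 0) :
    res (OV V) (n+1) (V.basicOpen_le (c * f)) a = 0 := by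
  have hle2 : V.basicOpen (c * f) ≤ V.basicOpen f := by
    rw [Scheme.basicOpen_mul]
    exact inf_le_right
  rw [← res_res (OV V) (n+1) (V.basicOpen_le f) hle2, hf, map_zero]

theorem ideal_step (n : ℕ)
    (IH : ∀ W : V.Opens, IsAffineOpen W → ∀ (f g : Γ(V, W)) (_ : IsUnit (f + g)) {W₁ W₂ W₃ : V.Opens}
      (_ : W₂ = V.basicOpen f) (_ : W₃ = V.basicOpen g) (_ : W₁ = W₂ ⊓ W₃)
      (h12 : W₁ ≤ W₂) (h13 : W₁ ≤ W₃) (y : (OV V).H' n W₁),
      ∃ (y2 : (OV V).H' n W₂) (y3 : (OV V).H' n W₃),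
      y = res (OV V) n h12 y2 - res (OV V) n h13 y3)
    {U : V.Opens} (hU : IsAffineOpen U) (a : (OV V).H' (n + 1) U) : a = 0 := by
  let I : Ideal Γ(V, U) :=
    { carrier := {f | res (OV V) (n+1) (V.basicOpen_le f) a = 0}
      add_mem' := fun {f g} hf hg => add_step V n IH hU a f g hf hg
      zero_mem' := zero_step V n a
      smul_mem' := fun c f hf => smul_step V n a c f hf }
  have hI : I = ⊤ := by
    rw [← Ideal.span_eq I, ← hU.self_le_iSup_basicOpen_iff]
    intro x hx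
    obtain ⟨W, hWU, hxW, hW0⟩ := exists_res_eq_zero n (OV V) U a x hx
    obtain ⟨f, hfW, hxf⟩ := hU.exists_basicOpen_le (V := W) ⟨x, hxW⟩ hx
    have hfI : f ∈ I := by
      show res (OV V) (n+1) (V.basicOpen_le f) a = 0
      rw [← res_res (OV V) (n+1) hWU hfW, hW0, map_zero]
    exact Opens.mem_iSup.mpr ⟨⟨f, hfI⟩, hxf⟩
  have h1 : (1 : Γ(V, U)) ∈ I := hI ▸ Submodule.mem_top
  exact eq_zero_of_res (OV V) (n+1) (V.basicOpen_le 1) V.basicOpen_one a h1

/-- **Acyclicity of affine opens** for the structure sheaf. -/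
theorem affine_acyclic (n : ℕ) {U : V.Opens} (hU : IsAffineOpen U) : Subsingleton ((OV V).H' (n + 1) U) := by
  induction n generalizing U with
  | zero =>
    refine subsingleton_of_forall_eq 0 fun a => ?_
    refine ideal_step V 0 ?_ hU a
    intro W hW f g hu W₁ W₂ W₃ h2 h3 h1 h12 h13 y
    exact split_H0 V hW f g hu h2 h3 h1 h12 h13 y
  | succ n ih =>
    refine subsingleton_of_forall_eq 0 fun a => ?_
    refine ideal_step V (n+1) ?_ hU a
    intro W hW f g hu W₁ W₂ W₃ h2 h3 h1 h12 h13 y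
    have haff : IsAffineOpen W₁ := by
      rw [h1, h2, h3, ← Scheme.basicOpen_mul]
      exact hW.basicOpen _
    have := ih haff
    exact ⟨0, 0, Subsingleton.elim _ _⟩

end

end Pool.Agent.SheafCoh
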