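import Mathlib
import Pool.Agent.Lib.SheafCohAffine

/-!
# Sheaf cohomology: `F.H n` versus `F.H' n ⊤`

For a terminal object `T` of a site, `Sheaf.H F n` (Ext groups from the constant sheaf `ℤ`) and
`Sheaf.H' F n T` (Ext groups from the free abelian sheaf on `yoneda.obj T`) agree.
-/

universe w' u v

open CategoryTheory Opposite Limits

namespace Pool.Agent.SheafCoh

noncomputable section

variable {C : Type u} [Category.{v} C] {J : GrothendieckTopology C}

/-- `ℤ` (lifted) is the free abelian group on a type with one element. -/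
def uliftIntFree (α : Type v) [Unique α] :
    AddCommGrpCat.free.{v}.obj α ≅ AddCommGrpCat.of (ULift.{v} ℤ) :=
  (AddEquiv.toAddCommGrpIso
    (X := AddCommGrpCat.of (FreeAbelianGroup α)) (Y := AddCommGrpCat.of (ULift.{v} ℤ))
    ((FreeAbelianGroup.uniqueEquiv α).trans AddEquiv.ulift.symm))

/-- For `T` terminal the free abelian presheaf on `yoneda.obj T` is the constant presheaf `ℤ`. -/
def constIsoFree {T : C} (hT : IsTerminal T) :
    (yoneda.obj T ⋙ AddCommGrpCat.free.{v}) ≅
      (Functor.const Cᵒᵖ).obj (AddCommGrpCat.of (ULift.{v} ℤ)) :=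
  NatIso.ofComponents
    (fun U => by
      haveI : Unique ((yoneda.obj T).obj U) := ⟨⟨hT.from U.unop⟩, fun a => hT.hom_ext _ _⟩
      exact uliftIntFree ((yoneda.obj T).obj U))
    (by
      intro U V f
      apply AddCommGrpCat.hom_ext
      apply FreeAbelianGroup.lift_ext
      intro x
      rfl)

variable [HasSheafify J AddCommGrpCat.{v}] [HasExt.{w'} (Sheaf J AddCommGrpCat.{v})]

theorem subsingleton_H_of_isTerminal (F : Sheaf J AddCommGrpCat.{v}) (n : ℕ) {T : C}
    (hT : IsTerminal T) (h : Subsingleton (F.H' n T)) : Subsingleton (F.H n) := by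
  have e : (presheafToSheaf J AddCommGrpCat.{v}).obj (yoneda.obj T ⋙ AddCommGrpCat.free.{v}) ≅
      (constantSheaf J AddCommGrpCat.{v}).obj (AddCommGrpCat.of (ULift.{v} ℤ)) :=
    (presheafToSheaf J AddCommGrpCat.{v}).mapIso (constIsoFree hT)
  have h' : Subsingleton (Abelian.Ext ((presheafToSheaf J AddCommGrpCat.{v}).obj
    (yoneda.obj T ⋙ AddCommGrpCat.free.{v})) F n) := h
  refine ⟨fun x y => ?_⟩
  have key : ∀ x : F.H n, x = (Abelian.Ext.mk₀ e.inv).comp ((Abelian.Ext.mk₀ e.hom).comp x (zero_add n)) (zero_add n) := by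
    intro x
    rw [Abelian.Ext.mk₀_comp_mk₀_assoc]
    simp
  rw [key x, key y, Subsingleton.elim ((Abelian.Ext.mk₀ e.hom).comp x (zero_add n)) ((Abelian.Ext.mk₀ e.hom).comp y (zero_add n))]

end

/-- On a topological space: if `H' n ⊤` vanishes, so does `H n`. -/
theorem subsingleton_H_of_top {X : Type u} [TopologicalSpace X]
    (F : Sheaf (Opens.grothendieckTopology X) AddCommGrpCat.{u}) (n : ℕ)
    (h : Subsingleton (F.H' n (⊤ : TopologicalSpace.Opens X))) : Subsingleton (F.H n) :=
  subsingleton_H_of_isTerminal F n (Limits.isTerminalTop) h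

open AlgebraicGeometry in
theorem subsingleton_H_OV (V : Scheme.{u}) (n : ℕ)
    (h : Subsingleton ((OV V).H' n (⊤ : V.Opens))) : Subsingleton ((OV V).H n) :=
  subsingleton_H_of_isTerminal (OV V) n (Limits.isTerminalTop (α := TopologicalSpace.Opens V)) h

end Pool.Agent.SheafCoh
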